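import Pool.Agent.Lib.MP_7b5e47_an.Hn.BChart

namespace Pool.Agent.Lib.MP_7b5e47_an.Hn

open Filter Topology Set Metric MeasureTheory

/-! Holomorphic automorphisms, Green functions, time reversal. All routine. -/

/-- Cauchy estimate along complex lines: apply `Complex.norm_deriv_le_of_forall_mem_sphere_norm_le`
to `t ↦ f (z + t • v)`. -/
theorem norm_fderiv_le_of_bd {f : E → E} (hf : Differentiable ℂ f) {z : E} {r B : ℝ} (hr : 0 < r)
    (hB : ∀ w ∈ closedBall z r, ‖f w‖ ≤ B) : ‖fderiv ℂ f z‖ ≤ B / r := by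
  have hB0 : 0 ≤ B := (norm_nonneg _).trans (hB z (mem_closedBall_self hr.le))
  refine ContinuousLinearMap.opNorm_le_of_unit_norm (by positivity) fun v hv => ?_
  have h1 : HasDerivAt (fun t : ℂ => z + t • v) v 0 := by
    simpa using ((hasDerivAt_id (0 : ℂ)).smul_const v).const_add z
  have h2 : HasDerivAt (fun t : ℂ => f (z + t • v)) (fderiv ℂ f z v) 0 :=
    HasFDerivAt.comp_hasDerivAt_of_eq (0 : ℂ) (hf z).hasFDerivAt h1 (by simp)
  rw [← h2.deriv]
  refine Complex.norm_deriv_le_of_forall_mem_sphere_norm_le hr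
    (Differentiable.diffContOnCl (by fun_prop)) fun t ht => hB _ ?_
  rw [mem_sphere_zero_iff_norm] at ht
  rw [mem_closedBall_iff_norm, add_sub_cancel_left, norm_smul, ht, hv, mul_one]

/-- Apply `norm_fderiv_le_of_bd` at `0` to `x ↦ f (z + x) - f (w + x)`. -/
theorem norm_fderiv_sub_le {f : E → E} (hf : Differentiable ℂ f) {z w : E} {r L : ℝ} (hr : 0 < r)
    (hL : ∀ x ∈ closedBall (0 : E) r, ‖f (z + x) - f (w + x)‖ ≤ L) :
    ‖fderiv ℂ f z - fderiv ℂ f w‖ ≤ L / r := by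
  have h1 : ∀ y : E, HasFDerivAt (fun x => f (y + x)) (fderiv ℂ f y) 0 := fun y => by
    have h2 : HasFDerivAt f (fderiv ℂ f y) (y + 0) := by
      rw [add_zero]
      exact (hf y).hasFDerivAt
    exact (hasFDerivAt_comp_add_left y).2 h2
  have h3 := norm_fderiv_le_of_bd (f := fun x => f (z + x) - f (w + x)) (by fun_prop) hr hL
  rwa [((h1 z).fun_sub (h1 w)).fderiv] at h3

/-- on bounded sets `f` has bounded derivative, is Lipschitz, has Lipschitz derivative and a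
quadratic Taylor remainder (mean value inequality on the convex ball) -/
theorem exists_lip {f : E → E} (hf : Differentiable ℂ f) (R : ℝ) :
    ∃ C : ℝ, 1 ≤ C ∧ ∀ z w : E, ‖z‖ ≤ R → ‖w‖ ≤ R → ‖f z‖ ≤ C ∧ ‖fderiv ℂ f z‖ ≤ C ∧
      ‖f z - f w‖ ≤ C * ‖z - w‖ ∧ ‖fderiv ℂ f z - fderiv ℂ f w‖ ≤ C * ‖z - w‖ ∧
      ‖f z - f w - fderiv ℂ f w (z - w)‖ ≤ C * ‖z - w‖ ^ 2 := by
  obtain ⟨B, hB⟩ := (isCompact_closedBall (0 : E) (R + 2)).exists_bound_of_continuousOn
    hf.continuous.continuousOn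
  have h1 : ∀ z : E, ‖z‖ ≤ R + 1 → ‖fderiv ℂ f z‖ ≤ max 1 B := fun z hz => by
    have := norm_fderiv_le_of_bd hf (z := z) one_pos (B := B) fun w hw => hB w (by
      rw [mem_closedBall_iff_norm] at hw
      rw [mem_closedBall_zero_iff]
      linarith [norm_le_norm_add_norm_sub' w z])
    rw [div_one] at this
    exact this.trans (le_max_right _ _)
  have h2 : ∀ z w : E, ‖z‖ ≤ R + 1 → ‖w‖ ≤ R + 1 → ‖f z - f w‖ ≤ max 1 B * ‖z - w‖ :=
    fun z w hz hw => (convex_closedBall (0 : E) (R + 1)).norm_image_sub_le_of_norm_fderiv_le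
      (fun x _ => hf x) (fun x hx => h1 x (mem_closedBall_zero_iff.1 hx))
      (mem_closedBall_zero_iff.2 hw) (mem_closedBall_zero_iff.2 hz)
  have h3 : ∀ z w : E, ‖z‖ ≤ R → ‖w‖ ≤ R →
      ‖fderiv ℂ f z - fderiv ℂ f w‖ ≤ max 1 B * ‖z - w‖ := fun z w hz hw => by
    have := norm_fderiv_sub_le hf (z := z) (w := w) one_pos (L := max 1 B * ‖z - w‖) fun x hx => by
      rw [mem_closedBall_zero_iff] at hx
      have h4 := h2 (z + x) (w + x) (by linarith [norm_add_le z x]) (by linarith [norm_add_le w x])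
      rwa [add_sub_add_right_eq_sub] at h4
    rwa [div_one] at this
  refine ⟨max 1 B, le_max_left _ _, fun z w hz hw => ⟨?_, h1 z (by linarith),
    h2 z w (by linarith) (by linarith), h3 z w hz hw, ?_⟩⟩
  · exact (hB z (mem_closedBall_zero_iff.2 (by linarith))).trans (le_max_right _ _)
  · have h4 := ((convex_closedBall (0 : E) R).inter
      (convex_closedBall w ‖z - w‖)).norm_image_sub_le_of_norm_fderiv_le' (f := f)
      (φ := fderiv ℂ f w) (C := max 1 B * ‖z - w‖) (x := w) (y := z) (fun x _ => hf x)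
      (fun x hx => (h3 x w (mem_closedBall_zero_iff.1 hx.1) hw).trans
        (mul_le_mul_of_nonneg_left (mem_closedBall_iff_norm.1 hx.2) (by positivity)))
      ⟨mem_closedBall_zero_iff.2 hw, mem_closedBall_self (norm_nonneg _)⟩
      ⟨mem_closedBall_zero_iff.2 hz, mem_closedBall_iff_norm.2 le_rfl⟩
    exact h4.trans (le_of_eq (by ring))

theorem continuous_fderiv_of_diff {f : E → E} (hf : Differentiable ℂ f) :
    Continuous (fderiv ℂ f) := by
  refine continuous_iff_continuousAt.2 fun w => ?_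
  obtain ⟨C, -, hC⟩ := exists_lip hf (‖w‖ + 1)
  refine tendsto_iff_norm_sub_tendsto_zero.2 (squeeze_zero' (g := fun z => C * ‖z - w‖)
    (Eventually.of_forall fun _ => norm_nonneg _) ?_ ?_)
  · filter_upwards [closedBall_mem_nhds w one_pos] with z hz
    rw [mem_closedBall_iff_norm] at hz
    exact (hC z w (by linarith [norm_le_norm_add_norm_sub' z w]) (by linarith)).2.2.2.1
  · have : Continuous fun z : E => C * ‖z - w‖ := by fun_prop
    simpa using this.tendsto w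

theorem BAut_comp {F G : Pm} (hF : Differentiable ℂ (⇑F)) (hG : Differentiable ℂ (⇑G)) (x v : E) :
    fderiv ℂ (⇑(F * G)) x v = fderiv ℂ (⇑F) (G x) (fderiv ℂ (⇑G) x v) := by
  rw [Equiv.Perm.coe_mul, fderiv_comp x (hF _) (hG _)]
  rfl

theorem BAut_mul {F G : Pm} {a a' : ℂ} (h : Aut F a) (h' : Aut G a') : Aut (F * G) (a * a') := by
  refine ⟨h.dF.comp h'.dF, ?_, mul_ne_zero h.ne h'.ne, fun z u v => ?_⟩
  · rw [mul_inv_rev]
    exact h'.dG.comp h.dG
  · rw [BAut_comp h.dF h'.dF, BAut_comp h.dF h'.dF, h.jac, h'.jac, mul_assoc]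

theorem BAut_inv {F : Pm} {a : ℂ} (h : Aut F a) : Aut F⁻¹ a⁻¹ := by
  refine ⟨h.dG, by rw [inv_inv]; exact h.dF, inv_ne_zero h.ne, fun z u v => ?_⟩
  have h1 : ∀ w : E, fderiv ℂ (⇑F) (F⁻¹ z) (fderiv ℂ (⇑F⁻¹) z w) = w := fun w => by
    rw [← BAut_comp h.dF h.dG, mul_inv_cancel]
    simp
  have h2 := h.jac (F⁻¹ z) (fderiv ℂ (⇑F⁻¹) z u) (fderiv ℂ (⇑F⁻¹) z v)
  rw [h1, h1] at h2
  rw [h2, ← mul_assoc, inv_mul_cancel₀ h.ne, one_mul]

theorem BAut_npow {F : Pm} {a : ℂ} (h : Aut F a) (n : ℕ) : Aut (F ^ n) (a ^ n) := by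
  induction n with
  | zero =>
    rw [pow_zero, pow_zero]
    exact ⟨differentiable_id, differentiable_id, one_ne_zero, fun z u v => by simp⟩
  | succ n ih =>
    rw [pow_succ, pow_succ]
    exact BAut_mul ih h

theorem BAut_zpow {F : Pm} {a : ℂ} (h : Aut F a) (n : ℤ) : Aut (F ^ n) (a ^ n) := by
  cases n with
  | ofNat n => simpa using BAut_npow h n
  | negSucc n =>
    rw [zpow_negSucc, zpow_negSucc]
    exact BAut_inv (BAut_npow h (n + 1))

theorem BAut_one_le {F : Pm} {χu χs ε N : ℝ} {x u s : E} (h : Good F χu χs ε N x u s) :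
    1 ≤ N := by
  simpa [h.nu] using h.bu 0

namespace Aut

variable {F : Pm} {a : ℂ}

theorem zdiff (h : Aut F a) (n : ℤ) : Differentiable ℂ (⇑(F ^ n)) := by
  exact (BAut_zpow h n).dF

theorem ndiff (h : Aut F a) (n : ℕ) : Differentiable ℂ (⇑(F ^ n)) := by
  exact (BAut_npow h n).dF

theorem fderiv_zadd (h : Aut F a) (m n : ℤ) (x v : E) :
    fderiv ℂ (⇑(F ^ (m + n))) x v =
      fderiv ℂ (⇑(F ^ m)) ((F ^ n) x) (fderiv ℂ (⇑(F ^ n)) x v) := by
  rw [zpow_add]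
  exact BAut_comp (h.zdiff m) (h.zdiff n) x v

theorem fderiv_nadd (h : Aut F a) (m n : ℕ) (x v : E) :
    fderiv ℂ (⇑(F ^ (m + n))) x v =
      fderiv ℂ (⇑(F ^ m)) ((F ^ n) x) (fderiv ℂ (⇑(F ^ n)) x v) := by
  rw [pow_add]
  exact BAut_comp (h.ndiff m) (h.ndiff n) x v

theorem inv (h : Aut F a) : Aut F⁻¹ a⁻¹ := by
  exact BAut_inv h

theorem zjac (h : Aut F a) (n : ℤ) (z u v : E) :
    det2 (fderiv ℂ (⇑(F ^ n)) z u) (fderiv ℂ (⇑(F ^ n)) z v) = a ^ n * det2 u v := by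
  exact (BAut_zpow h n).jac z u v

theorem njac (h : Aut F a) (n : ℕ) (z u v : E) :
    det2 (fderiv ℂ (⇑(F ^ n)) z u) (fderiv ℂ (⇑(F ^ n)) z v) = a ^ n * det2 u v := by
  exact (BAut_npow h n).jac z u v

theorem fderiv_ne (h : Aut F a) (n : ℤ) (z : E) {v : E} (hv : v ≠ 0) :
    fderiv ℂ (⇑(F ^ n)) z v ≠ 0 := by
  intro h0
  have ha : a ^ n ≠ 0 := zpow_ne_zero n h.ne
  have h1 := h.zjac n z v (1, 0)
  have h2 := h.zjac n z v (0, 1)
  rw [h0] at h1 h2
  simp only [det2, Prod.fst_zero, Prod.snd_zero, zero_mul, sub_zero, mul_zero, mul_one, zero_sub,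
    zero_eq_mul, ha, false_or, neg_eq_zero] at h1 h2
  exact hv (Prod.ext h2 h1)

theorem mul {G : Pm} {a' : ℂ} (h : Aut F a) (h' : Aut G a') : Aut (F * G) (a * a') := by
  exact BAut_mul h h'

theorem conj_sw (h : Aut F a) : Aut (sw * F * sw) a := by
  have h1 : Aut sw (-1) := ⟨differentiable_sw, by rw [sw_inv]; exact differentiable_sw, by simp,
    fun z u v => by
      rw [fderiv_sw, fderiv_sw]
      simp only [sw_apply, det2]
      ring⟩
  simpa using (h1.mul h).mul h1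

/-- the norm of the inverse of a 2 by 2 matrix (adjugate formula, via `det2_cramer`) -/
theorem norm_inv_le (h : Aut F a) (n : ℤ) (x : E) :
    ‖a‖ ^ n * ‖fderiv ℂ (⇑(F ^ (-n))) ((F ^ n) x)‖ ≤ 2 * ‖fderiv ℂ (⇑(F ^ n)) x‖ := by
  have ha : 0 < ‖a‖ ^ n := zpow_pos (norm_pos_iff.2 h.ne) n
  rw [← le_div_iff₀' ha]
  refine ContinuousLinearMap.opNorm_le_bound _ (by positivity) fun v => ?_
  set M := fderiv ℂ (⇑(F ^ n)) x with hM
  set w := fderiv ℂ (⇑(F ^ (-n))) ((F ^ n) x) v with hw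
  have h1 : M w = v := by
    have h2 := h.fderiv_zadd n (-n) ((F ^ n) x) v
    have h3 : (F ^ (-n)) ((F ^ n) x) = x := by simp
    rw [h3, add_neg_cancel, zpow_zero] at h2
    exact h2.symm.trans (by simp)
  have h2 : ∀ e : E, ‖e‖ = 1 → ‖a‖ ^ n * ‖det2 w e‖ ≤ 2 * ‖M‖ * ‖v‖ := fun e he => by
    have h3 := norm_det2_le v (M e)
    have h4 := M.le_opNorm e
    rw [he, mul_one] at h4
    rw [← norm_zpow, ← norm_mul, ← h.zjac n x w e, ← hM, h1]
    nlinarith [norm_nonneg v]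
  have h3 := h2 (1, 0) (by simp)
  have h4 := h2 (0, 1) (by simp)
  simp only [det2, mul_zero, mul_one, zero_sub, sub_zero, norm_neg] at h3 h4
  rw [div_mul_eq_mul_div, le_div_iff₀' ha, Prod.norm_def]
  rcases le_total ‖w.1‖ ‖w.2‖ with h5 | h5
  · rwa [max_eq_right h5]
  · rwa [max_eq_left h5]

theorem norm_sq_ge (h : Aut F a) (n : ℤ) (x : E) :
    ‖a‖ ^ n ≤ 2 * ‖fderiv ℂ (⇑(F ^ n)) x‖ ^ 2 := by
  set M := fderiv ℂ (⇑(F ^ n)) x with hM
  have h1 := h.zjac n x (1, 0) (0, 1)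
  have h2 := norm_det2_le (M (1, 0)) (M (0, 1))
  have h3 : ‖M (1, 0)‖ ≤ ‖M‖ := by simpa using M.le_opNorm (1, 0)
  have h4 : ‖M (0, 1)‖ ≤ ‖M‖ := by simpa using M.le_opNorm (0, 1)
  rw [← hM] at h1
  rw [h1] at h2
  simp only [det2, mul_one, mul_zero, sub_zero, norm_zpow] at h2
  calc _ ≤ _ := h2
    _ ≤ 2 * ‖M‖ * ‖M‖ := by gcongr
    _ = _ := by ring

/-- derivative of the image of a curve -/
theorem deriv_comp (h : Aut F a) (n : ℤ) {X : ℂ → E} {ζ : ℂ} (hX : DifferentiableAt ℂ X ζ) :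
    deriv (fun t => (F ^ n) (X t)) ζ = fderiv ℂ (⇑(F ^ n)) (X ζ) (deriv X ζ) := by
  exact ((h.zdiff n (X ζ)).hasFDerivAt.comp_hasDerivAt ζ hX.hasDerivAt).deriv

end Aut

theorem mem_Kp_zpow {F : Pm} {z : E} (n : ℤ) : (F ^ n) z ∈ Kp F ↔ z ∈ Kp F := by
  have h1 : ∀ w : E, F w ∈ Kp F ↔ w ∈ Kp F := fun w => by
    constructor
    · rintro ⟨R, hR⟩
      refine ⟨max R ‖w‖, fun k => ?_⟩
      cases k with
      | zero => simp
      | succ k =>
        rw [pow_succ]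
        exact (hR k).trans (le_max_left _ _)
    · rintro ⟨R, hR⟩
      exact ⟨R, fun k => by have := hR (k + 1); rwa [pow_succ] at this⟩
  induction n using Int.induction_on with
  | zero => simp
  | succ k ih =>
    rw [add_comm, zpow_one_add, Equiv.Perm.mul_apply, h1]
    exact ih
  | pred k ih =>
    rw [← h1, ← Equiv.Perm.mul_apply, ← zpow_one_add, add_sub_cancel]
    exact ih

theorem mem_Km_zpow {F : Pm} {z : E} (n : ℤ) : (F ^ n) z ∈ Kp F⁻¹ ↔ z ∈ Kp F⁻¹ := by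
  rw [← mem_Kp_zpow (F := F⁻¹) (z := z) (-n), inv_zpow', neg_neg]

namespace HalfG

variable {F : Pm} {d : ℝ} {Gp Gm : E → ℝ}

theorem zequi (h : HalfG F d Gp Gm) (n : ℤ) (z : E) : Gp ((F ^ n) z) = d ^ n * Gp z := by
  have hd : d ≠ 0 := (zero_lt_one.trans h.one_lt).ne'
  induction n using Int.induction_on with
  | zero => simp
  | succ k ih =>
    rw [add_comm, zpow_one_add, Equiv.Perm.mul_apply, h.equi, ih, zpow_one_add₀ hd, mul_assoc]
  | pred k ih =>
    apply mul_left_cancel₀ hd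
    rw [← h.equi, ← Equiv.Perm.mul_apply, ← zpow_one_add, ← mul_assoc, ← zpow_one_add₀ hd,
      add_sub_cancel, ih]

theorem nequi (h : HalfG F d Gp Gm) (n : ℕ) (z : E) : Gp ((F ^ n) z) = d ^ n * Gp z := by
  simpa using h.zequi n z

theorem closed (h : HalfG F d Gp Gm) : IsClosed (Kp F) := by
  have : Kp F = {z | Gp z = 0} := Set.ext fun z => (h.zero_iff z).symm
  rw [this]
  exact isClosed_eq h.cont continuous_const

/-- uniform continuity of `Gp` near its zero set -/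
theorem unif (h : HalfG F d Gp Gm) (R : ℝ) {g : ℝ} (hg : 0 < g) :
    ∃ r > 0, ∀ z w : E, ‖z‖ ≤ R → ‖z - w‖ ≤ r → |Gp z - Gp w| ≤ g := by
  obtain ⟨δ, hδ, h1⟩ := Metric.uniformContinuousOn_iff_le.1
    ((isCompact_closedBall (0 : E) (R + 1)).uniformContinuousOn_of_continuous
      h.cont.continuousOn) g hg
  refine ⟨min δ 1, lt_min hδ one_pos, fun z w hz hw => ?_⟩
  have h2 := hw.trans (min_le_right _ _)
  refine h1 z (mem_closedBall_zero_iff.2 (by linarith)) w (mem_closedBall_zero_iff.2 ?_) ?_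
  · linarith [norm_le_norm_add_norm_sub' w z, norm_sub_rev w z]
  · rw [dist_eq_norm]
    exact hw.trans (min_le_left _ _)

end HalfG

theorem Sys.rev {F : Pm} {a : ℂ} {d : ℝ} {Gp Gm : E → ℝ} {μ : Measure E}
    (h : Sys F a d Gp Gm μ) : Sys F⁻¹ a⁻¹ d Gm Gp μ := by
  exact ⟨h.aut.inv, h.gm, by rw [inv_inv]; exact h.gp, h.prob, h.mm, by rw [inv_inv]; exact h.mp⟩

/-- `K = K⁺ ∩ K⁻` is compact -/
theorem isCompact_K {F : Pm} {d : ℝ} {Gp Gm : E → ℝ} (hp : HalfG F d Gp Gm)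
    (hm : HalfG F⁻¹ d Gm Gp) : IsCompact (Kp F ∩ Kp F⁻¹) := by
  obtain ⟨R, hR⟩ := hp.proper 0
  refine (isCompact_closedBall (0 : E) R).of_isClosed_subset (hp.closed.inter hm.closed)
    fun z hz => mem_closedBall_zero_iff.2 ?_
  exact hR z ((hp.zero_iff z).2 hz.1).le ((hm.zero_iff z).2 hz.2).le

/-- `K⁻` has empty interior for a dissipative map. If a ball lies in `K⁻`, then `Gm = 0` and
`Gp ≤ C` on all its backward images, so these are bounded (`proper`), so the derivatives of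
`F ^ (-n)` at the centre are bounded (`norm_fderiv_le_of_bd`), contradicting `Aut.norm_sq_ge`. -/
theorem interior_Km {F : Pm} {a : ℂ} {d : ℝ} {Gp Gm : E → ℝ} (hA : Aut F a)
    (hp : HalfG F d Gp Gm) (hm : HalfG F⁻¹ d Gm Gp) (ha : ‖a‖ < 1) :
    interior (Kp F⁻¹) = ∅ := by
  refine eq_empty_of_forall_notMem fun x hx => ?_
  obtain ⟨r, hr, hb⟩ := nhds_basis_closedBall.mem_iff.1 (mem_interior_iff_mem_nhds.1 hx)
  obtain ⟨C, hC⟩ := (isCompact_closedBall x r).exists_bound_of_continuousOn hp.cont.continuousOn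
  obtain ⟨R, hR⟩ := hp.proper C
  have ha0 : 0 < ‖a‖ := norm_pos_iff.2 hA.ne
  obtain ⟨n, hn⟩ := exists_pow_lt_of_lt_one (show 0 < (2 * (R / r) ^ 2 + 1)⁻¹ by positivity) ha
  have h1 : ‖fderiv ℂ (⇑(F ^ (-(n : ℤ)))) x‖ ≤ R / r := by
    refine norm_fderiv_le_of_bd (hA.zdiff _) hr fun w hw => hR _ ?_ ?_
    · have h2 : d ^ (-(n : ℤ)) ≤ 1 := zpow_le_one_of_nonpos₀ hp.one_lt.le (by simp)
      rw [hp.zequi]
      exact (mul_le_of_le_one_left (hp.nonneg w) h2).trans ((le_abs_self _).trans (hC w hw))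
    · rw [(hm.zero_iff _).2 ((mem_Km_zpow _).2 (hb hw))]
      exact (norm_nonneg _).trans (hC w hw)
  have h2 := hA.norm_sq_ge (-(n : ℤ)) x
  have h3 : ‖fderiv ℂ (⇑(F ^ (-(n : ℤ)))) x‖ ^ 2 ≤ (R / r) ^ 2 := by gcongr
  rw [zpow_neg, zpow_natCast] at h2
  have h4 := (lt_inv_comm₀ (pow_pos ha0 n) (by positivity)).1 hn
  linarith

theorem Good.rev {F : Pm} {χu χs ε N : ℝ} {x u s : E} (h : Good F χu χs ε N x u s) :
    Good F⁻¹ (-χs) (-χu) ε N x s u := by
  refine ⟨h.ns, h.nu, by rw [det2_swap, norm_neg]; exact h.det, fun n => ?_, fun n => ?_⟩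
  · have := h.bs (-n)
    rw [inv_zpow']
    simpa using this
  · have := h.bu (-n)
    rw [inv_zpow']
    simpa using this

theorem Good.mono {F : Pm} {χu χs ε N χu' χs' ε' N' : ℝ} {x u s : E}
    (h : Good F χu χs ε N x u s) (hN : N ≤ N') (hu : |χu - χu'| + ε ≤ ε')
    (hs : |χs - χs'| + ε ≤ ε') : Good F χu' χs' ε' N' x u s := by
  have h1 : 1 ≤ N := BAut_one_le h
  have h2 : ∀ (χ χ' : ℝ) (n : ℤ), |χ - χ'| + ε ≤ ε' → N * Real.exp (χ * n + ε * |(n : ℝ)|) ≤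
      N' * Real.exp (χ' * n + ε' * |(n : ℝ)|) := fun χ χ' n h3 => by
    refine mul_le_mul hN (Real.exp_le_exp.2 ?_) (Real.exp_pos _).le (by linarith)
    have h4 := le_abs_self ((χ - χ') * n)
    rw [abs_mul] at h4
    nlinarith [abs_nonneg (n : ℝ)]
  exact ⟨h.nu, h.ns, (one_div_le_one_div_of_le (by linarith) hN).trans h.det,
    fun n => (h.bu n).trans (h2 _ _ n hu), fun n => (h.bs n).trans (h2 _ _ n hs)⟩

theorem Good.one_le {F : Pm} {χu χs ε N : ℝ} {x u s : E} (h : Good F χu χs ε N x u s) :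
    1 ≤ N := by
  exact BAut_one_le h

theorem Good.phase {F : Pm} {χu χs ε N : ℝ} {x u s : E} (h : Good F χu χs ε N x u s)
    {c c' : ℂ} (hc : ‖c‖ = 1) (hc' : ‖c'‖ = 1) : Good F χu χs ε N x (c • u) (c' • s) := by
  refine ⟨by rw [norm_smul, hc, h.nu, one_mul], by rw [norm_smul, hc', h.ns, one_mul], ?_,
    fun n => ?_, fun n => ?_⟩
  · rw [det2_smul, norm_mul, norm_mul, hc, hc', one_mul, one_mul]
    exact h.det
  · rw [map_smul, norm_smul, hc, one_mul]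
    exact h.bu n
  · rw [map_smul, norm_smul, hc', one_mul]
    exact h.bs n

/-- the set of good triples is closed -/
theorem isClosed_good {F : Pm} {a : ℂ} (h : Aut F a) (χu χs ε N : ℝ) :
    IsClosed {y : E × E × E | Good F χu χs ε N y.1 y.2.1 y.2.2} := by
  have e : {y : E × E × E | Good F χu χs ε N y.1 y.2.1 y.2.2} =
      {y : E × E × E | ‖y.2.1‖ = 1} ∩ {y | ‖y.2.2‖ = 1} ∩ {y | 1 / N ≤ ‖det2 y.2.1 y.2.2‖} ∩
        (⋂ n : ℤ, {y | ‖fderiv ℂ (⇑(F ^ n)) y.1 y.2.1‖ ≤ N * Real.exp (χu * n + ε * |(n : ℝ)|)}) ∩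
        ⋂ n : ℤ, {y | ‖fderiv ℂ (⇑(F ^ n)) y.1 y.2.2‖ ≤ N * Real.exp (χs * n + ε * |(n : ℝ)|)} := by
    ext y
    simp only [mem_inter_iff, mem_iInter]
    exact ⟨fun g => ⟨⟨⟨⟨g.nu, g.ns⟩, g.det⟩, g.bu⟩, g.bs⟩,
      fun g => ⟨g.1.1.1.1, g.1.1.1.2, g.1.1.2, g.1.2, g.2⟩⟩
  have hc := fun n : ℤ => continuous_fderiv_of_diff (h.zdiff n)
  rw [e]
  refine ((((isClosed_eq (by fun_prop) continuous_const).inter
    (isClosed_eq (by fun_prop) continuous_const)).inter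
    (isClosed_le continuous_const (by unfold det2; fun_prop))).inter
    (isClosed_iInter fun n => isClosed_le ?_ continuous_const)).inter
    (isClosed_iInter fun n => isClosed_le ?_ continuous_const)
  · exact (((hc n).comp continuous_fst).clm_apply (by fun_prop)).norm
  · exact (((hc n).comp continuous_fst).clm_apply (by fun_prop)).norm

end Pool.Agent.Lib.MP_7b5e47_an.Hn
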