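import Pool.Agent.Lib.MP_7b5e47_an.Hn.Defs

namespace Pool.Agent.Lib.MP_7b5e47_an.Hn

open Filter Topology Set Metric MeasureTheory

/-! Linear algebra of `det2`, charts, compositions of chains. All routine. -/

theorem det2_swap (u v : E) : det2 v u = -det2 u v := by
  simp only [det2]
  ring

theorem norm_det2_le (u v : E) : ‖det2 u v‖ ≤ 2 * ‖u‖ * ‖v‖ := by
  refine (norm_sub_le _ _).trans ?_
  rw [norm_mul, norm_mul]
  linarith [mul_le_mul (norm_fst_le u) (norm_snd_le v) (norm_nonneg _) (norm_nonneg _),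
    mul_le_mul (norm_snd_le u) (norm_fst_le v) (norm_nonneg _) (norm_nonneg _)]

/-- Cramer's rule -/
theorem det2_cramer (u s v : E) : det2 u s • v = det2 v s • u + det2 u v • s := by
  ext <;> simp [det2] <;> ring

theorem det2_smul (a b : ℂ) (u v : E) : det2 (a • u) (b • v) = a * b * det2 u v := by
  simp only [det2, Prod.smul_fst, Prod.smul_snd, smul_eq_mul]
  ring

/-- vanishing determinant means proportional -/
theorem exists_smul_of_det2 {u v : E} (hu : u ≠ 0) (h : det2 u v = 0) : ∃ c : ℂ, v = c • u := by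
  unfold det2 at h
  by_cases h1 : u.1 = 0
  · have h2 : u.2 ≠ 0 := fun h2 => hu (Prod.ext h1 h2)
    refine ⟨v.2 / u.2, Prod.ext ?_ ?_⟩ <;> simp only [Prod.smul_fst, Prod.smul_snd, smul_eq_mul]
    · field_simp
      linear_combination -h
    · field_simp
  · refine ⟨v.1 / u.1, Prod.ext ?_ ?_⟩ <;> simp only [Prod.smul_fst, Prod.smul_snd, smul_eq_mul]
    · field_simp
    · field_simp
      linear_combination h

theorem det2_map (M : E →L[ℂ] E) (u v : E) : det2 (M u) (M v) = M.det * det2 u v := by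
  have h : ∀ w : E, M w = w.1 • M (1, 0) + w.2 • M (0, 1) := fun w => by
    rw [← map_smul, ← map_smul, ← map_add]
    simp
  rw [ContinuousLinearMap.det, ← LinearMap.det_toMatrix (Module.Basis.finTwoProd ℂ),
    Matrix.det_fin_two, h u, h v]
  simp [LinearMap.toMatrix_apply, det2]
  ring

/-- decomposition along `v` with a small remainder (take the larger coordinate of `v`) -/
theorem exists_decomp {v : E} (hv : v ≠ 0) (e : E) :
    ∃ (t : ℂ) (n : E), e = t • v + n ∧ ‖t‖ * ‖v‖ ≤ ‖e‖ ∧ ‖n‖ * ‖v‖ ≤ ‖det2 v e‖ := by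
  have h0 := norm_pos_iff.2 hv
  rcases le_total ‖v.2‖ ‖v.1‖ with h | h
  · have h1 : ‖v‖ = ‖v.1‖ := max_eq_left h
    have h2 : v.1 ≠ 0 := norm_pos_iff.1 (h1 ▸ h0)
    refine ⟨e.1 / v.1, (0, det2 v e / v.1), Prod.ext ?_ ?_, ?_, ?_⟩
    · simp [h2]
    · simp only [det2, Prod.snd_add, Prod.smul_snd, smul_eq_mul]
      field_simp
      ring
    · rw [h1, ← norm_mul, div_mul_cancel₀ _ h2]
      exact norm_fst_le e
    · rw [h1, Prod.norm_mk, norm_zero, max_eq_right (norm_nonneg _), ← norm_mul,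
        div_mul_cancel₀ _ h2]
  · have h1 : ‖v‖ = ‖v.2‖ := max_eq_right h
    have h2 : v.2 ≠ 0 := norm_pos_iff.1 (h1 ▸ h0)
    refine ⟨e.2 / v.2, (-det2 v e / v.2, 0), Prod.ext ?_ ?_, ?_, ?_⟩
    · simp only [det2, Prod.fst_add, Prod.smul_fst, smul_eq_mul]
      field_simp
      ring
    · simp [h2]
    · rw [h1, ← norm_mul, div_mul_cancel₀ _ h2]
      exact norm_snd_le e
    · rw [h1, Prod.norm_mk, norm_zero, max_eq_left (norm_nonneg _), ← norm_mul,
        div_mul_cancel₀ _ h2, norm_neg]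

theorem BChart_aff {f : E → E} (L : E →ₗ[ℂ] E) (c : E) (h : ∀ z, f z = c + L z) :
    Differentiable ℂ f ∧ ∀ z v, fderiv ℂ f z v = L v := by
  have h1 : ∀ z, HasFDerivAt f (LinearMap.toContinuousLinearMap L) z := fun z => by
    rw [show f = fun z => c + LinearMap.toContinuousLinearMap L z from funext h]
    exact (LinearMap.toContinuousLinearMap L).hasFDerivAt.const_add c
  exact ⟨fun z => (h1 z).differentiableAt, fun z v => by rw [(h1 z).fderiv]; rfl⟩

@[simp] theorem sw_apply (z : E) : sw z = (z.2, z.1) := by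
  rfl

@[simp] theorem sw_inv : sw⁻¹ = sw := by
  rfl

@[simp] theorem sw_mul_sw : sw * sw = 1 := by
  rfl

theorem norm_sw (z : E) : ‖sw z‖ = ‖z‖ := by
  exact max_comm _ _

theorem sw_sub (z w : E) : sw z - sw w = sw (z - w) := by
  rfl

theorem differentiable_sw : Differentiable ℂ (⇑sw) := by
  exact (BChart_aff (LinearEquiv.prodComm ℂ ℂ ℂ).toLinearMap 0 fun z => (zero_add _).symm).1

theorem fderiv_sw (z v : E) : fderiv ℂ (⇑sw) z v = sw v := by
  exact (BChart_aff (LinearEquiv.prodComm ℂ ℂ ℂ).toLinearMap 0 fun z => (zero_add _).symm).2 z v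

namespace Ch

variable {A : Ch}

theorem pm_apply (h : A.det ≠ 0) (z : E) : A.pm z = A.c + z.1 • A.U + z.2 • A.S := by
  rw [Ch.pm, dif_pos h]
  rfl

theorem inv_apply (h : A.det ≠ 0) (q : E) :
    A.pm⁻¹ q = (det2 (q - A.c) A.S / A.det, det2 A.U (q - A.c) / A.det) := by
  rw [Ch.pm, dif_pos h]
  rfl

theorem BChart_pm (h : A.det ≠ 0) : Differentiable ℂ (⇑A.pm) ∧
    ∀ z v, fderiv ℂ (⇑A.pm) z v = v.1 • A.U + v.2 • A.S :=
  BChart_aff ((LinearMap.fst ℂ ℂ ℂ).smulRight A.U + (LinearMap.snd ℂ ℂ ℂ).smulRight A.S) A.c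
    fun z => by rw [pm_apply h, add_assoc]; rfl

theorem BChart_inv (h : A.det ≠ 0) : Differentiable ℂ (⇑A.pm⁻¹) ∧
    ∀ z v, fderiv ℂ (⇑A.pm⁻¹) z v = (det2 v A.S / A.det, det2 A.U v / A.det) :=
  BChart_aff
    { toFun := fun v => (det2 v A.S / A.det, det2 A.U v / A.det)
      map_add' := fun _ _ => by ext <;> simp [det2] <;> ring
      map_smul' := fun _ _ => by ext <;> simp [det2] <;> ring }
    (-(det2 A.c A.S / A.det, det2 A.U A.c / A.det)) fun z => by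
      rw [inv_apply h]
      ext <;> simp [det2] <;> ring

theorem diff (A : Ch) : Differentiable ℂ (⇑A.pm) := by
  by_cases h : A.det ≠ 0
  · exact (BChart_pm h).1
  · rw [Ch.pm, dif_neg h]
    exact differentiable_id

theorem diff_inv (A : Ch) : Differentiable ℂ (⇑A.pm⁻¹) := by
  by_cases h : A.det ≠ 0
  · exact (BChart_inv h).1
  · rw [Ch.pm, dif_neg h]
    exact differentiable_id

theorem fderiv_pm (h : A.det ≠ 0) (z v : E) :
    fderiv ℂ (⇑A.pm) z v = v.1 • A.U + v.2 • A.S := by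
  exact (BChart_pm h).2 z v

theorem fderiv_inv (h : A.det ≠ 0) (q v : E) :
    fderiv ℂ (⇑A.pm⁻¹) q v = (det2 v A.S / A.det, det2 A.U v / A.det) := by
  exact (BChart_inv h).2 q v

theorem norm_pm_sub (h : A.det ≠ 0) {r : ℝ} (hU : ‖A.U‖ ≤ r) (hS : ‖A.S‖ ≤ r) (z w : E) :
    ‖A.pm z - A.pm w‖ ≤ 2 * r * ‖z - w‖ := by
  have e : A.pm z - A.pm w = (z - w).1 • A.U + (z - w).2 • A.S := by
    rw [pm_apply h, pm_apply h, Prod.fst_sub, Prod.snd_sub, sub_smul, sub_smul]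
    abel
  rw [e]
  refine (norm_add_le _ _).trans ?_
  rw [norm_smul, norm_smul]
  linarith [mul_le_mul (norm_fst_le (z - w)) hU (norm_nonneg _) (norm_nonneg _),
    mul_le_mul (norm_snd_le (z - w)) hS (norm_nonneg _) (norm_nonneg _)]

theorem norm_vec_ge (A : Ch) {r : ℝ} (hU : ‖A.U‖ ≤ r) (hS : ‖A.S‖ ≤ r) (v : E) :
    ‖A.det‖ * ‖v‖ ≤ 2 * r * ‖v.1 • A.U + v.2 • A.S‖ := by
  obtain ⟨q, hq⟩ : ∃ q, q = v.1 • A.U + v.2 • A.S := ⟨_, rfl⟩
  have e1 : A.det * v.1 = det2 q A.S := by simp [hq, Ch.det, det2]; ring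
  have e2 : A.det * v.2 = det2 A.U q := by simp [hq, Ch.det, det2]; ring
  rw [← hq, Prod.norm_def v, mul_max_of_nonneg _ _ (norm_nonneg _), ← norm_mul, ← norm_mul, e1, e2]
  refine max_le ((norm_det2_le _ _).trans ?_) ((norm_det2_le _ _).trans ?_)
  · linarith [mul_le_mul_of_nonneg_left hS (norm_nonneg q)]
  · linarith [mul_le_mul_of_nonneg_left hU (norm_nonneg q)]

theorem norm_inv_sub (h : A.det ≠ 0) {r : ℝ} (hU : ‖A.U‖ ≤ r) (hS : ‖A.S‖ ≤ r) (q q' : E) :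
    ‖A.det‖ * ‖A.pm⁻¹ q - A.pm⁻¹ q'‖ ≤ 2 * r * ‖q - q'‖ := by
  refine (A.norm_vec_ge hU hS _).trans_eq ?_
  have e : q - q' = A.pm (A.pm⁻¹ q) - A.pm (A.pm⁻¹ q') := by simp
  rw [e, pm_apply h, pm_apply h, Prod.fst_sub, Prod.snd_sub, sub_smul, sub_smul]
  congr 2
  abel

theorem det2_vec (A : Ch) (v w : E) :
    det2 (v.1 • A.U + v.2 • A.S) (w.1 • A.U + w.2 • A.S) = det2 v w * A.det := by
  simp [Ch.det, det2]
  ring

@[simp] theorem rev_rev (A : Ch) : A.rev.rev = A := by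
  rfl

theorem rev_det (A : Ch) : A.rev.det = -A.det := by
  exact det2_swap _ _

theorem rev_pm (h : A.det ≠ 0) : A.rev.pm = A.pm * sw := by
  ext1 z
  rw [pm_apply (by rw [rev_det]; exact neg_ne_zero.2 h), Equiv.Perm.mul_apply, pm_apply h,
    add_right_comm]
  rfl

end Ch

theorem loc_rev (F : Pm) {A A' : Ch} (h : A.det ≠ 0) (h' : A'.det ≠ 0) :
    loc F⁻¹ A'.rev A.rev = sw * (loc F A A')⁻¹ * sw := by
  simp only [loc, Ch.rev_pm h, Ch.rev_pm h', mul_inv_rev, inv_inv, sw_inv, mul_assoc]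

theorem cmp_succ_apply (Φ : ℕ → Pm) (n : ℕ) (z : E) : cmp Φ (n + 1) z = Φ n (cmp Φ n z) := by
  rfl

theorem cmp_add (Φ : ℕ → Pm) (k n : ℕ) : cmp Φ (k + n) = cmp (shf Φ k) n * cmp Φ k := by
  induction n with
  | zero => exact (one_mul _).symm
  | succ n ih => rw [← add_assoc, cmp, ih, cmp, mul_assoc, shf]

theorem cmp_succ' (Φ : ℕ → Pm) (n : ℕ) : cmp Φ (n + 1) = cmp (shf Φ 1) n * Φ 0 := by
  rw [add_comm, cmp_add]
  rfl

theorem shf_shf (Φ : ℕ → Pm) (k j : ℕ) : shf (shf Φ k) j = shf Φ (k + j) := by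
  funext n
  simp only [shf, add_assoc]

theorem cmp_congr {Φ Φ' : ℕ → Pm} {n : ℕ} (h : ∀ j < n, Φ j = Φ' j) : cmp Φ n = cmp Φ' n := by
  induction n with
  | zero => rfl
  | succ n ih => rw [cmp, cmp, h n n.lt_succ_self, ih fun j hj => h j (hj.trans n.lt_succ_self)]

theorem Chain.shf {Λ b δ : ℝ} {Φ : ℕ → Pm} (h : Chain Λ b δ Φ) (k : ℕ) :
    Chain Λ b δ (shf Φ k) := by
  exact ⟨h.1, fun n => h.2 (k + n)⟩

theorem Chain.diff {Λ b δ : ℝ} {Φ : ℕ → Pm} (h : Chain Λ b δ Φ) (n : ℕ) :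
    Differentiable ℂ (⇑(cmp Φ n)) ∧ Differentiable ℂ (⇑(cmp Φ n)⁻¹) := by
  induction n with
  | zero => exact ⟨differentiable_id, differentiable_id⟩
  | succ n ih =>
    rw [cmp, mul_inv_rev, Equiv.Perm.coe_mul, Equiv.Perm.coe_mul]
    exact ⟨(h.2 n).1.comp ih.1, ih.2.comp (h.2 n).2.1⟩

theorem Stay.shf {Φ : ℕ → Pm} {z : E} (h : Stay Φ z) (k : ℕ) : Stay (shf Φ k) (cmp Φ k z) := by
  intro j
  rw [← Equiv.Perm.mul_apply, ← cmp_add]
  exact h _

theorem cmp_fwc (F : Pm) (A : ℤ → Ch) (k : ℤ) (n : ℕ) :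
    cmp (fwc F A k) n = (A (k + n)).pm⁻¹ * F ^ n * (A k).pm := by
  induction n with
  | zero => simp [cmp]
  | succ n ih =>
    rw [cmp, ih, fwc, loc, pow_succ', Nat.cast_succ, add_assoc]
    group

theorem shf_fwc (F : Pm) (A : ℤ → Ch) (k : ℤ) (j : ℕ) :
    shf (fwc F A k) j = fwc F A (k + j) := by
  funext n
  simp only [shf, fwc, Nat.cast_add, add_assoc]

theorem Small.the_pos {Λ b δ : ℝ} (h : Small Λ b δ) : 0 < the Λ := by
  exact div_pos two_pos (by linarith [h.1])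

theorem Small.the_lt {Λ b δ : ℝ} (h : Small Λ b δ) : the Λ < 1 := by
  exact (div_lt_one (by linarith [h.1])).2 (by linarith [h.1])

theorem Small.one_le_ome {Λ b δ : ℝ} (h : Small Λ b δ) : 1 ≤ ome Λ := by
  unfold ome
  linarith [h.1]

theorem Small.ome_the {Λ b δ : ℝ} (h : Small Λ b δ) : ome Λ * the Λ < 1 := by
  rw [ome, the, ← mul_div_assoc, div_lt_one (by linarith [h.1])]
  linarith [h.1]

end Pool.Agent.Lib.MP_7b5e47_an.Hn
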