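import Pool.Agent.Lib.MP_7b5e47_an.Hn.BAut

namespace Pool.Agent.Lib.MP_7b5e47_an.Hn

open Filter Topology Set Metric MeasureTheory

/-! Slowly separating orbits; such points are negligible for the measure. -/

variable {F : Pm} {a : ℂ} {d : ℝ} {Gp Gm : E → ℝ} {μ : Measure E}

/-- Variation of constants: with `e k = F^k q - F^k x`,
`e k = D(F^k)(x) (e 0) + ∑_{j<k} D(F^(k-j-1))(F^(j+1) x) (r j)`, `‖r j‖ ≤ C ‖e j‖^2`
(`exists_lip` on the ball of radius `R + 1`). Strong induction: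
`‖e j‖ ≤ 2 N ‖e 0‖ exp ((χ + ε) j) ≤ 1`. -/
theorem slow_orbit (hA : Aut F a) (R χ N : ℝ) {ε : ℝ} (hε : 0 < ε) : ∃ c > 0, ∀ x : E,
    (∀ n : ℕ, ‖(F ^ n) x‖ ≤ R) → (∀ k n : ℕ,
      ‖fderiv ℂ (⇑(F ^ n)) ((F ^ k) x)‖ ≤ N * Real.exp (ε * k + (χ + ε) * n)) →
    ∀ (k : ℕ) (q : E), (∀ j ≤ k, ‖q - x‖ * Real.exp ((χ + 3 * ε) * j) ≤ c) →
      ‖(F ^ k) q - (F ^ k) x‖ ≤ 1 := by
  obtain ⟨C, hC1, hC⟩ := exists_lip hA.dF (R + 1)
  obtain ⟨M, hM⟩ : ∃ M : ℝ, M = |N| + 1 := ⟨_, rfl⟩
  have hM0 : 0 < M := by rw [hM]; positivity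
  have hNM : N ≤ M := by rw [hM]; linarith [le_abs_self N]
  obtain ⟨K, hK⟩ : ∃ K : ℝ, K = 4 * C * M ^ 2 * Real.exp (-χ) := ⟨_, rfl⟩
  have hK0 : 0 < K := by rw [hK]; positivity
  have hw : Real.exp (-ε) < 1 := Real.exp_lt_one_iff.2 (by linarith)
  obtain ⟨c, hc⟩ : ∃ c : ℝ, c = min (1 / (2 * M)) ((1 - Real.exp (-ε)) / K) := ⟨_, rfl⟩
  have hc0 : 0 < c := by
    rw [hc]
    exact lt_min (by positivity) (div_pos (by linarith) hK0)
  have hc1 : c * (2 * M) ≤ 1 := (le_div_iff₀ (by positivity)).1 (hc ▸ min_le_left _ _)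
  have hc2 : c * K ≤ 1 - Real.exp (-ε) := (le_div_iff₀ hK0).1 (hc ▸ min_le_right _ _)
  refine ⟨c, hc0, fun x hx hD k₀ q hq => ?_⟩
  obtain ⟨δ, hδ⟩ : ∃ δ : ℝ, δ = ‖q - x‖ := ⟨_, rfl⟩
  have hδ0 : 0 ≤ δ := hδ ▸ norm_nonneg _
  rw [← hδ] at hq
  have hD' : ∀ (k n : ℕ) (v : E), ‖fderiv ℂ (⇑(F ^ n)) ((F ^ k) x) v‖ ≤
      M * Real.exp (ε * k + (χ + ε) * n) * ‖v‖ := fun k n v =>
    (ContinuousLinearMap.le_opNorm _ v).trans (mul_le_mul_of_nonneg_right
      ((hD k n).trans (mul_le_mul_of_nonneg_right hNM (Real.exp_pos _).le)) (norm_nonneg _))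
  have hone : ∀ j ≤ k₀, 2 * M * δ * Real.exp ((χ + ε) * j) ≤ 1 := fun j hj => by
    have h1 : Real.exp ((χ + ε) * j) ≤ Real.exp ((χ + 3 * ε) * j) :=
      Real.exp_le_exp.2 (mul_le_mul_of_nonneg_right (by linarith) (Nat.cast_nonneg _))
    have h2 := (mul_le_mul_of_nonneg_left h1 hδ0).trans (hq j hj)
    have h3 := mul_le_mul_of_nonneg_right h2 (show 0 ≤ 2 * M by positivity)
    linarith
  have key : ∀ k, k ≤ k₀ → ‖(F ^ k) q - (F ^ k) x‖ ≤ 2 * M * δ * Real.exp ((χ + ε) * k) := by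
    intro k
    induction k using Nat.strong_induction_on with
    | _ k ih =>
    intro hk
    have hP : 0 ≤ M * δ * Real.exp ((χ + ε) * k) := by positivity
    have inner : ∀ j m : ℕ, j + m = k →
        ‖fderiv ℂ (⇑(F ^ m)) ((F ^ j) x) ((F ^ j) q - (F ^ j) x)‖ ≤
          M * δ * Real.exp ((χ + ε) * k) * (2 - Real.exp (-ε * j)) := by
      intro j
      induction j with
      | zero =>
        intro m hm
        rw [zero_add] at hm
        subst hm
        refine (hD' 0 m _).trans (le_of_eq ?_)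
        simp only [pow_zero, Equiv.Perm.coe_one, id, ← hδ, Nat.cast_zero, mul_zero, zero_add,
          Real.exp_zero]
        ring
      | succ j ihj =>
        intro m hm
        have h1 := ihj (m + 1) (by omega)
        have h2 := ih j (by omega) (by omega)
        have h3 := h2.trans (hone j (by omega))
        have h4 := (hC ((F ^ j) q) ((F ^ j) x)
          (by linarith [norm_le_norm_add_norm_sub' ((F ^ j) q) ((F ^ j) x), hx j])
          (by linarith [hx j])).2.2.2.2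
        have hs : ∀ z, (F ^ (j + 1)) z = F ((F ^ j) z) := fun z => by
          rw [pow_succ', Equiv.Perm.mul_apply]
        rw [hA.fderiv_nadd m 1, pow_one, ← hs] at h1
        rw [← hs, ← hs] at h4
        obtain ⟨v, hv⟩ : ∃ v, v = fderiv ℂ (⇑F) ((F ^ j) x) ((F ^ j) q - (F ^ j) x) := ⟨_, rfl⟩
        rw [← hv] at h1 h4
        have h5 := hD' (j + 1) m ((F ^ (j + 1)) q - (F ^ (j + 1)) x - v)
        have h6 : fderiv ℂ (⇑(F ^ m)) ((F ^ (j + 1)) x) ((F ^ (j + 1)) q - (F ^ (j + 1)) x) =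
            fderiv ℂ (⇑(F ^ m)) ((F ^ (j + 1)) x) v + fderiv ℂ (⇑(F ^ m)) ((F ^ (j + 1)) x)
              ((F ^ (j + 1)) q - (F ^ (j + 1)) x - v) := by
          rw [← map_add, add_sub_cancel]
        have h7 : C * ‖(F ^ j) q - (F ^ j) x‖ ^ 2 ≤ C * (2 * M * δ * Real.exp ((χ + ε) * j)) ^ 2 :=
          mul_le_mul_of_nonneg_left (pow_le_pow_left₀ (norm_nonneg _) h2 2) (by linarith)
        have h8 := h5.trans (mul_le_mul_of_nonneg_left (h4.trans h7) (by positivity))
        have hk' : (k : ℝ) = j + 1 + m := by rw [← hm]; push_cast; ring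
        have h9 : Real.exp (ε * ((j + 1 : ℕ) : ℝ) + (χ + ε) * m) * Real.exp ((χ + ε) * j) ^ 2 =
            Real.exp ((χ + ε) * k) * Real.exp (-χ) * Real.exp ((χ + 3 * ε) * j) *
              Real.exp (-ε * j) := by
          rw [← Real.exp_nat_mul, ← Real.exp_add, ← Real.exp_add, ← Real.exp_add, ← Real.exp_add, hk']
          congr 1
          push_cast
          ring
        have h10 : M * Real.exp (ε * ((j + 1 : ℕ) : ℝ) + (χ + ε) * m) *
            (C * (2 * M * δ * Real.exp ((χ + ε) * j)) ^ 2) =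
            M * δ * Real.exp ((χ + ε) * k) *
              (δ * Real.exp ((χ + 3 * ε) * j) * K * Real.exp (-ε * j)) := by
          rw [hK]
          linear_combination (4 * C * M ^ 3 * δ ^ 2) * h9
        have h11 : δ * Real.exp ((χ + 3 * ε) * j) * K * Real.exp (-ε * j) ≤
            (1 - Real.exp (-ε)) * Real.exp (-ε * j) :=
          mul_le_mul_of_nonneg_right ((mul_le_mul_of_nonneg_right (hq j (by omega)) hK0.le).trans hc2)
            (Real.exp_pos _).le
        have h12 : Real.exp (-ε * ((j + 1 : ℕ) : ℝ)) = Real.exp (-ε) * Real.exp (-ε * j) := by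
          rw [← Real.exp_add]
          congr 1
          push_cast
          ring
        rw [h10] at h8
        have h13 := h8.trans (mul_le_mul_of_nonneg_left h11 hP)
        rw [h6, h12]
        refine (norm_add_le _ _).trans ?_
        linarith
    have h1 := inner k 0 rfl
    simp only [pow_zero, Equiv.Perm.coe_one, fderiv_id, ContinuousLinearMap.id_apply] at h1
    have h2 := mul_nonneg hP (Real.exp_pos (-ε * k)).le
    linarith
  exact (key k₀ le_rfl).trans (hone k₀ le_rfl)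

/-- Cover by the `O(ρ^(-4))` cubes of a grid which meet `Z`, or compare with the volume using
`Besicovitch.vitaliFamily` and `VitaliFamily.measure_le_of_frequently_le`. -/
theorem null_of_ball {μ : Measure E} [IsFiniteMeasure μ] {Z : Set E} (hb : Bornology.IsBounded Z)
    {C r₀ : ℝ} (hr : 0 < r₀)
    (h : ∀ x ∈ Z, ∀ r, 0 < r → r ≤ r₀ → μ.real (closedBall x r) ≤ C * r ^ 5) : μ Z = 0 := by
  have : (volume : Measure E).IsAddHaarMeasure :=
    Measure.prod.instIsAddHaarMeasure (volume : Measure ℂ) (volume : Measure ℂ)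
  have hv : 0 < (volume : Measure E).real (ball 0 1) :=
    ENNReal.toReal_pos (measure_ball_pos _ _ one_pos).ne' measure_ball_lt_top.ne
  have hZ : (volume : Measure E) Z ≠ ⊤ := hb.measure_lt_top.ne
  have key : ∀ η : NNReal, 0 < η → μ Z ≤ (η • (volume : Measure E)) Z := by
    intro η hη
    refine (Besicovitch.vitaliFamily μ).measure_le_of_frequently_le _
      Measure.AbsolutelyContinuous.rfl Z fun x hx => ?_
    refine (Besicovitch.tendsto_filterAt μ x).frequently (Eventually.frequently ?_)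
    have h1 : 0 < min r₀ (η * (volume : Measure E).real (ball 0 1) / (|C| + 1)) :=
      lt_min hr (by positivity)
    filter_upwards [Ioc_mem_nhdsGT h1] with r hr'
    have h2 : r * (|C| + 1) ≤ η * (volume : Measure E).real (ball 0 1) :=
      (le_div_iff₀ (by positivity)).1 (hr'.2.trans (min_le_right _ _))
    have h3 := h x hx r hr'.1 (hr'.2.trans (min_le_left _ _))
    have h4 : (volume : Measure E).real (closedBall x r) =
        r ^ 4 * (volume : Measure E).real (ball 0 1) := by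
      rw [Measure.addHaar_real_closedBall _ _ hr'.1.le]
      simp [Module.finrank_prod]
    have h5 : 0 < r ^ 4 := pow_pos hr'.1 4
    rw [← ENNReal.toReal_le_toReal (measure_ne_top _ _)
      (by simpa using ENNReal.mul_ne_top ENNReal.coe_ne_top measure_closedBall_lt_top.ne)]
    change μ.real (closedBall x r) ≤ (η • (volume : Measure E)).real (closedBall x r)
    rw [measureReal_nnreal_smul_apply, h4]
    have h6 : C * r ≤ r * (|C| + 1) := by nlinarith [le_abs_self C, hr'.1]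
    have h7 := mul_le_mul_of_nonneg_left (h6.trans h2) h5.le
    linarith
  rw [← measureReal_eq_zero_iff]
  refine le_antisymm (le_of_forall_pos_le_add fun η hη => ?_) measureReal_nonneg
  have h0 : 0 ≤ (volume : Measure E).real Z := measureReal_nonneg
  obtain ⟨θ, hθ⟩ : ∃ θ : NNReal, (θ : ℝ) = η / ((volume : Measure E).real Z + 1) :=
    ⟨⟨_, by positivity⟩, rfl⟩
  have h1 := key θ (by rw [← NNReal.coe_pos, hθ]; positivity)
  have h2 := ENNReal.toReal_mono
    (by simpa using ENNReal.mul_ne_top ENNReal.coe_ne_top hZ) h1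
  change μ.real Z ≤ (_ • (volume : Measure E)).real Z at h2
  rw [measureReal_nnreal_smul_apply] at h2
  refine h2.trans ?_
  rw [zero_add, hθ, div_mul_eq_mul_div, div_le_iff₀ (by positivity)]
  nlinarith

/-- points of `K` with subexponential derivative growth -/
def Slow (F : Pm) (ε N : ℝ) : Set E := {x | x ∈ Kp F ∩ Kp F⁻¹ ∧ ∀ k n : ℕ,
  ‖fderiv ℂ (⇑(F ^ n)) ((F ^ k) x)‖ ≤ N * Real.exp (ε * k + (0 + ε) * n)}

theorem isClosed_slow (h : Sys F a d Gp Gm μ) (ε N : ℝ) : IsClosed (Slow F ε N) := by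
  refine (h.gp.closed.inter h.gm.closed).inter ?_
  change IsClosed {x : E | ∀ k n : ℕ, ‖fderiv ℂ (⇑(F ^ n)) ((F ^ k) x)‖ ≤
    N * Real.exp (ε * k + (0 + ε) * n)}
  simp only [ofPred_forall]
  exact isClosed_iInter fun k => isClosed_iInter fun n => isClosed_le
    ((continuous_fderiv_of_diff (h.aut.ndiff n)).comp (h.aut.ndiff k).continuous).norm
    continuous_const

/-- Take `21 ε = log d`. For `x` slow and `r` small let `k` be the integer part of
`log (c / (2 r)) / (3 ε)`; by `slow_orbit`, `Gp q = d^(-k) Gp (F^k q) ≤ C d^(-k) ≤ C' r^7` on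
`closedBall x (2 r)`; then `ballE` and `null_of_ball`. -/
theorem slow_null (h : Sys F a d Gp Gm μ) : ∃ ε > 0, ∀ N : ℝ, μ (Slow F ε N) = 0 := by
  have := h.prob
  have hd := h.gp.one_lt
  have hd0 : 0 < d := by linarith
  have hl := Real.log_pos hd
  obtain ⟨ε, hε⟩ : ∃ ε : ℝ, ε = Real.log d / 21 := ⟨_, rfl⟩
  have hε0 : 0 < ε := by rw [hε]; positivity
  have hdε : d = Real.exp (21 * ε) := by
    rw [hε, mul_div_cancel₀ _ (by norm_num : (21 : ℝ) ≠ 0), Real.exp_log hd0]
  refine ⟨ε, hε0, fun N => ?_⟩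
  have hK := (isCompact_K h.gp h.gm).isBounded
  obtain ⟨R, hR⟩ := hK.exists_norm_le
  obtain ⟨c, hc, hs⟩ := slow_orbit h.aut R 0 N hε0
  obtain ⟨B, hB⟩ := (isCompact_closedBall (0 : E) (R + 1)).exists_bound_of_continuousOn
    h.gp.cont.continuousOn
  obtain ⟨C, hC⟩ := h.mp.ballE R
  refine null_of_ball (hK.subset fun x hx => hx.1) (C := C * (B * d * (2 / c) ^ 7))
    (r₀ := min 1 (c / 2)) (lt_min one_pos (by positivity)) fun x hx r hr hr' => ?_
  have hx' : ∀ n : ℕ, ‖(F ^ n) x‖ ≤ R := fun n => hR _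
    ⟨by simpa using (mem_Kp_zpow (n : ℤ)).2 hx.1.1, by simpa using (mem_Km_zpow (n : ℤ)).2 hx.1.2⟩
  have h1 : 1 ≤ c / (2 * r) := by
    rw [le_div_iff₀ (by positivity)]
    linarith [hr'.trans (min_le_right _ _)]
  obtain ⟨L, hL⟩ : ∃ L : ℝ, L = Real.log (c / (2 * r)) := ⟨_, rfl⟩
  have hL0 : 0 ≤ L := hL ▸ Real.log_nonneg h1
  have hL1 : Real.exp L = c / (2 * r) := by rw [hL, Real.exp_log (by linarith)]
  obtain ⟨k, hk⟩ : ∃ k : ℕ, k = ⌊L / (3 * ε)⌋₊ := ⟨_, rfl⟩
  have hk1 : (k : ℝ) * (3 * ε) ≤ L :=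
    (le_div_iff₀ (by positivity)).1 (hk ▸ Nat.floor_le (by positivity))
  have hk2 : L < (k + 1) * (3 * ε) :=
    (div_lt_iff₀ (by positivity)).1 (hk ▸ Nat.lt_floor_add_one _)
  refine (hC x r (B * d * (2 / c) ^ 7 * r ^ 7) (hR x hx.1) hr (hr'.trans (min_le_left _ _))
    fun q hq => ?_).trans (le_of_eq (by field_simp))
  rw [mem_closedBall_iff_norm] at hq
  have h2 := hs x hx' hx.2 k q fun j hj => by
    have h3 : (j : ℝ) ≤ k := by exact_mod_cast hj
    have h4 : Real.exp ((0 + 3 * ε) * j) ≤ c / (2 * r) := by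
      rw [← hL1, Real.exp_le_exp]
      nlinarith
    refine (mul_le_mul hq h4 (Real.exp_pos _).le (by positivity)).trans (le_of_eq ?_)
    field_simp
  have h3 := (le_abs_self _).trans (hB ((F ^ k) q) (mem_closedBall_zero_iff.2
    (by linarith [norm_le_norm_add_norm_sub' ((F ^ k) q) ((F ^ k) x), hx' k])))
  rw [h.gp.nequi] at h3
  have h4 : (c / (2 * r)) ^ 7 ≤ d * d ^ k := by
    rw [← hL1, ← pow_succ', hdε, ← Real.exp_nat_mul, ← Real.exp_nat_mul, Real.exp_le_exp]
    push_cast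
    linarith
  have h5 := mul_le_mul_of_nonneg_right h4 (h.gp.nonneg q)
  have h6 := mul_le_mul_of_nonneg_left h3 hd0.le
  have h7 : (c / (2 * r)) ^ 7 * Gp q ≤ B * d := by linarith
  rw [← le_div_iff₀' (by positivity)] at h7
  refine h7.trans (le_of_eq ?_)
  field_simp

end Pool.Agent.Lib.MP_7b5e47_an.Hn
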