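import Pool.Agent.Lib.MP_7b5e47_an.Hn.BAut

namespace Pool.Agent.Lib.MP_7b5e47_an.Hn

open Filter Topology Set Metric MeasureTheory

/-! Deterministic facts on the derivative cocycle. -/

variable {F : Pm} {a : ℂ}

theorem ELin_temp {g : ℕ → ℝ} {χ : ℝ} (h : Tendsto (fun n : ℕ => g n / n) atTop (𝓝 χ)) {η : ℝ}
    (hη : 0 < η) : ∃ D : ℝ, ∀ n : ℕ, |g n - χ * n| ≤ D + η * n := by
  obtain ⟨n0, hn0⟩ := eventually_atTop.1 (Metric.tendsto_nhds.1 h η hη)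
  refine ⟨∑ j ∈ Finset.range (n0 + 1), |g j - χ * j|, fun n => ?_⟩
  have h0 : 0 ≤ ∑ j ∈ Finset.range (n0 + 1), |g j - χ * j| :=
    Finset.sum_nonneg fun _ _ => abs_nonneg _
  have h1 : (0 : ℝ) ≤ η * n := by positivity
  rcases le_or_gt n n0 with h2 | h2
  · have := Finset.single_le_sum (f := fun j : ℕ => |g j - χ * j|) (fun _ _ => abs_nonneg _)
      (Finset.mem_range.2 (Nat.lt_succ_of_le h2))
    linarith
  · have h3 : (0 : ℝ) < n := by exact_mod_cast (Nat.zero_le _).trans_lt h2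
    have h4 := hn0 n h2.le
    rw [Real.dist_eq] at h4
    have h5 : g n - χ * n = (g n / n - χ) * n := by field_simp
    rw [h5, abs_mul, abs_of_pos h3]
    nlinarith

theorem ELin_pos (hA : Aut F a) (n : ℕ) (x : E) : 0 < ‖fderiv ℂ (⇑(F ^ n)) x‖ := by
  have h1 := hA.norm_sq_ge n x
  have h2 : 0 < ‖a‖ ^ (n : ℤ) := zpow_pos (norm_pos_iff.2 hA.ne) n
  rw [zpow_natCast F] at h1
  refine (norm_nonneg _).lt_of_ne fun h3 => ?_
  rw [← h3] at h1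
  linarith

theorem ELin_bounds (hA : Aut F a) {x : E} {χ : ℝ}
    (hχ : Tendsto (fun n : ℕ => Real.log ‖fderiv ℂ (⇑(F ^ n)) x‖ / n) atTop (𝓝 χ)) {η : ℝ}
    (hη : 0 < η) : ∃ D : ℝ, ∀ n : ℕ, Real.exp (-D + (χ - η) * n) ≤ ‖fderiv ℂ (⇑(F ^ n)) x‖ ∧
      ‖fderiv ℂ (⇑(F ^ n)) x‖ ≤ Real.exp (D + (χ + η) * n) := by
  obtain ⟨D, hD⟩ := ELin_temp hχ hη
  refine ⟨D, fun n => ?_⟩
  obtain ⟨h1, h2⟩ := abs_le.1 (hD n)
  rw [← Real.exp_log (ELin_pos hA n x)]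
  exact ⟨Real.exp_le_exp.2 (by linarith), Real.exp_le_exp.2 (by linarith)⟩

theorem ELin_pow (hA : Aut F a) (n : ℕ) : ‖a‖ ^ n = Real.exp (Real.log ‖a‖ * n) := by
  rw [mul_comm, Real.exp_nat_mul, Real.exp_log (norm_pos_iff.2 hA.ne)]

theorem ELin_zpow (hA : Aut F a) (n : ℤ) : ‖a‖ ^ n = Real.exp (Real.log ‖a‖ * n) := by
  rw [mul_comm, ← Real.log_zpow, Real.exp_log (zpow_pos (norm_pos_iff.2 hA.ne) n)]

theorem ELin_row0 (M : E →L[ℂ] E) : ∃ r : E, ‖M‖ ≤ 2 * ‖r‖ ∧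
    ‖M r‖ ≤ ‖det2 (M (1, 0)) (M (0, 1))‖ ∧ ∀ v, ‖det2 v r‖ ≤ ‖M v‖ := by
  obtain ⟨c1, hc1⟩ : ∃ c, c = M (1, 0) := ⟨_, rfl⟩
  obtain ⟨c2, hc2⟩ : ∃ c, c = M (0, 1) := ⟨_, rfl⟩
  have h : ∀ w : E, M w = (w.1 * c1.1 + w.2 * c2.1, w.1 * c1.2 + w.2 * c2.2) := fun w => by
    have : M w = w.1 • c1 + w.2 • c2 := by
      rw [hc1, hc2, ← map_smul, ← map_smul, ← map_add]
      simp
    rw [this]
    ext <;> simp
  have h1 : ∀ (w : E) (p q : ℂ), ‖w.1 * p + w.2 * q‖ ≤ 2 * ‖((q, -p) : E)‖ * ‖w‖ :=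
    fun w p q => by
      have h2 := norm_det2_le ((q, -p) : E) w
      rwa [show det2 (q, -p) w = w.1 * p + w.2 * q by simp only [det2]; ring] at h2
  have h2 : ∀ m : ℝ, ‖((c2.1, -c1.1) : E)‖ ≤ m → ‖((c2.2, -c1.2) : E)‖ ≤ m → ‖M‖ ≤ 2 * m :=
    fun m h3 h4 => by
      have h5 : 0 ≤ m := (norm_nonneg _).trans h3
      refine M.opNorm_le_bound (by positivity) fun w => ?_
      rw [h, Prod.norm_def]
      exact max_le ((h1 _ _ _).trans (by gcongr)) ((h1 _ _ _).trans (by gcongr))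
  rw [← hc1, ← hc2]
  rcases le_total ‖((c2.1, -c1.1) : E)‖ ‖((c2.2, -c1.2) : E)‖ with h3 | h3
  · refine ⟨(c2.2, -c1.2), h2 _ h3 le_rfl, ?_, fun v => ?_⟩
    · rw [h, show ((c2.2 * c1.1 + -c1.2 * c2.1, c2.2 * c1.2 + -c1.2 * c2.2) : E) =
        (det2 c1 c2, 0) by simp only [det2]; ext <;> simp only <;> ring]
      simp
    · rw [show det2 v (c2.2, -c1.2) = -(M v).2 by rw [h]; simp only [det2]; ring, norm_neg]
      exact norm_snd_le _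
  · refine ⟨(c2.1, -c1.1), h2 _ le_rfl h3, ?_, fun v => ?_⟩
    · rw [h, show ((c2.1 * c1.1 + -c1.1 * c2.1, c2.1 * c1.2 + -c1.1 * c2.2) : E) =
        (0, -det2 c1 c2) by simp only [det2]; ext <;> simp only <;> ring]
      simp
    · rw [show det2 v (c2.1, -c1.1) = -(M v).1 by rw [h]; simp only [det2]; ring, norm_neg]
      exact norm_fst_le _

theorem ELin_row (M : E →L[ℂ] E) (hM : 0 < ‖M‖) : ∃ s : E, ‖s‖ = 1 ∧
    ‖M s‖ * ‖M‖ ≤ 2 * ‖det2 (M (1, 0)) (M (0, 1))‖ ∧ ∀ v, ‖det2 v s‖ * ‖M‖ ≤ 2 * ‖M v‖ := by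
  obtain ⟨r, h1, h2, h3⟩ := ELin_row0 M
  have hr : 0 < ‖r‖ := by linarith
  have hc : ‖((‖r‖ : ℂ))⁻¹‖ = ‖r‖⁻¹ := by simp
  have h4 : ‖r‖⁻¹ * ‖M‖ ≤ 2 := by rw [inv_mul_le_iff₀ hr]; linarith
  refine ⟨((‖r‖ : ℂ))⁻¹ • r, by rw [norm_smul, hc, inv_mul_cancel₀ hr.ne'], ?_, fun v => ?_⟩
  · rw [map_smul, norm_smul, hc, mul_right_comm]
    exact mul_le_mul h4 h2 (norm_nonneg _) zero_le_two
  · have h5 := det2_smul 1 ((‖r‖ : ℂ))⁻¹ v r
    rw [one_smul, one_mul] at h5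
    rw [h5, norm_mul, hc, mul_right_comm]
    exact mul_le_mul h4 (h3 v) (norm_nonneg _) zero_le_two

theorem ELin_tri {u v w : E} (hu : ‖u‖ = 1) (hv : ‖v‖ = 1) (hw : ‖w‖ = 1) :
    ‖det2 u w‖ ≤ ‖det2 u v‖ + ‖det2 v w‖ := by
  have h1 := norm_add_le (det2 v w • u) (det2 u v • w)
  rw [← det2_cramer, norm_smul, norm_smul, norm_smul, hu, hv, hw] at h1
  linarith

theorem ELin_tail {s : ℕ → E} (hs : ∀ n, ‖s n‖ = 1) {C ρ : ℝ} (hC : 0 ≤ C) (h0 : 0 ≤ ρ)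
    (h1 : ρ < 1) (h : ∀ n, ‖det2 (s n) (s (n + 1))‖ ≤ C * ρ ^ n) {φ : ℕ → ℕ} (hφ : StrictMono φ)
    {z : E} (hz : Tendsto (s ∘ φ) atTop (𝓝 z)) (n : ℕ) :
    ‖det2 (s n) z‖ ≤ C / (1 - ρ) * ρ ^ n := by
  obtain ⟨K, hK⟩ : ∃ K, K = C / (1 - ρ) := ⟨_, rfl⟩
  have h2 : 0 < 1 - ρ := by linarith
  have hK0 : 0 ≤ K := by rw [hK]; positivity
  have hC' : C = K * (1 - ρ) := by rw [hK]; field_simp
  have h3 : ∀ m, ‖det2 (s n) (s (n + m))‖ ≤ K * ρ ^ n - K * ρ ^ (n + m) := fun m => by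
    induction m with
    | zero => simp [det2, mul_comm]
    | succ m ih =>
      have h4 := ELin_tri (hs n) (hs (n + m)) (hs (n + m + 1))
      have h5 := h (n + m)
      rw [hC'] at h5
      rw [← add_assoc, pow_succ]
      linarith
  have h4 : Continuous fun y : E => ‖det2 (s n) y‖ := by unfold det2; fun_prop
  rw [← hK]
  refine le_of_tendsto ((h4.tendsto z).comp hz) ?_
  filter_upwards [eventually_ge_atTop n] with k hk
  obtain ⟨m, hm⟩ := Nat.exists_eq_add_of_le (hk.trans (hφ.id_le k))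
  have h5 := h3 m
  rw [← hm] at h5
  have h6 : 0 ≤ K * ρ ^ (id (φ k)) := by positivity
  simp only [Function.comp, id] at h5 h6 ⊢
  linarith

theorem ELin_zero {x C c : ℝ} (hc : c < 0) (h : ∀ m : ℕ, x ≤ C * Real.exp (c * m)) : x ≤ 0 := by
  have h1 : Tendsto (fun m : ℕ => C * Real.exp c ^ m) atTop (𝓝 (C * 0)) :=
    (tendsto_pow_atTop_nhds_zero_of_lt_one (Real.exp_pos c).le
      (Real.exp_lt_one_iff.2 hc)).const_mul C
  rw [mul_zero] at h1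
  exact ge_of_tendsto' h1 fun m => by rw [← Real.exp_nat_mul, mul_comm (m : ℝ)]; exact h m

/-- The contracted direction. `M n = fderiv (F^n) x`. Take a row `(p, q)` of `M n` with
`max ‖p‖ ‖q‖ ≥ ‖M n‖ / 2` and the unit vector `s n` proportional to `(q, -p)`; then
`‖M n (s n)‖ ≤ 2 ‖a‖^n / ‖M n‖` and `‖M n v‖ ≥ ‖det2 v (s n)‖ ‖M n‖ / 2` for all `v`. With
`‖M (n+1) (s n)‖ ≤ L ‖M n (s n)‖` this gives
`‖det2 (s n) (s (n+1))‖ ≤ 4 L ‖a‖^n / (‖M n‖ ‖M (n+1)‖) ≤ C exp ((log ‖a‖ - 2 χ + 2 ε) n)`.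
For unit vectors `‖det2 u w‖ ≤ ‖det2 u v‖ + ‖det2 v w‖` (`det2_cramer`). Let `s` be a cluster
point of `s n`; then `‖det2 (s n) s‖` is at most the tail of the geometric series, and by
`exists_decomp` `s = t • s n + e` with `‖t‖ ≤ 1`, `‖e‖ ≤ ‖det2 (s n) s‖`. -/
theorem exists_stable (hA : Aut F a) {x : E} {R χ : ℝ} (hR : ∀ n : ℕ, ‖(F ^ n) x‖ ≤ R)
    (hχ : Tendsto (fun n : ℕ => Real.log ‖fderiv ℂ (⇑(F ^ n)) x‖ / n) atTop (𝓝 χ))
    (h2 : Real.log ‖a‖ < 2 * χ) : ∃ s : E, ‖s‖ = 1 ∧ ∀ ε > 0, ∃ N : ℝ, ∀ n : ℕ,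
      ‖fderiv ℂ (⇑(F ^ n)) x s‖ ≤ N * Real.exp ((Real.log ‖a‖ - χ + ε) * n) := by
  obtain ⟨L, hL1, hL⟩ := exists_lip hA.dF R
  choose s hs1 hs2 hs3 using fun n : ℕ => ELin_row _ (ELin_pos hA n x)
  obtain ⟨z, hz, φ, hφ, hlim⟩ := (isCompact_sphere (0 : E) 1).tendsto_subseq
    (x := s) fun n => mem_sphere_zero_iff_norm.2 (hs1 n)
  rw [mem_sphere_zero_iff_norm] at hz
  refine ⟨z, hz, fun ε hε => ?_⟩
  obtain ⟨A, hAe⟩ : ∃ A, A = Real.log ‖a‖ := ⟨_, rfl⟩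
  obtain ⟨η, hη0, hη1, hη2⟩ : ∃ η : ℝ, 0 < η ∧ 3 * η ≤ ε ∧ A - 2 * χ + 2 * η < 0 :=
    ⟨min (ε / 3) ((2 * χ - A) / 4), lt_min (by linarith) (by linarith),
      by linarith [min_le_left (ε / 3) ((2 * χ - A) / 4)],
      by linarith [min_le_right (ε / 3) ((2 * χ - A) / 4)]⟩
  obtain ⟨D, hD⟩ := ELin_bounds hA hχ hη0
  have h3 : ∀ n : ℕ, ‖fderiv ℂ (⇑(F ^ n)) x (s n)‖ ≤ 2 * Real.exp (D + (A - χ + η) * n) :=
    fun n => by
      have h4 := hs2 n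
      rw [hA.njac, norm_mul, norm_pow, ELin_pow hA, ← hAe] at h4
      simp only [det2, mul_one, mul_zero, sub_zero, norm_one] at h4
      refine le_of_mul_le_mul_right (((mul_le_mul_of_nonneg_left (hD n).1
        (norm_nonneg _)).trans h4).trans (le_of_eq ?_)) (Real.exp_pos _)
      rw [mul_assoc, ← Real.exp_add]
      congr 2
      ring
  have h4 : ∀ n : ℕ, ‖det2 (s n) (s (n + 1))‖ ≤
      4 * L * Real.exp (2 * D - (χ - η)) * Real.exp (A - 2 * χ + 2 * η) ^ n := fun n => by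
    have h5 := hs3 (n + 1) (s n)
    have h6 : ‖fderiv ℂ (⇑(F ^ (n + 1))) x (s n)‖ ≤ L * ‖fderiv ℂ (⇑(F ^ n)) x (s n)‖ := by
      rw [add_comm, hA.fderiv_nadd, pow_one]
      exact (ContinuousLinearMap.le_opNorm _ _).trans (mul_le_mul_of_nonneg_right
        (hL _ _ (hR n) (hR n)).2.1 (norm_nonneg _))
    have h7 : L * ‖fderiv ℂ (⇑(F ^ n)) x (s n)‖ ≤ L * (2 * Real.exp (D + (A - χ + η) * n)) :=
      mul_le_mul_of_nonneg_left (h3 n) (by linarith)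
    refine le_of_mul_le_mul_right (((mul_le_mul_of_nonneg_left (hD (n + 1)).1
      (norm_nonneg _)).trans h5).trans ?_) (Real.exp_pos _)
    have h8 : Real.exp (2 * D - (χ - η)) * Real.exp (A - 2 * χ + 2 * η) ^ n *
        Real.exp (-D + (χ - η) * ((n + 1 : ℕ) : ℝ)) = Real.exp (D + (A - χ + η) * n) := by
      rw [← Real.exp_nat_mul, ← Real.exp_add, ← Real.exp_add]
      congr 1
      push_cast
      ring
    rw [mul_assoc (4 * L), mul_assoc (4 * L), h8]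
    linarith
  have h5 := ELin_tail hs1 (by positivity) (Real.exp_pos _).le (Real.exp_lt_one_iff.2 hη2) h4 hφ
    hlim
  obtain ⟨K, hK⟩ : ∃ K, K = 4 * L * Real.exp (2 * D - (χ - η)) /
    (1 - Real.exp (A - 2 * χ + 2 * η)) := ⟨_, rfl⟩
  rw [← hK] at h5
  have hK0 : 0 ≤ K := by simpa using (norm_nonneg _).trans (h5 0)
  refine ⟨(2 + K) * Real.exp D, fun n => ?_⟩
  obtain ⟨t, e, h6, h7, h8⟩ := exists_decomp (v := s n) (by rw [← norm_pos_iff, hs1]; norm_num) z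
  rw [hs1, mul_one] at h7 h8
  rw [hz] at h7
  have hn : (0 : ℝ) ≤ n := Nat.cast_nonneg n
  have h9 : ‖fderiv ℂ (⇑(F ^ n)) x e‖ ≤ K * Real.exp (D + (A - χ + ε) * n) := by
    refine (ContinuousLinearMap.le_opNorm _ _).trans ((mul_le_mul (hD n).2 (h8.trans (h5 n))
      (norm_nonneg _) (Real.exp_pos _).le).trans ?_)
    rw [← Real.exp_nat_mul, mul_left_comm, ← Real.exp_add]
    exact mul_le_mul_of_nonneg_left (Real.exp_le_exp.2 (by nlinarith)) hK0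
  have h10 : ‖t • fderiv ℂ (⇑(F ^ n)) x (s n)‖ ≤ 2 * Real.exp (D + (A - χ + ε) * n) := by
    rw [norm_smul]
    refine (mul_le_of_le_one_left (norm_nonneg _) h7).trans ((h3 n).trans ?_)
    exact mul_le_mul_of_nonneg_left (Real.exp_le_exp.2 (by nlinarith)) zero_le_two
  rw [h6, map_add, map_smul, ← hAe, mul_assoc, ← Real.exp_add]
  linarith [norm_add_le (t • fderiv ℂ (⇑(F ^ n)) x (s n)) (fderiv ℂ (⇑(F ^ n)) x e)]

theorem exp_ge (hA : Aut F a) {x : E} {χ : ℝ}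
    (hχ : Tendsto (fun n : ℕ => Real.log ‖fderiv ℂ (⇑(F ^ n)) x‖ / n) atTop (𝓝 χ)) :
    Real.log ‖a‖ ≤ 2 * χ := by
  have h1 : Tendsto (fun n : ℕ => Real.log 2 / n + 2 * (Real.log ‖fderiv ℂ (⇑(F ^ n)) x‖ / n))
      atTop (𝓝 (0 + 2 * χ)) :=
    (tendsto_const_div_atTop_nhds_zero_nat _).add (hχ.const_mul 2)
  rw [zero_add] at h1
  refine ge_of_tendsto h1 ?_
  filter_upwards [eventually_gt_atTop 0] with n hn
  have h2 : (0 : ℝ) < n := by exact_mod_cast hn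
  have h3 := hA.norm_sq_ge n x
  have h4 := ELin_pos hA n x
  rw [zpow_natCast F, zpow_natCast, ELin_pow hA,
    ← Real.le_log_iff_exp_le (by positivity), Real.log_mul two_ne_zero (by positivity),
    Real.log_pow] at h3
  rw [← mul_div_assoc, ← add_div, le_div_iff₀ h2]
  exact_mod_cast h3

/-- Tempered bound along the orbit. If `log ‖a‖ = 2 χ`, write the derivative as
`M (k+n) (M k)⁻¹` and use `Aut.norm_inv_le`. Otherwise take `s` from `exists_stable`, `u` a basis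
vector with `‖det2 u s‖ = 1`, and expand `v` in the basis `M k u, M k s` (`det2_cramer`,
`Aut.njac`); use `ε / 2`. -/
theorem tempered_bound (hA : Aut F a) {x : E} {R χ : ℝ} (hR : ∀ n : ℕ, ‖(F ^ n) x‖ ≤ R)
    (hχ : Tendsto (fun n : ℕ => Real.log ‖fderiv ℂ (⇑(F ^ n)) x‖ / n) atTop (𝓝 χ))
    {ε : ℝ} (hε : 0 < ε) : ∃ N : ℝ, ∀ k n : ℕ,
      ‖fderiv ℂ (⇑(F ^ n)) ((F ^ k) x)‖ ≤ N * Real.exp (ε * k + (χ + ε) * n) := by
  have h1 := exp_ge hA hχ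
  have hη : 0 < ε / 2 := by linarith
  obtain ⟨D, hD⟩ := ELin_bounds hA hχ hη
  obtain ⟨A, hAe⟩ : ∃ A, A = Real.log ‖a‖ := ⟨_, rfl⟩
  obtain ⟨s, hs, N, hN⟩ : ∃ s : E, ‖s‖ = 1 ∧ ∃ N : ℝ, ∀ n : ℕ,
      ‖fderiv ℂ (⇑(F ^ n)) x s‖ ≤ N * Real.exp ((A - χ + ε / 2) * n) := by
    rcases h1.lt_or_eq with h2 | h2
    · obtain ⟨s, hs, h3⟩ := exists_stable hA hR hχ h2
      rw [← hAe] at h3
      exact ⟨s, hs, h3 _ hη⟩
    · refine ⟨(1, 0), by simp, Real.exp D, fun n => ?_⟩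
      refine (ContinuousLinearMap.le_opNorm _ _).trans ?_
      rw [← Real.exp_add, hAe, h2, show 2 * χ - χ = χ by ring]
      simpa using (hD n).2
  obtain ⟨u, hu, hus⟩ : ∃ u : E, ‖u‖ = 1 ∧ ‖det2 u s‖ = 1 := by
    rcases le_total ‖s.1‖ ‖s.2‖ with h2 | h2
    · exact ⟨(1, 0), by simp, by simpa [det2, Prod.norm_def, h2] using hs⟩
    · exact ⟨(0, 1), by simp, by simpa [det2, Prod.norm_def, h2] using hs⟩
  have hN0 : 0 ≤ N := by simpa using (norm_nonneg _).trans (hN 0)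
  have hU : ∀ n : ℕ, ‖fderiv ℂ (⇑(F ^ n)) x u‖ ≤ Real.exp (D + (χ + ε / 2) * n) := fun n => by
    refine (ContinuousLinearMap.le_opNorm _ _).trans ?_
    rw [hu, mul_one]
    exact (hD n).2
  refine ⟨4 * N * Real.exp D, fun k n => ?_⟩
  refine ContinuousLinearMap.opNorm_le_bound _ (by positivity) fun v => ?_
  have h2 := congrArg (fderiv ℂ (⇑(F ^ n)) ((F ^ k) x))
    (det2_cramer (fderiv ℂ (⇑(F ^ k)) x u) (fderiv ℂ (⇑(F ^ k)) x s) v)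
  rw [map_add, map_smul, map_smul, map_smul, ← hA.fderiv_nadd, ← hA.fderiv_nadd, hA.njac] at h2
  have h3 := norm_add_le (det2 v (fderiv ℂ (⇑(F ^ k)) x s) • fderiv ℂ (⇑(F ^ (n + k))) x u)
    (det2 (fderiv ℂ (⇑(F ^ k)) x u) v • fderiv ℂ (⇑(F ^ (n + k))) x s)
  rw [← h2, norm_smul, norm_smul, norm_smul, norm_mul, hus, mul_one, norm_pow, ELin_pow hA,
    ← hAe] at h3
  have hn : (0 : ℝ) ≤ n := Nat.cast_nonneg n
  have hv := norm_nonneg v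
  have h4 : ‖det2 v (fderiv ℂ (⇑(F ^ k)) x s)‖ * ‖fderiv ℂ (⇑(F ^ (n + k))) x u‖ ≤
      2 * ‖v‖ * N * Real.exp (A * k + D + (ε * k + (χ + ε) * n)) := by
    refine (mul_le_mul ((norm_det2_le _ _).trans (mul_le_mul_of_nonneg_left (hN k)
      (by positivity))) (hU (n + k)) (norm_nonneg _) (by positivity)).trans ?_
    rw [← mul_assoc, mul_assoc _ (Real.exp _), ← Real.exp_add]
    refine mul_le_mul_of_nonneg_left (Real.exp_le_exp.2 ?_) (by positivity)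
    push_cast
    nlinarith
  have h5 : ‖det2 (fderiv ℂ (⇑(F ^ k)) x u) v‖ * ‖fderiv ℂ (⇑(F ^ (n + k))) x s‖ ≤
      2 * ‖v‖ * N * Real.exp (A * k + D + (ε * k + (χ + ε) * n)) := by
    rw [det2_swap, norm_neg]
    refine (mul_le_mul ((norm_det2_le _ _).trans (mul_le_mul_of_nonneg_left (hU k)
      (by positivity))) (hN (n + k)) (norm_nonneg _) (by positivity)).trans ?_
    rw [mul_mul_mul_comm, ← Real.exp_add]
    refine mul_le_mul_of_nonneg_left (Real.exp_le_exp.2 ?_) (by positivity)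
    push_cast
    nlinarith
  refine le_of_mul_le_mul_left (h3.trans ?_) (Real.exp_pos (A * k))
  rw [Real.exp_add, Real.exp_add] at h4 h5
  linarith

/-- Uniqueness of the directions: if `det2 u u' ≠ 0`, compare `‖a‖^(-n) ‖det2 u u'‖` with the
product of the two backward bounds; the same forward for `s`. -/
theorem Good.uniq (hA : Aut F a) {χu χs ε N N' : ℝ} (hχ : χu + χs = Real.log ‖a‖)
    (hε : χs + 2 * ε < χu) {x u s u' s' : E} (h : Good F χu χs ε N x u s)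
    (h' : Good F χu χs ε N' x u' s') : det2 u u' = 0 ∧ det2 s s' = 0 := by
  have h0 : ∀ (n : ℤ) (χ : ℝ) (v w : E),
      ‖fderiv ℂ (⇑(F ^ n)) x v‖ ≤ N * Real.exp (χ * n + ε * |(n : ℝ)|) →
      ‖fderiv ℂ (⇑(F ^ n)) x w‖ ≤ N' * Real.exp (χ * n + ε * |(n : ℝ)|) →
      ‖det2 v w‖ ≤ 2 * N * N' * Real.exp ((2 * χ - χu - χs) * n + 2 * ε * |(n : ℝ)|) :=
    fun n χ v w h1 h2 => by
      have h3 := norm_det2_le (fderiv ℂ (⇑(F ^ n)) x v) (fderiv ℂ (⇑(F ^ n)) x w)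
      have hN := h.one_le
      rw [hA.zjac, norm_mul, norm_zpow, ELin_zpow hA, ← hχ] at h3
      refine le_of_mul_le_mul_left ((h3.trans (mul_le_mul (mul_le_mul_of_nonneg_left h1
        zero_le_two) h2 (norm_nonneg _) (by positivity))).trans (le_of_eq ?_)) (Real.exp_pos _)
      rw [← mul_assoc 2 N, mul_mul_mul_comm, mul_left_comm (Real.exp _), ← Real.exp_add,
        ← Real.exp_add]
      congr 2
      ring
  constructor
  · refine norm_le_zero_iff.1 (ELin_zero (C := 2 * N * N') (c := χs + 2 * ε - χu) (by linarith)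
      fun m => (h0 (-(m : ℤ)) χu u u' (h.bu _) (h'.bu _)).trans (le_of_eq ?_))
    push_cast
    rw [abs_neg, Nat.abs_cast]
    congr 2
    ring
  · refine norm_le_zero_iff.1 (ELin_zero (C := 2 * N * N') (c := χs + 2 * ε - χu) (by linarith)
      fun m => (h0 (m : ℤ) χs s s' (h.bs _) (h'.bs _)).trans (le_of_eq ?_))
    push_cast
    rw [Nat.abs_cast]
    congr 2
    ring

/-- the normalized image frame is good, with some constant -/
theorem Good.shift (hA : Aut F a) {χu χs ε N : ℝ} (hε : 0 ≤ ε) {x u s : E}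
    (h : Good F χu χs ε N x u s) (k : ℤ) : ∃ (N' : ℝ) (c c' : ℂ),
      Good F χu χs ε N' ((F ^ k) x) (c • fderiv ℂ (⇑(F ^ k)) x u)
        (c' • fderiv ℂ (⇑(F ^ k)) x s) := by
  have hN := h.one_le
  have h0 : ∀ (χ : ℝ) (v : E), ‖v‖ = 1 →
      (∀ n : ℤ, ‖fderiv ℂ (⇑(F ^ n)) x v‖ ≤ N * Real.exp (χ * n + ε * |(n : ℝ)|)) →
      ∃ (c : ℂ) (K : ℝ), c ≠ 0 ∧ ‖c • fderiv ℂ (⇑(F ^ k)) x v‖ = 1 ∧ ∀ K', K ≤ K' → ∀ n : ℤ,
        ‖fderiv ℂ (⇑(F ^ n)) ((F ^ k) x) (c • fderiv ℂ (⇑(F ^ k)) x v)‖ ≤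
          K' * Real.exp (χ * n + ε * |(n : ℝ)|) := fun χ v hv hb => by
    have h1 : 0 < ‖fderiv ℂ (⇑(F ^ k)) x v‖ :=
      norm_pos_iff.2 (hA.fderiv_ne k x (by rw [← norm_pos_iff, hv]; norm_num))
    obtain ⟨r, hr⟩ : ∃ r, r = ‖fderiv ℂ (⇑(F ^ k)) x v‖ := ⟨_, rfl⟩
    rw [← hr] at h1
    have hc : ‖((r : ℂ))⁻¹‖ = r⁻¹ := by simp [abs_of_pos h1]
    refine ⟨(r : ℂ)⁻¹, r⁻¹ * N * Real.exp (χ * k + ε * |(k : ℝ)|),
      inv_ne_zero (by exact_mod_cast h1.ne'), by rw [norm_smul, hc, ← hr, inv_mul_cancel₀ h1.ne'],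
      fun K' hK n => ?_⟩
    refine le_trans ?_ (mul_le_mul_of_nonneg_right hK (Real.exp_pos _).le)
    rw [map_smul, ← hA.fderiv_zadd, norm_smul, hc, mul_assoc, mul_assoc, ← Real.exp_add]
    refine mul_le_mul_of_nonneg_left ((hb _).trans (mul_le_mul_of_nonneg_left
      (Real.exp_le_exp.2 ?_) (by linarith))) (by positivity)
    push_cast
    nlinarith [abs_add_le (n : ℝ) (k : ℝ)]
  obtain ⟨c, K, hc, h1, h2⟩ := h0 χu u h.nu h.bu
  obtain ⟨c', K', hc', h1', h2'⟩ := h0 χs s h.ns h.bs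
  have h3 : 0 < ‖det2 (c • fderiv ℂ (⇑(F ^ k)) x u) (c' • fderiv ℂ (⇑(F ^ k)) x s)‖ := by
    rw [det2_smul, hA.zjac, norm_pos_iff]
    exact mul_ne_zero (mul_ne_zero hc hc') (mul_ne_zero (zpow_ne_zero _ hA.ne)
      (norm_pos_iff.1 ((one_div_pos.2 (by linarith)).trans_le h.det)))
  refine ⟨max (max K K') (1 / ‖det2 (c • fderiv ℂ (⇑(F ^ k)) x u)
    (c' • fderiv ℂ (⇑(F ^ k)) x s)‖), c, c', h1, h1', ?_,
    h2 _ ((le_max_left _ _).trans (le_max_left _ _)),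
    h2' _ ((le_max_right _ _).trans (le_max_left _ _))⟩
  exact (one_div_le h3 ((one_div_pos.2 h3).trans_le (le_max_right _ _))).1 (le_max_right _ _)

/-- at a good return time the frame is the image frame (`Good.shift`, `Good.uniq`) -/
theorem Good.at_return (hA : Aut F a) {χu χs ε N : ℝ} (hχ : χu + χs = Real.log ‖a‖) (hε0 : 0 ≤ ε)
    (hε : χs + 2 * ε < χu) {x u s u' s' : E} (h : Good F χu χs ε N x u s) {k : ℤ}
    (h' : Good F χu χs ε N ((F ^ k) x) u' s') : ∃ c c' : ℂ,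
      u' = c • fderiv ℂ (⇑(F ^ k)) x u ∧ s' = c' • fderiv ℂ (⇑(F ^ k)) x s := by
  obtain ⟨N', c, c', g⟩ := h.shift hA hε0 k
  obtain ⟨h1, h2⟩ := g.uniq hA hχ hε h'
  obtain ⟨t, ht⟩ := exists_smul_of_det2 (by rw [← norm_pos_iff, g.nu]; norm_num) h1
  obtain ⟨t', ht'⟩ := exists_smul_of_det2 (by rw [← norm_pos_iff, g.ns]; norm_num) h2
  exact ⟨t * c, t' * c', by rw [ht, smul_smul], by rw [ht', smul_smul]⟩

/-- Products of matrices close to a fixed diagonalizable matrix. Use the norm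
`‖v‖₀ = max ‖det2 v s‖ ‖det2 u v‖`, for which `‖M v‖₀ ≤ ‖l‖ ‖v‖₀`; then
`‖B j v‖₀ ≤ (‖l‖ + C θ^j) ‖v‖₀` and `∏ (1 + C' θ^j) ≤ exp (C' / (1 - θ))`. -/
theorem prod_bound {M : E →L[ℂ] E} {u s : E} {l m : ℂ} (hd : det2 u s ≠ 0) (hu : M u = l • u)
    (hs : M s = m • s) (hl : ‖m‖ ≤ ‖l‖) (hl0 : l ≠ 0) {B : ℕ → E →L[ℂ] E} {C θ : ℝ} (h0 : 0 ≤ θ)
    (h1 : θ < 1) (hB : ∀ j, ‖B j - M‖ ≤ C * θ ^ j) {v : ℕ → E} (hv : ∀ j, v (j + 1) = B j (v j)) :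
    ∃ K : ℝ, ∀ j, ‖v j‖ ≤ K * ‖l‖ ^ j := by
  obtain ⟨ν, hν⟩ : ∃ ν : E → ℝ, ∀ w, ν w = max ‖det2 w s‖ ‖det2 u w‖ := ⟨_, fun _ => rfl⟩
  obtain ⟨P, hPu, hPs⟩ : ∃ P : ℝ, ‖u‖ ≤ P ∧ ‖s‖ ≤ P := ⟨_, le_max_left _ _, le_max_right _ _⟩
  have hP : 0 ≤ P := (norm_nonneg _).trans hPu
  have hd0 := norm_pos_iff.2 hd
  have hl1 := norm_pos_iff.2 hl0
  have hC : 0 ≤ C := by simpa using (norm_nonneg _).trans (hB 0)
  have hν0 : ∀ w, 0 ≤ ν w := fun w => by rw [hν]; positivity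
  have h2 : ∀ w, ‖w‖ ≤ 2 * P / ‖det2 u s‖ * ν w := fun w => by
    have h3 := norm_add_le (det2 w s • u) (det2 u w • s)
    rw [← det2_cramer, norm_smul, norm_smul, norm_smul] at h3
    have h4 : ‖det2 w s‖ * ‖u‖ ≤ ν w * P :=
      mul_le_mul (by rw [hν]; exact le_max_left _ _) hPu (norm_nonneg _) (hν0 w)
    have h5 : ‖det2 u w‖ * ‖s‖ ≤ ν w * P :=
      mul_le_mul (by rw [hν]; exact le_max_right _ _) hPs (norm_nonneg _) (hν0 w)
    rw [div_mul_eq_mul_div, le_div_iff₀ hd0]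
    linarith
  have h3 : ∀ w e, ν (M w + e) ≤ ‖l‖ * ν w + 2 * P * ‖e‖ := fun w e => by
    have h4 := congrArg M (det2_cramer u s w)
    rw [map_add, map_smul, map_smul, map_smul, hu, hs] at h4
    have h5 := congrArg Prod.fst h4
    have h6 := congrArg Prod.snd h4
    simp only [Prod.smul_fst, Prod.smul_snd, Prod.fst_add, Prod.snd_add, smul_eq_mul] at h5 h6
    have h7 : det2 (M w + e) s = l * det2 w s + det2 e s := mul_left_cancel₀ hd (by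
      simp only [det2, Prod.fst_add, Prod.snd_add] at h5 h6 ⊢
      linear_combination s.2 * h5 - s.1 * h6)
    have h8 : det2 u (M w + e) = m * det2 u w + det2 u e := mul_left_cancel₀ hd (by
      simp only [det2, Prod.fst_add, Prod.snd_add] at h5 h6 ⊢
      linear_combination u.1 * h6 - u.2 * h5)
    have he := norm_nonneg e
    rw [hν (M w + e), h7, h8]
    refine max_le ((norm_add_le _ _).trans (add_le_add ?_ ((norm_det2_le _ _).trans ?_)))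
      ((norm_add_le _ _).trans (add_le_add ?_ ((norm_det2_le _ _).trans ?_)))
    · rw [norm_mul, hν]
      exact mul_le_mul_of_nonneg_left (le_max_left _ _) hl1.le
    · nlinarith
    · rw [norm_mul, hν]
      exact mul_le_mul hl (le_max_right _ _) (norm_nonneg _) hl1.le
    · gcongr
  obtain ⟨Q, hQ⟩ : ∃ Q, Q = 2 * P / ‖det2 u s‖ := ⟨_, rfl⟩
  have hQ0 : 0 ≤ Q := by rw [hQ]; positivity
  rw [← hQ] at h2
  have hθ : 0 < 1 - θ := by linarith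
  obtain ⟨K, hK⟩ : ∃ K, K = 2 * P * C * Q / ‖l‖ / (1 - θ) := ⟨_, rfl⟩
  have hK0 : 0 ≤ K := by rw [hK]; positivity
  have hK1 : 2 * P * C * Q = ‖l‖ * (K * (1 - θ)) := by rw [hK]; field_simp
  have h4 : ∀ j, ν (v (j + 1)) ≤ ‖l‖ * Real.exp (K * (1 - θ) * θ ^ j) * ν (v j) := fun j => by
    have h5 := h3 (v j) ((B j - M) (v j))
    rw [show M (v j) + (B j - M) (v j) = v (j + 1) by rw [hv]; simp] at h5
    have h6 : ‖(B j - M) (v j)‖ ≤ C * θ ^ j * (Q * ν (v j)) :=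
      (ContinuousLinearMap.le_opNorm _ _).trans
        (mul_le_mul (hB j) (h2 _) (norm_nonneg _) (by positivity))
    have h7 := mul_le_mul_of_nonneg_left h6 (show 0 ≤ 2 * P by positivity)
    have h8 : 2 * P * (C * θ ^ j * (Q * ν (v j))) = ‖l‖ * (K * (1 - θ) * θ ^ j) * ν (v j) := by
      linear_combination (θ ^ j * ν (v j)) * hK1
    have h9 := mul_le_mul_of_nonneg_right (mul_le_mul_of_nonneg_left
      (Real.add_one_le_exp (K * (1 - θ) * θ ^ j)) hl1.le) (hν0 (v j))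
    linarith
  have h5 : ∀ j, ν (v j) ≤ ν (v 0) * Real.exp (K * (1 - θ ^ j)) * ‖l‖ ^ j := fun j => by
    induction j with
    | zero => simp
    | succ j ih =>
      refine (h4 j).trans ((mul_le_mul_of_nonneg_left ih (by positivity)).trans (le_of_eq ?_))
      rw [show K * (1 - θ ^ (j + 1)) = K * (1 - θ) * θ ^ j + K * (1 - θ ^ j) by ring,
        Real.exp_add]
      ring
  refine ⟨Q * (ν (v 0) * Real.exp K), fun j => (h2 _).trans ?_⟩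
  rw [mul_assoc]
  refine mul_le_mul_of_nonneg_left ((h5 j).trans (mul_le_mul_of_nonneg_right
    (mul_le_mul_of_nonneg_left (Real.exp_le_exp.2 ?_) (hν0 _)) (by positivity))) hQ0
  nlinarith [pow_nonneg h0 j]

end Pool.Agent.Lib.MP_7b5e47_an.Hn
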