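import Pool.Agent.Lib.MP_7b5e47_an.Hn.EErg
import Pool.Agent.Lib.MP_7b5e47_an.Hn.ELin

namespace Pool.Agent.Lib.MP_7b5e47_an.Hn

open Filter Topology Set Metric MeasureTheory

/-! Oseledets frames. -/

variable {F : Pm} {a : ℂ}

/-- regular points in `X` -/
def Reg (F : Pm) (X : Set E) (χu χs ε N : ℝ) : Set E :=
  {x | x ∈ X ∧ ∃ u s, Good F χu χs ε N x u s}

/-- projection of a compact set (`isClosed_good`) -/
theorem isCompact_reg (hA : Aut F a) {X : Set E} (hX : IsCompact X) (χu χs ε N : ℝ) :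
    IsCompact (Reg F X χu χs ε N) := by
  have h1 : IsCompact ((X ×ˢ sphere (0 : E) 1 ×ˢ sphere (0 : E) 1) ∩
      {y : E × E × E | Good F χu χs ε N y.1 y.2.1 y.2.2}) :=
    (hX.prod ((isCompact_sphere _ _).prod (isCompact_sphere _ _))).inter_right
      (isClosed_good hA χu χs ε N)
  convert h1.image continuous_fst using 1
  ext x
  constructor
  · rintro ⟨hx, u, s, h⟩
    exact ⟨(x, u, s), ⟨⟨hx, mem_sphere_zero_iff_norm.2 h.nu, mem_sphere_zero_iff_norm.2 h.ns⟩, h⟩,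
      rfl⟩
  · rintro ⟨y, ⟨h2, h3⟩, rfl⟩
    exact ⟨h2.1, _, _, h3⟩

theorem EOsel_bd {b : ℕ → ℝ} {χ ε : ℝ}
    (h : Tendsto (fun n : ℕ => Real.log (b n) / n) atTop (𝓝 χ)) (hε : 0 < ε) :
    ∃ N : ℝ, ∀ n : ℕ, b n ≤ N * Real.exp ((χ + ε) * n) := by
  have h1 : ∀ᶠ n : ℕ in atTop, b n / Real.exp ((χ + ε) * n) ≤ 1 := by
    filter_upwards [h.eventually (gt_mem_nhds (lt_add_of_pos_right χ hε)),
      eventually_gt_atTop 0] with n h2 h3
    rw [div_lt_iff₀ (by exact_mod_cast h3)] at h2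
    rw [div_le_one (Real.exp_pos _)]
    exact (Real.le_exp_log _).trans (Real.exp_le_exp.2 h2.le)
  obtain ⟨N, hN⟩ := (isBoundedUnder_of_eventually_le h1).bddAbove_range
  exact ⟨N, fun n => (div_le_iff₀ (Real.exp_pos _)).1 (hN ⟨n, rfl⟩)⟩

theorem EOsel_int {x v : E} {χ ε N : ℝ}
    (h1 : ∀ n : ℕ, ‖fderiv ℂ (⇑(F ^ n)) x v‖ ≤ N * Real.exp ((χ + ε) * n))
    (h2 : ∀ n : ℕ, ‖fderiv ℂ (⇑(F⁻¹ ^ n)) x v‖ ≤ N * Real.exp ((-χ + ε) * n)) (n : ℤ) :
    ‖fderiv ℂ (⇑(F ^ n)) x v‖ ≤ N * Real.exp (χ * n + ε * |(n : ℝ)|) := by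
  obtain ⟨m, rfl | rfl⟩ := n.eq_nat_or_neg
  · rw [zpow_natCast, Int.cast_natCast, Nat.abs_cast, ← add_mul]
    exact h1 m
  · rw [zpow_neg, zpow_natCast, ← inv_pow, Int.cast_neg, Int.cast_natCast, abs_neg, Nat.abs_cast,
      mul_neg, ← neg_mul, ← add_mul]
    exact h2 m

/-- points with a unit vector that is contracted in both directions -/
def EOsel_B (F : Pm) (X : Set E) (p q N : ℝ) : Set E :=
  {x | x ∈ X ∧ ∃ v : E, ‖v‖ = 1 ∧ (∀ n : ℕ, ‖fderiv ℂ (⇑(F ^ n)) x v‖ ≤ N * Real.exp (p * n)) ∧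
    ∀ n : ℕ, ‖fderiv ℂ (⇑(F⁻¹ ^ n)) x v‖ ≤ N * Real.exp (q * n)}

theorem EOsel_cpt (hA : Aut F a) {X : Set E} (hX : IsCompact X) (p q N : ℝ) :
    IsCompact (EOsel_B F X p q N) := by
  have h0 : ∀ {G : Pm} {b : ℂ}, Aut G b → ∀ r : ℝ, IsClosed
      {y : E × E | ∀ n : ℕ, ‖fderiv ℂ (⇑(G ^ n)) y.1 y.2‖ ≤ N * Real.exp (r * n)} :=
    fun hG r => by
      rw [ofPred_forall]
      exact isClosed_iInter fun n => isClosed_le ((((continuous_fderiv_of_diff (hG.ndiff n)).comp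
        continuous_fst).clm_apply continuous_snd).norm) continuous_const
  have h1 := (hX.prod (isCompact_sphere (0 : E) 1)).inter_right ((h0 hA p).inter (h0 hA.inv q))
  convert h1.image continuous_fst using 1
  ext x
  constructor
  · rintro ⟨hx, v, h2, h3⟩
    exact ⟨(x, v), ⟨⟨hx, mem_sphere_zero_iff_norm.2 h2⟩, h3⟩, rfl⟩
  · rintro ⟨y, ⟨h2, h3⟩, rfl⟩
    exact ⟨h2.1, y.2, mem_sphere_zero_iff_norm.1 h2.2, h3⟩

theorem EOsel_lim {c : ℝ} (hc : c < 0) (C : ℝ) :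
    Tendsto (fun n : ℕ => C * Real.exp (c * n)) atTop (𝓝 0) := by
  simpa using (Real.tendsto_exp_atBot.comp
    (tendsto_natCast_atTop_atTop.const_mul_atTop_of_neg hc)).const_mul C

theorem EOsel_ret (hA : Aut F a) {X : Set E} {p q N : ℝ} (hp : 2 * p < Real.log ‖a‖) {x : E}
    {n : ℕ} (hx : x ∈ EOsel_B F X p q N) (hy : (F ^ n) x ∈ EOsel_B F X p q N) :
    1 ≤ N ^ 2 * Real.exp ((p + q) * n) := by
  obtain ⟨-, v, hv, h1, -⟩ := hx
  obtain ⟨-, v', hv', h2, h3⟩ := hy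
  have ha : 0 < ‖a‖ := norm_pos_iff.2 hA.ne
  have hd : det2 v' (fderiv ℂ (⇑(F ^ n)) x v) = 0 := by
    refine norm_le_zero_iff.1 (ge_of_tendsto' (EOsel_lim (c := 2 * p - Real.log ‖a‖) (by linarith)
      (2 * N ^ 2 * Real.exp (p * n))) fun m => ?_)
    have h4 := norm_det2_le (fderiv ℂ (⇑(F ^ m)) ((F ^ n) x) v')
      (fderiv ℂ (⇑(F ^ m)) ((F ^ n) x) (fderiv ℂ (⇑(F ^ n)) x v))
    rw [hA.njac, ← hA.fderiv_nadd, norm_mul, norm_pow] at h4
    have h5 := mul_le_mul (mul_le_mul_of_nonneg_left (h2 m) zero_le_two) (h1 (m + n))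
      (norm_nonneg _) (mul_nonneg zero_le_two ((norm_nonneg _).trans (h2 m)))
    refine le_of_mul_le_mul_left ((h4.trans h5).trans (le_of_eq ?_)) (pow_pos ha m)
    rw [← Real.exp_log (pow_pos ha m), Real.log_pow]
    have h6 : Real.exp (p * m) * Real.exp (p * (m + n : ℕ)) = Real.exp (m * Real.log ‖a‖) *
        (Real.exp (p * n) * Real.exp ((2 * p - Real.log ‖a‖) * m)) := by
      simp only [← Real.exp_add]
      congr 1
      push_cast
      ring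
    linear_combination 2 * N ^ 2 * h6
  obtain ⟨c, hc⟩ := exists_smul_of_det2 (norm_ne_zero_iff.1 (by rw [hv']; exact one_ne_zero)) hd
  have h4 : ‖c‖ ≤ N * Real.exp (p * n) := by
    have h5 := h1 n
    rwa [hc, norm_smul, hv', mul_one] at h5
  have h5 : c • fderiv ℂ (⇑(F⁻¹ ^ n)) ((F ^ n) x) v' = v := by
    rw [← map_smul, ← hc, ← BAut_comp (hA.inv.ndiff n) (hA.ndiff n), inv_pow, inv_mul_cancel]
    simp
  calc 1 = ‖c‖ * ‖fderiv ℂ (⇑(F⁻¹ ^ n)) ((F ^ n) x) v'‖ := by rw [← norm_smul, h5, hv]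
    _ ≤ N * Real.exp (p * n) * (N * Real.exp (q * n)) :=
      mul_le_mul h4 (h3 n) (norm_nonneg _) ((norm_nonneg _).trans h4)
    _ = _ := by
      rw [add_mul, Real.exp_add]
      ring

theorem EOsel_null (hA : Aut F a) {X : Set E} (hX : IsCompact X) {ν : Measure E}
    [IsFiniteMeasure ν] (hν : MeasurePreserving (⇑F) ν ν) {p q : ℝ} (hp : 2 * p < Real.log ‖a‖)
    (hq : p + q < 0) (N : ℝ) : ∀ᵐ x ∂ν, x ∉ EOsel_B F X p q N := by
  filter_upwards [hν.conservative.ae_mem_imp_frequently_image_mem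
    (EOsel_cpt hA hX p q N).measurableSet.nullMeasurableSet] with x hx hxB
  obtain ⟨n, h1, h2⟩ := ((hx hxB).and_eventually
    ((EOsel_lim hq (N ^ 2)).eventually (gt_mem_nhds one_pos))).exists
  rw [← Equiv.Perm.coe_pow] at h1
  exact absurd (EOsel_ret hA hp hxB h1) (not_le.2 h2)

/-- `exists_stable` for `F` and for `F⁻¹` gives `s` and `u` with the forward (resp. backward)
bound; the other two bounds follow from the operator norms. It remains to see `det2 u s ≠ 0`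
almost everywhere. WLOG `ε` small, `2 ε < χ - χs` where `χs = log ‖a‖ - χ`. Let `B N` be the compact
set of `x ∈ X` with a unit vector `v` satisfying both the forward bound for `s` and the backward
bound for `u` with constant `N`. If `x` and `F^n x` are in `B N`, the vector `v'` at `F^n x` is
proportional to `D(F^n) v` (two independent vectors cannot both satisfy a forward bound of rate
`χs + ε`, by `Aut.njac`), so `1 = ‖v‖ ≤ N^2 exp ((χs - χ + 2 ε) n)`, which bounds `n`. By Poincare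
recurrence (`MeasurePreserving.conservative`, `Conservative.ae_mem_imp_frequently_image_mem`)
`B N` is null. -/
theorem oseledets (hA : Aut F a) {X : Set E} (hX : CInv F X) {ν : Measure E}
    [IsFiniteMeasure ν] (hν : MeasurePreserving (⇑F) ν ν) (hs : ν Xᶜ = 0) {χ : ℝ}
    (hχ : ∀ᵐ x ∂ν,
      Tendsto (fun n : ℕ => Real.log ‖fderiv ℂ (⇑(F ^ n)) x‖ / n) atTop (𝓝 χ) ∧
      Tendsto (fun n : ℕ => Real.log ‖fderiv ℂ (⇑(F⁻¹ ^ n)) x‖ / n) atTop
        (𝓝 (χ - Real.log ‖a‖))) (h2 : Real.log ‖a‖ < 2 * χ) {ε : ℝ} (hε : 0 < ε) :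
    ∀ᵐ x ∂ν, ∃ N : ℕ, x ∈ Reg F X χ (Real.log ‖a‖ - χ) ε N := by
  obtain ⟨R, hR⟩ := hX.1.isBounded.exists_norm_le
  have hη : 0 < (2 * χ - Real.log ‖a‖) / 4 := by linarith
  have hB : ∀ᵐ x ∂ν, ∀ N : ℕ, x ∉ EOsel_B F X
      (Real.log ‖a‖ - χ + (2 * χ - Real.log ‖a‖) / 4) (-χ + (2 * χ - Real.log ‖a‖) / 4) N :=
    ae_all_iff.2 fun N => EOsel_null hA hX.1 hν (by linarith) (by linarith) N
  filter_upwards [hχ, hB, mem_ae_iff.2 hs] with x hx hxB hxX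
  have hL : Real.log ‖a⁻¹‖ = -Real.log ‖a‖ := by rw [norm_inv, Real.log_inv]
  obtain ⟨s, hs1, hs2⟩ := exists_stable hA (R := R)
    (fun n => hR _ (by simpa using hX.zpow n hxX)) hx.1 h2
  obtain ⟨u, hu1, hu2⟩ := exists_stable hA.inv (R := R)
    (fun n => hR _ (by simpa using hX.zpow (-n) hxX)) hx.2 (by rw [hL]; linarith)
  have e : ∀ t : ℝ, Real.log ‖a⁻¹‖ - (χ - Real.log ‖a‖) + t = -χ + t := fun t => by
    rw [hL]
    ring
  simp only [e] at hu2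
  have hd : det2 u s ≠ 0 := fun h0 => by
    obtain ⟨c, hc⟩ := exists_smul_of_det2 (norm_ne_zero_iff.1 (by rw [hu1]; exact one_ne_zero)) h0
    have hc1 : ‖c‖ = 1 := by rwa [hc, norm_smul, hu1, mul_one] at hs1
    obtain ⟨N₁, h3⟩ := hs2 _ hη
    obtain ⟨N₂, h4⟩ := hu2 _ hη
    obtain ⟨N, hN⟩ := exists_nat_ge (max N₁ N₂)
    refine hxB N ⟨hxX, s, hs1, fun n => (h3 n).trans ?_, fun n => ?_⟩
    · exact mul_le_mul_of_nonneg_right ((le_max_left _ _).trans hN) (Real.exp_pos _).le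
    · rw [hc, map_smul, norm_smul, hc1, one_mul]
      exact (h4 n).trans
        (mul_le_mul_of_nonneg_right ((le_max_right _ _).trans hN) (Real.exp_pos _).le)
  obtain ⟨N₁, h3⟩ := hs2 _ hε
  obtain ⟨N₂, h4⟩ := hu2 _ hε
  obtain ⟨N₃, h5⟩ := EOsel_bd hx.1 hε
  obtain ⟨N₄, h6⟩ := EOsel_bd hx.2 hε
  obtain ⟨N, hN⟩ := exists_nat_ge (max (max (max N₁ N₂) (max N₃ N₄)) (1 / ‖det2 u s‖))
  simp only [max_le_iff] at hN
  have hd0 : 0 < ‖det2 u s‖ := norm_pos_iff.2 hd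
  refine ⟨N, hxX, u, s, hu1, hs1, ?_, EOsel_int (fun n => ?_) fun n => ?_,
    EOsel_int (fun n => ?_) fun n => ?_⟩
  · exact (one_div_le ((one_div_pos.2 hd0).trans_le hN.2) hd0).2 hN.2
  · refine (ContinuousLinearMap.le_opNorm _ _).trans ?_
    rw [hu1, mul_one]
    exact (h5 n).trans (mul_le_mul_of_nonneg_right hN.1.2.1 (Real.exp_pos _).le)
  · exact (h4 n).trans (mul_le_mul_of_nonneg_right hN.1.1.2 (Real.exp_pos _).le)
  · exact (h3 n).trans (mul_le_mul_of_nonneg_right hN.1.1.1 (Real.exp_pos _).le)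
  · refine (ContinuousLinearMap.le_opNorm _ _).trans ?_
    rw [hs1, mul_one, neg_sub]
    exact (h6 n).trans (mul_le_mul_of_nonneg_right hN.1.2.2 (Real.exp_pos _).le)

end Pool.Agent.Lib.MP_7b5e47_an.Hn
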