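import Pool.Agent.Lib.MP_7b5e47_an.Hn.CHyp
import Pool.Agent.Lib.MP_7b5e47_an.Hn.EOsel
import Pool.Agent.Lib.MP_7b5e47_an.Hn.ENorm

namespace Pool.Agent.Lib.MP_7b5e47_an.Hn

open Filter Topology Set Metric MeasureTheory

/-! Boxes from regular sets of positive measure. -/

variable {F : Pm} {a : ℂ}

/-- almost every point of a measurable set returns to it in both directions of time -/
theorem CBox_rec (hA : Aut F a) {ν : Measure E} [IsFiniteMeasure ν]
    (hν : MeasurePreserving (⇑F) ν ν) {S : Set E} (hS : MeasurableSet S) (h0 : ν S ≠ 0) :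
    ∃ R ⊆ S, MeasurableSet R ∧ ν R ≠ 0 ∧ ∀ x ∈ R, Rec {k : ℤ | (F ^ k) x ∈ S} := by
  have h1 := (hν.conservative.ae_mem_imp_frequently_image_mem hS.nullMeasurableSet).and
    ((mp_inv hA hν).conservative.ae_mem_imp_frequently_image_mem hS.nullMeasurableSet)
  obtain ⟨Z, h2, h3, h4⟩ := exists_measurable_superset_of_null (ae_iff.1 h1)
  refine ⟨S \ Z, diff_subset, hS.diff h3, by rwa [measure_diff_null h4], fun x hx => ?_⟩
  obtain ⟨h5, h6⟩ := not_not.1 fun h => hx.2 (h2 h)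
  refine ⟨by simpa using hx.1, fun n => ?_, fun n => ?_⟩
  · obtain ⟨m, h7, h8⟩ := frequently_atTop.1 (h5 hx.1) n.toNat
    exact ⟨m, by rwa [mem_setOf_eq, zpow_natCast, Equiv.Perm.coe_pow], by omega⟩
  · obtain ⟨m, h7, h8⟩ := frequently_atTop.1 (h6 hx.1) (-n).toNat
    refine ⟨-m, ?_, by omega⟩
    rwa [mem_setOf_eq, zpow_neg, zpow_natCast, ← inv_pow, Equiv.Perm.coe_pow]

theorem CBox_log (hA : Aut F a) (ha : ‖a‖ < 1) : Real.log ‖a‖ < 0 :=
  Real.log_neg (norm_pos_iff.2 hA.ne) ha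

/-- Cover the compact set of good triples over `X` by finitely many closed balls of radius `ε'`
centred at good triples; one of them, `(x₀, u₀, s₀)`, has a projection `R₀` (compact) of positive
measure. `R` is the set of `x ∈ R₀` returning to `R₀` infinitely often under `F` and under `F⁻¹`
(measurable; Poincare recurrence, `mp_inv`). For `x ∈ R` take a sparse set of return times
(`Rec.sparse`), `Good.at_return`, and `exists_rchain`. -/
theorem exists_box (hA : Aut F a) {X : Set E} (hX : CInv F X) {ν : Measure E} [IsFiniteMeasure ν]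
    (hν : MeasurePreserving (⇑F) ν ν) {χu χs ε N : ℝ} (hε : 0 < ε) (h1 : 1000 * ε ≤ χu)
    (h2 : 1000 * ε ≤ -χs) (h3 : 1000 * ε ≤ 1) (hχ : χu + χs = Real.log ‖a‖)
    (h0 : ν (Reg F X χu χs ε N) ≠ 0) :
    ∃ (Λ b δ c₀ : ℝ) (A₀ : Ch) (R : Set E), R ⊆ X ∧ Box F ν Λ b δ c₀ A₀ R := by
  obtain ⟨ρ, hρ⟩ := hX.1.isBounded.exists_norm_le
  obtain ⟨Λ, b, δ, c₀, r, ε', M, hε', hch⟩ := exists_rchain hA ρ hε h1 h2 h3 hχ N
  obtain ⟨K, hK⟩ : ∃ K : Set (E × E × E),
      K = {y | y.1 ∈ X ∧ Good F χu χs ε N y.1 y.2.1 y.2.2} := ⟨_, rfl⟩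
  have k1 : IsCompact K := by
    refine (hX.1.prod ((isCompact_closedBall (0 : E) 1).prod
      (isCompact_closedBall (0 : E) 1))).of_isClosed_subset ?_ fun y hy => ?_
    · rw [hK]
      exact (hX.1.isClosed.preimage continuous_fst).inter (isClosed_good hA χu χs ε N)
    · rw [hK] at hy
      exact ⟨hy.1, mem_closedBall_zero_iff.2 hy.2.nu.le, mem_closedBall_zero_iff.2 hy.2.ns.le⟩
  obtain ⟨t, t1, t2, t3⟩ := finite_cover_balls_of_compact k1 hε'
  obtain ⟨y, hy, k2⟩ : ∃ y ∈ t, ν (Prod.fst '' (K ∩ closedBall y ε')) ≠ 0 := by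
    by_contra hc
    push Not at hc
    refine h0 (measure_mono_null ?_ ((measure_biUnion_null_iff t2.countable).2 hc))
    rintro x ⟨hx, u, s, hg⟩
    have hm : (x, u, s) ∈ K := hK ▸ ⟨hx, hg⟩
    obtain ⟨y, hy, hy'⟩ := mem_iUnion₂.1 (t3 hm)
    exact mem_iUnion₂.2 ⟨y, hy, _, ⟨hm, ball_subset_closedBall hy'⟩, rfl⟩
  obtain ⟨R, r1, r2, r3, r4⟩ := CBox_rec hA hν
    ((k1.inter_right isClosed_closedBall).image continuous_fst).measurableSet k2
  obtain ⟨y1, y2⟩ := hK.subset (t1 hy)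
  have r5 : R ⊆ X := fun x hx => by
    obtain ⟨w, hw, rfl⟩ := r1 hx
    exact (hK.subset hw.1).1
  refine ⟨Λ, b, δ, c₀, ⟨y.1, (r : ℂ) • y.2.1, (r : ℂ) • y.2.2⟩, R, r5, r2, r3, fun x hx => ?_⟩
  have r6 : ∀ k : ℤ, ‖(F ^ k) x‖ ≤ ρ := fun k => hρ _ (hX.zpow k (r5 hx))
  refine ⟨⟨ρ, fun n => by simpa using r6 n⟩, ⟨ρ, fun n => by simpa using r6 (-n)⟩, ?_⟩
  obtain ⟨T, T1, T2, T3⟩ := (r4 x hx).sparse M
  obtain ⟨w, hw, rfl⟩ := r1 hx
  obtain ⟨A, hA'⟩ := hch _ _ _ (hρ _ y1) y2.nu y2.ns y2.det w.1 w.2.1 w.2.2 T r6 ⟨0, T2.1⟩ T3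
    fun k hk => by
      obtain ⟨v, hv, e⟩ := T1 hk
      have g1 := (hK.subset hv.1).2
      have g2 := mem_closedBall_iff_norm.1 hv.2
      rw [e] at g1
      obtain ⟨c, c', e1, e2⟩ := (hK.subset hw.1).2.at_return hA hχ hε.le (by linarith) g1
      refine ⟨c, c', ?_⟩
      rw [← e1, ← e2]
      exact ⟨g1, e ▸ (norm_fst_le _).trans g2,
        (norm_fst_le (v - y).2).trans ((norm_snd_le _).trans g2),
        (norm_snd_le (v - y).2).trans ((norm_snd_le _).trans g2)⟩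
  exact ⟨A, T, hA', T2⟩

/-- an ergodic measure with positive exponent: `oseledets` with
`ε = min χ (min (χ - log ‖a‖) 1) / 1000`, then `exists_box` -/
theorem exists_box_pos (hA : Aut F a) (ha : ‖a‖ < 1) {X : Set E} (hX : CInv F X) {ν : Measure E}
    [IsProbabilityMeasure ν] (hν : MeasurePreserving (⇑F) ν ν) (hs : ν Xᶜ = 0) {χ : ℝ}
    (hχ : ∀ᵐ x ∂ν,
      Tendsto (fun n : ℕ => Real.log ‖fderiv ℂ (⇑(F ^ n)) x‖ / n) atTop (𝓝 χ) ∧
      Tendsto (fun n : ℕ => Real.log ‖fderiv ℂ (⇑(F⁻¹ ^ n)) x‖ / n) atTop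
        (𝓝 (χ - Real.log ‖a‖))) (hpos : 0 < χ) :
    ∃ (Λ b δ c₀ : ℝ) (A₀ : Ch) (R : Set E), R ⊆ X ∧ Box F ν Λ b δ c₀ A₀ R := by
  have h1 := CBox_log hA ha
  have h2 : 0 < min χ 1 / 1000 := by positivity
  have h3 := oseledets hA hX hν hs hχ (by linarith) h2
  obtain ⟨N, hN⟩ : ∃ N : ℕ, ν (Reg F X χ (Real.log ‖a‖ - χ) (min χ 1 / 1000) N) ≠ 0 := by
    by_contra hc
    push Not at hc
    obtain ⟨x, h4, h5⟩ := (h3.and (measure_eq_zero_iff_ae_notMem.1 (measure_iUnion_null hc))).exists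
    exact h5 (mem_iUnion.2 h4)
  exact exists_box hA hX hν h2 (by linarith [min_le_left χ 1]) (by linarith [min_le_left χ 1])
    (by linarith [min_le_right χ 1]) (by ring) hN

/-- `X = Kp F ∩ Kp F⁻¹`. Let `Z` be the complement of the union of the sets `Slow F ε₀ N`
(`slow_null`, `N : ℕ`) and of the sets `Reg F X q (log ‖a‖ - q) (min q 1 / 1000) N`
(`q` positive rational, `N : ℕ`). If `μ Z ≠ 0`, `exists_ergodic_pos` gives an ergodic `ν` with
`ν Z ≠ 0`; its exponent `χ` (`exists_exponent`) is either `≤ 0`, and then almost every point is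
slow (`tempered_bound`), or positive, and then almost every point is regular (`oseledets` with
`ε = min χ 1 / 4000`, a rational `q` close to `χ`, `Good.mono`): contradiction. So one of the
regular sets has positive measure; `exists_box`. -/
theorem exists_box_mu {d : ℝ} {Gp Gm : E → ℝ} {μ : Measure E} (h : Sys F a d Gp Gm μ)
    (ha : ‖a‖ < 1) : ∃ (Λ b δ c₀ : ℝ) (A₀ : Ch) (R : Set E), Box F μ Λ b δ c₀ A₀ R := by
  have := h.prob
  have hA := h.aut
  have h1 := CBox_log hA ha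
  obtain ⟨X, hX⟩ : ∃ X, X = Kp F ∩ Kp F⁻¹ := ⟨_, rfl⟩
  have h2 : CInv F X := by
    rw [hX]
    refine ⟨isCompact_K h.gp h.gm, fun x hx => ?_, fun x hx => ?_⟩
    · simpa using And.intro ((mem_Kp_zpow 1).2 hx.1) ((mem_Km_zpow 1).2 hx.2)
    · simpa using And.intro ((mem_Kp_zpow (-1)).2 hx.1) ((mem_Km_zpow (-1)).2 hx.2)
  have h3 : μ Xᶜ = 0 := by
    rw [hX, compl_inter]
    exact measure_union_null (measure_mono_null (fun z hz e => hz ((h.gp.zero_iff z).1 e)) h.mp.supp)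
      (measure_mono_null (fun z hz e => hz ((h.gm.zero_iff z).1 e)) h.mm.supp)
  obtain ⟨ρ, hρ⟩ := h2.1.isBounded.exists_norm_le
  obtain ⟨ε, hε, h4⟩ := slow_null h
  by_contra hc
  have h5 : ∀ (q : {q : ℚ // 0 < (q : ℝ)}) (N : ℕ),
      μ (Reg F X q.1 (Real.log ‖a‖ - q.1) (min (q.1 : ℝ) 1 / 1000) N) = 0 := fun q N => by
    by_contra h6
    have := q.2
    obtain ⟨Λ, b, δ, c₀, A₀, R, -, h7⟩ := exists_box hA h2 h.mp.mp (by positivity)
      (by linarith [min_le_left (q.1 : ℝ) 1]) (by linarith [min_le_left (q.1 : ℝ) 1])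
      (by linarith [min_le_right (q.1 : ℝ) 1]) (by ring) h6
    exact hc ⟨Λ, b, δ, c₀, A₀, R, h7⟩
  have h6 := measure_union_null (measure_iUnion_null fun N : ℕ => h4 N)
    (measure_iUnion_null fun q => measure_iUnion_null (h5 q))
  obtain ⟨ν, n1, n2, n3, n4⟩ := exists_ergodic_pos hA h2 h.mp.mp h3 (MeasurableSet.compl
    ((MeasurableSet.iUnion fun N : ℕ => (isClosed_slow h ε N).measurableSet).union
      (MeasurableSet.iUnion fun q => MeasurableSet.iUnion fun N : ℕ =>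
        (isCompact_reg hA h2.1 _ _ _ _).measurableSet)))
    (by rw [prob_compl_eq_one_iff₀ (.of_null h6) |>.2 h6]; exact one_ne_zero)
  obtain ⟨χ, hχ⟩ := exists_exponent hA h2 n2 n3
  refine n4 (mem_ae_iff.1 ?_)
  rcases le_or_gt χ 0 with h7 | h7
  · filter_upwards [hχ, mem_ae_iff.2 n3] with x hx hx'
    obtain ⟨N, hN⟩ := tempered_bound hA (R := ρ)
      (fun n => hρ _ (by simpa using h2.zpow n hx')) hx.1 hε
    refine Or.inl (mem_iUnion.2 ⟨⌈N⌉₊, hX.subset hx', fun k n => (hN k n).trans ?_⟩)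
    gcongr
    exact Nat.le_ceil N
  · have h8 : 0 < min χ 1 / 4000 := by positivity
    obtain ⟨q, q1, q2⟩ := exists_rat_btwn (lt_add_of_pos_right χ h8)
    have h9 : |χ - q| + min χ 1 / 4000 ≤ min (q : ℝ) 1 / 1000 := by
      rw [abs_of_neg (by linarith)]
      linarith [min_le_min_right 1 q1.le]
    filter_upwards [oseledets hA h2 n2.toMeasurePreserving n3 hχ (by linarith) h8] with x hx
    obtain ⟨N, x1, u, s, x2⟩ := hx
    refine Or.inr (mem_iUnion₂.2 ⟨⟨q, h7.trans q1⟩, N, x1, u, s, x2.mono le_rfl h9 ?_⟩)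
    rwa [sub_sub_sub_cancel_left, abs_sub_comm]

end Pool.Agent.Lib.MP_7b5e47_an.Hn
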