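import Pool.Agent.Lib.MP_7b5e47_an.Hn.CStep

namespace Pool.Agent.Lib.MP_7b5e47_an.Hn

open Filter Topology Set Metric MeasureTheory

theorem CHyp_vec {T : Set ℤ} (hT : T.Nonempty) {v : ℤ → E} {c : ℤ → ℂ} {χ ε N M : ℝ}
    (hε : 0 < ε) (hN : 1 ≤ N) (hM : Real.log N ≤ ε * M)
    (hsp : ∀ k ∈ T, ∀ k' ∈ T, k ≠ k' → M ≤ |(k : ℝ) - k'|) (hv : ∀ k, v k ≠ 0)
    (h1 : ∀ τ ∈ T, ‖c τ • v τ‖ = 1)
    (h2 : ∀ τ ∈ T, ∀ k : ℤ, ‖c τ • v k‖ ≤ N * Real.exp (χ * (k - τ) + ε * |(k : ℝ) - τ|)) :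
    ∃ (p : ℤ → ℂ) (h : ℤ → ℝ), (∀ τ ∈ T, p τ = c τ) ∧ (∀ k, ‖p k‖ = Real.exp (-h k)) ∧
      (∀ k, |h (k + 1) - h k - χ| ≤ 2 * ε) ∧ (∀ k, ‖p k • v k‖ ≤ N) ∧
      ∀ τ ∈ T, ∀ k : ℤ, h k ≤ h τ + χ * (k - τ) + 2 * ε * |(k : ℝ) - τ| := by
  classical
  have hN0 : 0 < N := one_pos.trans_le hN
  have hv' : ∀ k, ‖v k‖ = Real.exp (Real.log ‖v k‖) := fun k =>
    (Real.exp_log (norm_pos_iff.2 (hv k))).symm
  have hc : ∀ τ ∈ T, ‖c τ‖ = Real.exp (-Real.log ‖v τ‖) := fun τ hτ => by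
    rw [Real.exp_neg, ← hv']
    exact eq_inv_of_mul_eq_one_left (by rw [← norm_smul, h1 τ hτ])
  obtain ⟨h, a1, a2, a3, a4⟩ := exists_weight hT (l := fun k => Real.log ‖v k‖ - χ * k)
    (n₀ := Real.log N) hε hM hsp fun τ hτ k => by
      have h3 := h2 τ hτ k
      rw [norm_smul, hc τ hτ, hv' k, ← Real.exp_log hN0, ← Real.exp_add, ← Real.exp_add,
        Real.exp_le_exp] at h3
      linarith
  have hp : ∀ k, ‖(if k ∈ T then c k else ((Real.exp (-(h k + χ * k)) : ℝ) : ℂ))‖ =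
      Real.exp (-(h k + χ * k)) := fun k => by
    split_ifs with hk
    · rw [hc k hk, a2 k hk]
      congr 1
      ring
    · rw [Complex.norm_real, Real.norm_of_nonneg (Real.exp_pos _).le]
  refine ⟨fun k => if k ∈ T then c k else ((Real.exp (-(h k + χ * k)) : ℝ) : ℂ),
    fun k => h k + χ * k, fun τ hτ => if_pos hτ, hp, fun k => ?_, fun k => ?_, fun τ hτ k => ?_⟩
  · convert a1 k using 2
    push_cast
    ring
  · rw [norm_smul, hp, hv' k, ← Real.exp_add, ← Real.exp_log hN0, Real.exp_le_exp]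
    linarith [a3 k]
  · have h3 := a4 τ hτ k
    rw [← a2 τ hτ] at h3
    linarith

theorem CHyp_exp_le {x : ℝ} (h0 : 0 ≤ x) (h1 : x ≤ 1) : Real.exp x ≤ 1 + 2 * x := by
  have h := Real.abs_exp_sub_one_le (x := x) (by rwa [abs_of_nonneg h0])
  rw [abs_of_nonneg h0] at h
  linarith [le_abs_self (Real.exp x - 1)]

theorem CHyp_frames {F : Pm} {a : ℂ} (hA : Aut F a) {χu χs ε N M : ℝ} (hε : 0 < ε)
    (h3 : 1000 * ε ≤ 1) (hχ : χu + χs = Real.log ‖a‖) (hN : 1 ≤ N) (hM : Real.log N ≤ ε * M)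
    {x u s : E} {T : Set ℤ} (hT : T.Nonempty)
    (hsp : ∀ k ∈ T, ∀ k' ∈ T, k ≠ k' → M ≤ |(k : ℝ) - k'|) {c c' : ℤ → ℂ}
    (hg : ∀ k ∈ T, Good F χu χs ε N ((F ^ k) x) (c k • fderiv ℂ (⇑(F ^ k)) x u)
      (c' k • fderiv ℂ (⇑(F ^ k)) x s)) :
    ∃ (U S : ℤ → E) (α β : ℤ → ℂ) (g : ℤ → ℝ), (∀ k, 0 < g k ∧ g k ≤ 1) ∧ (∀ τ ∈ T, g τ = 1) ∧
      (∀ k, g (k + 1) ≤ 2 * g k ∧ g k ≤ 2 * g (k + 1)) ∧
      (∀ k, fderiv ℂ (⇑F) ((F ^ k) x) (U k) = α k • U (k + 1) ∧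
        fderiv ℂ (⇑F) ((F ^ k) x) (S k) = β k • S (k + 1)) ∧
      (∀ k, (Real.exp (χu - 6 * ε) ≤ ‖α k‖ ∧ ‖α k‖ ≤ Real.exp (χu + 6 * ε)) ∧
        Real.exp (χs - 6 * ε) ≤ ‖β k‖ ∧ ‖β k‖ ≤ Real.exp (χs + 6 * ε)) ∧
      (∀ k, ‖U k‖ ≤ N * g k ∧ ‖S k‖ ≤ N * g k) ∧ (∀ k, g k ^ 3 / N ≤ ‖det2 (U k) (S k)‖) ∧
      (∀ k, ∀ τ ∈ T, 1 / N ≤ ‖det2 (U k) (S k)‖ * Real.exp (12 * ε) ^ (k - τ).natAbs) ∧
      ∀ τ ∈ T, U τ = c τ • fderiv ℂ (⇑(F ^ τ)) x u ∧ S τ = c' τ • fderiv ℂ (⇑(F ^ τ)) x s := by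
  have hN0 : 0 < N := one_pos.trans_le hN
  have hadd : ∀ (y : E) (τ k : ℤ), fderiv ℂ (⇑(F ^ (k - τ))) ((F ^ τ) x)
      (fderiv ℂ (⇑(F ^ τ)) x y) = fderiv ℂ (⇑(F ^ k)) x y := fun y τ k => by
    rw [← hA.fderiv_zadd, sub_add_cancel]
  have hone : ∀ (y : E) (k : ℤ), fderiv ℂ (⇑F) ((F ^ k) x) (fderiv ℂ (⇑(F ^ k)) x y) =
      fderiv ℂ (⇑(F ^ (k + 1))) x y := fun y k => by
    rw [← hadd y k (k + 1), add_sub_cancel_left, zpow_one]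
  obtain ⟨τ₀, hτ₀⟩ := id hT
  have hu : u ≠ 0 := fun h => by simpa [h] using (hg τ₀ hτ₀).nu
  have hs : s ≠ 0 := fun h => by simpa [h] using (hg τ₀ hτ₀).ns
  obtain ⟨p, h, p1, p2, p3, p4, p5⟩ := CHyp_vec hT (v := fun k => fderiv ℂ (⇑(F ^ k)) x u)
    (c := c) (χ := χu) hε hN hM hsp (fun k => hA.fderiv_ne k x hu) (fun τ hτ => (hg τ hτ).nu)
    fun τ hτ k => by
      have := (hg τ hτ).bu (k - τ)
      rwa [map_smul, hadd, Int.cast_sub] at this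
  obtain ⟨q, h', q1, q2, q3, q4, q5⟩ := CHyp_vec hT (v := fun k => fderiv ℂ (⇑(F ^ k)) x s)
    (c := c') (χ := χs) hε hN hM hsp (fun k => hA.fderiv_ne k x hs) (fun τ hτ => (hg τ hτ).ns)
    fun τ hτ k => by
      have := (hg τ hτ).bs (k - τ)
      rwa [map_smul, hadd, Int.cast_sub] at this
  obtain ⟨D, D0, D1, D2, D3⟩ := exists_dist hT
  have hgT : ∀ τ ∈ T, Real.exp (-(4 * ε * D τ)) = 1 := fun τ hτ => by
    have : D τ = 0 := le_antisymm (by simpa using D2 τ hτ τ) (D0 τ)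
    simp [this]
  have hn : ∀ (p : ℤ → ℂ) (h : ℤ → ℝ), (∀ k, ‖p k‖ = Real.exp (-h k)) → ∀ k,
      ‖((Real.exp (-(4 * ε * D k)) : ℝ) : ℂ) * p k‖ = Real.exp (-(4 * ε * D k + h k)) :=
    fun p h hp k => by
      rw [norm_mul, hp, Complex.norm_real, Real.norm_of_nonneg (Real.exp_pos _).le,
        ← Real.exp_add]
      congr 1
      ring
  have hne : ∀ (p : ℤ → ℂ) (h : ℤ → ℝ), (∀ k, ‖p k‖ = Real.exp (-h k)) → ∀ k,
      ((Real.exp (-(4 * ε * D k)) : ℝ) : ℂ) * p k ≠ 0 := fun p h hp k =>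
    norm_pos_iff.1 (by rw [hn p h hp]; exact Real.exp_pos _)
  have hq : ∀ (p : ℤ → ℂ) (h : ℤ → ℝ) (χ : ℝ), (∀ k, ‖p k‖ = Real.exp (-h k)) →
      (∀ k, |h (k + 1) - h k - χ| ≤ 2 * ε) → ∀ k,
      Real.exp (χ - 6 * ε) ≤ ‖((Real.exp (-(4 * ε * D k)) : ℝ) : ℂ) * p k /
        (((Real.exp (-(4 * ε * D (k + 1))) : ℝ) : ℂ) * p (k + 1))‖ ∧
      ‖((Real.exp (-(4 * ε * D k)) : ℝ) : ℂ) * p k /
        (((Real.exp (-(4 * ε * D (k + 1))) : ℝ) : ℂ) * p (k + 1))‖ ≤ Real.exp (χ + 6 * ε) :=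
    fun p h χ hp hh k => by
      rw [norm_div, hn p h hp, hn p h hp, ← Real.exp_sub, Real.exp_le_exp, Real.exp_le_exp]
      obtain ⟨a1, a2⟩ := abs_le.1 (hh k)
      obtain ⟨a3, a4⟩ := abs_le.1 (D1 k)
      constructor <;> nlinarith
  have hdet : ∀ k, ∀ τ ∈ T, Real.exp (-(8 * ε * D k + 4 * ε * |(k : ℝ) - τ|)) / N ≤
      ‖det2 ((((Real.exp (-(4 * ε * D k)) : ℝ) : ℂ) * p k) • fderiv ℂ (⇑(F ^ k)) x u)
        ((((Real.exp (-(4 * ε * D k)) : ℝ) : ℂ) * q k) • fderiv ℂ (⇑(F ^ k)) x s)‖ := by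
    intro k τ hτ
    have a1 := (hg τ hτ).det
    rw [det2_smul, norm_mul, norm_mul, ← p1 τ hτ, ← q1 τ hτ, p2, q2, ← Real.exp_add] at a1
    have a2 : ‖a ^ (k - τ)‖ = Real.exp ((χu + χs) * (k - τ)) := by
      rw [norm_zpow, ← Real.exp_log (zpow_pos (norm_pos_iff.2 hA.ne) (k - τ)), Real.log_zpow, hχ,
        Int.cast_sub, mul_comm]
    rw [det2_smul, ← hadd u τ k, ← hadd s τ k, hA.zjac, norm_mul, norm_mul, hn p h p2,
      hn q h' q2, norm_mul, a2, ← mul_assoc, ← Real.exp_add, ← Real.exp_add, div_eq_mul_one_div]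
    refine (mul_le_mul_of_nonneg_left a1 (Real.exp_pos _).le).trans ?_
    rw [← mul_assoc, ← Real.exp_add]
    refine mul_le_mul_of_nonneg_right (Real.exp_le_exp.2 ?_) (norm_nonneg _)
    linarith [p5 τ hτ k, q5 τ hτ k]
  have h4 : Real.exp (4 * ε) ≤ 2 := (CHyp_exp_le (by linarith) (by linarith)).trans (by linarith)
  refine ⟨fun k => (((Real.exp (-(4 * ε * D k)) : ℝ) : ℂ) * p k) • fderiv ℂ (⇑(F ^ k)) x u,
    fun k => (((Real.exp (-(4 * ε * D k)) : ℝ) : ℂ) * q k) • fderiv ℂ (⇑(F ^ k)) x s,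
    fun k => ((Real.exp (-(4 * ε * D k)) : ℝ) : ℂ) * p k /
      (((Real.exp (-(4 * ε * D (k + 1))) : ℝ) : ℂ) * p (k + 1)),
    fun k => ((Real.exp (-(4 * ε * D k)) : ℝ) : ℂ) * q k /
      (((Real.exp (-(4 * ε * D (k + 1))) : ℝ) : ℂ) * q (k + 1)),
    fun k => Real.exp (-(4 * ε * D k)), fun k => ⟨Real.exp_pos _, Real.exp_le_one_iff.2 ?_⟩, hgT,
    fun k => ?_, fun k => ⟨?_, ?_⟩, fun k => ⟨hq p h χu p2 p3 k, hq q h' χs q2 q3 k⟩,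
    fun k => ⟨?_, ?_⟩, fun k => ?_, fun k τ hτ => ?_, fun τ hτ => ⟨?_, ?_⟩⟩
  · have := mul_nonneg hε.le (D0 k)
    linarith
  · obtain ⟨a3, a4⟩ := abs_le.1 (D1 k)
    constructor <;>
    · refine le_trans ?_ (mul_le_mul_of_nonneg_right h4 (Real.exp_pos _).le)
      rw [← Real.exp_add, Real.exp_le_exp]
      nlinarith
  · rw [map_smul, hone, smul_smul, div_mul_cancel₀ _ (hne p h p2 _)]
  · rw [map_smul, hone, smul_smul, div_mul_cancel₀ _ (hne q h' q2 _)]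
  · beta_reduce
    rw [mul_smul, norm_smul, Complex.norm_real, Real.norm_of_nonneg (Real.exp_pos _).le, mul_comm]
    exact mul_le_mul_of_nonneg_right (p4 k) (Real.exp_pos _).le
  · beta_reduce
    rw [mul_smul, norm_smul, Complex.norm_real, Real.norm_of_nonneg (Real.exp_pos _).le, mul_comm]
    exact mul_le_mul_of_nonneg_right (q4 k) (Real.exp_pos _).le
  · obtain ⟨τ, hτ, hD⟩ := D3 k
    refine le_trans (le_of_eq ?_) (hdet k τ hτ)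
    rw [hD, ← Real.exp_nat_mul]
    congr 2
    push_cast
    ring
  · refine le_trans ?_ (mul_le_mul_of_nonneg_right (hdet k τ hτ) (by positivity))
    rw [← Real.exp_nat_mul, div_mul_eq_mul_div, ← Real.exp_add]
    refine div_le_div_of_nonneg_right (Real.one_le_exp ?_) hN0.le
    rw [Nat.cast_natAbs, Int.cast_abs, Int.cast_sub]
    nlinarith [D2 τ hτ k]
  · simp only [hgT τ hτ, p1 τ hτ, Complex.ofReal_one, one_mul]
  · simp only [hgT τ hτ, q1 τ hτ, Complex.ofReal_one, one_mul]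

theorem CHyp_err {F : Pm} {C₁ B e e' : ℝ} {y y' U U' V V' : E} {α : ℂ} (hC : 0 ≤ C₁)
    (h1 : ‖fderiv ℂ (⇑F) y‖ ≤ C₁) (h2 : ‖fderiv ℂ (⇑F) y' - fderiv ℂ (⇑F) y‖ ≤ C₁ * e)
    (hU : ‖U'‖ ≤ 1) (hUU : ‖U' - U‖ ≤ e) (hV : ‖V' - V‖ ≤ e') (hα : ‖α‖ ≤ B)
    (h : fderiv ℂ (⇑F) y U = α • V) :
    ‖fderiv ℂ (⇑F) y' U' - α • V'‖ ≤ (2 * C₁ + B) * (e + e') := by
  have he : 0 ≤ e := (norm_nonneg _).trans hUU
  have he' : 0 ≤ e' := (norm_nonneg _).trans hV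
  have hB : 0 ≤ B := (norm_nonneg _).trans hα
  have a1 : fderiv ℂ (⇑F) y' U' - α • V' = (fderiv ℂ (⇑F) y' - fderiv ℂ (⇑F) y) U' +
      fderiv ℂ (⇑F) y (U' - U) - α • (V' - V) := by
    rw [sub_apply, map_sub, h, smul_sub]
    abel
  have a2 : ‖(fderiv ℂ (⇑F) y' - fderiv ℂ (⇑F) y) U'‖ ≤ C₁ * e :=
    ((fderiv ℂ (⇑F) y' - fderiv ℂ (⇑F) y).le_of_opNorm_le h2 U').trans
      (mul_le_of_le_one_right (by positivity) hU)
  have a3 : ‖fderiv ℂ (⇑F) y (U' - U)‖ ≤ C₁ * e :=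
    ((fderiv ℂ (⇑F) y).le_of_opNorm_le h1 _).trans (mul_le_mul_of_nonneg_left hUU hC)
  have a4 : ‖α • (V' - V)‖ ≤ B * e' := by
    rw [norm_smul]
    exact mul_le_mul hα hV (norm_nonneg _) hB
  rw [a1]
  refine (norm_sub_le _ _).trans ((add_le_add (norm_add_le _ _) le_rfl).trans ?_)
  nlinarith [mul_nonneg hC he', mul_nonneg hB he]

theorem CHyp_small {a₁ b₁ a₂ b₂ a₃ b₃ : ℝ} (h1 : 0 < a₁) (h2 : 0 < b₁) (h3 : 0 < a₂) (h4 : 0 < b₂)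
    (h5 : 0 < a₃) (h6 : 0 < b₃) : ∃ r, 0 < r ∧ a₁ * r ≤ b₁ ∧ a₂ * r ≤ b₂ ∧ a₃ * r ≤ b₃ :=
  ⟨min (b₁ / a₁) (min (b₂ / a₂) (b₃ / a₃)), by positivity,
    (le_div_iff₀' h1).1 (min_le_left _ _),
    (le_div_iff₀' h3).1 ((min_le_right _ _).trans (min_le_left _ _)),
    (le_div_iff₀' h5).1 ((min_le_right _ _).trans (min_le_right _ _))⟩

theorem CHyp_arith {C C' N r g δb ε' η : ℝ} (hC : 1 ≤ C) (hN : 1 ≤ N) (hr : 0 < r) (hg : 0 < g)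
    (hδ : 0 < δb) (h1 : 2 * N * r * g ≤ 1) (h2 : 128 * C * N ^ 4 * r ≤ δb)
    (h3 : 256 * N * C * C' * ε' ≤ δb * r ^ 2) (hη : η = 0 ∨ (0 ≤ η ∧ η ≤ 2 * C' * ε' ∧ 1 ≤ 2 * g)) :
    C * (2 * N * r * g) * ((2 * N * r * g) ^ 2 + η) ≤ δb * (r ^ 2 * g ^ 3 / (8 * N)) := by
  have hN0 : 0 < N := one_pos.trans_le hN
  have hC0 : 0 < C := one_pos.trans_le hC
  rw [← mul_div_assoc, le_div_iff₀ (by positivity)]
  have a1 := mul_le_mul_of_nonneg_right h2 (by positivity : 0 ≤ r ^ 2 * g ^ 3)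
  have a2 : C * (2 * N * r * g) * η * (16 * N) ≤ δb * (r ^ 2 * g ^ 3) := by
    rcases hη with rfl | ⟨b1, b2, b3⟩
    · simp only [mul_zero, zero_mul]
      positivity
    · have b4 : 1 ≤ 8 * g ^ 3 := by
        have := one_le_pow₀ b3 (n := 3)
        linarith
      have b5 : 2 * N * r * g * η ≤ 2 * C' * ε' :=
        (mul_le_of_le_one_left b1 h1).trans b2
      have b6 := mul_le_mul_of_nonneg_left b5 (by positivity : 0 ≤ C * (16 * N))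
      have b7 := mul_le_mul_of_nonneg_left b4 (by positivity : 0 ≤ δb * r ^ 2)
      linarith
  linarith

/-- Charts along an orbit, equal to a fixed chart at sparse good times. Take `Λ = exp (100 ε)`,
`b = exp (χs - χu)`, `δ = (Λ - 1) b / 1000`, `M = log N / ε + 2`, `c₀ = r^2 / N` (if `N < 1` there
is nothing to prove). Let `v k = D(F^k) x u`, `w k = D(F^k) x s`, apply `exists_weight` to
`l k = log ‖v k‖ - χu k` and to `log ‖w k‖ - χs k` (`n₀ = log N`; at `τ ∈ T` the scalar `c` has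
norm `1 / ‖v τ‖`), and `exists_dist`. With `ρ k = r exp (-4 ε D k)` the true charts are
`B k = ⟨F^k x, ρ k exp (-(h k + χu k)) • v k, ρ k exp (-(h' k + χs k)) • w k⟩` for `k ∉ T` and
`B τ = ⟨F^τ x, r c • v τ, r c' • w τ⟩` for `τ ∈ T` (same moduli, only the phases differ), so that
`DF U_k = α_k U_{k+1}` with `log ‖α_k‖ ∈ χu ± 6 ε`, `‖U_k‖ ≤ N ρ k`,
`‖det (B k)‖ ≥ ρ k ^ 2 exp (-4 ε |k - τ|) / N` for every `τ ∈ T` (`Aut.zjac`). Put `A k = B k` off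
`T` and `A τ = A₀` on `T`. Apply `step_of_close` with its `r` equal to `N exp (4 ε) ρ k`,
`D = ρ k ^ 2 exp (-4 ε D k - 12 ε) / N`, and `η = 0` unless `k` or `k + 1` is in `T`, where
`η = C' ε'` and `D k ≤ 1`. Choose `r` small, then `ε'` small. `exp (12 ε) ≤ ome Λ`. -/
theorem exists_rchain {F : Pm} {a : ℂ} (hA : Aut F a) (R : ℝ) {χu χs ε : ℝ} (hε : 0 < ε)
    (h1 : 1000 * ε ≤ χu) (h2 : 1000 * ε ≤ -χs) (h3 : 1000 * ε ≤ 1)
    (hχ : χu + χs = Real.log ‖a‖) (N : ℝ) : ∃ Λ b δ c₀ r ε' M : ℝ, 0 < ε' ∧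
    ∀ x₀ u₀ s₀ : E, ‖x₀‖ ≤ R → ‖u₀‖ = 1 → ‖s₀‖ = 1 → 1 / N ≤ ‖det2 u₀ s₀‖ →
    ∀ (x u s : E) (T : Set ℤ), (∀ k : ℤ, ‖(F ^ k) x‖ ≤ R) → T.Nonempty →
      (∀ k ∈ T, ∀ k' ∈ T, k ≠ k' → M ≤ |(k : ℝ) - k'|) →
      (∀ k ∈ T, ∃ c c' : ℂ, Good F χu χs ε N ((F ^ k) x) (c • fderiv ℂ (⇑(F ^ k)) x u)
          (c' • fderiv ℂ (⇑(F ^ k)) x s) ∧ ‖(F ^ k) x - x₀‖ ≤ ε' ∧
        ‖c • fderiv ℂ (⇑(F ^ k)) x u - u₀‖ ≤ ε' ∧ ‖c' • fderiv ℂ (⇑(F ^ k)) x s - s₀‖ ≤ ε') →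
      ∃ A, RChain F Λ b δ c₀ ⟨x₀, (r : ℂ) • u₀, (r : ℂ) • s₀⟩ x A T := by
  classical
  by_cases hN : 1 ≤ N
  swap
  · refine ⟨1, 1, 1, 1, 1, 1, 1, one_pos, fun x₀ u₀ s₀ _ _ _ _ x u s T _ hT _ hg => ?_⟩
    obtain ⟨k, hk⟩ := hT
    obtain ⟨c, c', h, -⟩ := hg k hk
    exact absurd h.one_le hN
  have hN0 : 0 < N := one_pos.trans_le hN
  obtain ⟨C, hC, hstep⟩ := step_of_close hA R
  obtain ⟨C₁, hC₁, hlip⟩ := exists_lip hA.dF R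
  obtain ⟨Λ, hΛ⟩ : ∃ Λ, Λ = Real.exp (100 * ε) := ⟨_, rfl⟩
  obtain ⟨b, hb⟩ : ∃ b, b = Real.exp (χs - χu) := ⟨_, rfl⟩
  have hΛ1 : 100 * ε + 1 ≤ Λ := hΛ ▸ Real.add_one_le_exp _
  have hb0 : 0 < b := hb ▸ Real.exp_pos _
  have hb1 : b ≤ 1 := hb ▸ Real.exp_le_one_iff.2 (by linarith)
  obtain ⟨δ, hsm⟩ : ∃ δ, Small Λ b δ := ⟨(Λ - 1) * b / 1000, by linarith,
    hΛ ▸ (CHyp_exp_le (by linarith) (by linarith)).trans (by linarith), hb0, hb1,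
    div_pos (mul_pos (by linarith) hb0) (by norm_num), le_rfl⟩
  have hδ : 0 < δ := hsm.2.2.2.2.1
  have hb2 : 1 ≤ 1 / b := one_le_one_div hb0 hb1
  have hΛ2 : 1 / Λ ≤ 1 / b := one_div_le_one_div_of_le hb0 (by linarith)
  have e1 : Λ ≤ Real.exp (χu - 6 * ε) := hΛ ▸ Real.exp_le_exp.2 (by linarith)
  have e2 : Real.exp (χu + 6 * ε) ≤ 1 / b := by
    rw [hb, one_div, ← Real.exp_neg, Real.exp_le_exp]
    linarith
  have e3 : b ≤ Real.exp (χs - 6 * ε) := hb ▸ Real.exp_le_exp.2 (by linarith)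
  have e4 : Real.exp (χs + 6 * ε) ≤ 1 / Λ := by
    rw [hΛ, one_div, ← Real.exp_neg, Real.exp_le_exp]
    linarith
  have e5 : Real.exp (12 * ε) ≤ ome Λ :=
    (CHyp_exp_le (by linarith) (by linarith)).trans (by rw [ome]; linarith)
  obtain ⟨r, hr0, hr1, hr2, -⟩ := CHyp_small (a₁ := 2 * N) (b₁ := 1) (a₂ := 128 * C * N ^ 4)
    (b₂ := δ * b) (by positivity) one_pos (by positivity) (by positivity) one_pos one_pos
  obtain ⟨ε', hε0, hε1, hε2, hε3⟩ := CHyp_small (a₁ := 2 * (2 * C₁ + 1 / b)) (b₁ := 1)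
    (a₂ := 256 * N * C * (2 * C₁ + 1 / b)) (b₂ := δ * b * r ^ 2) (a₃ := 200 * N) (b₃ := r ^ 2)
    (by positivity) one_pos (by positivity) (by positivity) (by positivity) (by positivity)
  refine ⟨Λ, b, δ, r ^ 2 / N, r, ε', Real.log N / ε, hε0,
    fun x₀ u₀ s₀ hx₀ hu₀ hs₀ hd₀ x u s T hR hT hsp hg => ?_⟩
  choose! c c' hg hc1 hc2 hc3 using hg
  obtain ⟨U, S, α, β, g, g1, g2, g3, f1, f2, f3, f4, f5, f6⟩ :=
    CHyp_frames hA hε h3 hχ hN (mul_div_cancel₀ _ hε.ne').ge hT hsp hg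
  have hr4 : r ≤ N * r := le_mul_of_one_le_left hr0.le hN
  have hr3 : r ≤ 1 := by linarith
  have hnr : ∀ y : E, ‖(r : ℂ) • y‖ = r * ‖y‖ := fun y => by
    rw [norm_smul, Complex.norm_real, Real.norm_of_nonneg hr0.le]
  have hdr : ∀ y z : E, ‖det2 ((r : ℂ) • y) ((r : ℂ) • z)‖ = r ^ 2 * ‖det2 y z‖ := fun y z => by
    rw [det2_smul, norm_mul, norm_mul, Complex.norm_real, Real.norm_of_nonneg hr0.le, sq]
  have hsr : ∀ y z : E, ‖z - y‖ ≤ ε' → ‖(r : ℂ) • y - (r : ℂ) • z‖ ≤ ε' := fun y z h => by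
    rw [← smul_sub, hnr, norm_sub_rev]
    exact (mul_le_of_le_one_left (norm_nonneg _) hr3).trans h
  obtain ⟨A, e, hvis, he, hA⟩ : ∃ (A : ℤ → Ch) (e : ℤ → ℝ),
      (∀ k ∈ T, A k = ⟨x₀, (r : ℂ) • u₀, (r : ℂ) • s₀⟩) ∧
      (∀ k, e k = 0 ∨ (e k = ε' ∧ g k = 1)) ∧ ∀ k, ‖(A k).c‖ ≤ R ∧ ‖(A k).c - (F ^ k) x‖ ≤ e k ∧
        ‖(A k).U - (r : ℂ) • U k‖ ≤ e k ∧ ‖(A k).S - (r : ℂ) • S k‖ ≤ e k ∧
        ‖(A k).U‖ ≤ N * r * g k ∧ ‖(A k).S‖ ≤ N * r * g k ∧ r ^ 2 * g k ^ 3 / N ≤ ‖(A k).det‖ ∧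
        ∀ τ ∈ T, r ^ 2 / N ≤ ‖(A k).det‖ * Real.exp (12 * ε) ^ (k - τ).natAbs := by
    refine ⟨fun k => if k ∈ T then ⟨x₀, (r : ℂ) • u₀, (r : ℂ) • s₀⟩ else
      ⟨(F ^ k) x, (r : ℂ) • U k, (r : ℂ) • S k⟩, fun k => if k ∈ T then ε' else 0,
      fun k hk => if_pos hk, fun k => ?_, fun k => ?_⟩
    · by_cases hk : k ∈ T
      · exact Or.inr ⟨if_pos hk, g2 k hk⟩
      · exact Or.inl (if_neg hk)
    · by_cases hk : k ∈ T
      · simp only [if_pos hk, Ch.det, hnr, hdr, hu₀, hs₀, g2 k hk, (f6 k hk).1, (f6 k hk).2]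
        have a1 : r ^ 2 / N ≤ r ^ 2 * ‖det2 u₀ s₀‖ := by
          rw [div_eq_mul_one_div]
          exact mul_le_mul_of_nonneg_left hd₀ (by positivity)
        refine ⟨hx₀, by rw [norm_sub_rev]; exact hc1 k hk, hsr _ _ (hc2 k hk), hsr _ _ (hc3 k hk),
          by linarith, by linarith, by simpa using a1, fun τ _ => a1.trans ?_⟩
        exact le_mul_of_one_le_right (by positivity)
          (one_le_pow₀ (Real.one_le_exp (by positivity)))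
      · simp only [if_neg hk, Ch.det, hnr, hdr, sub_self, norm_zero, le_refl, true_and]
        refine ⟨hR k, ?_, ?_, ?_, fun τ hτ => ?_⟩
        · linarith [mul_le_mul_of_nonneg_left (f3 k).1 hr0.le]
        · linarith [mul_le_mul_of_nonneg_left (f3 k).2 hr0.le]
        · rw [mul_div_assoc]
          exact mul_le_mul_of_nonneg_left (f4 k) (by positivity)
        · rw [div_eq_mul_one_div, mul_assoc]
          exact mul_le_mul_of_nonneg_left (f5 k τ hτ) (by positivity)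
  have hdet : ∀ k, 0 < ‖(A k).det‖ := fun k =>
    lt_of_lt_of_le (by have := (g1 k).1; positivity) (hA k).2.2.2.2.2.2.1
  have hNr : 0 < N * r := by positivity
  have hup : ∀ k, N * r * g k ≤ 1 / 2 := fun k => by
    linarith [mul_le_mul_of_nonneg_left (g1 k).2 hNr.le]
  have he0 : ∀ k, 0 ≤ e k ∧ e k ≤ ε' := fun k => by
    rcases he k with h | ⟨h, -⟩ <;> rw [h] <;> exact ⟨by linarith, by linarith⟩
  have hU : ∀ k, ‖(A k).U‖ ≤ 1 ∧ ‖(A k).S‖ ≤ 1 := fun k =>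
    ⟨by linarith [(hA k).2.2.2.2.1, hup k], by linarith [(hA k).2.2.2.2.2.1, hup k]⟩
  refine ⟨A, hsm, by positivity, fun k => norm_pos_iff.1 (hdet k), fun k => ?_, hvis,
    fun k => ?_, hU, fun k τ hτ => ((hA k).2.2.2.2.2.2.2 τ hτ).trans ?_⟩
  · obtain ⟨a1, a2, a3, a4, a5, a6, a7, -⟩ := hA k
    obtain ⟨b1, b2, b3, b4, b5, b6, b7, -⟩ := hA (k + 1)
    obtain ⟨-, -, l1, l2, -⟩ := hlip _ _ a1 (hR k)
    obtain ⟨-, l3, -⟩ := hlip _ _ (hR k) (hR k)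
    replace l1 := l1.trans (mul_le_mul_of_nonneg_left a2 (by linarith))
    replace l2 := l2.trans (mul_le_mul_of_nonneg_left a2 (by linarith))
    obtain ⟨⟨c1, c2⟩, c3, c4⟩ := f2 k
    obtain ⟨d1, d2⟩ := g3 k
    obtain ⟨d3, d4⟩ := he0 k
    obtain ⟨d5, d6⟩ := he0 (k + 1)
    have d7 := (g1 k).1
    have d8 := (g1 (k + 1)).1
    have d9 := hup k
    have d10 : 0 < N * r * g k := by positivity
    have d11 : N * r * g (k + 1) ≤ 2 * N * r * g k := by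
      linarith [mul_le_mul_of_nonneg_left d1 hNr.le]
    have d12 : (2 * C₁ + 1 / b) * (e k + e (k + 1)) ≤ 2 * (2 * C₁ + 1 / b) * ε' := by
      linarith [mul_le_mul_of_nonneg_left (add_le_add d4 d6) (by positivity : 0 ≤ 2 * C₁ + 1 / b)]
    refine hstep Λ b δ (2 * N * r * g k) (r ^ 2 * g k ^ 3 / (8 * N))
      ((2 * C₁ + 1 / b) * (e k + e (k + 1))) _ _ (α k) (β k) hsm (by positivity) (by linarith)
      (d12.trans hε1) a1 b1 (by linarith) (by linarith) (b5.trans d11) (b6.trans d11)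
      (le_trans ?_ a7) (le_trans ?_ b7) (e1.trans c1) (c2.trans e2) (e3.trans c3) (c4.trans e4) ?_
      (CHyp_err (by linarith) l3 l2 (hU k).1 a3 b3 (c2.trans e2) ?_)
      (CHyp_err (by linarith) l3 l2 (hU k).2 a4 b4 (c4.trans (e4.trans hΛ2)) ?_)
      (CHyp_arith hC hN hr0 d7 (by positivity) (by linarith) hr2 hε2 ?_)
    · exact div_le_div_of_nonneg_left (by positivity) hN0 (by linarith)
    · have := pow_le_pow_left₀ d7.le d2 3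
      rw [div_le_div_iff₀ (by positivity) hN0]
      linarith [mul_le_mul_of_nonneg_left this (by positivity : 0 ≤ r ^ 2 * N)]
    · have d13 : (F ^ (k + 1)) x = F ((F ^ k) x) := by
        rw [add_comm, zpow_one_add, Equiv.Perm.mul_apply]
      rw [d13, norm_sub_rev] at b2
      have := norm_sub_le_norm_sub_add_norm_sub (F (A k).c) (F ((F ^ k) x)) (A (k + 1)).c
      linarith [mul_nonneg (by linarith : 0 ≤ C₁) d3, mul_nonneg (by linarith : 0 ≤ C₁) d5,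
        mul_nonneg (by linarith : 0 ≤ 1 / b) d3, mul_le_mul_of_nonneg_right hb2 d5]
    · rw [map_smul, (f1 k).1, smul_comm]
    · rw [map_smul, (f1 k).2, smul_comm]
    · rcases he k with h | ⟨-, h⟩
      · rcases he (k + 1) with h' | ⟨-, h'⟩
        · exact Or.inl (by rw [h, h', add_zero, mul_zero])
        · exact Or.inr ⟨by positivity, d12, by linarith⟩
      · exact Or.inr ⟨by positivity, d12, by linarith⟩
  · have hd := norm_pos_iff.1 (hdet k)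
    have a1 := Ch.norm_inv_sub hd (hU k).1 (hU k).2 ((F ^ k) x) (A k).c
    have a2 : (A k).pm⁻¹ (A k).c = 0 := by
      rw [Ch.inv_apply hd]
      simp [det2]
    have a3 := (hA k).2.1
    rw [a2, sub_zero, norm_sub_rev] at a1
    refine le_of_mul_le_mul_left (a1.trans ?_) (hdet k)
    rcases he k with h | ⟨h, h'⟩
    · linarith [hdet k]
    · have a4 := (hA k).2.2.2.2.2.2.1
      rw [h', one_pow, mul_one, div_le_iff₀ hN0] at a4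
      have a5 : 200 * ε' ≤ ‖(A k).det‖ := le_of_mul_le_mul_right (by linarith) hN0
      linarith
  · exact mul_le_mul_of_nonneg_left (pow_le_pow_left₀ (Real.exp_pos _).le e5 _) (norm_nonneg _)

end Pool.Agent.Lib.MP_7b5e47_an.Hn
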