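import Pool.Agent.Lib.MP_7b5e47_an.Hn.CStep

namespace Pool.Agent.Lib.MP_7b5e47_an.Hn

open Filter Topology Set Metric MeasureTheory

/-- shrinking charts along the forward orbit of a point with a neutral direction -/
noncomputable def nch (F : Pm) (ε χs r : ℝ) (x u s : E) : ℤ → Ch := fun k =>
  ⟨(F ^ k) x, ((r * Real.exp (-(6 * ε * k)) : ℝ) : ℂ) • fderiv ℂ (⇑(F ^ k)) x u,
    ((r * Real.exp (-((χs + 6 * ε) * k)) : ℝ) : ℂ) • fderiv ℂ (⇑(F ^ k)) x s⟩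

theorem CNeut_loc {F : Pm} (hF : Differentiable ℂ (⇑F)) {A A' : Ch} (h : A.det ≠ 0)
    (h' : A'.det ≠ 0) {α β : ℂ} (hc : F A.c = A'.c) (hU : fderiv ℂ (⇑F) A.c A.U = α • A'.U)
    (hS : fderiv ℂ (⇑F) A.c A.S = β • A'.S) :
    loc F A A' 0 = 0 ∧ ∀ v : E, fderiv ℂ (⇑(loc F A A')) 0 v = (α * v.1, β * v.2) := by
  have h0 : A.pm 0 = A.c := by simp [Ch.pm_apply h]
  refine ⟨?_, fun v => ?_⟩
  · rw [loc, Equiv.Perm.mul_apply, Equiv.Perm.mul_apply, h0, hc, Ch.inv_apply h']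
    simp [det2]
  · have hd : Differentiable ℂ (⇑(A'.pm⁻¹ * F)) := A'.diff_inv.comp hF
    rw [loc, BAut_comp hd A.diff, BAut_comp A'.diff_inv hF, Ch.fderiv_pm h, h0, map_add, map_smul,
      map_smul, hU, hS, Ch.fderiv_inv h']
    have e : A'.det = A'.U.1 * A'.S.2 - A'.U.2 * A'.S.1 := rfl
    refine Prod.ext ?_ ?_ <;> simp only [det2] <;> rw [div_eq_iff h', e] <;> simp <;> ring

theorem CNeut_vec {F : Pm} {a : ℂ} (hA : Aut F a) (r t : ℝ) (x v : E) (k : ℤ) :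
    fderiv ℂ (⇑F) ((F ^ k) x) (((r * Real.exp (-(t * k)) : ℝ) : ℂ) • fderiv ℂ (⇑(F ^ k)) x v) =
      (Real.exp t : ℂ) • ((r * Real.exp (-(t * ((k + 1 : ℤ) : ℝ))) : ℝ) : ℂ) •
        fderiv ℂ (⇑(F ^ (k + 1))) x v := by
  have h1 := hA.fderiv_zadd 1 k x v
  rw [zpow_one, add_comm] at h1
  rw [map_smul, h1, smul_smul, ← Complex.ofReal_mul]
  congr 2
  rw [mul_left_comm, ← Real.exp_add]
  congr 2
  push_cast
  ring

theorem CNeut_norm {r t χ ε N : ℝ} (hr : 0 ≤ r) {w : E} {k : ℕ} (ht : t = χ + 6 * ε)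
    (h : ‖w‖ ≤ N * Real.exp (χ * ((k : ℤ) : ℝ) + ε * |((k : ℤ) : ℝ)|)) :
    ‖((r * Real.exp (-(t * ((k : ℤ) : ℝ))) : ℝ) : ℂ) • w‖ ≤ r * N * Real.exp (-(5 * ε * k)) := by
  rw [norm_smul, Complex.norm_real, Real.norm_of_nonneg (by positivity)]
  refine (mul_le_mul_of_nonneg_left h (by positivity)).trans_eq ?_
  rw [mul_mul_mul_comm, ← Real.exp_add, Int.cast_natCast, Nat.abs_cast, ht]
  congr 2
  ring

theorem CNeut_det {F : Pm} {a : ℂ} (hA : Aut F a) {χs : ℝ} (hχ : χs = Real.log ‖a‖) (ε r : ℝ)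
    (x u s : E) (k : ℤ) : ‖(nch F ε χs r x u s k).det‖ =
      r ^ 2 * Real.exp (-(12 * ε * k)) * ‖det2 u s‖ := by
  have ha : ‖a‖ = Real.exp χs := by rw [hχ, Real.exp_log (norm_pos_iff.2 hA.ne)]
  have e : ‖a‖ ^ k = Real.exp (χs * k) := by
    rw [ha, Real.exp_mul, Real.rpow_intCast]
  simp only [nch, Ch.det]
  rw [det2_smul, hA.zjac, norm_mul, norm_mul, norm_mul, norm_zpow, e, Complex.norm_real,
    Complex.norm_real, ← norm_mul, mul_mul_mul_comm, ← Real.exp_add, ← sq,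
    Real.norm_of_nonneg (by positivity), ← mul_assoc, mul_assoc (r ^ 2), ← Real.exp_add]
  congr 3
  ring

/-- `step_of_close` with `η = 0`, `α = exp (6 ε)`, `β = exp (χs + 6 ε)`, `b = exp χs`,
`δ = min δ₁ ((Λ - 1) b / 1000)`, radius `r N exp (-5 ε k)` and
`D = r^2 exp (-12 ε (k + 1)) / N` (`Aut.zjac`, `‖a‖ = exp χs`); `r` small. -/
theorem exists_nchain {F : Pm} {a : ℂ} (hA : Aut F a) (R : ℝ) {χs ε : ℝ} (hε : 0 < ε)
    (h2 : 1000 * ε ≤ -χs) (h3 : 1000 * ε ≤ 1) (hχ : χs = Real.log ‖a‖) (N : ℝ) {δ₁ : ℝ}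
    (hδ : 0 < δ₁) : ∃ b δ r : ℝ, δ ≤ δ₁ ∧ 0 < r ∧ ∀ x u s : E, (∀ k : ℕ, ‖(F ^ k) x‖ ≤ R) →
      Good F 0 χs ε N x u s → Chain (Real.exp (6 * ε)) b δ (fwc F (nch F ε χs r x u s) 0) ∧
      ∀ k : ℕ, (nch F ε χs r x u s k).det ≠ 0 ∧
        ‖(nch F ε χs r x u s k).U‖ ≤ Real.exp (-(5 * ε * k)) ∧
        ‖(nch F ε χs r x u s k).S‖ ≤ Real.exp (-(5 * ε * k)) ∧
        fwc F (nch F ε χs r x u s) 0 k 0 = 0 ∧
        ∀ v : E, fderiv ℂ (⇑(fwc F (nch F ε χs r x u s) 0 k)) 0 v =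
          ((Real.exp (6 * ε) : ℂ) * v.1, (Real.exp (χs + 6 * ε) : ℂ) * v.2) := by
  by_cases hN : 1 ≤ N
  swap
  · exact ⟨0, δ₁, 1, le_rfl, one_pos, fun x u s _ h => absurd h.one_le hN⟩
  obtain ⟨C, hC1, hC⟩ := step_of_close hA R
  have hN0 : 0 < N := by linarith
  have hΛ1 : 1 < Real.exp (6 * ε) := Real.one_lt_exp_iff.2 (by linarith)
  have hΛ2 : Real.exp (6 * ε) ≤ 2 := by
    refine (Real.exp_bound_div_one_sub_of_interval (by linarith) (by linarith)).trans ?_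
    rw [div_le_iff₀ (by linarith)]
    linarith
  have hb0 : 0 < Real.exp χs := Real.exp_pos _
  have hb1 : Real.exp χs ≤ 1 := Real.exp_le_one_iff.2 (by linarith)
  obtain ⟨δ, hδe⟩ : ∃ δ, δ = min δ₁ ((Real.exp (6 * ε) - 1) * Real.exp χs / 1000) := ⟨_, rfl⟩
  have hδ0 : 0 < δ := by
    rw [hδe]
    exact lt_min hδ (div_pos (mul_pos (by linarith) hb0) (by norm_num))
  have hδ2 : δ ≤ (Real.exp (6 * ε) - 1) * Real.exp χs / 1000 := hδe ▸ min_le_right _ _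
  have hsm : Small (Real.exp (6 * ε)) (Real.exp χs) δ := ⟨hΛ1, hΛ2, hb0, hb1, hδ0, hδ2⟩
  have hδ1 : δ ≤ 1 := by nlinarith
  have he1 : Real.exp (-(12 * ε)) ≤ 1 := Real.exp_le_one_iff.2 (by linarith)
  obtain ⟨r, hr⟩ : ∃ r, r = δ * Real.exp χs * Real.exp (-(12 * ε)) / (C * N ^ 4) := ⟨_, rfl⟩
  have hr0 : 0 < r := by rw [hr]; positivity
  have hr1 : C * N ^ 4 * r = δ * Real.exp χs * Real.exp (-(12 * ε)) := by
    rw [hr]
    field_simp
  have hrN : r * N ≤ 1 := by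
    have e1 : δ * Real.exp χs * Real.exp (-(12 * ε)) ≤ 1 :=
      mul_le_one₀ (mul_le_one₀ hδ1 hb0.le hb1) (Real.exp_pos _).le he1
    have e2 : N ≤ C * N ^ 4 :=
      (le_self_pow₀ hN (by norm_num)).trans (le_mul_of_one_le_left (by positivity) hC1)
    nlinarith
  refine ⟨Real.exp χs, δ, r, hδe ▸ min_le_left _ _, hr0, fun x u s hR hg => ?_⟩
  have hU : ∀ k : ℕ, ‖(nch F ε χs r x u s k).U‖ ≤ r * N * Real.exp (-(5 * ε * k)) := fun k =>
    CNeut_norm hr0.le (zero_add _).symm (hg.bu k)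
  have hS : ∀ k : ℕ, ‖(nch F ε χs r x u s k).S‖ ≤ r * N * Real.exp (-(5 * ε * k)) := fun k =>
    CNeut_norm hr0.le rfl (hg.bs k)
  have hD : ∀ k : ℕ, r ^ 2 * Real.exp (-(12 * ε * k)) / N ≤ ‖(nch F ε χs r x u s k).det‖ :=
    fun k => by
      rw [CNeut_det hA hχ, Int.cast_natCast, div_eq_mul_one_div]
      exact mul_le_mul_of_nonneg_left hg.det (by positivity)
  have hne : ∀ k : ℕ, (nch F ε χs r x u s k).det ≠ 0 := fun k =>
    norm_pos_iff.1 (lt_of_lt_of_le (by positivity) (hD k))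
  have hfw : ∀ k : ℕ, fwc F (nch F ε χs r x u s) 0 k =
      loc F (nch F ε χs r x u s k) (nch F ε χs r x u s ((k + 1 : ℕ) : ℤ)) := fun k => by
    simp only [fwc, zero_add, Nat.cast_succ]
  have hc : ∀ k : ℕ, F (nch F ε χs r x u s k).c = (nch F ε χs r x u s ((k + 1 : ℕ) : ℤ)).c :=
    fun k => by
      simp only [nch, zpow_natCast, pow_succ', Equiv.Perm.mul_apply]
  have hU' : ∀ k : ℕ, fderiv ℂ (⇑F) (nch F ε χs r x u s k).c (nch F ε χs r x u s k).U =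
      (Real.exp (6 * ε) : ℂ) • (nch F ε χs r x u s ((k + 1 : ℕ) : ℤ)).U := fun k => by
    rw [Nat.cast_succ]
    exact CNeut_vec hA r (6 * ε) x u k
  have hS' : ∀ k : ℕ, fderiv ℂ (⇑F) (nch F ε χs r x u s k).c (nch F ε χs r x u s k).S =
      (Real.exp (χs + 6 * ε) : ℂ) • (nch F ε χs r x u s ((k + 1 : ℕ) : ℤ)).S := fun k => by
    rw [Nat.cast_succ]
    exact CNeut_vec hA r (χs + 6 * ε) x s k
  have hle : ∀ k : ℕ, r * N * Real.exp (-(5 * ε * k)) ≤ Real.exp (-(5 * ε * k)) := fun k =>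
    mul_le_of_le_one_left (Real.exp_pos _).le hrN
  have hmon : ∀ k : ℕ, r * N * Real.exp (-(5 * ε * ((k + 1 : ℕ) : ℝ))) ≤
      r * N * Real.exp (-(5 * ε * k)) := fun k => by
    refine mul_le_mul_of_nonneg_left (Real.exp_le_exp.2 ?_) (by positivity)
    push_cast
    linarith
  refine ⟨⟨hsm, fun k => ?_⟩, fun k => ⟨hne k, (hU k).trans (hle k), (hS k).trans (hle k), ?_⟩⟩
  · rw [hfw]
    have hk : (0 : ℝ) ≤ ε * k := by positivity
    have hR' : ∀ j : ℕ, ‖(nch F ε χs r x u s j).c‖ ≤ R := fun j => by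
      simpa only [nch, zpow_natCast] using hR j
    refine hC _ _ _ (r * N * Real.exp (-(5 * ε * k)))
      (r ^ 2 * Real.exp (-(12 * ε * ((k + 1 : ℕ) : ℝ))) / N) 0 _ _ (Real.exp (6 * ε) : ℂ)
      (Real.exp (χs + 6 * ε) : ℂ) hsm (by positivity)
      ((hle k).trans (Real.exp_le_one_iff.2 (by linarith))) zero_le_one (hR' k) (hR' (k + 1))
      (hU k) (hS k) ((hU (k + 1)).trans (hmon k)) ((hS (k + 1)).trans (hmon k))
      (le_trans ?_ (hD k)) (hD (k + 1)) ?_ ?_ ?_ ?_ (by rw [hc, sub_self, norm_zero])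
      (by rw [hU', sub_self, norm_zero]) (by rw [hS', sub_self, norm_zero]) ?_
    · refine div_le_div_of_nonneg_right
        (mul_le_mul_of_nonneg_left (Real.exp_le_exp.2 ?_) (by positivity)) hN0.le
      push_cast
      linarith
    · rw [Complex.norm_real, Real.norm_of_nonneg (Real.exp_pos _).le]
    · rw [Complex.norm_real, Real.norm_of_nonneg (Real.exp_pos _).le, one_div, ← Real.exp_neg]
      exact Real.exp_le_exp.2 (by linarith)
    · rw [Complex.norm_real, Real.norm_of_nonneg (Real.exp_pos _).le]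
      exact Real.exp_le_exp.2 (by linarith)
    · rw [Complex.norm_real, Real.norm_of_nonneg (Real.exp_pos _).le, one_div, ← Real.exp_neg]
      exact Real.exp_le_exp.2 (by linarith)
    · have e1 : Real.exp (-(12 * ε * ((k + 1 : ℕ) : ℝ))) =
          Real.exp (-(12 * ε)) * Real.exp (-(12 * ε * k)) := by
        rw [← Real.exp_add]
        congr 1
        push_cast
        ring
      have e2 : Real.exp (-(5 * ε * k)) ^ 3 ≤ Real.exp (-(12 * ε * k)) := by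
        rw [← Real.exp_nat_mul]
        refine Real.exp_le_exp.2 ?_
        push_cast
        linarith
      rw [e1, ← mul_div_assoc, le_div_iff₀ hN0]
      calc _ = C * N ^ 4 * r * r ^ 2 * Real.exp (-(5 * ε * k)) ^ 3 := by ring
        _ ≤ C * N ^ 4 * r * r ^ 2 * Real.exp (-(12 * ε * k)) :=
          mul_le_mul_of_nonneg_left e2 (by positivity)
        _ = _ := by rw [hr1]; ring
  · rw [hfw]
    exact CNeut_loc hA.dF (hne k) (hne (k + 1)) (hc k) (hU' k) (hS' k)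

end Pool.Agent.Lib.MP_7b5e47_an.Hn
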