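import Pool.Agent.Lib.MP_7b5e47_an.Hn.BAut

namespace Pool.Agent.Lib.MP_7b5e47_an.Hn

open Filter Topology Set Metric MeasureTheory

/-! Construction of single steps and of weights. -/

theorem CStep_half {F : Pm} (hF : Differentiable ℂ (⇑F)) {R K δ r D e : ℝ} {A A' : Ch} {α β : ℂ}
    (hL : ∀ z w : E, ‖z‖ ≤ R + 2 → ‖w‖ ≤ R + 2 →
      ‖fderiv ℂ (⇑F) z - fderiv ℂ (⇑F) w‖ ≤ K * ‖z - w‖) (hK : 0 ≤ K) (hD : 0 < D) (hr : r ≤ 1)
    (hc : ‖A.c‖ ≤ R) (hU : ‖A.U‖ ≤ r) (hS : ‖A.S‖ ≤ r) (hU' : ‖A'.U‖ ≤ r) (hS' : ‖A'.S‖ ≤ r)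
    (hdet : A.det ≠ 0) (hd' : D ≤ ‖A'.det‖) (e0 : ‖F A.c - A'.c‖ ≤ e)
    (e1 : ‖fderiv ℂ (⇑F) A.c A.U - α • A'.U‖ ≤ e) (e2 : ‖fderiv ℂ (⇑F) A.c A.S - β • A'.S‖ ≤ e)
    (hbd : 2 * r * (4 * K * r ^ 2 + 2 * e) ≤ δ * D) :
    Differentiable ℂ (⇑(loc F A A')) ∧ ‖loc F A A' 0‖ ≤ δ ∧ ∀ z : E, ‖z‖ ≤ 1 → ∀ v : E,
      ‖fderiv ℂ (⇑(loc F A A')) z v - (α * v.1, β * v.2)‖ ≤ δ * ‖v‖ := by
  have hdet' : A'.det ≠ 0 := norm_pos_iff.1 (hD.trans_le hd')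
  have hr0 : 0 ≤ r := (norm_nonneg _).trans hU
  have he0 : 0 ≤ e := (norm_nonneg _).trans e0
  have h0 : A.pm 0 = A.c := by rw [Ch.pm_apply hdet]; simp
  have hd1 : Differentiable ℂ (⇑(A'.pm⁻¹ * F)) := A'.diff_inv.comp hF
  refine ⟨hd1.comp A.diff, ?_, fun z hz v => ?_⟩
  · have h1 := Ch.norm_inv_sub hdet' hU' hS' (F A.c) A'.c
    have h2 : A'.pm⁻¹ A'.c = 0 := by
      rw [Ch.inv_apply hdet']
      simp [det2]
    have h3 : loc F A A' 0 = A'.pm⁻¹ (F A.c) := by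
      simp only [loc, Equiv.Perm.mul_apply, h0]
    rw [h2, sub_zero, ← h3] at h1
    have h4 := mul_le_mul_of_nonneg_right hd' (norm_nonneg (loc F A A' 0))
    have h5 : 2 * r * ‖F A.c - A'.c‖ ≤ 2 * r * (4 * K * r ^ 2 + 2 * e) :=
      mul_le_mul_of_nonneg_left (by nlinarith [mul_nonneg hK (sq_nonneg r)]) (by positivity)
    refine le_of_mul_le_mul_left ?_ hD
    linarith
  · set w := fderiv ℂ (⇑F) (A.pm z) (v.1 • A.U + v.2 • A.S) with hw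
    have h1 : fderiv ℂ (⇑(loc F A A')) z v = (det2 w A'.S / A'.det, det2 A'.U w / A'.det) := by
      rw [loc, BAut_comp hd1 A.diff, BAut_comp A'.diff_inv hF, Ch.fderiv_pm hdet,
        Ch.fderiv_inv hdet']
    set y : E := fderiv ℂ (⇑(loc F A A')) z v - (α * v.1, β * v.2) with hy
    have h2 : y.1 • A'.U + y.2 • A'.S = w - (α * v.1) • A'.U - (β * v.2) • A'.S := by
      have h3 : w = (det2 w A'.S / A'.det) • A'.U + (det2 A'.U w / A'.det) • A'.S := by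
        have h4 := det2_cramer A'.U A'.S w
        have h5 : w = A'.det⁻¹ • (A'.det • w) := by rw [smul_smul, inv_mul_cancel₀ hdet', one_smul]
        rw [div_eq_inv_mul, div_eq_inv_mul, mul_smul, mul_smul, ← smul_add, ← h4]
        exact h5
      rw [hy, h1]
      simp only [Prod.fst_sub, Prod.snd_sub, sub_smul]
      conv_rhs => rw [h3]
      abel
    have h3 : w - (α * v.1) • A'.U - (β * v.2) • A'.S =
        (fderiv ℂ (⇑F) (A.pm z) - fderiv ℂ (⇑F) A.c) (v.1 • A.U + v.2 • A.S) +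
          v.1 • (fderiv ℂ (⇑F) A.c A.U - α • A'.U) + v.2 • (fderiv ℂ (⇑F) A.c A.S - β • A'.S) := by
      rw [ContinuousLinearMap.sub_apply, ← hw, map_add, map_smul, map_smul, smul_sub, smul_sub,
        smul_smul, smul_smul, mul_comm v.1, mul_comm v.2]
      abel
    have h4 : ‖A.pm z - A.c‖ ≤ 2 * r := by
      have := Ch.norm_pm_sub hdet hU hS z 0
      rw [h0, sub_zero] at this
      nlinarith
    have h5 : ‖fderiv ℂ (⇑F) (A.pm z) - fderiv ℂ (⇑F) A.c‖ ≤ K * (2 * r) :=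
      (hL _ _ (by linarith [norm_le_norm_add_norm_sub' (A.pm z) A.c]) (by linarith)).trans
        (mul_le_mul_of_nonneg_left h4 hK)
    have h6 : ‖v.1 • A.U + v.2 • A.S‖ ≤ 2 * r * ‖v‖ := by
      have a1 := mul_le_mul (norm_fst_le v) hU (norm_nonneg _) (norm_nonneg _)
      have a2 := mul_le_mul (norm_snd_le v) hS (norm_nonneg _) (norm_nonneg _)
      have a3 := norm_add_le (v.1 • A.U) (v.2 • A.S)
      rw [norm_smul, norm_smul] at a3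
      linarith
    have h7 : ‖(fderiv ℂ (⇑F) (A.pm z) - fderiv ℂ (⇑F) A.c) (v.1 • A.U + v.2 • A.S)‖ ≤
        K * (2 * r) * (2 * r * ‖v‖) := (ContinuousLinearMap.le_opNorm _ _).trans
      (mul_le_mul h5 h6 (norm_nonneg _) (by positivity))
    have h8 : ‖v.1 • (fderiv ℂ (⇑F) A.c A.U - α • A'.U)‖ ≤ ‖v‖ * e := by
      rw [norm_smul]
      exact mul_le_mul (norm_fst_le v) e1 (norm_nonneg _) (norm_nonneg _)
    have h9 : ‖v.2 • (fderiv ℂ (⇑F) A.c A.S - β • A'.S)‖ ≤ ‖v‖ * e := by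
      rw [norm_smul]
      exact mul_le_mul (norm_snd_le v) e2 (norm_nonneg _) (norm_nonneg _)
    have h10 : ‖y.1 • A'.U + y.2 • A'.S‖ ≤ (4 * K * r ^ 2 + 2 * e) * ‖v‖ := by
      rw [h2, h3]
      refine norm_add₃_le.trans ?_
      nlinarith
    have h11 := A'.norm_vec_ge hU' hS' y
    have h12 := mul_le_mul_of_nonneg_right hd' (norm_nonneg y)
    have h13 := mul_le_mul_of_nonneg_left h10 (show 0 ≤ 2 * r by positivity)
    have h14 := mul_le_mul_of_nonneg_right hbd (norm_nonneg v)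
    refine le_of_mul_le_mul_left ?_ hD
    nlinarith

/-- One step between two charts. With `C₁` from `exists_lip` for `F` and `F⁻¹` on the ball of
radius `R + 2 + C`: the derivative of `loc F A A'` at `z` applied to `v`, minus `(α v.1, β v.2)`, is
the `A'`-coordinate vector of `DF(A z)(v.1 U + v.2 S) - α v.1 U' - β v.2 S'`, of norm at most
`(4 C₁ r^2 + 2 η) ‖v‖`; use `Ch.norm_vec_ge`. For the inverse map:
`DG(c') U' - α⁻¹ U = (DG(c') - DG(F c)) U' - α⁻¹ DG(F c) (DF(c) U - α U')` with `G = F⁻¹`, and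
`‖G c' - c‖ ≤ C₁ η`. -/
theorem step_of_close {F : Pm} {a : ℂ} (hA : Aut F a) (R : ℝ) : ∃ C : ℝ, 1 ≤ C ∧
    ∀ (Λ b δ r D η : ℝ) (A A' : Ch) (α β : ℂ), Small Λ b δ → 0 < D → r ≤ 1 → η ≤ 1 →
      ‖A.c‖ ≤ R → ‖A'.c‖ ≤ R → ‖A.U‖ ≤ r → ‖A.S‖ ≤ r → ‖A'.U‖ ≤ r → ‖A'.S‖ ≤ r →
      D ≤ ‖A.det‖ → D ≤ ‖A'.det‖ → Λ ≤ ‖α‖ → ‖α‖ ≤ 1 / b → b ≤ ‖β‖ → ‖β‖ ≤ 1 / Λ →
      ‖F A.c - A'.c‖ ≤ η → ‖fderiv ℂ (⇑F) A.c A.U - α • A'.U‖ ≤ η →
      ‖fderiv ℂ (⇑F) A.c A.S - β • A'.S‖ ≤ η → C * r * (r ^ 2 + η) ≤ δ * b * D →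
      Step Λ b δ (loc F A A') := by
  obtain ⟨C₁, hC₁, h₁⟩ := exists_lip hA.dF (R + 2)
  obtain ⟨C₂, hC₂, h₂⟩ := exists_lip hA.dG (R + 2)
  refine ⟨8 * max C₁ C₂, by linarith [le_max_left C₁ C₂], ?_⟩
  intro Λ b δ r D η A A' α β hS hD hr hη hc hc' hU hS1 hU' hS' hd hd' ha1 ha2 hb1 hb2 e0 e1 e2 hfin
  obtain ⟨hΛ, -, hb, hb', hδ, -⟩ := hS
  set K := max C₁ C₂ with hK
  have k1 : C₁ ≤ K := le_max_left _ _
  have k2 : C₂ ≤ K := le_max_right _ _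
  have hK1 : 1 ≤ K := hC₁.trans k1
  have hη0 : 0 ≤ η := (norm_nonneg _).trans e0
  have hr0 : 0 ≤ r := (norm_nonneg _).trans hU
  have hdet : A.det ≠ 0 := norm_pos_iff.1 (hD.trans_le hd)
  have hdet' : A'.det ≠ 0 := norm_pos_iff.1 (hD.trans_le hd')
  have hα : α ≠ 0 := norm_pos_iff.1 (by linarith)
  have hβ : β ≠ 0 := norm_pos_iff.1 (by linarith)
  set e : ℝ := 2 * K * η / b with he
  have hKη : 0 ≤ K * η := by positivity
  have he1 : K * η ≤ K * η / b := le_div_self hKη hb hb'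
  have he2 : e = 2 * (K * η / b) := by rw [he]; ring
  have he3 : η ≤ e := by nlinarith
  have hFc : ‖F A.c‖ ≤ R + 2 := by linarith [norm_le_norm_add_norm_sub' (F A.c) A'.c]
  obtain ⟨-, -, g1, g2, -⟩ := h₂ A'.c (F A.c) (by linarith) hFc
  obtain ⟨-, g3, -⟩ := h₂ (F A.c) (F A.c) hFc hFc
  rw [norm_sub_rev A'.c] at g1 g2
  have g1' : ‖F⁻¹ A'.c - A.c‖ ≤ e := by
    have : F⁻¹ (F A.c) = A.c := by simp
    rw [this] at g1
    have := mul_le_mul k2 e0 (norm_nonneg _) (by linarith)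
    linarith
  have key : ∀ (u u' : E) (γ : ℂ), γ ≠ 0 → ‖γ⁻¹‖ ≤ 1 / b → ‖u'‖ ≤ r →
      ‖fderiv ℂ (⇑F) A.c u - γ • u'‖ ≤ η → ‖fderiv ℂ (⇑F⁻¹) A'.c u' - γ⁻¹ • u‖ ≤ e := by
    intro u u' γ hγ hγ' hu' h
    have h3 : fderiv ℂ (⇑F⁻¹) (F A.c) (fderiv ℂ (⇑F) A.c u) = u := by
      rw [← BAut_comp hA.dG hA.dF, inv_mul_cancel]
      simp
    have h4 : fderiv ℂ (⇑F⁻¹) A'.c u' - γ⁻¹ • u =
        (fderiv ℂ (⇑F⁻¹) A'.c - fderiv ℂ (⇑F⁻¹) (F A.c)) u' -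
          γ⁻¹ • fderiv ℂ (⇑F⁻¹) (F A.c) (fderiv ℂ (⇑F) A.c u - γ • u') := by
      rw [map_sub, map_smul, h3, smul_sub, smul_smul, inv_mul_cancel₀ hγ, one_smul,
        ContinuousLinearMap.sub_apply]
      abel
    have h5 : ‖(fderiv ℂ (⇑F⁻¹) A'.c - fderiv ℂ (⇑F⁻¹) (F A.c)) u'‖ ≤ K * η := by
      refine (ContinuousLinearMap.le_opNorm _ _).trans ?_
      have := mul_le_mul k2 e0 (norm_nonneg _) (by linarith)
      calc _ ≤ (K * η) * 1 := mul_le_mul (g2.trans this) (hu'.trans hr) (norm_nonneg _) hKη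
        _ = _ := mul_one _
    have h6 : ‖γ⁻¹ • fderiv ℂ (⇑F⁻¹) (F A.c) (fderiv ℂ (⇑F) A.c u - γ • u')‖ ≤ K * η / b := by
      rw [norm_smul]
      have h7 := (ContinuousLinearMap.le_opNorm _ _).trans
        (mul_le_mul (g3.trans k2) h (norm_nonneg _) (by linarith))
      calc _ ≤ 1 / b * (K * η) := mul_le_mul hγ' h7 (norm_nonneg _) (by positivity)
        _ = _ := by ring
    rw [h4]
    linarith [norm_sub_le ((fderiv ℂ (⇑F⁻¹) A'.c - fderiv ℂ (⇑F⁻¹) (F A.c)) u')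
      (γ⁻¹ • fderiv ℂ (⇑F⁻¹) (F A.c) (fderiv ℂ (⇑F) A.c u - γ • u'))]
  have hb3 : 1 ≤ 1 / b := by rw [le_div_iff₀ hb]; linarith
  have g4 := key A.U A'.U α hα (by
    rw [norm_inv]
    exact (inv_le_one_of_one_le₀ (by linarith)).trans hb3) hU' e1
  have g5 := key A.S A'.S β hβ (by
    rw [norm_inv, one_div]
    exact inv_anti₀ hb hb1) hS' e2
  have hbd : 2 * r * (4 * K * r ^ 2 + 2 * e) ≤ δ * D := by
    have h3 : 8 * K * r * (r ^ 2 + η) / b ≤ δ * D := by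
      rw [div_le_iff₀ hb]; linarith
    have h4 : K * r ^ 2 ≤ K * r ^ 2 / b := le_div_self (by positivity) hb hb'
    have h5 : 8 * K * r * (r ^ 2 + η) / b = 2 * r * (4 * (K * r ^ 2 / b) + 2 * e) := by
      rw [he]; ring
    have h6 : 2 * r * (4 * K * r ^ 2 + 2 * e) ≤ 2 * r * (4 * (K * r ^ 2 / b) + 2 * e) :=
      mul_le_mul_of_nonneg_left (by linarith) (by positivity)
    linarith
  obtain ⟨p1, p2, p3⟩ := CStep_half hA.dF (R := R) (K := K)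
    (fun z w hz hw => (h₁ z w hz hw).2.2.2.1.trans (by gcongr)) (by linarith) hD hr hc hU hS1 hU'
    hS' hdet hd' (e0.trans he3) (e1.trans he3) (e2.trans he3) hbd
  obtain ⟨q1, q2, q3⟩ := CStep_half hA.dG (R := R) (K := K)
    (fun z w hz hw => (h₂ z w hz hw).2.2.2.1.trans (by gcongr)) (by linarith) hD hr hc' hU' hS' hU
    hS1 hdet' hd g1' g4 g5 hbd
  have hinv : (loc F A A')⁻¹ = loc F⁻¹ A' A := by
    simp only [loc, mul_inv_rev, inv_inv, mul_assoc]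
  refine ⟨p1, by rw [hinv]; exact q1, p2, by rw [hinv]; exact q2, α, β, ha1, ha2, hb1, hb2, p3, ?_⟩
  rw [hinv]
  exact q3

/-- McShane extension: `h k = ⨅ τ ∈ T, (l τ + 2 ε |k - τ|)`. -/
theorem exists_weight {T : Set ℤ} (hT : T.Nonempty) {l : ℤ → ℝ} {ε n₀ M : ℝ} (hε : 0 < ε)
    (hM : n₀ ≤ ε * M) (hsp : ∀ k ∈ T, ∀ k' ∈ T, k ≠ k' → M ≤ |(k : ℝ) - k'|)
    (hl : ∀ τ ∈ T, ∀ k : ℤ, l k ≤ l τ + n₀ + ε * |(k : ℝ) - τ|) :
    ∃ h : ℤ → ℝ, (∀ k, |h (k + 1) - h k| ≤ 2 * ε) ∧ (∀ τ ∈ T, h τ = l τ) ∧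
      (∀ k, l k ≤ h k + n₀) ∧ ∀ τ ∈ T, ∀ k : ℤ, h k ≤ l τ + 2 * ε * |(k : ℝ) - τ| := by
  haveI : Nonempty T := hT.to_subtype
  obtain ⟨τ₀, hτ₀⟩ := hT
  have hbd : ∀ k : ℤ, ∀ τ : T, l k - n₀ ≤ l τ + 2 * ε * |(k : ℝ) - (τ : ℤ)| := fun k τ => by
    have := hl τ τ.2 k
    nlinarith [abs_nonneg ((k : ℝ) - (τ : ℤ))]
  have hbb : ∀ k : ℤ, BddBelow (range fun τ : T => l τ + 2 * ε * |(k : ℝ) - (τ : ℤ)|) :=
    fun k => ⟨l k - n₀, by rintro _ ⟨τ, rfl⟩; exact hbd k τ⟩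
  have hle : ∀ (k : ℤ) (τ : T), (⨅ τ : T, l τ + 2 * ε * |(k : ℝ) - (τ : ℤ)|) ≤
      l τ + 2 * ε * |(k : ℝ) - (τ : ℤ)| := fun k τ => ciInf_le (hbb k) τ
  have hlip : ∀ k k' : ℤ, |(k : ℝ) - k'| ≤ 1 → (⨅ τ : T, l τ + 2 * ε * |(k : ℝ) - (τ : ℤ)|) - 2 * ε ≤
      ⨅ τ : T, l τ + 2 * ε * |(k' : ℝ) - (τ : ℤ)| := fun k k' h => le_ciInf fun τ => by
    have h1 := hle k τ
    have h2 := abs_sub_le (k : ℝ) k' (τ : ℤ)
    nlinarith
  refine ⟨fun k => ⨅ τ : T, l τ + 2 * ε * |(k : ℝ) - (τ : ℤ)|, fun k => ?_, fun τ hτ => ?_,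
    fun k => ?_, fun τ hτ k => hle k ⟨τ, hτ⟩⟩
  · have h1 := hlip (k + 1) k (by simp)
    have h2 := hlip k (k + 1) (by simp)
    rw [abs_le]
    constructor <;> linarith
  · refine le_antisymm (by simpa using hle τ ⟨τ, hτ⟩) (le_ciInf fun σ => ?_)
    by_cases h : τ = σ
    · rw [← h]; simp
    · have h1 := hsp τ hτ σ σ.2 h
      have h2 := hl σ σ.2 τ
      nlinarith
  · have := le_ciInf (hbd k)
    linarith

/-- distance to `T` -/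
theorem exists_dist {T : Set ℤ} (hT : T.Nonempty) : ∃ D : ℤ → ℝ, (∀ k, 0 ≤ D k) ∧
    (∀ k, |D (k + 1) - D k| ≤ 1) ∧ (∀ τ ∈ T, ∀ k : ℤ, D k ≤ |(k : ℝ) - τ|) ∧
    ∀ k : ℤ, ∃ τ ∈ T, |(k : ℝ) - τ| = D k := by
  classical
  have hex : ∀ k : ℤ, ∃ m : ℕ, ∃ τ ∈ T, (k - τ).natAbs = m := fun k =>
    ⟨_, hT.choose, hT.choose_spec, rfl⟩
  have hc : ∀ k τ : ℤ, (((k - τ).natAbs : ℕ) : ℝ) = |(k : ℝ) - τ| := fun k τ => by
    rw [← Int.cast_natCast, Int.natCast_natAbs]; push_cast; rfl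
  have h1 : ∀ τ ∈ T, ∀ k : ℤ, ((Nat.find (hex k) : ℕ) : ℝ) ≤ |(k : ℝ) - τ| := fun τ hτ k => by
    rw [← hc]
    exact_mod_cast Nat.find_min' (hex k) ⟨τ, hτ, rfl⟩
  have h2 : ∀ k : ℤ, ∃ τ ∈ T, |(k : ℝ) - τ| = ((Nat.find (hex k) : ℕ) : ℝ) := fun k => by
    obtain ⟨τ, hτ, h⟩ := Nat.find_spec (hex k)
    exact ⟨τ, hτ, by rw [← hc, h]⟩
  refine ⟨fun k => (Nat.find (hex k) : ℕ), fun k => Nat.cast_nonneg _, fun k => ?_, h1, h2⟩
  obtain ⟨τ, hτ, h3⟩ := h2 k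
  obtain ⟨σ, hσ, h4⟩ := h2 (k + 1)
  have h5 := h1 τ hτ (k + 1)
  have h6 := h1 σ hσ k
  have h7 := abs_sub_le (((k + 1 : ℤ)) : ℝ) k τ
  have h8 := abs_sub_le (k : ℝ) ((k + 1 : ℤ) : ℝ) σ
  have h9 : |(((k + 1 : ℤ)) : ℝ) - k| = 1 := by simp
  have h10 : |(k : ℝ) - ((k + 1 : ℤ) : ℝ)| = 1 := by simp
  rw [abs_le]
  constructor <;> linarith

/-- a sparse subset, unbounded in both directions -/
theorem Rec.sparse {T : Set ℤ} (h : Rec T) (M : ℝ) : ∃ T' ⊆ T, Rec T' ∧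
    ∀ k ∈ T', ∀ k' ∈ T', k ≠ k' → M ≤ |(k : ℝ) - k'| := by
  obtain ⟨h0, hu, hd⟩ := h
  obtain ⟨m, hm⟩ : ∃ m : ℤ, M ≤ m ∧ 1 ≤ m :=
    ⟨max ⌈M⌉ 1, (Int.le_ceil M).trans (by exact_mod_cast le_max_left _ _), le_max_right _ _⟩
  choose u hu1 hu2 using hu
  choose d hd1 hd2 using hd
  let a : ℕ → ℤ := fun n => Nat.rec 0 (fun _ x => u (x + m)) n
  let c : ℕ → ℤ := fun n => Nat.rec 0 (fun _ x => d (x - m)) n
  have ha : ∀ n, a n + m ≤ a (n + 1) := fun n => hu2 _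
  have hc : ∀ n, c (n + 1) ≤ c n - m := fun n => hd2 _
  have haT : ∀ n, a n ∈ T := fun n => by
    cases n with
    | zero => exact h0
    | succ n => exact hu1 _
  have hcT : ∀ n, c n ∈ T := fun n => by
    cases n with
    | zero => exact h0
    | succ n => exact hd1 _
  have ha2 : ∀ i j, i < j → a i + m ≤ a j := fun i j hij => by
    induction hij with
    | refl => exact ha i
    | step _ ih => exact ih.trans (by linarith [ha ‹_›, hm.2])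
  have hc2 : ∀ i j, i < j → c j ≤ c i - m := fun i j hij => by
    induction hij with
    | refl => exact hc i
    | step _ ih => exact le_trans (by linarith [hc ‹_›, hm.2]) ih
  have ha3 : ∀ n : ℕ, (n : ℤ) ≤ a n := fun n => by
    induction n with
    | zero => exact le_rfl
    | succ n ih => push_cast; linarith [ha n, hm.2]
  have hc3 : ∀ n : ℕ, c n ≤ -(n : ℤ) := fun n => by
    induction n with
    | zero => exact le_rfl
    | succ n ih => push_cast; linarith [hc n, hm.2]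
  have a0 : a 0 = 0 := rfl
  have c0 : c 0 = 0 := rfl
  have hac : ∀ i j, a i ≠ c j → c j + m ≤ a i := fun i j hne => by
    rcases Nat.eq_zero_or_pos i with rfl | hi
    · rcases Nat.eq_zero_or_pos j with rfl | hj
      · exact absurd rfl hne
      · linarith [hc2 0 j hj]
    · have := ha2 0 i hi
      have h1 := hc3 j
      have h2 : (0 : ℤ) ≤ j := Nat.cast_nonneg j
      linarith
  have fin : ∀ k k' : ℤ, k + m ≤ k' ∨ k' + m ≤ k → M ≤ |(k : ℝ) - k'| := fun k k' h => by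
    rcases h with h | h
    · have : (k : ℝ) + m ≤ k' := by exact_mod_cast h
      rw [abs_sub_comm]
      exact hm.1.trans (le_trans (by linarith) (le_abs_self _))
    · have : (k' : ℝ) + m ≤ k := by exact_mod_cast h
      exact hm.1.trans (le_trans (by linarith) (le_abs_self _))
  refine ⟨range a ∪ range c, ?_, ⟨Or.inl ⟨0, rfl⟩, fun n => ⟨a n.toNat, Or.inl ⟨_, rfl⟩,
    (Int.self_le_toNat n).trans (ha3 _)⟩, fun n => ⟨c (-n).toNat, Or.inr ⟨_, rfl⟩, ?_⟩⟩, ?_⟩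
  · rintro _ (⟨n, rfl⟩ | ⟨n, rfl⟩)
    exacts [haT n, hcT n]
  · linarith [hc3 (-n).toNat, Int.self_le_toNat (-n)]
  · rintro _ (⟨i, rfl⟩ | ⟨i, rfl⟩) _ (⟨j, rfl⟩ | ⟨j, rfl⟩) hne <;> apply fin
    · rcases lt_trichotomy i j with h | rfl | h
      exacts [Or.inl (ha2 i j h), absurd rfl hne, Or.inr (ha2 j i h)]
    · exact Or.inr (hac i j hne)
    · exact Or.inl (hac j i hne.symm)
    · rcases lt_trichotomy i j with h | rfl | h
      exacts [Or.inr (by linarith [hc2 i j h]), absurd rfl hne, Or.inl (by linarith [hc2 j i h])]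

variable {F : Pm} {Λ b δ c₀ : ℝ} {A₀ : Ch} {x : E} {A : ℤ → Ch} {T : Set ℤ}

theorem RChain.chain (h : RChain F Λ b δ c₀ A₀ x A T) (k : ℤ) : Chain Λ b δ (fwc F A k) := by
  exact ⟨h.small, fun n => h.step _⟩

/-- index shift -/
theorem RChain.shift (h : RChain F Λ b δ c₀ A₀ x A T) (j : ℤ) :
    RChain F Λ b δ c₀ A₀ ((F ^ j) x) (fun k => A (j + k)) {k | j + k ∈ T} := by
  refine ⟨h.small, h.pos, fun k => h.det _, fun k => ?_, fun k hk => h.vis _ hk, fun k => ?_,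
    fun k => h.up _, fun k τ hτ => ?_⟩
  · rw [← add_assoc]
    exact h.step _
  · have := h.orb (j + k)
    rwa [add_comm j k, zpow_add, Equiv.Perm.mul_apply, add_comm k j] at this
  · have := h.low (j + k) (j + τ) hτ
    rwa [add_sub_add_left_eq_sub] at this

theorem RChain.orbit (h : RChain F Λ b δ c₀ A₀ x A T) (k : ℤ) (n : ℕ) :
    cmp (fwc F A k) n ((A k).pm⁻¹ ((F ^ k) x)) = (A (k + n)).pm⁻¹ ((F ^ (k + n)) x) := by
  induction n with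
  | zero => simp [cmp]
  | succ n ih =>
    rw [cmp, Equiv.Perm.mul_apply, ih]
    have e : (F ^ (k + ((n + 1 : ℕ) : ℤ))) x = F ((F ^ (k + n)) x) := by
      rw [← Equiv.Perm.mul_apply, ← zpow_one_add]
      congr 2
      push_cast
      ring
    rw [e]
    push_cast
    simp [fwc, loc, add_assoc]

theorem RChain.stay (h : RChain F Λ b δ c₀ A₀ x A T) (k : ℤ) :
    Stay (fwc F A k) ((A k).pm⁻¹ ((F ^ k) x)) := by
  intro n
  rw [h.orbit k n]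
  exact (h.orb _).trans (by norm_num)

end Pool.Agent.Lib.MP_7b5e47_an.Hn
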