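import Pool.Agent.Lib.MP_7b5e47_an.Hn.Stmt

namespace Pool.Agent.Lib.MP_7b5e47_an.Hn

open Filter Topology Set Metric MeasureTheory

abbrev E := ℂ × ℂ

abbrev Pm := Equiv.Perm E

/-- determinant of two vectors -/
def det2 (u v : E) : ℂ := u.1 * v.2 - u.2 * v.1

/-- exchange of the coordinates -/
def sw : Pm := Equiv.prodComm ℂ ℂ

/-- holomorphic automorphism with constant Jacobian `a` -/
structure Aut (F : Pm) (a : ℂ) : Prop where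
  dF : Differentiable ℂ (⇑F)
  dG : Differentiable ℂ (⇑F⁻¹)
  ne : a ≠ 0
  jac : ∀ z u v, det2 (fderiv ℂ (⇑F) z u) (fderiv ℂ (⇑F) z v) = a * det2 u v

/-! ### affine charts and chains of hyperbolic steps -/

/-- affine chart `z ↦ c + z₁ U + z₂ S` -/
structure Ch where
  c : E
  U : E
  S : E

def Ch.det (A : Ch) : ℂ := det2 A.U A.S

def Ch.rev (A : Ch) : Ch := ⟨A.c, A.S, A.U⟩

open Classical in
/-- the chart as a bijection (the identity if it is degenerate) -/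
noncomputable def Ch.pm (A : Ch) : Pm :=
  if h : A.det ≠ 0 then
    { toFun := fun z => A.c + z.1 • A.U + z.2 • A.S
      invFun := fun q => (det2 (q - A.c) A.S / A.det, det2 A.U (q - A.c) / A.det)
      left_inv := fun z => by
        have e : A.det = A.U.1 * A.S.2 - A.U.2 * A.S.1 := rfl
        refine Prod.ext ?_ ?_ <;> simp only [det2] <;> rw [div_eq_iff h, e] <;> simp <;> ring
      right_inv := fun q => by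
        have e : A.det = A.U.1 * A.S.2 - A.U.2 * A.S.1 := rfl
        refine Prod.ext ?_ ?_
        · simp only [det2, Prod.fst_add, Prod.smul_fst, smul_eq_mul, Prod.fst_sub, Prod.snd_sub]
          field_simp
          rw [e]; ring
        · simp only [det2, Prod.snd_add, Prod.smul_snd, smul_eq_mul, Prod.fst_sub, Prod.snd_sub]
          field_simp
          rw [e]; ring }
  else 1

/-- `F` read in the charts `A` (source) and `A'` (target) -/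
noncomputable def loc (F : Pm) (A A' : Ch) : Pm := A'.pm⁻¹ * F * A.pm

/-- admissible constants -/
def Small (Λ b δ : ℝ) : Prop :=
  1 < Λ ∧ Λ ≤ 2 ∧ 0 < b ∧ b ≤ 1 ∧ 0 < δ ∧ δ ≤ (Λ - 1) * b / 1000

/-- contraction rate -/
noncomputable def the (Λ : ℝ) : ℝ := 2 / (1 + Λ)

/-- allowed rate of degeneration of the charts, `ome Λ * the Λ < 1` -/
noncomputable def ome (Λ : ℝ) : ℝ := (3 + Λ) / 4

/-- a map which on the closed unit bidisc is `C¹`-close to a hyperbolic diagonal map,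
together with its inverse -/
def Step (Λ b δ : ℝ) (Φ : Pm) : Prop :=
  Differentiable ℂ (⇑Φ) ∧ Differentiable ℂ (⇑Φ⁻¹) ∧ ‖Φ 0‖ ≤ δ ∧ ‖Φ⁻¹ 0‖ ≤ δ ∧
  ∃ α β : ℂ, Λ ≤ ‖α‖ ∧ ‖α‖ ≤ 1 / b ∧ b ≤ ‖β‖ ∧ ‖β‖ ≤ 1 / Λ ∧
    (∀ z : E, ‖z‖ ≤ 1 → ∀ v : E, ‖fderiv ℂ (⇑Φ) z v - (α * v.1, β * v.2)‖ ≤ δ * ‖v‖) ∧
    (∀ z : E, ‖z‖ ≤ 1 → ∀ v : E, ‖fderiv ℂ (⇑Φ⁻¹) z v - (α⁻¹ * v.1, β⁻¹ * v.2)‖ ≤ δ * ‖v‖)

/-- a forward chain of steps -/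
def Chain (Λ b δ : ℝ) (Φ : ℕ → Pm) : Prop := Small Λ b δ ∧ ∀ n, Step Λ b δ (Φ n)

/-- `Φ (n-1) ∘ ⋯ ∘ Φ 0` -/
def cmp (Φ : ℕ → Pm) : ℕ → Pm
  | 0 => 1
  | n + 1 => Φ n * cmp Φ n

/-- shifted chain -/
def shf (Φ : ℕ → Pm) (k : ℕ) : ℕ → Pm := fun n => Φ (k + n)

/-- the orbit stays in the closed unit bidisc up to time `n` -/
def StayN (Φ : ℕ → Pm) (n : ℕ) (z : E) : Prop := ∀ j ≤ n, ‖cmp Φ j z‖ ≤ 1

/-- the orbit stays in the closed unit bidisc for ever -/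
def Stay (Φ : ℕ → Pm) (z : E) : Prop := ∀ j, ‖cmp Φ j z‖ ≤ 1

/-- a holomorphic graph over `ball c ρ`, of height at most 1 and slope at most 1/10 -/
def Gr (c : ℂ) (ρ : ℝ) (η : ℂ → ℂ) : Prop :=
  DifferentiableOn ℂ η (ball c ρ) ∧ (∀ t ∈ ball c ρ, ‖η t‖ ≤ 1) ∧
    ∀ t ∈ ball c ρ, ∀ t' ∈ ball c ρ, ‖η t - η t'‖ ≤ ‖t - t'‖ / 10

/-- the stable graph `u = γ s` of a forward chain -/
structure IsSG (Φ : ℕ → Pm) (γ : ℂ → ℂ) : Prop where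
  gr : Gr 0 1 γ
  small : ∀ s ∈ ball (0 : ℂ) 1, ‖γ s‖ ≤ 1 / 100
  stay : ∀ s ∈ ball (0 : ℂ) 1, Stay Φ (γ s, s)
  uniq : ∀ z : E, ‖z.2‖ < 1 → Stay Φ z → z.1 = γ z.2

/-- entire linearizers of the stable manifolds along the orbit of `z` -/
structure IsLin (θ ρ : ℝ) (Φ : ℕ → Pm) (z : E) (Ψ : ℕ → ℂ → E) (l : ℕ → ℂ) : Prop where
  diff : ∀ n, Differentiable ℂ (Ψ n)
  zero : ∀ n, Ψ n 0 = cmp Φ n z
  func : ∀ n ζ, Φ n (Ψ n ζ) = Ψ (n + 1) (l n * ζ)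
  lam : ∀ n, ‖l n‖ ≤ θ
  bd : ∀ n ζ, ‖ζ‖ ≤ ρ → ‖Ψ n ζ‖ ≤ 1
  quad : ∀ n ζ, ‖ζ‖ ≤ ρ → ‖(Ψ n ζ).2 - (Ψ n 0).2 - ζ‖ ≤ ‖ζ‖ ^ 2 / (10 * ρ)

/-- the forward chain read in the charts `A k, A (k+1), ...` -/
noncomputable def fwc (F : Pm) (A : ℤ → Ch) (k : ℤ) : ℕ → Pm :=
  fun n => loc F (A (k + n)) (A (k + n + 1))

/-- the charts for the inverse map -/
def rvc (A : ℤ → Ch) : ℤ → Ch := fun k => (A (-k)).rev

/-- a two-sided chain of charts along the orbit of `x`, equal to `A₀` at the times in `T` -/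
structure RChain (F : Pm) (Λ b δ c₀ : ℝ) (A₀ : Ch) (x : E) (A : ℤ → Ch) (T : Set ℤ) : Prop where
  small : Small Λ b δ
  pos : 0 < c₀
  det : ∀ k, (A k).det ≠ 0
  step : ∀ k, Step Λ b δ (loc F (A k) (A (k + 1)))
  vis : ∀ k ∈ T, A k = A₀
  orb : ∀ k, ‖(A k).pm⁻¹ ((F ^ k) x)‖ ≤ 1 / 100
  up : ∀ k, ‖(A k).U‖ ≤ 1 ∧ ‖(A k).S‖ ≤ 1
  low : ∀ k, ∀ τ ∈ T, c₀ ≤ ‖(A k).det‖ * ome Λ ^ (k - τ).natAbs

/-- visiting times unbounded in both directions -/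
def Rec (T : Set ℤ) : Prop := 0 ∈ T ∧ (∀ n, ∃ k ∈ T, n ≤ k) ∧ ∀ n, ∃ k ∈ T, k ≤ n

/-- Lyapunov regular point with frame `u, s` -/
structure Good (F : Pm) (χu χs ε N : ℝ) (x u s : E) : Prop where
  nu : ‖u‖ = 1
  ns : ‖s‖ = 1
  det : 1 / N ≤ ‖det2 u s‖
  bu : ∀ n : ℤ, ‖fderiv ℂ (⇑(F ^ n)) x u‖ ≤ N * Real.exp (χu * n + ε * |(n : ℝ)|)
  bs : ∀ n : ℤ, ‖fderiv ℂ (⇑(F ^ n)) x s‖ ≤ N * Real.exp (χs * n + ε * |(n : ℝ)|)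

/-! ### the abstract Henon system -/

/-- `G ∘ X` vanishes at `ζ` but not identically near `ζ` -/
def Act (G : E → ℝ) (X : ℂ → E) (ζ : ℂ) : Prop := G (X ζ) = 0 ∧ ∃ᶠ t in 𝓝 ζ, G (X t) ≠ 0

/-- properties of the forward Green function -/
structure HalfG (F : Pm) (d : ℝ) (Gp Gm : E → ℝ) : Prop where
  one_lt : 1 < d
  cont : Continuous Gp
  nonneg : ∀ z, 0 ≤ Gp z
  equi : ∀ z, Gp (F z) = d * Gp z
  zero_iff : ∀ z, Gp z = 0 ↔ z ∈ Kp F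
  proper : ∀ C : ℝ, ∃ R : ℝ, ∀ z, Gp z ≤ C → Gm z ≤ C → ‖z‖ ≤ R
  harm : ∀ (X : ℂ → E) (ζ : ℂ), AnalyticAt ℂ X ζ → 0 < Gp (X ζ) →
    InnerProductSpace.HarmonicAt (fun t => Gp (X t)) ζ
  holder : ∀ R : ℝ, ∃ C α : ℝ, 0 < α ∧ ∀ z w : E, ‖z‖ ≤ R → ‖w‖ ≤ R → Gp w = 0 →
    Gp z ≤ C * ‖z - w‖ ^ α

/-- properties of the invariant measure in the forward direction -/
structure HalfM (F : Pm) (Gp : E → ℝ) (μ : Measure E) : Prop where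
  mp : MeasurePreserving (⇑F) μ μ
  supp : μ {z | Gp z ≠ 0} = 0
  ballE : ∀ R : ℝ, ∃ C : ℝ, ∀ (x : E) (r B : ℝ), ‖x‖ ≤ R → 0 < r → r ≤ 1 →
    (∀ q ∈ closedBall x (2 * r), Gp q ≤ B) → μ.real (closedBall x r) ≤ C * B / r ^ 2
  tube : ∀ A : Ch, A.det ≠ 0 → ∃ C : ℝ, ∀ (γ : ℂ → ℂ) (ε B : ℝ), DifferentiableOn ℂ γ (ball 0 1) →
    (∀ s ∈ ball (0 : ℂ) 1, ‖γ s‖ ≤ 1) → 0 < ε → ε ≤ 1 / 2 →
    (∀ z : E, ‖z.2‖ ≤ 3 / 4 → ‖z.1 - γ z.2‖ ≤ 2 * ε → Gp (A.pm z) ≤ B) →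
    μ.real {q | ‖(A.pm⁻¹ q).2‖ ≤ 1 / 2 ∧ ‖(A.pm⁻¹ q).1 - γ (A.pm⁻¹ q).2‖ ≤ ε} ≤
      C * B * (1 - Real.log ε)
  reach : ∀ᵐ x ∂μ, ∀ (X : ℂ → E) (ζ : ℂ) (ρ : ℝ), 0 < ρ → DifferentiableOn ℂ X (ball ζ ρ) →
    Act Gp X ζ → ∀ ε > 0, ∃ᶠ n : ℕ in atTop, ∃ t ∈ ball ζ ρ, ‖(F ^ n) (X t) - x‖ < ε

/-- the two-sided system -/
structure Sys (F : Pm) (a : ℂ) (d : ℝ) (Gp Gm : E → ℝ) (μ : Measure E) : Prop where
  aut : Aut F a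
  gp : HalfG F d Gp Gm
  gm : HalfG F⁻¹ d Gm Gp
  prob : IsProbabilityMeasure μ
  mp : HalfM F Gp μ
  mm : HalfM F⁻¹ Gm μ

/-- a set of positive measure of points with recurrent chains through a common chart -/
structure Box (F : Pm) (μ : Measure E) (Λ b δ c₀ : ℝ) (A₀ : Ch) (R : Set E) : Prop where
  meas : MeasurableSet R
  ne : μ R ≠ 0
  ch : ∀ x ∈ R, x ∈ Kp F ∧ x ∈ Kp F⁻¹ ∧ ∃ A T, RChain F Λ b δ c₀ A₀ x A T ∧ Rec T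

/-- local mean value property -/
def MV (φ : ℂ → ℝ) (ζ : ℂ) : Prop :=
  (∀ᶠ t in 𝓝 ζ, ContinuousAt φ t) ∧ ∀ᶠ r in 𝓝[>] (0 : ℝ), Real.circleAverage φ ζ r = φ ζ

/-- local sub-mean value property -/
def SMV (φ : ℂ → ℝ) (ζ : ℂ) : Prop :=
  (∀ᶠ t in 𝓝 ζ, ContinuousAt φ t) ∧ ∀ᶠ r in 𝓝[>] (0 : ℝ), φ ζ ≤ Real.circleAverage φ ζ r

end Pool.Agent.Lib.MP_7b5e47_an.Hn
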