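import Pool.Agent.Lib.MP_7b5e47_an.Hn.Defs
import Pool.Agent.Lib.MP_901be3_an.Hd.Birk

namespace Pool.Agent.Lib.MP_7b5e47_an.Hn

open Filter Topology Set Metric MeasureTheory

theorem ECob_exists_count (p : ℕ → Prop) [DecidablePred p] {a m : ℕ} (h : a < Nat.count p m) :
    ∃ j < m, p j ∧ Nat.count p j = a := by
  induction m with
  | zero => simp at h
  | succ m ih =>
    by_cases h1 : a < Nat.count p m
    · obtain ⟨j, hj, h2⟩ := ih h1
      exact ⟨j, by omega, h2⟩
    · rw [Nat.count_succ] at h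
      by_cases hp : p m
      · rw [if_pos hp] at h
        exact ⟨m, by omega, hp, by omega⟩
      · rw [if_neg hp] at h
        omega

theorem ECob_pos {Ω : Type*} [MeasurableSpace Ω] {ν : Measure Ω} {A : Set Ω} (hA0 : ν A ≠ 0)
    {B : ℕ → Set Ω} (h : ∀ᵐ x ∂ν, x ∈ A → ∃ n, x ∈ B n) : ∃ n, ν (B n) ≠ 0 := by
  by_contra hc
  push Not at hc
  refine hA0 (measure_mono_null_ae (t := ⋃ n, B n) ?_ (measure_iUnion_null hc))
  filter_upwards [h] with x hx hxA
  exact mem_iUnion.2 (hx hxA)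

theorem ECob_chain {s : ℕ → ℝ} {p : ℕ → Prop} [DecidablePred p] {M : ℝ} {n : ℕ} (hn : 0 < n)
    (h0 : ∀ k, p k → s k ≤ M) (h1 : ∀ j k, p j → p k → j + n ≤ k → s k ≤ s j - 1) (i : ℕ) :
    ∀ k, p k → i * n ≤ Nat.count p k → s k ≤ M - i := by
  induction i with
  | zero => intro k hk _; simpa using h0 k hk
  | succ i ih =>
    intro k hk hc
    have h2 : Nat.count p k ≤ k := Nat.count_le _
    rw [Nat.succ_mul] at hc
    have h3 : k = (k - n + 1) + (n - 1) := by omega
    have h4 : Nat.count p k ≤ Nat.count p (k - n + 1) + (n - 1) := by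
      conv_lhs => rw [h3, Nat.count_add]
      exact Nat.add_le_add_left (Nat.count_le _) _
    obtain ⟨j, hj, hpj, hcj⟩ := ECob_exists_count p (a := i * n) (m := k - n + 1) (by omega)
    have h5 := ih j hpj hcj.ge
    have h6 := h1 j k hpj hk (by omega)
    push_cast
    linarith

/-- A subadditive cocycle with zero exponent which is bounded above at the returns to `A` is
bounded below at the returns to a subset. Take `B = {x ∈ A | ∀ k, T^k x ∈ A → S k x ≤ M'}` of
positive measure. Let `Bad = {x | ∀ M : ℕ, ∀ᶠ k, T^k x ∈ B → S k x < -M}`; by subadditivity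
`T ⁻¹' Bad ⊆ Bad`, so it is null or conull (`Ergodic.ae_empty_or_univ_of_preimage_ae_le`). If it
is conull, `B' = {x ∈ B | ∀ k ≥ n₀, T^k x ∈ B → S k x ≤ -1}` has positive measure `c` for some
`n₀ ≥ 1`; a generic orbit visits `B'` at least `c n / 2` times before `n`
(`MP_901be3_an.Hd.birkhoff_erg`); taking every `n₀`-th visit `k₁ < k₂ < ⋯` gives
`S k_i x ≤ S k₁ x - (i - 1)` with `k_i ≤ C i`, against `S n x / n → 0`. For `x ∉ Bad` and
`T^k x ∈ B` take `k' ≥ k` with `T^k' x ∈ B`, `S k' x ≥ -M`; `S k' x ≤ S k x + M'`. -/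
theorem cobound {Ω : Type*} [MeasurableSpace Ω] {ν : Measure Ω} [IsProbabilityMeasure ν]
    {T : Ω → Ω} (hT : Ergodic T ν) {S : ℕ → Ω → ℝ} (hm : ∀ n, Measurable (S n))
    (hs : ∀ m n x, S (m + n) x ≤ S m x + S n (T^[m] x))
    (h0 : ∀ᵐ x ∂ν, Tendsto (fun n : ℕ => S n x / n) atTop (𝓝 0)) {A : Set Ω}
    (hA : MeasurableSet A) (hA0 : ν A ≠ 0)
    (hb : ∀ᵐ x ∂ν, x ∈ A → ∃ M : ℝ, ∀ k, T^[k] x ∈ A → S k x ≤ M) :
    ∃ B ⊆ A, MeasurableSet B ∧ ν B ≠ 0 ∧
      ∀ᵐ x ∂ν, ∃ M : ℝ, ∀ k, T^[k] x ∈ B → -M ≤ S k x := by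
  classical
  have hTm : ∀ k, Measurable T^[k] := fun k => hT.measurable.iterate k
  have hBm : ∀ M : ℕ, MeasurableSet {x | x ∈ A ∧ ∀ k, T^[k] x ∈ A → S k x ≤ M} := fun M => by
    refine hA.inter (s₂ := {x | ∀ k, T^[k] x ∈ A → S k x ≤ M}) ?_
    rw [ofPred_forall]
    refine MeasurableSet.iInter fun k => ?_
    exact MeasurableSet.imp (hTm k hA) (measurableSet_le (hm k) measurable_const)
  obtain ⟨M', hM'⟩ := ECob_pos hA0 (B := fun M : ℕ => {x | x ∈ A ∧ ∀ k, T^[k] x ∈ A → S k x ≤ M})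
    (by
      filter_upwards [hb] with x hx hxA
      obtain ⟨M, hM⟩ := hx hxA
      obtain ⟨n, hn⟩ := exists_nat_ge M
      exact ⟨n, hxA, fun k hk => (hM k hk).trans hn⟩)
  set B : Set Ω := {x | x ∈ A ∧ ∀ k, T^[k] x ∈ A → S k x ≤ M'} with hB
  have hBm' : MeasurableSet B := hBm M'
  refine ⟨B, fun x hx => hx.1, hBm', hM', ?_⟩
  have hstep : ∀ x j k, j ≤ k → S k x ≤ S j x + S (k - j) (T^[j] x) ∧
      T^[k - j] (T^[j] x) = T^[k] x := by
    intro x j k hjk
    constructor
    · have := hs j (k - j) x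
      rwa [Nat.add_sub_cancel' hjk] at this
    · rw [← Function.iterate_add_apply, Nat.sub_add_cancel hjk]
  set Bad : Set Ω := {x | ∀ M : ℕ, ∃ n, ∀ k, n ≤ k → T^[k] x ∈ B → S k x < -M} with hBad
  have hBadm : MeasurableSet Bad := by
    rw [hBad, ofPred_forall]
    refine MeasurableSet.iInter fun M => ?_
    rw [ofPred_exists]
    refine MeasurableSet.iUnion fun n => ?_
    rw [ofPred_forall]
    refine MeasurableSet.iInter fun k => ?_
    exact MeasurableSet.imp (MeasurableSet.const _)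
      (MeasurableSet.imp (hTm k hBm') (measurableSet_lt (hm k) measurable_const))
  have hinv : T ⁻¹' Bad ⊆ Bad := by
    intro x hx M
    obtain ⟨M2, hM2⟩ := exists_nat_ge (M + S 1 x)
    obtain ⟨n, hn⟩ := hx M2
    refine ⟨n + 1, fun k hk hkB => ?_⟩
    obtain ⟨a1, a2⟩ := hstep x 1 k (by omega)
    rw [Function.iterate_one] at a1 a2
    have := hn (k - 1) (by omega) (by rwa [a2])
    linarith
  rcases hT.ae_empty_or_univ_of_preimage_ae_le hBadm.nullMeasurableSet hinv.eventuallyLE with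
    he | hu
  · rw [ae_eq_empty] at he
    filter_upwards [measure_eq_zero_iff_ae_notMem.1 he] with x hx
    simp only [hBad, mem_ofPred_eq] at hx
    push Not at hx
    obtain ⟨M, hM⟩ := hx
    refine ⟨M + M', fun k hk => ?_⟩
    obtain ⟨k', h1, h2, h3⟩ := hM k
    obtain ⟨a1, a2⟩ := hstep x k k' h1
    have := hk.2 (k' - k) (by rw [a2]; exact h2.1)
    linarith
  · exfalso
    rw [ae_eq_univ_iff_measure_eq hBadm.nullMeasurableSet] at hu
    have hu' : ∀ᵐ x ∂ν, x ∈ Bad := (mem_ae_iff_prob_eq_one hBadm).2 (by simpa using hu)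
    obtain ⟨n, hn⟩ := ECob_pos hM'
      (B := fun n : ℕ => {x | x ∈ B ∧ ∀ k, n + 1 ≤ k → T^[k] x ∈ B → S k x ≤ -1})
      (by
        filter_upwards [hu'] with x hx hxB
        obtain ⟨n, hn⟩ := hx 1
        exact ⟨n, hxB, fun k hk hkB => by simpa using (hn k (by omega) hkB).le⟩)
    set B' : Set Ω := {x | x ∈ B ∧ ∀ k, n + 1 ≤ k → T^[k] x ∈ B → S k x ≤ -1} with hB'
    have hB'm : MeasurableSet B' := by
      refine hBm'.inter (s₂ := {x | ∀ k, n + 1 ≤ k → T^[k] x ∈ B → S k x ≤ -1}) ?_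
      rw [ofPred_forall]
      refine MeasurableSet.iInter fun k => ?_
      exact MeasurableSet.imp (MeasurableSet.const _)
        (MeasurableSet.imp (hTm k hBm') (measurableSet_le (hm k) measurable_const))
    have hb1 : ∀ x, |B'.indicator (fun _ => (1 : ℝ)) x| ≤ 1 := fun x => by
      by_cases hx : x ∈ B' <;> simp [hx]
    have hc : 0 < ν.real B' := ENNReal.toReal_pos hn (measure_ne_top _ _)
    have hall := h0.and ((MP_901be3_an.Hd.birkhoff_erg hT (measurable_const.indicator hB'm) hb1).and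
      (hT.toMeasurePreserving.conservative.ae_mem_imp_frequently_image_mem
        hB'm.nullMeasurableSet))
    obtain ⟨x, hx, h1, h2, h3⟩ := Measure.exists_mem_of_measure_ne_zero_of_ae hn
      (ae_restrict_of_ae hall)
    rw [integral_indicator_const _ hB'm, smul_eq_mul, mul_one] at h2
    have hcount : ∀ k, ∑ j ∈ Finset.range k, B'.indicator (fun _ => (1 : ℝ)) (T^[j] x) =
        (Nat.count (fun j => T^[j] x ∈ B') k : ℝ) := by
      intro k
      induction k with
      | zero => simp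
      | succ k ih =>
        rw [Finset.sum_range_succ, ih, Nat.count_succ]
        by_cases hk : T^[k] x ∈ B' <;> simp [hk]
    simp only [hcount] at h2
    have hchain := ECob_chain (s := fun k => S k x) (p := fun j => T^[j] x ∈ B') (M := M')
      (n := n + 1) (by omega) (fun k hk => hx.1.2 k hk.1.1) (fun j k hj hk hjk => by
        obtain ⟨a1, a2⟩ := hstep x j k (by omega)
        have := hj.2 (k - j) (by omega) (by rw [a2]; exact hk.1)
        linarith)
    have hn0 : (0 : ℝ) < n + 1 := by positivity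
    have h4 : Tendsto (fun k : ℕ => S k x / k +
        (Nat.count (fun j => T^[j] x ∈ B') k : ℝ) / k / (n + 1) - (M' + 1 : ℝ) / k) atTop
        (𝓝 (0 + ν.real B' / (n + 1) - 0)) :=
      (h1.add (h2.div_const _)).sub (tendsto_const_div_atTop_nhds_zero_nat _)
    have h5 := h4.eventually (lt_mem_nhds (a := 0) (by simpa using div_pos hc hn0))
    obtain ⟨k, hk, hk1, hk2⟩ := ((h3 hx).and_eventually (h5.and (eventually_gt_atTop 0))).exists
    set c := Nat.count (fun j => T^[j] x ∈ B') k with hcdef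
    have h6 := hchain (c / (n + 1)) k hk (Nat.div_mul_le_self _ _)
    have h7 : (c : ℝ) < ((c / (n + 1) : ℕ) + 1) * (n + 1) := by
      have := Nat.lt_div_mul_add (a := c) (show 0 < n + 1 by omega)
      have h8 : (c : ℝ) < ((c / (n + 1) * (n + 1) + (n + 1) : ℕ) : ℝ) := by exact_mod_cast this
      push_cast at h8
      linarith
    have h9 : (c : ℝ) / (n + 1) < (c / (n + 1) : ℕ) + 1 := by rwa [div_lt_iff₀ hn0]
    have hk0 : (0 : ℝ) < k := by exact_mod_cast hk2
    have e : S k x / k + (c : ℝ) / k / (n + 1) - (M' + 1 : ℝ) / k =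
        (S k x + (c : ℝ) / (n + 1) - (M' + 1)) / k := by field_simp
    rw [e, lt_div_iff₀ hk0] at hk1
    linarith

end Pool.Agent.Lib.MP_7b5e47_an.Hn
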