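import Pool.Agent.Lib.MP_7b5e47_an.Hn.BAut
import Pool.Agent.Lib.MP_901be3_an.Hd.Kingman
import Pool.Agent.Lib.MP_901be3_an.Hd.ErgDec
import Pool.Agent.Lib.MP_901be3_an.Hd.Limit

namespace Pool.Agent.Lib.MP_7b5e47_an.Hn

open Filter Topology Set Metric MeasureTheory

/-! Ergodic measures on compact invariant sets and the top exponent. -/

variable {F : Pm} {a : ℂ}

/-- compact set invariant under `F` and `F⁻¹` -/
def CInv (F : Pm) (X : Set E) : Prop := IsCompact X ∧ (∀ x ∈ X, F x ∈ X) ∧ ∀ x ∈ X, F⁻¹ x ∈ X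

theorem CInv.zpow {X : Set E} (h : CInv F X) (n : ℤ) {x : E} (hx : x ∈ X) : (F ^ n) x ∈ X := by
  induction n using Int.induction_on with
  | zero => simpa using hx
  | succ k ih =>
    rw [add_comm, zpow_one_add, Equiv.Perm.mul_apply]
    exact h.2.1 _ ih
  | pred k ih =>
    rw [sub_eq_neg_add, zpow_add, zpow_neg_one, Equiv.Perm.mul_apply]
    exact h.2.2 _ ih

/-- the automorphism as a measurable equivalence -/
noncomputable def EErg_me (hA : Aut F a) : E ≃ᵐ E :=
  (Homeomorph.mk F hA.dF.continuous hA.dG.continuous).toMeasurableEquiv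

theorem EErg_push {X : Set E} (hX : IsCompact X) (κ : Measure X) :
    MeasurePreserving (Subtype.val : X → E) κ (κ.map Subtype.val) ∧
      κ.map (Subtype.val : X → E) Xᶜ = 0 := by
  refine ⟨⟨measurable_subtype_coe, rfl⟩, ?_⟩
  rw [Measure.map_apply measurable_subtype_coe hX.measurableSet.compl]
  simp

theorem mp_inv (hA : Aut F a) {ν : Measure E} (h : MeasurePreserving (⇑F) ν ν) :
    MeasurePreserving (⇑F⁻¹) ν ν := by
  exact MeasurePreserving.symm (EErg_me hA) h

/-- Ergodic decomposition in the form needed: pass to the compact subtype `X`, apply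
`MP_901be3_an.Hd.ergdec` with `B = univ`, and push the components forward by the inclusion. -/
theorem exists_ergodic_pos (hA : Aut F a) {X : Set E} (hX : CInv F X) {μ : Measure E}
    [IsFiniteMeasure μ] (hμ : MeasurePreserving (⇑F) μ μ) (hs : μ Xᶜ = 0) {Z : Set E}
    (hZ : MeasurableSet Z) (h0 : μ Z ≠ 0) : ∃ ν : Measure E, IsProbabilityMeasure ν ∧
      Ergodic (⇑F) ν ∧ ν Xᶜ = 0 ∧ ν Z ≠ 0 := by
  have := isCompact_iff_compactSpace.1 hX.1
  have hm := hX.1.measurableSet
  have hF := hA.dF.continuous.measurable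
  let f : X → X := fun x => ⟨F x, hX.2.1 x x.2⟩
  have hf : Measurable f := (hF.comp measurable_subtype_coe).subtype_mk
  have hp : MeasurePreserving (Subtype.val : X → E) (μ.comap Subtype.val) μ := by
    have h1 := measurePreserving_subtype_coe (μa := μ) hm
    rwa [Measure.restrict_eq_self_of_ae_mem (mem_ae_iff.2 hs)] at h1
  have he := MeasurableEmbedding.subtype_coe hm
  have hξ : MeasurePreserving f (μ.comap Subtype.val) (μ.comap Subtype.val) := by
    refine ⟨hf, Measure.ext fun s hs => ?_⟩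
    have h1 := he.measurableSet_image.2 hs
    have h2 : f ⁻¹' s = Subtype.val ⁻¹' (F ⁻¹' (Subtype.val '' s)) := by
      ext x
      exact (Subtype.val_injective.mem_set_image (a := f x)).symm
    rw [Measure.map_apply hf hs, h2, hp.measure_preimage (hF h1).nullMeasurableSet,
      hμ.measure_preimage h1.nullMeasurableSet, he.comap_apply]
  obtain ⟨κ, h1, h2, -, h4⟩ := MP_901be3_an.Hd.ergdec hξ
  have hZ' : MeasurableSet (Subtype.val ⁻¹' Z : Set X) := measurable_subtype_coe hZ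
  have h5 := h4 univ MeasurableSet.univ _ hZ'
  rw [univ_inter, hp.measure_preimage hZ.nullMeasurableSet, Measure.restrict_univ] at h5
  by_contra hc
  refine h0 (h5.trans ?_)
  rw [lintegral_congr_ae (g := fun _ => 0), lintegral_zero]
  filter_upwards [h2] with x hx
  by_contra h6
  have := h1 x
  obtain ⟨h7, h8⟩ := EErg_push hX.1 (κ x)
  refine hc ⟨(κ x).map Subtype.val, Measure.isProbabilityMeasure_map h7.aemeasurable,
    h7.ergodic_of_ergodic_semiconj hx hF fun _ => rfl, h8, ?_⟩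
  rwa [Measure.map_apply measurable_subtype_coe hZ]

theorem EErg_kb {X : Type*} [MetricSpace X] [CompactSpace X] [MeasurableSpace X] [BorelSpace X]
    {f : X → X} (hf : Continuous f) (x : X) :
    ∃ ν : Measure X, IsProbabilityMeasure ν ∧ MeasurePreserving f ν ν := by
  let μ : ℕ → Measure X := fun n =>
    ((n + 1 : ℕ) : ENNReal)⁻¹ • ∑ i ∈ Finset.range (n + 1), Measure.dirac (f^[i] x)
  have h1 : ∀ n, μ n univ ≤ 1 := fun n => by
    simp only [μ, Measure.smul_apply, Measure.coe_finsetSum, Finset.sum_apply, measure_univ,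
      Finset.sum_const, Finset.card_range, nsmul_eq_mul, mul_one, smul_eq_mul]
    exact ENNReal.inv_mul_le_one _
  have h2 : ∀ φ : X → ℝ, Continuous φ → ∀ n, ∫ y, φ y ∂μ n =
      (∑ i ∈ Finset.range (n + 1), φ (f^[i] x)) / ((n + 1 : ℕ) : ℝ) := fun φ hφ n => by
    simp only [μ]
    rw [integral_smul_measure, integral_finsetSum_measure
      fun i _ => MP_901be3_an.Hd.LimitAux.integ _ hφ]
    simp only [integral_dirac, ENNReal.toReal_inv, ENNReal.toReal_natCast, smul_eq_mul]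
    rw [div_eq_inv_mul]
  obtain ⟨ν, hν, hl⟩ := MP_901be3_an.Hd.LimitAux.exists_lim (hyperfilter ℕ) μ h1
  have := MP_901be3_an.Hd.LimitAux.fin_of_le hν
  refine ⟨ν, ?_, hf.measurable, ext_of_forall_integral_eq_of_IsFiniteMeasure fun φ => ?_⟩
  · have h3 := hl (fun _ => 1) continuous_const
    have h4 : (fun n => ∫ _, (1 : ℝ) ∂μ n) = fun _ => 1 := funext fun n => by
      rw [h2 _ continuous_const, Finset.sum_const, Finset.card_range, nsmul_eq_mul, mul_one,
        div_self (by positivity)]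
    rw [h4] at h3
    have h5 := tendsto_nhds_unique h3 tendsto_const_nhds
    rw [integral_const, smul_eq_mul, mul_one] at h5
    exact isProbabilityMeasure_iff_real.2 h5
  · rw [integral_map hf.aemeasurable φ.continuous.aestronglyMeasurable, ← sub_eq_zero]
    refine tendsto_nhds_unique ((hl _ (φ.continuous.comp hf)).sub (hl φ φ.continuous)) ?_
    refine Tendsto.mono_left ?_ Nat.hyperfilter_le_atTop
    have h3 : Tendsto (fun n : ℕ => 2 * ‖φ‖ / ((n + 1 : ℕ) : ℝ)) atTop (𝓝 0) :=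
      (tendsto_const_div_atTop_nhds_zero_nat (2 * ‖φ‖)).comp (tendsto_add_atTop_nat 1)
    refine squeeze_zero_norm (fun n => ?_) h3
    rw [h2 _ (φ.continuous.comp hf), h2 _ φ.continuous, ← sub_div, ← Finset.sum_sub_distrib]
    have h4 := Finset.sum_range_sub (fun i => φ (f^[i] x)) (n + 1)
    simp only [Function.iterate_succ_apply'] at h4
    simp only [Function.comp_apply]
    rw [h4, norm_div, Real.norm_natCast]
    gcongr
    exact (norm_sub_le _ _).trans (by
      linarith [φ.norm_coe_le_norm (f (f^[n] x)), φ.norm_coe_le_norm (f^[0] x)])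

/-- Krylov-Bogolyubov on the subtype (`MP_901be3_an.Hd.Limit.exists_lim` for the empirical
measures of an orbit), then `exists_ergodic_pos` with `Z = univ`. -/
theorem exists_ergodic (hA : Aut F a) {X : Set E} (hX : CInv F X) (hne : X.Nonempty) :
    ∃ ν : Measure E, IsProbabilityMeasure ν ∧ Ergodic (⇑F) ν ∧ ν Xᶜ = 0 := by
  have := isCompact_iff_compactSpace.1 hX.1
  obtain ⟨x, hx⟩ := hne
  let f : X → X := fun x => ⟨F x, hX.2.1 x x.2⟩
  have hf : Continuous f := (hA.dF.continuous.comp continuous_subtype_val).subtype_mk _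
  obtain ⟨κ, h1, h2⟩ := EErg_kb hf ⟨x, hx⟩
  obtain ⟨h3, h4⟩ := EErg_push hX.1 κ
  have := Measure.isProbabilityMeasure_map h3.aemeasurable
  obtain ⟨ν, h5, h6, h7, -⟩ := exists_ergodic_pos hA hX
    (h3.of_semiconj h2 (fun _ => rfl) hA.dF.continuous.measurable) h4 MeasurableSet.univ (by simp)
  exact ⟨ν, h5, h6, h7⟩

theorem EErg_pos (hA : Aut F a) (n : ℕ) (x : E) : 0 < ‖fderiv ℂ (⇑(F ^ n)) x‖ := by
  have h1 := hA.norm_sq_ge n x
  rw [zpow_natCast, zpow_natCast] at h1
  have h2 := pow_pos (norm_pos_iff.2 hA.ne) n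
  refine (norm_nonneg _).lt_of_ne fun h => ?_
  rw [← h] at h1
  linarith

theorem EErg_sub (hA : Aut F a) (m n : ℕ) (x : E) :
    Real.log ‖fderiv ℂ (⇑(F ^ (m + n))) x‖ ≤
      Real.log ‖fderiv ℂ (⇑(F ^ m)) x‖ + Real.log ‖fderiv ℂ (⇑(F ^ n)) ((F ^ m) x)‖ := by
  rw [← Real.log_mul (EErg_pos hA _ _).ne' (EErg_pos hA _ _).ne']
  refine Real.log_le_log (EErg_pos hA _ _) ?_
  refine ContinuousLinearMap.opNorm_le_bound _ (by positivity) fun v => ?_
  rw [add_comm, hA.fderiv_nadd, mul_comm ‖fderiv ℂ (⇑(F ^ m)) x‖, mul_assoc]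
  exact (ContinuousLinearMap.le_opNorm _ _).trans
    (mul_le_mul_of_nonneg_left (ContinuousLinearMap.le_opNorm _ _) (norm_nonneg _))

theorem EErg_zero (x : E) : Real.log ‖fderiv ℂ (⇑(F ^ 0)) x‖ = 0 := by
  simp

theorem EErg_bd (hA : Aut F a) {X : Set E} (hX : CInv F X) :
    ∃ B : ℝ, 0 ≤ B ∧ ∀ n : ℕ, ∀ x ∈ X, |Real.log ‖fderiv ℂ (⇑(F ^ n)) x‖| ≤ B * n := by
  obtain ⟨C, hC⟩ := hX.1.exists_bound_of_continuousOn
    (continuous_fderiv_of_diff (hA.ndiff 1)).continuousOn
  have h2 := Real.log_nonneg (show (1 : ℝ) ≤ 2 by norm_num)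
  refine ⟨|Real.log C| + |Real.log ‖a‖| + Real.log 2, by positivity, fun n x hx => abs_le.2 ⟨?_, ?_⟩⟩
  · rcases Nat.eq_zero_or_pos n with rfl | hn
    · simp
    · have h1 := hA.norm_sq_ge n x
      rw [zpow_natCast, zpow_natCast] at h1
      have h3 := Real.log_le_log (pow_pos (norm_pos_iff.2 hA.ne) n) h1
      rw [Real.log_mul two_ne_zero (pow_pos (EErg_pos hA n x) 2).ne', Real.log_pow,
        Real.log_pow] at h3
      have h4 : (1 : ℝ) ≤ n := by exact_mod_cast hn
      have h5 := neg_abs_le (Real.log ‖a‖)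
      have h6 := abs_nonneg (Real.log ‖a‖)
      have h7 := abs_nonneg (Real.log C)
      rw [Nat.cast_ofNat] at h3
      nlinarith
  · have h1 : Real.log ‖fderiv ℂ (⇑(F ^ n)) x‖ ≤ |Real.log C| * n := by
      induction n with
      | zero => simp
      | succ n ih =>
        have h3 := EErg_sub hA n 1 x
        have h4 : (F ^ n) x ∈ X := by simpa using hX.zpow n hx
        have h5 := (Real.log_le_log (EErg_pos hA 1 _) (hC _ h4)).trans (le_abs_self _)
        rw [Nat.cast_succ]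
        linarith
    refine h1.trans (mul_le_mul_of_nonneg_right ?_ (Nat.cast_nonneg n))
    linarith [abs_nonneg (Real.log ‖a‖)]

theorem EErg_meas (hA : Aut F a) {X : Set E} (hX : CInv F X) (n : ℕ) :
    Measurable (X.indicator fun x => Real.log ‖fderiv ℂ (⇑(F ^ n)) x‖) :=
  (continuous_fderiv_of_diff (hA.ndiff n)).norm.measurable.log.indicator hX.1.measurableSet

theorem EErg_bd' (hA : Aut F a) {X : Set E} (hX : CInv F X) : ∃ B : ℝ, ∀ (n : ℕ) (x : E),
    |X.indicator (fun x => Real.log ‖fderiv ℂ (⇑(F ^ n)) x‖) x| ≤ B * n := by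
  obtain ⟨B, hB0, hB⟩ := EErg_bd hA hX
  refine ⟨B, fun n x => ?_⟩
  by_cases hx : x ∈ X
  · rw [indicator_of_mem hx]
    exact hB n x hx
  · rw [indicator_of_notMem hx, abs_zero]
    positivity

theorem EErg_king (hA : Aut F a) {X : Set E} (hX : CInv F X) {ν : Measure E}
    [IsProbabilityMeasure ν] (hν : Ergodic (⇑F) ν) (hs : ν Xᶜ = 0) : ∃ l : ℝ,
      Tendsto (fun n : ℕ =>
        (∫ x, X.indicator (fun x => Real.log ‖fderiv ℂ (⇑(F ^ n)) x‖) x ∂ν) / n) atTop (𝓝 l) ∧
      ∀ᵐ x ∂ν, Tendsto (fun n : ℕ => Real.log ‖fderiv ℂ (⇑(F ^ n)) x‖ / n) atTop (𝓝 l) := by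
  obtain ⟨B, hB⟩ := EErg_bd' hA hX
  obtain ⟨l, h1, h2⟩ := MP_901be3_an.Hd.kingman hν (EErg_meas hA hX) hB fun m n x => by
    rw [Equiv.Perm.iterate_eq_pow]
    by_cases hx : x ∈ X
    · have h4 : (F ^ m) x ∈ X := by simpa using hX.zpow m hx
      rw [indicator_of_mem hx, indicator_of_mem hx, indicator_of_mem h4]
      exact EErg_sub hA m n x
    · have h4 : (F ^ m) x ∉ X := fun h => hx (by simpa using hX.zpow (-(m : ℤ)) h)
      rw [indicator_of_notMem hx, indicator_of_notMem hx, indicator_of_notMem h4, add_zero]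
  refine ⟨l, h1, ?_⟩
  filter_upwards [h2, mem_ae_iff.2 hs] with x hx hx'
  simpa only [indicator_of_mem hx'] using hx

theorem EErg_cmp (hA : Aut F a) (n : ℕ) (x : E) :
    |Real.log ‖fderiv ℂ (⇑(F⁻¹ ^ n)) ((F ^ n) x)‖ + n * Real.log ‖a‖ -
      Real.log ‖fderiv ℂ (⇑(F ^ n)) x‖| ≤ Real.log 2 := by
  have h1 := hA.norm_inv_le n x
  have h2 := hA.norm_inv_le (-(n : ℤ)) ((F ^ n) x)
  have h3 : (F ^ (-(n : ℤ))) ((F ^ n) x) = x := by simp
  rw [h3, neg_neg] at h2
  simp only [zpow_neg, zpow_natCast, ← inv_pow F] at h1 h2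
  have p1 := EErg_pos hA n x
  have p2 := EErg_pos hA.inv n ((F ^ n) x)
  have p3 := pow_pos (norm_pos_iff.2 hA.ne) n
  have h4 := Real.log_le_log (by positivity) h1
  have h5 := Real.log_le_log (by positivity) h2
  rw [Real.log_mul (by positivity) (by positivity), Real.log_mul two_ne_zero (by positivity)]
    at h4 h5
  rw [Real.log_inv] at h5
  rw [Real.log_pow] at h4 h5
  exact abs_le.2 ⟨by linarith, by linarith⟩

/-- `MP_901be3_an.Hd.kingman` for `φ n = X.indicator (log ‖D(F^n)‖)` and for the inverse map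
(ergodic too); the two limits differ by `log ‖a‖` since `Aut.norm_inv_le` (used twice) gives
`|log ‖D(F^(-n))(F^n x)‖ + n log ‖a‖ - log ‖D(F^n) x‖| ≤ log 2`, and `ν` is invariant. -/
theorem exists_exponent (hA : Aut F a) {X : Set E} (hX : CInv F X) {ν : Measure E}
    [IsProbabilityMeasure ν] (hν : Ergodic (⇑F) ν) (hs : ν Xᶜ = 0) : ∃ χ : ℝ, ∀ᵐ x ∂ν,
      Tendsto (fun n : ℕ => Real.log ‖fderiv ℂ (⇑(F ^ n)) x‖ / n) atTop (𝓝 χ) ∧
      Tendsto (fun n : ℕ => Real.log ‖fderiv ℂ (⇑(F⁻¹ ^ n)) x‖ / n) atTop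
        (𝓝 (χ - Real.log ‖a‖)) := by
  have hX' : CInv F⁻¹ X := ⟨hX.1, hX.2.2, by rw [inv_inv]; exact hX.2.1⟩
  obtain ⟨l, h1, h2⟩ := EErg_king hA hX hν hs
  obtain ⟨l', h1', h2'⟩ := EErg_king hA.inv hX' (Ergodic.symm (e := EErg_me hA) hν) hs
  obtain ⟨B, hB⟩ := EErg_bd' hA hX
  obtain ⟨B', hB'⟩ := EErg_bd' hA.inv hX'
  have key : ∀ n : ℕ,
      ‖∫ x, X.indicator (fun x => Real.log ‖fderiv ℂ (⇑(F⁻¹ ^ n)) x‖) x ∂ν + n * Real.log ‖a‖ -
        ∫ x, X.indicator (fun x => Real.log ‖fderiv ℂ (⇑(F ^ n)) x‖) x ∂ν‖ ≤ Real.log 2 := by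
    intro n
    have hp := hν.toMeasurePreserving.iterate n
    rw [Equiv.Perm.iterate_eq_pow] at hp
    have m1 := EErg_meas hA hX n
    have m2 := EErg_meas hA.inv hX' n
    have i1 := MP_901be3_an.Hd.KingmanAux.Kingman_int (μ := ν) m1 (hB n)
    have i2 : Integrable (fun x => X.indicator
        (fun x => Real.log ‖fderiv ℂ (⇑(F⁻¹ ^ n)) x‖) ((F ^ n) x)) ν :=
      MP_901be3_an.Hd.KingmanAux.Kingman_int (μ := ν) (m2.comp hp.measurable) fun x => hB' n _
    have i3 : Integrable (fun x => X.indicator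
        (fun x => Real.log ‖fderiv ℂ (⇑(F⁻¹ ^ n)) x‖) ((F ^ n) x) + n * Real.log ‖a‖) ν :=
      i2.add (integrable_const _)
    have e := integral_map hp.aemeasurable (m2.aestronglyMeasurable (μ := ν.map ⇑(F ^ n)))
    rw [hp.map_eq] at e
    have e2 : (n : ℝ) * Real.log ‖a‖ = ∫ _, (n : ℝ) * Real.log ‖a‖ ∂ν := by simp
    rw [e, e2, ← integral_add i2 (integrable_const _),
      ← integral_sub i3 i1]
    refine (norm_integral_le_of_norm_le_const (C := Real.log 2) ?_).trans (by simp)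
    filter_upwards [mem_ae_iff.2 hs] with x hx
    have h4 : (F ^ n) x ∈ X := by simpa using hX.zpow n hx
    rw [indicator_of_mem hx, indicator_of_mem h4]
    exact EErg_cmp hA n x
  have e : l' + Real.log ‖a‖ - l = 0 := by
    refine tendsto_nhds_unique ((h1'.add tendsto_const_nhds).sub h1) ?_
    refine squeeze_zero_norm' ?_ (tendsto_const_div_atTop_nhds_zero_nat (Real.log 2))
    filter_upwards [eventually_gt_atTop 0] with n hn
    have hn' : (0 : ℝ) < n := by exact_mod_cast hn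
    have h3 := div_le_div_of_nonneg_right (key n) hn'.le
    rw [← Real.norm_of_nonneg hn'.le, ← norm_div, Real.norm_of_nonneg hn'.le, sub_div, add_div,
      mul_div_cancel_left₀ _ hn'.ne'] at h3
    exact h3
  refine ⟨l, ?_⟩
  filter_upwards [h2, h2'] with x hx hx'
  exact ⟨hx, by rwa [show l - Real.log ‖a‖ = l' by linarith]⟩

end Pool.Agent.Lib.MP_7b5e47_an.Hn
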