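import Pool.Agent.Lib.MP_7b5e47_an.Hn.BAut

namespace Pool.Agent.Lib.MP_7b5e47_an.Hn

open Filter Topology Set Metric MeasureTheory

theorem ETube_cauchy {f : ℂ → E} {ρ R : ℝ} (hρ : 0 < ρ) (hf : DifferentiableOn ℂ f (ball 0 ρ))
    (hb : ∀ ζ ∈ ball (0 : ℂ) ρ, ‖f ζ‖ ≤ R) :
    ∀ ζ ∈ ball (0 : ℂ) (ρ / 2), ‖deriv f ζ‖ ≤ R / (ρ / 4) := by
  intro ζ hζ
  have h1 : closedBall ζ (ρ / 4) ⊆ ball 0 ρ := fun w hw => by
    rw [mem_ball_zero_iff] at hζ ⊢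
    rw [mem_closedBall_iff_norm] at hw
    linarith [norm_le_norm_add_norm_sub' w ζ]
  refine Complex.norm_deriv_le_of_forall_mem_sphere_norm_le (by positivity)
    (DifferentiableOn.diffContOnCl ?_) fun t ht => hb t (h1 (sphere_subset_closedBall ht))
  rw [closure_ball ζ (by positivity)]
  exact hf.mono h1

theorem ETube_disc {ρ R : ℝ} (hρ : 0 < ρ) : ∃ C : ℝ, 1 ≤ C ∧ ∀ f : ℂ → E,
    DifferentiableOn ℂ f (ball 0 ρ) → (∀ ζ ∈ ball (0 : ℂ) ρ, ‖f ζ‖ ≤ R) →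
    ∀ ζ ∈ ball (0 : ℂ) (ρ / 4), ∀ ζ' ∈ ball (0 : ℂ) (ρ / 4), ‖deriv f ζ‖ ≤ C ∧
      ‖deriv f ζ' - deriv f ζ‖ ≤ C * ‖ζ' - ζ‖ ∧
      ‖f ζ' - f ζ - (ζ' - ζ) • deriv f ζ‖ ≤ C * ‖ζ' - ζ‖ ^ 2 := by
  refine ⟨max 1 (max (R / (ρ / 4)) (R / (ρ / 4) / (ρ / 2 / 4))), le_max_left _ _,
    fun f hf hb => ?_⟩
  set C := max 1 (max (R / (ρ / 4)) (R / (ρ / 4) / (ρ / 2 / 4))) with hC
  have hC0 : 0 ≤ C := zero_le_one.trans (le_max_left _ _)
  have h1 := ETube_cauchy hρ hf hb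
  have hd : DifferentiableOn ℂ (deriv f) (ball 0 ρ) := hf.deriv isOpen_ball
  have h2 := ETube_cauchy (half_pos hρ) (hd.mono (ball_subset_ball (by linarith))) h1
  have hs : ball (0 : ℂ) (ρ / 4) ⊆ ball 0 ρ := ball_subset_ball (by linarith)
  have h3 : ∀ ζ ∈ ball (0 : ℂ) (ρ / 4), ∀ ζ' ∈ ball (0 : ℂ) (ρ / 4),
      ‖deriv f ζ' - deriv f ζ‖ ≤ C * ‖ζ' - ζ‖ := fun ζ hζ ζ' hζ' =>
    (convex_ball (0 : ℂ) (ρ / 4)).norm_image_sub_le_of_norm_deriv_le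
      (fun x hx => hd.differentiableAt (isOpen_ball.mem_nhds (hs hx)))
      (fun x hx => (h2 x (ball_subset_ball (by linarith) hx)).trans
        ((le_max_right _ _).trans (le_max_right _ _))) hζ hζ'
  intro ζ hζ ζ' hζ'
  refine ⟨(h1 ζ (ball_subset_ball (by linarith) hζ)).trans
    ((le_max_left _ _).trans (le_max_right _ _)), h3 ζ hζ ζ' hζ', ?_⟩
  have h4 := ((convex_ball (0 : ℂ) (ρ / 4)).inter
    (convex_closedBall ζ ‖ζ' - ζ‖)).norm_image_sub_le_of_norm_hasDerivWithin_le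
    (f := fun x => f x - x • deriv f ζ) (f' := fun x => deriv f x - deriv f ζ)
    (C := C * ‖ζ' - ζ‖) (x := ζ) (y := ζ')
    (fun x hx => by
      have h5 : HasDerivAt f (deriv f x) x :=
        (hf.differentiableAt (isOpen_ball.mem_nhds (hs hx.1))).hasDerivAt
      have h6 : HasDerivAt (fun x : ℂ => x • deriv f ζ) (deriv f ζ) x := by
        simpa using (hasDerivAt_id x).smul_const (deriv f ζ)
      exact (h5.fun_sub h6).hasDerivWithinAt)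
    (fun x hx => (h3 ζ hζ x hx.1).trans
      (mul_le_mul_of_nonneg_left (mem_closedBall_iff_norm.1 hx.2) hC0))
    ⟨hζ, mem_closedBall_self (norm_nonneg _)⟩ ⟨hζ', mem_closedBall_iff_norm.2 le_rfl⟩
  have e : f ζ' - f ζ - (ζ' - ζ) • deriv f ζ =
      f ζ' - ζ' • deriv f ζ - (f ζ - ζ • deriv f ζ) := by
    rw [sub_smul]
    abel
  rw [e]
  exact h4.trans (le_of_eq (by ring))

theorem ETube_small {s K c : ℝ} (h0 : 0 < s) (h1 : s < 1) (hc : 0 < c) :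
    ∀ᶠ k : ℕ in atTop, K * s ^ k ≤ c := by
  have h := (tendsto_pow_atTop_nhds_zero_of_lt_one h0.le h1).const_mul K
  rw [mul_zero] at h
  exact (h.eventually (gt_mem_nhds hc)).mono fun k hk => hk.le

/-- the purely algebraic step -/
theorem ETube_alg {C s p α : ℝ} {v v' e' r : E} {t : ℂ} {n : E} (hC : 1 ≤ C) (hs : 0 < s)
    (hs1 : s ≤ 1) (hp : 0 < p) (hp1 : p ≤ 1) (hα1 : α ≤ 1)
    (hv : s * p ≤ ‖v‖) (hvC : ‖v‖ ≤ C) (hd : ‖det2 v e'‖ ≤ α * (2 * C * p ^ 8) + 2 * C ^ 2 * p ^ 12)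
    (he : e' = t • v + n) (ht : ‖t‖ ≤ C / s * p ^ 5) (hn : ‖n‖ * ‖v‖ ≤ ‖det2 v e'‖)
    (hv' : ‖v' - v‖ ≤ C * ‖t‖) (hr : ‖r‖ ≤ C * ‖t‖ ^ 2)
    (k2 : ((2 * C + 2 * C ^ 2) / s + C * (C / s) ^ 2) * p ≤ s ^ 6)
    (k3 : (2 * C ^ 2 + 2 * C ^ 2 * (C / s) ^ 2 + 2 * C * (C / s)) * p ≤ 2 * C * (s ^ 8 - α)) :
    ‖n - r‖ ≤ (s * p) ^ 6 ∧ ‖det2 v' (n - r)‖ ≤ 2 * C * (s * p) ^ 8 := by
  set T := C / s with hT
  have hT0 : 0 ≤ T := by positivity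
  have hpw : ∀ i j : ℕ, i ≤ j → p ^ j ≤ p ^ i := fun i j h => pow_le_pow_of_le_one hp.le hp1 h
  have ht2 : ‖t‖ ^ 2 ≤ T ^ 2 * p ^ 10 := by
    calc ‖t‖ ^ 2 ≤ (T * p ^ 5) ^ 2 := by gcongr
      _ = _ := by ring
  have hr2 : ‖r‖ ≤ C * (T ^ 2 * p ^ 10) := hr.trans (by gcongr)
  have hn2 : ‖n‖ ≤ (2 * C + 2 * C ^ 2) / s * p ^ 7 := by
    have h1 : ‖n‖ * (s * p) ≤ (2 * C + 2 * C ^ 2) * p ^ 8 := by
      calc ‖n‖ * (s * p) ≤ ‖n‖ * ‖v‖ := by gcongr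
        _ ≤ α * (2 * C * p ^ 8) + 2 * C ^ 2 * p ^ 12 := hn.trans hd
        _ ≤ 1 * (2 * C * p ^ 8) + 2 * C ^ 2 * p ^ 8 := by
          have := hpw 8 12 (by norm_num)
          gcongr ?_ * _ + _ * ?_
        _ = _ := by ring
    rw [div_mul_eq_mul_div, le_div_iff₀ hs]
    refine le_of_mul_le_mul_right ?_ hp
    calc ‖n‖ * s * p = ‖n‖ * (s * p) := by ring
      _ ≤ _ := h1
      _ = _ := by ring
  have h1 : ‖n - r‖ ≤ (s * p) ^ 6 := by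
    calc ‖n - r‖ ≤ ‖n‖ + ‖r‖ := norm_sub_le _ _
      _ ≤ (2 * C + 2 * C ^ 2) / s * p ^ 7 + C * (T ^ 2 * p ^ 7) := by
        refine add_le_add hn2 (hr2.trans ?_)
        have := hpw 7 10 (by norm_num)
        gcongr _ * (_ * ?_)
      _ = ((2 * C + 2 * C ^ 2) / s + C * T ^ 2) * p * p ^ 6 := by ring
      _ ≤ s ^ 6 * p ^ 6 := by gcongr
      _ = _ := by ring
  refine ⟨h1, ?_⟩
  have e : det2 v' (n - r) = det2 v e' - det2 v r + det2 (v' - v) (n - r) := by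
    rw [he]
    simp only [det2, Prod.fst_sub, Prod.snd_sub, Prod.fst_add, Prod.snd_add, Prod.smul_fst,
      Prod.smul_snd, smul_eq_mul]
    ring
  have h2 : ‖det2 v r‖ ≤ 2 * C ^ 2 * T ^ 2 * p ^ 9 := by
    calc ‖det2 v r‖ ≤ 2 * ‖v‖ * ‖r‖ := norm_det2_le _ _
      _ ≤ 2 * C * (C * (T ^ 2 * p ^ 9)) := by
        gcongr
        refine hr2.trans ?_
        have := hpw 9 10 (by norm_num)
        gcongr _ * (_ * ?_)
      _ = _ := by ring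
  have h3 : ‖det2 (v' - v) (n - r)‖ ≤ 2 * C * T * p ^ 9 := by
    have h4 : (s * p) ^ 6 ≤ p ^ 4 := by
      calc (s * p) ^ 6 ≤ (1 * p) ^ 6 := by gcongr
        _ = p ^ 6 := by ring
        _ ≤ _ := hpw 4 6 (by norm_num)
    calc ‖det2 (v' - v) (n - r)‖ ≤ 2 * ‖v' - v‖ * ‖n - r‖ := norm_det2_le _ _
      _ ≤ 2 * (C * (T * p ^ 5)) * p ^ 4 := by
        gcongr
        · exact hv'.trans (by gcongr)
        · exact h1.trans h4
      _ = _ := by ring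
  have h4 : 2 * C ^ 2 * p ^ 12 ≤ 2 * C ^ 2 * p ^ 9 := by
    have := hpw 9 12 (by norm_num)
    gcongr _ * ?_
  have h5 : (2 * C ^ 2 + 2 * C ^ 2 * T ^ 2 + 2 * C * T) * p * p ^ 8 ≤
      2 * C * (s ^ 8 - α) * p ^ 8 := by gcongr
  calc ‖det2 v' (n - r)‖ ≤ ‖det2 v e'‖ + ‖det2 v r‖ + ‖det2 (v' - v) (n - r)‖ := by
        rw [e]
        exact (norm_add_le _ _).trans (by gcongr; exact norm_sub_le _ _)
    _ ≤ α * (2 * C * p ^ 8) + (2 * C ^ 2 + 2 * C ^ 2 * T ^ 2 + 2 * C * T) * p * p ^ 8 := by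
        nlinarith
    _ ≤ α * (2 * C * p ^ 8) + 2 * C * (s ^ 8 - α) * p ^ 8 := by linarith
    _ = _ := by ring

theorem ETube_succ {F : Pm} {a : ℂ} (hA : Aut F a) {X : ℂ → E} {ζ : ℂ}
    (hX : DifferentiableAt ℂ X ζ) (k : ℕ) :
    deriv (fun t => (F ^ (k + 1)) (X t)) ζ =
      fderiv ℂ (⇑F) ((F ^ k) (X ζ)) (deriv (fun t => (F ^ k) (X t)) ζ) := by
  have h1 : DifferentiableAt ℂ (fun t => (F ^ k) (X t)) ζ := (hA.ndiff k _).comp ζ hX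
  have h2 := ((hA.dF ((F ^ k) (X ζ))).hasFDerivAt.comp_hasDerivAt ζ h1.hasDerivAt).deriv
  rw [← h2]
  congr 1
  ext1 t
  rw [pow_succ']
  rfl

theorem ETube_back {F : Pm} {a : ℂ} (hA : Aut F a) {X : ℂ → E} {ζ : ℂ} {R L : ℝ} (hL0 : 0 ≤ L)
    (hX : DifferentiableAt ℂ X ζ) (hb : ∀ k : ℕ, ‖(F ^ k) (X ζ)‖ ≤ R)
    (hL : ∀ z : E, ‖z‖ ≤ R → ‖fderiv ℂ (⇑F⁻¹) z‖ ≤ L) (j i : ℕ) :
    ‖deriv (fun t => (F ^ j) (X t)) ζ‖ ≤ L ^ i * ‖deriv (fun t => (F ^ (j + i)) (X t)) ζ‖ := by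
  induction i with
  | zero => simp
  | succ i ih =>
    refine ih.trans ?_
    have h1 : fderiv ℂ (⇑F⁻¹) (F ((F ^ (j + i)) (X ζ)))
        (deriv (fun t => (F ^ (j + i + 1)) (X t)) ζ) = deriv (fun t => (F ^ (j + i)) (X t)) ζ := by
      rw [ETube_succ hA hX, ← BAut_comp hA.dG hA.dF, inv_mul_cancel]
      simp
    have h2 : ‖F ((F ^ (j + i)) (X ζ))‖ ≤ R := by
      have := hb (j + i + 1)
      rwa [pow_succ'] at this
    rw [← h1, pow_succ L, mul_assoc]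
    gcongr
    exact (ContinuousLinearMap.le_opNorm _ _).trans
      (mul_le_mul_of_nonneg_right (hL _ h2) (norm_nonneg _))

/-- A disc with bounded iterates whose tangent vectors do not shrink exponentially has tubes in
`K⁺`. Write `X k = F^k ∘ X`. Cauchy estimates give `C` with `‖X k'‖, ‖X k''‖ ≤ C` on
`ball 0 (ρ/2)`, so `‖X j' ζ‖ ≥ τ/2` for `‖ζ‖ ≤ ρ₁` at the good times `j`, and
`‖X k' ζ‖ ≥ τ_k = (τ/2) L^(-η k)` for all large `k` (`L` bounds `D(F⁻¹)` on the ball of radius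
`R`). WLOG `‖a‖ < exp (-σ)` (make `σ` smaller); choose `η` with `L^(8 η) ≤ exp σ`. Let
`‖q - X m 0‖ < exp (-σ m)`. Induction on `k ≥ m`: `F^(k-m) q = X k ζ_k + e_k` with
`‖ζ_k‖ ≤ ∑_{m ≤ j < k} exp (-σ j / 2) ≤ ρ₁`, `‖det2 (X k' ζ_k) e_k‖ ≤ B exp (-σ k)` (`B = 2 C`) and
`‖e_k‖ ≤ exp (-3 σ k / 4)`. Step: `e' = F (X k ζ + e) - X (k+1) ζ = DF e + O(‖e‖^2)`,
`v = X (k+1)' ζ = DF (X k' ζ)`, `‖det2 v e'‖ ≤ ‖a‖ B exp (-σ k) + O(‖e‖^2)`; `exists_decomp` gives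
`e' = t • v + n`; put `ζ' = ζ + t`, `e_new = n + O(t^2)`, where
`‖t‖ ≤ C exp (-3 σ k / 4) / τ_{k+1} ≤ exp (-5 σ k / 9)` for large `k`. -/
theorem tube_Kp {F : Pm} {a : ℂ} (hA : Aut F a) (ha : ‖a‖ < 1) {X : ℂ → E} {ρ R τ : ℝ}
    (hρ : 0 < ρ) (hτ : 0 < τ) (hX : DifferentiableOn ℂ X (ball 0 ρ))
    (hb : ∀ k : ℕ, ∀ ζ ∈ ball (0 : ℂ) ρ, ‖(F ^ k) (X ζ)‖ ≤ R)
    (hg : ∀ η > 0, ∀ᶠ k : ℕ in atTop, ∃ j ≤ k, (k : ℝ) - η * k ≤ j ∧
      τ ≤ ‖deriv (fun t => (F ^ j) (X t)) 0‖) {σ : ℝ} (hσ : 0 < σ) :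
    ∀ᶠ m : ℕ in atTop, ball ((F ^ m) (X 0)) (Real.exp (-σ * m)) ⊆ Kp F := by
  obtain ⟨C₁, hC₁, hD⟩ := ETube_disc (R := R) hρ
  obtain ⟨C₂, hC₂, hF⟩ := exists_lip hA.dF (R + 1)
  obtain ⟨L, hL1, hL⟩ := exists_lip hA.dG R
  obtain ⟨C, hC, hC1, hC2⟩ : ∃ C : ℝ, 1 ≤ C ∧ C₁ ≤ C ∧ C₂ ≤ C :=
    ⟨max C₁ C₂, hC₁.trans (le_max_left _ _), le_max_left _ _, le_max_right _ _⟩
  obtain ⟨s, hs0, hs1, hsa, hsσ⟩ : ∃ s : ℝ, 0 < s ∧ s < 1 ∧ ‖a‖ < s ^ 8 ∧ Real.exp (-σ) ≤ s ^ 8 := by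
    have h1 : max ‖a‖ (Real.exp (-σ)) < 1 := max_lt ha (Real.exp_lt_one_iff.2 (by linarith))
    have h0 : 0 ≤ max ‖a‖ (Real.exp (-σ)) := (norm_nonneg _).trans (le_max_left _ _)
    set b := max ‖a‖ (Real.exp (-σ)) with hb'
    have h2 := one_add_mul_le_pow (a := -((1 - b) / 16)) (by linarith) 8
    have h3 : b < (1 + -((1 - b) / 16)) ^ 8 := by
      push_cast at h2
      linarith
    exact ⟨_, by linarith, by linarith, (le_max_left _ _).trans_lt h3,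
      (le_max_right _ _).trans h3.le⟩
  obtain ⟨ρ₁, hρ₁, hρ₂, hρ₃⟩ : ∃ ρ₁ : ℝ, 0 < ρ₁ ∧ ρ₁ < ρ / 4 ∧ C * ρ₁ ≤ τ / 2 := by
    refine ⟨min (ρ / 8) (τ / 2 / C), by positivity, (min_le_left _ _).trans_lt (by linarith), ?_⟩
    rw [← le_div_iff₀' (by positivity)]
    exact min_le_right _ _
  have hin : ∀ ζ : ℂ, ‖ζ‖ ≤ ρ₁ → ζ ∈ ball (0 : ℂ) (ρ / 4) := fun ζ h =>
    mem_ball_zero_iff.2 (h.trans_lt hρ₂)
  have hin' : ∀ ζ : ℂ, ‖ζ‖ ≤ ρ₁ → ζ ∈ ball (0 : ℂ) ρ := fun ζ h =>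
    mem_ball_zero_iff.2 (by linarith)
  have hXd : ∀ ζ : ℂ, ‖ζ‖ ≤ ρ₁ → DifferentiableAt ℂ X ζ := fun ζ h =>
    hX.differentiableAt (isOpen_ball.mem_nhds (hin' ζ h))
  have hY := fun k : ℕ => hD (fun t => (F ^ k) (X t))
    ((hA.ndiff k).comp_differentiableOn hX) (hb k)
  have hlow : ∀ᶠ k : ℕ in atTop, ∀ ζ : ℂ, ‖ζ‖ ≤ ρ₁ →
      s ^ k ≤ ‖deriv (fun t => (F ^ k) (X t)) ζ‖ := by
    have hls : Real.log s < 0 := Real.log_neg hs0 hs1
    have hlL : 0 ≤ Real.log L := Real.log_nonneg hL1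
    have hη : 0 < -Real.log s / (2 * (Real.log L + 1)) := div_pos (by linarith) (by positivity)
    filter_upwards [hg _ hη, ETube_small (K := 1) (Real.exp_pos (Real.log s / 2))
      (Real.exp_lt_one_iff.2 (by linarith)) (half_pos hτ)] with k hk hk2 ζ hζ
    obtain ⟨j, hj, hj2, hj3⟩ := hk
    obtain ⟨i, rfl⟩ := Nat.exists_eq_add_of_le hj
    have h1 := ETube_back hA (zero_le_one.trans hL1) (hXd ζ hζ) (fun k => hb k ζ (hin' ζ hζ))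
      (fun z hz => (hL z z hz hz).2.1) j i
    have h2 := (hY j 0 (hin 0 (by simpa using hρ₁.le)) ζ (hin ζ hζ)).2.1
    rw [sub_zero] at h2
    have h3 : τ / 2 ≤ ‖deriv (fun t => (F ^ j) (X t)) ζ‖ := by
      have h4 : C₁ * ‖ζ‖ ≤ C * ρ₁ := by gcongr
      have h5 := norm_sub_norm_le (deriv (fun t => (F ^ j) (X t)) 0)
        (deriv (fun t => (F ^ j) (X t)) ζ)
      rw [norm_sub_rev] at h5
      linarith
    have h4 : L ^ i * s ^ (j + i) ≤ 1 * Real.exp (Real.log s / 2) ^ (j + i) := by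
      rw [one_mul, ← Real.exp_nat_mul, ← Real.exp_log (show 0 < L ^ i * s ^ (j + i) by positivity),
        Real.exp_le_exp, Real.log_mul (by positivity) (by positivity), Real.log_pow, Real.log_pow]
      set η := -Real.log s / (2 * (Real.log L + 1)) with hηd
      have h5 : η * (2 * (Real.log L + 1)) = -Real.log s := div_mul_cancel₀ _ (by positivity)
      have h6 : (i : ℝ) ≤ η * ((j + i : ℕ) : ℝ) := by
        push_cast at hj2 ⊢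
        linarith
      have h7 : (0 : ℝ) ≤ ((j + i : ℕ) : ℝ) := Nat.cast_nonneg _
      have h8 : (i : ℝ) * Real.log L ≤ η * ((j + i : ℕ) : ℝ) * (Real.log L + 1) := by
        calc (i : ℝ) * Real.log L ≤ η * ((j + i : ℕ) : ℝ) * Real.log L := by gcongr
          _ ≤ _ := by gcongr; linarith
      nlinarith
    refine le_of_mul_le_mul_left ?_ (show 0 < L ^ i by positivity)
    linarith
  have k1 := ETube_small (K := C / s) hs0 hs1 (show 0 < ρ₁ * (1 - s) from mul_pos hρ₁ (by linarith))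
  have k2 := ETube_small (K := (2 * C + 2 * C ^ 2) / s + C * (C / s) ^ 2) hs0 hs1
    (show 0 < s ^ 6 by positivity)
  have k3 := ETube_small (K := 2 * C ^ 2 + 2 * C ^ 2 * (C / s) ^ 2 + 2 * C * (C / s)) hs0 hs1
    (show 0 < 2 * C * (s ^ 8 - ‖a‖) from mul_pos (by positivity) (by linarith))
  obtain ⟨m₀, hm₀⟩ := eventually_atTop.1 (hlow.and (k1.and (k2.and k3)))
  filter_upwards [eventually_ge_atTop m₀] with m hm q hq
  have hp1 : ∀ k : ℕ, s ^ k ≤ 1 := fun k => pow_le_one₀ hs0.le hs1.le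
  have main : ∀ n : ℕ, ∃ (ζ : ℂ) (e : E), (F ^ n) q = (F ^ (m + n)) (X ζ) + e ∧
      ‖ζ‖ ≤ ρ₁ * (1 - s ^ (m + n)) ∧ ‖e‖ ≤ (s ^ (m + n)) ^ 6 ∧
      ‖det2 (deriv (fun t => (F ^ (m + n)) (X t)) ζ) e‖ ≤ 2 * C * (s ^ (m + n)) ^ 8 := by
    intro n
    induction n with
    | zero =>
      have h1 : ‖q - (F ^ m) (X 0)‖ ≤ (s ^ m) ^ 8 := by
        rw [mem_ball_iff_norm] at hq
        refine hq.le.trans ?_
        rw [mul_comm, Real.exp_nat_mul, ← pow_mul, mul_comm, pow_mul]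
        gcongr
      refine ⟨0, q - (F ^ m) (X 0), by simp, ?_, h1.trans (pow_le_pow_of_le_one (by positivity)
        (hp1 m) (by norm_num)), (norm_det2_le _ _).trans ?_⟩
      · rw [norm_zero]
        exact mul_nonneg hρ₁.le (sub_nonneg.2 (hp1 _))
      · have h0 := hin 0 (by simpa using hρ₁.le)
        have h2 := (hY m 0 h0 0 h0).1.trans hC1
        rw [add_zero]
        gcongr
    | succ n ih =>
      obtain ⟨ζ, e, h1, h2, h3, h4⟩ := ih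
      obtain ⟨-, g1, g2, g3⟩ := hm₀ (m + n) (by omega)
      have g0 := (hm₀ (m + n + 1) (by omega)).1
      set k := m + n with hk
      set p := s ^ k with hp
      have hp0 : 0 < p := by positivity
      have hζ : ‖ζ‖ ≤ ρ₁ := h2.trans (by nlinarith)
      set y := (F ^ k) (X ζ) with hy
      set v := deriv (fun t => (F ^ (k + 1)) (X t)) ζ with hv
      have hv1 : s * p ≤ ‖v‖ := by
        have := g0 ζ hζ
        rwa [pow_succ'] at this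
      have hv0 : v ≠ 0 := norm_pos_iff.1 ((mul_pos hs0 hp0).trans_le hv1)
      have hyR : ‖y‖ ≤ R := hb k ζ (hin' ζ hζ)
      have he1 : ‖e‖ ≤ 1 := h3.trans (pow_le_one₀ hp0.le (hp1 k))
      obtain ⟨-, -, f1, -, f2⟩ := hF (y + e) y (by linarith [norm_add_le y e]) (by linarith)
      rw [add_sub_cancel_left] at f1 f2
      set e' := F (y + e) - F y with he'
      obtain ⟨t, nn, d1, d2, d3⟩ := exists_decomp hv0 e'
      have ht : ‖t‖ ≤ C / s * p ^ 5 := by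
        rw [div_mul_eq_mul_div, le_div_iff₀ hs0]
        refine le_of_mul_le_mul_right ?_ hp0
        calc ‖t‖ * s * p = ‖t‖ * (s * p) := by ring
          _ ≤ ‖t‖ * ‖v‖ := by gcongr
          _ ≤ C₂ * ‖e‖ := d2.trans f1
          _ ≤ C * p ^ 6 := by gcongr
          _ = _ := by ring
      have hζ' : ‖ζ + t‖ ≤ ρ₁ * (1 - s ^ (k + 1)) := by
        have h5 : C / s * p ^ 5 ≤ ρ₁ * (1 - s) * p := by
          calc C / s * p ^ 5 ≤ C / s * p ^ 2 := by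
                gcongr ?_ * ?_
                exact pow_le_pow_of_le_one hp0.le (hp1 k) (by norm_num)
            _ = C / s * p * p := by ring
            _ ≤ _ := by gcongr
        rw [pow_succ, ← hp]
        linarith [norm_add_le ζ t]
      have hζ1 : ‖ζ + t‖ ≤ ρ₁ := hζ'.trans (by nlinarith [pow_pos hs0 (k + 1)])
      obtain ⟨y1, y2, y3⟩ := hY (k + 1) ζ (hin ζ hζ) (ζ + t) (hin _ hζ1)
      rw [add_sub_cancel_left, ← hv] at y2 y3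
      rw [← hv] at y1
      have hd : ‖det2 v e'‖ ≤ ‖a‖ * (2 * C * p ^ 8) + 2 * C ^ 2 * p ^ 12 := by
        have e1 : det2 v e' = a * det2 (deriv (fun t => (F ^ k) (X t)) ζ) e +
            det2 v (e' - fderiv ℂ (⇑F) y e) := by
          rw [← hA.jac y, ← ETube_succ hA (hXd ζ hζ), ← hv]
          simp only [det2, Prod.fst_sub, Prod.snd_sub]
          ring
        rw [e1]
        refine (norm_add_le _ _).trans (add_le_add ?_ ((norm_det2_le _ _).trans ?_))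
        · rw [norm_mul]
          gcongr
        · calc 2 * ‖v‖ * ‖e' - fderiv ℂ (⇑F) y e‖ ≤ 2 * C * (C * (p ^ 6) ^ 2) := by
                gcongr
                · exact y1.trans hC1
                · exact f2.trans (by gcongr)
            _ = _ := by ring
      obtain ⟨z1, z2⟩ := ETube_alg hC hs0 hs1.le hp0 (hp1 k) ha.le hv1 (y1.trans hC1) hd d1 ht d3
        (y2.trans (by gcongr)) (y3.trans (by gcongr)) g2 g3
      rw [hp, ← pow_succ'] at z1 z2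
      refine ⟨ζ + t, _, ?_, hζ', z1, z2⟩
      have e2 : (F ^ (k + 1)) (X ζ) = F y := by
        rw [pow_succ']
        rfl
      have e3 : (F ^ (n + 1)) q = F (y + e) := by
        rw [pow_succ', Equiv.Perm.mul_apply, h1]
      have e4 : nn = F (y + e) - F y - t • v := by
        rw [← he', d1]
        abel
      rw [e3, ← add_assoc, ← hk, e2, e4]
      abel
  refine ⟨R + 1, fun n => ?_⟩
  obtain ⟨ζ, e, h1, h2, h3, -⟩ := main n
  have hζ : ‖ζ‖ ≤ ρ₁ := h2.trans (by nlinarith [pow_pos hs0 (m + n)])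
  have he1 : ‖e‖ ≤ 1 := h3.trans (pow_le_one₀ (by positivity) (hp1 _))
  rw [h1]
  linarith [norm_add_le ((F ^ (m + n)) (X ζ)) e, hb (m + n) ζ (hin' ζ hζ)]

end Pool.Agent.Lib.MP_7b5e47_an.Hn
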