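import Pool.Agent.Lib.MP_7b5e47_an.Hn.MBall

namespace Pool.Agent.Lib.MP_7b5e47_an.Hn

open Filter Topology Set Metric MeasureTheory

open Polynomial

variable {L : List (ℂˣ × ℂ[X])} {ρ : ℂ → ℝ} {μ : Measure E}

/-- Cauchy estimate for the graph -/
theorem MTube_cauchy {γ : ℂ → ℂ} (hγ : DifferentiableOn ℂ γ (ball 0 1))
    (hb : ∀ s ∈ ball (0 : ℂ) 1, ‖γ s‖ ≤ 1) {s : ℂ} (hs : ‖s‖ ≤ 3 / 4) : ‖deriv γ s‖ ≤ 8 := by
  have h1 : closedBall s (1 / 8) ⊆ ball 0 1 := fun z hz => by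
    rw [mem_closedBall, dist_eq_norm] at hz
    rw [mem_ball_zero_iff]
    linarith [norm_le_insert' z s]
  have h2 := Complex.norm_deriv_le_of_forall_mem_sphere_norm_le (by norm_num)
    (hγ.diffContOnCl_ball h1) fun z hz => hb z (h1 (sphere_subset_closedBall hz))
  norm_num at h2
  exact h2

theorem MTube_fst {Y : ℂ → E} {t : ℂ} (hY : DifferentiableAt ℂ Y t) :
    HasDerivAt (fun s => (Y s).1) (deriv Y t).1 t :=
  (ContinuousLinearMap.fst ℂ ℂ ℂ).hasFDerivAt.comp_hasDerivAt t hY.hasDerivAt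

theorem MTube_snd {Y : ℂ → E} {t : ℂ} (hY : DifferentiableAt ℂ Y t) :
    HasDerivAt (fun s => (Y s).2) (deriv Y t).2 t :=
  (ContinuousLinearMap.snd ℂ ℂ ℂ).hasFDerivAt.comp_hasDerivAt t hY.hasDerivAt

theorem MTube_sq (a b : ℂ) {ε : ℝ} (hε : 0 < ε) :
    ‖((a / ε, 2 * b) : E)‖ ^ 2 ≤ ‖a‖ ^ 2 / ε ^ 2 + 2 * ‖((a, 8 / 5 * b) : E)‖ ^ 2 := by
  have h1 : ‖(8 / 5 * b : ℂ)‖ ≤ ‖((a, 8 / 5 * b) : E)‖ := norm_snd_le ((a, 8 / 5 * b) : E)
  have h2 : ‖(8 / 5 * b : ℂ)‖ = 8 / 5 * ‖b‖ := by simp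
  have h3 : ‖(2 * b : ℂ)‖ = 2 * ‖b‖ := by simp
  have h4 : ‖(a / ε : ℂ)‖ = ‖a‖ / ε := by simp [abs_of_pos hε]
  rw [h2] at h1
  have h5 : (8 / 5 * ‖b‖) ^ 2 ≤ ‖((a, 8 / 5 * b) : E)‖ ^ 2 := by gcongr
  rw [Prod.norm_mk, h3, h4, ← div_pow]
  rcases le_total (‖a‖ / ε) (2 * ‖b‖) with h | h
  · rw [max_eq_right h]
    nlinarith [sq_nonneg (‖a‖ / ε), sq_nonneg ‖b‖]
  · rw [max_eq_left h]
    nlinarith [sq_nonneg ‖((a, 8 / 5 * b) : E)‖]

/-- the estimate on one curve -/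
theorem MTube_slice {θ : E → ℝ} (hθ : Tst2 θ) (hs : tsupport θ ⊆ closedBall 0 (5 / 4)) :
    ∃ C : ℝ, 0 ≤ C ∧ ∀ (γ : ℂ → ℂ) (ε B : ℝ) (Y : ℂ → E) (u : ℂ → ℝ) (T : Set ℂ),
      DifferentiableOn ℂ γ (ball 0 1) → (∀ s ∈ ball (0 : ℂ) 1, ‖γ s‖ ≤ 1) → 0 < ε → ε ≤ 1 / 2 →
      0 ≤ B → Differentiable ℂ Y → ContDiff ℝ 2 u → IsCompact T → (∀ t, ‖Y t‖ ≤ 3 → t ∈ T) →
      (∀ t, ‖(Y t).2‖ ≤ 3 / 4 → ‖(Y t).1 - γ (Y t).2‖ ≤ 2 * ε → |u t| ≤ B) →
      ∫ t, θ (((Y t).1 - γ (Y t).2) / ε, 2 * (Y t).2) * lap u t ≤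
        C * B * (1 - Real.log ε) * ∫ t in T, ‖deriv Y t‖ ^ 2 := by
  obtain ⟨C₁, hC₁, H₁⟩ := cut_curve hθ
  obtain ⟨C₂, hC₂, H₂⟩ := log_area
  refine ⟨C₁ * (C₂ + 2) * 81, by positivity,
    fun γ ε B Y u T hγ hb hε hε' hB hY hu hT hYT huB => ?_⟩
  have hl : 1 ≤ 1 - Real.log ε := by
    linarith [Real.log_nonpos hε.le (by linarith)]
  obtain ⟨V, hV⟩ : ∃ V : Set ℂ, V = {t | ‖(Y t).2‖ < 1} := ⟨_, rfl⟩
  have hVo : IsOpen V := hV ▸ isOpen_lt hY.continuous.snd.norm continuous_const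
  have hVm : ∀ t, t ∈ V ↔ ‖(Y t).2‖ < 1 := fun t => by rw [hV]; rfl
  obtain ⟨h, hh⟩ : ∃ h : ℂ → ℂ, h = fun t => (Y t).1 - γ (Y t).2 := ⟨_, rfl⟩
  have hhe : ∀ t, (Y t).1 - γ (Y t).2 = h t := fun t => by rw [hh]
  have hd : ∀ t ∈ V, HasDerivAt h ((deriv Y t).1 - deriv γ (Y t).2 * (deriv Y t).2) t :=
    fun t ht => by
      rw [hh]
      exact (MTube_fst (hY t)).sub ((hγ.differentiableAt (isOpen_ball.mem_nhds
        (mem_ball_zero_iff.2 ((hVm t).1 ht)))).hasDerivAt.comp t (MTube_snd (hY t)))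
  obtain ⟨Z, hZ⟩ : ∃ Z : ℂ → E, Z = fun t => (h t / ε, 2 * (Y t).2) := ⟨_, rfl⟩
  obtain ⟨W, hW⟩ : ∃ W : ℂ → E, W = fun t => (h t, 8 / 5 * (Y t).2) := ⟨_, rfl⟩
  have hZd : ∀ t ∈ V, HasDerivAt Z (((deriv Y t).1 - deriv γ (Y t).2 * (deriv Y t).2) / ε,
      2 * (deriv Y t).2) t := fun t ht => by
    rw [hZ]
    exact ((hd t ht).div_const _).prodMk ((MTube_snd (hY t)).const_mul _)
  have hWd : ∀ t ∈ V, HasDerivAt W ((deriv Y t).1 - deriv γ (Y t).2 * (deriv Y t).2,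
      8 / 5 * (deriv Y t).2) t := fun t ht => by
    rw [hW]
    exact (hd t ht).prodMk ((MTube_snd (hY t)).const_mul _)
  have hZV : DifferentiableOn ℂ Z V := fun t ht => (hZd t ht).differentiableAt.differentiableWithinAt
  have hWV : DifferentiableOn ℂ W V := fun t ht => (hWd t ht).differentiableAt.differentiableWithinAt
  obtain ⟨Q, hQ⟩ : ∃ Q : Set ℂ, Q = {t | ‖(Y t).2‖ ≤ 3 / 4} ∩ h ⁻¹' closedBall 0 (6 / 5) :=
    ⟨_, rfl⟩
  have hQm : ∀ t, t ∈ Q ↔ ‖(Y t).2‖ ≤ 3 / 4 ∧ ‖h t‖ ≤ 6 / 5 := fun t => by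
    rw [hQ]
    exact and_congr Iff.rfl mem_closedBall_zero_iff
  have hQV : Q ⊆ V := fun t ht => (hVm t).2 (by linarith [((hQm t).1 ht).1])
  have hQT : Q ⊆ T := fun t ht => hYT t (by
    obtain ⟨h1, h2⟩ := (hQm t).1 ht
    have h3 := hb (Y t).2 (mem_ball_zero_iff.2 (by linarith))
    rw [← hhe] at h2
    rw [Prod.norm_def]
    exact max_le (by linarith [norm_le_insert' (Y t).1 (γ (Y t).2)]) (by linarith))
  have hQc : IsCompact Q := hT.of_isClosed_subset (by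
    rw [hQ]
    refine ContinuousOn.preimage_isClosed_of_isClosed (fun t ht => ?_)
      (isClosed_le hY.continuous.snd.norm continuous_const) isClosed_closedBall
    exact (hd t ((hVm t).2 (lt_of_le_of_lt ht (by norm_num)))).continuousAt.continuousWithinAt) hQT
  have hsup : ∀ t, Z t ∈ tsupport θ → ‖h t‖ ≤ 5 / 4 * ε ∧ ‖(Y t).2‖ ≤ 5 / 8 := fun t ht => by
    have h1 := mem_closedBall_zero_iff.1 (hs ht)
    have h2 := (norm_fst_le _).trans h1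
    have h3 := (norm_snd_le _).trans h1
    rw [hZ] at h2 h3
    simp only [norm_div, Complex.norm_real, Real.norm_eq_abs, abs_of_pos hε, norm_mul,
      Complex.norm_ofNat] at h2 h3
    rw [div_le_iff₀ hε] at h2
    exact ⟨h2, by linarith⟩
  have k1 := H₁ V Q Z u B hVo hQc hQV hZV
    (fun t _ ht => (hQm t).2 ⟨by linarith [(hsup t ht).2], by linarith [(hsup t ht).1]⟩)
    hu.contDiffOn hB fun t _ ht => huB t (by linarith [(hsup t ht).2])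
      (by rw [hhe]; linarith [(hsup t ht).1])
  have k2 := H₂ V Q W ε hVo hQc hQV hWV (fun t _ ht => by
    have h2 := (norm_fst_le _).trans ht
    have h3 := (norm_snd_le _).trans ht
    rw [hW] at h2 h3
    simp only [norm_div, norm_mul, Complex.norm_ofNat] at h2 h3
    exact (hQm t).2 ⟨by linarith, h2⟩) hε hε'
  have k0 : ∀ t, t ∉ V → θ (Z t) * lap u t = 0 := fun t ht => by
    have h0 : θ (Z t) = 0 := image_eq_zero_of_notMem_tsupport fun h1 =>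
      ht ((hVm t).2 (by linarith [(hsup t h1).2]))
    rw [h0, zero_mul]
  rw [setIntegral_eq_integral_of_forall_compl_eq_zero k0] at k1
  obtain ⟨S, hS⟩ : ∃ S : Set ℂ, S = Q ∩ {t | ‖(W t).1‖ ≤ 2 * ε ∧ ‖(W t).2‖ ≤ 1} := ⟨_, rfl⟩
  rw [← hS] at k2
  have hSQ : S ⊆ Q := hS ▸ inter_subset_left
  have cZ : ContinuousOn (deriv Z) Q := (hZV.deriv hVo).continuousOn.mono hQV
  have cW : ContinuousOn (deriv W) Q := (hWV.deriv hVo).continuousOn.mono hQV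
  have iZ : IntegrableOn (fun t => ‖deriv Z t‖ ^ 2) Q := (cZ.norm.pow 2).integrableOn_compact hQc
  have iW : IntegrableOn (fun t => ‖deriv W t‖ ^ 2) Q := (cW.norm.pow 2).integrableOn_compact hQc
  have iW1 : IntegrableOn (fun t => ‖(deriv W t).1‖ ^ 2 / ε ^ 2) Q :=
    ((cW.fst.norm.pow 2).div_const _).integrableOn_compact hQc
  have iY : IntegrableOn (fun t => ‖deriv Y t‖ ^ 2) T :=
    (hY.deriv.continuous.norm.pow 2).continuousOn.integrableOn_compact hT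
  have k3 : ∫ t in Q ∩ {t | Z t ∈ tsupport θ}, ‖deriv Z t‖ ^ 2 ≤ ∫ t in S, ‖deriv Z t‖ ^ 2 := by
    refine setIntegral_mono_set (iZ.mono_set hSQ) (ae_of_all _ fun t => by positivity)
      (LE.le.eventuallyLE fun t ht => ?_)
    rw [hS, hW]
    refine ⟨ht.1, ?_, ?_⟩
    · linarith [(hsup t ht.2).1]
    · simp only [norm_div, norm_mul, Complex.norm_ofNat]
      linarith [(hsup t ht.2).2]
  have k4 : ∫ t in S, ‖deriv Z t‖ ^ 2 ≤
      ∫ t in S, (‖(deriv W t).1‖ ^ 2 / ε ^ 2 + 2 * ‖deriv W t‖ ^ 2) := by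
    refine setIntegral_mono_ae_restrict (iZ.mono_set hSQ)
      ((iW1.mono_set hSQ).add ((iW.mono_set hSQ).const_mul 2))
      (ae_restrict_of_ae_restrict_of_subset hSQ
        (ae_restrict_of_forall_mem hQc.measurableSet fun t ht => ?_))
    show ‖deriv Z t‖ ^ 2 ≤ ‖(deriv W t).1‖ ^ 2 / ε ^ 2 + 2 * ‖deriv W t‖ ^ 2
    rw [(hZd t (hQV ht)).deriv, (hWd t (hQV ht)).deriv]
    exact MTube_sq _ _ hε
  rw [integral_add (iW1.mono_set hSQ) ((iW.mono_set hSQ).const_mul 2), integral_const_mul] at k4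
  have k5 : ∫ t in S, ‖deriv W t‖ ^ 2 ≤ ∫ t in Q, ‖deriv W t‖ ^ 2 :=
    setIntegral_mono_set iW (ae_of_all _ fun t => by positivity) hSQ.eventuallyLE
  have k6 : ∫ t in Q, ‖deriv W t‖ ^ 2 ≤ ∫ t in Q, 81 * ‖deriv Y t‖ ^ 2 := by
    refine setIntegral_mono_on iW ((iY.mono_set hQT).const_mul 81) hQc.measurableSet fun t ht => ?_
    have h1 := MTube_cauchy hγ hb ((hQm t).1 ht).1
    have h2 := norm_fst_le (deriv Y t)
    have h3 := norm_snd_le (deriv Y t)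
    have h4 : ‖deriv W t‖ ≤ 9 * ‖deriv Y t‖ := by
      rw [(hWd t (hQV ht)).deriv, Prod.norm_mk]
      refine max_le ((norm_sub_le _ _).trans ?_) ?_
      · rw [norm_mul]
        linarith [mul_le_mul h1 h3 (norm_nonneg _) (by norm_num)]
      · simp only [norm_div, norm_mul, Complex.norm_ofNat]
        linarith [norm_nonneg (deriv Y t)]
    calc ‖deriv W t‖ ^ 2 ≤ (9 * ‖deriv Y t‖) ^ 2 := by gcongr
      _ = _ := by ring
  rw [integral_const_mul] at k6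
  have k7 : ∫ t in Q, ‖deriv Y t‖ ^ 2 ≤ ∫ t in T, ‖deriv Y t‖ ^ 2 :=
    setIntegral_mono_set iY (ae_of_all _ fun t => by positivity) hQT.eventuallyLE
  have k8 : 0 ≤ ∫ t in Q, ‖deriv W t‖ ^ 2 := integral_nonneg fun t => by positivity
  have k9 : ∫ t in Q ∩ {t | Z t ∈ tsupport θ}, ‖deriv Z t‖ ^ 2 ≤
      (C₂ + 2) * (1 - Real.log ε) * (81 * ∫ t in T, ‖deriv Y t‖ ^ 2) := by
    refine le_trans ?_ (mul_le_mul_of_nonneg_left (k6.trans (by linarith)) (by positivity))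
    nlinarith [mul_le_mul_of_nonneg_right hl k8]
  simp only [hhe]
  rw [hZ] at k1
  refine k1.trans ?_
  rw [← hZ]
  calc _ ≤ C₁ * B * ((C₂ + 2) * (1 - Real.log ε) * (81 * ∫ t in T, ‖deriv Y t‖ ^ 2)) :=
        mul_le_mul_of_nonneg_left k9 (by positivity)
    _ = _ := by ring

theorem MTube_cont {θ : E → ℝ} (hθ : Tst2 θ) (hs : tsupport θ ⊆ closedBall 0 (5 / 4))
    {γ : ℂ → ℂ} (hγ : DifferentiableOn ℂ γ (ball 0 1)) (ε : ℝ) :
    Continuous fun z : E => θ ((z.1 - γ z.2) / ε, 2 * z.2) := by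
  refine continuous_iff_continuousAt.2 fun z => ?_
  rcases lt_or_ge ‖z.2‖ 1 with h | h
  · have h1 : ContinuousAt γ z.2 :=
      hγ.continuousOn.continuousAt (isOpen_ball.mem_nhds (mem_ball_zero_iff.2 h))
    exact hθ.1.continuous.continuousAt.comp
      (((continuousAt_fst.sub (h1.comp continuousAt_snd)).div_const _).prodMk
        (continuousAt_const.mul continuousAt_snd))
  · refine (continuousAt_const (y := (0 : ℝ))).congr ?_
    filter_upwards [continuous_snd.norm.continuousAt.eventually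
      (lt_mem_nhds (lt_of_lt_of_le (by norm_num : (5 / 8 : ℝ) < 1) h))] with w hw
    refine (image_eq_zero_of_notMem_tsupport fun h1 => ?_).symm
    have h2 := (norm_snd_le _).trans (mem_closedBall_zero_iff.1 (hs h1))
    simp only [norm_mul, Complex.norm_ofNat] at h2
    linarith

theorem MTube_lin (A : Ch) (hA : A.det ≠ 0) : ∃ K : ℝ, 0 ≤ K ∧ ∀ (X : ℂ → E) (t : ℂ),
    DifferentiableAt ℂ X t → ‖deriv (fun s => A.pm⁻¹ (X s)) t‖ ≤ K * ‖deriv X t‖ := by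
  refine ⟨2 * (‖A.U‖ + ‖A.S‖) / ‖A.det‖, by positivity, fun X t hX => ?_⟩
  have h1 : HasDerivAt (fun s => A.pm⁻¹ (X s)) (fderiv ℂ (⇑A.pm⁻¹) (X t) (deriv X t)) t :=
    (A.diff_inv _).hasFDerivAt.comp_hasDerivAt t hX.hasDerivAt
  have h2 := norm_pos_iff.2 hA
  rw [h1.deriv, Ch.fderiv_inv hA, Prod.norm_mk, norm_div, norm_div, div_mul_eq_mul_div]
  refine max_le (div_le_div_of_nonneg_right ((norm_det2_le _ _).trans ?_) h2.le)
    (div_le_div_of_nonneg_right ((norm_det2_le _ _).trans ?_) h2.le)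
  · nlinarith [mul_nonneg (norm_nonneg A.U) (norm_nonneg (deriv X t))]
  · nlinarith [mul_nonneg (norm_nonneg A.S) (norm_nonneg (deriv X t))]

/-- Write `(u, s) = A⁻¹ q`, `h = u - γ s` on the open set `O = {‖s‖ < 1}`. Let `θ₀` be given by
`exists_cut2 1 (5/4)` and `θ = θ₀ (h / ε, 2 s)`, continuous on `E`. On a slice `F^m (t, c)` use
`MTube_slice` (`cut_curve` and `log_area`), `slice_area`, `lpot_iter`; then `integral_om_le` and
`Dom`. -/
theorem tube_est (hL : IsHenon L) (hρ : Bump ρ) [IsFiniteMeasure μ]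
    (hD : Dom ρ (comp L) (deg L) μ) (A : Ch) (hA : A.det ≠ 0) : ∃ C : ℝ,
    ∀ (γ : ℂ → ℂ) (ε B : ℝ), DifferentiableOn ℂ γ (ball 0 1) →
      (∀ s ∈ ball (0 : ℂ) 1, ‖γ s‖ ≤ 1) → 0 < ε → ε ≤ 1 / 2 →
      (∀ z : E, ‖z.2‖ ≤ 3 / 4 → ‖z.1 - γ z.2‖ ≤ 2 * ε → green (comp L) (deg L) (A.pm z) ≤ B) →
      μ.real {q | ‖(A.pm⁻¹ q).2‖ ≤ 1 / 2 ∧ ‖(A.pm⁻¹ q).1 - γ (A.pm⁻¹ q).2‖ ≤ ε} ≤
        C * B * (1 - Real.log ε) := by
  obtain ⟨θ₀, hθ, h01, h1, hs⟩ := exists_cut2 one_pos (by norm_num : (1 : ℝ) < 5 / 4)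
  obtain ⟨C₁, hC₁, H₁⟩ := MTube_slice hθ hs
  obtain ⟨R₀, C₀, hF⟩ := flt_gen hL
  obtain ⟨R, hR⟩ := (isCompact_closedBall (0 : E) 3).exists_bound_of_continuousOn
    A.diff.continuous.continuousOn
  obtain ⟨K, hK, HK⟩ := MTube_lin A hA
  obtain ⟨C₂, hC₂, H₂⟩ := slice_area hL R
  obtain ⟨C₃, hC₃, H₃⟩ := lpot_iter hL hρ R
  have hd : (1 : ℝ) < deg L := hF.hd
  have hd0 : (0 : ℝ) < deg L := one_pos.trans hd
  obtain ⟨D, hD'⟩ : ∃ D : ℝ, D = C₁ * K ^ 2 * C₂ / (2 * Real.pi) := ⟨_, rfl⟩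
  have hD0 : 0 ≤ D := by rw [hD']; positivity
  refine ⟨D, fun γ ε B hγ hb hε hε' hG => ?_⟩
  have hl : 0 ≤ 1 - Real.log ε := by
    linarith [Real.log_nonpos hε.le (by linarith)]
  have hB : 0 ≤ B := (hF.green_nonneg _).trans (hG (γ 0, 0) (by norm_num) (by simp [hε.le]))
  obtain ⟨θ, hθe⟩ : ∃ θ : E → ℝ, θ = fun q =>
    θ₀ (((A.pm⁻¹ q).1 - γ (A.pm⁻¹ q).2) / ε, 2 * (A.pm⁻¹ q).2) := ⟨_, rfl⟩
  have hc : Continuous θ := hθe ▸ (MTube_cont hθ hs hγ ε).comp A.diff_inv.continuous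
  have hθ01 : ∀ q, 0 ≤ θ q ∧ θ q ≤ 1 := fun q => by rw [hθe]; exact h01 _
  have k1 : μ.real {q | ‖(A.pm⁻¹ q).2‖ ≤ 1 / 2 ∧ ‖(A.pm⁻¹ q).1 - γ (A.pm⁻¹ q).2‖ ≤ ε} ≤
      ∫ q, θ q ∂μ := by
    have h2 := mul_meas_ge_le_integral_of_nonneg (μ := μ) (f := θ) (ae_of_all _ fun q => (hθ01 q).1)
      (Integrable.of_bound hc.aestronglyMeasurable 1 (ae_of_all _ fun q => by
        rw [Real.norm_eq_abs, abs_of_nonneg (hθ01 q).1]; exact (hθ01 q).2)) 1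
    rw [one_mul] at h2
    refine (measureReal_mono fun q hq => ?_).trans h2
    rw [hθe]
    refine (h1 _ ?_).ge
    rw [Prod.norm_mk]
    simp only [norm_div, Complex.norm_real, Real.norm_eq_abs, abs_of_pos hε, norm_mul,
      Complex.norm_ofNat]
    exact max_le ((div_le_one hε).2 hq.2) (by linarith [hq.1])
  refine k1.trans (le_of_forall_pos_le_add fun δ hδ => hD θ _ hc ?_)
  filter_upwards [((tendsto_pow_atTop_atTop_of_one_lt hd).const_mul_atTop hδ).eventually_ge_atTop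
    (D * (1 - Real.log ε) * C₃)] with n hn m hm1 hm2
  refine integral_om_le hL hρ (3 * n) (g := fun q => θ ((comp L ^ m) q))
    (hc.comp (dif_pow hF.df m).continuous) fun c => ?_
  have hsl : ∀ k : ℕ, Differentiable ℂ fun t : ℂ => (comp L ^ k) (t, c) := fun k =>
    (dif_pow hF.df k).comp (differentiable_id.prodMk (differentiable_const c))
  obtain ⟨P, hP⟩ : ∃ P : ℂ → ℂ, P = fun t => ((comp L ^ (3 * n)) (t, c)).1 := ⟨_, rfl⟩
  have hPd : Differentiable ℂ P := hP ▸ (hsl _).fst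
  have hlp : ContDiff ℝ 2 (lpot ρ) := (contDiff_lpot hρ.1).of_le (by norm_cast)
  have hu : ContDiff ℝ 2 fun t => lpot ρ (P t) :=
    hlp.comp (hPd.contDiff.restrict_scalars ℝ)
  have hBn : 0 ≤ (deg L : ℝ) ^ (3 * n - m) * B + C₃ := by positivity
  have k2 := H₁ γ ε _ (fun t => A.pm⁻¹ ((comp L ^ m) (t, c))) (fun t => lpot ρ (P t)) _ hγ hb hε hε'
    hBn (A.diff_inv.comp (hsl m)) hu (H₂ m c).1 (fun t ht => by
      simpa using hR _ (mem_closedBall_zero_iff.2 ht)) (fun t ht1 ht2 => by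
      have h2 := hG _ ht1 ht2
      have h3 : ‖A.pm⁻¹ ((comp L ^ m) (t, c))‖ ≤ 3 := by
        have h4 := hb _ (mem_ball_zero_iff.2 (lt_of_le_of_lt ht1 (by norm_num)))
        have h5 := norm_le_insert' (A.pm⁻¹ ((comp L ^ m) (t, c))).1
          (γ (A.pm⁻¹ ((comp L ^ m) (t, c))).2)
        rw [Prod.norm_def]
        exact max_le (by linarith) (by linarith)
      have h4 := hR _ (mem_closedBall_zero_iff.2 h3)
      rw [show ∀ q, A.pm (A.pm⁻¹ q) = q from A.pm.apply_symm_apply] at h2 h4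
      have h5 := H₃ (3 * n - m) _ h4
      rw [← Equiv.Perm.mul_apply, ← pow_add, Nat.sub_add_cancel (by omega)] at h5
      rw [hP]
      exact h5.trans (by gcongr))
  have k3 : ∫ t in {t | ‖(comp L ^ m) (t, c)‖ ≤ R},
      ‖deriv (fun t => A.pm⁻¹ ((comp L ^ m) (t, c))) t‖ ^ 2 ≤ K ^ 2 * (C₂ * (deg L : ℝ) ^ m) := by
    refine le_trans ?_ (mul_le_mul_of_nonneg_left (H₂ m c).2 (by positivity))
    rw [← integral_const_mul]
    refine setIntegral_mono_on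
      (((A.diff_inv.comp (hsl m)).deriv.continuous.norm.pow 2).continuousOn.integrableOn_compact
        (H₂ m c).1)
      ((((hsl m).deriv.continuous.norm.pow 2).continuousOn.integrableOn_compact
        (H₂ m c).1).const_mul _) (H₂ m c).1.measurableSet fun t _ => ?_
    rw [← mul_pow]
    exact pow_le_pow_left₀ (norm_nonneg _) (HK _ t (hsl m t)) 2
  have k4 : ∫ t, θ ((comp L ^ m) (t, c)) * lap (fun t => lpot ρ (P t)) t =
      2 * Real.pi * ∫ t, θ ((comp L ^ m) (t, c)) * (‖deriv P t‖ ^ 2 * ρ (P t)) := by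
    rw [← integral_const_mul]
    refine integral_congr_ae (ae_of_all _ fun t => ?_)
    simp only
    rw [lap_comp (hPd.analyticAt t) hlp.contDiffAt, lap_lpot hρ.1]
    ring
  have k5 : ∫ t, θ ((comp L ^ m) (t, c)) * (‖deriv P t‖ ^ 2 * ρ (P t)) ≤
      D * (1 - Real.log ε) * (((deg L : ℝ) ^ (3 * n - m) * B + C₃) * (deg L : ℝ) ^ m) := by
    have h2 : 0 < 2 * Real.pi := by positivity
    refine le_of_mul_le_mul_left ?_ h2
    rw [← k4, hθe]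
    refine k2.trans ((mul_le_mul_of_nonneg_left k3 (by positivity)).trans_eq ?_)
    rw [hD']
    field_simp
  rw [hP] at k5
  refine k5.trans ?_
  have e1 : (deg L : ℝ) ^ (3 * n - m) * (deg L : ℝ) ^ m = (deg L : ℝ) ^ (3 * n) := by
    rw [← pow_add, Nat.sub_add_cancel (by omega)]
  have e2 : (deg L : ℝ) ^ n * (deg L : ℝ) ^ m ≤ (deg L : ℝ) ^ (3 * n) := by
    rw [← pow_add]
    exact pow_le_pow_right₀ hd.le (by omega)
  have e3 := mul_le_mul_of_nonneg_right hn (pow_pos hd0 m).le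
  have e4 := mul_le_mul_of_nonneg_left e2 hδ.le
  calc _ = D * B * (1 - Real.log ε) * ((deg L : ℝ) ^ (3 * n - m) * (deg L : ℝ) ^ m) +
        D * (1 - Real.log ε) * C₃ * (deg L : ℝ) ^ m := by ring
    _ ≤ _ := by
      rw [e1]
      linarith

end Pool.Agent.Lib.MP_7b5e47_an.Hn
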