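import Pool.Agent.Lib.MP_7b5e47_an.Hn.VEq
import Pool.Agent.Lib.MP_7b5e47_an.Hn.EErg

namespace Pool.Agent.Lib.MP_7b5e47_an.Hn

open Filter Topology Set Metric MeasureTheory

open Polynomial

variable {L : List (ℂˣ × ℂ[X])}

theorem VAct_vert {G : E → ℝ} (hG : Continuous G) {x : E} {r : ℝ}
    (hB : ∀ q ∈ ball x r, G q = 0 → ∀ᶠ y in 𝓝 q.2, G (q.1, y) = 0) {p : E} (hp : p ∈ ball x r)
    (h0 : G p = 0) : ∀ y ∈ ball x.2 r, G (p.1, y) = 0 := by
  have hp' : p.1 ∈ ball x.1 r ∧ p.2 ∈ ball x.2 r := by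
    rwa [← ball_prod_same x.1 x.2 r] at hp
  have hc : Continuous fun y : ℂ => G (p.1, y) := hG.comp (Continuous.prodMk_right p.1)
  have h1 := (convex_ball x.2 r).isPreconnected.subset_left_of_subset_union
    (u := interior {y | G (p.1, y) = 0}) (v := {y | G (p.1, y) ≠ 0}) isOpen_interior
    (isOpen_ne_fun hc continuous_const)
    (disjoint_left.2 fun y h1 h2 => h2 (interior_subset (s := {y | G (p.1, y) = 0}) h1))
    (fun y hy => ?_)
    ⟨p.2, hp'.2, mem_interior_iff_mem_nhds.2 (hB p hp h0)⟩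
  · exact fun y hy => interior_subset (s := {y | G (p.1, y) = 0}) (h1 hy)
  · by_cases h2 : G (p.1, y) = 0
    · refine Or.inl (mem_interior_iff_mem_nhds.2 (hB (p.1, y) ?_ h2))
      rw [← ball_prod_same x.1 x.2 r]
      exact ⟨hp'.1, hy⟩
    · exact Or.inr h2

theorem VAct_sw (F : Pm) (k : ℕ) : (sw * F * sw) ^ k = sw * F ^ k * sw := by
  have h : sw * sw = 1 := Equiv.ext fun z => rfl
  induction k with
  | zero => rw [pow_zero, pow_zero, mul_one, h]
  | succ k ih =>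
    rw [pow_succ, ih, pow_succ]
    simp only [mul_assoc]
    rw [← mul_assoc sw sw, h, one_mul]

theorem VAct_slice (hL : IsHenon L) {k : ℕ} (hk : 0 < k) (c : ℂ) : ∃ Q : ℂ[X],
    1 ≤ Q.natDegree ∧ ∀ y, (((comp L)⁻¹ ^ k) (c, y)).1 = Q.eval y := by
  obtain ⟨P, Q, h1, -, -, h2⟩ := slice_poly hL.revL k c
  refine ⟨Q, h2 hk, fun y => ?_⟩
  have h3 := h1 y
  rw [comp_revL, VAct_sw] at h3
  exact congrArg Prod.snd h3

theorem VAct_open {Q : ℂ[X]} (hQ : 1 ≤ Q.natDegree) (y : ℂ) :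
    𝓝 (Q.eval y) ≤ map (fun t => Q.eval t) (𝓝 y) := by
  have ha : AnalyticOnNhd ℂ (fun t => Q.eval t) univ :=
    fun t _ => Q.differentiable.analyticAt t
  refine ((ha y trivial).eventually_constant_or_nhds_le_map_nhds).resolve_left fun h => ?_
  have h1 := ha.eqOn_of_preconnected_of_eventuallyEq analyticOnNhd_const isPreconnected_univ
    (mem_univ y) h
  have h2 : Q = C (Q.eval y) := Polynomial.funext fun t => by
    rw [eval_C]
    exact h1 (mem_univ t)
  rw [h2, natDegree_C] at hQ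
  exact absurd hQ (by norm_num)

theorem VAct_int (hL : IsHenon L) {x : E} {r : ℝ}
    (hB : ∀ q ∈ ball x r, green (comp L)⁻¹ (deg L) q = 0 →
      ∀ᶠ y in 𝓝 q.2, green (comp L)⁻¹ (deg L) (q.1, y) = 0) {p : E} (hp : p ∈ ball x r)
    (h0 : green (comp L)⁻¹ (deg L) p = 0) {k : ℕ} (hk : 0 < k)
    (hr : ((comp L)⁻¹ ^ k) p ∈ ball x r) : p ∈ interior (Kp (comp L)⁻¹) := by
  obtain ⟨R, C₀, hF⟩ := flt_gen hL
  have hG := hF.symm.green_continuous
  have hpow := Gre_green_pow hF.symm k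
  have hd : (0 : ℝ) < (deg L : ℝ) ^ k := pow_pos (one_pos.trans hF.hd) k
  have hc : Continuous ⇑((comp L)⁻¹ ^ k) := (dif_pow hF.di k).continuous
  obtain ⟨Q, hQ, hQ'⟩ := VAct_slice hL hk p.1
  have h1 : ∀ᶠ y in 𝓝 p.2, ∀ y' ∈ ball x.2 r, green (comp L)⁻¹ (deg L) (Q.eval y, y') = 0 := by
    have h2 : ∀ᶠ y in 𝓝 p.2, ((comp L)⁻¹ ^ k) (p.1, y) ∈ ball x r :=
      (hc.comp (Continuous.prodMk_right p.1)).continuousAt.preimage_mem_nhds
        (isOpen_ball.mem_nhds hr)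
    filter_upwards [h2, hB p hp h0] with y h3 h4
    rw [← hQ']
    exact VAct_vert hG hB h3 (by rw [hpow, h4, mul_zero])
  have h2 : ∀ᶠ s in 𝓝 (((comp L)⁻¹ ^ k) p).1, ∀ y' ∈ ball x.2 r,
      green (comp L)⁻¹ (deg L) (s, y') = 0 := by
    rw [show (((comp L)⁻¹ ^ k) p).1 = Q.eval p.2 from hQ' p.2]
    exact VAct_open hQ p.2 h1
  have h3 : ∀ᶠ z in 𝓝 (((comp L)⁻¹ ^ k) p), green (comp L)⁻¹ (deg L) z = 0 := by
    filter_upwards [continuous_fst.continuousAt.eventually h2, isOpen_ball.mem_nhds hr]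
      with z h4 h5
    rw [← ball_prod_same x.1 x.2 r] at h5
    exact h4 z.2 h5.2
  refine mem_interior_iff_mem_nhds.2 ?_
  filter_upwards [hc.continuousAt.eventually h3] with z h4
  rw [hpow] at h4
  exact (hF.symm.halfG.zero_iff z).1 ((mul_eq_zero.1 h4).resolve_left hd.ne')

/-- Almost every point is a limit of vertically active points. It suffices to show that a ball
`B = ball q r` (a bidisc) without active points is null. If `x ∈ B` has `Gm x = 0`, then `Gm = 0`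
on the vertical disc through `x` (the zero set is open and closed in it). Let `x ∈ B ∩ K⁻` return
to `B` under `F⁻¹^k`, `k ≥ 1` (Poincare recurrence, `mp_inv`). The first coordinate of `F⁻¹^k`
along the vertical line is a non-constant polynomial (`slice_poly` for `revL L`, `comp_revL`), so
it is open (`AnalyticAt.eventually_constant_or_nhds_le_map_nhds`); hence `F⁻¹^k x`, and `x`, are
interior points of `K⁻`. -/
theorem ae_closure_act (hL : IsHenon L) {μ : Measure E} [IsFiniteMeasure μ]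
    (hμ : MeasurePreserving (⇑(comp L)) μ μ) (hs : μ {z | green (comp L)⁻¹ (deg L) z ≠ 0} = 0)
    (hi : μ (interior (Kp (comp L)⁻¹)) = 0) : ∀ᵐ x ∂μ, x ∈ closure
      {q : E | green (comp L)⁻¹ (deg L) q = 0 ∧
        ∃ᶠ y in 𝓝 q.2, green (comp L)⁻¹ (deg L) (q.1, y) ≠ 0} := by
  obtain ⟨a, ha⟩ := aut_comp L
  have hc := (mp_inv ha hμ).conservative
  refine measure_null_of_locally_null _ fun x hx => ?_
  obtain ⟨r, hr, hB⟩ := Metric.isOpen_iff.1 isClosed_closure.isOpen_compl x hx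
  refine ⟨ball x r, mem_nhdsWithin_of_mem_nhds (ball_mem_nhds x hr), ?_⟩
  rw [measure_eq_zero_iff_ae_notMem]
  filter_upwards [hc.ae_mem_imp_frequently_image_mem
    (measurableSet_ball (x := x) (ε := r)).nullMeasurableSet, measure_eq_zero_iff_ae_notMem.1 hs,
    measure_eq_zero_iff_ae_notMem.1 hi] with p h1 h2 h3 hp
  obtain ⟨k, h4, hk⟩ := ((h1 hp).and_eventually (eventually_gt_atTop 0)).exists
  rw [Equiv.Perm.iterate_eq_pow] at h4
  refine h3 (VAct_int hL (fun q hq h0 => ?_) hp (not_not.1 h2) hk h4)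
  by_contra h5
  exact hB hq (subset_closure ⟨h0, not_eventually.1 h5⟩)

theorem reach_ae (hL : IsHenon L) {μ : Measure E} [IsFiniteMeasure μ]
    (hμ : MeasurePreserving (⇑(comp L)) μ μ) (hs : μ {z | green (comp L)⁻¹ (deg L) z ≠ 0} = 0)
    (hi : μ (interior (Kp (comp L)⁻¹)) = 0) : ∀ᵐ x ∂μ, ∀ (X : ℂ → E) (ζ : ℂ) (ρ : ℝ), 0 < ρ →
      DifferentiableOn ℂ X (ball ζ ρ) → Act (green (comp L) (deg L)) X ζ → ∀ ε > 0,
        ∃ᶠ n : ℕ in atTop, ∃ t ∈ ball ζ ρ, ‖(comp L ^ n) (X t) - x‖ < ε := by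
  filter_upwards [ae_closure_act hL hμ hs hi] with x hx X ζ ρ hρ hX ha ε hε
  obtain ⟨q, hq, hd⟩ := Metric.mem_closure_iff.1 hx (ε / 2) (half_pos hε)
  refine (reach_act hL hq.1 hq.2 hρ hX ha (half_pos hε)).mono fun n ⟨t, ht, h1⟩ => ⟨t, ht, ?_⟩
  rw [← dist_eq_norm] at h1 ⊢
  linarith [dist_triangle_right ((comp L ^ n) (X t)) x q]

/-- the ball estimate with `B = 0` on small balls, and a countable cover -/
theorem interior_null {F : Pm} {d : ℝ} {Gp Gm : E → ℝ} (hp : HalfG F d Gp Gm) {μ : Measure E}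
    [IsFiniteMeasure μ] (hb : ∀ R : ℝ, ∃ C : ℝ, ∀ (x : E) (r B : ℝ), ‖x‖ ≤ R → 0 < r → r ≤ 1 →
      (∀ q ∈ closedBall x (2 * r), Gp q ≤ B) → μ.real (closedBall x r) ≤ C * B / r ^ 2) :
    μ (interior (Kp F)) = 0 := by
  refine measure_null_of_locally_null _ fun x hx => ?_
  obtain ⟨ε, hε, hB⟩ := Metric.isOpen_iff.1 isOpen_interior x hx
  obtain ⟨C, hC⟩ := hb ‖x‖
  have hr : 0 < min (ε / 3) 1 := lt_min (by positivity) one_pos
  refine ⟨closedBall x (min (ε / 3) 1), mem_nhdsWithin_of_mem_nhds (closedBall_mem_nhds x hr), ?_⟩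
  have h1 := hC x _ 0 le_rfl hr (min_le_right _ _) fun q hq =>
    ((hp.zero_iff q).2 (interior_subset (hB (closedBall_subset_ball
      (by linarith [min_le_left (ε / 3) 1]) hq)))).le
  rw [mul_zero, zero_div] at h1
  exact (measureReal_eq_zero_iff (measure_ne_top _ _)).1 (le_antisymm h1 measureReal_nonneg)

end Pool.Agent.Lib.MP_7b5e47_an.Hn
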