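import Pool.Agent.Lib.MP_7b5e47_an.Hn.MMu
import Pool.Agent.Lib.MP_7b5e47_an.Hn.MTube
import Pool.Agent.Lib.MP_7b5e47_an.Hn.VAct

namespace Pool.Agent.Lib.MP_7b5e47_an.Hn

open Filter Topology Set Metric MeasureTheory

theorem HSys_sw_sw (z : E) : sw (sw z) = z := rfl

theorem HSys_emb : MeasurableEmbedding (⇑sw) :=
  (MeasurableEquiv.prodComm : ℂ × ℂ ≃ᵐ ℂ × ℂ).measurableEmbedding

theorem HSys_map_map (μ : Measure E) : (μ.map sw).map sw = μ := by
  rw [Measure.map_map HSys_emb.measurable HSys_emb.measurable]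
  exact Measure.map_id

theorem HSys_mp (μ : Measure E) : MeasurePreserving (⇑sw) μ (μ.map sw) :=
  ⟨HSys_emb.measurable, rfl⟩

theorem HSys_mp' (μ : Measure E) : MeasurePreserving (⇑sw) (μ.map sw) μ :=
  ⟨HSys_emb.measurable, HSys_map_map μ⟩

theorem HSys_real (μ : Measure E) (s : Set E) : (μ.map sw).real s = μ.real (sw ⁻¹' s) := by
  rw [Measure.real, Measure.real, HSys_emb.map_apply]

theorem HSys_pow (F : Pm) (n : ℕ) : (sw * F * sw) ^ n = sw * F ^ n * sw := by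
  have h := conj_pow (a := sw) (b := F) (i := n)
  rwa [sw_inv] at h

theorem HSys_dist (z w : E) : dist (sw z) w = dist z (sw w) := by
  rw [dist_eq_norm, dist_eq_norm, ← norm_sw (z - sw w), ← sw_sub, HSys_sw_sw]

theorem HSys_ball {G : E → ℝ} {μ : Measure E}
    (h : ∀ R : ℝ, ∃ C : ℝ, ∀ (x : E) (r B : ℝ), ‖x‖ ≤ R → 0 < r → r ≤ 1 →
      (∀ q ∈ closedBall x (2 * r), G (sw q) ≤ B) →
        (μ.map sw).real (closedBall x r) ≤ C * B / r ^ 2) (R : ℝ) :
    ∃ C : ℝ, ∀ (x : E) (r B : ℝ), ‖x‖ ≤ R → 0 < r → r ≤ 1 →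
      (∀ q ∈ closedBall x (2 * r), G q ≤ B) → μ.real (closedBall x r) ≤ C * B / r ^ 2 := by
  obtain ⟨C, hC⟩ := h R
  refine ⟨C, fun x r B hx h0 h1 hB => ?_⟩
  have h2 := hC (sw x) r B (by rwa [norm_sw]) h0 h1 fun q hq =>
    hB _ (by rwa [mem_closedBall, HSys_dist])
  have h3 : sw ⁻¹' closedBall (sw x) r = closedBall x r := by
    ext q
    rw [mem_preimage, mem_closedBall, mem_closedBall, HSys_dist, HSys_sw_sw]
  rwa [HSys_real, h3] at h2

/-- conjugation by the exchange of coordinates: `sw` is an isometric involution; for `tube` use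
the chart `⟨sw A.c, sw A.U, sw A.S⟩`, whose `pm` is `sw * A.pm` -/
theorem HalfM.conj {F : Pm} {G : E → ℝ} {μ : Measure E}
    (h : HalfM (sw * F * sw) (fun z => G (sw z)) (μ.map sw)) : HalfM F G μ := by
  refine ⟨?_, ?_, HSys_ball h.ballE, fun A hA => ?_, ?_⟩
  · exact (HSys_mp' μ).comp (h.mp.comp (HSys_mp μ))
  · have h1 := h.supp
    rw [HSys_emb.map_apply] at h1
    exact h1
  · have hA' : (⟨sw A.c, sw A.U, sw A.S⟩ : Ch).det ≠ 0 := by
      have e : (⟨sw A.c, sw A.U, sw A.S⟩ : Ch).det = -A.det := by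
        simp only [Ch.det, det2, sw_apply]
        ring
      rw [e]
      exact neg_ne_zero.2 hA
    have hp : (⟨sw A.c, sw A.U, sw A.S⟩ : Ch).pm = sw * A.pm := by
      refine Equiv.ext fun z => ?_
      rw [Equiv.Perm.mul_apply, Ch.pm_apply hA', Ch.pm_apply hA]
      rfl
    obtain ⟨C, hC⟩ := h.tube _ hA'
    refine ⟨C, fun γ ε B h1 h2 h3 h4 h5 => ?_⟩
    have h6 := hC γ ε B h1 h2 h3 h4 fun z hz hz' => by
      rw [hp]
      exact h5 z hz hz'
    rw [HSys_real, hp, mul_inv_rev, sw_inv] at h6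
    exact h6
  · have h1 := h.reach
    rw [HSys_emb.ae_map_iff] at h1
    filter_upwards [h1] with x hx X ζ ρ hρ hX hact ε hε
    refine (hx (fun t => sw (X t)) ζ ρ hρ (differentiable_sw.comp_differentiableOn hX) hact ε
      hε).mono fun n hn => ?_
    obtain ⟨t, ht, h2⟩ := hn
    refine ⟨t, ht, ?_⟩
    rwa [HSys_pow, Equiv.Perm.mul_apply, Equiv.Perm.mul_apply, HSys_sw_sw, sw_sub, norm_sw] at h2

theorem HSys_half {L : List (ℂˣ × Polynomial ℂ)} (hL : IsHenon L) {ρ : ℂ → ℝ} (hρ : Bump ρ)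
    {μ : Measure E} [IsFiniteMeasure μ] (hμ : MeasurePreserving (⇑(comp L)) μ μ)
    (hp : μ {z | green (comp L) (deg L) z ≠ 0} = 0)
    (hm : μ {z | green (comp L)⁻¹ (deg L) z ≠ 0} = 0) (hD : Dom ρ (comp L) (deg L) μ)
    (hb : ∀ R : ℝ, ∃ C : ℝ, ∀ (x : E) (r B : ℝ), ‖x‖ ≤ R → 0 < r → r ≤ 1 →
      (∀ q ∈ closedBall x (2 * r), green (comp L)⁻¹ (deg L) q ≤ B) →
        μ.real (closedBall x r) ≤ C * B / r ^ 2) :
    HalfM (comp L) (green (comp L) (deg L)) μ := by
  obtain ⟨R, C, hF⟩ := flt_gen hL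
  exact ⟨hμ, hp, ball_est hL hρ hD, tube_est hL hρ hD,
    reach_ae hL hμ hm (interior_null hF.symm.halfG hb)⟩

/-- `aut_comp`, `flt_gen`, `Flt.halfG` (also for `Flt.symm`), `exists_bump`, `exists_mu`;
`ball_est`, `tube_est` for `L` and for `revL L` (`comp_revL`, `deg_revL`, `green_conj`);
`interior_null` for both, `reach_ae` for `L` and for `revL L`; `HalfM.conj`. It is convenient to
prove first, for any Henon list and `μ` as in `exists_mu`, the bound `ballE` for both directions. -/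
theorem exists_sys {L : List (ℂˣ × Polynomial ℂ)} (hL : IsHenon L) :
    ∃ (a : ℂ) (Gm : E → ℝ) (μ : Measure E),
      Sys (comp L) a (deg L) (green (comp L) (deg L)) Gm μ := by
  obtain ⟨a, ha⟩ := aut_comp L
  obtain ⟨R, C, hF⟩ := flt_gen hL
  obtain ⟨ρ, hρ⟩ := exists_bump
  obtain ⟨μ, hprob, hμ, hp, hm, hD, hD'⟩ := exists_mu hL hρ
  have : IsProbabilityMeasure (μ.map sw) :=
    Measure.isProbabilityMeasure_map HSys_emb.measurable.aemeasurable
  have e1 : green (comp (revL L)) (deg (revL L)) = fun z => green (comp L)⁻¹ (deg L) (sw z) := by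
    funext z
    rw [comp_revL, deg_revL, green_conj]
  have e2 : green (comp (revL L))⁻¹ (deg (revL L)) = fun z => green (comp L) (deg L) (sw z) := by
    funext z
    rw [comp_revL, deg_revL, mul_inv_rev, mul_inv_rev, inv_inv, sw_inv, ← mul_assoc, green_conj]
  have hD'' : Dom ρ (comp (revL L)) (deg (revL L)) (μ.map sw) := by rwa [deg_revL]
  have b1 := ball_est hL hρ hD
  have b2 := ball_est hL.revL hρ hD''
  rw [e1] at b2
  have hμ' : MeasurePreserving (⇑(comp (revL L))) (μ.map sw) (μ.map sw) := by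
    rw [comp_revL]
    exact (HSys_mp μ).comp ((mp_inv ha hμ).comp (HSys_mp' μ))
  have h1 := HSys_half hL.revL hρ hμ' (by rw [e1, HSys_emb.map_apply]; exact hm)
    (by rw [e2, HSys_emb.map_apply]; exact hp) hD''
    (by rw [e2]; exact HSys_ball (by rw [HSys_map_map]; exact b1))
  rw [e1, comp_revL] at h1
  have h2 := hF.symm.halfG
  rw [inv_inv] at h2
  exact ⟨a, green (comp L)⁻¹ (deg L), μ, ha, hF.halfG, h2, hprob,
    HSys_half hL hρ hμ hp hm hD (HSys_ball b2), h1.conj⟩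

end Pool.Agent.Lib.MP_7b5e47_an.Hn
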