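import Pool.Agent.Lib.MP_7b5e47_an.Hn.GSG

namespace Pool.Agent.Lib.MP_7b5e47_an.Hn

open Filter Topology Set Metric MeasureTheory

/-! The inclination lemma and growth of transversal vectors. -/

variable {Λ b δ : ℝ} {Φ : ℕ → Pm}


theorem GIncl_pow_small {θ C e : ℝ} (h0 : 0 < θ) (h1 : θ < 1) (_hC : 0 ≤ C) (he : 0 < e) :
    ∃ k₀ : ℕ, ∀ k ≥ k₀, C * θ ^ k ≤ e := by
  have ht : Tendsto (fun k : ℕ => C * θ ^ k) atTop (𝓝 (C * 0)) :=
    (tendsto_pow_atTop_nhds_zero_of_lt_one h0.le h1).const_mul C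
  rw [mul_zero] at ht
  have := ht.eventually (ge_mem_nhds he)
  exact eventually_atTop.mp this

/-- A transversal vector enters the unstable cone. Write `v = v.2 • (deriv γ s, 1) + (t, 0)` with
`t ≠ 0`; the first part is contracted (`IsSG.deriv_le`), the second stays in the cone of slope
`1/100` and is expanded (`Chain.dconeN`). -/
theorem IsSG.enter (h : Chain Λ b δ Φ) {γ : ℂ → ℂ} (hγ : IsSG Φ γ) {s : ℂ}
    (hs : s ∈ ball (0 : ℂ) 1) {v : E} (hv : v.1 - deriv γ s * v.2 ≠ 0) :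
    ∃ k₀ : ℕ, ∀ k ≥ k₀, (fderiv ℂ (⇑(cmp Φ k)) (γ s, s) v).1 ≠ 0 ∧
      ‖(fderiv ℂ (⇑(cmp Φ k)) (γ s, s) v).2‖ ≤ ‖(fderiv ℂ (⇑(cmp Φ k)) (γ s, s) v).1‖ / 20 := by

  set t : ℂ := v.1 - deriv γ s * v.2 with ht
  have htp : 0 < ‖t‖ := norm_pos_iff.mpr hv
  have hθ0 := h.1.the_pos
  have hθ1 := h.1.the_lt
  obtain ⟨k₀, hk₀⟩ := GIncl_pow_small hθ0 hθ1 (norm_nonneg v.2) (show 0 < ‖t‖ / 100 by positivity)
  refine ⟨k₀, fun k hk => ?_⟩
  have hdec : v = v.2 • ((deriv γ s, 1) : E) + ((t, 0) : E) := by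
    refine Prod.ext ?_ ?_
    · simp only [Prod.fst_add, Prod.smul_fst, smul_eq_mul, ht]; ring
    · simp
  set D := fderiv ℂ (⇑(cmp Φ k)) (γ s, s) with hD
  have hDv : D v = v.2 • D (deriv γ s, 1) + D (t, 0) := by
    conv_lhs => rw [hdec]
    rw [map_add, map_smul]
  have hB : ‖v.2 • D (deriv γ s, 1)‖ ≤ ‖t‖ / 100 := by
    rw [norm_smul]
    exact (mul_le_mul_of_nonneg_left (hγ.deriv_le h hs k) (norm_nonneg _)).trans (hk₀ k hk)
  have hA := h.dconeN (κ := 1 / 100) le_rfl (by norm_num) (n := k) (z := (γ s, s)) (v := (t, 0))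
    (fun j _ => hγ.stay s hs j) (by simp only [norm_zero]; positivity)
  rw [← hD] at hA
  obtain ⟨hA1, hA2⟩ := hA
  have hp1 : the Λ ^ k ≤ 1 := pow_le_one₀ hθ0.le hθ1.le
  have hA3 : ‖t‖ ≤ ‖(D (t, 0)).1‖ := by
    have := mul_le_mul_of_nonneg_right hp1 (norm_nonneg (D (t, 0)).1)
    simp only at hA2
    linarith
  set B := v.2 • D (deriv γ s, 1)
  set A := D (t, 0)
  have hB1 : ‖B.1‖ ≤ ‖t‖ / 100 := (norm_fst_le B).trans hB
  have hB2 : ‖B.2‖ ≤ ‖t‖ / 100 := (norm_snd_le B).trans hB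
  have e1 : ‖A.1‖ ≤ ‖(B + A).1‖ + ‖B.1‖ := by
    have : A.1 = (B + A).1 - B.1 := by simp
    calc ‖A.1‖ = ‖(B + A).1 - B.1‖ := by rw [← this]
      _ ≤ _ := norm_sub_le _ _
  have e2 : ‖(B + A).2‖ ≤ ‖B.2‖ + ‖A.2‖ := by
    rw [Prod.snd_add]; exact norm_add_le _ _
  rw [hDv]
  refine ⟨?_, by linarith⟩
  rw [← norm_pos_iff]
  linarith

/-- a curve with slope at most `1/20` at a point is locally a graph (`exists_inverse` applied to
the first coordinate on a small ball, where the derivative is almost constant) -/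
theorem local_graph {Z : ℂ → E} {ζ : ℂ} (hZ : AnalyticAt ℂ Z ζ) (h1 : (deriv Z ζ).1 ≠ 0)
    (h2 : ‖(deriv Z ζ).2‖ ≤ ‖(deriv Z ζ).1‖ / 20) (h3 : ‖Z ζ‖ < 1) {ε : ℝ} (hε : 0 < ε) :
    ∃ (ρ : ℝ) (η τ : ℂ → ℂ), 0 < ρ ∧ ‖(Z ζ).1‖ + ρ ≤ 1 ∧ Gr (Z ζ).1 ρ η ∧ η (Z ζ).1 = (Z ζ).2 ∧
      DifferentiableOn ℂ τ (ball (Z ζ).1 ρ) ∧
      ∀ t ∈ ball (Z ζ).1 ρ, τ t ∈ ball ζ ε ∧ Z (τ t) = (t, η t) := by

  set a : ℂ := (deriv Z ζ).1 with ha
  have hap : 0 < ‖a‖ := norm_pos_iff.mpr h1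
  have hst := hZ.hasStrictDerivAt.hasStrictFDerivAt.isLittleO
  have hev := hst.bound (show 0 < ‖a‖ / 100 by positivity)
  obtain ⟨r₁, hr₁, hb₁⟩ := Metric.eventually_nhds_iff_ball.mp hev
  have hev2 : ∀ᶠ t in 𝓝 ζ, DifferentiableAt ℂ Z t ∧ ‖Z t‖ ≤ 1 := by
    refine (Complex.analyticAt_iff_eventually_differentiableAt.mp hZ).and ?_
    have hc : ContinuousAt (fun t => ‖Z t‖) ζ := hZ.continuousAt.norm
    exact (hc.eventually (gt_mem_nhds h3)).mono fun t ht => ht.le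
  obtain ⟨r₂, hr₂, hb₂⟩ := Metric.eventually_nhds_iff_ball.mp hev2
  set r := min ε (min r₁ r₂) with hr
  have hr0 : 0 < r := lt_min hε (lt_min hr₁ hr₂)
  have hrε : ball ζ r ⊆ ball ζ ε := ball_subset_ball (min_le_left _ _)
  have hrr₁ : ball ζ r ⊆ ball ζ r₁ :=
    ball_subset_ball ((min_le_right _ _).trans (min_le_left _ _))
  have hrr₂ : ball ζ r ⊆ ball ζ r₂ :=
    ball_subset_ball ((min_le_right _ _).trans (min_le_right _ _))
  have key : ∀ t ∈ ball ζ r, ∀ t' ∈ ball ζ r,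
      ‖Z t - Z t' - (t - t') • deriv Z ζ‖ ≤ ‖a‖ / 100 * ‖t - t'‖ := by
    intro t ht t' ht'
    have hm : (t, t') ∈ ball (ζ, ζ) r₁ := by
      rw [← ball_prod_same]
      exact ⟨hrr₁ ht, hrr₁ ht'⟩
    simpa using hb₁ (t, t') hm
  have key1 : ∀ t ∈ ball ζ r, ∀ t' ∈ ball ζ r,
      ‖(Z t).1 - (Z t').1 - a * (t - t')‖ ≤ ‖a‖ / 100 * ‖t - t'‖ := by
    intro t ht t' ht'
    have := (norm_fst_le _).trans (key t ht t' ht')
    simp only [Prod.fst_sub, Prod.smul_fst, smul_eq_mul] at this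
    rwa [mul_comm (t - t')] at this
  have key2 : ∀ t ∈ ball ζ r, ∀ t' ∈ ball ζ r,
      ‖(Z t).2 - (Z t').2‖ ≤ 6 * ‖a‖ / 100 * ‖t - t'‖ := by
    intro t ht t' ht'
    have e := (norm_snd_le _).trans (key t ht t' ht')
    simp only [Prod.snd_sub, Prod.smul_snd, smul_eq_mul] at e
    have e2 : ‖(t - t') * (deriv Z ζ).2‖ ≤ ‖a‖ / 20 * ‖t - t'‖ := by
      rw [norm_mul, mul_comm]
      exact mul_le_mul_of_nonneg_right h2 (norm_nonneg _)
    have e3 : ‖(Z t).2 - (Z t').2‖ ≤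
        ‖(Z t).2 - (Z t').2 - (t - t') * (deriv Z ζ).2‖ + ‖(t - t') * (deriv Z ζ).2‖ :=
      norm_le_norm_sub_add _ _
    linarith
  have key3 : ∀ t ∈ ball ζ r, ∀ t' ∈ ball ζ r,
      99 * ‖a‖ / 100 * ‖t - t'‖ ≤ ‖(Z t).1 - (Z t').1‖ := by
    intro t ht t' ht'
    have e := key1 t ht t' ht'
    have e3 : ‖a * (t - t')‖ ≤
        ‖(Z t).1 - (Z t').1‖ + ‖(Z t).1 - (Z t').1 - a * (t - t')‖ :=
      norm_le_insert _ _
    rw [norm_mul] at e3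
    linarith
  have hdZ : DifferentiableOn ℂ Z (ball ζ r) := fun t ht =>
    (hb₂ t (hrr₂ ht)).1.differentiableWithinAt
  obtain ⟨τ, hτd, hτ⟩ := exists_inverse (φ := fun t => (Z t).1) (c := ζ) (α := a) (ρ := r)
    (e := ‖a‖ / 100) hr0 (by linarith) hdZ.fst key1
  have hz1 : ‖(Z ζ).1‖ < 1 := (norm_fst_le _).trans_lt h3
  set ρ := min ((‖a‖ - ‖a‖ / 100) * r) (1 - ‖(Z ζ).1‖) with hρ
  have hρ0 : 0 < ρ := lt_min (mul_pos (by linarith) hr0) (by linarith)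
  have hsub : ball (Z ζ).1 ρ ⊆ ball (Z ζ).1 ((‖a‖ - ‖a‖ / 100) * r) :=
    ball_subset_ball (min_le_left _ _)
  have hτd' : DifferentiableOn ℂ τ (ball (Z ζ).1 ρ) := hτd.mono hsub
  refine ⟨ρ, fun w => (Z (τ w)).2, τ, hρ0, ?_, ⟨?_, ?_, ?_⟩, ?_, hτd', ?_⟩
  · have : ρ ≤ 1 - ‖(Z ζ).1‖ := min_le_right _ _
    linarith
  · exact (hdZ.comp hτd' fun w hw => (hτ w (hsub hw)).1).snd
  · intro w hw
    exact (norm_snd_le _).trans (hb₂ _ (hrr₂ (hτ w (hsub hw)).1)).2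
  · intro w hw w' hw'
    obtain ⟨m1, e1⟩ := hτ w (hsub hw)
    obtain ⟨m2, e2⟩ := hτ w' (hsub hw')
    have k2 := key2 _ m1 _ m2
    have k3 := key3 _ m1 _ m2
    rw [e1, e2] at k3
    have : 0 ≤ ‖a‖ * ‖τ w - τ w'‖ := by positivity
    nlinarith
  · obtain ⟨m1, e1⟩ := hτ (Z ζ).1 (hsub (mem_ball_self hρ0))
    have k3 := key3 _ m1 _ (mem_ball_self hr0)
    rw [e1, sub_self, norm_zero] at k3
    have : ‖τ (Z ζ).1 - ζ‖ ≤ 0 := by
      by_contra hn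
      have := mul_pos (show 0 < 99 * ‖a‖ / 100 by positivity) (not_le.mp hn)
      linarith
    have e : τ (Z ζ).1 = ζ := sub_eq_zero.mp (norm_le_zero_iff.mp this)
    simp only [e]
  · intro w hw
    obtain ⟨m1, e1⟩ := hτ w (hsub hw)
    exact ⟨hrε m1, Prod.ext e1 rfl⟩

/-- Inclination lemma: `IsSG.enter`, `local_graph` for `cmp Φ k₀ ∘ Z` (its value at `ζ` has norm
at most `3/4` by `Chain.stay_le`), then `Chain.grow` for `shf Φ k₀`; the height of the final graph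
by `Chain.snd_small`. -/
theorem Chain.incl (h : Chain Λ b δ Φ) {γ : ℂ → ℂ} (hγ : IsSG Φ γ) {Z : ℂ → E} {ζ : ℂ}
    (hZ : AnalyticAt ℂ Z ζ) (h1 : ‖(Z ζ).2‖ ≤ 3 / 4) (h2 : (Z ζ).1 = γ (Z ζ).2)
    (h3 : (deriv Z ζ).1 - deriv γ (Z ζ).2 * (deriv Z ζ).2 ≠ 0) {ε : ℝ} (hε : 0 < ε) :
    ∃ k₀ : ℕ, ∀ k ≥ k₀, ∃ η τ : ℂ → ℂ, Gr 0 1 η ∧ ‖η 0‖ ≤ 1 / 10 ∧
      DifferentiableOn ℂ τ (ball 0 1) ∧
      ∀ t ∈ ball (0 : ℂ) 1, τ t ∈ ball ζ ε ∧ cmp Φ k (Z (τ t)) = (t, η t) := by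

  have hs : (Z ζ).2 ∈ ball (0 : ℂ) 1 := by
    rw [mem_ball_zero_iff]; linarith
  have hz : Z ζ = (γ (Z ζ).2, (Z ζ).2) := Prod.ext h2 rfl
  obtain ⟨k₀, hk₀⟩ := hγ.enter h hs (v := deriv Z ζ) h3
  obtain ⟨e1, e2⟩ := hk₀ k₀ le_rfl
  rw [← hz] at e1 e2
  have hst : Stay Φ (Z ζ) := by rw [hz]; exact hγ.stay _ hs
  have hdk := (h.diff k₀).1
  set W : ℂ → E := fun t => cmp Φ k₀ (Z t) with hW
  have hWa : AnalyticAt ℂ W ζ := by
    rw [Complex.analyticAt_iff_eventually_differentiableAt]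
    exact (Complex.analyticAt_iff_eventually_differentiableAt.mp hZ).mono fun t ht =>
      (hdk (Z t)).comp t ht
  have hWd : deriv W ζ = fderiv ℂ (⇑(cmp Φ k₀)) (Z ζ) (deriv Z ζ) :=
    ((hdk (Z ζ)).hasFDerivAt.comp_hasDerivAt ζ hZ.differentiableAt.hasDerivAt).deriv
  have hn : ‖Z ζ‖ ≤ 3 / 4 := by
    rw [Prod.norm_def]
    refine max_le ?_ h1
    rw [h2]
    have := hγ.small _ hs
    linarith
  have hWn : ‖W ζ‖ < 1 := by
    have := h.stay_le hst (r := 3 / 4) (by norm_num) hn k₀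
    simp only [hW]
    linarith
  obtain ⟨ρ, η, τ, hρ, hc, hη, hη0, hτd, hτ⟩ :=
    local_graph hWa (by rw [hWd]; exact e1) (by rw [hWd]; exact e2) hWn hε
  obtain ⟨n₀, hn₀⟩ := Chain.grow Λ hρ
  obtain ⟨n₁, hn₁⟩ := GIncl_pow_small h.1.the_pos h.1.the_lt zero_le_one
    (show (0 : ℝ) < 1 / 20 by norm_num)
  refine ⟨k₀ + max n₀ n₁, fun k hk => ?_⟩
  obtain ⟨n, rfl⟩ : ∃ n, k = k₀ + n := ⟨k - k₀, by omega⟩
  have hn0 : n₀ ≤ n := by have := le_max_left n₀ n₁; omega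
  have hn1 : n₁ ≤ n := by have := le_max_right n₀ n₁; omega
  have hst' : Stay (Hn.shf Φ k₀) ((W ζ).1, η (W ζ).1) := by
    rw [hη0]
    exact hst.shf k₀
  obtain ⟨η', τ', hη', hτ'd, hτ'⟩ := hn₀ b δ _ (h.shf k₀) _ η hc hη hst' n hn0
  refine ⟨η', fun t => τ (τ' t), hη', ?_, hτd.comp hτ'd fun t ht => (hτ' t ht).1, ?_⟩
  · obtain ⟨-, q1, q2⟩ := hτ' 0 (mem_ball_self one_pos)
    have := (h.shf k₀).snd_small q2
    rw [q1] at this
    have q3 := hn₁ n hn1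
    simp only at this
    linarith
  · intro t ht
    obtain ⟨q0, q1, -⟩ := hτ' t ht
    obtain ⟨q2, q3⟩ := hτ _ q0
    refine ⟨q2, ?_⟩
    rw [cmp_add, Equiv.Perm.mul_apply, ← q1, ← q3]


theorem GIncl_lip {Ψ : Pm} (hs : Small Λ b δ) (h : Step Λ b δ Ψ) {z w : E} (hz : ‖z‖ ≤ 1)
    (hw : ‖w‖ ≤ 1) : ‖Ψ z - Ψ w‖ ≤ (1 / b + δ) * ‖z - w‖ := by
  obtain ⟨hΛ1, hΛ2, hb0, hb1, hδ0, hδ⟩ := hs
  obtain ⟨α, β, -, hα, -, hβ, h1, -⟩ := h.two
  have e := h1 z w hz hw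
  have hb' : 1 ≤ 1 / b := by rw [le_div_iff₀ hb0]; linarith
  have hβ' : ‖β‖ ≤ 1 / b := by
    have : 1 / Λ ≤ 1 := by rw [div_le_iff₀ (by linarith)]; linarith
    linarith
  have e2 : ‖((α * (z - w).1, β * (z - w).2) : E)‖ ≤ 1 / b * ‖z - w‖ := by
    rw [Prod.norm_def]
    refine max_le ?_ ?_
    · simp only [norm_mul]
      exact mul_le_mul hα (norm_fst_le _) (norm_nonneg _) (by positivity)
    · simp only [norm_mul]
      exact mul_le_mul hβ' (norm_snd_le _) (norm_nonneg _) (by positivity)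
  have e3 := norm_le_norm_sub_add (Ψ z - Ψ w) ((α * (z - w).1, β * (z - w).2) : E)
  linarith

theorem GIncl_prod {u a : ℕ → ℝ} {θ C : ℝ} {k₁ : ℕ} (h0 : 0 < θ) (h1 : θ < 1) (hC : 0 ≤ C)
    (ha : ∀ k, 1 ≤ a k) (hu : ∀ k ≥ k₁, 0 < u k)
    (hrec : ∀ k ≥ k₁, a k * u k - C * θ ^ k * u k ≤ u (k + 1)) :
    ∃ c > 0, ∃ k₀ : ℕ, ∀ k ≥ k₀, c * ∏ j ∈ Finset.range k, a j ≤ u k := by
  have h1' : 0 < 1 - θ := by linarith
  obtain ⟨k₂, hk₂⟩ := GIncl_pow_small h0 h1 (C := C / (1 - θ)) (by positivity)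
    (show (0 : ℝ) < 1 / 2 by norm_num)
  set k₀ := max k₁ k₂ with hk₀
  have hP : ∀ k, 0 < ∏ j ∈ Finset.range k, a j := fun k =>
    Finset.prod_pos fun j _ => lt_of_lt_of_le one_pos (ha j)
  set c' : ℝ := u k₀ / ∏ j ∈ Finset.range k₀, a j with hc'
  have hc'0 : 0 < c' := div_pos (hu k₀ (le_max_left _ _)) (hP k₀)
  have main : ∀ k ≥ k₀,
      c' * (1 / 2 + C / (1 - θ) * θ ^ k) * ∏ j ∈ Finset.range k, a j ≤ u k := by
    intro k hk
    induction k, hk using Nat.le_induction with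
    | base =>
      have e := hk₂ k₀ (le_max_right _ _)
      have e2 : c' * ∏ j ∈ Finset.range k₀, a j = u k₀ := by
        rw [hc']; exact div_mul_cancel₀ _ (hP k₀).ne'
      have e3 := hu k₀ (le_max_left _ _)
      calc c' * (1 / 2 + C / (1 - θ) * θ ^ k₀) * ∏ j ∈ Finset.range k₀, a j
          = (1 / 2 + C / (1 - θ) * θ ^ k₀) * u k₀ := by rw [← e2]; ring
        _ ≤ 1 * u k₀ := mul_le_mul_of_nonneg_right (by linarith) e3.le
        _ = u k₀ := one_mul _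
    | succ k hk ih =>
      have hS := hk₂ k ((le_max_right _ _).trans hk)
      have hr := hrec k ((le_max_left _ _).trans hk)
      have huk := hu k ((le_max_left _ _).trans hk)
      set S := C / (1 - θ) * θ ^ k with hSd
      set x := C * θ ^ k with hx
      have hx0 : 0 ≤ x := by positivity
      have hS0 : 0 ≤ S := by positivity
      have hxS : x = S * (1 - θ) := by rw [hx, hSd]; field_simp
      have hS' : C / (1 - θ) * θ ^ (k + 1) = S - x := by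
        rw [hxS, hSd, pow_succ]; ring
      have hx1 : x ≤ 1 / 2 := by
        rw [hxS]; nlinarith
      have hak := ha k
      rw [Finset.prod_range_succ, hS']
      set P := ∏ j ∈ Finset.range k, a j with hPd
      have hP0 : 0 < P := hP k
      have q1 : a k * (1 - x) * u k ≤ u (k + 1) := by
        have : x * u k ≤ a k * (x * u k) := le_mul_of_one_le_left (by positivity) hak
        nlinarith
      have q2 : a k * (1 - x) * (c' * (1 / 2 + S) * P) ≤ a k * (1 - x) * u k :=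
        mul_le_mul_of_nonneg_left ih (mul_nonneg (by linarith) (by linarith))
      have q3 : 1 / 2 + (S - x) ≤ (1 - x) * (1 / 2 + S) := by nlinarith
      have q4 : c' * (P * a k) * (1 / 2 + (S - x)) ≤
          c' * (P * a k) * ((1 - x) * (1 / 2 + S)) :=
        mul_le_mul_of_nonneg_left q3 (by positivity)
      calc c' * (1 / 2 + (S - x)) * (P * a k) = c' * (P * a k) * (1 / 2 + (S - x)) := by ring
        _ ≤ c' * (P * a k) * ((1 - x) * (1 / 2 + S)) := q4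
        _ = a k * (1 - x) * (c' * (1 / 2 + S) * P) := by ring
        _ ≤ _ := q2.trans q1
  refine ⟨c' / 2, by positivity, k₀, fun k hk => ?_⟩
  refine le_trans ?_ (main k hk)
  refine mul_le_mul_of_nonneg_right ?_ (hP k).le
  have : 0 ≤ c' * (C / (1 - θ) * θ ^ k) := by positivity
  linarith

/-- Growth of a transversal vector along an orbit asymptotic to the central orbit `0`.
`0` and `z = (γ s, s)` both stay, so `‖z_k‖ ≤ the Λ ^ k` (`Chain.stay_two`). For `‖z_k‖ ≤ 1/2`,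
`norm_fderiv_sub_le` applied to `Φ k - diag (α, β)` (which is `δ`-Lipschitz on the unit ball,
`Step.two`), `r = 1/2`, gives `‖fderiv (Φ k) z_k - fderiv (Φ k) 0‖ ≤ 2 δ ‖z_k‖`. In the cone of
slope 1 (`IsSG.enter`), `‖v_{k+1}.1‖ ≥ ‖al k‖ (1 - 2 δ the Λ ^ k / ‖al k‖) ‖v_k.1‖`, where
`‖al k‖ ≥ Λ - δ ≥ 1`, and `∏ (1 - x_k) ≥ exp (-2 ∑ x_k)` for `x_k ≤ 1/2`. -/
theorem Chain.vec (h : Chain Λ b δ Φ) (h0 : ∀ k, Φ k 0 = 0) {al be : ℕ → ℂ}
    (hd : ∀ k (v : E), fderiv ℂ (⇑(Φ k)) 0 v = (al k * v.1, be k * v.2)) {γ : ℂ → ℂ}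
    (hγ : IsSG Φ γ) {s : ℂ} (hs : s ∈ ball (0 : ℂ) 1) {v : E} (hv : v.1 - deriv γ s * v.2 ≠ 0) :
    ∃ c > 0, ∃ k₀ : ℕ, ∀ k ≥ k₀,
      c * ∏ j ∈ Finset.range k, ‖al j‖ ≤ ‖(fderiv ℂ (⇑(cmp Φ k)) (γ s, s) v).1‖ := by

  have hθ0 := h.1.the_pos
  have hθ1 := h.1.the_lt
  obtain ⟨hΛ1, hΛ2, hb0, hb1, hδ0, hδ⟩ := h.1
  set z : E := (γ s, s) with hz
  have hst : Stay Φ z := hγ.stay s hs
  have hc0 : ∀ k, cmp Φ k 0 = 0 := by
    intro k
    induction k with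
    | zero => rfl
    | succ k ih => rw [cmp_succ_apply, ih, h0]
  have hst0 : Stay Φ 0 := fun j => by rw [hc0]; simp
  have hzk : ∀ k, ‖cmp Φ k z‖ ≤ the Λ ^ k := by
    intro k
    have e := (h.stay_two hst hst0).2 k
    rw [hc0, sub_zero, sub_zero] at e
    have e2 : ‖z‖ ≤ 1 := hst 0
    have := mul_le_mul_of_nonneg_left e2 (pow_pos hθ0 k).le
    linarith
  have hal : ∀ k, 1 ≤ ‖al k‖ := by
    intro k
    have e := ((h.2 k).dcone h.1 (κ := 1) (by norm_num) (by norm_num) (z := 0) (v := (1, 0))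
      (by simp) (by simp)).2
    rw [hd] at e
    simp only [norm_one, mul_one] at e
    have := mul_le_mul_of_nonneg_right hθ1.le (norm_nonneg (al k))
    linarith
  set C : ℝ := 2 * (1 / b + δ) with hC
  have hC0 : 0 ≤ C := by positivity
  have hder : ∀ k, the Λ ^ k ≤ 1 / 2 →
      ‖fderiv ℂ (⇑(Φ k)) (cmp Φ k z) - fderiv ℂ (⇑(Φ k)) 0‖ ≤ C * the Λ ^ k := by
    intro k hk
    have e := norm_fderiv_sub_le (h.2 k).1 (z := cmp Φ k z) (w := 0) (r := 1 / 2)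
      (L := (1 / b + δ) * the Λ ^ k) (by norm_num) (by
        intro x hx
        rw [mem_closedBall_zero_iff] at hx
        have n1 : ‖cmp Φ k z + x‖ ≤ 1 := by
          have := norm_add_le (cmp Φ k z) x
          have := hzk k
          linarith
        have n2 : ‖(0 : E) + x‖ ≤ 1 := by rw [zero_add]; linarith
        have := GIncl_lip h.1 (h.2 k) n1 n2
        rw [add_sub_add_right_eq_sub, sub_zero] at this
        exact this.trans (mul_le_mul_of_nonneg_left (hzk k) (by positivity)))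
    calc _ ≤ _ := e
      _ = C * the Λ ^ k := by rw [hC]; ring
  obtain ⟨k₁, hk₁⟩ := hγ.enter h hs hv
  obtain ⟨k₂, hk₂⟩ := GIncl_pow_small hθ0 hθ1 zero_le_one (show (0 : ℝ) < 1 / 2 by norm_num)
  set u : ℕ → ℝ := fun k => ‖(fderiv ℂ (⇑(cmp Φ k)) z v).1‖ with hu
  refine GIncl_prod (u := u) (a := fun k => ‖al k‖) (k₁ := max k₁ k₂) hθ0 hθ1 hC0 hal
    (fun k hk => norm_pos_iff.mpr (hk₁ k ((le_max_left _ _).trans hk)).1) ?_
  intro k hk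
  have g1 := (hk₁ k ((le_max_left _ _).trans hk)).2
  have g2 := hk₂ k ((le_max_right _ _).trans hk)
  rw [one_mul] at g2
  set w := fderiv ℂ (⇑(cmp Φ k)) z v with hw
  have hstep : fderiv ℂ (⇑(cmp Φ (k + 1))) z v = fderiv ℂ (⇑(Φ k)) (cmp Φ k z) w := by
    have e : (⇑(cmp Φ (k + 1)) : E → E) = ⇑(Φ k) ∘ ⇑(cmp Φ k) := by
      funext x; exact cmp_succ_apply Φ k x
    rw [e, fderiv_comp z ((h.2 k).1 _) ((h.diff k).1 _)]
    rfl
  have hwn : ‖w‖ ≤ ‖w.1‖ := by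
    rw [Prod.norm_def]
    refine max_le le_rfl ?_
    have := norm_nonneg w.1
    linarith
  have g3 : ‖fderiv ℂ (⇑(Φ k)) (cmp Φ k z) w - fderiv ℂ (⇑(Φ k)) 0 w‖ ≤
      C * the Λ ^ k * ‖w.1‖ := by
    rw [← sub_apply]
    refine (ContinuousLinearMap.le_opNorm _ _).trans ?_
    exact mul_le_mul (hder k g2) hwn (norm_nonneg _) (by positivity)
  have g4 := (norm_fst_le _).trans g3
  rw [hd, Prod.fst_sub] at g4
  have g5 : ‖al k * w.1‖ ≤ ‖(fderiv ℂ (⇑(Φ k)) (cmp Φ k z) w).1‖ +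
      ‖(fderiv ℂ (⇑(Φ k)) (cmp Φ k z) w).1 - al k * w.1‖ := norm_le_insert _ _
  rw [norm_mul] at g5
  simp only [hu, hstep]
  rw [← hw]
  simp only at g4
  linarith

end Pool.Agent.Lib.MP_7b5e47_an.Hn
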