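import Pool.Agent.Lib.MP_7b5e47_an.Hn.LHit
import Pool.Agent.Lib.MP_7b5e47_an.Hn.GIncl
import Pool.Agent.Lib.MP_7b5e47_an.Hn.CBox

namespace Pool.Agent.Lib.MP_7b5e47_an.Hn

open Filter Topology Set Metric MeasureTheory

/-! The intersection theorem. -/

variable {F : Pm} {a : ℂ} {d : ℝ} {Gp Gm : E → ℝ} {μ : Measure E} {Λ b δ c₀ : ℝ} {A₀ : Ch}
  {R : Set E}

/-- `hit`, then `Chain.incl` at a large visiting time `k ∈ T` (`cmp_fwc`, `vis`) -/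
theorem hcross (h : Sys F a d Gp Gm μ) (hB : Box F μ Λ b δ c₀ A₀ R) {X : ℂ → E} {ζ₀ : ℂ} {ρ : ℝ}
    (hρ : 0 < ρ) (hX : DifferentiableOn ℂ X (ball ζ₀ ρ)) (hact : Act Gp X ζ₀) :
    ∃ (n : ℕ) (η τ : ℂ → ℂ), Gr 0 1 η ∧ ‖η 0‖ ≤ 1 / 10 ∧ DifferentiableOn ℂ τ (ball 0 1) ∧
      ∀ t ∈ ball (0 : ℂ) 1, τ t ∈ ball ζ₀ ρ ∧ (F ^ n) (X (τ t)) = A₀.pm (t, η t) := by
  obtain ⟨n, ζ, x, A, T, γ, hζ, hR, hT, hγ, h1, h2, h3⟩ := hit h hB hρ hX hact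
  have hC : Chain Λ b δ (fwc F A 0) := hR.chain 0
  have hZ : AnalyticAt ℂ (fun t => A₀.pm⁻¹ ((F ^ n) (X t))) ζ :=
    ((A₀.diff_inv.comp (h.aut.ndiff n)).comp_differentiableOn hX).analyticAt
      (isOpen_ball.mem_nhds hζ)
  obtain ⟨ε, hε, hsub⟩ := Metric.isOpen_iff.1 isOpen_ball ζ hζ
  obtain ⟨k₀, hk₀⟩ := hC.incl hγ hZ (h1.trans (by norm_num)) h2 h3 hε
  obtain ⟨k, hk, hk'⟩ := hT.2.1 k₀
  lift k to ℕ using (Int.natCast_nonneg k₀).trans hk'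
  obtain ⟨η, τ, g1, g2, g3, g4⟩ := hk₀ k (Int.ofNat_le.1 hk')
  refine ⟨k + n, η, τ, g1, g2, g3, fun t ht => ⟨hsub (g4 t ht).1, ?_⟩⟩
  rw [← (g4 t ht).2, cmp_fwc, zero_add, hR.vis k hk, hR.vis 0 hT.1, pow_add]
  simp

theorem LIT_der {G : E → E} {P W : ℂ → E} {τ : ℂ → ℂ} {t : ℂ} {w : E} (hd : A₀.det ≠ 0)
    (hG : Differentiable ℂ G) (hP : DifferentiableAt ℂ P (τ t)) (hτ : DifferentiableAt ℂ τ t)
    (hW : HasDerivAt W w t) (he : ∀ᶠ u in 𝓝 t, P (τ u) = G (A₀.pm (W u))) :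
    deriv τ t • deriv P (τ t) = fderiv ℂ G (A₀.pm (W t)) (w.1 • A₀.U + w.2 • A₀.S) := by
  have h1 := hP.hasDerivAt.scomp t hτ.hasDerivAt
  have h2 := (hG _).hasFDerivAt.comp_hasDerivAt t
    ((A₀.diff _).hasFDerivAt.comp_hasDerivAt t hW)
  rw [Ch.fderiv_pm hd] at h2
  exact h1.unique (h2.congr_of_eventuallyEq he)

/-- `exists_box_mu`, `hcross` for `F` and for `F⁻¹` (`Sys.rev`, `Box.rev`, `Ch.rev_pm`),
`graphs_meet`. Differentiating `F^n (X (τ t)) = A₀ (t, η t)` and the analogous identity gives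
tangent vectors with determinant `(1 - η' γ') A₀.det ≠ 0` (`Ch.det2_vec`); apply `F^l`
(`Aut.njac`, `Aut.deriv_comp`). -/
theorem inter (h : Sys F a d Gp Gm μ) (ha : ‖a‖ < 1) {X Y : ℂ → E} {ζ₀ ζ₁ : ℂ} {ρ₀ ρ₁ : ℝ}
    (hρ₀ : 0 < ρ₀) (hρ₁ : 0 < ρ₁) (hX : DifferentiableOn ℂ X (ball ζ₀ ρ₀))
    (hY : DifferentiableOn ℂ Y (ball ζ₁ ρ₁)) (hXa : Act Gp X ζ₀) (hYa : Act Gm Y ζ₁) :
    ∃ (m : ℕ) (ζ ζ' : ℂ), ζ ∈ ball ζ₀ ρ₀ ∧ ζ' ∈ ball ζ₁ ρ₁ ∧ (F ^ m) (X ζ) = Y ζ' ∧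
      det2 (deriv (fun t => (F ^ m) (X t)) ζ) (deriv Y ζ') ≠ 0 := by
  obtain ⟨Λ, b, δ, c₀, A₀, R, hB⟩ := exists_box_mu h ha
  have hd : A₀.det ≠ 0 := by
    obtain ⟨x, hx⟩ := nonempty_of_measure_ne_zero hB.ne
    obtain ⟨A, T, hR, hT⟩ := (hB.ch x hx).2.2
    rw [← hR.vis 0 hT.1]
    exact hR.det 0
  obtain ⟨n, η, τ, f1, f2, f3, f4⟩ := hcross h hB hρ₀ hX hXa
  obtain ⟨l, γ, σ, g1, g2, g3, g4⟩ := hcross h.rev hB.rev hρ₁ hY hYa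
  obtain ⟨t, s, ht, hs, e1, e2, hne⟩ := graphs_meet f1 g1 f2 g2
  have ht' : ball (0 : ℂ) 1 ∈ 𝓝 t := isOpen_ball.mem_nhds (mem_ball_zero_iff.2 (by linarith))
  have hs' : ball (0 : ℂ) 1 ∈ 𝓝 s := isOpen_ball.mem_nhds (mem_ball_zero_iff.2 (by linarith))
  have f5 : ∀ u ∈ ball (0 : ℂ) 1, (F ^ (l + n)) (X (τ u)) = (F ^ l) (A₀.pm (u, η u)) :=
    fun u hu => by rw [pow_add, Equiv.Perm.mul_apply, (f4 u hu).2]
  have g5 : ∀ u ∈ ball (0 : ℂ) 1, Y (σ u) = (F ^ l) (A₀.pm (γ u, u)) := fun u hu => by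
    have h1 := (g4 u hu).2
    rw [Ch.rev_pm hd, Equiv.Perm.mul_apply, sw_apply] at h1
    rw [← h1]
    simp
  have m1 := (f4 t (mem_of_mem_nhds ht')).1
  have m2 := (g4 s (mem_of_mem_nhds hs')).1
  refine ⟨l + n, τ t, σ s, m1, m2, ?_, fun h0 => ?_⟩
  · rw [f5 t (mem_of_mem_nhds ht'), g5 s (mem_of_mem_nhds hs'), ← e1, ← e2]
  · have d1 := LIT_der (P := fun t => (F ^ (l + n)) (X t)) hd (h.aut.ndiff l)
      ((h.aut.ndiff (l + n) _).comp _ (hX.differentiableAt (isOpen_ball.mem_nhds m1)))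
      (f3.differentiableAt ht') ((hasDerivAt_id' t).prodMk (f1.1.differentiableAt ht').hasDerivAt)
      (mem_of_superset ht' f5)
    have d2 := LIT_der hd (h.aut.ndiff l) (hY.differentiableAt (isOpen_ball.mem_nhds m2))
      (g3.differentiableAt hs') ((g1.1.differentiableAt hs').hasDerivAt.prodMk (hasDerivAt_id' s))
      (mem_of_superset hs' g5)
    rw [← e1] at d1
    rw [← e2] at d2
    have d3 := det2_smul (deriv τ t) (deriv σ s) (deriv (fun t => (F ^ (l + n)) (X t)) (τ t))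
      (deriv Y (σ s))
    rw [h0, mul_zero, d1, d2, h.aut.njac, Ch.det2_vec] at d3
    refine mul_ne_zero (pow_ne_zero l h.aut.ne) (mul_ne_zero ?_ hd) d3
    simpa only [det2, mul_one] using hne

end Pool.Agent.Lib.MP_7b5e47_an.Hn
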