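import Pool.Agent.Lib.MP_7b5e47_an.Hn.QHom
import Pool.Agent.Lib.MP_7b5e47_an.Hn.LIT

namespace Pool.Agent.Lib.MP_7b5e47_an.Hn

open Filter Topology Set Metric MeasureTheory

/-! Quasi-expansion passes from the saddles to all points of the boundary of `K⁺` in a leaf. -/

variable {F : Pm} {a : ℂ} {d : ℝ} {Gp Gm : E → ℝ} {μ : Measure E}

/-- quasi-expansion in terms of maxima on discs -/
def QE (F : Pm) (d : ℝ) (Gp : E → ℝ) (κ : ℝ) : Prop :=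
  ∀ (q : E) (ψ : ℂ → E) (r : ℝ), IsSaddle F q → IsUParam F q ψ → ψ 0 = q → 0 < r →
    (∃ ζ : ℂ, ‖ζ‖ ≤ r ∧ 1 < Gp (ψ ζ)) → ∃ ζ : ℂ, ‖ζ‖ ≤ r / κ ∧ 1 ≤ d * Gp (ψ ζ)

/-- the least radius at which a level is reached -/
theorem QZero_level {g : ℂ → ℝ} (hg : Continuous g) {c : ℝ} (h0 : g 0 < c) {ζ₀ : ℂ}
    (h1 : c ≤ g ζ₀) : ∃ ζ : ℂ, ζ ≠ 0 ∧ ‖ζ‖ ≤ ‖ζ₀‖ ∧ g ζ = c ∧
      IsGreatest ((fun t => g (ζ * t + 0)) '' closedBall 0 1) c := by
  obtain ⟨ζ, h2, h3⟩ := (isClosed_le continuous_const hg).exists_infDist_eq_dist ⟨ζ₀, h1⟩ 0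
  have h4 : ∀ w, c ≤ g w → ‖ζ‖ ≤ ‖w‖ := fun w hw => by
    have := infDist_le_dist_of_mem (x := 0) (show w ∈ {w | c ≤ g w} from hw)
    rwa [h3, dist_zero_left, dist_zero_left] at this
  have h5 : ζ ≠ 0 := fun e => (h0.trans_le (e ▸ h2)).false
  have h6 : closedBall 0 ‖ζ‖ ⊆ {w | g w ≤ c} := by
    rw [← closure_ball 0 (norm_ne_zero_iff.2 h5)]
    exact closure_minimal (fun w hw => le_of_not_ge fun e =>
      (mem_ball_zero_iff.1 hw).not_ge (h4 w e)) (isClosed_le hg continuous_const)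
  have h7 : g ζ = c := le_antisymm (h6 (mem_closedBall_zero_iff.2 le_rfl)) h2
  refine ⟨ζ, h5, h4 _ h1, h7, ⟨1, by simp, by simpa using h7⟩, ?_⟩
  rintro _ ⟨t, ht, rfl⟩
  refine h6 (mem_closedBall_zero_iff.2 ?_)
  rw [add_zero, norm_mul]
  exact mul_le_of_le_one_right (norm_nonneg _) (mem_closedBall_zero_iff.1 ht)

/-- the orbits of the points of a linearizer are asymptotic (Schwarz lemma) -/
theorem QZero_lim {θ ρ : ℝ} {Φ : ℕ → Pm} {z : E} {Ψ : ℕ → ℂ → E} {l : ℕ → ℂ} (hρ : 0 < ρ)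
    (hθ : θ < 1) (h : IsLin θ ρ Φ z Ψ l) (ζ : ℂ) :
    Tendsto (fun n => ‖cmp Φ n (Ψ 0 ζ) - cmp Φ n z‖) atTop (𝓝 0) := by
  have h1 := GLinU_lim h.lam hθ ζ
  have h2 := h1.const_mul (2 / ρ)
  rw [mul_zero] at h2
  refine squeeze_zero' (Eventually.of_forall fun _ => norm_nonneg _) ?_ h2
  filter_upwards [h1.eventually_lt_const hρ] with n hn
  rw [h.funcN, ← h.zero, ← dist_eq_norm, ← dist_zero_right]
  refine Complex.dist_le_div_mul_dist_of_mapsTo_ball (h.diff n).differentiableOn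
    (fun w hw => mem_closedBall_iff_norm.2 ((norm_sub_le _ _).trans ?_)) (mem_ball_zero_iff.2 hn)
  linarith [h.bd n w (mem_ball_zero_iff.1 hw).le, h.bd n 0 (by simpa using hρ.le)]

/-- two orbits following the same charts for a long time are close -/
theorem QZero_close {Λ b δ c₀ : ℝ} {A₀ : Ch} {x q : E} {A A' : ℤ → Ch} {T T' : Set ℤ}
    (h : RChain F Λ b δ c₀ A₀ x A T) (h' : RChain F Λ b δ c₀ A₀ q A' T') (j : ℕ)
    (e : ∀ k : ℤ, -j ≤ k → k ≤ j → A' k = A k) :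
    ‖(A 0).pm⁻¹ q - (A 0).pm⁻¹ x‖ ≤ 2 * the Λ ^ j := by
  have h1 : ∀ i ≤ 2 * j, cmp (fwc F A (-j)) i = cmp (fwc F A' (-j)) i := fun i hi => by
    rw [cmp_fwc, cmp_fwc, e _ (by omega) (by omega), e _ (by omega) (by omega)]
  have h2 := (h.chain (-j)).sep (n := 2 * j) (k := j) (by omega)
    (z := (A' (-j)).pm⁻¹ ((F ^ (-j : ℤ)) q)) (fun i hi => h1 i hi ▸ h'.stay (-j) i)
    fun i _ => h.stay (-j) i
  rw [h.orbit, h1 j (by omega), h'.orbit, neg_add_cancel, e 0 (by omega) (by omega),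
    show min j (2 * j - j) = j by omega] at h2
  simpa using h2

theorem QZero_cpt {K : Set ℂ} (hK : IsCompact K) {f : ℕ → ℂ → E} {g : ℂ → E} (hg : Continuous g)
    (h : TendstoUniformlyOn f g atTop K) {C : Set E} (hC : IsClosed C)
    (h1 : ∀ᶠ j in atTop, ∃ t ∈ K, f j t ∈ C) : ∃ t ∈ K, g t ∈ C := by
  by_contra hc
  push Not at hc
  obtain ⟨ε, h2, h3⟩ := (hK.image hg).exists_thickening_subset_open hC.isOpen_compl
    (by rintro _ ⟨t, ht, rfl⟩; exact hc t ht)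
  obtain ⟨j, ⟨t, h4, h5⟩, h6⟩ := (h1.and (Metric.tendstoUniformlyOn_iff.1 h ε h2)).exists
  exact h3 (mem_thickening_iff.2 ⟨_, ⟨t, h4, rfl⟩, dist_comm (g t) _ ▸ h6 t h4⟩) h5

/-- `M t = max of Gp ∘ ψ on closedBall 0 t` is continuous with `M 0 = 0`; take `r₁, r₂ ∈ (0, r]`
with `M r₁ = 1` and `d M r₂ = 1` (or the least radii at which these levels are reached). Then
`ψ (r₁ ·)` and `F (ψ (r₂ ·))` are normalized (`IsUParam.affine`, `IsUParam.zpow`) and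
`l = r₁ / r₂`. -/
theorem qe_of_quasi (hA : Aut F a) {dn : ℕ} (hp : HalfG F dn (green F dn) Gm)
    (h : QuasiExpanding F dn) : ∃ κ : ℝ, 1 < κ ∧ QE F dn (green F dn) κ := by
  obtain ⟨κ, hκ, h⟩ := h
  refine ⟨κ, hκ, fun q ψ r hq hψ h0 _ ⟨ζ₀, h1, h2⟩ => ?_⟩
  have h3 : Continuous fun ζ => green F dn (ψ ζ) := hp.cont.comp hψ.1.continuous
  have h4 : green F dn (ψ 0) = 0 := h0 ▸ (hp.zero_iff q).2 hq.mem_K.1
  have h5 : (0 : ℝ) < dn := one_pos.trans hp.one_lt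
  obtain ⟨u, -, u2, -, u4⟩ := QZero_level h3 (c := 1) (h4.trans_lt one_pos) h2.le
  obtain ⟨v, v1, -, v3, v4⟩ := QZero_level (continuous_const.mul h3) (c := 1)
    (g := fun ζ => dn * green F dn (ψ ζ)) (by simp [h4]) (ζ₀ := ζ₀) (by nlinarith [hp.one_lt])
  have u1 : u ≠ 0 := by
    rintro rfl
    obtain ⟨t, -, ht⟩ := u4.1
    simp [h4] at ht
  have h6 := h q (fun t => ψ (u * t + 0)) (fun t => F (ψ (v * t + 0))) (u / v) hq
    ⟨hψ.affine u1 0, by simpa using h0, u4⟩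
    ⟨by simpa using (hψ.affine v1 0).zpow hA hq.mem_K.2 1, by simp [h0],
      by simpa only [hp.equi] using v4⟩ fun t => by rw [← mul_assoc, mul_div_cancel₀ _ v1]
  refine ⟨v, ?_, v3.ge⟩
  rw [norm_div, le_div_iff₀ (norm_pos_iff.2 v1)] at h6
  rw [le_div_iff₀ (one_pos.trans hκ)]
  linarith

/-- Closing. Let `ρ` be given by `exists_lin`, `Ψ` the linearizers of the reversed chain
`fwc F⁻¹ (rvc A) 0` at the point `ξ y`; `Y = (A 0).rev.pm ∘ Ψ 0` is entire, injective, with values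
in `Wu F p`, so `Y ζ = ξ (c ζ + y)` (`affine_rel`). For each `j` take visits `k₀ ≤ -j`,
`k₀ + P ≥ j`, `RChain.periodize`, the saddle `q j` (`RChain.saddle`), the linearizers of its
reversed chain (`RChain.slin` for `RChain.rev`: a parametrization of `Wu F (q j)`). In the chart
`A 0` the points `q j` tend to `ξ y` (`Chain.sep` for `fwc F A (-j)` on `[0, 2 j]`), so
`IsLin.conv` applies. Use `hQ` with radius `r / ‖c‖` and compactness. -/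
theorem qe_chain (hA : Aut F a) (hp : HalfG F d Gp Gm) (hm : HalfG F⁻¹ d Gm Gp) {κ : ℝ}
    (hκ : 1 < κ) (hQ : QE F d Gp κ) {p : E} (hs : IsSaddle F p) {ξ : ℂ → E}
    (hξ : IsUParam F p ξ) {y : ℂ} {Λ b δ c₀ : ℝ} {A₀ : Ch} {A : ℤ → Ch} {T : Set ℤ}
    (h : RChain F Λ b δ c₀ A₀ (ξ y) A T) (h1 : ∀ n, ∃ k ∈ T, n ≤ k) (h2 : ∀ n, ∃ k ∈ T, k ≤ n)
    {r : ℝ} (hr : 0 < r) (hz : ∃ ζ : ℂ, ‖ζ - y‖ ≤ r ∧ 1 < Gp (ξ ζ)) :
    ∃ ζ : ℂ, ‖ζ - y‖ ≤ r / κ ∧ 1 ≤ d * Gp (ξ ζ) := by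
  obtain ⟨ρ, hρ, hlin⟩ := exists_lin h.small
  have hθ := h.small.the_lt
  have hL : ∀ (x : E) (B : ℤ → Ch) (T' : Set ℤ), RChain F⁻¹ Λ b δ c₀ A₀.rev x B T' →
      ∃ Ψ l, IsLin (the Λ) ρ (fwc F⁻¹ B 0) ((B 0).pm⁻¹ x) Ψ l := fun x B T' h' =>
    hlin _ (h'.chain 0) _ (le_trans (by simpa using h'.orb 0) (by norm_num : (1 : ℝ) / 100 ≤ _))
      (by simpa using h'.stay 0)
  have h' := h.rev
  obtain ⟨Ψ, l, hl⟩ := hL _ _ _ h'
  have a1 : ∀ (n : ℕ) (w : E), (F⁻¹ ^ n) ((rvc A 0).pm w) =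
      (rvc A (0 + n)).pm (cmp (fwc F⁻¹ (rvc A) 0) n w) := fun n w => by simp [cmp_fwc]
  obtain ⟨c, e, hc, hY⟩ := affine_rel hA hp hm hs hξ (Y := fun ζ => (rvc A 0).pm (Ψ 0 ζ))
    ((Ch.diff _).comp (hl.diff 0)) ((rvc A 0).pm.injective.comp (hl.inj hρ hθ)) fun ζ => by
      have a2 : ξ y ∈ Wu F p := hξ.2.2 ▸ mem_range_self y
      have a3 := ((QZero_lim hρ hθ hl ζ).const_mul (2 * 1)).add a2
      rw [mul_zero, add_zero] at a3
      refine squeeze_zero (fun _ => dist_nonneg) (fun n => (dist_triangle _ ((F⁻¹ ^ n) (ξ y)) _).trans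
        (add_le_add ?_ le_rfl)) a3
      have a4 := a1 n ((rvc A 0).pm⁻¹ (ξ y))
      rw [Equiv.Perm.coe_inv, Equiv.apply_symm_apply, ← Equiv.Perm.coe_inv] at a4
      rw [dist_eq_norm, a1, a4]
      exact Ch.norm_pm_sub (h'.det _) (h'.up _).1 (h'.up _).2 _ _
  obtain rfl : y = e := hξ.2.1 (by simpa [hl.zero, cmp] using hY 0)
  have a2 : ∀ j : ℕ, ∃ (A' : ℤ → Ch) (q : E) (Ψ' : ℕ → ℂ → E) (l' : ℕ → ℂ),
      (∀ k : ℤ, -j ≤ k → k ≤ j → rvc A' k = rvc A k) ∧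
      RChain F⁻¹ Λ b δ c₀ A₀.rev q (rvc A') ∅ ∧
      IsLin (the Λ) ρ (fwc F⁻¹ (rvc A') 0) ((rvc A 0).pm⁻¹ q) Ψ' l' ∧ IsSaddle F q ∧
      IsUParam F q (fun ζ => (rvc A 0).pm (Ψ' 0 ζ)) := fun j => by
    obtain ⟨k₀, b1, b2⟩ := h2 (-j)
    obtain ⟨k₁, b3, b4⟩ := h1 (j + 1)
    obtain ⟨P, rfl⟩ : ∃ P : ℕ, k₁ = k₀ + P := ⟨(k₁ - k₀).toNat, by omega⟩
    have hP : 0 < P := by omega
    obtain ⟨A', q, b5, b6, b7, b8⟩ := h.periodize hP b1 b3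
    have b9 : ∀ k : ℤ, -j ≤ k → k ≤ j → rvc A' k = rvc A k := fun k _ _ => by
      rw [rvc, rvc, b8 _ (by omega) (by omega)]
    obtain ⟨Ψ', l', b10⟩ := hL _ _ _ b5.rev
    obtain ⟨m, b11⟩ := RChain.slin hA.inv (A := rvc A') b5.rev hP
      (fun k => by rw [rvc, rvc, ← b6 (-(k + P)), neg_add, neg_add_cancel_right])
      (by rw [inv_pow, Equiv.Perm.inv_eq_iff_eq, b7]) hρ b10
    rw [b9 0 (by omega) (by omega)] at b10 b11
    exact ⟨A', q, Ψ', l', b9, b5.rev, b10, b5.saddle hA hP b6 b7, b11.par⟩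
  choose A' q Ψ' l' b1 b2 b3 b4 b5 using a2
  have a3 := hl.conv (h'.chain 0) hρ hθ b3 (fun n => by
      filter_upwards [eventually_gt_atTop n] with j hj
      rw [fwc, fwc, b1 j _ (by omega) (by omega), b1 j _ (by omega) (by omega)]) (by
      have a4 := (tendsto_pow_atTop_nhds_zero_of_lt_one h.small.the_pos.le hθ).const_mul 2
      rw [mul_zero] at a4
      exact tendsto_iff_norm_sub_tendsto_zero.2 (squeeze_zero (fun _ => norm_nonneg _)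
        (fun j => QZero_close h' (b2 j) j (b1 j)) a4))
  have a4 : Continuous fun w => Gp ((rvc A 0).pm w) := hp.cont.comp (Ch.diff _).continuous
  have a5 := norm_pos_iff.2 hc
  obtain ⟨ζ₀, a6, a7⟩ := hz
  have a8 : ‖(ζ₀ - y) / c‖ ≤ r / ‖c‖ := by
    rw [norm_div]
    gcongr
  obtain ⟨t, t1, t2⟩ := QZero_cpt (isCompact_closedBall 0 (r / ‖c‖ / κ)) (hl.diff 0).continuous
    (a3 _) (isClosed_le continuous_const (continuous_const.mul a4) (f := fun _ => 1)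
      (g := fun w => d * Gp ((rvc A 0).pm w))) (by
      have a9 := (a4.tendsto _).comp ((a3 _).tendsto_at (mem_closedBall_zero_iff.2 a8))
      rw [hY, mul_div_cancel₀ _ hc, sub_add_cancel] at a9
      filter_upwards [a9.eventually_const_lt a7] with j hj
      obtain ⟨t, t1, t2⟩ := hQ _ _ _ (b4 j) (b5 j) (by simp [(b3 j).zero, cmp]) (div_pos hr a5)
        ⟨_, a8, hj⟩
      exact ⟨t, mem_closedBall_zero_iff.2 t1, t2⟩)
  refine ⟨c * t + y, ?_, hY t ▸ t2⟩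
  rw [add_sub_cancel_right, norm_mul, ← le_div_iff₀' a5, div_right_comm]
  exact mem_closedBall_zero_iff.1 t1

/-- Density of transversal homoclinic points. Let `φ, ψ` be the stable and unstable linearizers
of `p` (`IsSaddle.slin` for `F` and `F⁻¹`), `ξ t = ψ (c t + e)` (`affine_rel`). `Act Gp ξ y` holds
at a frontier point. `inter` for `X = ξ` on `ball y (1/(j+1))` and `Y = φ` (`SLin.act`) gives
`y j → y` with `F^n (ξ (y j)) = φ η` transversally; `homoclinic_chain`, then `qe_chain` at `y j`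
with radius `r + ‖y j - y‖`, and compactness. -/
theorem qe_bdry (h : Sys F a d Gp Gm μ) (ha : ‖a‖ < 1) {κ : ℝ} (hκ : 1 < κ) (hQ : QE F d Gp κ)
    {p : E} (hs : IsSaddle F p) {ξ : ℂ → E} (hξ : IsUParam F p ξ) {y : ℂ}
    (hy : y ∈ frontier {ζ | 0 < Gp (ξ ζ)}) {r : ℝ} (hr : 0 < r)
    (hz : ∃ ζ : ℂ, ‖ζ - y‖ ≤ r ∧ 1 < Gp (ξ ζ)) :
    ∃ ζ : ℂ, ‖ζ - y‖ ≤ r / κ ∧ 1 ≤ d * Gp (ξ ζ) := by
  have hA := h.aut
  obtain ⟨φ, P, m, hφ⟩ := hs.slin hA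
  obtain ⟨ψ, P', m', hψ⟩ := (hs.inv hA).slin hA.inv
  obtain ⟨c, e, -, he⟩ := affine_rel hA h.gp h.gm hs (ξ := ψ) hψ.par hξ.1 hξ.2.1
    fun ζ => hξ.2.2 ▸ mem_range_self ζ
  have h1 : Continuous fun ζ => Gp (ξ ζ) := h.gp.cont.comp hξ.1.continuous
  rw [(isOpen_lt continuous_const h1).frontier_eq] at hy
  have h2 : Act Gp ξ y := ⟨le_antisymm (not_lt.1 hy.2) (h.gp.nonneg _),
    (mem_closure_iff_frequently.1 hy.1).mono fun t ht => ne_of_gt ht⟩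
  obtain ⟨ζ₀, h3, h4⟩ := hz
  have h5 : ∀ ε > 0, ∃ ζ, 1 ≤ d * Gp (ξ ζ) ∧ dist y ζ ≤ r / κ + ε := fun ε hε => by
    obtain ⟨n, y', η, a1, -, a2, a3⟩ := inter h ha (half_pos hε) one_pos hξ.1.differentiableOn
      hφ.par.1.differentiableOn h2 (hφ.act h.gp h.gm)
    have a4 : deriv (fun t => (F ^ n) (ξ t)) y' =
        c • deriv (fun t => (F ^ n) (ψ t)) (c * y' + e) := by
      rw [← deriv_comp_add_const, ← deriv_comp_mul_left]
      simp only [he]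
    obtain ⟨Λ, b, δ, c₀, A₀, A, T, a5, a6, a7⟩ := homoclinic_chain hA hφ hψ (he y' ▸ a2)
      fun a5 => a3 (by rw [a4, ← one_smul ℂ (deriv φ η), det2_smul, a5, mul_zero])
    rw [mem_ball_iff_norm] at a1
    obtain ⟨ζ, a8, a9⟩ := qe_chain hA h.gp h.gm hκ hQ hs hξ ((he y').symm ▸ a5) a6 a7
      (r := r + ε / 2) (by positivity) ⟨ζ₀, by
        linarith [norm_sub_le_norm_sub_add_norm_sub ζ₀ y y', norm_sub_rev y y'], h4⟩
    refine ⟨ζ, a9, ?_⟩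
    rw [add_div] at a8
    rw [dist_comm, dist_eq_norm]
    linarith [norm_sub_le_norm_sub_add_norm_sub ζ y' y, div_le_self (half_pos hε).le hκ.le]
  obtain ⟨ζ, h6, h7⟩ := (isClosed_le continuous_const (continuous_const.mul h1)
    (f := fun _ => 1) (g := fun ζ => d * Gp (ξ ζ))).exists_infDist_eq_dist
      ((h5 1 one_pos).imp fun _ h => h.1) y
  refine ⟨ζ, le_of_forall_pos_le_add fun ε hε => ?_, h6⟩
  obtain ⟨w, h8, h9⟩ := h5 ε hε
  rw [← dist_eq_norm, dist_comm, ← h7]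
  exact (infDist_le_dist_of_mem (by exact h8)).trans h9

end Pool.Agent.Lib.MP_7b5e47_an.Hn
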