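import Pool.Agent.Lib.MP_7b5e47_an.Hn.Defs

namespace Pool.Agent.Lib.MP_7b5e47_an.Hn

open Filter Topology Set Metric MeasureTheory

/-! Gradient lines: crossing an annulus, and landing. -/

theorem PRay_anti {f : ℝ → ℝ} {a b : ℝ} (hab : a ≤ b) (hc : ContinuousOn f (Icc a b))
    (h : ∀ t ∈ Ioo a b, ∃ f', f' ≤ 0 ∧ HasDerivAt f f' t) : f b ≤ f a := by
  refine antitoneOn_of_deriv_nonpos (convex_Icc a b) hc (fun t ht => ?_) (fun t ht => ?_)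
    (left_mem_Icc.2 hab) (right_mem_Icc.2 hab) hab
  · rw [interior_Icc] at ht
    obtain ⟨f', -, h2⟩ := h t ht
    exact h2.differentiableAt.differentiableWithinAt
  · rw [interior_Icc] at ht
    obtain ⟨f', h1, h2⟩ := h t ht
    rwa [h2.deriv]

theorem PRay_deriv {v : ℂ → ℝ} {γ : ℝ → ℂ} {t c : ℝ} (hv : DifferentiableAt ℝ v (γ t))
    (hγ : HasDerivAt γ (-(c • gradient v (γ t))) t) :
    HasDerivAt (fun t => v (γ t)) (-(c * ‖gradient v (γ t)‖ ^ 2)) t := by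
  have h := hv.hasGradientAt.hasFDerivAt.comp_hasDerivAt t hγ
  rw [InnerProductSpace.toDual_apply_apply, inner_neg_right, real_inner_smul_right,
    real_inner_self_eq_norm_sq] at h
  exact h

theorem PRay_mono {v : ℂ → ℝ} {γ : ℝ → ℂ} {a b : ℝ} (hab : a ≤ b)
    (hγ : ∀ t ∈ Icc a b, DifferentiableAt ℝ v (γ t) ∧
      ∃ c : ℝ, 0 ≤ c ∧ HasDerivAt γ (-(c • gradient v (γ t))) t) : v (γ b) ≤ v (γ a) := by
  refine PRay_anti (f := fun t => v (γ t)) hab (fun t ht => ?_) fun t ht => ?_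
  · obtain ⟨h1, c, -, h2⟩ := hγ t ht
    exact (PRay_deriv h1 h2).continuousAt.continuousWithinAt
  · obtain ⟨h1, c, hc, h2⟩ := hγ t (Ioo_subset_Icc_self ht)
    exact ⟨_, neg_nonpos.2 (by positivity), PRay_deriv h1 h2⟩

theorem PRay_norm {γ : ℝ → ℂ} {t : ℝ} {w z : ℂ} (hγ : HasDerivAt γ w t) (h0 : 0 < ‖γ t - z‖) :
    ∃ r, r ≤ ‖w‖ ∧ HasDerivAt (fun t => ‖γ t - z‖) r t := by
  have h1 := ((hγ.sub_const z).norm_sq).sqrt (by positivity)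
  simp only [Real.sqrt_sq (norm_nonneg _)] at h1
  refine ⟨_, ?_, h1⟩
  rw [div_le_iff₀ (by positivity)]
  have := real_inner_le_norm (γ t - z) w
  linarith

/-- Crossing lemma. Let `a` be the last time in `[t₁, t₂]` with `‖γ t - z‖ ≤ σ₁` and `b` the first
time after `a` with `‖γ t - z‖ = σ₂`. `v ∘ γ` has derivative `-c ‖∇v‖^2 ≤ 0` on `[t₁, t₂]`, and on
`[a, b]` the function `v (γ t) + g ‖γ t - z‖` has derivative at most
`-c ‖∇v‖^2 + g c ‖∇v‖ ≤ 0` (the norm is differentiable away from `0`). -/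
theorem cross {v : ℂ → ℝ} {γ : ℝ → ℂ} {t₁ t₂ : ℝ} (ht : t₁ ≤ t₂)
    (hγ : ∀ t ∈ Icc t₁ t₂, DifferentiableAt ℝ v (γ t) ∧
      ∃ c : ℝ, 0 ≤ c ∧ HasDerivAt γ (-(c • gradient v (γ t))) t)
    {σ₁ σ₂ g : ℝ} (h1 : 0 < σ₁) (h2 : σ₁ < σ₂) (hg : 0 ≤ g)
    (hgr : ∀ ζ, σ₁ ≤ ‖ζ - γ t₁‖ → ‖ζ - γ t₁‖ ≤ σ₂ → g ≤ ‖gradient v ζ‖)
    (hout : σ₂ ≤ ‖γ t₂ - γ t₁‖) : v (γ t₂) + g * (σ₂ - σ₁) ≤ v (γ t₁) := by
  have hc : ContinuousOn γ (Icc t₁ t₂) := fun t ht => by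
    obtain ⟨-, c, -, h⟩ := hγ t ht
    exact h.continuousAt.continuousWithinAt
  have hr : ContinuousOn (fun t => ‖γ t - γ t₁‖) (Icc t₁ t₂) := (hc.sub continuousOn_const).norm
  obtain ⟨a, ⟨ha, ha1⟩, ha2⟩ := (isCompact_Icc.of_isClosed_subset
    (hr.preimage_isClosed_of_isClosed isClosed_Icc (isClosed_Iic (a := σ₁)))
    inter_subset_left).exists_isGreatest ⟨t₁, left_mem_Icc.2 ht, by simpa using h1.le⟩
  have hs : Icc a t₂ ⊆ Icc t₁ t₂ := Icc_subset_Icc_left ha.1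
  obtain ⟨b, ⟨hb, hb1⟩, hb2⟩ := (isCompact_Icc.of_isClosed_subset
    ((hr.mono hs).preimage_isClosed_of_isClosed isClosed_Icc (isClosed_Ici (a := σ₂)))
    inter_subset_left).exists_isLeast ⟨t₂, right_mem_Icc.2 ha.2, hout⟩
  have hs' : Icc a b ⊆ Icc t₁ t₂ := Icc_subset_Icc ha.1 hb.2
  have e1 : v (γ a) ≤ v (γ t₁) := PRay_mono ha.1 fun t h => hγ t (Icc_subset_Icc_right ha.2 h)
  have e2 : v (γ t₂) ≤ v (γ b) :=
    PRay_mono hb.2 fun t h => hγ t (Icc_subset_Icc_left (ha.1.trans hb.1) h)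
  have e3 : v (γ b) + g * ‖γ b - γ t₁‖ ≤ v (γ a) + g * ‖γ a - γ t₁‖ := by
    refine PRay_anti (f := fun t => v (γ t) + g * ‖γ t - γ t₁‖) hb.1
      (ContinuousOn.add (fun t h => ?_) (continuousOn_const.mul (hr.mono hs'))) fun t h => ?_
    · obtain ⟨h1, c, -, h2⟩ := hγ t (hs' h)
      exact (PRay_deriv h1 h2).continuousAt.continuousWithinAt
    · have hm := hs' (Ioo_subset_Icc_self h)
      obtain ⟨h3, c, hc0, h4⟩ := hγ t hm
      have h5 : σ₁ < ‖γ t - γ t₁‖ := not_le.1 fun h5 => (ha2 ⟨hm, h5⟩).not_gt h.1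
      have h6 : ‖γ t - γ t₁‖ < σ₂ := not_le.1 fun h6 => (hb2 ⟨⟨h.1.le, hm.2⟩, h6⟩).not_gt h.2
      obtain ⟨r, hr1, hr2⟩ := PRay_norm h4 (h1.trans h5)
      refine ⟨_, ?_, (PRay_deriv h3 h4).add (hr2.const_mul g)⟩
      rw [norm_neg, norm_smul, Real.norm_of_nonneg hc0] at hr1
      have h7 := hgr _ h5.le h6.le
      have h8 := mul_le_mul_of_nonneg_left hr1 hg
      have h9 := mul_le_mul_of_nonneg_right h7 (mul_nonneg hc0 (norm_nonneg (gradient v (γ t))))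
      nlinarith
  have e4 := mul_le_mul_of_nonneg_left (show ‖γ a - γ t₁‖ ≤ σ₁ from ha1) hg
  have e5 := mul_le_mul_of_nonneg_left (show σ₂ ≤ ‖γ b - γ t₁‖ from hb1) hg
  linarith

theorem ray_anti {v : ℂ → ℝ} {γ : ℝ → ℂ}
    (hγ : ∀ t, 0 < t → DifferentiableAt ℝ v (γ t) ∧
      ∃ c : ℝ, 0 ≤ c ∧ HasDerivAt γ (-(c • gradient v (γ t))) t) :
    AntitoneOn (fun t => v (γ t)) (Ioi 0) := by
  intro a ha b _ hab
  exact PRay_mono hab fun t ht => hγ t (lt_of_lt_of_le ha ht.1)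

/-- Landing lemma. Put `a t = ‖γ t‖ + 1`, `q = (1 - ε) ^ β` (WLOG `ε < 1`), `C' = C / (1 - q)`.
Claim, by induction on `n`: if `T ≤ t₁ ≤ t₂` and `(1 - ε)^n h t₁ < h t₂` then
`‖γ t₂ - γ t₁‖ ≤ a t₁ (exp (C' h t₁ ^ β) - 1)`. If `‖γ t₂ - γ t₁‖ ≥ C h t₁ ^ β a t₁`, take `τ` in
`[t₁, t₂]` with equality (intermediate values), so `h τ ≤ (1 - ε) h t₁`, and apply the induction
hypothesis to `τ, t₂`. Hence `γ` is bounded and Cauchy. -/
theorem land {γ : ℝ → ℂ} {h : ℝ → ℝ} {T C β ε : ℝ} (hc : ContinuousOn γ (Ici T))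
    (hp : ∀ t ≥ T, 0 < h t) (ha : AntitoneOn h (Ici T)) (hl : Tendsto h atTop (𝓝 0))
    (hC : 0 < C) (hβ : 0 < β) (hε : 0 < ε)
    (hd : ∀ t₁ t₂, T ≤ t₁ → t₁ ≤ t₂ → C * h t₁ ^ β * (‖γ t₁‖ + 1) ≤ ‖γ t₂ - γ t₁‖ →
      h t₂ ≤ (1 - ε) * h t₁) : ∃ z, Tendsto γ atTop (𝓝 z) := by
  obtain ⟨θ, hθ0, hθ1, hθ⟩ : ∃ θ : ℝ, 0 < θ ∧ θ < 1 ∧ 1 - ε ≤ θ :=
    ⟨max (1 / 2) (1 - ε), lt_max_of_lt_left (by norm_num), max_lt (by norm_num) (by linarith),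
      le_max_right _ _⟩
  have hq0 : 0 < θ ^ β := Real.rpow_pos_of_pos hθ0 _
  have hq1 : θ ^ β < 1 := Real.rpow_lt_one hθ0.le hθ1 hβ
  obtain ⟨D, hD0, hD⟩ : ∃ D : ℝ, 0 < D ∧ C + D * θ ^ β = D := by
    have : 0 < 1 - θ ^ β := by linarith
    refine ⟨C / (1 - θ ^ β), by positivity, ?_⟩
    field_simp
    ring
  have key : ∀ (n : ℕ) (t₁ t₂ : ℝ), T ≤ t₁ → t₁ ≤ t₂ → θ ^ n * h t₁ < h t₂ →
      ‖γ t₂ - γ t₁‖ ≤ (‖γ t₁‖ + 1) * (Real.exp (D * h t₁ ^ β) - 1) := by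
    intro n
    induction n with
    | zero =>
      intro t₁ t₂ h1 h2 h3
      have := ha h1 (h1.trans h2) h2
      rw [pow_zero, one_mul] at h3
      linarith
    | succ n ih =>
      intro t₁ t₂ h1 h2 h3
      have hy : 0 < h t₁ ^ β := Real.rpow_pos_of_pos (hp t₁ h1) _
      have hA : 0 < ‖γ t₁‖ + 1 := by positivity
      by_cases h4 : ‖γ t₂ - γ t₁‖ ≤ C * h t₁ ^ β * (‖γ t₁‖ + 1)
      · refine h4.trans ?_
        rw [mul_comm]
        refine mul_le_mul_of_nonneg_left ?_ hA.le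
        have h5 := Real.add_one_le_exp (D * h t₁ ^ β)
        have h6 : C * h t₁ ^ β ≤ D * h t₁ ^ β :=
          mul_le_mul_of_nonneg_right (by nlinarith [mul_pos hD0 hq0]) hy.le
        linarith
      · have hr : ContinuousOn (fun t => ‖γ t - γ t₁‖) (Icc t₁ t₂) :=
          ((hc.mono fun t ht => h1.trans ht.1).sub continuousOn_const).norm
        obtain ⟨τ, hτ, hτe⟩ := intermediate_value_Icc h2 hr
          (show C * h t₁ ^ β * (‖γ t₁‖ + 1) ∈ Icc ‖γ t₁ - γ t₁‖ ‖γ t₂ - γ t₁‖ from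
            ⟨by rw [sub_self, norm_zero]; positivity, (not_le.1 h4).le⟩)
        simp only at hτe
        have h5 : h τ ≤ θ * h t₁ := (hd t₁ τ h1 hτ.1 hτe.ge).trans
          (mul_le_mul_of_nonneg_right hθ (hp t₁ h1).le)
        have h6 := ih τ t₂ (h1.trans hτ.1) hτ.2 (lt_of_le_of_lt (by
          rw [pow_succ, mul_assoc]
          exact mul_le_mul_of_nonneg_left h5 (by positivity)) h3)
        have h7 : h τ ^ β ≤ θ ^ β * h t₁ ^ β := by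
          rw [← Real.mul_rpow hθ0.le (hp t₁ h1).le]
          exact Real.rpow_le_rpow (hp τ (h1.trans hτ.1)).le h5 hβ.le
        have h8 : ‖γ τ‖ + 1 ≤ (‖γ t₁‖ + 1) * (1 + C * h t₁ ^ β) := by
          have := norm_le_norm_add_norm_sub' (γ τ) (γ t₁)
          linarith
        have h9 : Real.exp (D * h τ ^ β) ≤ Real.exp (D * (θ ^ β * h t₁ ^ β)) :=
          Real.exp_le_exp.2 (mul_le_mul_of_nonneg_left h7 hD0.le)
        have h10 : 1 ≤ Real.exp (D * h τ ^ β) := Real.one_le_exp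
          (mul_nonneg hD0.le (Real.rpow_nonneg (hp τ (h1.trans hτ.1)).le _))
        have h11 : (1 + C * h t₁ ^ β) * Real.exp (D * (θ ^ β * h t₁ ^ β)) ≤
            Real.exp (D * h t₁ ^ β) := by
          have e : D * h t₁ ^ β = C * h t₁ ^ β + D * (θ ^ β * h t₁ ^ β) := by
            linear_combination (-h t₁ ^ β) * hD
          rw [e, Real.exp_add]
          exact mul_le_mul_of_nonneg_right (by linarith [Real.add_one_le_exp (C * h t₁ ^ β)])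
            (Real.exp_pos _).le
        have h12 : ‖γ t₂ - γ τ‖ ≤ (‖γ t₁‖ + 1) * (1 + C * h t₁ ^ β) *
            (Real.exp (D * (θ ^ β * h t₁ ^ β)) - 1) :=
          h6.trans (mul_le_mul h8 (by linarith) (by linarith) (by positivity))
        have h13 := norm_sub_le_norm_sub_add_norm_sub (γ t₂) (γ τ) (γ t₁)
        have h14 := mul_le_mul_of_nonneg_left h11 hA.le
        nlinarith
  have key2 : ∀ t₁ t₂ : ℝ, T ≤ t₁ → t₁ ≤ t₂ →
      ‖γ t₂ - γ t₁‖ ≤ (‖γ t₁‖ + 1) * (Real.exp (D * h t₁ ^ β) - 1) := by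
    intro t₁ t₂ h1 h2
    obtain ⟨n, hn⟩ := exists_pow_lt_of_lt_one (div_pos (hp t₂ (h1.trans h2)) (hp t₁ h1)) hθ1
    exact key n t₁ t₂ h1 h2 ((lt_div_iff₀ (hp t₁ h1)).1 hn)
  obtain ⟨M, hM⟩ : ∃ M : ℝ, ∀ t, T ≤ t → ‖γ t‖ + 1 ≤ M := by
    refine ⟨‖γ T‖ + 1 + (‖γ T‖ + 1) * (Real.exp (D * h T ^ β) - 1), fun t ht => ?_⟩
    have h1 := key2 T t le_rfl ht
    have h2 := norm_le_norm_add_norm_sub' (γ t) (γ T)
    linarith
  have hlim : Tendsto (fun t => M * (Real.exp (D * h t ^ β) - 1)) atTop (𝓝 0) := by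
    have h1 : Tendsto (fun t => h t ^ β) atTop (𝓝 0) := by
      have := (Real.continuousAt_rpow_const 0 β (Or.inr hβ.le)).tendsto.comp hl
      rwa [Real.zero_rpow hβ.ne'] at this
    have h2 : Continuous fun x : ℝ => M * (Real.exp (D * x) - 1) := by fun_prop
    simpa [Function.comp_def] using (h2.tendsto 0).comp h1
  refine cauchySeq_tendsto_of_complete (Metric.cauchySeq_iff'.2 fun δ hδ => ?_)
  obtain ⟨N, hN1, hN2⟩ := ((hlim.eventually (gt_mem_nhds hδ)).and (eventually_ge_atTop T)).exists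
  refine ⟨N, fun t ht => ?_⟩
  rw [dist_eq_norm]
  refine lt_of_le_of_lt ((key2 N t hN2 ht).trans (mul_le_mul_of_nonneg_right (hM N hN2) ?_)) hN1
  have := Real.one_le_exp (mul_nonneg hD0.le (Real.rpow_nonneg (hp N hN2).le β))
  linarith

end Pool.Agent.Lib.MP_7b5e47_an.Hn
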