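import Pool.Agent.Lib.MP_7b5e47_an.Hn.RRad
import Pool.Agent.Lib.MP_7b5e47_an.Hn.PRay

namespace Pool.Agent.Lib.MP_7b5e47_an.Hn

open Filter Topology Set Metric MeasureTheory

variable {F : Pm} {a : ℂ} {d : ℝ} {Gp Gm : E → ℝ} {κ : ℝ} {ξ : ℂ → E}

theorem RLand_grad (v : ℂ → ℝ) (y ζ : ℂ) {m r : ℝ} (hm : 0 ≤ m) (hr : 0 ≤ r) :
    ‖gradient (fun t => m * v (y + r * t)) ζ‖ = m * r * ‖gradient v (y + r * ζ)‖ := by
  have e : (fun t : ℂ => m * v (y + r * t)) = m • fun t : ℂ => (fun s => v (y + s)) (r • t) := by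
    funext t
    simp
  rw [PAnn_norm_grad, PAnn_norm_grad, e, fderiv_const_smul_field, Pi.smul_apply,
    fderiv_comp_smul (f := fun s => v (y + s)), fderiv_comp_add_left, norm_smul, norm_smul,
    Real.norm_of_nonneg hm, Real.norm_of_nonneg hr, Complex.real_smul, mul_assoc]

/-- moving by `rad i y` lowers the Green function by a definite amount -/
theorem RLand_drop (hA : Aut F a) (hp : HalfG F d Gp Gm) (hm : HalfG F⁻¹ d Gm Gp)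
    (h : Leaf d Gp Gm κ ξ) (T : ℝ) : ∃ ε > 0, ∀ (i : ℤ), ∀ y ∈ Jx Gp ξ, ∀ (γ : ℝ → ℂ) (t₁ t₂ : ℝ),
      t₁ ≤ t₂ → (∀ t ∈ Icc t₁ t₂, DifferentiableAt ℝ (fun ζ => Gp (ξ ζ)) (γ t) ∧ ∃ c : ℝ, 0 ≤ c ∧
        HasDerivAt γ (-(c • gradient (fun ζ => Gp (ξ ζ)) (γ t))) t) →
      1 / d ≤ d ^ i * Gp (ξ (γ t₁)) → ‖γ t₁ - y‖ ≤ T * rad d Gp ξ i y →
      rad d Gp ξ i y ≤ ‖γ t₂ - γ t₁‖ → d ^ i * Gp (ξ (γ t₂)) + ε ≤ d ^ i * Gp (ξ (γ t₁)) := by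
  have hd : 0 < d := zero_lt_one.trans hp.one_lt
  obtain ⟨B, hB⟩ := h.bound hp hm (T + 2)
  obtain ⟨ε, hε, H⟩ := annulus hp T B (one_div_pos.2 hd)
  refine ⟨ε, hε, fun i y hy γ t₁ t₂ ht hγ h1 h2 h3 => ?_⟩
  have hB' := hB i y hy
  have hr := (h.rad_spec hp i hy).1
  generalize rad d Gp ξ i y = r at *
  have hr' : (r : ℂ) ≠ 0 := by exact_mod_cast hr.ne'
  have hdi : 0 < d ^ i := zpow_pos hd i
  have e1 : ∀ w : ℂ, y + r * ((w - y) / r) = w := fun w => by field_simp; ring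
  obtain ⟨σ₁, σ₂, g, s1, s2, s3, s4, s5, s6⟩ := H (fun ζ => (F ^ i) (ξ (y + r * ζ)))
    ((γ t₁ - y) / r) (((hA.zdiff i).comp (h.diff.comp (by fun_prop))).differentiableOn)
    (fun ζ hζ => hB' ζ (mem_ball_zero_iff.1 hζ).le)
    (by simp only [hp.zequi, mul_zero, add_zero, (h.act hp hy).1])
    (by rwa [norm_div, Complex.norm_real, Real.norm_of_nonneg hr.le, div_le_iff₀ hr])
    (by simpa only [hp.zequi, e1] using h1)
  have h4 := cross ht hγ (σ₁ := r * σ₁) (σ₂ := r * σ₂) (g := g / (d ^ i * r)) (by positivity)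
    (mul_lt_mul_of_pos_left s2 hr) (by positivity) (fun ζ z1 z2 => ?_)
    ((mul_le_of_le_one_right hr.le s3).trans h3)
  · have h5 := mul_le_mul_of_nonneg_left h4 hdi.le
    have e2 : d ^ i * (g / (d ^ i * r) * (r * σ₂ - r * σ₁)) = g * (σ₂ - σ₁) := by field_simp
    rw [mul_add, e2] at h5
    linarith
  · have e3 : ‖(ζ - y) / r - (γ t₁ - y) / r‖ = ‖ζ - γ t₁‖ / r := by
      rw [← sub_div, sub_sub_sub_cancel_right, norm_div, Complex.norm_real,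
        Real.norm_of_nonneg hr.le]
    have h5 := s6 ((ζ - y) / r) (by rwa [e3, le_div_iff₀' hr]) (by rwa [e3, div_le_iff₀' hr])
    simp only [hp.zequi] at h5
    rw [RLand_grad (fun ζ => Gp (ξ ζ)) y _ hdi.le hr.le, e1] at h5
    rwa [div_le_iff₀' (by positivity)]

/-- Landing. `h t = Gp (ξ (γ t))` is antitone (`ray_anti`; `Gp ∘ ξ` is harmonic, so
differentiable, where it is positive). Given `t₁` large choose `i : ℕ` with
`1/d ≤ d^i h t₁ ≤ 1` and `y` from `hD`; `r = rad i y ≤ κ^(-i) (‖y‖ + C)` (`rad_le`), and for `i`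
large (`D₀ κ^(-i) ≤ 1/2`) `‖y‖ + C ≤ 2 (‖γ t₁‖ + C)`; `κ^(-i) ≤ (d h t₁)^β` for
`β = log κ / log d`. Apply `annulus` (`T = max D₀ 0`, `g = 1/d`, `bound`) to
`Ψ ζ = F^i (ξ (y + r ζ))`, whose Green function is `d^i Gp (ξ (y + r ζ))`, rescale the gradient
bound, and `cross`: moving by `r` lowers `h` by `ε d^(-i) ≥ ε h t₁`. Conclude with `land`. -/
theorem Leaf.lands (hA : Aut F a) (hp : HalfG F d Gp Gm) (hm : HalfG F⁻¹ d Gm Gp)
    (h : Leaf d Gp Gm κ ξ) {D₀ : ℝ} (hD : ∀ (i : ℤ) (z : ℂ), 1 / d ≤ d ^ i * Gp (ξ z) →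
      d ^ i * Gp (ξ z) ≤ 1 → ∃ y ∈ Jx Gp ξ, ‖z - y‖ ≤ D₀ * rad d Gp ξ i y) {γ : ℝ → ℂ}
    (hγ : ∀ t : ℝ, 0 < t → 0 < Gp (ξ (γ t)) ∧ ∃ c : ℝ, 0 ≤ c ∧
      HasDerivAt γ (-(c • gradient (fun ζ => Gp (ξ ζ)) (γ t))) t)
    (h0 : Tendsto (fun t => Gp (ξ (γ t))) atTop (𝓝 0)) : ∃ z, Tendsto γ atTop (𝓝 z) := by
  have hd1 := hp.one_lt
  have hd : 0 < d := zero_lt_one.trans hd1
  have hκ : 0 < κ := zero_lt_one.trans h.one_lt
  have hγ' : ∀ t, 0 < t → DifferentiableAt ℝ (fun ζ => Gp (ξ ζ)) (γ t) ∧ ∃ c : ℝ, 0 ≤ c ∧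
      HasDerivAt γ (-(c • gradient (fun ζ => Gp (ξ ζ)) (γ t))) t := fun t ht =>
    ⟨(hp.harm ξ _ (h.diff.analyticAt _) (hγ t ht).1).1.differentiableAt (by norm_num),
      (hγ t ht).2⟩
  obtain ⟨β, hβ, eβ⟩ : ∃ β : ℝ, 0 < β ∧ d ^ β = κ :=
    ⟨Real.logb d κ, Real.logb_pos hd1 h.one_lt, Real.rpow_logb hd hd1.ne' hκ⟩
  obtain ⟨C, hC, hrad⟩ := h.rad_le hp
  obtain ⟨ε, hε, hdrop⟩ := RLand_drop hA hp hm h (max D₀ 0)
  have hT0 : 0 ≤ max D₀ 0 := le_max_right _ _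
  have hl : Tendsto (fun t => max D₀ 0 * (κ * Gp (ξ (γ t)) ^ β)) atTop (𝓝 0) := by
    have h1 := (Real.continuousAt_rpow_const 0 β (Or.inr hβ.le)).tendsto.comp h0
    rw [Real.zero_rpow hβ.ne'] at h1
    simpa using (h1.const_mul κ).const_mul (max D₀ 0)
  obtain ⟨T, hT⟩ := eventually_atTop.1 ((eventually_gt_atTop (0 : ℝ)).and
    ((h0.eventually (ge_mem_nhds zero_lt_one)).and
      (hl.eventually (ge_mem_nhds (show (0 : ℝ) < 1 / 2 by norm_num)))))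
  refine land (h := fun t => Gp (ξ (γ t))) (T := T) (C := 2 * (1 + C) * κ) (ε := ε)
    (fun t ht => ?_) (fun t ht => (hγ t (hT t ht).1).1)
    ((ray_anti hγ').mono fun t ht => (hT t ht).1) h0 (by positivity) hβ hε
    fun t₁ t₂ h1 h2 h3 => ?_
  · obtain ⟨-, c, -, hc⟩ := hγ t (hT t ht).1
    exact hc.continuousAt.continuousWithinAt
  obtain ⟨k0, k1, k2⟩ := hT t₁ h1
  have k3 := (hγ t₁ k0).1
  obtain ⟨i, i1, i2⟩ := exists_nat_pow_near ((one_le_div k3).2 k1) hd1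
  rw [le_div_iff₀ k3] at i1
  rw [div_lt_iff₀ k3, pow_succ] at i2
  have i3 : 1 / d ≤ d ^ (i : ℤ) * Gp (ξ (γ t₁)) := by
    rw [zpow_natCast, div_le_iff₀ hd]
    linarith
  obtain ⟨y, hy, y1⟩ := hD i _ i3 (by rwa [zpow_natCast])
  have r0 := (h.rad_spec hp i hy).1
  have r1 := hrad i y hy
  have y2 : ‖γ t₁ - y‖ ≤ max D₀ 0 * rad d Gp ξ i y :=
    y1.trans (mul_le_mul_of_nonneg_right (le_max_left _ _) r0.le)
  have q0 : 0 < κ * Gp (ξ (γ t₁)) ^ β := mul_pos hκ (Real.rpow_pos_of_pos k3 β)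
  have q1 : 1 ≤ κ ^ i * (κ * Gp (ξ (γ t₁)) ^ β) := by
    rw [← eβ, Real.rpow_pow_comm hd.le, ← Real.mul_rpow hd.le k3.le,
      ← Real.mul_rpow (by positivity) (by positivity)]
    exact Real.one_le_rpow (by linarith) hβ.le
  have r2 : rad d Gp ξ i y ≤ κ * Gp (ξ (γ t₁)) ^ β * (‖y‖ + C) := by
    calc rad d Gp ξ i y ≤ κ ^ i * (κ * Gp (ξ (γ t₁)) ^ β) * rad d Gp ξ i y :=
          le_mul_of_one_le_left r0.le q1
      _ = κ * Gp (ξ (γ t₁)) ^ β * (κ ^ i * rad d Gp ξ i y) := by ring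
      _ ≤ _ := mul_le_mul_of_nonneg_left r1 q0.le
  have y3 : ‖y‖ + C ≤ 2 * (1 + C) * (‖γ t₁‖ + 1) := by
    have a1 := mul_le_mul_of_nonneg_left r2 hT0
    have a2 := mul_le_mul_of_nonneg_right k2 (show 0 ≤ ‖y‖ + C by positivity)
    have a3 := norm_le_norm_add_norm_sub (γ t₁) y
    have a4 := mul_nonneg hC (norm_nonneg (γ t₁))
    nlinarith
  have h4 := hdrop i y hy γ t₁ t₂ h2 (fun t ht => hγ' t (k0.trans_le ht.1)) i3 y2
    ((r2.trans (mul_le_mul_of_nonneg_left y3 q0.le)).trans (le_of_eq_of_le (by ring) h3))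
  rw [zpow_natCast] at h4
  refine le_of_mul_le_mul_left ?_ (pow_pos hd i)
  have h5 := mul_le_mul_of_nonneg_left i1 hε.le
  linarith

end Pool.Agent.Lib.MP_7b5e47_an.Hn
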