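import Pool.Agent.Lib.MP_7b5e47_an.Hn.RMain
import Pool.Agent.Lib.MP_7b5e47_an.Hn.RLand
import Pool.Agent.Lib.MP_7b5e47_an.Hn.QZero
import Pool.Agent.Lib.MP_7b5e47_an.Hn.HSys

namespace Pool.Agent.Lib.MP_7b5e47_an.Hn

open Filter Topology Set Metric MeasureTheory

variable {F : Pm} {a : ℂ} {d : ℝ} {Gp Gm : E → ℝ} {μ : Measure E} {κ : ℝ}

/-- `gm` by `Wu_subset`; `p` is in the range; the range is invariant under `F^N` (`F^N p = p`,
`mem_Wu_zpow`), so if `Gp ∘ ξ` were bounded it would vanish, `ξ` would be bounded (`proper`) and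
constant; `exp` is `qe_bdry` for the saddle `F^i p` and `F^i ∘ ξ` (`HalfG.zequi`; the positive set
does not change). -/
theorem leaf_of_qe (h : Sys F a d Gp Gm μ) (ha : ‖a‖ < 1) (hκ : 1 < κ) (hQ : QE F d Gp κ) {p : E}
    (hs : IsSaddle F p) {ξ : ℂ → E} (hξ : IsUParam F p ξ) : Leaf d Gp Gm κ ξ := by
  have hK := hs.mem_K
  have hd : 0 < d := zero_lt_one.trans h.gp.one_lt
  have hgm : ∀ ζ, Gm (ξ ζ) = 0 := fun ζ =>
    (h.gm.zero_iff _).2 (Wu_subset hK.2 (hξ.2.2 ▸ mem_range_self ζ))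
  refine ⟨hξ.1, hgm, ?_, fun B => ?_, hκ, fun i y hy r hr hz => ?_⟩
  · have h1 : p ∈ range ξ := by
      rw [hξ.2.2]
      simp [Wu]
    obtain ⟨ζ, rfl⟩ := h1
    exact ⟨ζ, (h.gp.zero_iff _).2 hK.1⟩
  · by_contra hB
    push Not at hB
    obtain ⟨R, hR⟩ := h.gp.proper B
    have h1 : Bornology.IsBounded (range ξ) := by
      refine isBounded_iff_forall_norm_le.2 ⟨R, ?_⟩
      rintro _ ⟨ζ, rfl⟩
      exact hR _ (hB ζ) ((hgm ζ).le.trans ((h.gp.nonneg _).trans (hB ζ)))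
    exact zero_ne_one (hξ.2.1 (hξ.1.apply_eq_apply_of_bounded h1 0 1))
  · have h1 : {ζ | 0 < Gp ((F ^ i) (ξ ζ))} = {ζ | 0 < Gp (ξ ζ)} := by
      ext ζ
      simp only [mem_ofPred_eq, h.gp.zequi]
      exact mul_pos_iff_of_pos_left (zpow_pos hd i)
    obtain ⟨ζ, h2, h3⟩ := qe_bdry h ha hκ hQ (hs.zpow h.aut i) (hξ.zpow h.aut hK.2 i) (y := y)
      (by rw [h1]; exact hy) hr (by simpa only [h.gp.zequi] using hz)
    refine ⟨ζ, h2, ?_⟩
    rwa [h.gp.zequi, ← mul_assoc, ← zpow_one_add₀ hd.ne', add_comm] at h3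

/-- `exists_sys`; `‖a‖ < 1` by `det2_map` and `jac` on the standard basis; `qe_of_quasi`,
`leaf_of_qe`, `depth_bound`, `Leaf.lands`. The limit `ξ z` has `Gp = 0` and is a limit of points
outside `K⁺`; it lies in `K⁻`, which has empty interior (`interior_Km`). -/
theorem target : Target := by
  intro L hL hdet hq p ξ γ hs hξ hγ
  obtain ⟨a, Gm, μ, h⟩ := exists_sys hL
  have ha : ‖a‖ < 1 := by
    have h1 := h.aut.jac 0 (1, 0) (0, 1)
    rw [det2_map] at h1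
    have h2 : (fderiv ℂ (⇑(comp L)) 0).det = a := by simpa [det2] using h1
    exact h2 ▸ hdet 0
  obtain ⟨κ, hκ, hQ⟩ := qe_of_quasi h.aut h.gp hq
  have hl := leaf_of_qe h ha hκ hQ hs hξ
  obtain ⟨D₀, hD⟩ := depth_bound h ha hl
  obtain ⟨z, hz⟩ := hl.lands h.aut h.gp h.gm hD (fun t ht => ⟨(h.gp.nonneg _).lt_of_ne
    fun e => (hγ.1 t ht).1 ((h.gp.zero_iff _).1 e.symm), (hγ.1 t ht).2⟩) hγ.2
  have h1 : Tendsto (fun t => ξ (γ t)) atTop (𝓝 (ξ z)) := (hξ.1.continuous.tendsto z).comp hz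
  refine ⟨ξ z, ⟨⟨subset_closure ((h.gp.zero_iff _).1 ?_), fun h2 => ?_⟩,
    ⟨subset_closure ((h.gm.zero_iff _).1 (hl.gm z)), ?_⟩⟩, h1⟩
  · exact tendsto_nhds_unique ((h.gp.cont.tendsto _).comp h1) hγ.2
  · obtain ⟨t, h3, h4⟩ := ((h1.eventually (isOpen_interior.mem_nhds h2)).and
      (eventually_gt_atTop 0)).exists
    exact (hγ.1 t h4).1 (interior_subset h3)
  · rw [interior_Km h.aut h.gp h.gm ha]
    exact notMem_empty _

end Pool.Agent.Lib.MP_7b5e47_an.Hn
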