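import Pool.Agent.Lib.MP_7b5e47_an.Hn.GStep

namespace Pool.Agent.Lib.MP_7b5e47_an.Hn

open Filter Topology Set Metric MeasureTheory

/-! The graph transform. -/

variable {Λ b δ : ℝ}

/-- fixed point of a contraction of a closed disc -/
theorem GHG_fix {T : ℂ → ℂ} {c : ℂ} {r k : ℝ} (hr : 0 ≤ r) (hk0 : 0 ≤ k) (hk : k < 1)
    (hm : ∀ t ∈ closedBall c r, T t ∈ closedBall c r)
    (hl : ∀ t ∈ closedBall c r, ∀ t' ∈ closedBall c r, ‖T t - T t'‖ ≤ k * ‖t - t'‖) :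
    ∃ t ∈ closedBall c r, T t = t := by
  have hmap : MapsTo T (closedBall c r) (closedBall c r) := hm
  have hc : ContractingWith ⟨k, hk0⟩ (hmap.restrict T _ _) := by
    refine ⟨by exact_mod_cast hk, LipschitzWith.of_dist_le_mul fun x y => ?_⟩
    have := hl x x.2 y y.2
    rw [Subtype.dist_eq, Subtype.dist_eq, dist_eq_norm, dist_eq_norm]
    exact this
  obtain ⟨y, hy, hf, -⟩ := ContractingWith.exists_fixedPoint' isClosed_closedBall.isComplete hmap hc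
    (mem_closedBall_self hr) (edist_ne_top _ _)
  exact ⟨y, hy, hf⟩

theorem GHG_deriv {c : ℂ} {ρ : ℝ} {η : ℂ → ℂ} (h : Gr c ρ η) {t : ℂ} (ht : t ∈ ball c ρ) :
    ‖deriv η t‖ ≤ 1 / 10 := by
  refine norm_deriv_le_of_lip' (by norm_num) ?_
  filter_upwards [isOpen_ball.mem_nhds ht] with x hx
  have := h.2.2 x hx t ht
  linarith

theorem GHG_norm_le {c : ℂ} {ρ : ℝ} {η : ℂ → ℂ} (hc : ‖c‖ + ρ ≤ 1) (h : Gr c ρ η) {t : ℂ}
    (ht : t ∈ ball c ρ) : ‖((t, η t) : E)‖ ≤ 1 := by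
  rw [Prod.norm_def]
  refine max_le ?_ (h.2.1 t ht)
  have h1 : ‖t - c‖ < ρ := by simpa [dist_eq_norm] using ht
  have h2 : ‖t‖ ≤ ‖c‖ + ‖t - c‖ := by simpa using norm_add_le c (t - c)
  show ‖t‖ ≤ 1
  linarith

theorem GHG_mono {c c' : ℂ} {ρ ρ' : ℝ} {η : ℂ → ℂ} (h : Gr c ρ η) (hs : ball c' ρ' ⊆ ball c ρ) :
    Gr c' ρ' η :=
  ⟨h.1.mono hs, fun t ht => h.2.1 t (hs ht), fun t ht t' ht' => h.2.2 t (hs ht) t' (hs ht')⟩

theorem GHG_small (hs : Small Λ b δ) : 0 < δ ∧ δ ≤ (Λ - 1) / 1000 ∧ 1 < Λ ∧ Λ ≤ 2 := by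
  obtain ⟨h1, h2, h3, h4, h5, h6⟩ := hs
  refine ⟨h5, h6.trans ?_, h1, h2⟩
  have : (Λ - 1) * b ≤ (Λ - 1) * 1 := mul_le_mul_of_nonneg_left h4 (by linarith)
  linarith

theorem GHG_the (hΛ : 1 < Λ) {x r : ℝ} : the Λ * x ≤ r ↔ x ≤ r * ((1 + Λ) / 2) := by
  unfold the
  rw [div_mul_eq_mul_div, div_le_iff₀ (by linarith)]
  constructor <;> intro h <;> linarith

/-- the image of a point of the vertical axis has a small first coordinate -/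
theorem GHG_fst {Φ : Pm} (h : Step Λ b δ Φ) (hδ : 0 ≤ δ) {y : ℂ} (hy : ‖y‖ ≤ 1) :
    ‖(Φ (0, y)).1‖ ≤ 2 * δ := by
  obtain ⟨α, β, -, -, -, -, h2, -⟩ := h.two
  have hz : ‖((0, y) : E)‖ ≤ 1 := by
    rw [Prod.norm_def]; exact max_le (by simp) hy
  have h3 := h2 (0, y) 0 hz (by simp)
  have h4 := (norm_fst_le _).trans h3
  simp only [sub_zero, Prod.fst_sub, mul_zero] at h4
  have h5 : ‖(Φ 0).1‖ ≤ δ := (norm_fst_le _).trans h.2.2.1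
  have h6 : δ * ‖((0, y) : E)‖ ≤ δ * 1 := mul_le_mul_of_nonneg_left hz hδ
  have h7 := norm_sub_norm_le (Φ (0, y)).1 (Φ 0).1
  linarith

/-- Quantitative inverse function theorem in one variable. `φ` is injective on the ball by `hl`.
Surjectivity onto the ball: `ApproximatesLinearOn.surjOn_closedBall_of_nonlinearRightInverse` on
closed balls of radius `r < ρ` (or the contraction `t ↦ t - (φ t - w) / α`). The inverse is
Lipschitz, hence continuous, and differentiable by `HasDerivAt.of_local_left_inverse`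
(`deriv φ ≠ 0` since `‖deriv φ - α‖ ≤ e < ‖α‖`). -/
theorem exists_inverse {φ : ℂ → ℂ} {c α : ℂ} {ρ e : ℝ} (hρ : 0 < ρ) (he : e < ‖α‖)
    (hd : DifferentiableOn ℂ φ (ball c ρ))
    (hl : ∀ t ∈ ball c ρ, ∀ t' ∈ ball c ρ, ‖φ t - φ t' - α * (t - t')‖ ≤ e * ‖t - t'‖) :
    ∃ τ : ℂ → ℂ, DifferentiableOn ℂ τ (ball (φ c) ((‖α‖ - e) * ρ)) ∧
      ∀ w ∈ ball (φ c) ((‖α‖ - e) * ρ), τ w ∈ ball c ρ ∧ φ (τ w) = w := by
  have hc0 : c ∈ ball c ρ := mem_ball_self hρ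
  have he0 : 0 ≤ e := by
    have h1 : c + ((ρ / 2 : ℝ) : ℂ) ∈ ball c ρ := by
      rw [mem_ball, dist_eq_norm, add_sub_cancel_left, Complex.norm_real, Real.norm_eq_abs,
        abs_of_pos (by linarith)]
      linarith
    have h2 := (norm_nonneg _).trans (hl _ h1 c hc0)
    rw [add_sub_cancel_left, Complex.norm_real, Real.norm_eq_abs, abs_of_pos (by linarith)] at h2
    by_contra hn
    have := mul_neg_of_neg_of_pos (not_le.1 hn) (half_pos hρ)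
    linarith
  have hα : 0 < ‖α‖ := by linarith
  have hα0 : α ≠ 0 := norm_pos_iff.1 hα
  have hlow : ∀ t ∈ ball c ρ, ∀ t' ∈ ball c ρ, (‖α‖ - e) * ‖t - t'‖ ≤ ‖φ t - φ t'‖ := by
    intro t ht t' ht'
    have h1 := hl t ht t' ht'
    have h2 := norm_sub_norm_le (α * (t - t')) (φ t - φ t')
    rw [norm_sub_rev (α * (t - t')), norm_mul] at h2
    linarith
  have hex : ∀ w ∈ ball (φ c) ((‖α‖ - e) * ρ), ∃ t ∈ ball c ρ, φ t = w := by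
    intro w hw
    have hw' : ‖w - φ c‖ < (‖α‖ - e) * ρ := by simpa [dist_eq_norm] using hw
    set r := ‖w - φ c‖ / (‖α‖ - e) with hr
    have hr0 : 0 ≤ r := div_nonneg (norm_nonneg _) (by linarith)
    have hrρ : r < ρ := by rw [hr, div_lt_iff₀ (by linarith)]; linarith
    have hre : ‖w - φ c‖ = (‖α‖ - e) * r := by
      rw [hr, mul_div_cancel₀ _ (by linarith)]
    have hsub : closedBall c r ⊆ ball c ρ := closedBall_subset_ball hrρ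
    have hL : ∀ t ∈ closedBall c r, ∀ t' ∈ closedBall c r,
        ‖(t - (φ t - w) / α) - (t' - (φ t' - w) / α)‖ ≤ e / ‖α‖ * ‖t - t'‖ := by
      intro t ht t' ht'
      have e1 : (t - (φ t - w) / α) - (t' - (φ t' - w) / α) = -(φ t - φ t' - α * (t - t')) / α := by
        field_simp; ring
      rw [e1, norm_div, norm_neg, div_mul_eq_mul_div]
      exact div_le_div_of_nonneg_right (hl t (hsub ht) t' (hsub ht')) hα.le
    obtain ⟨t, ht, hT⟩ := GHG_fix (T := fun t => t - (φ t - w) / α) hr0 (div_nonneg he0 hα.le)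
      ((div_lt_one hα).2 he) (fun t ht => by
        have h1 := hL t ht c (mem_closedBall_self hr0)
        have h2 : ‖t - c‖ ≤ r := by simpa [dist_eq_norm] using ht
        have h3 : ‖(c - (φ c - w) / α) - c‖ = (‖α‖ - e) * r / ‖α‖ := by
          rw [sub_sub_cancel_left, norm_neg, norm_div, norm_sub_rev, hre]
        have h4 := norm_sub_le_norm_sub_add_norm_sub (t - (φ t - w) / α) (c - (φ c - w) / α) c
        have h5 : e / ‖α‖ * ‖t - c‖ ≤ e / ‖α‖ * r :=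
          mul_le_mul_of_nonneg_left h2 (div_nonneg he0 hα.le)
        have h6 : e / ‖α‖ * r + (‖α‖ - e) * r / ‖α‖ = r := by field_simp; ring
        rw [mem_closedBall, dist_eq_norm]
        linarith) hL
    refine ⟨t, hsub ht, ?_⟩
    have h1 : (φ t - w) / α = 0 := by
      have : t - (φ t - w) / α = t := hT
      linear_combination -this
    rw [div_eq_zero_iff] at h1
    exact sub_eq_zero.1 (h1.resolve_right hα0)
  choose! τ hτ using hex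
  refine ⟨τ, fun w hw => ?_, hτ⟩
  have hnb := isOpen_ball.mem_nhds hw
  have hcont : ContinuousAt τ w := by
    rw [ContinuousAt, tendsto_iff_norm_sub_tendsto_zero]
    have h0 : Tendsto (fun y => ‖y - w‖ / (‖α‖ - e)) (𝓝 w) (𝓝 0) := by
      have : Continuous fun y : ℂ => ‖y - w‖ / (‖α‖ - e) := by fun_prop
      simpa using this.tendsto w
    refine squeeze_zero' (Eventually.of_forall fun _ => norm_nonneg _) ?_ h0
    filter_upwards [hnb] with y hy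
    have := hlow _ (hτ y hy).1 _ (hτ w hw).1
    rw [(hτ y hy).2, (hτ w hw).2] at this
    rw [le_div_iff₀ (by linarith)]
    linarith
  have hφ : HasDerivAt φ (deriv φ (τ w)) (τ w) :=
    (hd.differentiableAt (isOpen_ball.mem_nhds (hτ w hw).1)).hasDerivAt
  have hne : deriv φ (τ w) ≠ 0 := by
    intro h0
    have h1 : HasDerivAt (fun t => φ t - α * t) (deriv φ (τ w) - α * 1) (τ w) :=
      hφ.sub ((hasDerivAt_id _).const_mul α)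
    have h2 := h1.le_of_lip' he0 (by
      filter_upwards [isOpen_ball.mem_nhds (hτ w hw).1] with y hy
      have := hl y hy _ (hτ w hw).1
      have e1 : φ y - α * y - (φ (τ w) - α * τ w) = φ y - φ (τ w) - α * (y - τ w) := by ring
      rw [e1]; exact this)
    rw [h0, zero_sub, mul_one, norm_neg] at h2
    linarith
  exact (HasDerivAt.of_local_left_inverse hcont hφ hne
    (by filter_upwards [hnb] with y hy using (hτ y hy).2)).differentiableAt.differentiableWithinAt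

/-- One step of the graph transform, with free centre and radius. Apply `exists_inverse` to
`φ t = (Φ (t, η t)).1` (`Step.two`: `e = δ`), put `η' t = (Φ (τ t, η (τ t))).2`; height by
`Step.snd_le`, slope and contraction by `Step.cone` with `κ = 1/10`, lower bound from
`‖φ t - φ t'‖ ≤ (1/b + δ) ‖t - t'‖`. -/
theorem Step.hg {Φ : Pm} (hs : Small Λ b δ) (h : Step Λ b δ Φ) {c c' : ℂ} {ρ ρ' : ℝ} {η : ℂ → ℂ}
    (hρ : 0 < ρ) (hc : ‖c‖ + ρ ≤ 1) (hη : Gr c ρ η)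
    (hc' : the Λ * (‖c' - (Φ (c, η c)).1‖ + ρ') ≤ ρ) :
    ∃ η' τ : ℂ → ℂ, Gr c' ρ' η' ∧ DifferentiableOn ℂ τ (ball c' ρ') ∧
      (∀ t ∈ ball c' ρ', τ t ∈ ball c ρ ∧ Φ (τ t, η (τ t)) = (t, η' t)) ∧
      ∀ t ∈ ball c' ρ', ∀ t' ∈ ball c' ρ',
        b / 2 * ‖t - t'‖ ≤ ‖τ t - τ t'‖ ∧ ‖τ t - τ t'‖ ≤ the Λ * ‖t - t'‖ := by
  obtain ⟨hδ, hδ', hΛ, hΛ2⟩ := GHG_small hs
  obtain ⟨α, β, ha1, ha2, -, -, h2, -⟩ := h.two
  have hn : ∀ t ∈ ball c ρ, ‖((t, η t) : E)‖ ≤ 1 := fun t ht => GHG_norm_le hc hη ht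
  have hgd : DifferentiableOn ℂ (fun t => Φ (t, η t)) (ball c ρ) :=
    h.1.comp_differentiableOn (differentiableOn_id.prodMk hη.1)
  have hl : ∀ t ∈ ball c ρ, ∀ t' ∈ ball c ρ,
      ‖(Φ (t, η t)).1 - (Φ (t', η t')).1 - α * (t - t')‖ ≤ δ * ‖t - t'‖ := by
    intro t ht t' ht'
    have h3 := (norm_fst_le _).trans (h2 _ _ (hn t ht) (hn t' ht'))
    have h4 : ‖((t, η t) : E) - (t', η t')‖ ≤ ‖t - t'‖ := by
      rw [Prod.norm_def]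
      refine max_le le_rfl ?_
      have := hη.2.2 t ht t' ht'
      have h5 := norm_nonneg (t - t')
      show ‖η t - η t'‖ ≤ _
      linarith
    exact h3.trans (mul_le_mul_of_nonneg_left h4 hδ.le)
  obtain ⟨τ, hτd, hτ⟩ := exists_inverse (φ := fun t => (Φ (t, η t)).1) (α := α) (e := δ) hρ
    (by linarith) hgd.fst hl
  have hsub : ball c' ρ' ⊆ ball (Φ (c, η c)).1 ((‖α‖ - δ) * ρ) := by
    refine ball_subset_ball' ?_
    rw [GHG_the hΛ] at hc'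
    rw [dist_eq_norm]
    have : ρ * ((1 + Λ) / 2) ≤ ρ * (‖α‖ - δ) := mul_le_mul_of_nonneg_left (by linarith) hρ.le
    linarith
  have hτ1 : ∀ t ∈ ball c' ρ', τ t ∈ ball c ρ := fun t ht => (hτ t (hsub ht)).1
  have hτ2 : ∀ t ∈ ball c' ρ', (Φ (τ t, η (τ t))).1 = t := fun t ht => (hτ t (hsub ht)).2
  have hcone : ∀ t ∈ ball c' ρ', ∀ t' ∈ ball c' ρ',
      ‖(Φ (τ t, η (τ t))).2 - (Φ (τ t', η (τ t'))).2‖ ≤ 1 / 10 * ‖t - t'‖ ∧
        ‖τ t - τ t'‖ ≤ the Λ * ‖t - t'‖ := by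
    intro t ht t' ht'
    have := h.cone hs (κ := 1 / 10) (by norm_num) (by norm_num) (hn _ (hτ1 t ht)) (hn _ (hτ1 t' ht'))
      (by
        have := hη.2.2 _ (hτ1 t ht) _ (hτ1 t' ht')
        show ‖η (τ t) - η (τ t')‖ ≤ 1 / 10 * ‖τ t - τ t'‖
        linarith)
    simp only [Prod.fst_sub, Prod.snd_sub, hτ2 t ht, hτ2 t' ht'] at this
    exact this
  refine ⟨fun t => (Φ (τ t, η (τ t))).2, τ, ⟨?_, fun t ht => ?_, fun t ht t' ht' => ?_⟩,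
    hτd.mono hsub, fun t ht => ⟨hτ1 t ht, Prod.ext (hτ2 t ht) rfl⟩,
    fun t ht t' ht' => ⟨?_, (hcone t ht t' ht').2⟩⟩
  · exact (hgd.comp (hτd.mono hsub) hτ1).snd
  · have h3 := h.snd_le hs (hn _ (hτ1 t ht))
    have h4 : ‖η (τ t)‖ / Λ ≤ 1 / Λ :=
      div_le_div_of_nonneg_right (hη.2.1 _ (hτ1 t ht)) (by linarith)
    have h5 : 1 / Λ ≤ 1 - 2 * δ := by
      rw [div_le_iff₀ (by linarith)]; nlinarith
    show ‖(Φ (τ t, η (τ t))).2‖ ≤ 1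
    simp only at h3
    linarith
  · have := (hcone t ht t' ht').1
    show ‖(Φ (τ t, η (τ t))).2 - (Φ (τ t', η (τ t'))).2‖ ≤ _
    linarith
  · have h3 := hl _ (hτ1 t ht) _ (hτ1 t' ht')
    rw [hτ2 t ht, hτ2 t' ht'] at h3
    have h4 := norm_sub_norm_le (t - t') (α * (τ t - τ t'))
    rw [norm_mul] at h4
    obtain ⟨-, -, hb0, hb1, -, -⟩ := hs
    have h5 : b * ‖α‖ ≤ 1 := by rwa [le_div_iff₀ hb0, mul_comm] at ha2
    have h6 := norm_nonneg (τ t - τ t')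
    have h7 : b * ‖t - t'‖ ≤ b * ((‖α‖ + δ) * ‖τ t - τ t'‖) :=
      mul_le_mul_of_nonneg_left (by linarith) hb0.le
    have h8 : b * (‖α‖ + δ) ≤ 2 := by nlinarith
    have h9 := mul_le_mul_of_nonneg_right h8 h6
    nlinarith

/-- full graphs: `‖(Φ (0, η 0)).1‖ ≤ 2 δ`; also `‖τ 0‖ ≤ 2 δ` by `Step.fst_ge` -/
theorem Step.hg_full {Φ : Pm} (hs : Small Λ b δ) (h : Step Λ b δ Φ) {η : ℂ → ℂ} (hη : Gr 0 1 η) :
    ∃ η' τ : ℂ → ℂ, Gr 0 1 η' ∧ DifferentiableOn ℂ τ (ball 0 1) ∧ ‖τ 0‖ ≤ 2 * δ ∧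
      (∀ t ∈ ball (0 : ℂ) 1, τ t ∈ ball (0 : ℂ) 1 ∧ Φ (τ t, η (τ t)) = (t, η' t)) ∧
      ∀ t ∈ ball (0 : ℂ) 1, ∀ t' ∈ ball (0 : ℂ) 1,
        b / 2 * ‖t - t'‖ ≤ ‖τ t - τ t'‖ ∧ ‖τ t - τ t'‖ ≤ the Λ * ‖t - t'‖ := by
  obtain ⟨hδ, hδ', hΛ, hΛ2⟩ := GHG_small hs
  have h0 : (0 : ℂ) ∈ ball (0 : ℂ) 1 := mem_ball_self one_pos
  have h1 := GHG_fst h hδ.le (hη.2.1 0 h0)
  obtain ⟨η', τ, g1, g2, g3, g4⟩ := h.hg hs (c := 0) (c' := 0) (ρ := 1) (ρ' := 1) one_pos (by simp) hη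
    (by rw [GHG_the hΛ, zero_sub, norm_neg]; linarith)
  refine ⟨η', τ, g1, g2, ?_, g3, g4⟩
  have h2 := h.fst_ge hs (GHG_norm_le (by simp) hη (g3 0 h0).1)
  rw [(g3 0 h0).2] at h2
  simp only [norm_zero] at h2
  have h3 := norm_nonneg (τ 0)
  nlinarith

/-- pull back of a vertical graph: `hg_full` for `sw * Φ⁻¹ * sw` (`Step.rev`) -/
theorem Step.vg {Φ : Pm} (hs : Small Λ b δ) (h : Step Λ b δ Φ) {γ : ℂ → ℂ} (hγ : Gr 0 1 γ) :
    ∃ γ' σ : ℂ → ℂ, Gr 0 1 γ' ∧ DifferentiableOn ℂ σ (ball 0 1) ∧ ‖σ 0‖ ≤ 2 * δ ∧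
      (∀ s ∈ ball (0 : ℂ) 1, σ s ∈ ball (0 : ℂ) 1 ∧ Φ (γ' s, s) = (γ (σ s), σ s)) ∧
      ∀ s ∈ ball (0 : ℂ) 1, ∀ s' ∈ ball (0 : ℂ) 1,
        b / 2 * ‖s - s'‖ ≤ ‖σ s - σ s'‖ ∧ ‖σ s - σ s'‖ ≤ the Λ * ‖s - s'‖ := by
  obtain ⟨γ', σ, g1, g2, g3, g4, g5⟩ := (h.rev hs).hg_full hs hγ
  refine ⟨γ', σ, g1, g2, g3, fun s hs' => ⟨(g4 s hs').1, ?_⟩, g5⟩
  have h1 := (g4 s hs').2
  have h2 : Φ⁻¹ (γ (σ s), σ s) = (γ' s, s) := congrArg Prod.swap h1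
  rw [← h2]
  simp

/-- a graph over `ball c₁ r` which is a piece of the image at time `k` of the graph of `η` -/
def GHG_inv (Φ : ℕ → Pm) (c : ℂ) (ρ : ℝ) (η : ℂ → ℂ) (k : ℕ) (c₁ : ℂ) (r : ℝ) (η₁ : ℂ → ℂ) : Prop :=
  Gr c₁ r η₁ ∧ ∃ τ : ℂ → ℂ, DifferentiableOn ℂ τ (ball c₁ r) ∧
    ∀ t ∈ ball c₁ r, τ t ∈ ball c ρ ∧ cmp Φ k (τ t, η (τ t)) = (t, η₁ t) ∧
      StayN Φ k (τ t, η (τ t))

theorem GHG_inv_mono {Φ : ℕ → Pm} {c c₁ c₂ : ℂ} {ρ r r₂ : ℝ} {η η₁ : ℂ → ℂ} {k : ℕ}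
    (h : GHG_inv Φ c ρ η k c₁ r η₁) (hs : ball c₂ r₂ ⊆ ball c₁ r) :
    GHG_inv Φ c ρ η k c₂ r₂ η₁ := by
  obtain ⟨h1, τ, h2, h3⟩ := h
  exact ⟨GHG_mono h1 hs, τ, h2.mono hs, fun t ht => h3 t (hs ht)⟩

theorem GHG_step {Φ : ℕ → Pm} (h : Chain Λ b δ Φ) {c c₁ c₂ : ℂ} {ρ r r₂ : ℝ} {η η₁ : ℂ → ℂ} {k : ℕ}
    (hi : GHG_inv Φ c ρ η k c₁ r η₁) (hr : 0 < r) (h1 : ‖c₁‖ + r ≤ 1) (h2 : ‖c₂‖ + r₂ ≤ 1)
    (h3 : the Λ * (‖c₂ - (Φ k (c₁, η₁ c₁)).1‖ + r₂) ≤ r) :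
    ∃ η₂, GHG_inv Φ c ρ η (k + 1) c₂ r₂ η₂ ∧
      (0 < r₂ → c₂ = (Φ k (c₁, η₁ c₁)).1 → η₂ c₂ = (Φ k (c₁, η₁ c₁)).2) := by
  obtain ⟨g1, τ, g2, g3⟩ := hi
  obtain ⟨η₂, σ, k1, k2, k3, -⟩ := (h.2 k).hg h.1 hr h1 g1 h3
  refine ⟨η₂, ⟨k1, fun t => τ (σ t), g2.comp k2 fun t ht => (k3 t ht).1, fun t ht => ?_⟩,
    fun hr₂ hc => ?_⟩
  · obtain ⟨m1, m2, m3⟩ := g3 _ (k3 t ht).1
    have m4 : cmp Φ (k + 1) (τ (σ t), η (τ (σ t))) = (t, η₂ t) := by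
      show Φ k (cmp Φ k _) = _
      rw [m2, (k3 t ht).2]
    refine ⟨m1, m4, fun j hj => ?_⟩
    rcases Nat.lt_or_eq_of_le hj with hj | rfl
    · exact m3 j (Nat.lt_succ_iff.1 hj)
    · rw [m4]; exact GHG_norm_le h2 k1 ht
  · obtain ⟨m1, m2⟩ := k3 c₂ (mem_ball_self hr₂)
    have m3 := ((h.2 k).cone h.1 (κ := 1 / 10) (by norm_num) (by norm_num) (GHG_norm_le h1 g1 m1)
      (GHG_norm_le h1 g1 (mem_ball_self hr)) (by
        have := g1.2.2 _ m1 _ (mem_ball_self hr)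
        show ‖η₁ (σ c₂) - η₁ c₁‖ ≤ 1 / 10 * ‖σ c₂ - c₁‖
        linarith)).1
    rw [m2] at m3
    simp only [Prod.fst_sub, Prod.snd_sub] at m3
    rw [← hc, sub_self, norm_zero, mul_zero] at m3
    exact sub_eq_zero.1 (norm_le_zero_iff.1 m3)

theorem GHG_phase1 {Φ : ℕ → Pm} (h : Chain Λ b δ Φ) {c : ℂ} {ρ : ℝ} {η : ℂ → ℂ} (hρ : 0 < ρ)
    (hc : ‖c‖ + ρ ≤ 1) (hη : Gr c ρ η) (hS : Stay Φ (c, η c)) (k : ℕ) :
    ∃ η₁, GHG_inv Φ c ρ η k (cmp Φ k (c, η c)).1 (min (ρ * (1 + k * ((Λ - 1) / 2))) (3 / 4)) η₁ ∧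
      η₁ (cmp Φ k (c, η c)).1 = (cmp Φ k (c, η c)).2 := by
  obtain ⟨hδ, hδ', hΛ, hΛ2⟩ := GHG_small h.1
  have hfst : ∀ j, ‖(cmp Φ j (c, η c)).1‖ ≤ 1 / 200 := fun j => (h.shf j).stay_fst (hS.shf j)
  have hpos : ∀ j : ℕ, 0 < min (ρ * (1 + j * ((Λ - 1) / 2))) (3 / 4) := fun j => by
    have : 0 < (Λ - 1) / 2 := by linarith
    positivity
  induction k with
  | zero =>
    refine ⟨η, ?_, rfl⟩
    have h0 : GHG_inv Φ c ρ η 0 c ρ η :=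
      ⟨hη, id, differentiableOn_id, fun t ht => ⟨ht, rfl, fun j hj => by
        obtain rfl : j = 0 := Nat.le_zero.1 hj
        exact GHG_norm_le hc hη ht⟩⟩
    exact GHG_inv_mono h0 (ball_subset_ball (by simp))
  | succ k ih =>
    obtain ⟨η₁, i1, i2⟩ := ih
    have e : Φ k ((cmp Φ k (c, η c)).1, η₁ (cmp Φ k (c, η c)).1) = cmp Φ (k + 1) (c, η c) := by
      rw [i2]; rfl
    obtain ⟨η₂, j1, j2⟩ := GHG_step h (c₂ := (cmp Φ (k + 1) (c, η c)).1)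
      (r₂ := min (ρ * (1 + (k + 1 : ℕ) * ((Λ - 1) / 2))) (3 / 4)) i1 (hpos k)
      (by have := hfst k; have := min_le_right (ρ * (1 + k * ((Λ - 1) / 2))) (3 / 4); linarith)
      (by
        have := hfst (k + 1)
        have := min_le_right (ρ * (1 + (k + 1 : ℕ) * ((Λ - 1) / 2))) (3 / 4)
        linarith)
      (by
        rw [e, sub_self, norm_zero, zero_add, GHG_the hΛ, min_mul_of_nonneg _ _ (by linarith)]
        refine min_le_min ?_ (by linarith)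
        rw [mul_assoc]
        refine mul_le_mul_of_nonneg_left ?_ hρ.le
        push_cast
        have : (0 : ℝ) ≤ k * ((Λ - 1) / 2) ^ 2 := by positivity
        nlinarith)
    refine ⟨η₂, j1, ?_⟩
    rw [j2 (hpos _) (by rw [e]), e]

theorem GHG_phase2 {Φ : ℕ → Pm} (h : Chain Λ b δ Φ) {c : ℂ} {ρ : ℝ} {η η₁ : ℂ → ℂ} {k : ℕ}
    (hi : GHG_inv Φ c ρ η k 0 (1 / 2) η₁) (j : ℕ) :
    ∃ η₂, GHG_inv Φ c ρ η (k + j) 0 (min 1 (1 / 2 + j * ((Λ - 1) / 5))) η₂ := by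
  obtain ⟨hδ, hδ', hΛ, hΛ2⟩ := GHG_small h.1
  induction j with
  | zero => exact ⟨η₁, GHG_inv_mono hi (ball_subset_ball (by simp))⟩
  | succ j ih =>
    obtain ⟨η₂, i1⟩ := ih
    have h5 : (0 : ℝ) ≤ j * ((Λ - 1) / 5) := mul_nonneg (Nat.cast_nonneg j) (by linarith)
    have hr : 1 / 2 ≤ min 1 (1 / 2 + j * ((Λ - 1) / 5)) := le_min (by norm_num) (by linarith)
    have hf := GHG_fst (h.2 (k + j)) hδ.le (i1.1.2.1 0 (mem_ball_self (by linarith)))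
    obtain ⟨η₃, j1, -⟩ := GHG_step h (c₂ := 0)
      (r₂ := min 1 (1 / 2 + (j + 1 : ℕ) * ((Λ - 1) / 5))) i1 (by linarith) (by simp) (by simp)
      (by
        rw [GHG_the hΛ, zero_sub, norm_neg]
        have h6 : min 1 (1 / 2 + ((j + 1 : ℕ) : ℝ) * ((Λ - 1) / 5)) ≤
            min 1 (1 / 2 + j * ((Λ - 1) / 5)) + (Λ - 1) / 5 := by
          rw [← min_add_add_right]
          refine min_le_min (by linarith) ?_
          push_cast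
          linarith
        nlinarith)
    exact ⟨η₃, j1⟩

/-- A small graph through a point `(c, η c)` which stays for ever grows to a full graph.
Phase 1: centres `c_k = (cmp Φ k (c, η c)).1` (norm at most `1/200`, `Chain.stay_fst`), radii
`r_k = min (ρ / the Λ ^ k) (199/200)`, by `Step.hg` with `c' = c_{k+1}` (the new graph passes
through `cmp Φ (k+1) (c, η c)`, by `Step.cone`). Phase 2: once `r_k = 199/200`, go to centre `0`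
and radius `min 1 (r_k / the Λ - 1/200) ≥ 1/2`, then radii `r ↦ min 1 (r / the Λ - 2 δ)`, which
increase by at least `(Λ - 1) / 5` until they reach 1 (the first coordinate of `Φ (0, η 0)` has
norm at most `2 δ`). A convenient induction hypothesis: for each `k` there is a graph over
`ball c_k r_k` (resp. `ball 0 r`) with a holomorphic `τ` into `ball c ρ` and `StayN`. -/
theorem Chain.grow (Λ : ℝ) {ρ : ℝ} (hρ : 0 < ρ) : ∃ n₀ : ℕ, ∀ (b δ : ℝ) (Φ : ℕ → Pm),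
    Chain Λ b δ Φ → ∀ (c : ℂ) (η : ℂ → ℂ), ‖c‖ + ρ ≤ 1 → Gr c ρ η → Stay Φ (c, η c) →
    ∀ n ≥ n₀, ∃ η' τ : ℂ → ℂ, Gr 0 1 η' ∧ DifferentiableOn ℂ τ (ball 0 1) ∧
      ∀ t ∈ ball (0 : ℂ) 1, τ t ∈ ball c ρ ∧ cmp Φ n (τ t, η (τ t)) = (t, η' t) ∧
        StayN Φ n (τ t, η (τ t)) := by
  by_cases hΛ : 1 < Λ
  swap
  · exact ⟨0, fun b δ Φ h => absurd h.1.1 hΛ⟩
  obtain ⟨n₁, hn₁⟩ := exists_nat_ge (3 / 4 / (ρ * ((Λ - 1) / 2)))
  obtain ⟨n₂, hn₂⟩ := exists_nat_ge (1 / 2 / ((Λ - 1) / 5))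
  have ha : 0 < (Λ - 1) / 2 := by linarith
  rw [div_le_iff₀ (by positivity)] at hn₁
  rw [div_le_iff₀ (by linarith)] at hn₂
  refine ⟨n₁ + n₂, fun b δ Φ h c η hc hη hS n hn => ?_⟩
  obtain ⟨j, rfl⟩ := Nat.exists_eq_add_of_le hn
  obtain ⟨η₁, i1, -⟩ := GHG_phase1 h hρ hc hη hS n₁
  rw [min_eq_right (by nlinarith)] at i1
  have hf : ‖(cmp Φ n₁ (c, η c)).1‖ ≤ 1 / 200 := (h.shf n₁).stay_fst (hS.shf n₁)
  have i2 := GHG_inv_mono (c₂ := 0) (r₂ := 1 / 2) i1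
    (ball_subset_ball' (by rw [dist_zero_left]; linarith))
  obtain ⟨η₂, i3⟩ := GHG_phase2 h i2 (n₂ + j)
  have h5 : (0 : ℝ) ≤ j * ((Λ - 1) / 5) := mul_nonneg (Nat.cast_nonneg j) (by linarith)
  rw [min_eq_left (by push_cast; linarith), ← add_assoc] at i3
  obtain ⟨g1, τ, g2, g3⟩ := i3
  exact ⟨η₂, τ, g1, g2, g3⟩

/-- a horizontal and a vertical graph meet, transversally (fixed point of `t ↦ γ (η t)` on the
closed ball of radius `1/2`: a contraction) -/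
theorem graphs_meet {η γ : ℂ → ℂ} (hη : Gr 0 1 η) (hγ : Gr 0 1 γ) (h1 : ‖η 0‖ ≤ 1 / 10)
    (h2 : ‖γ 0‖ ≤ 1 / 10) : ∃ t s : ℂ, ‖t‖ ≤ 1 / 2 ∧ ‖s‖ ≤ 1 / 2 ∧ s = η t ∧ t = γ s ∧
      1 - deriv η t * deriv γ s ≠ 0 := by
  have h0 : (0 : ℂ) ∈ ball (0 : ℂ) 1 := mem_ball_self one_pos
  have hb : ∀ t : ℂ, ‖t‖ ≤ 1 / 2 → t ∈ ball (0 : ℂ) 1 := fun t ht => by
    rw [mem_ball_zero_iff]; linarith
  have key : ∀ {f : ℂ → ℂ}, Gr 0 1 f → ‖f 0‖ ≤ 1 / 10 → ∀ t : ℂ, ‖t‖ ≤ 1 / 2 → ‖f t‖ ≤ 1 / 2 := by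
    intro f hf hf0 t ht
    have h3 := hf.2.2 t (hb t ht) 0 h0
    have h4 := norm_sub_norm_le (f t) (f 0)
    rw [sub_zero] at h3
    linarith
  obtain ⟨t, ht, hT⟩ := GHG_fix (T := fun t => γ (η t)) (c := 0) (r := 1 / 2) (k := 1 / 100)
    (by norm_num) (by norm_num) (by norm_num)
    (fun t ht => mem_closedBall_zero_iff.2
      (key hγ h2 _ (key hη h1 t (mem_closedBall_zero_iff.1 ht))))
    (fun t ht t' ht' => by
      rw [mem_closedBall_zero_iff] at ht ht'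
      have h3 := hγ.2.2 _ (hb _ (key hη h1 t ht)) _ (hb _ (key hη h1 t' ht'))
      have h4 := hη.2.2 _ (hb t ht) _ (hb t' ht')
      show ‖γ (η t) - γ (η t')‖ ≤ _
      linarith)
  rw [mem_closedBall_zero_iff] at ht
  refine ⟨t, η t, ht, key hη h1 t ht, rfl, hT.symm, fun h3 => ?_⟩
  have h4 := GHG_deriv hη (hb t ht)
  have h5 := GHG_deriv hγ (hb _ (key hη h1 t ht))
  have h6 : ‖deriv η t * deriv γ (η t)‖ = 1 := by rw [← sub_eq_zero.1 h3, norm_one]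
  rw [norm_mul] at h6
  have h7 := mul_le_mul h4 h5 (norm_nonneg _) (by norm_num)
  linarith

theorem Gr.norm_deriv_le {c : ℂ} {ρ : ℝ} {η : ℂ → ℂ} (h : Gr c ρ η) {t : ℂ} (ht : t ∈ ball c ρ) :
    ‖deriv η t‖ ≤ 1 / 10 := by
  exact GHG_deriv h ht

end Pool.Agent.Lib.MP_7b5e47_an.Hn
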