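import Pool.Agent.Lib.MP_7b5e47_an.Hn.GHG

namespace Pool.Agent.Lib.MP_7b5e47_an.Hn

open Filter Topology Set Metric MeasureTheory

/-! Non-autonomous Koenigs linearization in one variable. -/

theorem GKoen_quad {g : ℂ → ℂ} (hd : DifferentiableOn ℂ g (ball 0 (1 / 2)))
    (h : ∀ t ∈ ball (0 : ℂ) (1 / 2), ‖g t‖ ≤ ‖t‖) : ‖deriv g 0‖ ≤ 1 ∧
      ∀ t ∈ ball (0 : ℂ) (1 / 2), ‖g t - deriv g 0 * t‖ ≤ 4 * ‖t‖ ^ 2 := by
  have h0 : g 0 = 0 := by simpa using h 0 (by simp)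
  have hm : MapsTo g (ball 0 (1 / 2)) (closedBall (g 0) (1 / 2)) := fun t ht => by
    rw [h0, mem_closedBall_zero_iff]
    exact (h t ht).trans (mem_ball_zero_iff.1 ht).le
  have h1 : ∀ t ∈ ball (0 : ℂ) (1 / 2), ‖dslope g 0 t‖ ≤ 1 := fun t ht => by
    simpa using Complex.norm_dslope_le_div_of_mapsTo_ball hd hm ht
  have h2 : DifferentiableOn ℂ (dslope g 0) (ball 0 (1 / 2)) :=
    (Complex.differentiableOn_dslope (ball_mem_nhds _ (by norm_num))).2 hd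
  have h3 : MapsTo (dslope g 0) (ball 0 (1 / 2)) (closedBall (dslope g 0 0) 2) := fun t ht => by
    rw [mem_closedBall, dist_eq_norm]
    exact (norm_sub_le _ _).trans (by linarith [h1 t ht, h1 0 (by simp)])
  refine ⟨by simpa using h1 0 (by simp), fun t ht => ?_⟩
  have h4 := Complex.dist_le_div_mul_dist_of_mapsTo_ball h2 h3 ht
  rw [dist_eq_norm, dist_zero_right, dslope_same] at h4
  have h5 : g t - deriv g 0 * t = t * (dslope g 0 t - deriv g 0) := by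
    have := sub_smul_dslope g 0 t
    rw [h0, sub_zero, sub_zero, smul_eq_mul] at this
    rw [mul_sub, this]
    ring
  rw [h5, norm_mul]
  calc _ ≤ ‖t‖ * (2 / (1 / 2) * ‖t‖) := mul_le_mul_of_nonneg_left h4 (norm_nonneg _)
    _ = _ := by ring

/-- compositions of the maps `g n, …, g (n + m - 1)` -/
def GKoen_G (g : ℕ → ℂ → ℂ) (n : ℕ) : ℕ → ℂ → ℂ
  | 0 => fun t => t
  | m + 1 => fun t => g (n + m) (GKoen_G g n m t)

theorem GKoen_G_succ (g : ℕ → ℂ → ℂ) (n m : ℕ) (t : ℂ) :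
    GKoen_G g n (m + 1) t = GKoen_G g (n + 1) m (g n t) := by
  induction m with
  | zero => rfl
  | succ m ih =>
    change g (n + (m + 1)) (GKoen_G g n (m + 1) t) = g (n + 1 + m) (GKoen_G g (n + 1) m (g n t))
    rw [ih, show n + (m + 1) = n + 1 + m by ring]

theorem GKoen_lin {β θ : ℝ} (hβ : 0 < β) (hθ0 : 0 ≤ θ) (hθ : θ < 1) : ∃ C > 0,
    ∀ (g : ℕ → ℂ → ℂ) (l : ℕ → ℂ), (∀ n, DifferentiableOn ℂ (g n) (ball 0 (1 / 2))) →
      (∀ n, ∀ t ∈ ball (0 : ℂ) (1 / 2), ‖g n t‖ ≤ θ * ‖t‖ ∧ ‖g n t - l n * t‖ ≤ 4 * ‖t‖ ^ 2) →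
      (∀ n, β ≤ ‖l n‖) → ∃ φ : ℕ → ℂ → ℂ, ∀ n, DifferentiableOn ℂ (φ n) (ball 0 (1 / 2)) ∧
        ∀ t ∈ ball (0 : ℂ) (1 / 2), ‖φ n t - t‖ ≤ C * ‖t‖ ^ 2 ∧
          φ (n + 1) (g n t) = l n * φ n t := by
  set K := 4 / β with hK
  have hK0 : 0 < K := by positivity
  have h1θ : 0 < (1 - θ)⁻¹ := inv_pos.2 (by linarith)
  set Ex := Real.exp (K * (1 - θ)⁻¹) with hEx
  have hEx0 : 0 < Ex := Real.exp_pos _
  refine ⟨K * Ex * (1 - θ)⁻¹, by positivity, fun g l hd hg hl => ?_⟩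
  have hl0 : ∀ n, l n ≠ 0 := fun n => norm_pos_iff.1 (hβ.trans_le (hl n))
  have hmap : ∀ n, ∀ t ∈ ball (0 : ℂ) (1 / 2), g n t ∈ ball (0 : ℂ) (1 / 2) := fun n t ht => by
    rw [mem_ball_zero_iff] at ht ⊢
    exact ((hg n t (mem_ball_zero_iff.2 ht)).1.trans
      (mul_le_of_le_one_left (norm_nonneg _) hθ.le)).trans_lt ht
  have hG : ∀ n m, ∀ t ∈ ball (0 : ℂ) (1 / 2), GKoen_G g n m t ∈ ball (0 : ℂ) (1 / 2) ∧
      ‖GKoen_G g n m t‖ ≤ θ ^ m * ‖t‖ := by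
    intro n m t ht
    induction m with
    | zero => exact ⟨ht, by simp [GKoen_G]⟩
    | succ m ih =>
      refine ⟨hmap _ _ ih.1, ((hg _ _ ih.1).1.trans
        (mul_le_mul_of_nonneg_left ih.2 hθ0)).trans (le_of_eq (by ring))⟩
  have hGd : ∀ n m, DifferentiableOn ℂ (GKoen_G g n m) (ball 0 (1 / 2)) := by
    intro n m
    induction m with
    | zero => exact differentiableOn_id
    | succ m ih => exact (hd (n + m)).comp ih fun t ht => (hG n m t ht).1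
  let u : ℕ → ℕ → ℂ → ℂ := fun n m t => GKoen_G g n m t / ∏ j ∈ Finset.range m, l (n + j)
  have hL0 : ∀ n m, ∏ j ∈ Finset.range m, l (n + j) ≠ 0 := fun n m =>
    Finset.prod_ne_zero_iff.2 fun j _ => hl0 _
  have hstep : ∀ n m, ∀ t ∈ ball (0 : ℂ) (1 / 2),
      ‖u n (m + 1) t - u n m t‖ ≤ K * θ ^ m * ‖t‖ * ‖u n m t‖ := by
    intro n m t ht
    have e1 : u n (m + 1) t - u n m t =
        (g (n + m) (GKoen_G g n m t) - l (n + m) * GKoen_G g n m t) /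
          ((∏ j ∈ Finset.range m, l (n + j)) * l (n + m)) := by
      have a1 := hL0 n m
      have a2 := hl0 (n + m)
      simp only [u, Finset.prod_range_succ, GKoen_G]
      field_simp
    have a1 : 0 < ‖∏ j ∈ Finset.range m, l (n + j)‖ := norm_pos_iff.2 (hL0 n m)
    rw [e1, norm_div, norm_mul]
    refine (div_le_div₀ (by positivity) (hg _ _ (hG n m t ht).1).2 (mul_pos a1 hβ)
      (mul_le_mul_of_nonneg_left (hl _) a1.le)).trans ?_
    have e2 : ‖u n m t‖ = ‖GKoen_G g n m t‖ / ‖∏ j ∈ Finset.range m, l (n + j)‖ := norm_div _ _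
    calc _ = K * ‖GKoen_G g n m t‖ * ‖u n m t‖ := by rw [e2, hK]; field_simp
      _ ≤ K * (θ ^ m * ‖t‖) * ‖u n m t‖ := mul_le_mul_of_nonneg_right
          (mul_le_mul_of_nonneg_left (hG n m t ht).2 hK0.le) (norm_nonneg _)
      _ = _ := by ring
  have hu1 : ∀ n m, ∀ t ∈ ball (0 : ℂ) (1 / 2),
      ‖u n m t‖ ≤ ‖t‖ * Real.exp (K * ∑ j ∈ Finset.range m, θ ^ j) := by
    intro n m t ht
    induction m with
    | zero => simp [u, GKoen_G]
    | succ m ih =>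
      have a1 := hstep n m t ht
      have a2 : ‖u n (m + 1) t‖ ≤ ‖u n m t‖ + ‖u n (m + 1) t - u n m t‖ := by
        simpa using norm_add_le (u n m t) (u n (m + 1) t - u n m t)
      have a3 : ‖t‖ ≤ 1 := by linarith [mem_ball_zero_iff.1 ht]
      have a4 : K * θ ^ m * ‖t‖ ≤ K * θ ^ m := mul_le_of_le_one_right (by positivity) a3
      have a5 := mul_le_mul_of_nonneg_right a4 (norm_nonneg (u n m t))
      have a6 := Real.add_one_le_exp (K * θ ^ m)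
      rw [Finset.sum_range_succ, mul_add, Real.exp_add, ← mul_assoc]
      calc _ ≤ ‖u n m t‖ * (K * θ ^ m + 1) := by linarith
        _ ≤ _ := mul_le_mul ih a6 (by positivity) (by positivity)
  have hgeo := hasSum_geometric_of_lt_one hθ0 hθ
  have hu2 : ∀ n m, ∀ t ∈ ball (0 : ℂ) (1 / 2),
      ‖u n (m + 1) t - u n m t‖ ≤ K * Ex * ‖t‖ ^ 2 * θ ^ m := by
    intro n m t ht
    have a1 : ∑ j ∈ Finset.range m, θ ^ j ≤ (1 - θ)⁻¹ :=
      sum_le_hasSum _ (fun j _ => by positivity) hgeo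
    have a2 : ‖u n m t‖ ≤ ‖t‖ * Ex := (hu1 n m t ht).trans (mul_le_mul_of_nonneg_left
      (Real.exp_le_exp.2 (mul_le_mul_of_nonneg_left a1 hK0.le)) (norm_nonneg _))
    refine (hstep n m t ht).trans ((mul_le_mul_of_nonneg_left a2 (by positivity)).trans
      (le_of_eq (by ring)))
  have hlim : ∀ n, ∀ t ∈ ball (0 : ℂ) (1 / 2), Tendsto (fun m => u n m t) atTop
      (𝓝 (t + ∑' m, (u n (m + 1) t - u n m t))) := by
    intro n t ht
    have a1 : Summable fun m => u n (m + 1) t - u n m t :=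
      Summable.of_norm_bounded (hgeo.mul_left _).summable fun m => hu2 n m t ht
    have a2 := a1.hasSum.tendsto_sum_nat.const_add t
    refine a2.congr fun m => ?_
    rw [Finset.sum_range_sub (fun m => u n m t)]
    simp [u, GKoen_G]
  refine ⟨fun n t => t + ∑' m, (u n (m + 1) t - u n m t), fun n => ⟨?_, fun t ht => ⟨?_, ?_⟩⟩⟩
  · refine differentiableOn_id.add (Complex.differentiableOn_tsum_of_summable_norm
      (hgeo.mul_left (K * Ex)).summable (fun m => ((hGd n (m + 1)).div_const _).sub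
        ((hGd n m).div_const _)) isOpen_ball fun m t ht => (hu2 n m t ht).trans ?_)
    have a3 : ‖t‖ ≤ 1 := by linarith [mem_ball_zero_iff.1 ht]
    exact mul_le_mul_of_nonneg_right (mul_le_of_le_one_right (by positivity)
      (pow_le_one₀ (norm_nonneg _) a3)) (by positivity)
  · rw [add_sub_cancel_left]
    exact (tsum_of_norm_bounded (hgeo.mul_left _) fun m => hu2 n m t ht).trans (le_of_eq (by ring))
  · have a1 := hlim (n + 1) _ (hmap n t ht)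
    have a2 := ((hlim n t ht).comp (tendsto_add_atTop_nat 1)).const_mul (l n)
    refine tendsto_nhds_unique a1 (a2.congr fun m => ?_)
    have a3 := hL0 (n + 1) m
    have a4 := hl0 n
    have a5 : ∏ j ∈ Finset.range (m + 1), l (n + j) =
        (∏ j ∈ Finset.range m, l (n + 1 + j)) * l n := by
      rw [Finset.prod_range_succ']
      refine congrArg₂ _ (Finset.prod_congr rfl fun j _ => ?_) rfl
      rw [show n + (j + 1) = n + 1 + j by ring]
    simp only [u, Function.comp_apply, GKoen_G_succ, a5]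
    field_simp

theorem GKoen_lip {φ : ℂ → ℂ} {C r : ℝ} (hC : 0 < C) (hr : 0 < r) (hr1 : r ≤ 1 / 4)
    (hr2 : 16 * C * r ≤ 1) (hd : DifferentiableOn ℂ φ (ball 0 (1 / 2)))
    (h : ∀ t ∈ ball (0 : ℂ) (1 / 2), ‖φ t - t‖ ≤ C * ‖t‖ ^ 2) :
    ∀ t ∈ ball (0 : ℂ) r, ∀ t' ∈ ball (0 : ℂ) r,
      ‖φ t - φ t' - 1 * (t - t')‖ ≤ 1 / 2 * ‖t - t'‖ := by
  intro t ht t' ht'
  have hd' : DifferentiableOn ℂ (fun t => φ t - t) (ball 0 (1 / 2)) := hd.sub differentiableOn_id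
  have h1 : ∀ z : ℂ, ‖z‖ < 2 * r → ‖φ z - z‖ ≤ 4 * C * r ^ 2 := fun z hz => by
    refine (h z (mem_ball_zero_iff.2 (by linarith))).trans ?_
    have : ‖z‖ ^ 2 ≤ (2 * r) ^ 2 := pow_le_pow_left₀ (norm_nonneg _) hz.le 2
    nlinarith
  have key := (convex_ball (0 : ℂ) r).norm_image_sub_le_of_norm_deriv_le
    (f := fun t => φ t - t) (C := 1 / 2) (fun z hz => hd'.differentiableAt
      (isOpen_ball.mem_nhds (ball_subset_ball (by linarith) hz))) ?_ ht' ht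
  · rwa [show φ t - t - (φ t' - t') = φ t - φ t' - 1 * (t - t') by ring] at key
  · intro z hz
    rw [mem_ball_zero_iff] at hz
    have h2 : ∀ w ∈ ball z r, ‖w‖ < 2 * r := fun w hw => by
      rw [mem_ball, dist_eq_norm] at hw
      have := norm_add_le z (w - z)
      rw [add_sub_cancel] at this
      linarith
    have h3 := Complex.norm_deriv_le_div_of_mapsTo_ball (f := fun t => φ t - t) (c := z) (R₁ := r)
      (R₂ := 8 * C * r ^ 2) (hd'.mono fun w hw => mem_ball_zero_iff.2 (by linarith [h2 w hw]))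
      (fun w hw => by
        rw [mem_closedBall, dist_eq_norm]
        exact (norm_sub_le _ _).trans (by linarith [h1 w (h2 w hw), h1 z (by linarith)])) hr
    refine h3.trans ?_
    rw [div_le_iff₀ hr]
    nlinarith

/-- Translate so that `g n t = σ n (s n + t) - s (n+1)` is holomorphic on `ball 0 (1/2)`,
`g n 0 = 0`, `‖g n t‖ ≤ θ ‖t‖`, `‖l n‖ ≥ b/2` for `l n = deriv (σ n) (s n)`, and
`‖g n t - l n t‖ ≤ C ‖t‖^2` on `ball 0 (1/4)` (Schwarz or Cauchy estimates). Koenigs maps: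
`φ n = lim_m (g (n+m-1) ∘ ⋯ ∘ g n) / (l n ⋯ l (n+m-1))`; the `m`-th term is multiplied by a
factor `1 + O(θ^m ‖t‖)` at each step, so the limit exists uniformly on a ball `ball 0 r`, is
holomorphic, `‖φ n t - t‖ ≤ C' ‖t‖^2` and `φ (n+1) (g n t) = l n * φ n t`. By the Cauchy estimate
`φ n - id` is `1/2`-Lipschitz on a smaller ball; invert it by `exists_inverse` (`α = 1`) and put
`ψ n ζ = s n + (φ n)⁻¹ ζ`; choose `ρ` so small that the constant in the quadratic bound is at most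
`1 / (10 ρ)`. -/
theorem koenigs {b θ : ℝ} (hb : 0 < b) (hθ : θ < 1) : ∃ ρ > 0, ρ ≤ 1 / 10 ∧
    ∀ (σ : ℕ → ℂ → ℂ) (s : ℕ → ℂ), (∀ n, DifferentiableOn ℂ (σ n) (ball 0 1)) →
      (∀ n, ‖s n‖ ≤ 1 / 2) → (∀ n, σ n (s n) = s (n + 1)) →
      (∀ n, ∀ t ∈ ball (0 : ℂ) 1, ∀ t' ∈ ball (0 : ℂ) 1,
        b / 2 * ‖t - t'‖ ≤ ‖σ n t - σ n t'‖ ∧ ‖σ n t - σ n t'‖ ≤ θ * ‖t - t'‖) →
      ∃ ψ : ℕ → ℂ → ℂ, ∀ n, DifferentiableOn ℂ (ψ n) (ball 0 (2 * ρ)) ∧ ψ n 0 = s n ∧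
        ∀ ζ ∈ ball (0 : ℂ) (2 * ρ), ‖ψ n ζ - s n - ζ‖ ≤ ‖ζ‖ ^ 2 / (10 * ρ) ∧
          σ n (ψ n ζ) = ψ (n + 1) (deriv (σ n) (s n) * ζ) := by
  obtain ⟨C, hC, hlin⟩ := GKoen_lin (β := b / 4) (θ := max θ 0) (by positivity) (le_max_right _ _)
    (max_lt hθ one_pos)
  set r := min (1 / 4) (1 / (16 * C)) with hr
  have hr0 : 0 < r := lt_min (by norm_num) (by positivity)
  have hr1 : r ≤ 1 / 4 := min_le_left _ _
  have hr2 : 16 * C * r ≤ 1 := by
    have : r ≤ 1 / (16 * C) := min_le_right _ _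
    rwa [le_div_iff₀ (by positivity), mul_comm] at this
  refine ⟨r / 4, by positivity, by linarith, fun σ s hd hs hσ hl => ?_⟩
  have hmem : ∀ n, ∀ t ∈ ball (0 : ℂ) (1 / 2), s n + t ∈ ball (0 : ℂ) 1 := fun n t ht => by
    rw [mem_ball_zero_iff] at ht ⊢
    linarith [norm_add_le (s n) t, hs n]
  have hs1 : ∀ n, s n ∈ ball (0 : ℂ) 1 := fun n => mem_ball_zero_iff.2 (by linarith [hs n])
  let g : ℕ → ℂ → ℂ := fun n t => σ n (s n + t) - s (n + 1)
  have hgd : ∀ n, DifferentiableOn ℂ (g n) (ball 0 (1 / 2)) := fun n =>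
    ((hd n).comp (differentiableOn_id.const_add (s n)) (hmem n)).sub_const _
  have hg : ∀ n, ∀ t ∈ ball (0 : ℂ) (1 / 2), b / 2 * ‖t‖ ≤ ‖g n t‖ ∧ ‖g n t‖ ≤ max θ 0 * ‖t‖ := by
    intro n t ht
    have := hl n _ (hmem n t ht) _ (hs1 n)
    rw [add_sub_cancel_left, hσ] at this
    exact ⟨this.1, this.2.trans (mul_le_mul_of_nonneg_right (le_max_left _ _) (norm_nonneg _))⟩
  have hg1 : ∀ n, ∀ t ∈ ball (0 : ℂ) (1 / 2), ‖g n t‖ ≤ ‖t‖ := fun n t ht =>
    (hg n t ht).2.trans (mul_le_of_le_one_left (norm_nonneg _) (max_lt hθ one_pos).le)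
  have hder : ∀ n, deriv (g n) 0 = deriv (σ n) (s n) := fun n => by
    simp only [g]
    rw [deriv_sub_const, deriv_comp_const_add, add_zero]
  have hq := fun n => GKoen_quad (hgd n) (hg1 n)
  simp only [hder] at hq
  have hlow : ∀ n, b / 4 ≤ ‖deriv (σ n) (s n)‖ := fun n => by
    set x := min (b / 16) (1 / 4) with hx
    have hx0 : 0 < x := lt_min (by positivity) (by norm_num)
    have hx1 : x ≤ b / 16 := min_le_left _ _
    have hx2 : x ≤ 1 / 4 := min_le_right _ _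
    have hn : ‖(x : ℂ)‖ = x := by rw [Complex.norm_real, Real.norm_of_nonneg hx0.le]
    have hm : (x : ℂ) ∈ ball (0 : ℂ) (1 / 2) := mem_ball_zero_iff.2 (by rw [hn]; linarith)
    have a1 := (hq n).2 _ hm
    have a2 := (hg n _ hm).1
    have a3 := norm_sub_norm_le (g n x) (deriv (σ n) (s n) * x)
    rw [norm_mul, hn] at a3
    rw [hn] at a1 a2
    refine le_of_mul_le_mul_right ?_ hx0
    nlinarith
  obtain ⟨φ, hφ⟩ := hlin g (fun n => deriv (σ n) (s n)) hgd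
    (fun n t ht => ⟨(hg n t ht).2, (hq n).2 t ht⟩) hlow
  have hlip := fun n => GKoen_lip hC hr0 hr1 hr2 (hφ n).1 fun t ht => ((hφ n).2 t ht).1
  have hφ0 : ∀ n, φ n 0 = 0 := fun n => by simpa using ((hφ n).2 0 (by simp)).1
  have hsub : ball (0 : ℂ) r ⊆ ball 0 (1 / 2) := ball_subset_ball (by linarith)
  have hinv := fun n => exists_inverse (α := 1) (e := 1 / 2) hr0 (by norm_num)
    ((hφ n).1.mono hsub) (hlip n)
  simp only [hφ0, show (‖(1 : ℂ)‖ - 1 / 2) * r = 2 * (r / 4) by rw [norm_one]; ring] at hinv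
  choose τ hτd hτ using hinv
  have hinj : ∀ n, ∀ t ∈ ball (0 : ℂ) r, ∀ t' ∈ ball (0 : ℂ) r,
      ‖t - t'‖ ≤ 2 * ‖φ n t - φ n t'‖ := fun n t ht t' ht' => by
    have a1 := hlip n t ht t' ht'
    have a2 := norm_sub_norm_le (1 * (t - t')) (φ n t - φ n t')
    rw [norm_sub_rev (1 * (t - t')), one_mul] at a2
    rw [one_mul] at a1
    linarith
  have hτn : ∀ n, ∀ w ∈ ball (0 : ℂ) (2 * (r / 4)), ‖τ n w‖ ≤ 2 * ‖w‖ := fun n w hw => by
    simpa [hφ0, (hτ n w hw).2] using hinj n _ (hτ n w hw).1 0 (mem_ball_self hr0)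
  refine ⟨fun n ζ => s n + τ n ζ, fun n => ⟨(hτd n).const_add _, ?_, fun ζ hζ => ⟨?_, ?_⟩⟩⟩
  · have := hτn n 0 (mem_ball_self (by positivity))
    simpa using this
  · have a1 := ((hφ n).2 _ (hsub (hτ n ζ hζ).1)).1
    rw [(hτ n ζ hζ).2, norm_sub_rev] at a1
    rw [add_sub_cancel_left, le_div_iff₀ (by positivity)]
    have a2 : ‖τ n ζ‖ ^ 2 ≤ (2 * ‖ζ‖) ^ 2 := pow_le_pow_left₀ (norm_nonneg _) (hτn n ζ hζ) 2
    have a3 : ‖τ n ζ - ζ‖ ≤ C * (2 * ‖ζ‖) ^ 2 := a1.trans (mul_le_mul_of_nonneg_left a2 hC.le)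
    calc _ ≤ C * (2 * ‖ζ‖) ^ 2 * (10 * (r / 4)) := mul_le_mul_of_nonneg_right a3 (by positivity)
      _ = ‖ζ‖ ^ 2 * (10 * C * r) := by ring
      _ ≤ _ := mul_le_of_le_one_right (by positivity) (by nlinarith [mul_pos hC hr0])
  · have a1 : deriv (σ n) (s n) * ζ ∈ ball (0 : ℂ) (2 * (r / 4)) := by
      rw [mem_ball_zero_iff] at hζ ⊢
      rw [norm_mul]
      exact (mul_le_of_le_one_left (norm_nonneg _) (hq n).1).trans_lt hζ
    have a2 := (hτ n ζ hζ).1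
    have a3 : g n (τ n ζ) ∈ ball (0 : ℂ) r :=
      mem_ball_zero_iff.2 ((hg1 n _ (hsub a2)).trans_lt (mem_ball_zero_iff.1 a2))
    have a4 := hinj (n + 1) _ a3 _ (hτ (n + 1) _ a1).1
    rw [((hφ n).2 _ (hsub a2)).2, (hτ n ζ hζ).2, (hτ (n + 1) _ a1).2, sub_self, norm_zero,
      mul_zero, norm_le_zero_iff, sub_eq_zero] at a4
    beta_reduce
    rw [← a4]
    simp [g]

end Pool.Agent.Lib.MP_7b5e47_an.Hn
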