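import Pool.Agent.Lib.MP_7b5e47_an.Hn.GSG
import Pool.Agent.Lib.MP_7b5e47_an.Hn.GKoen

namespace Pool.Agent.Lib.MP_7b5e47_an.Hn

open Filter Topology Set Metric MeasureTheory

/-! Entire linearizers: existence, injectivity, local surjectivity. -/

variable {Λ b δ : ℝ}

theorem GLin_prod {l : ℕ → ℂ} {θ : ℝ} (hl : ∀ n, ‖l n‖ ≤ θ) (s : Finset ℕ) :
    ‖∏ j ∈ s, l j‖ ≤ θ ^ s.card := by
  rw [norm_prod]
  exact (Finset.prod_le_prod (fun _ _ => norm_nonneg _) fun j _ => hl j).trans_eq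
    (Finset.prod_const θ)

theorem GLin_small {l : ℕ → ℂ} {θ r : ℝ} (hl : ∀ n, ‖l n‖ ≤ θ) (hθ : θ < 1) (hr : 0 < r) (n : ℕ)
    (ζ : ℂ) : ∀ᶠ m in atTop, ‖(∏ j ∈ Finset.Ico n (n + m), l j) * ζ‖ < r := by
  have h0 : Tendsto (fun m : ℕ => θ ^ m * ‖ζ‖) atTop (𝓝 (0 * ‖ζ‖)) :=
    (tendsto_pow_atTop_nhds_zero_of_lt_one ((norm_nonneg _).trans (hl 0)) hθ).mul_const _
  rw [zero_mul] at h0
  filter_upwards [h0.eventually_lt_const hr] with m hm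
  refine lt_of_le_of_lt ?_ hm
  rw [norm_mul]
  refine mul_le_mul_of_nonneg_right ((GLin_prod hl _).trans_eq ?_) (norm_nonneg _)
  rw [Nat.card_Ico, Nat.add_sub_cancel_left]

/-- extension of local solutions of the functional equation to the whole plane -/
theorem GLin_ext {Φ : ℕ → Pm} (hd : ∀ n, Differentiable ℂ (⇑(cmp Φ n)) ∧
    Differentiable ℂ (⇑(cmp Φ n)⁻¹)) {P : ℕ → ℂ → E} {l : ℕ → ℂ} {θ r : ℝ} (hr : 0 < r)
    (hθ : θ < 1) (hl : ∀ n, ‖l n‖ ≤ θ) (hP : ∀ n, DifferentiableOn ℂ (P n) (ball 0 r))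
    (hf : ∀ n, ∀ ζ : ℂ, ‖ζ‖ < r → Φ n (P n ζ) = P (n + 1) (l n * ζ)) :
    ∃ Ψ : ℕ → ℂ → E, (∀ n, Differentiable ℂ (Ψ n)) ∧ (∀ n, ∀ ζ : ℂ, ‖ζ‖ < r → Ψ n ζ = P n ζ) ∧
      ∀ n ζ, Φ n (Ψ n ζ) = Ψ (n + 1) (l n * ζ) := by
  obtain ⟨L, hL⟩ : ∃ L : ℕ → ℕ → ℂ, L = fun n N => ∏ j ∈ Finset.Ico n N, l j := ⟨_, rfl⟩
  obtain ⟨Q, hQ⟩ : ∃ Q : ℕ → ℕ → ℂ → E,
      Q = fun n N ζ => cmp Φ n ((cmp Φ N)⁻¹ (P N (L n N * ζ))) := ⟨_, rfl⟩
  have h1 : ∀ n N, n ≤ N → ∀ ζ, L n (N + 1) * ζ = l N * (L n N * ζ) := fun n N h ζ => by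
    simp only [hL, Finset.prod_Ico_succ_top h]
    ring
  have h2 : ∀ n N ζ, n ≤ N → ‖L n N * ζ‖ < r → ∀ M, N ≤ M →
      ‖L n M * ζ‖ < r ∧ Q n M ζ = Q n N ζ := fun n N ζ h h' M hM => by
    induction M, hM using Nat.le_induction with
    | base => exact ⟨h', rfl⟩
    | succ M hM ih =>
      constructor
      · rw [h1 n M (h.trans hM), norm_mul]
        exact (mul_le_of_le_one_left (norm_nonneg _) ((hl M).trans hθ.le)).trans_lt ih.1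
      · rw [← ih.2]
        simp only [hQ]
        rw [h1 n M (h.trans hM), ← hf M _ ih.1]
        simp [cmp]
  have h3 : ∀ n ζ, ∃ N, n ≤ N ∧ ‖L n N * ζ‖ < r := fun n ζ => by
    obtain ⟨m, hm⟩ := (GLin_small hl hθ hr n ζ).exists
    exact ⟨n + m, Nat.le_add_right _ _, by simpa only [hL] using hm⟩
  choose N hN1 hN2 using h3
  have h4 : ∀ n ζ M, n ≤ M → ‖L n M * ζ‖ < r → Q n (N n ζ) ζ = Q n M ζ := fun n ζ M h h' =>
    (h2 n _ ζ (hN1 n ζ) (hN2 n ζ) _ (le_max_left _ M)).2.symm.trans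
      (h2 n M ζ h h' _ (le_max_right _ M)).2
  refine ⟨fun n ζ => Q n (N n ζ) ζ, fun n ζ => ?_, fun n ζ h => ?_, fun n ζ => ?_⟩
  · have h5 : ∀ᶠ t in 𝓝 ζ, ‖L n (N n ζ) * t‖ < r :=
      (by fun_prop : Continuous fun t : ℂ => ‖L n (N n ζ) * t‖).continuousAt.eventually_lt_const
        (hN2 n ζ)
    refine DifferentiableAt.congr_of_eventuallyEq (f := Q n (N n ζ)) ?_
      (h5.mono fun t ht => h4 n t _ (hN1 n ζ) ht)
    rw [hQ]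
    refine ((hd n).1 _).comp ζ (((hd _).2 _).comp ζ (DifferentiableAt.comp ζ
      ((hP _).differentiableAt (isOpen_ball.mem_nhds (mem_ball_zero_iff.2 (hN2 n ζ)))) ?_))
    fun_prop
  · beta_reduce
    rw [h4 n ζ n le_rfl (by simpa [hL] using h)]
    simp [hQ, hL]
  · have h5 := h2 n _ ζ (hN1 n ζ) (hN2 n ζ) _ (Nat.le_succ _)
    have h6 : L n (N n ζ + 1) * ζ = L (n + 1) (N n ζ + 1) * (l n * ζ) := by
      simp only [hL, Finset.prod_eq_prod_Ico_succ_bot (Nat.lt_succ_of_le (hN1 n ζ))]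
      ring
    beta_reduce
    rw [← h5.2, h4 (n + 1) _ (N n ζ + 1) (Nat.succ_le_succ (hN1 n ζ)) (h6 ▸ h5.1)]
    simp only [hQ]
    rw [← h6, cmp_succ_apply]

/-- Take stable graphs `γ n` of `shf Φ n`, `σ n s = (Φ n (γ n s, s)).2`, `s n = (cmp Φ n z).2`
(two point bounds: `Chain.stay_two`, `Step.scone`; `Φ n (γ n s, s) = (γ (n+1) (σ n s), σ n s)` by
`uniq`, `‖σ n s‖ < 1` by `Step.snd_le`). With `ψ` from `koenigs`, the local maps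
`P n ζ = (γ n (ψ n ζ), ψ n ζ)` satisfy `Φ n (P n ζ) = P (n+1) (l n ζ)` on `ball 0 (2 ρ)`. Put
`Ψ n ζ = (cmp (shf Φ n) m)⁻¹ (P (n+m) (l n ⋯ l (n+m-1) ζ))`, which does not depend on `m` as soon
as `the Λ ^ m ‖ζ‖ < 2 ρ` (define it with the least such `m`). -/
theorem exists_lin (hs : Small Λ b δ) : ∃ ρ > 0, ∀ Φ : ℕ → Pm, Chain Λ b δ Φ → ∀ z : E,
    ‖z‖ ≤ 1 / 2 → Stay Φ z → ∃ Ψ l, IsLin (the Λ) ρ Φ z Ψ l := by
  obtain ⟨ρ, hρ, hρ1, hk⟩ := koenigs hs.2.2.1 hs.the_lt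
  refine ⟨ρ, hρ, fun Φ hc z hz hst => ?_⟩
  choose γ hγ using fun n => (hc.shf n).exists_sg
  obtain ⟨σ, hσ⟩ : ∃ σ : ℕ → ℂ → ℂ, σ = fun n s => (Φ n (γ n s, s)).2 := ⟨_, rfl⟩
  obtain ⟨s, hs'⟩ : ∃ s : ℕ → ℂ, s = fun n => (cmp Φ n z).2 := ⟨_, rfl⟩
  have a1 : ∀ n, ‖s n‖ ≤ 1 / 2 := fun n => by
    rw [hs']
    exact (norm_snd_le _).trans (hc.stay_le hst (by norm_num) hz n)
  have a1' : ∀ n, ‖s n‖ < 1 := fun n => (a1 n).trans_lt (by norm_num)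
  have a2 : ∀ n, cmp Φ n z = (γ n (s n), s n) := fun n => by
    refine Prod.ext ?_ (by rw [hs'])
    have := (hγ n).uniq _ (by simpa only [hs'] using a1' n) (hst.shf n)
    simpa only [hs'] using this
  have a3 : ∀ n, ∀ t ∈ ball (0 : ℂ) 1, ‖(γ n t, t)‖ ≤ 1 := fun n t ht => (hγ n).stay t ht 0
  have a4 : ∀ n, ∀ t ∈ ball (0 : ℂ) 1, Φ n (γ n t, t) = (γ (n + 1) (σ n t), σ n t) := by
    intro n t ht
    refine Prod.ext ?_ (by rw [hσ])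
    have h1 := ((hγ n).stay t ht).shf 1
    rw [shf_shf] at h1
    have h2 := (hc.2 n).snd_le hs (a3 n t ht)
    obtain ⟨b1, b2, b3, b4, b5, b6⟩ := hs
    have h3 : ‖t‖ / Λ < 1 - 2 * δ := by
      rw [div_lt_iff₀ (by linarith)]
      have := mem_ball_zero_iff.1 ht
      nlinarith
    have := (hγ (n + 1)).uniq (Φ n (γ n t, t)) (by linarith) h1
    simpa only [hσ] using this
  have a5 : ∀ n, DifferentiableOn ℂ (σ n) (ball 0 1) := fun n => by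
    rw [hσ]
    exact ((hc.2 n).1.comp_differentiableOn ((hγ n).gr.1.prodMk differentiableOn_id)).snd
  have a6 : ∀ n, σ n (s n) = s (n + 1) := fun n => by
    simp only [hσ]
    rw [← a2 n, hs', ← cmp_succ_apply]
  have a7 : ∀ n, ∀ t ∈ ball (0 : ℂ) 1, ∀ t' ∈ ball (0 : ℂ) 1,
      b / 2 * ‖t - t'‖ ≤ ‖σ n t - σ n t'‖ ∧ ‖σ n t - σ n t'‖ ≤ the Λ * ‖t - t'‖ := by
    intro n t ht t' ht'
    have := (hc.2 n).scone hs (a3 n t ht) (a3 n t' ht')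
      (((hγ n).gr.2.2 t ht t' ht').trans (div_le_self (norm_nonneg _) (by norm_num)))
    rw [hσ]
    exact this.symm
  obtain ⟨ψ, hψ⟩ := hk σ s a5 a1 a6 a7
  have a8 : ∀ n, ‖deriv (σ n) (s n)‖ ≤ the Λ := fun n => by
    refine norm_deriv_le_of_lip' hs.the_pos.le ?_
    filter_upwards [isOpen_ball.mem_nhds (mem_ball_zero_iff.2 (a1' n))] with t ht
    exact (a7 n t ht _ (mem_ball_zero_iff.2 (a1' n))).2
  have a9 : ∀ n, ∀ ζ ∈ ball (0 : ℂ) (2 * ρ), ψ n ζ ∈ ball (0 : ℂ) 1 := fun n ζ hζ => by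
    have h1 := ((hψ n).2.2 ζ hζ).1
    have h2 := mem_ball_zero_iff.1 hζ
    have h3 : ‖ζ‖ ^ 2 / (10 * ρ) ≤ ρ := by
      rw [div_le_iff₀ (by positivity)]
      nlinarith [norm_nonneg ζ]
    have h4 : ‖ψ n ζ‖ ≤ ‖ψ n ζ - s n - ζ‖ + ‖ζ‖ + ‖s n‖ := by
      refine le_trans (le_of_eq ?_) norm_add₃_le
      congr 1
      ring
    rw [mem_ball_zero_iff]
    linarith [a1 n]
  obtain ⟨Ψ, c1, c2, c3⟩ := GLin_ext (P := fun n ζ => (γ n (ψ n ζ), ψ n ζ))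
    (l := fun n => deriv (σ n) (s n)) hc.diff (mul_pos two_pos hρ) hs.the_lt a8
    (fun n => ((hγ n).gr.1.comp (hψ n).1 (a9 n)).prodMk (hψ n).1) fun n ζ hζ => by
      rw [a4 n _ (a9 n ζ (mem_ball_zero_iff.2 hζ)), ((hψ n).2.2 ζ (mem_ball_zero_iff.2 hζ)).2]
  have c4 : ∀ n, Ψ n 0 = (γ n (s n), s n) := fun n => by
    rw [c2 n 0 (by simpa using hρ), (hψ n).2.1]
  refine ⟨Ψ, _, c1, fun n => (c4 n).trans (a2 n).symm, c3, a8, fun n ζ hζ => ?_, fun n ζ hζ => ?_⟩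
  · rw [c2 n ζ (by linarith)]
    exact a3 n _ (a9 n ζ (mem_ball_zero_iff.2 (by linarith)))
  · rw [c2 n ζ (by linarith), c4]
    exact ((hψ n).2.2 ζ (mem_ball_zero_iff.2 (by linarith))).1

variable {θ ρ : ℝ} {Φ : ℕ → Pm} {z : E} {Ψ : ℕ → ℂ → E} {l : ℕ → ℂ}

theorem IsLin.shf (h : IsLin θ ρ Φ z Ψ l) (k : ℕ) :
    IsLin θ ρ (shf Φ k) (cmp Φ k z) (fun n => Ψ (k + n)) (fun n => l (k + n)) := by
  refine ⟨fun n => h.diff _, fun n => ?_, fun n ζ => h.func (k + n) ζ, fun n => h.lam _,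
    fun n => h.bd _, fun n => h.quad _⟩
  rw [h.zero, cmp_add, Equiv.Perm.mul_apply]

theorem IsLin.funcN (h : IsLin θ ρ Φ z Ψ l) (n : ℕ) (ζ : ℂ) :
    cmp Φ n (Ψ 0 ζ) = Ψ n ((∏ j ∈ Finset.range n, l j) * ζ) := by
  induction n with
  | zero => simp [cmp]
  | succ n ih => rw [cmp_succ_apply, ih, h.func, Finset.prod_range_succ_comm, mul_assoc]

theorem IsLin.deriv_snd (hρ : 0 < ρ) (h : IsLin θ ρ Φ z Ψ l) (n : ℕ) :
    (deriv (Ψ n) 0).2 = 1 := by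
  have h1 : HasDerivAt (fun ζ => (Ψ n ζ).2) (deriv (Ψ n) 0).2 0 :=
    (ContinuousLinearMap.snd ℂ ℂ ℂ).hasFDerivAt.comp_hasDerivAt 0 (h.diff n 0).hasDerivAt
  refine h1.unique (hasDerivAt_iff_isLittleO_nhds_zero.2 ?_)
  refine Asymptotics.IsBigO.trans_isLittleO (g := fun x : ℂ => x ^ 2)
    (Asymptotics.IsBigO.of_bound (10 * ρ)⁻¹ ?_) (Asymptotics.isLittleO_pow_id one_lt_two)
  filter_upwards [closedBall_mem_nhds 0 hρ] with ζ hζ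
  simpa [div_eq_inv_mul] using h.quad n ζ (mem_closedBall_zero_iff.1 hζ)

/-- otherwise `Ψ n` would be constant, contradicting `quad` -/
theorem IsLin.lam_ne (hρ : 0 < ρ) (h : IsLin θ ρ Φ z Ψ l) (n : ℕ) : l n ≠ 0 := by
  intro h0
  have h1 : Ψ n ρ = Ψ n 0 := (Φ n).injective (by rw [h.func, h.func, h0, zero_mul, zero_mul])
  have h2 : ‖(ρ : ℂ)‖ = ρ := by rw [Complex.norm_real, Real.norm_of_nonneg hρ.le]
  have h3 := h.quad n ρ h2.le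
  rw [h1, sub_self, zero_sub, norm_neg, h2, le_div_iff₀ (by positivity)] at h3
  nlinarith

/-- Cauchy estimate for `ζ ↦ (Ψ n ζ).2 - ζ`: its derivative has norm at most `1/5` for
`‖ζ‖ ≤ ρ / 2` -/
theorem IsLin.two (hρ : 0 < ρ) (h : IsLin θ ρ Φ z Ψ l) (n : ℕ) {ζ ζ' : ℂ} (h1 : ‖ζ‖ ≤ ρ / 2)
    (h2 : ‖ζ'‖ ≤ ρ / 2) : ‖(Ψ n ζ).2 - (Ψ n ζ').2 - (ζ - ζ')‖ ≤ ‖ζ - ζ'‖ / 5 := by
  have hd : Differentiable ℂ fun t => (Ψ n t).2 - (Ψ n 0).2 - t :=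
    ((h.diff n).snd.sub_const _).sub differentiable_id
  have h3 := (convex_closedBall (0 : ℂ) (ρ / 2)).norm_image_sub_le_of_norm_deriv_le (C := 1 / 5)
    (fun t _ => hd t) (fun t ht => ?_) (mem_closedBall_zero_iff.2 h2) (mem_closedBall_zero_iff.2 h1)
  · refine le_trans (le_of_eq ?_) (h3.trans_eq (by ring))
    congr 1
    ring
  · refine (Complex.norm_deriv_le_of_forall_mem_sphere_norm_le (half_pos hρ) hd.diffContOnCl
      (C := ρ / 10) fun w hw => ?_).trans_eq (by field_simp; norm_num)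
    have h4 : ‖w‖ ≤ ρ := by
      have := norm_le_norm_add_norm_sub' w t
      rw [mem_sphere_iff_norm.1 hw] at this
      linarith [mem_closedBall_zero_iff.1 ht]
    refine (h.quad n w h4).trans ?_
    rw [div_le_iff₀ (by positivity)]
    nlinarith [norm_nonneg w]

theorem IsLin.inj (hρ : 0 < ρ) (hθ : θ < 1) (h : IsLin θ ρ Φ z Ψ l) :
    Function.Injective (Ψ 0) := by
  intro ζ ζ' e
  obtain ⟨m, h1, h2⟩ := ((GLin_small h.lam hθ (half_pos hρ) 0 ζ).and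
    (GLin_small h.lam hθ (half_pos hρ) 0 ζ')).exists
  rw [zero_add, Nat.Ico_zero_eq_range] at h1 h2
  have h3 := h.two hρ m h1.le h2.le
  rw [← h.funcN, ← h.funcN, e, sub_self, zero_sub, norm_neg] at h3
  exact mul_left_cancel₀ (Finset.prod_ne_zero_iff.2 fun j _ => h.lam_ne hρ j)
    (sub_eq_zero.1 (norm_le_zero_iff.1 (by linarith)))

theorem IsLin.stay (hθ : θ ≤ 1) (h : IsLin θ ρ Φ z Ψ l) {ζ : ℂ} (hζ : ‖ζ‖ ≤ ρ) :
    Stay Φ (Ψ 0 ζ) := by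
  intro j
  rw [h.funcN]
  refine h.bd j _ ?_
  rw [norm_mul]
  exact (mul_le_of_le_one_left (norm_nonneg _) ((GLin_prod h.lam _).trans
    (pow_le_one₀ ((norm_nonneg _).trans (h.lam 0)) hθ))).trans hζ

/-- Local surjectivity with a holomorphic inverse: `H` is the inverse (`exists_inverse`, `α = 1`,
`e = 1/5`) of `ζ ↦ (Ψ 0 ζ).2` on `ball 0 (ρ/2)`; two staying points with the same second coordinate
are equal (`Chain.stay_two`). -/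
theorem IsLin.surj (hc : Chain Λ b δ Φ) (hρ : 0 < ρ) (hθ : θ ≤ 1) (h : IsLin θ ρ Φ z Ψ l) :
    ∃ H : ℂ → ℂ, DifferentiableOn ℂ H (ball z.2 (ρ / 3)) ∧
      ∀ w : E, Stay Φ w → ‖w.2 - z.2‖ < ρ / 3 → Ψ 0 (H w.2) = w := by
  obtain ⟨H, h1, h2⟩ := exists_inverse (φ := fun t => (Ψ 0 t).2) (c := 0) (α := 1) (e := 1 / 5)
    (half_pos hρ) (by norm_num) (h.diff 0).snd.differentiableOn fun t ht t' ht' => by
      rw [one_mul, one_div_mul_eq_div]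
      exact h.two hρ 0 (mem_ball_zero_iff.1 ht).le (mem_ball_zero_iff.1 ht').le
  have h3 : ball z.2 (ρ / 3) ⊆ ball (Ψ 0 0).2 ((‖(1 : ℂ)‖ - 1 / 5) * (ρ / 2)) := by
    rw [h.zero, norm_one]
    exact ball_subset_ball (by linarith)
  refine ⟨H, h1.mono h3, fun w hw hw' => ?_⟩
  obtain ⟨h4, h5⟩ := h2 w.2 (h3 (mem_ball_iff_norm.2 hw'))
  have h6 := (hc.stay_two (h.stay hθ (ζ := H w.2)
    ((mem_ball_zero_iff.1 h4).le.trans (half_le_self hρ.le))) hw).1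
  rw [Prod.snd_sub, h5, sub_self, norm_zero, zero_div, norm_le_zero_iff, Prod.fst_sub,
    sub_eq_zero] at h6
  exact Prod.ext h6 h5

end Pool.Agent.Lib.MP_7b5e47_an.Hn
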