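import Pool.Agent.Lib.MP_7b5e47_an.Hn.Defs

namespace Pool.Agent.Lib.MP_7b5e47_an.Hn

open Filter Topology Set Metric MeasureTheory

/-! Montel's theorem along an ultrafilter; injective entire functions are affine. -/

/-- Pointwise limits exist along the ultrafilter (compact balls); equicontinuity from the Cauchy
estimate makes the convergence locally uniform. (A scalar version is `rmt_montel` in
`Pool/Agent/Lib/MP_e9d8ca_an/RMT.lean`; copy what you need, do not import that file.) -/
theorem montel {ι : Type*} (𝒰 : Ultrafilter ι) {f : ι → ℂ → E} {U : Set ℂ} (hU : IsOpen U)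
    (hd : ∀ᶠ i in (𝒰 : Filter ι), DifferentiableOn ℂ (f i) U)
    (hb : ∀ z ∈ U, ∃ r > 0, ∃ B : ℝ, ∀ᶠ i in (𝒰 : Filter ι), ∀ w ∈ ball z r, ‖f i w‖ ≤ B) :
    ∃ g : ℂ → E, DifferentiableOn ℂ g U ∧ TendstoLocallyUniformlyOn f g (𝒰 : Filter ι) U := by
  have h1 : ∀ z, ∃ y, z ∈ U → Tendsto (fun n => f n z) 𝒰 (𝓝 y) := by
    intro z
    by_cases hz : z ∈ U
    · obtain ⟨r, hr, B, hB⟩ := hb z hz
      obtain ⟨y, -, hy⟩ := (isCompact_closedBall (0 : E) B).ultrafilter_le_nhds
        (𝒰.map fun n => f n z) (by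
          rw [Ultrafilter.coe_map, le_principal_iff, mem_map]
          exact hB.mono fun n hn => mem_closedBall_zero_iff.2 (hn z (mem_ball_self hr)))
      exact ⟨y, fun _ => hy⟩
    · exact ⟨0, fun h => absurd h hz⟩
  choose g hg using h1
  suffices h : TendstoLocallyUniformlyOn f g (𝒰 : Filter ι) U from
    ⟨g, h.differentiableOn hd hU, h⟩
  rw [Metric.tendstoLocallyUniformlyOn_iff]
  intro ε hε z hz
  obtain ⟨r', hr', B, hB⟩ := hb z hz
  obtain ⟨r, hr, hs⟩ := Metric.mem_nhds_iff.1 (inter_mem (hU.mem_nhds hz) (ball_mem_nhds z hr'))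
  have hc : Tendsto (fun w => 2 * B / r * dist w z) (𝓝 z) (𝓝 0) :=
    Continuous.tendsto' (by fun_prop) _ _ (by simp)
  have hL : ∀ᶠ n in (𝒰 : Filter ι), ∀ w ∈ ball z r ∩ {w | 2 * B / r * dist w z < ε / 4},
      dist (f n w) (f n z) ≤ ε / 4 := by
    filter_upwards [hd, hB] with n h1 h2 w hw
    refine (Complex.dist_le_div_mul_dist_of_mapsTo_ball (h1.mono fun y hy => (hs hy).1)
      (fun y hy => ?_) hw.1).trans hw.2.le
    rw [mem_closedBall, dist_eq_norm]
    linarith [norm_sub_le (f n y) (f n z), h2 y (hs hy).2, h2 z (mem_ball_self hr')]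
  refine ⟨_, mem_nhdsWithin_of_mem_nhds (inter_mem (ball_mem_nhds z hr)
    (hc.eventually (gt_mem_nhds (by positivity : 0 < ε / 4)))), ?_⟩
  filter_upwards [Metric.tendsto_nhds.1 (hg z hz) (ε / 4) (by positivity), hL] with n hn h2 w hw
  have h3 : dist (g w) (g z) ≤ ε / 4 :=
    le_of_tendsto ((hg w (hs hw.1).1).dist (hg z hz)) (hL.mono fun n hn => hn w hw)
  have h4 := dist_triangle4 (g w) (g z) (f n z) (f n w)
  rw [dist_comm (g z), dist_comm (f n z) (f n w)] at h4
  linarith [h2 w hw]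

theorem PMontel_order {k q : ℂ → ℂ} (hi : Function.Injective k) (hq : AnalyticAt ℂ q 0)
    (h0 : q 0 ≠ 0) {n : ℕ} (hn : 1 < n) (he : ∀ᶠ w in 𝓝 0, k w = w ^ n * q w) : False := by
  have hn' : (n : ℂ) ≠ 0 := Nat.cast_ne_zero.2 (by omega)
  have hl : AnalyticAt ℂ (fun z => Complex.exp (Complex.log (q z / q 0) / n)) 0 := by
    refine AnalyticAt.cexp' (AnalyticAt.div ((hq.fun_div analyticAt_const h0).clog ?_)
      analyticAt_const hn')
    rw [div_self h0]
    exact Complex.one_mem_slitPlane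
  have hs := ((hasStrictDerivAt_id (0 : ℂ)).fun_mul hl.hasStrictDerivAt).map_nhds_eq
    (by simp [h0])
  simp only [id, zero_mul] at hs
  have hS : ∀ᶠ w in 𝓝 0, k w = q 0 * (w * Complex.exp (Complex.log (q w / q 0) / n)) ^ n := by
    filter_upwards [he, hq.continuousAt.eventually_ne h0] with w h1 h2
    rw [h1, mul_pow, ← Complex.exp_nat_mul, mul_div_cancel₀ _ hn',
      Complex.exp_log (div_ne_zero h2 h0), mul_left_comm, mul_div_cancel₀ _ h0]
  have hT := image_mem_map (m := fun w => w * Complex.exp (Complex.log (q w / q 0) / n)) hS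
  rw [hs] at hT
  have hζ := Complex.isPrimitiveRoot_exp n (by omega)
  generalize Complex.exp (2 * Real.pi * Complex.I / n) = ζ at hζ
  have hc : Tendsto (fun t => ζ * t) (𝓝 0) (𝓝 0) := Continuous.tendsto' (by fun_prop) _ _ (by simp)
  obtain ⟨t, ⟨⟨w, a1, a2⟩, w', b1, b2⟩, ht⟩ := ((((eventually_mem_set.2 hT).and
    (hc.eventually hT)).filter_mono nhdsWithin_le_nhds).and
      (self_mem_nhdsWithin (s := {0}ᶜ))).exists
  have e : w = w' := hi (by
    rw [show k w = _ from a1, show k w' = _ from b1, show w * _ = t from a2, show w' * _ = ζ * t from b2,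
      mul_pow, hζ.pow_eq_one, one_mul])
  subst e
  exact hζ.ne_one hn (mul_right_cancel₀ ht ((b2.symm.trans a2).trans (one_mul t).symm))

/-- An injective entire function is affine. It is open (open mapping theorem), so for
`‖z‖ > 1`, `‖h z - h 0‖ ≥ r > 0`; hence `w ↦ 1 / (h (1/w) - h 0)` is bounded near `0`, has a
removable singularity; its limit is `0` (a non-zero limit would make `h` bounded, so constant);
it extends to an injective holomorphic `k` near `0` with `k 0 = 0`, and `deriv k 0 ≠ 0`; so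
`‖h z‖ ≤ C ‖z‖` for large `z` and `dslope h 0` is a bounded entire function. To see
`deriv k 0 ≠ 0`: `k w = w ^ m g w`, `g 0 ≠ 0`; alternatively, polynomial growth makes `h` a
polynomial, and an injective polynomial has degree one (`h - h 0` has the single root `0`, so it is
`c z ^ m`, and a primitive root of unity gives `m = 1`). -/
theorem affine_of_inj {h : ℂ → ℂ} (hd : Differentiable ℂ h) (hi : Function.Injective h) :
    ∃ c e : ℂ, c ≠ 0 ∧ ∀ z, h z = c * z + e := by
  obtain ⟨f, hf⟩ : ∃ f : ℂ → ℂ, f = fun z => h z - h 0 := ⟨_, rfl⟩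
  have fd : Differentiable ℂ f := hf ▸ hd.sub_const _
  have fi : Function.Injective f := hf ▸ sub_left_injective.comp hi
  have f0 : f 0 = 0 := by rw [hf]; exact sub_self _
  have fn : ∀ z, z ≠ 0 → f z ≠ 0 := fun z hz e => hz (fi (e.trans f0.symm))
  have ho : IsOpenMap f := (fd.differentiableOn.analyticOnNhd
    isOpen_univ).is_constant_or_isOpenMap.resolve_left fun ⟨w, hw⟩ =>
      fn 1 one_ne_zero ((hw 1).trans ((hw 0).symm.trans f0))
  obtain ⟨r, hr, hs⟩ := Metric.mem_nhds_iff.1 (ho.image_mem_nhds (ball_mem_nhds 0 one_pos))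
  obtain ⟨k, hk⟩ : ∃ k : ℂ → ℂ, k = fun w => (f w⁻¹)⁻¹ := ⟨_, rfl⟩
  have ki : Function.Injective k := hk ▸ inv_injective.comp (fi.comp inv_injective)
  have k0 : k 0 = 0 := by rw [hk]; simp [f0]
  have kd : ∀ᶠ w in 𝓝[≠] 0, DifferentiableAt ℂ k w := by
    filter_upwards [self_mem_nhdsWithin] with w hw
    exact hk ▸ ((fd _).comp w (differentiableAt_inv hw)).inv (fn _ (inv_ne_zero hw))
  have kl := Complex.tendsto_limUnder_of_differentiable_on_punctured_nhds_of_bounded_under kd
    ⟨r⁻¹, eventually_map.2 <| by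
      filter_upwards [self_mem_nhdsWithin, mem_nhdsWithin_of_mem_nhds (ball_mem_nhds 0 one_pos)]
        with w hw hw'
      rw [k0, sub_zero, hk, norm_inv]
      refine inv_anti₀ hr (not_lt.1 fun a => ?_)
      obtain ⟨z, hz, e⟩ := hs (show f w⁻¹ ∈ _ by rwa [f0, mem_ball_zero_iff])
      rw [fi e, mem_ball_zero_iff, norm_inv] at hz
      exact hz.not_gt ((one_lt_inv₀ (norm_pos_iff.2 hw)).2 (mem_ball_zero_iff.1 hw'))⟩
  have ci : Tendsto Inv.inv (cocompact ℂ) (𝓝[≠] 0) :=
    Metric.cobounded_eq_cocompact (α := ℂ) ▸ tendsto_inv₀_cobounded'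
  have l0 : limUnder (𝓝[≠] 0) k = 0 := by
    by_contra hl
    refine inv_ne_zero hl (f0 ▸ fd.apply_eq_of_tendsto_cocompact 0
      (((kl.comp ci).inv₀ hl).congr fun z => ?_)).symm
    simp [hk]
  have ka : AnalyticAt ℂ k 0 :=
    Complex.analyticAt_of_differentiable_on_punctured_nhds_of_continuousAt kd
      (continuousAt_iff_punctured_nhds.2 (by rwa [l0.trans k0.symm] at kl))
  obtain ⟨n, q, hq, h0, he⟩ := ka.exists_eventuallyEq_pow_smul_nonzero_iff.2 fun a => by
    obtain ⟨w, a1, a2⟩ := ((a.filter_mono nhdsWithin_le_nhds).and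
      (self_mem_nhdsWithin (s := {0}ᶜ))).exists
    exact a2 (ki (a1.trans k0.symm))
  simp only [sub_zero, smul_eq_mul] at he
  obtain rfl : n = 1 := by
    by_contra hn
    rcases Nat.lt_or_gt_of_ne hn with a | a
    · have b := he.self_of_nhds
      rw [Nat.lt_one_iff.1 a, pow_zero, one_mul, k0] at b
      exact h0 b.symm
    · exact PMontel_order ki hq h0 a he
  have sd : Differentiable ℂ (dslope f 0) := differentiableOn_univ.1
    ((Complex.differentiableOn_dslope univ_mem).2 fd.differentiableOn)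
  refine ⟨(q 0)⁻¹, h 0, inv_ne_zero h0, fun z => ?_⟩
  have e := sd.apply_eq_of_tendsto_cocompact z (((hq.continuousAt.tendsto.comp
    (ci.mono_right nhdsWithin_le_nhds)).inv₀ h0).congr' (by
      filter_upwards [ci.eventually (he.filter_mono nhdsWithin_le_nhds),
        ci.eventually self_mem_nhdsWithin] with z h1 h2
      have h3 : z ≠ 0 := fun e => h2 (inv_eq_zero.2 e)
      simp only [hk, inv_inv, pow_one] at h1
      rw [dslope_of_ne _ h3, slope_def_field, f0, sub_zero, sub_zero, inv_eq_iff_eq_inv.1 h1,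
        mul_inv, inv_inv, mul_div_cancel_left₀ _ h3, Function.comp]))
  have e2 := sub_smul_dslope f 0 z
  rw [e, f0, hf] at e2
  simp only [smul_eq_mul, sub_zero] at e2
  linear_combination -e2

end Pool.Agent.Lib.MP_7b5e47_an.Hn
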