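import Pool.Agent.Lib.MP_7b5e47_an.Hn.GLin
import Pool.Agent.Lib.MP_7b5e47_an.Hn.PMontel

namespace Pool.Agent.Lib.MP_7b5e47_an.Hn

open Filter Topology Set Metric MeasureTheory

/-! Uniqueness of linearizers and continuous dependence. -/

variable {Λ b δ θ ρ : ℝ}

theorem GLinU_prod {l : ℕ → ℂ} (h : ∀ n, ‖l n‖ ≤ θ) (n : ℕ) :
    ‖∏ j ∈ Finset.range n, l j‖ ≤ θ ^ n := by
  rw [norm_prod]
  exact (Finset.prod_le_prod (fun _ _ => norm_nonneg _) fun j _ => h j).trans_eq (by simp)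

theorem GLinU_lim {l : ℕ → ℂ} (h : ∀ n, ‖l n‖ ≤ θ) (hθ : θ < 1) (ζ : ℂ) :
    Tendsto (fun n => ‖(∏ j ∈ Finset.range n, l j) * ζ‖) atTop (𝓝 0) := by
  have h1 := (tendsto_pow_atTop_nhds_zero_of_lt_one ((norm_nonneg _).trans (h 0)) hθ).mul_const ‖ζ‖
  rw [zero_mul] at h1
  refine squeeze_zero (fun _ => norm_nonneg _) (fun n => ?_) h1
  rw [norm_mul]
  exact mul_le_mul_of_nonneg_right (GLinU_prod h n) (norm_nonneg _)

theorem GLinU_ratio {Φ : ℕ → Pm} (hρ : 0 < ρ) (hθ : θ < 1) {z : E} {Ψ Ψ' : ℕ → ℂ → E}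
    {l l' : ℕ → ℂ} (h : IsLin θ ρ Φ z Ψ l) (h' : IsLin θ ρ Φ z Ψ' l') {ζ w : ℂ}
    (e : Ψ 0 w = Ψ' 0 ζ) : Tendsto (fun n => (∏ j ∈ Finset.range n, l' j) /
      (∏ j ∈ Finset.range n, l j) * ζ) atTop (𝓝 w) := by
  have ha := GLinU_lim h'.lam hθ ζ
  have hb := GLinU_lim h.lam hθ w
  have h1 := ((ha.mul_const (2 * ‖w‖)).add (hb.mul_const ‖w‖)).div_const (10 * ρ)
  rw [zero_mul, zero_mul, zero_add, zero_div] at h1
  rw [tendsto_iff_norm_sub_tendsto_zero]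
  refine squeeze_zero' (Eventually.of_forall fun _ => norm_nonneg _) ?_ h1
  filter_upwards [ha.eventually (ge_mem_nhds hρ), hb.eventually (ge_mem_nhds hρ)] with n h2 h3
  have hL : ∏ j ∈ Finset.range n, l j ≠ 0 := Finset.prod_ne_zero_iff.2 fun j _ => h.lam_ne hρ j
  have q := h.quad n _ h3
  have q' := h'.quad n _ h2
  rw [← h.funcN, h.zero, e] at q
  rw [← h'.funcN, h'.zero] at q'
  generalize ∏ j ∈ Finset.range n, l j = L at *
  generalize ∏ j ∈ Finset.range n, l' j = L' at *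
  have e1 : L' * ζ = L * (L' / L * ζ) := by field_simp
  generalize L' / L * ζ = u at *
  rw [e1] at q' h2 ⊢
  have h4 := (norm_sub_le _ _).trans (add_le_add q q')
  rw [sub_sub_sub_cancel_left, ← mul_sub, ← add_div, le_div_iff₀ (by positivity), norm_mul,
    sq, sq] at h4
  have h5 : ‖u - w‖ * (10 * ρ) ≤ ‖L * w‖ * ‖w‖ + ‖L * u‖ * ‖u‖ := by
    refine le_of_mul_le_mul_left ?_ (norm_pos_iff.2 hL)
    refine (mul_assoc _ _ _).symm.trans_le (h4.trans_eq ?_)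
    simp only [norm_mul]
    ring
  have h6 : ‖u‖ ≤ 2 * ‖w‖ := by
    have a1 := mul_le_mul_of_nonneg_right h2 (norm_nonneg u)
    have a2 := mul_le_mul_of_nonneg_right h3 (norm_nonneg w)
    have a3 := mul_le_mul_of_nonneg_right (norm_sub_norm_le u w) (by positivity : 0 ≤ 10 * ρ)
    refine le_of_mul_le_mul_left ?_ hρ
    nlinarith [mul_nonneg hρ.le (norm_nonneg w)]
  rw [le_div_iff₀ (by positivity)]
  nlinarith [mul_le_mul_of_nonneg_left h6 (norm_nonneg (L * u))]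

/-- For small `ζ`, `Ψ' 0 ζ = Ψ 0 (h ζ)` with `h ζ` small (`IsLin.stay`, `IsLin.surj`,
`IsLin.two`). Let `L n, L' n` be the products of the multipliers. `funcN` gives
`Ψ' n (L' n ζ) = Ψ n (L n h ζ)`, and `quad` for both gives
`‖L' n ζ - L n h ζ‖ ≤ C (‖L' n ζ‖^2 + ‖L n h ζ‖^2)` with both terms tending to zero, so
`L' n / L n → h ζ / ζ` for `ζ ≠ 0`. Hence `h ζ = c ζ` near `0`, `c = 1` by `quad` at `n = 0`, and
the identity theorem ends the proof. -/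
theorem IsLin.uniq {Φ : ℕ → Pm} (hc : Chain Λ b δ Φ) (hρ : 0 < ρ) (hθ : θ < 1) {z : E}
    {Ψ Ψ' : ℕ → ℂ → E} {l l' : ℕ → ℂ} (h : IsLin θ ρ Φ z Ψ l) (h' : IsLin θ ρ Φ z Ψ' l') :
    Ψ 0 = Ψ' 0 := by
  obtain ⟨H, -, hH⟩ := h.surj hc hρ hθ.le
  have h0 : Tendsto (fun ζ => ‖(Ψ' 0 ζ).2 - z.2‖) (𝓝 0) (𝓝 0) := by
    have := (((h'.diff 0).continuous.tendsto 0).snd_nhds.sub_const z.2).norm
    rwa [h'.zero, cmp, Equiv.Perm.one_apply, sub_self, norm_zero] at this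
  have h1 : ∀ᶠ ζ in 𝓝 (0 : ℂ), Ψ 0 (H (Ψ' 0 ζ).2) = Ψ' 0 ζ := by
    filter_upwards [h0.eventually (gt_mem_nhds (show 0 < ρ / 3 by positivity)),
      closedBall_mem_nhds 0 hρ] with ζ a1 a2
    exact hH _ (h'.stay hθ.le (mem_closedBall_zero_iff.1 a2)) a1
  obtain ⟨ζ₀, a1, a2⟩ := ((h1.filter_mono nhdsWithin_le_nhds).and
    (self_mem_nhdsWithin (s := {(0 : ℂ)}ᶜ))).exists
  have a3 := (GLinU_ratio hρ hθ h h' a1).div_const ζ₀
  simp only [mul_div_cancel_right₀ _ (show ζ₀ ≠ 0 from a2)] at a3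
  generalize H (Ψ' 0 ζ₀).2 / ζ₀ = c at a3
  have h2 : (fun ζ => Ψ 0 (c * ζ)) =ᶠ[𝓝 0] Ψ' 0 := h1.mono fun ζ hζ => by
    rw [← hζ, tendsto_nhds_unique (GLinU_ratio hρ hθ h h' hζ) (a3.mul_const ζ)]
  have h3 := congrArg Prod.snd h2.deriv_eq
  rw [deriv_comp_mul_left, mul_zero, Prod.smul_snd, h.deriv_snd hρ, h'.deriv_snd hρ, smul_eq_mul,
    mul_one] at h3
  simp only [h3, one_mul] at h2
  exact AnalyticOnNhd.eq_of_eventuallyEq (fun ζ _ => (h.diff 0).analyticAt ζ)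
    (fun ζ _ => (h'.diff 0).analyticAt ζ) h2

/-- It suffices to prove convergence along every ultrafilter finer than `atTop`
(on each closed ball, argue by contradiction with `Ultrafilter.of`). Along it the `Ψj j n` are
locally bounded: `Ψj j n ζ = (cmp (shf Φ n) m)⁻¹ (point of the unit ball)` when `θ^m ‖ζ‖ ≤ ρ` and
`j` is large (`IsLin.shf`, `funcN`, `cmp_congr`). `montel` gives limits `Ψ' n`, the `lj j n` have
limits `l' n`, and `IsLin θ ρ Φ z Ψ' l'` holds; conclude with `IsLin.uniq`. -/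
theorem IsLin.conv {Φ : ℕ → Pm} (hc : Chain Λ b δ Φ) (hρ : 0 < ρ) (hθ : θ < 1) {z : E}
    {Ψ : ℕ → ℂ → E} {l : ℕ → ℂ} (h : IsLin θ ρ Φ z Ψ l) {Φj : ℕ → ℕ → Pm} {zj : ℕ → E}
    {Ψj : ℕ → ℕ → ℂ → E} {lj : ℕ → ℕ → ℂ} (hj : ∀ j, IsLin θ ρ (Φj j) (zj j) (Ψj j) (lj j))
    (hΦ : ∀ n, ∀ᶠ j in atTop, Φj j n = Φ n) (hz : Tendsto zj atTop (𝓝 z)) (R : ℝ) :
    TendstoUniformlyOn (fun j => Ψj j 0) (Ψ 0) atTop (closedBall 0 R) := by
  intro u hu
  refine mem_iff_ultrafilter.2 fun 𝒰 h𝒰 => ?_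
  have hθ0 : 0 ≤ θ := (norm_nonneg _).trans (h.lam 0)
  have hcm : ∀ n m, ∀ᶠ j in (𝒰 : Filter ℕ), cmp (Hn.shf (Φj j) n) m = cmp (Hn.shf Φ n) m :=
    fun n m => (((Finset.range m).eventually_all.2 fun i _ => hΦ (n + i)).filter_mono h𝒰).mono
      fun j hj => cmp_congr fun i hi => hj i (Finset.mem_range.2 hi)
  choose Ψ' d1 d2 using fun n => montel 𝒰 (f := fun j => Ψj j n) isOpen_univ
    (Eventually.of_forall fun j => ((hj j).diff n).differentiableOn) fun ζ _ => by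
      have t1 := (tendsto_pow_atTop_nhds_zero_of_lt_one hθ0 hθ).mul_const (‖ζ‖ + 1)
      rw [zero_mul] at t1
      obtain ⟨m, hm⟩ := (t1.eventually (ge_mem_nhds hρ)).exists
      obtain ⟨B, hB⟩ := (isCompact_closedBall (0 : E) 1).exists_bound_of_continuousOn
        ((hc.shf n).diff m).2.continuous.continuousOn
      refine ⟨1, one_pos, B, (hcm n m).mono fun j e w hw => ?_⟩
      have a1 := ((hj j).shf n).funcN m w
      rw [e, ← Equiv.Perm.eq_inv_iff_eq] at a1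
      refine le_of_eq_of_le (congrArg _ a1) (hB _ (mem_closedBall_zero_iff.2 ((hj j).bd _ _ ?_)))
      rw [norm_mul]
      refine le_trans (mul_le_mul (GLinU_prod (fun i => (hj j).lam _) m) ?_ (norm_nonneg _)
        (by positivity)) hm
      linarith [norm_sub_norm_le w ζ, mem_ball_iff_norm.1 hw]
  choose l' e1 e2 using fun n => (isCompact_closedBall (0 : ℂ) θ).ultrafilter_le_nhds
    (𝒰.map fun j => lj j n) (le_principal_iff.2 (mem_map.2 (Eventually.of_forall fun j =>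
      mem_closedBall_zero_iff.2 ((hj j).lam n))))
  have d3 : ∀ n ζ, Tendsto (fun j => Ψj j n ζ) 𝒰 (𝓝 (Ψ' n ζ)) :=
    fun n ζ => (d2 n).tendsto_at (mem_univ ζ)
  have hl : IsLin θ ρ Φ z Ψ' l' := by
    refine ⟨fun n => differentiableOn_univ.1 (d1 n), fun n => ?_, fun n ζ => ?_,
      fun n => mem_closedBall_zero_iff.1 (e1 n),
      fun n ζ hζ => le_of_tendsto' (d3 n ζ).norm fun j => (hj j).bd n ζ hζ,
      fun n ζ hζ => le_of_tendsto' ((((d3 n ζ).snd_nhds.sub (d3 n 0).snd_nhds).sub_const ζ).norm)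
        fun j => (hj j).quad n ζ hζ⟩
    · refine tendsto_nhds_unique_of_eventuallyEq (d3 n 0)
        (((hc.diff n).1.continuous.tendsto z).comp (hz.mono_left h𝒰)) ?_
      filter_upwards [((Finset.range n).eventually_all.2 fun i _ => hΦ i).filter_mono h𝒰] with j e
      rw [(hj j).zero, cmp_congr fun i hi => e i (Finset.mem_range.2 hi), Function.comp_apply]
    · refine tendsto_nhds_unique_of_eventuallyEq
        (((hc.2 n).1.continuous.tendsto _).comp (d3 n ζ))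
        ((tendstoLocallyUniformlyOn_univ.1 (d2 (n + 1))).tendsto_comp
          (differentiableOn_univ.1 (d1 (n + 1))).continuous.continuousAt
          (Tendsto.mul_const ζ (e2 n))) ?_
      filter_upwards [(hΦ n).filter_mono h𝒰] with j e
      rw [Function.comp_apply, ← e, (hj j).func]
  rw [h.uniq hc hρ hθ hl]
  exact (tendstoLocallyUniformlyOn_iff_tendstoUniformlyOn_of_compact (isCompact_closedBall 0 R)).1
    ((d2 0).mono (subset_univ _)) u hu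

end Pool.Agent.Lib.MP_7b5e47_an.Hn
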