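import Pool.Agent.Lib.MP_7b5e47_an.Hn.GHG

namespace Pool.Agent.Lib.MP_7b5e47_an.Hn

open Filter Topology Set Metric MeasureTheory

/-! The stable graph, pull back of vertical lines with distortion control. -/

variable {Λ b δ : ℝ}

theorem GSG_norm_pair {γ : ℂ → ℂ} (h : Gr 0 1 γ) {s t : ℂ} (hs : s ∈ ball (0 : ℂ) 1)
    (ht : t ∈ ball (0 : ℂ) 1) : ‖((γ s, s) : E) - (γ t, t)‖ = ‖s - t‖ := by
  have h1 := h.2.2 s hs t ht
  have h2 := norm_nonneg (s - t)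
  rw [Prod.mk_sub_mk, Prod.norm_mk]
  exact max_eq_right (by linarith)

theorem GSG_norm_le {γ : ℂ → ℂ} (h : Gr 0 1 γ) {s : ℂ} (hs : s ∈ ball (0 : ℂ) 1) :
    ‖((γ s, s) : E)‖ ≤ 1 := by
  rw [Prod.norm_mk]
  exact max_le (h.2.1 s hs) (mem_ball_zero_iff.1 hs).le

/-- One-step three point distortion. `q s = dslope σ t s` is holomorphic on the unit ball with
`b/2 ≤ ‖q‖ ≤ 1`, so by the Cauchy estimate (radius `1/10`) it is `10`-Lipschitz on the convex set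
`closedBall 0 (4/5)`, and `‖q s‖ ≤ ‖q w‖ (1 + (20/b) ‖s - w‖)`. -/
theorem dist_one {σ : ℂ → ℂ} (hb : 0 < b) (hd : DifferentiableOn ℂ σ (ball 0 1))
    (hl : ∀ s ∈ ball (0 : ℂ) 1, ∀ s' ∈ ball (0 : ℂ) 1,
      b / 2 * ‖s - s'‖ ≤ ‖σ s - σ s'‖ ∧ ‖σ s - σ s'‖ ≤ ‖s - s'‖)
    {s t w : ℂ} (hs : ‖s‖ ≤ 4 / 5) (ht : ‖t‖ ≤ 4 / 5) (hw : ‖w‖ ≤ 4 / 5) :
    ‖σ s - σ t‖ * ‖w - t‖ ≤ Real.exp (20 / b * ‖s - w‖) * (‖σ w - σ t‖ * ‖s - t‖) := by
  have mem : ∀ {x : ℂ}, ‖x‖ ≤ 4 / 5 → x ∈ ball (0 : ℂ) 1 := fun hx =>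
    mem_ball_zero_iff.2 (by linarith)
  have hq : DifferentiableOn ℂ (dslope σ t) (ball 0 1) :=
    (Complex.differentiableOn_dslope (isOpen_ball.mem_nhds (mem ht))).2 hd
  have hmul : ∀ x, ‖σ x - σ t‖ = ‖x - t‖ * ‖dslope σ t x‖ := fun x => by
    rw [← sub_smul_dslope, norm_smul]
  have hup' : ∀ x ∈ ball (0 : ℂ) 1, x ≠ t → ‖dslope σ t x‖ ≤ 1 := fun x hx hxt => by
    have h1 := (hl x hx t (mem ht)).2
    rw [hmul] at h1
    exact (mul_le_iff_le_one_right (norm_pos_iff.2 (sub_ne_zero.2 hxt))).1 h1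
  have hup : ∀ x ∈ ball (0 : ℂ) 1, ‖dslope σ t x‖ ≤ 1 := fun x hx => by
    by_cases hxt : x = t
    · subst hxt
      have h1 : Tendsto (fun y => ‖dslope σ x y‖) (𝓝[≠] x) (𝓝 ‖dslope σ x x‖) :=
        ((hq.differentiableAt (isOpen_ball.mem_nhds hx)).continuousAt.norm.tendsto).mono_left
          nhdsWithin_le_nhds
      refine le_of_tendsto h1 ?_
      filter_upwards [self_mem_nhdsWithin, mem_nhdsWithin_of_mem_nhds (isOpen_ball.mem_nhds hx)]
        with y h2 h3 using hup' y h3 h2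
    · exact hup' x hx hxt
  have hder : ∀ x ∈ closedBall (0 : ℂ) (4 / 5), ‖deriv (dslope σ t) x‖ ≤ 10 := fun x hx => by
    have hsub : closedBall x (1 / 10) ⊆ ball (0 : ℂ) 1 := by
      refine closedBall_subset_ball' ?_
      have := mem_closedBall.1 hx
      linarith
    have := Complex.norm_deriv_le_of_forall_mem_sphere_norm_le (c := x) (R := 1 / 10) (C := 1)
      (by norm_num) (hq.diffContOnCl_ball hsub) fun y hy =>
        hup y (hsub (sphere_subset_closedBall hy))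
    linarith
  have hlip : ‖dslope σ t s - dslope σ t w‖ ≤ 10 * ‖s - w‖ :=
    (convex_closedBall (0 : ℂ) (4 / 5)).norm_image_sub_le_of_norm_deriv_le
      (fun x hx => hq.differentiableAt (isOpen_ball.mem_nhds (mem (mem_closedBall_zero_iff.1 hx))))
      hder (mem_closedBall_zero_iff.2 hw) (mem_closedBall_zero_iff.2 hs)
  by_cases hwt : w = t
  · subst hwt
    simp
  have hlow : b / 2 ≤ ‖dslope σ t w‖ := by
    have h1 := (hl w (mem hw) t (mem ht)).1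
    rw [hmul, mul_comm] at h1
    exact le_of_mul_le_mul_left h1 (norm_pos_iff.2 (sub_ne_zero.2 hwt))
  have h1 : ‖dslope σ t s‖ ≤ Real.exp (20 / b * ‖s - w‖) * ‖dslope σ t w‖ := by
    have h2 := norm_le_norm_add_norm_sub' (dslope σ t s) (dslope σ t w)
    have h3 := Real.add_one_le_exp (20 / b * ‖s - w‖)
    have h4 : 10 * ‖s - w‖ ≤ 20 / b * ‖s - w‖ * ‖dslope σ t w‖ := by
      calc 10 * ‖s - w‖ = 20 / b * ‖s - w‖ * (b / 2) := by field_simp; ring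
        _ ≤ _ := mul_le_mul_of_nonneg_left hlow (by positivity)
    have h5 := mul_le_mul_of_nonneg_right h3 (norm_nonneg (dslope σ t w))
    linarith
  rw [hmul s, hmul w]
  calc ‖s - t‖ * ‖dslope σ t s‖ * ‖w - t‖
      ≤ ‖s - t‖ * (Real.exp (20 / b * ‖s - w‖) * ‖dslope σ t w‖) * ‖w - t‖ := by gcongr
    _ = _ := by ring

/-- Pull back of a vertical graph by `n` steps. Induction on `n` generalizing `Φ` (`cmp_succ'`,
`Step.vg` for `Φ 0`, `σ = σ' ∘ σ₀`); `σ₀` maps `closedBall 0 (4/5)` to itself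
(`the Λ * 4/5 + 2 δ ≤ 4/5`); multiply the two distortion inequalities (the case `w = t` or
`σ₀ w = σ₀ t` is trivial), `K * the Λ + 20 / b = K`. -/
theorem Chain.pull {Φ : ℕ → Pm} (h : Chain Λ b δ Φ) (n : ℕ) {γ : ℂ → ℂ} (hγ : Gr 0 1 γ) :
    ∃ v σ : ℂ → ℂ, Gr 0 1 v ∧ DifferentiableOn ℂ σ (ball 0 1) ∧
      (∀ s ∈ ball (0 : ℂ) 1, σ s ∈ ball (0 : ℂ) 1 ∧ cmp Φ n (v s, s) = (γ (σ s), σ s) ∧
        StayN Φ n (v s, s)) ∧
      ∀ s t w : ℂ, ‖s‖ ≤ 4 / 5 → ‖t‖ ≤ 4 / 5 → ‖w‖ ≤ 4 / 5 → ‖σ s - σ t‖ * ‖w - t‖ ≤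
        Real.exp (20 / b / (1 - the Λ) * ‖s - w‖) * (‖σ w - σ t‖ * ‖s - t‖) := by
  have hθ0 := h.1.the_pos
  have hθ1 := h.1.the_lt
  obtain ⟨hΛ1, hΛ2, hb0, hb1, hδ0, hδ⟩ := id h.1
  have hK : 0 ≤ 20 / b / (1 - the Λ) := div_nonneg (by positivity) (by linarith)
  induction n generalizing Φ with
  | zero =>
    refine ⟨γ, id, hγ, differentiableOn_id, fun s hs => ⟨hs, rfl, fun j hj => ?_⟩,
      fun s t w _ _ _ => ?_⟩
    · obtain rfl : j = 0 := Nat.le_zero.1 hj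
      exact GSG_norm_le hγ hs
    · simp only [id]
      rw [mul_comm ‖s - t‖]
      exact le_mul_of_one_le_left (by positivity) (Real.one_le_exp (by positivity))
  | succ n ih =>
    obtain ⟨v', σ', hv', hσ', h1, h2⟩ := ih (h.shf 1)
    obtain ⟨v, σ₀, hv, hσ₀, h0, h3, h4⟩ := Step.vg h.1 (h.2 0) hv'
    refine ⟨v, fun s => σ' (σ₀ s), hv, hσ'.comp hσ₀ fun s hs => (h3 s hs).1,
      fun s hs => ⟨(h1 _ (h3 s hs).1).1, ?_, fun j hj => ?_⟩, fun s t w hs ht hw => ?_⟩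
    · rw [cmp_succ', Equiv.Perm.mul_apply, (h3 s hs).2, (h1 _ (h3 s hs).1).2.1]
    · rcases j with _ | j
      · exact GSG_norm_le hv hs
      · rw [cmp_succ', Equiv.Perm.mul_apply, (h3 s hs).2]
        exact (h1 _ (h3 s hs).1).2.2 j (Nat.le_of_succ_le_succ hj)
    · have mem : ∀ {x : ℂ}, ‖x‖ ≤ 4 / 5 → x ∈ ball (0 : ℂ) 1 := fun hx =>
        mem_ball_zero_iff.2 (by linarith)
      have hθ : the Λ * (1 + Λ) = 2 := by
        rw [the]
        field_simp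
      have hself : ∀ {x : ℂ}, ‖x‖ ≤ 4 / 5 → ‖σ₀ x‖ ≤ 4 / 5 := fun {x} hx => by
        have h5 := (h4 x (mem hx) 0 (mem_ball_self one_pos)).2
        have h6 := norm_le_norm_add_norm_sub' (σ₀ x) (σ₀ 0)
        rw [sub_zero] at h5
        have h7 : the Λ * ‖x‖ ≤ the Λ * (4 / 5) := mul_le_mul_of_nonneg_left hx hθ0.le
        have h8 : (Λ - 1) * b ≤ Λ - 1 := mul_le_of_le_one_right (by linarith) hb1
        nlinarith
      by_cases hwt : w = t
      · subst hwt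
        simp
      have hpos : 0 < ‖σ₀ w - σ₀ t‖ :=
        lt_of_lt_of_le (mul_pos (half_pos hb0) (norm_pos_iff.2 (sub_ne_zero.2 hwt)))
          (h4 w (mem hw) t (mem ht)).1
      have d1 := dist_one hb0 hσ₀ (fun x hx y hy => ⟨(h4 x hx y hy).1, (h4 x hx y hy).2.trans
        (mul_le_of_le_one_left (norm_nonneg _) hθ1.le)⟩) hs ht hw
      have d2 := h2 _ _ _ (hself hs) (hself ht) (hself hw)
      have d3 : Real.exp (20 / b / (1 - the Λ) * ‖σ₀ s - σ₀ w‖) * Real.exp (20 / b * ‖s - w‖) ≤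
          Real.exp (20 / b / (1 - the Λ) * ‖s - w‖) := by
        rw [← Real.exp_add]
        refine Real.exp_le_exp.2 ?_
        have h5 := mul_le_mul_of_nonneg_left (h4 s (mem hs) w (mem hw)).2 hK
        have h6 : 20 / b / (1 - the Λ) * (the Λ * ‖s - w‖) + 20 / b * ‖s - w‖ =
            20 / b / (1 - the Λ) * ‖s - w‖ := by
          have : 1 - the Λ ≠ 0 := by linarith
          field_simp
          ring
        linarith
      refine le_of_mul_le_mul_right ?_ hpos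
      calc ‖σ' (σ₀ s) - σ' (σ₀ t)‖ * ‖w - t‖ * ‖σ₀ w - σ₀ t‖
          = ‖σ' (σ₀ s) - σ' (σ₀ t)‖ * ‖σ₀ w - σ₀ t‖ * ‖w - t‖ := by ring
        _ ≤ Real.exp (20 / b / (1 - the Λ) * ‖σ₀ s - σ₀ w‖) *
            (‖σ' (σ₀ w) - σ' (σ₀ t)‖ * ‖σ₀ s - σ₀ t‖) * ‖w - t‖ := by gcongr
        _ = Real.exp (20 / b / (1 - the Λ) * ‖σ₀ s - σ₀ w‖) * ‖σ' (σ₀ w) - σ' (σ₀ t)‖ *
            (‖σ₀ s - σ₀ t‖ * ‖w - t‖) := by ring
        _ ≤ Real.exp (20 / b / (1 - the Λ) * ‖σ₀ s - σ₀ w‖) * ‖σ' (σ₀ w) - σ' (σ₀ t)‖ *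
            (Real.exp (20 / b * ‖s - w‖) * (‖σ₀ w - σ₀ t‖ * ‖s - t‖)) := by gcongr
        _ = Real.exp (20 / b / (1 - the Λ) * ‖σ₀ s - σ₀ w‖) * Real.exp (20 / b * ‖s - w‖) *
            (‖σ' (σ₀ w) - σ' (σ₀ t)‖ * ‖s - t‖) * ‖σ₀ w - σ₀ t‖ := by ring
        _ ≤ _ := by gcongr

/-- Existence of the stable graph: `v_n` from `pull` with `γ = 0`; by `Chain.coneN` (`κ = 1`,
horizontal difference) `‖v_n s - v_m s‖ ≤ 2 * the Λ ^ min n m`; the uniform limit is holomorphic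
(`TendstoLocallyUniformlyOn.differentiableOn`); `small` by `Chain.stay_fst`, `uniq` by
`Chain.stay_two`. -/
theorem Chain.exists_sg {Φ : ℕ → Pm} (h : Chain Λ b δ Φ) : ∃ γ, IsSG Φ γ := by
  have hθ0 := h.1.the_pos
  have hθ1 := h.1.the_lt
  have hz : Gr 0 1 fun _ => 0 := ⟨differentiableOn_const _, fun _ _ => by simp,
    fun _ _ _ _ => by simp only [sub_self, norm_zero]; positivity⟩
  choose v σ hv _ hst _ using fun n => h.pull n hz
  have hc : ∀ s ∈ ball (0 : ℂ) 1, ∀ n m, n ≤ m → dist (v n s) (v m s) ≤ 2 * the Λ ^ n := by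
    intro s hs n m hnm
    have a1 := (hst n s hs).2.2
    have a2 := (hst m s hs).2.2
    have a3 := (h.coneN (κ := 1) (by norm_num) (by norm_num) (n := n) (z := (v n s, s))
      (w := (v m s, s)) (fun j hj => a1 j hj.le) (fun j hj => a2 j (hj.le.trans hnm))
      (by simp)).2
    have a4 : ‖(cmp Φ n (v n s, s) - cmp Φ n (v m s, s)).1‖ ≤ 2 := by
      refine (norm_fst_le _).trans ((norm_sub_le _ _).trans ?_)
      linarith [a1 n le_rfl, a2 n hnm]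
    rw [dist_eq_norm, mul_comm]
    exact a3.trans (mul_le_mul_of_nonneg_left a4 (by positivity))
  have h0 : Tendsto (fun n : ℕ => 2 * the Λ ^ n) atTop (𝓝 0) := by
    simpa using (tendsto_pow_atTop_nhds_zero_of_lt_one hθ0.le hθ1).const_mul 2
  have ht : ∀ s ∈ ball (0 : ℂ) 1, Tendsto (fun n => v n s) atTop
      (𝓝 (limUnder atTop fun n => v n s)) := fun s hs =>
    (cauchySeq_of_le_tendsto_0' _ (hc s hs) h0).tendsto_limUnder
  generalize hγ : (fun s => limUnder atTop fun n => v n s) = γ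
  replace ht : ∀ s ∈ ball (0 : ℂ) 1, Tendsto (fun n => v n s) atTop (𝓝 (γ s)) := hγ ▸ ht
  have hu : TendstoUniformlyOn v γ atTop (ball 0 1) := by
    refine Metric.tendstoUniformlyOn_iff.2 fun ε hε => ?_
    filter_upwards [h0.eventually (gt_mem_nhds hε)] with n hn s hs
    rw [dist_comm]
    refine lt_of_le_of_lt (le_of_tendsto (tendsto_const_nhds.dist (ht s hs)) ?_) hn
    filter_upwards [eventually_ge_atTop n] with m hm using hc s hs n m hm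
  have hstay : ∀ s ∈ ball (0 : ℂ) 1, Stay Φ (γ s, s) := fun s hs j => by
    have a1 : Tendsto (fun n => ‖cmp Φ j (v n s, s)‖) atTop (𝓝 ‖cmp Φ j (γ s, s)‖) :=
      (((h.diff j).1.continuous.tendsto _).comp ((ht s hs).prodMk_nhds tendsto_const_nhds)).norm
    refine le_of_tendsto a1 ?_
    filter_upwards [eventually_ge_atTop j] with n hn using (hst n s hs).2.2 j hn
  refine ⟨γ, ⟨hu.tendstoLocallyUniformlyOn.differentiableOn
    (Eventually.of_forall fun n => (hv n).1) isOpen_ball, fun s hs => ?_, fun s hs t ht' => ?_⟩,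
    fun s hs => ?_, hstay, fun z hz1 hz2 => ?_⟩
  · exact le_of_tendsto' (ht s hs).norm fun n => (hv n).2.1 s hs
  · exact le_of_tendsto' ((ht s hs).sub (ht t ht')).norm fun n => (hv n).2.2 s hs t ht'
  · exact (h.stay_fst (hstay s hs)).trans (by norm_num)
  · have a1 := (h.stay_two hz2 (hstay z.2 (mem_ball_zero_iff.2 hz1))).1
    simpa [sub_eq_zero] using a1

/-- derivatives along the stable graph are contracted (limit of `Chain.stay_two`) -/
theorem IsSG.deriv_le {Φ : ℕ → Pm} (h : Chain Λ b δ Φ) {γ : ℂ → ℂ} (hγ : IsSG Φ γ) {s : ℂ}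
    (hs : s ∈ ball (0 : ℂ) 1) (n : ℕ) :
    ‖fderiv ℂ (⇑(cmp Φ n)) (γ s, s) (deriv γ s, 1)‖ ≤ the Λ ^ n := by
  have hn := isOpen_ball.mem_nhds hs
  have h1 : HasDerivAt (fun t => ((γ t, t) : E)) (deriv γ s, 1) s :=
    (hγ.gr.1.differentiableAt hn).hasDerivAt.prodMk (hasDerivAt_id s)
  have h2 := HasFDerivAt.comp_hasDerivAt (f := fun t => ((γ t, t) : E)) s
    ((h.diff n).1 (γ s, s)).hasFDerivAt h1
  refine h2.le_of_lip' (pow_nonneg h.1.the_pos.le n) ?_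
  filter_upwards [hn] with t ht
  have h3 := (h.stay_two (hγ.stay t ht) (hγ.stay s hs)).2 n
  rwa [GSG_norm_pair hγ.gr ht hs] at h3

/-- a periodic chain has a periodic orbit: `s ↦ (cmp Φ P (γ s, s)).2` is a contraction of
`closedBall 0 (1/100)` (`Chain.stay_le`, `Chain.stay_two`); `shf Φ P = Φ` and `uniq` -/
theorem Chain.exists_per {Φ : ℕ → Pm} (h : Chain Λ b δ Φ) {P : ℕ} (hP : 0 < P)
    (hper : ∀ n, Φ (P + n) = Φ n) :
    ∃ z : E, cmp Φ P z = z ∧ ∀ n, ‖cmp Φ n z‖ ≤ 1 / 100 := by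
  obtain ⟨γ, hγ⟩ := h.exists_sg
  have hθ0 := h.1.the_pos
  have hθ1 := h.1.the_lt
  have mem : ∀ {x : ℂ}, x ∈ closedBall (0 : ℂ) (1 / 100) → x ∈ ball (0 : ℂ) 1 := fun hx =>
    closedBall_subset_ball (by norm_num) hx
  have hsm : ∀ s ∈ closedBall (0 : ℂ) (1 / 100), ∀ n, ‖cmp Φ n (γ s, s)‖ ≤ 1 / 100 :=
    fun s hs => h.stay_le (hγ.stay s (mem hs)) le_rfl (by
      rw [Prod.norm_mk]
      exact max_le (hγ.small s (mem hs)) (mem_closedBall_zero_iff.1 hs))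
  let f : closedBall (0 : ℂ) (1 / 100) → closedBall (0 : ℂ) (1 / 100) := fun s =>
    ⟨(cmp Φ P (γ s, s)).2, mem_closedBall_zero_iff.2 ((norm_snd_le _).trans (hsm s s.2 P))⟩
  have : CompleteSpace (closedBall (0 : ℂ) (1 / 100)) :=
    isClosed_closedBall.isComplete.completeSpace_coe
  have : Nonempty (closedBall (0 : ℂ) (1 / 100)) := ⟨⟨0, mem_closedBall_self (by norm_num)⟩⟩
  have hf : ContractingWith ⟨the Λ ^ P, by positivity⟩ f := by
    refine ⟨pow_lt_one₀ hθ0.le hθ1 hP.ne', LipschitzWith.of_dist_le_mul fun s t => ?_⟩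
    have h1 := (h.stay_two (hγ.stay s (mem s.2)) (hγ.stay t (mem t.2))).2 P
    rw [GSG_norm_pair hγ.gr (mem s.2) (mem t.2)] at h1
    rw [Subtype.dist_eq, Subtype.dist_eq, dist_eq_norm, dist_eq_norm]
    exact (norm_snd_le (cmp Φ P (γ s, s) - cmp Φ P (γ t, t))).trans h1
  obtain ⟨s, hs⟩ : ∃ s, f s = s := ⟨_, hf.fixedPoint_isFixedPt⟩
  have h2 : (cmp Φ P (γ s, s)).2 = s := congrArg Subtype.val hs
  refine ⟨(γ s, s), Prod.ext ?_ h2, hsm s s.2⟩
  have h3 := (hγ.stay s (mem s.2)).shf P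
  rw [show Hn.shf Φ P = Φ from funext hper] at h3
  have h4 := hγ.uniq _ (by rw [h2]; exact mem_ball_zero_iff.1 (mem s.2)) h3
  rwa [h2] at h4

end Pool.Agent.Lib.MP_7b5e47_an.Hn
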