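import Pool.Agent.Lib.MP_7b5e47_an.Hn.GSG

namespace Pool.Agent.Lib.MP_7b5e47_an.Hn

open Filter Topology Set Metric MeasureTheory

/-! A horizontal graph close to a given one, with a region of fixed relative size around it whose
backward image lies in a given ball. -/

theorem GSbar_const (a : ℂ) (ρ : ℝ) {c : ℂ} (hc : ‖c‖ ≤ 1) : Gr a ρ fun _ => c :=
  ⟨differentiableOn_const c, fun _ _ => hc, fun _ _ _ _ => by
    rw [sub_self, norm_zero]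
    positivity⟩

/-- Let `r = min c₀ (1/4)`. `η'` is the full graph given by `Chain.grow` for the constant graph
`fun _ => w.2` over `ball w.1 (r/4)`. Fix `u`; `q = (τ u, w.2)` and
`q₀ = (cmp Φ n)⁻¹ (u, η₀ u)` stay up to time `n`. Let `v, σ` be given by `Chain.pull` for the
constant graph `fun _ => u`. A point `y` with `StayN Φ n y`, `‖y.2‖ < 1` and
`(cmp Φ n y).1 = u` satisfies `y.1 = v y.2` (`Chain.coneN` for the horizontal difference), so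
`η' u = σ w.2`, `η₀ u = σ q₀.2`. They differ since `q ∈ ball w c₀` and `q₀ ∉ ball w c₀`; their
distance is at most `2 * the Λ ^ n` by `Chain.sconeN`. For `‖s - w.2‖ = r/4` the distortion
inequality (with `s := q₀.2`, `t := w.2`, `w := s`) gives
`‖σ s - σ w.2‖ ≥ (r/4) exp (-2 K) ‖σ q₀.2 - σ w.2‖`, and
`DiffContOnCl.ball_subset_image_closedBall` shows that `σ (closedBall w.2 (r/4))` contains the
ball of radius `2 c ‖η' u - η₀ u‖` about `η' u`, `c = r exp (-2 K) / 32`. Finally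
`‖(v s, s) - w‖ ≤ r/4 + r/40 + r/4 < c₀` for such `s`. -/
theorem Chain.sbar {Λ b δ : ℝ} (hs : Small Λ b δ) {c₀ : ℝ} (hc₀ : 0 < c₀) :
    ∃ c > 0, ∃ n₀ : ℕ, ∀ Φ : ℕ → Pm, Chain Λ b δ Φ → ∀ n ≥ n₀, ∀ w : E, ‖w‖ ≤ 1 / 2 → Stay Φ w →
      ∀ η₀ : ℂ → ℂ, (∀ u ∈ ball (0 : ℂ) 1, ‖((cmp Φ n)⁻¹ (u, η₀ u)).2‖ ≤ 1 / 2 ∧
        (cmp Φ n)⁻¹ (u, η₀ u) ∉ ball w c₀ ∧ StayN Φ n ((cmp Φ n)⁻¹ (u, η₀ u))) →
      ∃ η' : ℂ → ℂ, DifferentiableOn ℂ η' (ball 0 1) ∧ ∀ u ∈ ball (0 : ℂ) 1,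
        η' u ≠ η₀ u ∧ ‖η' u - η₀ u‖ ≤ 2 * the Λ ^ n ∧
        ∀ t : ℂ, ‖t‖ ≤ c → (cmp Φ n)⁻¹ (u, η' u + t * (η' u - η₀ u)) ∈ ball w c₀ := by
  obtain ⟨r, hr, hr1, hr2⟩ : ∃ r : ℝ, 0 < r ∧ r ≤ c₀ ∧ r ≤ 1 / 4 :=
    ⟨min c₀ (1 / 4), lt_min hc₀ (by norm_num), min_le_left _ _, min_le_right _ _⟩
  have hθ0 : 0 < the Λ := by
    have := hs.1
    unfold the
    positivity
  have hθ : the Λ < 1 := by
    have := hs.1
    rw [the, div_lt_one (by linarith)]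
    linarith
  have hK : 0 ≤ 20 / b / (1 - the Λ) :=
    div_nonneg (div_nonneg (by norm_num) hs.2.2.1.le) (by linarith)
  obtain ⟨n₀, hn₀⟩ := Chain.grow Λ (ρ := r / 4) (by linarith)
  refine ⟨r * Real.exp (-(2 * (20 / b / (1 - the Λ)))) / 32, by positivity, n₀,
    fun Φ hΦ n hn w hw hst η₀ hη₀ => ?_⟩
  have hw1 : ‖w.1‖ ≤ 1 / 2 := (norm_fst_le w).trans hw
  have hw2 : ‖w.2‖ ≤ 1 / 2 := (norm_snd_le w).trans hw
  obtain ⟨η', τ, hη', -, hτ⟩ := hn₀ b δ Φ hΦ w.1 (fun _ => w.2) (by linarith)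
    (GSbar_const _ _ (by linarith)) hst n hn
  refine ⟨η', hη'.1, fun u hu => ?_⟩
  obtain ⟨v, σ, hv, hσ, hvσ, hd⟩ := hΦ.pull n
    (GSbar_const 0 1 (c := u) (mem_ball_zero_iff.1 hu).le)
  generalize 20 / b / (1 - the Λ) = K at hK hd ⊢
  obtain ⟨a1, a2, a3⟩ := hτ u hu
  obtain ⟨b1, b2, b3⟩ := hη₀ u hu
  have b4 : cmp Φ n ((cmp Φ n)⁻¹ (u, η₀ u)) = (u, η₀ u) := by simp
  generalize (cmp Φ n)⁻¹ (u, η₀ u) = q at b1 b2 b3 b4
  have key : ∀ y : E, StayN Φ n y → ‖y.2‖ < 1 → (cmp Φ n y).1 = u →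
      y.1 = v y.2 ∧ (cmp Φ n y).2 = σ y.2 := by
    intro y h1 h2 h3
    obtain ⟨-, c2, c3⟩ := hvσ y.2 (mem_ball_zero_iff.2 h2)
    have c4 := (hΦ.coneN (κ := 1) (by norm_num) (by norm_num) (n := n) (z := y) (w := (v y.2, y.2))
      (fun j hj => h1 j hj.le) (fun j hj => c3 j hj.le) (by simp)).2
    rw [c2, Prod.fst_sub, Prod.fst_sub, h3, sub_self, norm_zero, mul_zero, norm_le_zero_iff,
      sub_eq_zero] at c4
    refine ⟨c4, ?_⟩
    have c5 : y = (v y.2, y.2) := Prod.ext c4 rfl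
    rw [c5, c2]
  obtain ⟨k1, k2⟩ := key (τ u, w.2) a3 (by linarith) (by rw [a2])
  obtain ⟨-, k4⟩ := key q b3 (by linarith) (by rw [b4])
  rw [a2] at k2
  rw [b4] at k4
  simp only at k1 k2 k4
  have a1' : ‖τ u - w.1‖ < r / 4 := by rwa [mem_ball, dist_eq_norm] at a1
  have hne : η' u ≠ η₀ u := by
    intro h
    have h1 : (τ u, w.2) = q := (cmp Φ n).injective (by rw [a2, b4, h])
    refine b2 ?_
    rw [← h1, mem_ball, Prod.dist_eq, dist_eq_norm]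
    exact max_lt (by linarith) (by simpa using hc₀)
  refine ⟨hne, ?_, fun t ht => ?_⟩
  · have h1 := hΦ.sconeN a3 b3 (by rw [a2, b4]; simp; positivity)
    have h2 := norm_snd_le (cmp Φ n (τ u, w.2) - cmp Φ n q)
    have h3 : ‖(τ u, w.2)‖ ≤ 1 := a3 0 (Nat.zero_le n)
    have h4 : ‖q‖ ≤ 1 := b3 0 (Nat.zero_le n)
    have h5 := norm_sub_le (τ u, w.2) q
    have h6 : the Λ ^ n * ‖(τ u, w.2) - q‖ ≤ the Λ ^ n * 2 :=
      mul_le_mul_of_nonneg_left (by linarith) (by positivity)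
    rw [a2, b4] at h1 h2
    simp only [Prod.snd_sub] at h2
    linarith
  have hD : 0 < ‖η' u - η₀ u‖ := norm_sub_pos_iff.2 hne
  have hcb : ∀ s ∈ closedBall w.2 (r / 4), ‖s‖ ≤ 4 / 5 := by
    intro s hs'
    rw [mem_closedBall, dist_eq_norm] at hs'
    have := norm_add_le (s - w.2) w.2
    rw [sub_add_cancel] at this
    linarith
  have hlow : ∀ s ∈ closedBall w.2 (r / 4),
      ‖η' u - η₀ u‖ * ‖s - w.2‖ * Real.exp (-(2 * K)) ≤ ‖σ s - σ w.2‖ := by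
    intro s hs'
    have h0 := hcb s hs'
    have h1 := hd q.2 w.2 s (by linarith) (by linarith) h0
    have h2 : ‖q.2 - s‖ ≤ 2 := (norm_sub_le _ _).trans (by linarith)
    have h3 : ‖q.2 - w.2‖ ≤ 1 := (norm_sub_le _ _).trans (by linarith)
    have h4 : Real.exp (K * ‖q.2 - s‖) * (‖σ s - σ w.2‖ * ‖q.2 - w.2‖) ≤
        Real.exp (K * 2) * (‖σ s - σ w.2‖ * 1) := by gcongr
    rw [← k4, ← k2, norm_sub_rev] at h1
    rw [Real.exp_neg, ← div_eq_mul_inv, div_le_iff₀ (Real.exp_pos _), mul_comm 2 K, k2]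
    rw [k2] at h1
    linarith
  have hsub : closedBall w.2 (r / 4) ⊆ ball (0 : ℂ) 1 := fun s hs' =>
    mem_ball_zero_iff.2 ((hcb s hs').trans_lt (by norm_num))
  have hdc : DiffContOnCl ℂ σ (ball w.2 (r / 4)) :=
    DifferentiableOn.diffContOnCl_ball hσ hsub
  have hfr : ∃ᶠ z in 𝓝 w.2, σ z ≠ σ w.2 := by
    have h1 : ∀ᶠ z in 𝓝[≠] w.2, σ z ≠ σ w.2 := by
      filter_upwards [self_mem_nhdsWithin,
        nhdsWithin_le_nhds (closedBall_mem_nhds w.2 (show 0 < r / 4 by linarith))] with z h1 h2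
      have h3 : 0 < ‖z - w.2‖ := norm_sub_pos_iff.2 h1
      exact norm_sub_pos_iff.1 (lt_of_lt_of_le (by positivity) (hlow z h2))
    exact h1.frequently.filter_mono nhdsWithin_le_nhds
  have him := hdc.ball_subset_image_closedBall (by linarith)
    (ε := ‖η' u - η₀ u‖ * (r / 4) * Real.exp (-(2 * K))) (fun z hz => by
      have h1 := hlow z (sphere_subset_closedBall hz)
      rwa [mem_sphere_iff_norm.1 hz] at h1) hfr
  obtain ⟨s, hs1, hs2⟩ := him (show η' u + t * (η' u - η₀ u) ∈ _ by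
    rw [mem_ball, dist_eq_norm, ← k2, add_sub_cancel_left, norm_mul]
    have h1 := mul_le_mul_of_nonneg_right ht hD.le
    have h2 : 0 < r * Real.exp (-(2 * K)) * ‖η' u - η₀ u‖ := by positivity
    linarith)
  have h1 : (cmp Φ n)⁻¹ (u, η' u + t * (η' u - η₀ u)) = (v s, s) := by
    rw [← hs2, ← (hvσ s (hsub hs1)).2.1]
    simp
  have h2 := hv.2.2 s (hsub hs1) w.2 (mem_ball_zero_iff.2 (by linarith))
  rw [mem_closedBall, dist_eq_norm] at hs1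
  have h3 := norm_add_le (v s - v w.2) (τ u - w.1)
  rw [k1, sub_add_sub_cancel, ← k1] at h3
  rw [← k1] at h2
  rw [h1, mem_ball, Prod.dist_eq, dist_eq_norm, dist_eq_norm]
  exact max_lt (by simp only; linarith) (by simp only; linarith)

end Pool.Agent.Lib.MP_7b5e47_an.Hn
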