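import Pool.Agent.Lib.MP_7b5e47_an.Hn.BAut

namespace Pool.Agent.Lib.MP_7b5e47_an.Hn

open Filter Topology Set Metric MeasureTheory

/-! Elementary estimates for one step and for chains. Write `Δ = z - w`, `Δ' = Φ z - Φ w`.
From the derivative bounds and the mean value inequality on the closed unit ball (convex):
`‖Δ'.1 - α Δ.1‖ ≤ δ ‖Δ‖` and `‖Δ'.2 - β Δ.2‖ ≤ δ ‖Δ‖`. Everything follows from this and
`δ ≤ (Λ - 1) b / 1000`, `1 < Λ ≤ 2`, `b ≤ 1`; note `1 / the Λ = (1 + Λ) / 2`. -/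

variable {Λ b δ : ℝ}

theorem GStep_conj {G : E → E} (hG : Differentiable ℂ G) {α β : ℂ}
    (h : ∀ z : E, ‖z‖ ≤ 1 → ∀ v : E, ‖fderiv ℂ G z v - (α * v.1, β * v.2)‖ ≤ δ * ‖v‖) (z : E)
    (hz : ‖z‖ ≤ 1) (v : E) : ‖fderiv ℂ (sw ∘ G ∘ sw) z v - (β * v.1, α * v.2)‖ ≤ δ * ‖v‖ := by
  have h1 := h (sw z) ((norm_sw z).trans_le hz) (sw v)
  rw [fderiv_comp z (differentiable_sw _) ((hG.comp differentiable_sw) z),
    fderiv_comp z (hG _) (differentiable_sw _), ContinuousLinearMap.comp_apply,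
    ContinuousLinearMap.comp_apply, fderiv_sw, fderiv_sw]
  rw [← norm_sw, ← sw_sub, norm_sw v] at h1
  exact h1

theorem GStep_mv {G : E → E} (hG : Differentiable ℂ G) {α β : ℂ} (hδ : 0 ≤ δ)
    (h : ∀ z : E, ‖z‖ ≤ 1 → ∀ v : E, ‖fderiv ℂ G z v - (α * v.1, β * v.2)‖ ≤ δ * ‖v‖) (z w : E)
    (hz : ‖z‖ ≤ 1) (hw : ‖w‖ ≤ 1) :
    ‖G z - G w - (α * (z - w).1, β * (z - w).2)‖ ≤ δ * ‖z - w‖ :=
  (convex_closedBall (0 : E) 1).norm_image_sub_le_of_norm_fderiv_le'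
    (φ := (α • ContinuousLinearMap.fst ℂ ℂ ℂ).prod (β • ContinuousLinearMap.snd ℂ ℂ ℂ))
    (fun x _ => hG x) (fun x hx => ContinuousLinearMap.opNorm_le_bound _ hδ fun v =>
      h x (mem_closedBall_zero_iff.1 hx) v) (mem_closedBall_zero_iff.2 hw)
    (mem_closedBall_zero_iff.2 hz)

/-- the three inequalities between a vector and its image -/
def GStep_R (Λ b δ : ℝ) (v v' : E) : Prop :=
  Λ * ‖v.1‖ - δ * ‖v‖ ≤ ‖v'.1‖ ∧ ‖v'.2‖ ≤ ‖v.2‖ / Λ + δ * ‖v‖ ∧ b * ‖v.2‖ - δ * ‖v‖ ≤ ‖v'.2‖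

theorem GStep_lin {α β : ℂ} (h1 : Λ ≤ ‖α‖) (h2 : b ≤ ‖β‖) (h3 : ‖β‖ ≤ 1 / Λ) {v v' : E}
    (h : ‖v' - (α * v.1, β * v.2)‖ ≤ δ * ‖v‖) : GStep_R Λ b δ v v' := by
  have a1 : ‖v'.1 - α * v.1‖ ≤ δ * ‖v‖ := (norm_fst_le _).trans h
  have a2 : ‖v'.2 - β * v.2‖ ≤ δ * ‖v‖ := (norm_snd_le _).trans h
  have b1 := abs_le.1 (abs_norm_sub_norm_le v'.1 (α * v.1))
  have b2 := abs_le.1 (abs_norm_sub_norm_le v'.2 (β * v.2))
  rw [norm_mul] at b1 b2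
  have c1 := mul_le_mul_of_nonneg_right h1 (norm_nonneg v.1)
  have c2 := mul_le_mul_of_nonneg_right h2 (norm_nonneg v.2)
  have c3 := mul_le_mul_of_nonneg_right h3 (norm_nonneg v.2)
  rw [one_div_mul_eq_div] at c3
  exact ⟨by linarith [b1.1], by linarith [b2.2], by linarith [b2.1]⟩

theorem GStep_del (hs : Small Λ b δ) : δ ≤ (Λ - 1) / 1000 ∧ δ ≤ b / 1000 := by
  obtain ⟨h1, h2, h3, h4, -, h6⟩ := hs
  constructor <;> nlinarith

theorem GStep_the (hs : Small Λ b δ) : 1 / Λ + (Λ - 1) / 6 ≤ the Λ := by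
  obtain ⟨h1, h2, -⟩ := hs
  have h0 : 0 < Λ := by linarith
  unfold the
  rw [div_add_div _ _ h0.ne' (by norm_num), div_le_div_iff₀ (by positivity) (by positivity)]
  nlinarith [mul_nonneg (sub_nonneg.2 h1.le) (sub_nonneg.2 h2),
    mul_nonneg (mul_nonneg (sub_nonneg.2 h1.le) (sub_nonneg.2 h2)) h0.le]

theorem GStep_cone (hs : Small Λ b δ) {κ : ℝ} (h1 : 1 / 100 ≤ κ) (h2 : κ ≤ 10) {v v' : E}
    (h : GStep_R Λ b δ v v') (hc : ‖v.2‖ ≤ κ * ‖v.1‖) :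
    ‖v'.2‖ ≤ κ * ‖v'.1‖ ∧ ‖v.1‖ ≤ the Λ * ‖v'.1‖ := by
  obtain ⟨a1, a2, -⟩ := h
  have hx := norm_nonneg v.1
  have hm : 0 < Λ - 1 := sub_pos.2 hs.1
  have hκ : 0 ≤ κ := by linarith
  have hN : ‖v‖ ≤ (1 + κ) * ‖v.1‖ := by
    rw [Prod.norm_def]
    exact max_le (by nlinarith) (by nlinarith)
  have hD : δ * ‖v‖ ≤ (Λ - 1) / 1000 * ((1 + κ) * ‖v.1‖) :=
    mul_le_mul (GStep_del hs).1 hN (norm_nonneg _) (by positivity)
  have hy : ‖v.2‖ / Λ ≤ ‖v.2‖ := div_le_self (norm_nonneg _) hs.1.le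
  have hmx := mul_nonneg hm.le hx
  constructor
  · have h3 := mul_le_mul_of_nonneg_left hD (by positivity : 0 ≤ 1 + κ)
    have h4 := mul_le_mul_of_nonneg_left a1 hκ
    have h5 := mul_le_mul_of_nonneg_right (by nlinarith : (1 + κ) ^ 2 / 1000 ≤ κ) hmx
    nlinarith
  · have h3 := mul_le_mul_of_nonneg_right h2 hmx
    unfold the
    rw [div_mul_eq_mul_div, le_div_iff₀ (by linarith)]
    nlinarith

theorem GStep_scone (hs : Small Λ b δ) {v v' : E} (h : GStep_R Λ b δ v v') (hc : ‖v.1‖ ≤ ‖v.2‖) :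
    ‖v'.2‖ ≤ the Λ * ‖v.2‖ ∧ b / 2 * ‖v.2‖ ≤ ‖v'.2‖ := by
  obtain ⟨-, a2, a3⟩ := h
  have hy := norm_nonneg v.2
  rw [Prod.norm_def, max_eq_right hc] at a2 a3
  have h1 := mul_le_mul_of_nonneg_right (GStep_the hs) hy
  have h2 := mul_le_mul_of_nonneg_right (GStep_del hs).1 hy
  have h3 := mul_le_mul_of_nonneg_right (GStep_del hs).2 hy
  have h4 := mul_nonneg (sub_pos.2 hs.1).le hy
  have h5 := mul_nonneg hs.2.2.1.le hy
  rw [add_mul, one_div_mul_eq_div] at h1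
  constructor <;> linarith

theorem Step.rev {Φ : Pm} (hs : Small Λ b δ) (h : Step Λ b δ Φ) :
    Step Λ b δ (sw * Φ⁻¹ * sw) := by
  obtain ⟨d1, d2, z1, z2, α, β, a1, a2, a3, a4, a5, a6⟩ := h
  have hΛ : 0 < Λ := one_pos.trans hs.1
  have hb : 0 < b := hs.2.2.1
  have e : (sw * Φ⁻¹ * sw)⁻¹ = sw * Φ * sw := by
    rw [mul_inv_rev, mul_inv_rev, inv_inv, mul_assoc]
    rfl
  unfold Step
  rw [e]
  refine ⟨differentiable_sw.comp (d2.comp differentiable_sw),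
    differentiable_sw.comp (d1.comp differentiable_sw), (norm_sw _).trans_le z2,
    (norm_sw _).trans_le z1, β⁻¹, α⁻¹, ?_, ?_, ?_, ?_, GStep_conj d2 a6, ?_⟩
  · rw [norm_inv, le_inv_comm₀ hΛ (hb.trans_le a3), ← one_div]
    exact a4
  · rw [norm_inv, one_div]
    exact inv_anti₀ hb a3
  · rw [norm_inv, le_inv_comm₀ hb (hΛ.trans_le a1), ← one_div]
    exact a2
  · rw [norm_inv, one_div]
    exact inv_anti₀ hΛ a1
  · rw [inv_inv, inv_inv]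
    exact GStep_conj d1 a5

/-- two point form -/
theorem Step.two {Φ : Pm} (h : Step Λ b δ Φ) : ∃ α β : ℂ, Λ ≤ ‖α‖ ∧ ‖α‖ ≤ 1 / b ∧ b ≤ ‖β‖ ∧
    ‖β‖ ≤ 1 / Λ ∧ (∀ z w : E, ‖z‖ ≤ 1 → ‖w‖ ≤ 1 →
      ‖Φ z - Φ w - (α * (z - w).1, β * (z - w).2)‖ ≤ δ * ‖z - w‖) ∧
    ∀ z w : E, ‖z‖ ≤ 1 → ‖w‖ ≤ 1 →
      ‖Φ⁻¹ z - Φ⁻¹ w - (α⁻¹ * (z - w).1, β⁻¹ * (z - w).2)‖ ≤ δ * ‖z - w‖ := by
  obtain ⟨d1, d2, z1, -, α, β, a1, a2, a3, a4, a5, a6⟩ := h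
  have hδ := (norm_nonneg _).trans z1
  exact ⟨α, β, a1, a2, a3, a4, GStep_mv d1 hδ a5, GStep_mv d2 hδ a6⟩

theorem GStep_pair {Φ : Pm} (h : Step Λ b δ Φ) {z w : E} (hz : ‖z‖ ≤ 1) (hw : ‖w‖ ≤ 1) :
    GStep_R Λ b δ (z - w) (Φ z - Φ w) := by
  obtain ⟨α, β, h1, -, h2, h3, h4, -⟩ := h.two
  exact GStep_lin h1 h2 h3 (h4 z w hz hw)

theorem Step.snd_le {Φ : Pm} (hs : Small Λ b δ) (h : Step Λ b δ Φ) {z : E} (hz : ‖z‖ ≤ 1) :
    ‖(Φ z).2‖ ≤ ‖z.2‖ / Λ + 2 * δ := by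
  have h1 := (GStep_pair h hz (w := 0) (by simp)).2.1
  have h2 : ‖(Φ 0).2‖ ≤ δ := (norm_snd_le _).trans h.2.2.1
  have h3 := mul_le_mul_of_nonneg_left hz hs.2.2.2.2.1.le
  have h4 := (abs_le.1 (abs_norm_sub_norm_le (Φ z).2 (Φ 0).2)).2
  rw [sub_zero, Prod.snd_sub] at h1
  linarith

theorem Step.fst_ge {Φ : Pm} (hs : Small Λ b δ) (h : Step Λ b δ Φ) {z : E} (hz : ‖z‖ ≤ 1) :
    Λ * ‖z.1‖ - 2 * δ ≤ ‖(Φ z).1‖ := by
  have h1 := (GStep_pair h hz (w := 0) (by simp)).1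
  have h2 : ‖(Φ 0).1‖ ≤ δ := (norm_fst_le _).trans h.2.2.1
  have h3 := mul_le_mul_of_nonneg_left hz hs.2.2.2.2.1.le
  have h4 := norm_sub_le (Φ z).1 (Φ 0).1
  rw [sub_zero, Prod.fst_sub] at h1
  linarith

/-- the unstable cone of slope `κ` is invariant and expanded -/
theorem Step.cone {Φ : Pm} (hs : Small Λ b δ) (h : Step Λ b δ Φ) {κ : ℝ} (h1 : 1 / 100 ≤ κ)
    (h2 : κ ≤ 10) {z w : E} (hz : ‖z‖ ≤ 1) (hw : ‖w‖ ≤ 1)
    (hc : ‖(z - w).2‖ ≤ κ * ‖(z - w).1‖) :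
    ‖(Φ z - Φ w).2‖ ≤ κ * ‖(Φ z - Φ w).1‖ ∧ ‖(z - w).1‖ ≤ the Λ * ‖(Φ z - Φ w).1‖ := by
  exact GStep_cone hs h1 h2 (GStep_pair h hz hw) hc

theorem Step.dcone {Φ : Pm} (hs : Small Λ b δ) (h : Step Λ b δ Φ) {κ : ℝ} (h1 : 1 / 100 ≤ κ)
    (h2 : κ ≤ 10) {z v : E} (hz : ‖z‖ ≤ 1) (hc : ‖v.2‖ ≤ κ * ‖v.1‖) :
    ‖(fderiv ℂ (⇑Φ) z v).2‖ ≤ κ * ‖(fderiv ℂ (⇑Φ) z v).1‖ ∧
      ‖v.1‖ ≤ the Λ * ‖(fderiv ℂ (⇑Φ) z v).1‖ := by
  obtain ⟨-, -, -, -, α, β, a1, -, a3, a4, a5, -⟩ := h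
  exact GStep_cone hs h1 h2 (GStep_lin a1 a3 a4 (a5 z hz v)) hc

/-- contraction in the stable cone, and the lower bound -/
theorem Step.scone {Φ : Pm} (hs : Small Λ b δ) (h : Step Λ b δ Φ) {z w : E} (hz : ‖z‖ ≤ 1)
    (hw : ‖w‖ ≤ 1) (hc : ‖(z - w).1‖ ≤ ‖(z - w).2‖) :
    ‖(Φ z - Φ w).2‖ ≤ the Λ * ‖(z - w).2‖ ∧ b / 2 * ‖(z - w).2‖ ≤ ‖(Φ z - Φ w).2‖ := by
  exact GStep_scone hs (GStep_pair h hz hw) hc

variable {Φ : ℕ → Pm}

theorem Chain.coneN (h : Chain Λ b δ Φ) {κ : ℝ} (h1 : 1 / 100 ≤ κ) (h2 : κ ≤ 10) {n : ℕ} {z w : E}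
    (hz : ∀ j < n, ‖cmp Φ j z‖ ≤ 1) (hw : ∀ j < n, ‖cmp Φ j w‖ ≤ 1)
    (hc : ‖(z - w).2‖ ≤ κ * ‖(z - w).1‖) :
    ‖(cmp Φ n z - cmp Φ n w).2‖ ≤ κ * ‖(cmp Φ n z - cmp Φ n w).1‖ ∧
      ‖(z - w).1‖ ≤ the Λ ^ n * ‖(cmp Φ n z - cmp Φ n w).1‖ := by
  induction n with
  | zero => exact ⟨hc, (one_mul _).ge⟩
  | succ n ih =>
    obtain ⟨a1, a2⟩ := ih (fun j hj => hz j (hj.trans n.lt_succ_self))
      fun j hj => hw j (hj.trans n.lt_succ_self)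
    obtain ⟨a3, a4⟩ := (h.2 n).cone h.1 h1 h2 (hz n n.lt_succ_self) (hw n n.lt_succ_self) a1
    rw [cmp_succ_apply, cmp_succ_apply, pow_succ, mul_assoc]
    exact ⟨a3, a2.trans (mul_le_mul_of_nonneg_left a4 (pow_nonneg h.1.the_pos.le n))⟩

theorem Chain.dconeN (h : Chain Λ b δ Φ) {κ : ℝ} (h1 : 1 / 100 ≤ κ) (h2 : κ ≤ 10) {n : ℕ}
    {z v : E} (hz : ∀ j < n, ‖cmp Φ j z‖ ≤ 1) (hc : ‖v.2‖ ≤ κ * ‖v.1‖) :
    ‖(fderiv ℂ (⇑(cmp Φ n)) z v).2‖ ≤ κ * ‖(fderiv ℂ (⇑(cmp Φ n)) z v).1‖ ∧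
      ‖v.1‖ ≤ the Λ ^ n * ‖(fderiv ℂ (⇑(cmp Φ n)) z v).1‖ := by
  induction n with
  | zero =>
    have e : (⇑(cmp Φ 0) : E → E) = id := rfl
    rw [e, fderiv_id]
    exact ⟨hc, (one_mul _).ge⟩
  | succ n ih =>
    obtain ⟨a1, a2⟩ := ih fun j hj => hz j (hj.trans n.lt_succ_self)
    obtain ⟨a3, a4⟩ := (h.2 n).dcone h.1 h1 h2 (hz n n.lt_succ_self) a1
    have e : (⇑(cmp Φ (n + 1)) : E → E) = Φ n ∘ cmp Φ n := rfl
    rw [e, fderiv_comp z ((h.2 n).1 _) ((h.diff n).1 z), ContinuousLinearMap.comp_apply, pow_succ,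
      mul_assoc]
    exact ⟨a3, a2.trans (mul_le_mul_of_nonneg_left a4 (pow_nonneg h.1.the_pos.le n))⟩

theorem GStep_sub {z w : E} (hz : ‖z‖ ≤ 1) (hw : ‖w‖ ≤ 1) : ‖z - w‖ ≤ 2 :=
  (norm_sub_le z w).trans (by linarith)

theorem GStep_back (h : Chain Λ b δ Φ) {n : ℕ} {z w : E} (hz : StayN Φ n z) (hw : StayN Φ n w)
    (hc : ‖(cmp Φ n z - cmp Φ n w).1‖ < ‖(cmp Φ n z - cmp Φ n w).2‖) :
    ‖(cmp Φ n z - cmp Φ n w).2‖ ≤ the Λ ^ n * ‖(z - w).2‖ := by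
  induction n with
  | zero => exact (one_mul _).ge
  | succ n ih =>
    rw [cmp_succ_apply, cmp_succ_apply] at hc ⊢
    have h1 := hz n n.le_succ
    have h2 := hw n n.le_succ
    have h3 : ‖(cmp Φ n z - cmp Φ n w).1‖ < ‖(cmp Φ n z - cmp Φ n w).2‖ := by
      by_contra h3
      have h4 := ((h.2 n).cone h.1 (κ := 1) (by norm_num) (by norm_num) h1 h2
        ((not_lt.1 h3).trans_eq (one_mul _).symm)).1
      linarith
    refine ((h.2 n).scone h.1 h1 h2 h3.le).1.trans ?_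
    rw [pow_succ', mul_assoc]
    exact mul_le_mul_of_nonneg_left (ih (fun j hj => hz j (hj.trans n.le_succ))
      (fun j hj => hw j (hj.trans n.le_succ)) h3) h.1.the_pos.le

theorem GStep_stay (h : Chain Λ b δ Φ) {z w : E} (hz : Stay Φ z) (hw : Stay Φ w) :
    ‖(z - w).1‖ ≤ ‖(z - w).2‖ / 10 := by
  by_contra h1
  have h2 : ∀ n, ‖(z - w).1‖ ≤ the Λ ^ n * 2 := fun n =>
    (h.coneN (κ := 10) (by norm_num) le_rfl (fun j _ => hz j) (fun j _ => hw j)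
      (by linarith)).2.trans (mul_le_mul_of_nonneg_left ((norm_fst_le _).trans
        (GStep_sub (hz n) (hw n))) (pow_nonneg h.1.the_pos.le n))
  have h3 := ge_of_tendsto' ((tendsto_pow_atTop_nhds_zero_of_lt_one h.1.the_pos.le
    h.1.the_lt).mul_const 2) h2
  linarith [norm_nonneg (z - w).2]

/-- if the difference at time `n` is in the stable cone, it was so at all earlier times
(contrapositive of `coneN` with `κ = 1`, or the difference is zero) and was contracted -/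
theorem Chain.sconeN (h : Chain Λ b δ Φ) {n : ℕ} {z w : E} (hz : StayN Φ n z) (hw : StayN Φ n w)
    (hc : ‖(cmp Φ n z - cmp Φ n w).1‖ ≤ ‖(cmp Φ n z - cmp Φ n w).2‖ / 2) :
    ‖cmp Φ n z - cmp Φ n w‖ ≤ the Λ ^ n * ‖z - w‖ := by
  have h0 := pow_nonneg h.1.the_pos.le n
  have h1 := norm_nonneg (cmp Φ n z - cmp Φ n w).2
  rw [Prod.norm_def, max_eq_right (by linarith)]
  rcases h1.eq_or_lt with h2 | h2
  · exact h2.symm.trans_le (mul_nonneg h0 (norm_nonneg _))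
  · exact (GStep_back h hz hw (by linarith)).trans (mul_le_mul_of_nonneg_left (norm_snd_le _) h0)

/-- two orbits staying in the ball on `[0, n]` are exponentially close in the middle -/
theorem Chain.sep (h : Chain Λ b δ Φ) {n k : ℕ} (hk : k ≤ n) {z w : E} (hz : StayN Φ n z)
    (hw : StayN Φ n w) : ‖cmp Φ k z - cmp Φ k w‖ ≤ 2 * the Λ ^ min k (n - k) := by
  have p0 := h.1.the_pos.le
  have p1 := h.1.the_lt.le
  rw [Prod.norm_def, mul_comm]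
  rcases lt_or_ge ‖(cmp Φ k z - cmp Φ k w).1‖ ‖(cmp Φ k z - cmp Φ k w).2‖ with hc | hc
  · rw [max_eq_right hc.le]
    exact (GStep_back h (fun j hj => hz j (hj.trans hk)) (fun j hj => hw j (hj.trans hk)) hc).trans
      (mul_le_mul (pow_le_pow_of_le_one p0 p1 (min_le_left _ _)) ((norm_snd_le _).trans
        (GStep_sub (hz 0 n.zero_le) (hw 0 n.zero_le))) (norm_nonneg _) (pow_nonneg p0 _))
  · rw [max_eq_left hc]
    have e : ∀ (y : E) (j : ℕ), cmp (Hn.shf Φ k) j (cmp Φ k y) = cmp Φ (k + j) y := fun y j => by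
      rw [cmp_add, Equiv.Perm.mul_apply]
    have h1 := ((h.shf k).coneN (κ := 1) (n := n - k) (z := cmp Φ k z) (w := cmp Φ k w)
      (by norm_num) (by norm_num) (fun j hj => (e z j).symm ▸ hz _ (by omega))
      (fun j hj => (e w j).symm ▸ hw _ (by omega)) (hc.trans_eq (one_mul _).symm)).2
    rw [e, e, Nat.add_sub_cancel' hk] at h1
    exact h1.trans (mul_le_mul (pow_le_pow_of_le_one p0 p1 (min_le_right _ _))
      ((norm_fst_le _).trans (GStep_sub (hz n le_rfl) (hw n le_rfl))) (norm_nonneg _)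
      (pow_nonneg p0 _))

/-- points staying for ever: small first coordinate (otherwise it grows by `fst_ge`) -/
theorem Chain.stay_fst (h : Chain Λ b δ Φ) {z : E} (hz : Stay Φ z) : ‖z.1‖ ≤ 1 / 200 := by
  by_contra h0
  have hm : 0 < 3 * (Λ - 1) / 1000 := by linarith [h.1.1]
  have h1 : ∀ n : ℕ, 1 / 200 + n * (3 * (Λ - 1) / 1000) ≤ ‖(cmp Φ n z).1‖ := fun n => by
    induction n with
    | zero =>
      rw [Nat.cast_zero, zero_mul, add_zero]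
      exact (not_le.1 h0).le
    | succ n ih =>
      have h2 := (h.2 n).fst_ge h.1 (hz n)
      have h3 := (GStep_del h.1).1
      have h4 : 1 / 200 ≤ ‖(cmp Φ n z).1‖ := le_trans (le_add_of_nonneg_right (by positivity)) ih
      have h5 := mul_le_mul_of_nonneg_left h4 (sub_pos.2 h.1.1).le
      rw [cmp_succ_apply]
      push_cast
      linarith
  obtain ⟨n, hn⟩ := exists_nat_gt (1 / (3 * (Λ - 1) / 1000))
  rw [div_lt_iff₀ hm] at hn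
  linarith [h1 n, (norm_fst_le _).trans (hz n)]

theorem Chain.stay_le (h : Chain Λ b δ Φ) {z : E} (hz : Stay Φ z) {r : ℝ} (hr : 1 / 100 ≤ r)
    (hzr : ‖z‖ ≤ r) (n : ℕ) : ‖cmp Φ n z‖ ≤ r := by
  induction n with
  | zero => exact hzr
  | succ n ih =>
    rw [Prod.norm_def]
    refine max_le (((h.shf (n + 1)).stay_fst (hz.shf (n + 1))).trans (by linarith)) ?_
    rw [cmp_succ_apply]
    refine ((h.2 n).snd_le h.1 (hz n)).trans ?_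
    have h1 := (GStep_del h.1).1
    have h2 := h.1.1
    have h3 := h.1.2.1
    have h4 := (norm_snd_le _).trans ih
    rw [← le_sub_iff_add_le, div_le_iff₀ (by linarith)]
    have h5 := mul_le_mul h1 h3 (by linarith) (by linarith)
    nlinarith

/-- two points staying for ever differ by a vector of the stable cone, which is contracted -/
theorem Chain.stay_two (h : Chain Λ b δ Φ) {z w : E} (hz : Stay Φ z) (hw : Stay Φ w) :
    ‖(z - w).1‖ ≤ ‖(z - w).2‖ / 10 ∧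
      ∀ n, ‖cmp Φ n z - cmp Φ n w‖ ≤ the Λ ^ n * ‖z - w‖ := by
  refine ⟨GStep_stay h hz hw, fun n => h.sconeN (fun j _ => hz j) (fun j _ => hw j) ?_⟩
  linarith [GStep_stay (h.shf n) (hz.shf n) (hw.shf n), norm_nonneg (cmp Φ n z - cmp Φ n w).2]

/-- a point whose backward orbit of length `n` stays in the ball has a small second coordinate -/
theorem Chain.snd_small (h : Chain Λ b δ Φ) {n : ℕ} {z : E} (hz : StayN Φ n z) :
    ‖(cmp Φ n z).2‖ ≤ 1 / 200 + the Λ ^ n := by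
  induction n with
  | zero => exact ((norm_snd_le _).trans (hz 0 le_rfl)).trans (by norm_num)
  | succ n ih =>
    rw [cmp_succ_apply]
    refine ((h.2 n).snd_le h.1 (hz n n.le_succ)).trans ?_
    have h1 := (GStep_del h.1).1
    have h2 := h.1.1
    have h3 := h.1.2.1
    have h4 := div_le_div_of_nonneg_right (ih fun j hj => hz j (hj.trans n.le_succ))
      (by linarith : 0 ≤ Λ)
    have h5 : the Λ ^ n / Λ ≤ the Λ ^ (n + 1) := by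
      rw [pow_succ, div_eq_mul_one_div]
      exact mul_le_mul_of_nonneg_left (by linarith [GStep_the h.1]) (pow_nonneg h.1.the_pos.le n)
    have h6 : 1 / 200 / Λ ≤ 1 / 200 - 2 * δ := by
      rw [div_le_iff₀ (by linarith)]
      have h7 := mul_le_mul h1 h3 (by linarith) (by linarith)
      nlinarith
    rw [add_div] at h4
    linarith

/-- upper Lipschitz bound when the derivative at the origin is diagonal: both `fderiv` at `z` and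
at `0` are within `δ` of the same diagonal map -/
theorem Step.lip_up {Φ : Pm} (hs : Small Λ b δ) (h : Step Λ b δ Φ) {A : ℝ} (hA : 1 ≤ A)
    (h0 : ∀ v : E, ‖fderiv ℂ (⇑Φ) 0 v‖ ≤ A * ‖v‖) {z w : E} (hz : ‖z‖ ≤ 1) (hw : ‖w‖ ≤ 1) :
    ‖Φ z - Φ w‖ ≤ (A + 2 * δ) * ‖z - w‖ := by
  obtain ⟨d1, -, -, -, α, β, -, -, -, -, a5, -⟩ := h
  have hδ := hs.2.2.2.2.1
  refine (convex_closedBall (0 : E) 1).norm_image_sub_le_of_norm_fderiv_le (𝕜 := ℂ)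
    (fun x _ => d1 x) (fun x hx => ContinuousLinearMap.opNorm_le_bound _ (by linarith) fun v => ?_)
    (mem_closedBall_zero_iff.2 hw) (mem_closedBall_zero_iff.2 hz)
  have h1 := a5 x (mem_closedBall_zero_iff.1 hx) v
  have h2 := a5 0 (by simp) v
  have h3 := (abs_le.1 (abs_norm_sub_norm_le (fderiv ℂ (⇑Φ) x v) (α * v.1, β * v.2))).2
  have h4 := (abs_le.1 (abs_norm_sub_norm_le (fderiv ℂ (⇑Φ) 0 v) (α * v.1, β * v.2))).1
  linarith [h0 v]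

end Pool.Agent.Lib.MP_7b5e47_an.Hn
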