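import Pool.Agent.Lib.MP_7b5e47_an.Hn.Defs

namespace Pool.Agent.Lib.MP_7b5e47_an.Hn

open Filter Topology Set Metric MeasureTheory

/-! Mean value properties and maximum principles in the plane. -/

theorem PMax_ev {p : ℂ → Prop} {ζ : ℂ} (h : ∀ᶠ t in 𝓝 ζ, p t) :
    ∀ᶠ r in 𝓝[>] (0 : ℝ), ∀ t ∈ closedBall ζ |r|, p t := by
  obtain ⟨ε, hε, h⟩ := Metric.eventually_nhds_iff_ball.1 h
  filter_upwards [Ioo_mem_nhdsGT hε] with r hr t ht
  rw [abs_of_pos hr.1] at ht
  exact h t (closedBall_subset_ball hr.2 ht)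

theorem PMax_co {φ : ℂ → ℝ} {ζ : ℂ} (h : ∀ᶠ t in 𝓝 ζ, ContinuousAt φ t) :
    ∀ᶠ r in 𝓝[>] (0 : ℝ), ContinuousOn φ (sphere ζ |r|) :=
  (PMax_ev h).mono fun _ hr t ht => (hr t (sphere_subset_closedBall ht)).continuousWithinAt

theorem MV.smv {φ : ℂ → ℝ} {ζ : ℂ} (h : MV φ ζ) : SMV φ ζ := by
  exact ⟨h.1, h.2.mono fun _ hr => hr.ge⟩

theorem MV.const (c : ℝ) (ζ : ℂ) : MV (fun _ => c) ζ := by
  exact ⟨Eventually.of_forall fun _ => continuousAt_const,
    Eventually.of_forall fun r => Real.circleAverage_const c ζ r⟩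

theorem MV.add {φ ψ : ℂ → ℝ} {ζ : ℂ} (h : MV φ ζ) (h' : MV ψ ζ) : MV (fun t => φ t + ψ t) ζ := by
  refine ⟨(h.1.and h'.1).mono fun _ ht => ht.1.add ht.2, ?_⟩
  filter_upwards [h.2, h'.2, PMax_co h.1, PMax_co h'.1] with r h1 h2 h3 h4
  rw [Real.circleAverage_fun_add h3.circleIntegrable' h4.circleIntegrable', h1, h2]

theorem MV.const_mul {φ : ℂ → ℝ} {ζ : ℂ} (c : ℝ) (h : MV φ ζ) : MV (fun t => c * φ t) ζ := by
  refine ⟨h.1.mono fun _ ht => continuousAt_const.mul ht, h.2.mono fun r hr => ?_⟩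
  exact (Real.circleAverage_fun_smul (a := c) (f := φ)).trans (congrArg (c * ·) hr)

theorem MV.sub {φ ψ : ℂ → ℝ} {ζ : ℂ} (h : MV φ ζ) (h' : MV ψ ζ) : MV (fun t => φ t - ψ t) ζ := by
  refine ⟨(h.1.and h'.1).mono fun _ ht => ht.1.sub ht.2, ?_⟩
  filter_upwards [h.2, h'.2, PMax_co h.1, PMax_co h'.1] with r h1 h2 h3 h4
  rw [Real.circleAverage_fun_sub h3.circleIntegrable' h4.circleIntegrable', h1, h2]

theorem MV.of_harmonic {φ : ℂ → ℝ} {ζ : ℂ} (h : InnerProductSpace.HarmonicAt φ ζ) : MV φ ζ := by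
  exact ⟨h.eventually.mono fun _ ht => ht.1.continuousAt,
    (PMax_ev h.eventually).mono fun _ hr => InnerProductSpace.HarmonicOnNhd.circleAverage_eq hr⟩

theorem MV.log_norm {h : ℂ → ℂ} {ζ : ℂ} (ha : AnalyticAt ℂ h ζ) (h0 : h ζ ≠ 0) :
    MV (fun t => Real.log ‖h t‖) ζ := by
  exact MV.of_harmonic (ha.harmonicAt_log_norm h0)

/-- A bounded family of functions harmonic on a fixed ball integrates to a function with the mean
value property (dominated convergence; Fubini for `circleAverage`, joint measurability from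
`stronglyMeasurable_uncurry_of_continuous_of_stronglyMeasurable` in the angle variable). -/
theorem MV.integral {Ω : Type*} [MeasurableSpace Ω] {ν : Measure Ω} [IsFiniteMeasure ν]
    {φ : Ω → ℂ → ℝ} {ζ : ℂ} {r B : ℝ} (hr : 0 < r)
    (hm : ∀ t ∈ ball ζ r, Measurable fun x => φ x t)
    (hh : ∀ x, ∀ t ∈ ball ζ r, InnerProductSpace.HarmonicAt (φ x) t ∧ |φ x t| ≤ B) :
    MV (fun t => ∫ x, φ x t ∂ν) ζ := by
  constructor
  · filter_upwards [ball_mem_nhds ζ hr] with t ht
    have hb := isOpen_ball.mem_nhds ht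
    exact continuousAt_of_dominated (bound := fun _ => B)
      (eventually_of_mem hb fun w hw => (hm w hw).aestronglyMeasurable)
      (eventually_of_mem hb fun w hw => ae_of_all _ fun x => (hh x w hw).2) (integrable_const B)
      (ae_of_all _ fun x => (hh x t ht).1.1.continuousAt)
  · filter_upwards [PMax_ev (ball_mem_nhds ζ hr)] with ρ hρ
    have h1 : ∀ θ, circleMap ζ ρ θ ∈ ball ζ r := fun θ =>
      hρ _ (sphere_subset_closedBall (circleMap_mem_sphere' ζ ρ θ))
    have h2 : StronglyMeasurable (Function.uncurry fun θ x => φ x (circleMap ζ ρ θ)) :=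
      stronglyMeasurable_uncurry_of_continuous_of_stronglyMeasurable
        (fun x => continuous_iff_continuousAt.2 fun θ => ContinuousAt.comp
          (hh x _ (h1 θ)).1.1.continuousAt (continuous_circleMap ζ ρ).continuousAt)
        fun θ => (hm _ (h1 θ)).stronglyMeasurable
    have : IsFiniteMeasure (volume.restrict (uIoc 0 (2 * Real.pi))) :=
      isFiniteMeasure_restrict.2 measure_Ioc_lt_top.ne
    rw [Real.circleAverage_def, intervalIntegral_integral_swap
      (Integrable.of_bound h2.aestronglyMeasurable B (ae_of_all _ fun q => (hh _ _ (h1 _)).2)),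
      ← integral_smul]
    exact integral_congr_ae (ae_of_all _ fun x =>
      InnerProductSpace.HarmonicOnNhd.circleAverage_eq fun t ht => (hh x t (hρ t ht)).1)

/-- a continuous nonnegative function which is harmonic where it is positive -/
theorem SMV.of_nonneg {u : ℂ → ℝ} {ζ : ℂ} (hc : ∀ᶠ t in 𝓝 ζ, ContinuousAt u t)
    (h0 : ∀ t, 0 ≤ u t) (hh : 0 < u ζ → InnerProductSpace.HarmonicAt u ζ) : SMV u ζ := by
  rcases (h0 ζ).lt_or_eq with h | h
  · exact (MV.of_harmonic (hh h)).smv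
  · exact ⟨hc, Eventually.of_forall fun r =>
      h ▸ Real.circleAverage_nonneg_of_nonneg fun t _ => h0 t⟩

theorem PMax_circ {φ : ℂ → ℝ} {ζ : ℂ} {r m : ℝ} (hc : ContinuousOn φ (sphere ζ |r|))
    (hm : ∀ t ∈ sphere ζ |r|, φ t ≤ m) (h : m ≤ Real.circleAverage φ ζ r) :
    ∀ t ∈ sphere ζ |r|, φ t = m := by
  intro t ht
  by_contra hne
  have h1 := (hm t ht).lt_of_ne hne
  rw [← image_circleMap_Ioc] at ht
  obtain ⟨θ, hθ, rfl⟩ := ht
  have h2 := intervalIntegral.integral_lt_integral_of_continuousOn_of_le_of_exists_lt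
    (f := fun θ => φ (circleMap ζ r θ)) (g := fun _ => m) Real.two_pi_pos
    (hc.comp (continuous_circleMap ζ r).continuousOn fun θ _ => circleMap_mem_sphere' ζ r θ)
    continuousOn_const (fun θ _ => hm _ (circleMap_mem_sphere' ζ r θ))
    ⟨θ, Ioc_subset_Icc_self hθ, h1⟩
  rw [← Real.circleAverage_const m ζ r, Real.circleAverage_def, Real.circleAverage_def] at h
  exact absurd h (not_le.2 (mul_lt_mul_of_pos_left h2 (inv_pos.2 Real.two_pi_pos)))

theorem PMax_loc {φ : ℂ → ℝ} {ζ : ℂ} (h : SMV φ ζ) (hm : ∀ᶠ t in 𝓝 ζ, φ t ≤ φ ζ) :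
    ∀ᶠ t in 𝓝 ζ, φ t = φ ζ := by
  have h1 : ∀ᶠ r in 𝓝[>] (0 : ℝ), ∀ t ∈ sphere ζ |r|, φ t = φ ζ := by
    filter_upwards [PMax_co h.1, PMax_ev hm, h.2] with r h1 h2 h3
    exact PMax_circ h1 (fun t ht => h2 t (sphere_subset_closedBall ht)) h3
  obtain ⟨ε, hε, h2⟩ := (nhdsGT_basis (0 : ℝ)).eventually_iff.1 h1
  filter_upwards [ball_mem_nhds ζ hε] with t ht
  rcases eq_or_ne t ζ with rfl | hne
  · rfl
  · exact h2 ⟨dist_pos.2 hne, ht⟩ t (by rw [mem_sphere, abs_dist])

/-- strong maximum principle: the set where the maximum is attained is open (a continuous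
nonnegative function on a circle with average `≤ 0` vanishes) and closed -/
theorem smp {φ : ℂ → ℝ} {U : Set ℂ} (hU : IsOpen U) (hc : IsPreconnected U)
    (h : ∀ t ∈ U, SMV φ t) {ζ : ℂ} (hζ : ζ ∈ U) (hm : ∀ t ∈ U, φ t ≤ φ ζ) :
    ∀ t ∈ U, φ t = φ ζ := by
  have key : ∀ t ∈ U, φ t = φ ζ → ∀ᶠ w in 𝓝 t, φ w = φ ζ := fun t ht h1 => by
    rw [← h1]
    exact PMax_loc (h t ht) (eventually_of_mem (hU.mem_nhds ht) fun w hw => h1 ▸ hm w hw)
  have h1 : U ⊆ {t | ∀ᶠ w in 𝓝 t, φ w = φ ζ} := by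
    refine hc.subset_of_closure_inter_subset isOpen_setOfPred_eventually_nhds
      ⟨ζ, hζ, key ζ hζ rfl⟩ fun t ht => key t ht.2 ?_
    by_contra hne
    obtain ⟨w, h2, h3⟩ := ((mem_closure_iff_frequently.1 ht.1).and_eventually
      ((h t ht.2).1.self_of_nhds.eventually_ne hne)).exists
    exact h3 (Eventually.self_of_nhds (p := fun w => φ w = φ ζ) h2)
  exact fun t ht => Eventually.self_of_nhds (p := fun w => φ w = φ ζ) (h1 ht)

/-- weak maximum principle: among the maximum points in the compact set `closure W` take one of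
largest real part; it is not in `W` -/
theorem wmp {φ : ℂ → ℝ} {W : Set ℂ} (hW : IsOpen W) (hb : Bornology.IsBounded W)
    (hc : ContinuousOn φ (closure W)) (h : ∀ t ∈ W, SMV φ t) {z : ℂ} (hz : z ∈ W) :
    ∃ ζ ∈ closure W, ζ ∉ W ∧ φ z ≤ φ ζ := by
  have hK := hb.isCompact_closure
  obtain ⟨a, ha, hm⟩ := hK.exists_isMaxOn ⟨z, subset_closure hz⟩ hc
  have hA : IsCompact (closure W ∩ φ ⁻¹' {φ a}) := hK.of_isClosed_subset
    (hc.preimage_isClosed_of_isClosed isClosed_closure isClosed_singleton) inter_subset_left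
  obtain ⟨ζ, ⟨h1, h2⟩, h3⟩ := hA.exists_isMaxOn ⟨a, ha, rfl⟩ Complex.continuous_re.continuousOn
  have h4 : φ ζ = φ a := h2
  refine ⟨ζ, h1, fun hζ => ?_, h4 ▸ hm (subset_closure hz)⟩
  have h5 := PMax_loc (h ζ hζ)
    (eventually_of_mem (hW.mem_nhds hζ) fun w hw => h4 ▸ hm (subset_closure hw))
  obtain ⟨ε, hε, h6⟩ := Metric.eventually_nhds_iff.1 (h5.and (hW.mem_nhds hζ))
  obtain ⟨h7, h8⟩ := h6 (y := ζ + (ε / 2 : ℝ)) (by
    rw [dist_self_add_left, Complex.norm_real, Real.norm_of_nonneg (by positivity)]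
    linarith)
  have h9 : (ζ + (ε / 2 : ℝ)).re ≤ ζ.re := h3 ⟨subset_closure h8, h7.trans h4⟩
  rw [Complex.add_re, Complex.ofReal_re] at h9
  linarith

/-- the form used for barriers: apply `wmp` to the connected component of `z` in `O`; a point of
its closure outside it is not in `O` -/
theorem barrier {φ : ℂ → ℝ} {O : Set ℂ} (hO : IsOpen O) (hb : Bornology.IsBounded O) {z : ℂ}
    (hz : z ∈ O) (hc : ContinuousOn φ (closure (connectedComponentIn O z)))
    (h : ∀ t ∈ connectedComponentIn O z, SMV φ t) :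
    ∃ ζ ∈ closure (connectedComponentIn O z), ζ ∉ O ∧ φ z ≤ φ ζ := by
  obtain ⟨ζ, h1, h2, h3⟩ := wmp hO.connectedComponentIn
    (hb.subset (connectedComponentIn_subset O z)) hc h (mem_connectedComponentIn hz)
  refine ⟨ζ, h1, fun hζ => h2 ?_, h3⟩
  obtain ⟨y, h4, h5⟩ := mem_closure_iff.1 h1 _ hO.connectedComponentIn (mem_connectedComponentIn hζ)
  rw [connectedComponentIn_eq h5, ← connectedComponentIn_eq h4]
  exact mem_connectedComponentIn hζ

theorem PMax_bc {f : ℂ → ℂ} {ζ : ℂ} {r M : ℝ} (hM : 0 ≤ M) (hf : DifferentiableOn ℂ f (ball ζ r))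
    (h : ∀ t ∈ ball ζ r, (f t - f ζ).re ≤ M) {t : ℂ} (ht : t ∈ ball ζ (r / 2)) :
    ‖f t - f ζ‖ ≤ 2 * M := by
  rw [mem_ball, dist_eq_norm] at ht
  have h0 := norm_nonneg (t - ζ)
  have hm : ∀ z ∈ ball (0 : ℂ) r, ζ + z ∈ ball ζ r := fun z hz => by simpa using hz
  refine le_of_forall_pos_le_add fun ε hε => ?_
  have h1 := Complex.borelCaratheodory_zero (f := fun z => f (ζ + z) - f ζ) (M := M + ε / 2)
    (R := r) (z := t - ζ) (by positivity)
    ((hf.comp ((differentiable_id.const_add ζ).differentiableOn) hm).sub_const _)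
    (fun z hz => (h _ (hm z hz)).trans (by linarith)) (by linarith)
    (mem_ball_zero_iff.2 (by linarith)) (by simp)
  simp only [add_sub_cancel] at h1
  refine h1.trans ?_
  rw [div_le_iff₀ (by linarith)]
  nlinarith

/-- gradient estimate for harmonic functions: write `v = re f` on the ball
(`HarmonicOnNhd.exists_analyticOnNhd_ball_re_eq`), `‖gradient v ζ‖ = ‖deriv f ζ‖`, and apply the
Cauchy estimate to `exp (f / B)` (or use `Complex.borelCaratheodory`) -/
theorem norm_gradient_le {v : ℂ → ℝ} {ζ : ℂ} {r B : ℝ} (hr : 0 < r)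
    (hh : ∀ t ∈ ball ζ r, InnerProductSpace.HarmonicAt v t) (hB : ∀ t ∈ ball ζ r, |v t| ≤ B) :
    ‖gradient v ζ‖ ≤ 20 * B / r := by
  obtain ⟨F, hF, h⟩ := InnerProductSpace.HarmonicOnNhd.exists_analyticOnNhd_ball_re_eq hh
  have hζ := mem_ball_self (x := ζ) hr
  have hB0 : 0 ≤ B := (abs_nonneg _).trans (hB ζ hζ)
  have h1 : ‖deriv F ζ‖ ≤ 2 * (2 * B) / (r / 2) := by
    refine Complex.norm_deriv_le_div_of_mapsTo_ball
      (hF.differentiableOn.mono (ball_subset_ball (by linarith))) (fun t ht => ?_) (by positivity)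
    rw [mem_closedBall, dist_eq_norm]
    refine PMax_bc (by positivity) hF.differentiableOn (fun w hw => ?_) ht
    have a : (F w).re = v w := h hw
    have b : (F ζ).re = v ζ := h hζ
    rw [Complex.sub_re, a, b]
    linarith [(abs_le.1 (hB w hw)).2, (abs_le.1 (hB ζ hζ)).1]
  have h2 := (Complex.reCLM.hasFDerivAt.comp ζ
    ((hF ζ hζ).differentiableAt.hasDerivAt.hasFDerivAt.restrictScalars ℝ)).congr_of_eventuallyEq
    (eventually_of_mem (ball_mem_nhds ζ hr) fun t ht => (h ht).symm)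
  rw [gradient, LinearIsometryEquiv.norm_map, h2.fderiv]
  refine ContinuousLinearMap.opNorm_le_bound _ (by positivity) fun w => ?_
  have h3 : 2 * (2 * B) / (r / 2) ≤ 20 * B / r := by
    rw [div_div_eq_mul_div]
    exact div_le_div_of_nonneg_right (by linarith) hr.le
  refine (Complex.abs_re_le_norm (w • deriv F ζ)).trans ?_
  rw [norm_smul, mul_comm]
  exact mul_le_mul_of_nonneg_right (h1.trans h3) (norm_nonneg _)

/-- A uniform limit of harmonic functions is harmonic: `f n` holomorphic on a smaller ball with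
real part `v n` and `(f n ζ).im = 0`; the gradient estimate for `v n - v m` makes `f n` uniformly
Cauchy on a smaller ball. -/
theorem harmonic_of_lim {v : ℕ → ℂ → ℝ} {u : ℂ → ℝ} {ζ : ℂ} {r : ℝ} (hr : 0 < r)
    (hh : ∀ᶠ n in atTop, ∀ t ∈ ball ζ r, InnerProductSpace.HarmonicAt (v n) t)
    (hl : TendstoUniformlyOn v u atTop (ball ζ r)) : InnerProductSpace.HarmonicAt u ζ := by
  have h0 : ∀ n, ∃ F : ℂ → ℂ, (∀ t ∈ ball ζ r, InnerProductSpace.HarmonicAt (v n) t) →
      AnalyticOnNhd ℂ F (ball ζ r) ∧ ∀ t ∈ ball ζ r, (F t).re = v n t := fun n => by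
    by_cases h : ∀ t ∈ ball ζ r, InnerProductSpace.HarmonicAt (v n) t
    · obtain ⟨F, hF⟩ := InnerProductSpace.HarmonicOnNhd.exists_analyticOnNhd_ball_re_eq h
      exact ⟨F, fun _ => hF⟩
    · exact ⟨0, fun h' => absurd h' h⟩
  choose F hF using h0
  have hF' := hh.mono hF
  have hζ := mem_ball_self (x := ζ) hr
  have hs : ball ζ (r / 2) ⊆ ball ζ r := ball_subset_ball (by linarith)
  have h1 : UniformCauchySeqOn (fun n t => F n t - F n ζ) atTop (ball ζ (r / 2)) := by
    refine Metric.uniformCauchySeqOn_iff.2 fun ε hε => ?_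
    obtain ⟨N, hN⟩ := Metric.uniformCauchySeqOn_iff.1 hl.uniformCauchySeqOn (ε / 5) (by positivity)
    obtain ⟨N', hN'⟩ := eventually_atTop.1 hF'
    refine ⟨max N N', fun m hm n hn t ht => ?_⟩
    obtain ⟨a1, a2⟩ := hN' m (le_of_max_le_right hm)
    obtain ⟨b1, b2⟩ := hN' n (le_of_max_le_right hn)
    have c := hN m (le_of_max_le_left hm) n (le_of_max_le_left hn)
    have d := PMax_bc (f := fun t => F m t - F n t) (M := 2 * (ε / 5)) (by positivity)
      (a1.differentiableOn.sub b1.differentiableOn) (fun w hw => by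
        simp only [Complex.sub_re, a2 w hw, b2 w hw, a2 ζ hζ, b2 ζ hζ]
        linarith [(abs_lt.1 (c w hw)).2, (abs_lt.1 (c ζ hζ)).1]) ht
    rw [dist_eq_norm, sub_sub_sub_comm]
    linarith
  have h2 : ∀ t ∈ ball ζ (r / 2), Tendsto (fun n => F n t - F n ζ) atTop
      (𝓝 (limUnder atTop fun n => F n t - F n ζ)) := fun t ht => (h1.cauchySeq ht).tendsto_limUnder
  have h3 := (h1.tendstoUniformlyOn_of_tendsto h2).tendstoLocallyUniformlyOn.differentiableOn
    (hF'.mono fun n hn => (hn.1.differentiableOn.mono hs).sub_const _) isOpen_ball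
  have hb := ball_mem_nhds ζ (half_pos hr)
  refine (InnerProductSpace.harmonicAt_congr_nhds (eventually_of_mem hb fun t ht => ?_)).1
    ((h3.analyticAt hb).harmonicAt_re.add (InnerProductSpace.harmonicAt_const (u ζ)))
  have h4 := (Complex.continuous_re.tendsto _).comp (h2 t ht)
  have h5 := (hl.tendsto_at (hs ht)).sub (hl.tendsto_at hζ)
  refine eq_sub_iff_add_eq.1 (tendsto_nhds_unique h4 (h5.congr' (hF'.mono fun n hn => ?_)))
  simp only [Function.comp_apply, Complex.sub_re, hn.2 t (hs ht), hn.2 ζ hζ]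

end Pool.Agent.Lib.MP_7b5e47_an.Hn
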