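import Pool.Agent.Lib.MP_7b5e47_an.Hn.HGre

namespace Pool.Agent.Lib.MP_7b5e47_an.Hn

open Filter Topology Set Metric MeasureTheory

open scoped ContDiff

/-! Henon lists: Jacobian, reversal, polynomial slices, Green functions. -/

open Polynomial

/-- the list of the conjugate of the inverse map by the exchange of coordinates -/
noncomputable def revL (L : List (ℂˣ × ℂ[X])) : List (ℂˣ × ℂ[X]) :=
  (L.map fun h => (h.1⁻¹, C (-((h.1⁻¹ : ℂˣ) : ℂ)) * h.2)).reverse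

variable {L : List (ℂˣ × ℂ[X])}

theorem comp_cons (h : ℂˣ × ℂ[X]) (L : List (ℂˣ × ℂ[X])) :
    comp (h :: L) = hen h.1 h.2 * comp L := by
  simp [comp]

theorem deg_cons (h : ℂˣ × ℂ[X]) (L : List (ℂˣ × ℂ[X])) :
    deg (h :: L) = h.2.natDegree * deg L := by
  simp [deg]

theorem HRev_hen (a : ℂˣ) (P : ℂ[X]) :
    hen a⁻¹ (C (-((a⁻¹ : ℂˣ) : ℂ)) * P) = sw * (hen a P)⁻¹ * sw := by
  ext1 z
  change (((a⁻¹ : ℂˣ) : ℂ) * z.2 + (C (-((a⁻¹ : ℂˣ) : ℂ)) * P).eval z.1, z.1) =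
    (((a⁻¹ : ℂˣ) : ℂ) * (z.2 - P.eval z.1), z.1)
  rw [eval_mul, eval_C]
  congr 1
  ring

theorem HRev_cons (h : ℂˣ × ℂ[X]) (L : List (ℂˣ × ℂ[X])) :
    revL (h :: L) = revL L ++ [(h.1⁻¹, C (-((h.1⁻¹ : ℂˣ) : ℂ)) * h.2)] := by
  simp [revL]

theorem HRev_deg (a : ℂˣ) (P : ℂ[X]) : (C (-((a⁻¹ : ℂˣ) : ℂ)) * P).natDegree = P.natDegree :=
  natDegree_C_mul (neg_ne_zero.2 (Units.ne_zero _))

theorem comp_revL (L : List (ℂˣ × ℂ[X])) : comp (revL L) = sw * (comp L)⁻¹ * sw := by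
  induction L with
  | nil => simp [comp, revL]
  | cons h L ih =>
    have h1 : comp (revL (h :: L)) = comp (revL L) * hen h.1⁻¹ (C (-((h.1⁻¹ : ℂˣ) : ℂ)) * h.2) := by
      rw [HRev_cons]
      simp only [comp, List.map_append, List.prod_append, List.map_cons, List.map_nil,
        List.prod_cons, List.prod_nil, mul_one]
    rw [h1, ih, HRev_hen, comp_cons, mul_inv_rev]
    simp only [mul_assoc]
    rw [← mul_assoc sw sw, sw_mul_sw, one_mul]

theorem deg_revL (L : List (ℂˣ × ℂ[X])) : deg (revL L) = deg L := by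
  induction L with
  | nil => simp [deg, revL]
  | cons h L ih =>
    have h1 : deg (revL (h :: L)) = deg (revL L) * h.2.natDegree := by
      rw [HRev_cons]
      simp only [deg, List.map_append, List.prod_append, List.map_cons, List.map_nil,
        List.prod_cons, List.prod_nil, mul_one, HRev_deg]
    rw [h1, ih, deg_cons, mul_comm]

theorem IsHenon.revL (h : IsHenon L) : IsHenon (revL L) := by
  refine ⟨?_, fun x hx => ?_⟩
  · simpa [Hn.revL] using h.1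
  · simp only [Hn.revL, List.mem_reverse, List.mem_map] at hx
    obtain ⟨y, hy, rfl⟩ := hx
    rw [HRev_deg]
    exact h.2 y hy

theorem aut_hen (a : ℂˣ) (P : ℂ[X]) : Aut (hen a P) (-(a : ℂ)) := by
  have h1 : ∀ z : E, HasFDerivAt (⇑(hen a P))
      (((a : ℂ) • ContinuousLinearMap.snd ℂ ℂ ℂ +
        P.derivative.eval z.1 • ContinuousLinearMap.fst ℂ ℂ ℂ).prod
          (ContinuousLinearMap.fst ℂ ℂ ℂ)) z := fun z => by
    change HasFDerivAt (fun z : E => ((a : ℂ) * z.2 + P.eval z.1, z.1)) _ z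
    exact ((hasFDerivAt_snd.const_mul (a : ℂ)).add
      ((P.hasDerivAt z.1).comp_hasFDerivAt z hasFDerivAt_fst)).prodMk hasFDerivAt_fst
  refine ⟨fun z => (h1 z).differentiableAt, ?_, neg_ne_zero.2 (Units.ne_zero _), fun z u v => ?_⟩
  · change Differentiable ℂ fun z : ℂ × ℂ => (z.2, ((a⁻¹ : ℂˣ) : ℂ) * (z.1 - P.eval z.2))
    exact differentiable_snd.prodMk
      ((differentiable_fst.sub (P.differentiable.comp differentiable_snd)).const_mul _)
  · rw [(h1 z).fderiv]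
    simp [det2]
    ring

theorem aut_comp (L : List (ℂˣ × ℂ[X])) : ∃ a : ℂ, Aut (comp L) a := by
  induction L with
  | nil => exact ⟨_, BAut_npow (aut_hen 1 0) 0⟩
  | cons h L ih =>
    obtain ⟨a, ha⟩ := ih
    exact ⟨_, comp_cons h L ▸ BAut_mul (aut_hen h.1 h.2) ha⟩

theorem contDiff_hen (a : ℂˣ) (P : ℂ[X]) : ContDiff ℝ ∞ (⇑(hen a P)) := by
  have h1 : ContDiff ℝ ∞ fun x : ℂ => P.eval x :=
    (P.differentiable.contDiff (n := ∞)).restrict_scalars ℝ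
  change ContDiff ℝ ∞ fun z : E => ((a : ℂ) * z.2 + P.eval z.1, z.1)
  exact ((contDiff_const.mul contDiff_snd).add (h1.comp contDiff_fst)).prodMk contDiff_fst

theorem green_conj (F : Pm) (d : ℕ) (z : E) : green (sw * F * sw) d z = green F d (sw z) := by
  have h1 : ∀ n : ℕ, (sw * F * sw) ^ n = sw * F ^ n * sw := fun n => conj_pow (a := sw) (b := F)
  unfold green
  simp only [h1, Equiv.Perm.mul_apply, norm_sw]

theorem HRev_slice (L : List (ℂˣ × ℂ[X])) (h : ∀ x ∈ L, 2 ≤ x.2.natDegree) {P Q : ℂ[X]}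
    (h1 : 1 ≤ P.natDegree) (h2 : Q.natDegree ≤ P.natDegree) : ∃ P' Q' : ℂ[X],
    (∀ t, comp L (P.eval t, Q.eval t) = (P'.eval t, Q'.eval t)) ∧
      P'.natDegree = deg L * P.natDegree ∧ 1 ≤ P'.natDegree ∧ Q'.natDegree ≤ P'.natDegree ∧
      (L ≠ [] → 1 ≤ Q'.natDegree) := by
  induction L with
  | nil => exact ⟨P, Q, fun t => rfl, by simp [deg], h1, h2, fun h => absurd rfl h⟩
  | cons x L ih =>
    obtain ⟨P', Q', a1, a2, a3, a4, -⟩ := ih fun y hy => h y (List.mem_cons_of_mem _ hy)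
    have hx := h x (List.mem_cons_self ..)
    have b1 : (x.2.comp P').natDegree = x.2.natDegree * P'.natDegree := natDegree_comp
    have b2 : (C (x.1 : ℂ) * Q').natDegree < (x.2.comp P').natDegree := by
      rw [b1, natDegree_C_mul (Units.ne_zero _)]
      nlinarith
    have b3 := natDegree_add_eq_right_of_natDegree_lt b2
    refine ⟨C (x.1 : ℂ) * Q' + x.2.comp P', P', fun t => ?_, ?_, ?_, ?_, fun _ => a3⟩
    · rw [comp_cons, Equiv.Perm.mul_apply, a1, eval_add, eval_mul, eval_C, eval_comp]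
      rfl
    · rw [b3, b1, a2, deg_cons, mul_assoc]
    · rw [b3, b1]
      nlinarith
    · rw [b3, b1]
      nlinarith

/-- slices are polynomial curves: induction over the factors with the invariant
`1 ≤ natDegree P` and `natDegree Q ≤ natDegree P`; after at least one factor `Q` is a former `P` -/
theorem slice_poly (h : IsHenon L) (n : ℕ) (c : ℂ) : ∃ P Q : ℂ[X],
    (∀ t, (comp L ^ n) (t, c) = (P.eval t, Q.eval t)) ∧ P.natDegree = deg L ^ n ∧
      Q.natDegree ≤ deg L ^ n ∧ (0 < n → 1 ≤ Q.natDegree) := by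
  have key : ∃ P Q : ℂ[X], (∀ t, (comp L ^ n) (t, c) = (P.eval t, Q.eval t)) ∧
      P.natDegree = deg L ^ n ∧ 1 ≤ P.natDegree ∧ Q.natDegree ≤ P.natDegree ∧
      (0 < n → 1 ≤ Q.natDegree) := by
    induction n with
    | zero => exact ⟨X, C c, fun t => by simp, by simp, by simp, by simp, fun h => absurd h (by simp)⟩
    | succ n ih =>
      obtain ⟨P, Q, a1, a2, a3, a4, -⟩ := ih
      obtain ⟨P', Q', b1, b2, b3, b4, b5⟩ := HRev_slice L h.2 a3 a4
      refine ⟨P', Q', fun t => ?_, ?_, b3, b4, fun _ => b5 h.1⟩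
      · rw [pow_succ', Equiv.Perm.mul_apply, a1, b1]
      · rw [b2, a2, pow_succ']
  obtain ⟨P, Q, a1, a2, -, a4, a5⟩ := key
  exact ⟨P, Q, a1, a2, a2 ▸ a4, a5⟩

/-- one factor: if `‖y‖ ≤ C₀ (1 + ‖x‖)` then `log max 1 ‖a y + P x‖ = deg P * log max 1 ‖x‖ + O(1)`
(`Polynomial.isEquivalent_cobounded_leading_monomial`, as in `poly_est`) -/
theorem hen_cone (a : ℂˣ) {P : ℂ[X]} (hP : 2 ≤ P.natDegree) (C₀ : ℝ) : ∃ C₁ : ℝ, 0 ≤ C₁ ∧
    ∀ z : E, ‖z.2‖ ≤ C₀ * (1 + ‖z.1‖) →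
      |Real.log (max 1 ‖(hen a P z).1‖) - P.natDegree * Real.log (max 1 ‖z.1‖)| ≤ C₁ ∧
      ‖(hen a P z).2‖ ≤ C₁ * (1 + ‖(hen a P z).1‖) ∧
      ‖(hen a P z).2‖ ^ 2 ≤ C₁ * (1 + ‖(hen a P z).1‖) ∧
      ‖(hen a P z).1‖ ≤ C₁ * (1 + ‖(hen a P z).2‖) ^ P.natDegree := by
  obtain ⟨K, hK⟩ : ∃ K : ℝ, K = max 1 (2 * C₀) := ⟨_, rfl⟩
  have hK1 : 1 ≤ K := hK ▸ le_max_left _ _
  have hK2 : 2 * C₀ ≤ K := hK ▸ le_max_right _ _
  have hK0 : (K : ℂ) ≠ 0 := by exact_mod_cast (by linarith : K ≠ 0)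
  obtain ⟨R₀, C', hR, H⟩ := poly_est P hP (a * K) 1 one_ne_zero
  obtain ⟨M, hM⟩ := (isCompact_closedBall (0 : E) (K * (1 + R₀))).exists_bound_of_continuousOn
    (aut_hen a P).dF.continuous.fst.continuousOn
  have hl1 := Gre_log M
  have hl2 : 0 ≤ (P.natDegree : ℝ) * Real.log R₀ := mul_nonneg (Nat.cast_nonneg _) (Real.log_nonneg hR)
  have he := Real.exp_pos C'
  have ha := abs_nonneg C'
  have hm := abs_nonneg M
  have hR2 : R₀ ≤ R₀ ^ 2 := by nlinarith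
  obtain ⟨C₁, hC₁⟩ : ∃ C₁, C₁ = |C'| + Real.exp C' + Real.log (max 1 M) +
    P.natDegree * Real.log R₀ + R₀ ^ 2 + |M| := ⟨_, rfl⟩
  have hC0 : 0 ≤ C₁ := by linarith
  refine ⟨C₁, hC0, fun z hz => ?_⟩
  have e2 : (hen a P z).2 = z.1 := rfl
  have n1 := norm_nonneg z.1
  have n2 := norm_nonneg (hen a P z).1
  have hp : 1 ≤ (1 + ‖z.1‖) ^ P.natDegree := one_le_pow₀ (by linarith)
  rw [e2]
  rcases le_total R₀ ‖z.1‖ with h1 | h1
  · have h2 : ‖z.2 / K‖ ≤ ‖z.1‖ := by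
      rw [norm_div, Complex.norm_real, Real.norm_of_nonneg (by linarith), div_le_iff₀ (by linarith)]
      nlinarith
    obtain ⟨h3, h4⟩ := H z.1 (z.2 / K) h1 h2
    have e1 : 1 * ((a : ℂ) * K * (z.2 / K) + P.eval z.1) = (hen a P z).1 := by
      change _ = (a : ℂ) * z.2 + P.eval z.1
      field_simp
    rw [e1] at h3 h4
    have hx : 0 < ‖z.1‖ := by linarith
    have hN : 0 < ‖(hen a P z).1‖ := by linarith
    have h5 : ‖z.1‖ ^ P.natDegree ≤ Real.exp C' * ‖(hen a P z).1‖ := by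
      rw [← Real.log_le_log_iff (by positivity) (by positivity), Real.log_mul he.ne' hN.ne',
        Real.log_exp, Real.log_pow]
      linarith [(abs_le.1 h4).1]
    have h6 : ‖(hen a P z).1‖ ≤ Real.exp C' * ‖z.1‖ ^ P.natDegree := by
      rw [← Real.log_le_log_iff (by positivity) (by positivity),
        Real.log_mul he.ne' (by positivity), Real.log_exp, Real.log_pow]
      linarith [(abs_le.1 h4).2]
    refine ⟨?_, ?_, ?_, ?_⟩
    · rw [max_eq_right (by linarith), max_eq_right (by linarith)]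
      linarith [le_abs_self C']
    · nlinarith
    · have h7 : ‖z.1‖ ^ 2 ≤ ‖z.1‖ ^ P.natDegree := pow_le_pow_right₀ (by linarith) hP
      have h8 : Real.exp C' * ‖(hen a P z).1‖ ≤ C₁ * ‖(hen a P z).1‖ :=
        mul_le_mul_of_nonneg_right (by linarith) n2
      linarith
    · refine h6.trans (mul_le_mul (by linarith) ?_ (by positivity) hC0)
      exact pow_le_pow_left₀ n1 (by linarith) _
  · have h2 : ‖z‖ ≤ K * (1 + R₀) := by
      rw [Prod.norm_def]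
      refine max_le (by nlinarith) (hz.trans ?_)
      rcases le_total C₀ 0 with h3 | h3 <;> nlinarith
    have h3 : ‖(hen a P z).1‖ ≤ M := hM z (mem_closedBall_zero_iff.2 h2)
    have h4 : Real.log (max 1 ‖(hen a P z).1‖) ≤ Real.log (max 1 M) :=
      Real.log_le_log (by positivity) (max_le_max_left _ h3)
    have h5 : (P.natDegree : ℝ) * Real.log (max 1 ‖z.1‖) ≤ P.natDegree * Real.log R₀ :=
      mul_le_mul_of_nonneg_left (Real.log_le_log (by positivity) (max_le hR h1)) (Nat.cast_nonneg _)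
    have h6 := mul_nonneg (Nat.cast_nonneg (α := ℝ) P.natDegree) (Gre_log ‖z.1‖)
    have h7 := mul_nonneg hC0 n2
    refine ⟨abs_le.2 ⟨?_, ?_⟩, ?_, ?_, ?_⟩
    · linarith [Gre_log ‖(hen a P z).1‖]
    · linarith
    · linarith
    · have h8 : ‖z.1‖ ^ 2 ≤ R₀ ^ 2 := pow_le_pow_left₀ n1 h1 2
      linarith
    · have h8 : C₁ ≤ C₁ * (1 + ‖z.1‖) ^ P.natDegree := le_mul_of_one_le_right hC0 hp
      linarith [le_abs_self M]

theorem HRev_cone (L : List (ℂˣ × ℂ[X])) (h : ∀ x ∈ L, 2 ≤ x.2.natDegree) (C₀ : ℝ) :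
    ∃ C₁ : ℝ, 0 ≤ C₁ ∧ ∀ z : E, ‖z.2‖ ≤ C₀ * (1 + ‖z.1‖) →
      ‖(comp L z).2‖ ≤ C₁ * (1 + ‖(comp L z).1‖) ∧
      (L ≠ [] → ‖(comp L z).2‖ ^ 2 ≤ C₁ * (1 + ‖(comp L z).1‖)) := by
  induction L with
  | nil =>
    exact ⟨max 0 C₀, le_max_left _ _, fun z hz => ⟨hz.trans
      (mul_le_mul_of_nonneg_right (le_max_right _ _) (by positivity)), fun h => absurd rfl h⟩⟩
  | cons x L ih =>
    obtain ⟨C₁, -, H₁⟩ := ih fun y hy => h y (List.mem_cons_of_mem _ hy)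
    obtain ⟨C₂, h₂, H₂⟩ := hen_cone x.1 (h x (List.mem_cons_self ..)) C₁
    refine ⟨C₂, h₂, fun z hz => ?_⟩
    obtain ⟨-, a1, a2, -⟩ := H₂ _ (H₁ z hz).1
    rw [comp_cons, Equiv.Perm.mul_apply]
    exact ⟨a1, fun _ => a2⟩

theorem comp_cone (h : IsHenon L) (C₀ : ℝ) : ∃ C₁ : ℝ, 0 ≤ C₁ ∧ ∀ z : E,
    ‖z.2‖ ≤ C₀ * (1 + ‖z.1‖) → ‖(comp L z).2‖ ^ 2 ≤ C₁ * (1 + ‖(comp L z).1‖) := by
  obtain ⟨C₁, h₁, H⟩ := HRev_cone L h.2 C₀
  exact ⟨C₁, h₁, fun z hz => (H z hz).2 h.1⟩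

theorem HRev_log {f : Pm} {d : ℕ} {R C : ℝ} {A B : E →L[ℂ] ℂ} (h : Flt f d R C A B) (ρ : ℝ) :
    ∃ C' : ℝ, ∀ (k : ℕ) (q : E), ‖q‖ ≤ ρ →
      |Real.log (max 1 ‖(f ^ k) q‖) - (d : ℝ) ^ k * green f d q| ≤ C' ∧
      |Real.log (max 1 ‖A ((f ^ k) q)‖) - (d : ℝ) ^ k * green f d q| ≤ C' := by
  obtain ⟨C', hC⟩ := h.green_nv
  obtain ⟨k₀, hk⟩ := h.nv_enter ρ
  have hc : ∀ k : ℕ, ∃ M : ℝ, ∀ q : E, ‖q‖ ≤ ρ →
      |Real.log (max 1 ‖(f ^ k) q‖) - (d : ℝ) ^ k * green f d q| ≤ M ∧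
      |Real.log (max 1 ‖A ((f ^ k) q)‖) - (d : ℝ) ^ k * green f d q| ≤ M := fun k => by
    have c1 := (dif_pow h.df k).continuous
    have c2 : Continuous fun q => (d : ℝ) ^ k * green f d q := continuous_const.mul h.green_continuous
    obtain ⟨M₁, h₁⟩ := (isCompact_closedBall (0 : E) ρ).exists_bound_of_continuousOn
      (((continuous_const.max c1.norm).log fun z => by positivity :
        Continuous fun q => Real.log (max 1 ‖(f ^ k) q‖)).sub c2).continuousOn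
    obtain ⟨M₂, h₂⟩ := (isCompact_closedBall (0 : E) ρ).exists_bound_of_continuousOn
      (((continuous_const.max (A.continuous.comp c1).norm).log fun z => by positivity :
        Continuous fun q => Real.log (max 1 ‖A ((f ^ k) q)‖)).sub c2).continuousOn
    exact ⟨max M₁ M₂, fun q hq => ⟨(h₁ q (mem_closedBall_zero_iff.2 hq)).trans (le_max_left _ _),
      (h₂ q (mem_closedBall_zero_iff.2 hq)).trans (le_max_right _ _)⟩⟩
  choose M hM using hc
  have hS : 0 ≤ ∑ k ∈ Finset.range k₀, |M k| := Finset.sum_nonneg fun k _ => abs_nonneg _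
  have hl := Real.log_nonneg h.hR
  refine ⟨|C'| + Real.log R + ∑ k ∈ Finset.range k₀, |M k|, fun k q hq => ?_⟩
  rcases lt_or_ge k k₀ with h1 | h1
  · have h2 : |M k| ≤ ∑ k ∈ Finset.range k₀, |M k| :=
      Finset.single_le_sum (f := fun k => |M k|) (fun k _ => abs_nonneg _) (Finset.mem_range.2 h1)
    obtain ⟨h3, h4⟩ := hM k q hq
    exact ⟨by linarith [le_abs_self (M k), abs_nonneg C'],
      by linarith [le_abs_self (M k), abs_nonneg C']⟩
  · have h2 := Gre_pow h (hk q hq) (k - k₀)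
    rw [← Equiv.Perm.mul_apply, ← pow_add, Nat.sub_add_cancel h1] at h2
    have h3 := hC _ h2
    rw [Gre_green_pow h] at h3
    refine ⟨by linarith [le_abs_self C'], ?_⟩
    rcases le_total R ‖(f ^ k) q‖ with h4 | h4
    · rw [← (Gre_big h h2 h4).2]
      linarith [le_abs_self C']
    · have h5 : Real.log (max 1 ‖(f ^ k) q‖) ≤ Real.log R :=
        Real.log_le_log (by positivity) (max_le h.hR h4)
      have h6 : ‖A ((f ^ k) q)‖ ≤ ‖(f ^ k) q‖ := by
        rw [h.nrm ((f ^ k) q)]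
        exact le_max_left _ _
      have h7 : Real.log (max 1 ‖A ((f ^ k) q)‖) ≤ Real.log (max 1 ‖(f ^ k) q‖) :=
        Real.log_le_log (by positivity) (max_le_max_left _ h6)
      obtain ⟨h8, h9⟩ := abs_le.1 h3
      exact abs_le.2 ⟨by linarith [le_abs_self C', Gre_log ‖A ((f ^ k) q)‖],
        by linarith [le_abs_self C']⟩

theorem HRev_exp {x c : ℝ} (h : Real.log (max 1 x) ≤ c) : x ≤ Real.exp c :=
  (le_max_right _ _).trans ((Real.log_le_iff_le_exp (by positivity)).1 h)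

theorem HRev_orb {f : Pm} {d : ℕ} {R C : ℝ} {A B : E →L[ℂ] ℂ} (h : Flt f d R C A B) (ρ : ℝ) :
    ∃ R₁ : ℝ, ∀ w : E, ‖w‖ ≤ ρ → green f d w = 0 → ∀ k : ℕ, ‖(f ^ k) w‖ ≤ R₁ := by
  obtain ⟨C', hC⟩ := HRev_log h ρ
  refine ⟨Real.exp C', fun w hw h0 k => HRev_exp ?_⟩
  have h1 := (hC k w hw).1
  rw [h0, mul_zero, sub_zero] at h1
  exact (le_abs_self _).trans h1

theorem HRev_holder {f : Pm} {d : ℕ} {R C : ℝ} {A B : E →L[ℂ] ℂ} (h : Flt f d R C A B) (ρ : ℝ) :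
    ∃ C α : ℝ, 0 < α ∧ ∀ z w : E, ‖z‖ ≤ ρ → ‖w‖ ≤ ρ → green f d w = 0 →
      green f d z ≤ C * ‖z - w‖ ^ α := by
  obtain ⟨R₁, hR₁⟩ := HRev_orb h ρ
  obtain ⟨M₀, hM₀, hL⟩ := exists_lip h.df (R₁ + 1)
  obtain ⟨G, hG⟩ := (isCompact_closedBall (0 : E) (max ρ (R₁ + 1))).exists_bound_of_continuousOn
    h.green_continuous.continuousOn
  have hG' : ∀ z : E, ‖z‖ ≤ max ρ (R₁ + 1) → green f d z ≤ |G| := fun z hz =>
    ((le_abs_self _).trans (hG z (mem_closedBall_zero_iff.2 hz))).trans (le_abs_self G)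
  obtain ⟨M, hM⟩ : ∃ M, M = M₀ + 1 := ⟨_, rfl⟩
  have hM1 : 1 < M := by linarith
  have hM0 : 0 < M := by linarith
  have hd := h.hd
  have hd0 : (0 : ℝ) < d := by linarith
  have hlM := Real.log_pos hM1
  have hα : 0 < Real.log d / Real.log M := div_pos (Real.log_pos hd) hlM
  have hGd : |G| ≤ |G| * d := le_mul_of_one_le_right (abs_nonneg _) hd.le
  refine ⟨|G| * d, Real.log d / Real.log M, hα, fun z w hz hw h0 => ?_⟩
  rcases eq_or_ne z w with rfl | hne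
  · rw [h0]
    positivity
  have hδ : 0 < ‖z - w‖ := norm_pos_iff.2 (sub_ne_zero.2 hne)
  rcases le_total 1 ‖z - w‖ with h1 | h1
  · have h2 : 1 ≤ ‖z - w‖ ^ (Real.log d / Real.log M) := Real.one_le_rpow h1 hα.le
    have h3 := hG' z (hz.trans (le_max_left _ _))
    have h4 : |G| * d ≤ |G| * d * ‖z - w‖ ^ (Real.log d / Real.log M) :=
      le_mul_of_one_le_right (by positivity) h2
    linarith
  obtain ⟨n, hn1, hn2⟩ := exists_nat_pow_near ((one_le_inv₀ hδ).2 h1) hM1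
  have h2 : M ^ n * ‖z - w‖ ≤ 1 := by
    rwa [← one_div, le_div_iff₀ hδ] at hn1
  have h3 : ∀ j ≤ n, M ^ j * ‖z - w‖ ≤ 1 := fun j hj =>
    (mul_le_mul_of_nonneg_right (pow_le_pow_right₀ hM1.le hj) hδ.le).trans h2
  have h4 : ∀ j : ℕ, ‖(f ^ j) z - (f ^ j) w‖ ≤ 1 → ‖(f ^ j) z‖ ≤ R₁ + 1 := fun j hj => by
    linarith [hR₁ w hw h0 j, norm_sub_norm_le ((f ^ j) z) ((f ^ j) w)]
  have h5 : ∀ j ≤ n, ‖(f ^ j) z - (f ^ j) w‖ ≤ M ^ j * ‖z - w‖ := by
    intro j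
    induction j with
    | zero => exact fun _ => by simp
    | succ j ih =>
      intro hj
      have a1 := ih (by omega)
      have a2 := (hL _ _ (h4 j (a1.trans (h3 j (by omega))))
        ((hR₁ w hw h0 j).trans (by linarith))).2.2.1
      rw [pow_succ' f, Equiv.Perm.mul_apply, Equiv.Perm.mul_apply, pow_succ' M, mul_assoc]
      exact a2.trans (mul_le_mul (by linarith) a1 (norm_nonneg _) hM0.le)
  have h6 := hG' _ ((h4 n ((h5 n le_rfl).trans h2)).trans (le_max_right _ _))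
  rw [Gre_green_pow h] at h6
  have h7 : 1 ≤ (d : ℝ) ^ (n + 1) * ‖z - w‖ ^ (Real.log d / Real.log M) := by
    have e1 : (d : ℝ) ^ (n + 1) = (M ^ (n + 1)) ^ (Real.log d / Real.log M) := by
      rw [← Real.rpow_natCast M, ← Real.rpow_mul hM0.le, mul_comm, Real.rpow_mul hM0.le,
        Real.rpow_natCast, Real.rpow_def_of_pos hM0, mul_div_cancel₀ _ hlM.ne', Real.exp_log hd0]
    rw [e1, ← Real.mul_rpow (by positivity) hδ.le]
    refine Real.one_le_rpow ?_ hα.le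
    rw [← one_div, div_lt_iff₀ hδ] at hn2
    exact hn2.le
  refine le_of_mul_le_mul_left ?_ (pow_pos hd0 n)
  calc (d : ℝ) ^ n * green f d z ≤ |G| * 1 := by linarith
    _ ≤ |G| * ((d : ℝ) ^ (n + 1) * ‖z - w‖ ^ (Real.log d / Real.log M)) :=
        mul_le_mul_of_nonneg_left h7 (abs_nonneg _)
    _ = _ := by ring

/-- `zero_iff`: a bounded orbit gives `green = 0` by `green_tendsto`; conversely if `green z = 0`,
the orbit enters `NV` and `green_nv` bounds it. `proper`: every point is in `NV R A B` or in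
`NV R B A`, or has `‖A z‖ = ‖B z‖ ≥ R`, in which case `f z ∈ NV R A B` is large; use `green_nv`.
`holder`: the points of `K⁺` of norm at most `R₀` have orbits bounded by some `R₁` (`proper`); with
`M ≥ 2` a Lipschitz constant of `f` on the ball of radius `R₁ + 1` and `M^n ‖z - w‖ ≤ 1 <
M^(n+1) ‖z - w‖`, `green z = d^(-n) green (f^n z) ≤ C d^(-n)`. -/
theorem Flt.halfG {f : Pm} {d : ℕ} {R C : ℝ} {A B : E →L[ℂ] ℂ} (h : Flt f d R C A B) :
    HalfG f d (green f d) (green f⁻¹ d) := by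
  refine ⟨h.hd, h.green_continuous, h.green_nonneg, h.green_map, fun z => ⟨fun h0 => ?_, ?_⟩,
    fun c => ?_, fun X ζ hX h0 => h.green_harm X ζ hX h0, HRev_holder h⟩
  · obtain ⟨R₁, hR₁⟩ := HRev_orb h ‖z‖
    exact ⟨R₁, hR₁ z le_rfl h0⟩
  · rintro ⟨R₁, hR₁⟩
    refine le_antisymm (le_of_tendsto_of_tendsto' (h.green_tendsto z)
      ((tendsto_pow_atTop_atTop_of_one_lt h.hd).const_div_atTop (Real.log (max 1 R₁)))
      fun n => ?_) (h.green_nonneg z)
    exact div_le_div_of_nonneg_right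
      (Real.log_le_log (by positivity) (max_le_max_left _ (hR₁ n))) (by positivity)
  · obtain ⟨C₁, h₁⟩ := h.green_nv
    obtain ⟨C₂, h₂⟩ := h.symm.green_nv
    refine ⟨max (Real.exp (C₁ + c)) (max (Real.exp (C₂ + c)) (Real.exp (C₁ + d * c))),
      fun z hp hm => ?_⟩
    by_cases a1 : z ∈ NV R A B
    · exact le_max_of_le_left (HRev_exp (by linarith [(abs_le.1 (h₁ z a1)).2]))
    by_cases a2 : z ∈ NV R B A
    · exact le_max_of_le_right (le_max_of_le_left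
        (HRev_exp (by linarith [(abs_le.1 (h₂ z a2)).2])))
    obtain ⟨b1, b2⟩ := not_not.1 a2
    obtain ⟨b3, b4, -⟩ := h.up z b1 b2
    have b5 : f z ∈ NV R A B := fun h5 => by linarith [h5.1, h5.2, h.hR]
    have b6 := (abs_le.1 (h₁ _ b5)).2
    rw [h.green_map] at b6
    have b7 : (d : ℝ) * green f d z ≤ d * c := mul_le_mul_of_nonneg_left hp d.cast_nonneg
    have b8 : ‖f z‖ ≤ Real.exp (C₁ + d * c) := HRev_exp (by linarith)
    have b9 : ‖A (f z)‖ ≤ ‖f z‖ := by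
      rw [h.nrm (f z)]
      exact le_max_left _ _
    refine le_max_of_le_right (le_max_of_le_right ?_)
    rw [h.nrm z, max_eq_left b2]
    linarith [norm_nonneg (A z)]

/-- `log max 1 ‖f^k q‖ ≤ d^k green q + C'` on bounded sets (`nv_enter`, `green_nv`) -/
theorem Flt.log_le {f : Pm} {d : ℕ} {R C : ℝ} {A B : E →L[ℂ] ℂ} (h : Flt f d R C A B) (ρ : ℝ) :
    ∃ C' : ℝ, ∀ (k : ℕ) (q : E), ‖q‖ ≤ ρ →
      |Real.log (max 1 ‖(f ^ k) q‖) - (d : ℝ) ^ k * green f d q| ≤ C' ∧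
      |Real.log (max 1 ‖A ((f ^ k) q)‖) - (d : ℝ) ^ k * green f d q| ≤ C' := by
  exact HRev_log h ρ

end Pool.Agent.Lib.MP_7b5e47_an.Hn
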