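import Pool.Agent.Lib.MP_7b5e47_an.Hn.CStep
import Pool.Agent.Lib.MP_7b5e47_an.Hn.GSbar

namespace Pool.Agent.Lib.MP_7b5e47_an.Hn

open Filter Topology Set Metric MeasureTheory

/-! Stable leaves of chains along orbits. -/

variable {F : Pm} {a : ℂ} {d : ℝ} {Gp Gm : E → ℝ} {Λ b δ c₀ : ℝ} {A₀ : Ch} {x : E}
  {A : ℤ → Ch} {T : Set ℤ}

theorem LBasic_ai (G : Pm) (z : E) : G (G⁻¹ z) = z := G.apply_symm_apply z

theorem LBasic_ia (G : Pm) (z : E) : G⁻¹ (G z) = z := G.symm_apply_apply z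

theorem LBasic_cmp (F : Pm) (A : ℤ → Ch) (k : ℤ) (n : ℕ) (z : E) :
    (A (k + n)).pm (cmp (fwc F A k) n z) = (F ^ n) ((A k).pm z) := by
  rw [cmp_fwc]
  simp

theorem LBasic_rvc (hd : ∀ k, (A k).det ≠ 0) (k : ℤ) (z : E) :
    (rvc A k).pm (sw z) = (A (-k)).pm z := by
  rw [rvc, Ch.rev_pm (hd _)]
  simp

/-- `loc_rev`, `Step.rev`, `Ch.rev_pm` -/
theorem RChain.rev (h : RChain F Λ b δ c₀ A₀ x A T) :
    RChain F⁻¹ Λ b δ c₀ A₀.rev x (rvc A) {k | -k ∈ T} := by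
  refine ⟨h.small, h.pos, fun k => ?_, fun k => ?_, fun k hk => congrArg Ch.rev (h.vis (-k) hk),
    fun k => ?_, fun k => ⟨(h.up (-k)).2, (h.up (-k)).1⟩, fun k τ hτ => ?_⟩
  · rw [rvc, Ch.rev_det]
    exact neg_ne_zero.2 (h.det _)
  · have h1 := h.step (-(k + 1))
    rw [show -(k + 1) + 1 = -k by ring] at h1
    rw [rvc, rvc, loc_rev F (h.det _) (h.det _)]
    exact h1.rev h.small
  · rw [rvc, Ch.rev_pm (h.det _), mul_inv_rev, sw_inv, Equiv.Perm.mul_apply, norm_sw, inv_zpow']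
    exact h.orb _
  · have h1 := h.low (-k) (-τ) hτ
    rwa [rvc, Ch.rev_det, norm_neg, show (k - τ).natAbs = (-k - -τ).natAbs by omega]

theorem Rec.neg (h : Rec T) : Rec {k | -k ∈ T} := by
  refine ⟨by simpa using h.1, fun n => ?_, fun n => ?_⟩
  · obtain ⟨k, hk, h1⟩ := h.2.2 (-n)
    exact ⟨-k, by simpa using hk, by omega⟩
  · obtain ⟨k, hk, h1⟩ := h.2.1 (-n)
    exact ⟨-k, by simpa using hk, by omega⟩

theorem Box.rev {μ : Measure E} {R : Set E} (h : Box F μ Λ b δ c₀ A₀ R) :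
    Box F⁻¹ μ Λ b δ c₀ A₀.rev R := by
  refine ⟨h.meas, h.ne, fun x hx => ?_⟩
  obtain ⟨h1, h2, A, T, h3, h4⟩ := h.ch x hx
  exact ⟨h2, by rwa [inv_inv], _, _, h3.rev, h4.neg⟩

/-- the reversed chain read in the forward charts (`cmp_fwc` twice) -/
theorem cmp_rev (hd : ∀ k, (A k).det ≠ 0) (k : ℤ) (n : ℕ) (z : E) :
    cmp (fwc F⁻¹ (rvc A) (-k)) n (sw z) = sw ((cmp (fwc F A (k - n)) n)⁻¹ z) := by
  rw [cmp_fwc, cmp_fwc, rvc, rvc, Ch.rev_pm (hd _), Ch.rev_pm (hd _), neg_neg, sub_add_cancel,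
    show -(-k + n) = k - n by ring]
  simp

/-- staying points are within distance 4 of the orbit of `x` -/
theorem RChain.mem_Kp (h : RChain F Λ b δ c₀ A₀ x A T) (hx : x ∈ Kp F) {k : ℤ} {z : E}
    (hz : Stay (fwc F A k) z) : (A k).pm z ∈ Kp F := by
  obtain ⟨R, hR⟩ := (mem_Kp_zpow k).2 hx
  refine ⟨R + 4, fun n => ?_⟩
  have h1 := Ch.norm_pm_sub (h.det (k + n)) (h.up _).1 (h.up _).2 (cmp (fwc F A k) n z)
    (cmp (fwc F A k) n ((A k).pm⁻¹ ((F ^ k) x)))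
  rw [LBasic_cmp, LBasic_cmp, LBasic_ai] at h1
  have h2 := GStep_sub (hz n) (h.stay k n)
  have h3 := norm_le_norm_add_norm_sub' ((F ^ n) ((A k).pm z)) ((F ^ n) ((F ^ k) x))
  linarith [hR n]

/-- Two stable graphs through a common point coincide. Let `q = A₀ (γ s₀, s₀)`. For `s` near `s₀`
the orbits of `A₀ (γ s, s)` and `q` are at distance at most `2 the Λ ^ n ‖s - s₀‖`
(`Chain.stay_two`, `up`), which in the charts `A'` is at most
`(4 / c₀) (ome Λ * the Λ) ^ n ‖s - s₀‖` (`low`, `Ch.norm_inv_sub`), and the orbit of `q` has norm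
at most `max ‖s₀‖ (1/100) < 1` there (`Chain.stay_le`). So `γ s = γ' s` near `s₀` (`uniq`), and the
identity theorem applies. -/
theorem leaf_eq {x' : E} {A' : ℤ → Ch} {T' : Set ℤ} (h : RChain F Λ b δ c₀ A₀ x A T)
    (h' : RChain F Λ b δ c₀ A₀ x' A' T') (h0 : (0 : ℤ) ∈ T) (h0' : (0 : ℤ) ∈ T') {γ γ' : ℂ → ℂ}
    (hγ : IsSG (fwc F A 0) γ) (hγ' : IsSG (fwc F A' 0) γ') {s₀ : ℂ} (hs : s₀ ∈ ball (0 : ℂ) 1)
    (he : γ s₀ = γ' s₀) : EqOn γ γ' (ball 0 1) := by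
  have hr : max ‖s₀‖ (1 / 100) < 1 := max_lt (mem_ball_zero_iff.1 hs) (by norm_num)
  have hc := h.pos
  have hz : ‖((γ' s₀, s₀) : E)‖ ≤ max ‖s₀‖ (1 / 100) := by
    rw [Prod.norm_def]
    exact max_le (le_max_of_le_right (hγ'.small s₀ hs)) (le_max_left _ _)
  have h1 := (h'.chain 0).stay_le (hγ'.stay s₀ hs) (le_max_right _ _) hz
  generalize max ‖s₀‖ (1 / 100) = r at hr h1
  refine (hγ.gr.1.analyticOnNhd isOpen_ball).eqOn_of_preconnected_of_eventuallyEq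
    (hγ'.gr.1.analyticOnNhd isOpen_ball) (convex_ball _ _).isPreconnected hs ?_
  filter_upwards [isOpen_ball.mem_nhds hs,
    ball_mem_nhds s₀ (show 0 < c₀ * (1 - r) / 4 by have := sub_pos.2 hr; positivity)] with s h2 h3
  refine hγ'.uniq (γ s, s) (mem_ball_zero_iff.1 h2) fun n => ?_
  have h4 := ((h.chain 0).stay_two (hγ.stay s h2) (hγ.stay s₀ hs)).2 n
  rw [GSG_norm_pair hγ.gr h2 hs] at h4
  have h5 := Ch.norm_pm_sub (h.det (0 + n)) (h.up _).1 (h.up _).2 (cmp (fwc F A 0) n (γ s, s))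
    (cmp (fwc F A 0) n (γ s₀, s₀))
  rw [LBasic_cmp, LBasic_cmp, h.vis 0 h0, ← h'.vis 0 h0', ← LBasic_cmp, ← LBasic_cmp, he] at h5
  have h6 := Ch.norm_inv_sub (h'.det (0 + n)) (h'.up _).1 (h'.up _).2
    ((A' (0 + n)).pm (cmp (fwc F A' 0) n (γ s, s))) ((A' (0 + n)).pm (cmp (fwc F A' 0) n (γ' s₀, s₀)))
  rw [LBasic_ia, LBasic_ia] at h6
  have h7 := h'.low (0 + n) 0 h0'
  rw [show ((0 : ℤ) + n - 0).natAbs = n by omega] at h7
  rw [he] at h4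
  have h8 := norm_le_norm_add_norm_sub' (cmp (fwc F A' 0) n (γ s, s)) (cmp (fwc F A' 0) n (γ' s₀, s₀))
  have h9 := norm_nonneg (cmp (fwc F A' 0) n (γ s, s) - cmp (fwc F A' 0) n (γ' s₀, s₀))
  generalize ‖cmp (fwc F A' 0) n (γ s, s) - cmp (fwc F A' 0) n (γ' s₀, s₀)‖ = D at h6 h8 h9
  have hω : 0 ≤ ome Λ ^ n := pow_nonneg (zero_le_one.trans h.small.one_le_ome) n
  have h10 : ome Λ ^ n * the Λ ^ n ≤ 1 := by
    rw [← mul_pow]
    exact pow_le_one₀ (mul_nonneg (zero_le_one.trans h.small.one_le_ome) h.small.the_pos.le)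
      h.small.ome_the.le
  rw [mem_ball, dist_eq_norm] at h3
  have h11 := mul_le_mul_of_nonneg_right h7 h9
  have h12 := mul_le_mul_of_nonneg_left
    (show ‖(A' (0 + n)).det‖ * D ≤ 4 * (the Λ ^ n * ‖s - s₀‖) by linarith) hω
  have h13 := mul_le_mul_of_nonneg_right h10 (norm_nonneg (s - s₀))
  have h14 : c₀ * D ≤ c₀ * (1 - r) := by nlinarith
  have h15 := le_of_mul_le_mul_left h14 hc
  linarith [h1 n]

/-- The stable graph leaves `K⁻` by a definite amount. Let `P s = A₀ (γ s, s)`, `s₀` the second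
coordinate of `A₀⁻¹ x`. If `Gm ≤ d^(-k)` on `P (closedBall 0 (1/2))`, then `F^(-k) ∘ P` is bounded
there by the `R` of `proper 1` (`Gp = 0` by `mem_Kp`), so its derivative at `s₀` is at most `4 R`
(Cauchy). On the other hand `Chain.dconeN` for the reversed chain (`κ = 1/10`, vector
`sw (deriv γ s₀, 1)`), `Ch.norm_vec_ge` and `low` bound it below by
`c₀ / (2 (ome Λ * the Λ) ^ k)`. Choose `k` large. -/
theorem leaf_active (hA : Aut F a) (hp : HalfG F d Gp Gm) (hm : HalfG F⁻¹ d Gm Gp)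
    (Λ b δ c₀ : ℝ) : ∃ g₀ > 0, ∀ (A₀ : Ch) (x : E) (A : ℤ → Ch) (T : Set ℤ) (γ : ℂ → ℂ),
      RChain F Λ b δ c₀ A₀ x A T → (0 : ℤ) ∈ T → x ∈ Kp F → IsSG (fwc F A 0) γ →
      ∃ s : ℂ, ‖s‖ ≤ 1 / 2 ∧ g₀ ≤ Gm (A₀.pm (γ s, s)) := by
  by_cases hS : Small Λ b δ ∧ 0 < c₀
  swap
  · exact ⟨1, one_pos, fun _ _ _ _ _ h => absurd ⟨h.small, h.pos⟩ hS⟩
  obtain ⟨hS, hc⟩ := hS
  obtain ⟨R, hR⟩ := hp.proper 1
  have hR0 : 0 < 8 * (|R| + 1) := by positivity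
  obtain ⟨k, hk⟩ := exists_pow_lt_of_lt_one (div_pos hc hR0) hS.ome_the
  rw [lt_div_iff₀ hR0] at hk
  have hd : 0 < d ^ k := pow_pos (one_pos.trans hp.one_lt) k
  refine ⟨(d ^ k)⁻¹, inv_pos.2 hd, fun A₀ x A T γ h h0 hx hγ => ?_⟩
  by_contra hcon
  push Not at hcon
  have hA0 := h.vis 0 h0
  have hQ : ∀ s : ℂ, ((rvc A (0 + k)).pm * cmp (fwc F⁻¹ (rvc A) 0) k) (s, γ s) =
      (F⁻¹ ^ k) (A₀.pm (γ s, s)) := fun s => by
    rw [Equiv.Perm.mul_apply, LBasic_cmp, ← hA0]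
    exact congrArg _ (LBasic_rvc h.det 0 (γ s, s))
  have hb : ∀ s : ℂ, ‖s‖ ≤ 1 / 2 →
      ‖((rvc A (0 + k)).pm * cmp (fwc F⁻¹ (rvc A) 0) k) (s, γ s)‖ ≤ |R| + 1 := fun s hs => by
    have h1 := h.mem_Kp hx (hγ.stay s (mem_ball_zero_iff.2 (by linarith)))
    rw [hA0, ← mem_Kp_zpow (-(k : ℤ)), ← inv_zpow', zpow_natCast, ← hp.zero_iff] at h1
    rw [hQ]
    refine (hR _ (h1.le.trans zero_le_one) ?_).trans (by linarith [le_abs_self R])
    rw [hm.nequi]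
    exact (mul_le_mul_of_nonneg_left (hcon s hs).le hd.le).trans (mul_inv_cancel₀ hd.ne').le
  have ho := h.orb 0
  have ho1 := hγ.uniq _ (((norm_snd_le _).trans ho).trans_lt (by norm_num)) (h.stay 0)
  have ho2 := h.rev.stay 0
  have ho3 : (rvc A 0).pm⁻¹ ((F⁻¹ ^ (0 : ℤ)) x) = sw ((A 0).pm⁻¹ ((F ^ (0 : ℤ)) x)) := by
    rw [Equiv.Perm.inv_eq_iff_eq, LBasic_rvc h.det]
    simp
  rw [ho3, sw_apply, ho1] at ho2
  have hs₀ := (norm_snd_le _).trans ho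
  generalize ((A 0).pm⁻¹ ((F ^ (0 : ℤ)) x)).2 = s₀ at ho2 hs₀
  have hC := h.rev.chain 0
  have hD : Differentiable ℂ ⇑((rvc A (0 + k)).pm * cmp (fwc F⁻¹ (rvc A) 0) k) :=
    (rvc A (0 + k)).diff.comp (hC.diff k).1
  have hs1 : s₀ ∈ ball (0 : ℂ) 1 := mem_ball_zero_iff.2 (by linarith)
  have hsub : closedBall s₀ (1 / 4) ⊆ closedBall 0 (1 / 2) :=
    closedBall_subset_closedBall' (by rw [dist_zero_right]; linarith)
  have h1 := Complex.norm_deriv_le_of_forall_mem_sphere_norm_le (c := s₀) (R := 1 / 4)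
    (f := fun s => ((rvc A (0 + k)).pm * cmp (fwc F⁻¹ (rvc A) 0) k) (s, γ s)) (by norm_num)
    ((hD.comp_differentiableOn (differentiableOn_id.prodMk hγ.gr.1)).diffContOnCl_ball
      (hsub.trans (closedBall_subset_ball (by norm_num))))
    fun z hz => hb z (mem_closedBall_zero_iff.1 (hsub (sphere_subset_closedBall hz)))
  have h2 := ((hD (s₀, γ s₀)).hasFDerivAt.comp_hasDerivAt s₀ ((hasDerivAt_id' s₀).prodMk
    (hγ.gr.1.differentiableAt (isOpen_ball.mem_nhds hs1)).hasDerivAt)).deriv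
  rw [BAut_comp (rvc A (0 + k)).diff (hC.diff k).1, Ch.fderiv_pm (h.rev.det _)] at h2
  have h3 := (hC.dconeN (κ := 1 / 10) (n := k) (v := (1, deriv γ s₀)) (by norm_num) (by norm_num)
    (fun j _ => ho2 j) (by simpa using hγ.gr.norm_deriv_le hs1)).2
  generalize fderiv ℂ (⇑(cmp (fwc F⁻¹ (rvc A) 0) k)) (s₀, γ s₀) (1, deriv γ s₀) = w at h2 h3
  have h4 := (rvc A (0 + k)).norm_vec_ge (h.rev.up _).1 (h.rev.up _).2 w
  have h5 := h.rev.low (0 + k) 0 (by simpa using h0)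
  rw [show ((0 : ℤ) + k - 0).natAbs = k by omega] at h5
  rw [← h2] at h4
  have h6 : ‖(rvc A (0 + k)).det‖ * ‖w‖ ≤ 8 * (|R| + 1) := by
    refine h4.trans ?_
    have h7 : (|R| + 1) / (1 / 4) = 4 * (|R| + 1) := by ring
    rw [h7] at h1
    exact (mul_le_mul_of_nonneg_left h1 (by norm_num)).trans (le_of_eq (by ring))
  have hω : 0 ≤ ome Λ ^ k := pow_nonneg (zero_le_one.trans hS.one_le_ome) k
  have hθ : 0 ≤ the Λ ^ k := pow_nonneg hS.the_pos.le k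
  have h8 : 1 ≤ the Λ ^ k * ‖w‖ := by
    refine le_trans ?_ (mul_le_mul_of_nonneg_left (norm_fst_le w) hθ)
    simpa using h3
  have h9 := mul_le_mul_of_nonneg_left h8 (mul_nonneg (norm_nonneg (rvc A (0 + k)).det) hω)
  have h10 := mul_le_mul_of_nonneg_left h6 (mul_nonneg hω hθ)
  rw [mul_pow] at hk
  nlinarith

/-- A thin region along the unstable graph outside `K⁻`. Take `g₀` from `leaf_active`, `c₁` with
`|Gm (A₀ z) - Gm (A₀ w)| ≤ g₀ / 2` for `‖w‖ ≤ 1`, `‖z - w‖ < c₁` (`HalfG.unif`), `c, n₀` from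
`Chain.sbar`, a visiting time `τ = -n` far in the past, the stable graph there (`RChain.shift`) and
`w = (γ s, s)` on it. The points `(u, η₀ u)` have backward orbits in the ball (`cmp_rev`), with
small second coordinate (`Chain.stay_fst` for the reversed chain), and in `K⁻` (`mem_Kp` for the
reversed chain), so not in `ball w c₁`. `g' = d^(-n) g₀ / 2`. -/
theorem sbar (hA : Aut F a) (hp : HalfG F d Gp Gm) (hm : HalfG F⁻¹ d Gm Gp)
    (h : RChain F Λ b δ c₀ A₀ x A T) (hT : Rec T) (hx : x ∈ Kp F) (hx' : x ∈ Kp F⁻¹)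
    {η₀ : ℂ → ℂ} (hη : IsSG (fwc F⁻¹ (rvc A) 0) η₀) : ∃ c > 0, c ≤ 1 ∧ ∀ ε > 0,
      ∃ (η' : ℂ → ℂ) (g' : ℝ), 0 < g' ∧ DifferentiableOn ℂ η' (ball 0 1) ∧
        ∀ u ∈ ball (0 : ℂ) 1, η' u ≠ η₀ u ∧ ‖η' u - η₀ u‖ ≤ ε ∧
          ∀ t : ℂ, ‖t‖ ≤ c → g' ≤ Gm (A₀.pm (u, η' u + t * (η' u - η₀ u))) := by
  obtain ⟨g₀, hg₀, hg⟩ := leaf_active hA hp hm Λ b δ c₀
  have hA0 := h.vis 0 hT.1
  have hL : ∀ z w : E, ‖A₀.pm z - A₀.pm w‖ ≤ 2 * 1 * ‖z - w‖ :=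
    hA0 ▸ Ch.norm_pm_sub (h.det 0) (h.up 0).1 (h.up 0).2
  obtain ⟨r, hr, hu⟩ := hm.unif (‖A₀.pm 0‖ + 2) (half_pos hg₀)
  obtain ⟨c, hc, n₀, hs⟩ := Chain.sbar h.small (half_pos hr)
  refine ⟨min c 1, lt_min hc one_pos, min_le_right _ _, fun ε hε => ?_⟩
  obtain ⟨m, hm'⟩ := exists_pow_lt_of_lt_one (half_pos hε) h.small.the_lt
  obtain ⟨k, hk, hk'⟩ := hT.2.2 (-((n₀ + m : ℕ) : ℤ))
  obtain ⟨n, rfl⟩ : ∃ n : ℕ, k = 0 - n := ⟨(-k).toNat, by omega⟩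
  have hAn := h.vis _ hk
  obtain ⟨γ, hγ⟩ := (h.chain (0 - n)).exists_sg
  have e : fwc F (fun j => A (0 - n + j)) 0 = fwc F A (0 - n) := by
    funext j
    simp only [fwc, zero_add, add_assoc]
  obtain ⟨s, hs1, hs2⟩ := hg A₀ _ _ _ γ (h.shift (0 - n)) (by simpa using hk)
    ((mem_Kp_zpow _).2 hx) (e ▸ hγ)
  have hs3 : s ∈ ball (0 : ℂ) 1 := mem_ball_zero_iff.2 (by linarith)
  have hw : ‖((γ s, s) : E)‖ ≤ 1 / 2 := by
    rw [Prod.norm_def]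
    exact max_le ((hγ.small s hs3).trans (by norm_num)) hs1
  have hG : ∀ y ∈ ball ((γ s, s) : E) (r / 2), g₀ / 2 ≤ Gm (A₀.pm y) := fun y hy => by
    rw [mem_ball, dist_eq_norm, norm_sub_rev] at hy
    have h1 := hL (γ s, s) 0
    rw [sub_zero] at h1
    have h2 := hu (A₀.pm (γ s, s)) (A₀.pm y)
      (by linarith [norm_le_norm_add_norm_sub' (A₀.pm (γ s, s)) (A₀.pm 0)])
      (by linarith [hL (γ s, s) y])
    linarith [(abs_le.1 h2).2]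
  have hrev : ∀ (j : ℕ) (z : E), cmp (fwc F⁻¹ (rvc A) 0) j (sw z) =
      sw ((cmp (fwc F A (0 - j)) j)⁻¹ z) := fun j z => by
    simpa only [neg_zero] using cmp_rev (F := F) h.det 0 j z
  obtain ⟨η', h1, h2⟩ := hs _ (h.chain (0 - n)) n (by omega) _ hw (hγ.stay s hs3) η₀ fun u hu => by
    have h1 : Stay (fwc F⁻¹ (rvc A) 0) (sw (u, η₀ u)) := hη.stay u hu
    have h2 := h1.shf n
    rw [hrev, shf_fwc] at h2
    refine ⟨((h.rev.chain _).stay_fst h2).trans (by norm_num), fun h3 => ?_, fun j hj => ?_⟩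
    · have h4 := h.rev.mem_Kp hx' h2
      rw [LBasic_rvc h.det, show -((0 : ℤ) + n) = 0 - n by ring, hAn, ← hm.zero_iff] at h4
      linarith [hG _ h3]
    · obtain ⟨i, rfl⟩ := Nat.exists_eq_add_of_le hj
      have h4 := h1 i
      rw [hrev, norm_sw] at h4
      rw [cmp_add, shf_fwc, show (0 : ℤ) - ((j + i : ℕ) : ℤ) + j = 0 - i by push_cast; ring,
        mul_inv_rev, Equiv.Perm.mul_apply, LBasic_ai]
      exact h4
  have hd : 0 < d ^ n := pow_pos (one_pos.trans hp.one_lt) n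
  refine ⟨η', g₀ / 2 / d ^ n, by positivity, h1, fun u hu => ⟨(h2 u hu).1,
    (h2 u hu).2.1.trans ?_, fun t ht => ?_⟩⟩
  · have := pow_le_pow_of_le_one h.small.the_pos.le h.small.the_lt.le (show m ≤ n by omega)
    linarith
  · have h3 := hG _ ((h2 u hu).2.2 t (ht.trans (min_le_left _ _)))
    have h4 := LBasic_cmp F A (0 - n) n
      ((cmp (fwc F A (0 - n)) n)⁻¹ (u, η' u + t * (η' u - η₀ u)))
    rw [LBasic_ai, sub_add_cancel, hA0, hAn] at h4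
    rw [div_le_iff₀ hd, mul_comm, ← hm.nequi, h4, inv_pow, LBasic_ia]
    exact h3

end Pool.Agent.Lib.MP_7b5e47_an.Hn
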