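import Pool.Agent.Lib.MP_7b5e47_an.Hn.LPot

namespace Pool.Agent.Lib.MP_7b5e47_an.Hn

open Filter Topology Set Metric MeasureTheory

variable {μ : Measure E} [IsFiniteMeasure μ] {R : Set E} {γ : E → ℂ → ℂ} {zc : E → E} {C β : ℝ}

omit [IsFiniteMeasure μ] in
theorem LPot2_an (h : Leaves μ R γ zc C β) {u s : ℂ → ℂ} {t : ℂ} (hu : AnalyticAt ℂ u t)
    (hs : AnalyticAt ℂ s t) (h1 : ‖s t‖ ≤ 1 / 2) {x : E} (hx : x ∈ R) :
    AnalyticAt ℂ (fun t => u t - γ x (s t)) t :=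
  hu.sub (((h.gr x hx).1.analyticAt
    (isOpen_ball.mem_nhds (mem_ball_zero_iff.2 (by linarith)))).comp hs)

/-- a large set of leaves at positive distance from the curve -/
theorem LPot2_tau (h : Leaves μ R γ zc C β) {Q : Set ℂ} (hc : IsCompact Q) {u s : ℂ → ℂ}
    (hQ : ∀ t ∈ Q, AnalyticAt ℂ u t ∧ AnalyticAt ℂ s t ∧ ‖s t‖ ≤ 1 / 2)
    (h0 : μ {x | x ∈ R ∧ ∃ t ∈ Q, u t = γ x (s t)} = 0) :
    ∃ (τ : ℝ) (R' : Set E), 0 < τ ∧ R' ⊆ R ∧ MeasurableSet R' ∧ μ.real R ≤ 2 * μ.real R' ∧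
      ∀ x ∈ R', ∀ t ∈ Q, τ ≤ ‖u t - γ x (s t)‖ := by
  let S : ℕ → Set E := fun n => {x | x ∈ R ∧ ∀ t ∈ Q, 1 / ((n : ℝ) + 1) ≤ ‖u t - γ x (s t)‖}
  have h1 : Monotone S := fun m n hmn x hx =>
    ⟨hx.1, fun t ht => (Nat.one_div_le_one_div hmn).trans (hx.2 t ht)⟩
  have h2 : R \ {x | x ∈ R ∧ ∃ t ∈ Q, u t = γ x (s t)} ⊆ ⋃ n, S n := fun x hx => by
    obtain ⟨a, ha, ha'⟩ := hc.exists_forall_le' (f := fun t => ‖u t - γ x (s t)‖) (a := 0)
      (fun t ht => (LPot2_an h (hQ t ht).1 (hQ t ht).2.1 (hQ t ht).2.2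
        hx.1).continuousAt.norm.continuousWithinAt)
      fun t ht => norm_pos_iff.2 (sub_ne_zero.2 fun e => hx.2 ⟨hx.1, t, ht, e⟩)
    obtain ⟨n, hn⟩ := exists_nat_one_div_lt ha
    exact mem_iUnion.2 ⟨n, hx.1, fun t ht => hn.le.trans (ha' t ht)⟩
  have h3 : μ.real R ≤ μ.real (⋃ n, S n) := by
    refine le_trans (le_of_eq ?_) (measureReal_mono h2)
    rw [measureReal_def, measureReal_def, measure_sdiff_null h0]
  have h4 : 0 < μ.real R := ENNReal.toReal_pos h.ne (measure_ne_top _ _)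
  have h5 : Tendsto (fun n => μ.real (S n)) atTop (𝓝 (μ.real (⋃ n, S n))) :=
    (ENNReal.tendsto_toReal (measure_ne_top _ _)).comp (tendsto_measure_iUnion_atTop h1)
  obtain ⟨n, hn⟩ := (h5.eventually (lt_mem_nhds (show μ.real R / 2 < _ by linarith))).exists
  refine ⟨_, S n, Nat.one_div_pos_of_nat, fun x hx => hx.1, ?_, by linarith, fun x hx => hx.2⟩
  have h6 : IsClosed (⋂ t ∈ Q, {x : R | 1 / ((n : ℝ) + 1) ≤ ‖u t - γ x (s t)‖}) :=
    isClosed_biInter fun t ht => isClosed_le continuous_const (continuous_const.sub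
      (h.continuousOn ((hQ t ht).2.2.trans (by norm_num))).domRestrict).norm
  convert MeasurableSet.subtype_image h.meas h6.measurableSet using 1
  ext x
  simp only [S, mem_image, mem_iInter, mem_ofPred_eq, Subtype.exists, exists_and_right,
    exists_eq_right, exists_prop]

/-- A curve which starts near the leaves and can only leave through `‖u‖ = 1/2`, up to a small
barrier, meets a leaf transversally. Let `H` be given by `pot_le`, `B = |H| + 1`, `e = 1 / B`.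
Otherwise by `hit_null` and compactness of `Q = closure W` there is `τ > 0` such that
`R' = {x ∈ R | ∀ t ∈ Q, τ ≤ ‖u t - γ x (s t)‖}` (closed in `R` by `continuousOn`) has at least half
of the measure of `R`. `P t = (∫ x in R', -log ‖u t - γ x (s t)‖) / μ.real R'` is continuous on `Q`
(dominated convergence) and `MV` on `W` (`MV.integral` for the integrand cut off by the indicator
of `R'`; near `t` the functions `u - γ x ∘ s` stay at least `τ / 2` in norm, uniformly in `x`, since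
the `γ x` are `1/10`-Lipschitz). `P z ≥ log (100/3)`, `P ≤ log (100/49)` where `‖u‖ = 1/2`, `P ≤ H`
on `Q`. Apply `barrier` to `P - B * bar`. -/
theorem Leaves.pot (h : Leaves μ R γ zc C β) : ∃ e > 0, ∀ (O : Set ℂ) (u s : ℂ → ℂ)
    (bar : ℂ → ℝ) (z : ℂ), IsOpen O → Bornology.IsBounded O → z ∈ O →
    (∀ t ∈ closure (connectedComponentIn O z), AnalyticAt ℂ u t ∧ AnalyticAt ℂ s t ∧
      ‖u t‖ ≤ 1 / 2 ∧ ‖s t‖ ≤ 1 / 2 ∧ 0 ≤ bar t ∧ (t ∉ O → ‖u t‖ = 1 / 2 ∨ 1 ≤ bar t)) →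
    ContinuousOn bar (closure (connectedComponentIn O z)) →
    (∀ t ∈ connectedComponentIn O z, MV bar t) → ‖u z‖ ≤ 1 / 50 → bar z ≤ e →
    ∃ t ∈ closure (connectedComponentIn O z), ∃ x ∈ R,
      u t = γ x (s t) ∧ deriv u t ≠ deriv (γ x) (s t) * deriv s t := by
  obtain ⟨H, hH⟩ := h.pot_le
  have hB : 0 < |H| + 1 := by positivity
  refine ⟨1 / (|H| + 1), by positivity, fun O u s bar z hO hb hz hQ hbc hbm hu hbz => ?_⟩
  by_contra hn
  push Not at hn
  have hW : IsOpen (connectedComponentIn O z) := hO.connectedComponentIn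
  have hzQ : z ∈ closure (connectedComponentIn O z) := subset_closure (mem_connectedComponentIn hz)
  obtain ⟨τ, R', hτ, hR, hm, h2, h3⟩ := LPot2_tau h
    (hb.subset (connectedComponentIn_subset O z)).isCompact_closure
    (fun t ht => ⟨(hQ t ht).1, (hQ t ht).2.1, (hQ t ht).2.2.2.1⟩)
    (h.hit_null (fun t ht => ⟨(hQ t ht).1, (hQ t ht).2.1, (hQ t ht).2.2.2.1⟩) hn)
  have hm0 : 0 < μ.real R' := by
    have : 0 < μ.real R := ENNReal.toReal_pos h.ne (measure_ne_top _ _)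
    linarith
  have hγ : ∀ x ∈ R', ∀ t ∈ closure (connectedComponentIn O z), ‖γ x (s t)‖ ≤ 1 / 100 :=
    fun x hx t ht => h.small x (hR hx) _ (mem_ball_zero_iff.2 (by linarith [(hQ t ht).2.2.2.1]))
  have hne : ∀ x ∈ R', ∀ t ∈ closure (connectedComponentIn O z), u t - γ x (s t) ≠ 0 :=
    fun x hx t ht => norm_pos_iff.1 (hτ.trans_le (h3 x hx t ht))
  have han : ∀ x ∈ R', ∀ t ∈ closure (connectedComponentIn O z),
      AnalyticAt ℂ (fun t => u t - γ x (s t)) t :=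
    fun x hx t ht => LPot2_an h (hQ t ht).1 (hQ t ht).2.1 (hQ t ht).2.2.2.1 (hR hx)
  have hbd : ∀ x ∈ R', ∀ t ∈ closure (connectedComponentIn O z),
      |(-Real.log ‖u t - γ x (s t)‖)| ≤ -Real.log τ := fun x hx t ht => by
    rw [abs_of_nonneg (neg_nonneg.2 (Real.log_nonpos (norm_nonneg _) ((norm_sub_le _ _).trans
      (by linarith [(hQ t ht).2.2.1, hγ x hx t ht]))))]
    exact neg_le_neg (Real.log_le_log hτ (h3 x hx t ht))
  have hcx : ∀ t ∈ closure (connectedComponentIn O z),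
      ContinuousOn (fun x => -Real.log ‖u t - γ x (s t)‖) R' := fun t ht =>
    ((continuousOn_const.sub ((h.continuousOn ((hQ t ht).2.2.2.1.trans (by norm_num))).mono
      hR)).norm.log fun x hx => norm_ne_zero_iff.2 (hne x hx t ht)).neg
  have hi : ∀ t ∈ closure (connectedComponentIn O z),
      IntegrableOn (fun x => -Real.log ‖u t - γ x (s t)‖) R' μ := fun t ht =>
    Integrable.of_bound ((hcx t ht).aestronglyMeasurable hm) _
      ((ae_restrict_mem hm).mono fun x hx => hbd x hx t ht)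
  have hP : ContinuousOn (fun t => ∫ x in R', -Real.log ‖u t - γ x (s t)‖ ∂μ)
      (closure (connectedComponentIn O z)) :=
    continuousOn_of_dominated (fun t ht => (hi t ht).1)
      (fun t ht => (ae_restrict_mem hm).mono fun x hx => hbd x hx t ht) (integrable_const _)
      ((ae_restrict_mem hm).mono fun x hx t ht => ((han x hx t ht).continuousAt.norm.log
        (norm_ne_zero_iff.2 (hne x hx t ht))).neg.continuousWithinAt)
  have hP' : ∀ t ∈ connectedComponentIn O z,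
      MV (fun t => ∫ x in R', -Real.log ‖u t - γ x (s t)‖ ∂μ) t := fun t ht => by
    obtain ⟨r, hr, hr'⟩ := Metric.isOpen_iff.1 hW t ht
    simp only [← integral_subtype_comap hm]
    exact MV.integral (φ := fun (x : R') t => -Real.log ‖u t - γ x (s t)‖) hr
      (fun w hw => (hcx w (subset_closure (hr' hw))).domRestrict.measurable) fun x w hw =>
      ⟨((han x x.2 w (subset_closure (hr' hw))).harmonicAt_log_norm
        (hne x x.2 w (subset_closure (hr' hw)))).neg, hbd x x.2 w (subset_closure (hr' hw))⟩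
  obtain ⟨ζ, hζ, hζO, hle⟩ := barrier
    (φ := fun t => (∫ x in R', -Real.log ‖u t - γ x (s t)‖ ∂μ) - (|H| + 1) * μ.real R' * bar t)
    hO hb hz (hP.sub (continuousOn_const.mul hbc))
    fun t ht => ((hP' t ht).sub ((hbm t ht).const_mul _)).smv
  have h4 : 2 * μ.real R' ≤ ∫ x in R', -Real.log ‖u z - γ x (s z)‖ ∂μ := by
    refine setIntegral_ge_of_const_le_real hm (measure_ne_top _ _) (fun x hx => ?_) (hi z hzQ)
    have e : ‖u z - γ x (s z)‖ ≤ (2 ^ 5)⁻¹ :=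
      (norm_sub_le _ _).trans (by linarith [hγ x hx z hzQ])
    have e' := Real.log_le_log (norm_pos_iff.2 (hne x hx z hzQ)) e
    rw [Real.log_inv, Real.log_pow] at e'
    push_cast at e'
    linarith [Real.log_two_gt_d9]
  have h5 : (|H| + 1) * μ.real R' * bar z ≤ μ.real R' := by
    rw [le_div_iff₀ hB] at hbz
    nlinarith
  have h6 : 0 ≤ (|H| + 1) * μ.real R' := by positivity
  rcases (hQ ζ hζ).2.2.2.2.2 hζO with e | e
  · have h7 : ∫ x in R', -Real.log ‖u ζ - γ x (s ζ)‖ ∂μ ≤ μ.real R' * (6 / 7) := by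
      rw [← smul_eq_mul, ← setIntegral_const]
      refine setIntegral_mono_on (hi ζ hζ) (integrableOn_const (measure_ne_top _ _)) hm
        fun x hx => ?_
      have e1 : ((10 / 7 : ℝ) ^ 2)⁻¹ ≤ ‖u ζ - γ x (s ζ)‖ :=
        le_trans (by linarith [hγ x hx ζ hζ]) (norm_sub_norm_le _ _)
      have e2 := Real.log_le_log (by positivity) e1
      rw [Real.log_inv, Real.log_pow] at e2
      push_cast at e2
      linarith [Real.log_le_sub_one_of_pos (show (0 : ℝ) < 10 / 7 by norm_num)]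
    have h8 := mul_nonneg h6 (hQ ζ hζ).2.2.2.2.1
    linarith
  · have h7 := hH R' hR hm h2 (u ζ) (s ζ) τ (hQ ζ hζ).2.2.1 (hQ ζ hζ).2.2.2.1 hτ
      fun x hx => h3 x hx ζ hζ
    have h8 := le_mul_of_one_le_right h6 e
    have h9 := mul_le_mul_of_nonneg_right (le_abs_self H) hm0.le
    linarith

/-- logarithmic barriers -/
theorem log_barrier {h : ℂ → ℂ} {W : Set ℂ} {c M : ℝ} (hc : 0 < c) (hM : 1 < M)
    (hh : ∀ t ∈ closure W, AnalyticAt ℂ h t ∧ c ≤ ‖h t‖) :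
    ContinuousOn (fun t => Real.log (‖h t‖ / c) / Real.log M) (closure W) ∧
    (∀ t ∈ W, MV (fun t => Real.log (‖h t‖ / c) / Real.log M) t) ∧
    ∀ t ∈ closure W, 0 ≤ Real.log (‖h t‖ / c) / Real.log M ∧
      (c * M ≤ ‖h t‖ → 1 ≤ Real.log (‖h t‖ / c) / Real.log M) ∧
      ∀ B : ℝ, ‖h t‖ ≤ B → Real.log (‖h t‖ / c) / Real.log M ≤ Real.log (B / c) / Real.log M := by
  have hM' := Real.log_pos hM
  have h0 : ∀ t ∈ closure W, 0 < ‖h t‖ := fun t ht => hc.trans_le (hh t ht).2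
  refine ⟨fun t ht => ?_, fun t ht => ?_, fun t ht => ⟨?_, fun e => ?_, fun B e => ?_⟩⟩
  · exact ((((hh t ht).1.continuousAt.norm.div_const c).log
      (div_pos (h0 t ht) hc).ne').div_const _).continuousWithinAt
  · have e : (fun t => Real.log (‖h t‖ / c) / Real.log M) =
        fun t => (Real.log M)⁻¹ * Real.log ‖h t / c‖ := by
      funext t
      rw [norm_div, Complex.norm_real, Real.norm_of_nonneg hc.le, div_eq_inv_mul]
    rw [e]
    exact (MV.log_norm (h := fun t => h t / c) (hh t (subset_closure ht)).1.div_const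
      (div_ne_zero (norm_pos_iff.1 (h0 t (subset_closure ht)))
        (Complex.ofReal_ne_zero.2 hc.ne'))).const_mul _
  · exact div_nonneg (Real.log_nonneg ((one_le_div hc).2 (hh t ht).2)) hM'.le
  · exact (one_le_div hM').2 (Real.log_le_log (zero_lt_one.trans hM) ((le_div_iff₀' hc).2 e))
  · exact div_le_div_of_nonneg_right (Real.log_le_log (div_pos (h0 t ht) hc)
      (div_le_div_of_nonneg_right e hc.le)) hM'.le

/-- a small disc on which `u` does not vanish, touching the zero set (`r₀` is the distance from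
`z₀` to the compact set of zeros in `closedBall ζ₀ (ρ / 2)`) -/
theorem pick_disc {u : ℂ → ℝ} {ζ₀ : ℂ} {ρ : ℝ} (hρ : 0 < ρ) (hc : ContinuousOn u (ball ζ₀ ρ))
    (h0 : u ζ₀ = 0) (hf : ∃ᶠ t in 𝓝 ζ₀, u t ≠ 0) {η : ℝ} (hη : 0 < η) :
    ∃ (z₀ y₀ : ℂ) (r₀ : ℝ), 0 < r₀ ∧ r₀ ≤ η ∧ ‖z₀ - ζ₀‖ ≤ η ∧ ‖y₀ - z₀‖ = r₀ ∧ u y₀ = 0 ∧
      (∃ᶠ t in 𝓝 y₀, u t ≠ 0) ∧ ∀ t ∈ ball z₀ r₀, u t ≠ 0 := by
  obtain ⟨z₀, h1, h2⟩ := (hf.and_eventually
    (ball_mem_nhds ζ₀ (lt_min hη (show 0 < ρ / 4 by positivity)))).exists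
  rw [dist_eq_norm, lt_min_iff] at h2
  have hZ : IsCompact (closedBall ζ₀ (ρ / 2) ∩ u ⁻¹' {0}) :=
    (isCompact_closedBall ζ₀ (ρ / 2)).of_isClosed_subset
      ((hc.mono (closedBall_subset_ball (by linarith))).preimage_isClosed_of_isClosed
        isClosed_closedBall isClosed_singleton) inter_subset_left
  have hζ : ζ₀ ∈ closedBall ζ₀ (ρ / 2) ∩ u ⁻¹' {0} := ⟨mem_closedBall_self (by positivity), h0⟩
  obtain ⟨y₀, hy, hm⟩ := hZ.exists_isMinOn ⟨ζ₀, hζ⟩ (f := fun t => ‖t - z₀‖) (by fun_prop)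
  have h3 : ‖y₀ - z₀‖ ≤ ‖z₀ - ζ₀‖ := (hm hζ).trans_eq (norm_sub_rev _ _)
  have h4 : 0 < ‖y₀ - z₀‖ := norm_pos_iff.2 (sub_ne_zero.2 fun e => h1 (e ▸ hy.2))
  have h5 : ∀ t ∈ ball z₀ ‖y₀ - z₀‖, u t ≠ 0 := fun t ht e => by
    rw [mem_ball, dist_eq_norm] at ht
    refine not_le.2 ht (hm ⟨?_, e⟩)
    rw [mem_closedBall, dist_eq_norm]
    linarith [norm_sub_le_norm_sub_add_norm_sub t z₀ ζ₀]
  refine ⟨z₀, y₀, _, h4, by linarith, h2.1.le, rfl, hy.2, ?_, h5⟩
  refine (mem_closure_iff_frequently.1 ?_).mono h5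
  rw [closure_ball _ h4.ne', mem_closedBall, dist_eq_norm]

end Pool.Agent.Lib.MP_7b5e47_an.Hn
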