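import Pool.Agent.Lib.MP_7b5e47_an.Hn.LBasic
import Pool.Agent.Lib.MP_7b5e47_an.Hn.LPot2

namespace Pool.Agent.Lib.MP_7b5e47_an.Hn

open Filter Topology Set Metric MeasureTheory

/-! Every active disc meets a stable leaf of the box transversally. -/

variable {F : Pm} {a : ℂ} {d : ℝ} {Gp Gm : E → ℝ} {μ : Measure E} {Λ b δ c₀ : ℝ} {A₀ : Ch}
  {R : Set E}

theorem LHit_log {ε α : ℝ} (h0 : 0 < ε) (h1 : ε ≤ 1) (hα : 0 < α) :
    ε ^ α * (1 - Real.log ε) ≤ (1 + 2 / α) * ε ^ (α / 2) := by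
  have a1 := Real.log_le_rpow_div (inv_pos.2 h0).le (half_pos hα)
  have a2 : 1 ≤ ε⁻¹ ^ (α / 2) := Real.one_le_rpow ((one_le_inv₀ h0).2 h1) (half_pos hα).le
  have a3 : ε ^ α * ε⁻¹ ^ (α / 2) = ε ^ (α / 2) := by
    rw [Real.inv_rpow h0.le, ← Real.rpow_neg h0.le, ← Real.rpow_add h0]
    congr 1
    ring
  have a4 : ε⁻¹ ^ (α / 2) / (α / 2) = 2 / α * ε⁻¹ ^ (α / 2) := by
    field_simp
  rw [Real.log_inv, a4] at a1
  rw [← a3]
  have a5 : 0 ≤ ε ^ α := by positivity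
  nlinarith [mul_le_mul_of_nonneg_left a1 a5, mul_le_mul_of_nonneg_left a2 a5]

theorem LHit_base {x : E} {A : ℤ → Ch} {T : Set ℤ} (h : RChain F Λ b δ c₀ A₀ x A T)
    (h0 : (0 : ℤ) ∈ T) : A₀.det ≠ 0 ∧ ‖A₀.U‖ ≤ 1 ∧ ‖A₀.S‖ ≤ 1 ∧ ‖A₀.pm⁻¹ x‖ ≤ 1 / 100 ∧
      Stay (fwc F A 0) (A₀.pm⁻¹ x) := by
  have e := h.vis 0 h0
  have a1 := h.det 0
  have a2 := h.up 0
  have a3 := h.orb 0
  have a4 := h.stay 0
  rw [e] at a1 a2 a3 a4
  rw [zpow_zero, Equiv.Perm.one_apply] at a3 a4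
  exact ⟨a1, a2.1, a2.2, a3, a4⟩

/-- Choose for each `x ∈ R` a chain and its stable graph (`Chain.exists_sg`); `zc = A₀.pm⁻¹`.
`dis` is `leaf_eq`. `tube`: on the tube of width `2 ε` about `γ x₁`, `Gp ≤ C (4 ε) ^ α` by `holder`
(`RChain.mem_Kp`, `Ch.norm_pm_sub`), then `HalfM.tube` and `ε^α (1 - log ε) ≤ C' ε^(α/2)`. -/
theorem Box.leaves (h : Sys F a d Gp Gm μ) (hB : Box F μ Λ b δ c₀ A₀ R) :
    ∃ (γ : E → ℂ → ℂ) (C β : ℝ), Leaves μ R γ (⇑A₀.pm⁻¹) C β ∧ ∀ x ∈ R, ∃ A T,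
      RChain F Λ b δ c₀ A₀ x A T ∧ Rec T ∧ IsSG (fwc F A 0) (γ x) := by
  have := h.prob
  have h1 : ∀ x, ∃ γ : ℂ → ℂ, x ∈ R → ∃ A T,
      RChain F Λ b δ c₀ A₀ x A T ∧ Rec T ∧ IsSG (fwc F A 0) γ := by
    intro x
    by_cases hx : x ∈ R
    · obtain ⟨A, T, hR, hT⟩ := (hB.ch x hx).2.2
      obtain ⟨γ, hγ⟩ := (hR.chain 0).exists_sg
      exact ⟨γ, fun _ => ⟨A, T, hR, hT, hγ⟩⟩
    · exact ⟨0, fun h => absurd h hx⟩
  choose γ hγ using h1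
  obtain ⟨x₀, hx₀⟩ := nonempty_of_measure_ne_zero hB.ne
  obtain ⟨A', T', hR', hT', -⟩ := hγ x₀ hx₀
  obtain ⟨hdet, hU, hS, -⟩ := LHit_base hR' hT'.1
  obtain ⟨C₁, hC₁⟩ := h.mp.tube A₀ hdet
  obtain ⟨C₂, α, hα, hC₂⟩ := h.gp.holder (‖A₀.pm 0‖ + 4)
  have hbase : ∀ x ∈ R, ‖(A₀.pm⁻¹ x).2‖ ≤ 1 / 2 ∧ γ x (A₀.pm⁻¹ x).2 = (A₀.pm⁻¹ x).1 := by
    intro x hx
    obtain ⟨A, T, hR, hT, hs⟩ := hγ x hx
    obtain ⟨-, -, -, a1, a2⟩ := LHit_base hR hT.1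
    have a3 := (norm_snd_le (A₀.pm⁻¹ x)).trans a1
    exact ⟨by linarith, (hs.uniq _ (by linarith) a2).symm⟩
  have hbd : ∀ z : E, ‖z‖ ≤ 2 → ‖A₀.pm z‖ ≤ ‖A₀.pm 0‖ + 4 := by
    intro z hz
    have a1 := Ch.norm_pm_sub hdet hU hS z 0
    have a2 := norm_sub_norm_le (A₀.pm z) (A₀.pm 0)
    rw [sub_zero] at a1
    linarith
  refine ⟨γ, |C₁| * (|C₂| * 4 ^ α) * (1 + 2 / α), α / 2,
    { meas := hB.meas
      ne := hB.ne
      gr := fun x hx => ?_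
      small := fun x hx => ?_
      dis := fun x hx x' hx' s hs he => ?_
      cont := A₀.diff_inv.continuous
      base := hbase
      pos := half_pos hα
      tube := fun x hx ε hε hε1 => ?_ }, hγ⟩
  · obtain ⟨A, T, -, -, hs⟩ := hγ x hx
    exact hs.gr
  · obtain ⟨A, T, -, -, hs⟩ := hγ x hx
    exact hs.small
  · obtain ⟨A, T, a1, a2, a3⟩ := hγ x hx
    obtain ⟨A', T', b1, b2, b3⟩ := hγ x' hx'
    exact leaf_eq a1 b1 a2.1 b2.1 a3 b3 hs he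
  · obtain ⟨A, T, hR, hT, hs⟩ := hγ x hx
    have a1 := hC₁ (γ x) ε (|C₂| * (4 * ε) ^ α) hs.gr.1 hs.gr.2.1 hε hε1 fun z hz1 hz2 => by
      have hz : z.2 ∈ ball (0 : ℂ) 1 := mem_ball_zero_iff.2 (by linarith)
      have b1 := GSG_norm_le hs.gr hz
      have b2 : ‖z - (γ x z.2, z.2)‖ ≤ 2 * ε := by
        rw [Prod.norm_def]
        refine max_le hz2 ?_
        simp only [Prod.snd_sub, sub_self, norm_zero]
        linarith
      have b3 := norm_sub_norm_le z (γ x z.2, z.2)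
      have b4 := hR.mem_Kp (hB.ch x hx).1 (hs.stay _ hz)
      rw [hR.vis 0 hT.1] at b4
      have b5 := Ch.norm_pm_sub hdet hU hS z (γ x z.2, z.2)
      refine (hC₂ _ _ (hbd z (by linarith)) (hbd _ (by linarith)) ((h.gp.zero_iff _).2 b4)).trans ?_
      exact mul_le_mul (le_abs_self _) (Real.rpow_le_rpow (norm_nonneg _) (by linarith) hα.le)
        (by positivity) (abs_nonneg _)
    have a2 := LHit_log hε (by linarith) hα
    have a3 : 0 ≤ 1 - Real.log ε := by linarith [Real.log_nonpos hε.le (by linarith)]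
    refine le_trans (measureReal_mono fun q hq => ?_) (a1.trans ?_)
    · exact ⟨(hbase q hq.1).1, hq.2⟩
    rw [Real.mul_rpow (by norm_num) hε.le]
    calc C₁ * (|C₂| * (4 ^ α * ε ^ α)) * (1 - Real.log ε)
        ≤ |C₁| * (|C₂| * (4 ^ α * ε ^ α)) * (1 - Real.log ε) := by
          gcongr
          exact le_abs_self _
      _ = |C₁| * (|C₂| * 4 ^ α) * (ε ^ α * (1 - Real.log ε)) := by ring
      _ ≤ |C₁| * (|C₂| * 4 ^ α) * ((1 + 2 / α) * ε ^ (α / 2)) :=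
          mul_le_mul_of_nonneg_left a2 (by positivity)
      _ = _ := by ring

theorem LHit_big (L M₀ : ℝ) {e : ℝ} (he : 0 < e) :
    ∃ M : ℝ, M₀ ≤ M ∧ 1 < M ∧ L / Real.log M ≤ e := by
  have h0 : 0 ≤ |L| / e := by positivity
  have h1 : |L| / e + 1 ≤ Real.log (max M₀ (Real.exp (|L| / e + 1))) := by
    rw [Real.le_log_iff_exp_le (lt_max_of_lt_right (Real.exp_pos _))]
    exact le_max_right _ _
  refine ⟨max M₀ (Real.exp (|L| / e + 1)), le_max_left _ _,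
    lt_max_of_lt_right (Real.one_lt_exp_iff.2 (by linarith)), ?_⟩
  rw [div_le_iff₀ (by linarith)]
  have h2 := mul_le_mul_of_nonneg_left h1 he.le
  rw [mul_add, mul_div_cancel₀ _ he.ne'] at h2
  linarith [le_abs_self L]

theorem LHit_bar {P : ℂ → E} {ζ₀ z₀ z : ℂ} {ρ r c ε M M₂ e : ℝ} {η₀ η' : ℂ → ℂ} (hρ : 0 < ρ)
    (hP : DifferentiableOn ℂ P (ball ζ₀ ρ)) (d₀ : DifferentiableOn ℂ η₀ (ball 0 1))
    (d₁ : DifferentiableOn ℂ η' (ball 0 1)) (hs : ∀ u ∈ ball (0 : ℂ) 1, ‖η₀ u‖ ≤ 1 / 100)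
    (hn : ∀ u ∈ ball (0 : ℂ) 1, η' u ≠ η₀ u ∧ ‖η' u - η₀ u‖ ≤ ε) (hc : 0 < c) (hr : 0 < r)
    (hM : 1 < M) (hM₂ : 1 < M₂) (hε : ε ≤ 1 / 10) (hε' : c * M * ε ≤ 1 / 4)
    (hfar : r * M₂ + ‖z₀ - ζ₀‖ ≤ ρ / 2)
    (hlow : ∀ t ∈ closedBall ζ₀ (ρ / 2), ‖P t‖ ≤ 1 / 2 →
      c ≤ ‖((P t).2 - η' (P t).1) / (η' (P t).1 - η₀ (P t).1)‖ ∧ r ≤ ‖t - z₀‖)
    (z1 : z ∈ ball ζ₀ (ρ / 2)) (z2 : ‖P z‖ < 1 / 2)
    (z3 : ‖((P z).2 - η' (P z).1) / (η' (P z).1 - η₀ (P z).1)‖ ≤ 2) (z4 : ‖z - z₀‖ ≤ 4 * r)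
    (e1 : Real.log (2 / c) / Real.log M ≤ e / 2) (e2 : Real.log 4 / Real.log M₂ ≤ e / 2) :
    ∃ (O : Set ℂ) (bar : ℂ → ℝ), IsOpen O ∧ Bornology.IsBounded O ∧ z ∈ O ∧
      (∀ t ∈ closure (connectedComponentIn O z), t ∈ ball ζ₀ ρ) ∧
      (∀ t ∈ closure (connectedComponentIn O z), AnalyticAt ℂ (fun t => (P t).1) t ∧
        AnalyticAt ℂ (fun t => (P t).2) t ∧ ‖(P t).1‖ ≤ 1 / 2 ∧ ‖(P t).2‖ ≤ 1 / 2 ∧ 0 ≤ bar t ∧
        (t ∉ O → ‖(P t).1‖ = 1 / 2 ∨ 1 ≤ bar t)) ∧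
      ContinuousOn bar (closure (connectedComponentIn O z)) ∧
      (∀ t ∈ connectedComponentIn O z, MV bar t) ∧ bar z ≤ e := by
  have s1 : closedBall ζ₀ (ρ / 2) ⊆ ball ζ₀ ρ := closedBall_subset_ball (half_lt_self hρ)
  set O : Set ℂ := ball ζ₀ (ρ / 2) ∩ P ⁻¹' ball 0 (1 / 2) with hO
  have hz : z ∈ O := ⟨z1, mem_ball_zero_iff.2 z2⟩
  have hcl : ∀ t ∈ closure (connectedComponentIn O z),
      t ∈ closedBall ζ₀ (ρ / 2) ∧ ‖P t‖ ≤ 1 / 2 := by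
    intro t ht
    have a1 : IsClosed (closedBall ζ₀ (ρ / 2) ∩ P ⁻¹' closedBall 0 (1 / 2)) :=
      (hP.continuousOn.mono s1).preimage_isClosed_of_isClosed isClosed_closedBall isClosed_closedBall
    have a2 := closure_minimal ((connectedComponentIn_subset O z).trans
      (inter_subset_inter ball_subset_closedBall (preimage_mono ball_subset_closedBall))) a1 ht
    exact ⟨a2.1, mem_closedBall_zero_iff.1 a2.2⟩
  have an : ∀ t ∈ closure (connectedComponentIn O z), AnalyticAt ℂ (fun t => (P t).1) t ∧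
      AnalyticAt ℂ (fun t => (P t).2) t ∧ (P t).1 ∈ ball (0 : ℂ) 1 := fun t ht =>
    ⟨hP.fst.analyticAt (isOpen_ball.mem_nhds (s1 (hcl t ht).1)),
      hP.snd.analyticAt (isOpen_ball.mem_nhds (s1 (hcl t ht).1)),
      mem_ball_zero_iff.2 (by linarith [norm_fst_le (P t), (hcl t ht).2])⟩
  obtain ⟨p1, p2, p3⟩ := log_barrier
    (h := fun t => ((P t).2 - η' (P t).1) / (η' (P t).1 - η₀ (P t).1))
    (W := connectedComponentIn O z) hc hM fun t ht => by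
      obtain ⟨a1, a2, a3⟩ := an t ht
      have a4 : AnalyticAt ℂ (fun t => η' (P t).1) t :=
        AnalyticAt.comp (g := η') (d₁.analyticAt (isOpen_ball.mem_nhds a3)) a1
      have a5 : AnalyticAt ℂ (fun t => η₀ (P t).1) t :=
        AnalyticAt.comp (g := η₀) (d₀.analyticAt (isOpen_ball.mem_nhds a3)) a1
      exact ⟨(a2.sub a4).div (a4.sub a5) (sub_ne_zero.2 (hn _ a3).1),
        (hlow t (hcl t ht).1 (hcl t ht).2).1⟩
  obtain ⟨q1, q2, q3⟩ := log_barrier (h := fun t => t - z₀) (W := connectedComponentIn O z) hr hM₂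
    fun t ht => ⟨by fun_prop, (hlow t (hcl t ht).1 (hcl t ht).2).2⟩
  have hzc : z ∈ closure (connectedComponentIn O z) := subset_closure (mem_connectedComponentIn hz)
  refine ⟨O, _, (hP.continuousOn.mono (ball_subset_ball (half_le_self hρ.le))).isOpen_inter_preimage
    isOpen_ball isOpen_ball, isBounded_ball.subset inter_subset_left, hz,
    fun t ht => s1 (hcl t ht).1, fun t ht => ?_, p1.add q1, fun t ht => (p2 t ht).add (q2 t ht), ?_⟩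
  · obtain ⟨a1, a2, a3⟩ := an t ht
    obtain ⟨b1, b2⟩ := hcl t ht
    obtain ⟨c1, c2, -⟩ := p3 t ht
    obtain ⟨f1, f2, -⟩ := q3 t ht
    refine ⟨a1, a2, (norm_fst_le _).trans b2, (norm_snd_le _).trans b2, add_nonneg c1 f1,
      fun hO' => ?_⟩
    by_cases g1 : t ∈ ball ζ₀ (ρ / 2)
    · have g2 : ‖P t‖ = 1 / 2 :=
        le_antisymm b2 (not_lt.1 fun g => hO' ⟨g1, mem_ball_zero_iff.2 g⟩)
      rw [Prod.norm_def] at g2
      rcases max_choice ‖(P t).1‖ ‖(P t).2‖ with g | g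
      · exact Or.inl (g ▸ g2)
      · refine Or.inr (le_add_of_le_of_nonneg (c2 ?_) f1)
        obtain ⟨k1, k2⟩ := hn _ a3
        have k3 := hs _ a3
        have k4 := norm_sub_norm_le (η' (P t).1) (η₀ (P t).1)
        have k5 := norm_sub_norm_le (P t).2 (η' (P t).1)
        rw [norm_div, le_div_iff₀ (norm_pos_iff.2 (sub_ne_zero.2 k1))]
        have k6 := mul_le_mul_of_nonneg_left k2 (by positivity : 0 ≤ c * M)
        rw [g] at g2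
        linarith
    · refine Or.inr (le_add_of_nonneg_of_le c1 (f2 ?_))
      rw [mem_ball_iff_norm, not_lt] at g1
      have k1 := norm_sub_le_norm_sub_add_norm_sub t z₀ ζ₀
      linarith
  · have a1 := (p3 z hzc).2.2 2 z3
    have a2 := (q3 z hzc).2.2 (4 * r) z4
    rw [mul_div_cancel_right₀ _ hr.ne'] at a2
    change _ + _ ≤ e
    linarith

/-- Let `e` be given by `Leaves.pot`. Take `x₁ ∈ R` with the property `reach`, its chain, the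
unstable graph `η₀` (stable graph of the reversed chain; `z₁ = A₀⁻¹ x₁` has `z₁.2 = η₀ z₁.1` and
norm at most `1/100`), `c` from `sbar`, `ε ≤ 1/10` with `log (2/c) / log M ≤ e/2` for
`M = 1 / (4 ε c)`, and `η', g'`. Let `ρ' = ρ / 2`; take `z₀, y₀, r₀` from `pick_disc` with `η` so
small that `log 4 / log (ρ' / r₀) ≤ e/2`. By `reach` for the disc `ball y₀ r₀` there are
arbitrarily large `n` and `z ∈ ball y₀ r₀` with `(u, s)(t) = A₀⁻¹ (F^n (X t))` close to `z₁` at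
`t = z`. For `n` large, `Gm (F^n (X t)) < g'` on `closedBall ζ₀ ρ'`, and `‖(u, s)(t)‖ > 1/2` on
`closedBall z₀ (r₀ / 2)` (there `Gp (F^n (X t)) = d^n Gp (X t)` is large). Put
`O = {t ∈ ball ζ₀ ρ' | ‖u t‖ < 1/2 ∧ ‖s t‖ < 1/2}` and let `bar` be the sum of two `log_barrier`s:
`h₁ t = (s t - η' (u t)) / (η' (u t) - η₀ (u t))` with constants `c, M` (`‖h₁‖ ≥ c` because
`Gm < g'`; `‖h₁‖ ≥ 1 / (4 ε)` if `‖s t‖ = 1/2`; `‖h₁ z‖ ≤ 2` by continuity, the value at `z₁` being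
`-1`) and `h₂ t = t - z₀` with constants `r₀ / 2, ρ' / r₀`. -/
theorem hit (h : Sys F a d Gp Gm μ) (hB : Box F μ Λ b δ c₀ A₀ R) {X : ℂ → E} {ζ₀ : ℂ} {ρ : ℝ}
    (hρ : 0 < ρ) (hX : DifferentiableOn ℂ X (ball ζ₀ ρ)) (hact : Act Gp X ζ₀) :
    ∃ (n : ℕ) (ζ : ℂ) (x : E) (A : ℤ → Ch) (T : Set ℤ) (γ : ℂ → ℂ), ζ ∈ ball ζ₀ ρ ∧
      RChain F Λ b δ c₀ A₀ x A T ∧ Rec T ∧ IsSG (fwc F A 0) γ ∧
      ‖(A₀.pm⁻¹ ((F ^ n) (X ζ))).2‖ ≤ 1 / 2 ∧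
      (A₀.pm⁻¹ ((F ^ n) (X ζ))).1 = γ (A₀.pm⁻¹ ((F ^ n) (X ζ))).2 ∧
      (deriv (fun t => A₀.pm⁻¹ ((F ^ n) (X t))) ζ).1 - deriv γ (A₀.pm⁻¹ ((F ^ n) (X ζ))).2 *
        (deriv (fun t => A₀.pm⁻¹ ((F ^ n) (X t))) ζ).2 ≠ 0 := by
  have := h.prob
  obtain ⟨γ, C, β, hL, hch⟩ := hB.leaves h
  obtain ⟨e, he, hpot⟩ := hL.pot
  obtain ⟨x₁, hx₁, hreach⟩ :=
    Measure.exists_mem_of_measure_ne_zero_of_ae hB.ne (ae_restrict_of_ae h.mp.reach)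
  obtain ⟨A, T, hR, hT, -⟩ := hch x₁ hx₁
  obtain ⟨hdet, -, -, hz₁, -⟩ := LHit_base hR hT.1
  obtain ⟨η₀, hη₀⟩ := (hR.rev.chain 0).exists_sg
  have hu₁ : (A₀.pm⁻¹ x₁).1 ∈ ball (0 : ℂ) 1 :=
    mem_ball_zero_iff.2 (by linarith [norm_fst_le (A₀.pm⁻¹ x₁)])
  have hon : (A₀.pm⁻¹ x₁).2 = η₀ (A₀.pm⁻¹ x₁).1 := by
    obtain ⟨-, -, -, -, a1⟩ := LHit_base hR.rev hT.neg.1
    rw [Ch.rev_pm hdet, mul_inv_rev, Equiv.Perm.mul_apply] at a1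
    exact hη₀.uniq _ (mem_ball_zero_iff.1 hu₁) a1
  obtain ⟨c, hc, -, hsb⟩ := sbar h.aut h.gp h.gm hR hT (hB.ch x₁ hx₁).1 (hB.ch x₁ hx₁).2.1 hη₀
  obtain ⟨M, hM0, hM, e1⟩ := LHit_big (Real.log (2 / c)) (10 / (4 * c)) (half_pos he)
  obtain ⟨M₂, -, hM₂, e2⟩ := LHit_big (Real.log 4) 0 (half_pos he)
  have hcM : 0 < c * M := by positivity
  obtain ⟨η', g', hg', d₁, hη'⟩ := hsb (1 / (4 * (c * M))) (by positivity)
  have hε : 1 / (4 * (c * M)) ≤ 1 / 10 := by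
    rw [div_le_iff₀ (by positivity)] at hM0
    exact one_div_le_one_div_of_le (by norm_num) (by linarith)
  have hXc : ContinuousOn X (ball ζ₀ ρ) := hX.continuousOn
  have hη : 0 < ρ / 2 / (M₂ + 3) := by positivity
  have hη2 : ρ / 2 / (M₂ + 3) * (M₂ + 3) = ρ / 2 := div_mul_cancel₀ _ (by positivity)
  obtain ⟨z₀, y₀, r₀, hr₀, r1, r2, r3, r4, r5, r6⟩ :=
    pick_disc (u := fun t => Gp (X t)) hρ (h.gp.cont.comp_continuousOn hXc) hact.1 hact.2 hη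
  have hη3 : ρ / 2 / (M₂ + 3) * 3 ≤ ρ / 2 := by nlinarith
  have s0 : closedBall ζ₀ (ρ / 2) ⊆ ball ζ₀ ρ := closedBall_subset_ball (half_lt_self hρ)
  have s1 : ball y₀ r₀ ⊆ ball ζ₀ (ρ / 2) := by
    refine ball_subset_ball' ?_
    rw [dist_eq_norm]
    linarith [norm_sub_le_norm_sub_add_norm_sub y₀ z₀ ζ₀]
  have s2 : closedBall z₀ (r₀ / 2) ⊆ ball ζ₀ ρ := by
    refine (closedBall_subset_closedBall' ?_).trans s0
    rw [dist_eq_norm]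
    linarith
  have inv1 : ∀ (G : Pm) (q : E), G (G⁻¹ q) = q := fun G q => G.apply_symm_apply q
  have inv2 : ∀ (G : Pm) (q : E), G⁻¹ (G q) = q := fun G q => G.symm_apply_apply q
  have hY : Continuous (⇑A₀.pm⁻¹) := A₀.diff_inv.continuous
  have near : ∀ᶠ q in 𝓝 x₁, ‖A₀.pm⁻¹ q‖ < 1 / 50 ∧ ‖((A₀.pm⁻¹ q).2 - η' (A₀.pm⁻¹ q).1) /
      (η' (A₀.pm⁻¹ q).1 - η₀ (A₀.pm⁻¹ q).1)‖ < 2 := by
    refine (hY.norm.continuousAt.eventually_lt_const (by linarith)).and ?_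
    have a1 : ContinuousAt (fun q => η' (A₀.pm⁻¹ q).1) x₁ :=
      ContinuousAt.comp (g := η') (d₁.continuousOn.continuousAt (isOpen_ball.mem_nhds hu₁))
        hY.fst.continuousAt
    have a2 : ContinuousAt (fun q => η₀ (A₀.pm⁻¹ q).1) x₁ :=
      ContinuousAt.comp (g := η₀) (hη₀.gr.1.continuousOn.continuousAt (isOpen_ball.mem_nhds hu₁))
        hY.fst.continuousAt
    have a3 := sub_ne_zero.2 (hη' _ hu₁).1
    refine ((hY.snd.continuousAt.sub a1).div (a1.sub a2) a3).norm.eventually_lt_const ?_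
    change ‖((A₀.pm⁻¹ x₁).2 - η' (A₀.pm⁻¹ x₁).1) / (η' (A₀.pm⁻¹ x₁).1 - η₀ (A₀.pm⁻¹ x₁).1)‖ < 2
    rw [hon, norm_div, norm_sub_rev, div_self (norm_ne_zero_iff.2 a3)]
    exact one_lt_two
  obtain ⟨ε', hε', hnear⟩ := Metric.eventually_nhds_iff.1 near
  obtain ⟨B₁, hB₁⟩ := (isCompact_closedBall ζ₀ (ρ / 2)).bddAbove_image
    (h.gm.cont.comp_continuousOn (hXc.mono s0))
  obtain ⟨B₂, hB₂⟩ := (isCompact_closedBall (0 : E) (1 / 2)).bddAbove_image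
    (h.gp.cont.comp A₀.diff.continuous).continuousOn
  obtain ⟨t₀, ht₀, hmin⟩ := (isCompact_closedBall z₀ (r₀ / 2)).exists_isMinOn
    (nonempty_closedBall.2 (by positivity)) (h.gp.cont.comp_continuousOn (hXc.mono s2))
  have hm : 0 < Gp (X t₀) :=
    lt_of_le_of_ne (h.gp.nonneg _) (r6 t₀ (closedBall_subset_ball (half_lt_self hr₀) ht₀)).symm
  have hpow := tendsto_pow_atTop_atTop_of_one_lt h.gp.one_lt
  obtain ⟨n, ⟨z, hz, hzn⟩, n1, n2⟩ := ((hreach X y₀ r₀ hr₀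
    (hX.mono (s1.trans (ball_subset_closedBall.trans s0))) ⟨r4, r5⟩ ε' hε').and_eventually
    ((hpow.eventually_gt_atTop (B₁ / g')).and (hpow.eventually_gt_atTop (B₂ / Gp (X t₀))))).exists
  rw [div_lt_iff₀ hg'] at n1
  rw [div_lt_iff₀ hm] at n2
  obtain ⟨z2, z3⟩ := hnear (y := (F ^ n) (X z)) (by rwa [dist_eq_norm])
  have hdn : 0 < d ^ n := pow_pos (one_pos.trans h.gp.one_lt) n
  have hP : DifferentiableOn ℂ (fun t => A₀.pm⁻¹ ((F ^ n) (X t))) (ball ζ₀ ρ) :=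
    A₀.diff_inv.comp_differentiableOn ((h.aut.ndiff n).comp_differentiableOn hX)
  obtain ⟨O, bar, o1, o2, o3, o4, o5, o6, o7, o8⟩ := LHit_bar (z₀ := z₀) (z := z) (r := r₀ / 2) hρ hP
    hη₀.gr.1 d₁ hη₀.small (fun u hu => ⟨(hη' u hu).1, (hη' u hu).2.1⟩) hc (half_pos hr₀) hM hM₂ hε
    (le_of_eq (by field_simp)) (by nlinarith)
    (fun t ht hP => by
      have hu : (A₀.pm⁻¹ ((F ^ n) (X t))).1 ∈ ball (0 : ℂ) 1 :=
        mem_ball_zero_iff.2 (by linarith [norm_fst_le (A₀.pm⁻¹ ((F ^ n) (X t)))])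
      refine ⟨not_lt.1 fun g => ?_, not_lt.1 fun g => ?_⟩
      · have a1 := (hη' _ hu).2.2 _ g.le
        rw [div_mul_cancel₀ _ (sub_ne_zero.2 (hη' _ hu).1), add_sub_cancel, Prod.mk.eta,
          inv1] at a1
        have a2 := h.gm.nequi n ((F ^ n) (X t))
        rw [inv_pow, inv2] at a2
        have a3 : Gm (X t) ≤ B₁ := hB₁ (mem_image_of_mem _ ht)
        have a4 := mul_le_mul_of_nonneg_left a1 hdn.le
        linarith
      · have a1 : Gp (X t₀) ≤ Gp (X t) := hmin (mem_closedBall_iff_norm.2 g.le)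
        have a2 : Gp (A₀.pm (A₀.pm⁻¹ ((F ^ n) (X t)))) ≤ B₂ :=
          hB₂ (mem_image_of_mem _ (mem_closedBall_zero_iff.2 hP))
        rw [inv1, h.gp.nequi] at a2
        have a4 := mul_le_mul_of_nonneg_left a1 hdn.le
        linarith)
    (s1 hz) (z2.trans (by norm_num)) z3.le
    (by linarith [norm_sub_le_norm_sub_add_norm_sub z y₀ z₀, mem_ball_iff_norm.1 hz]) e1 e2
  obtain ⟨t, ht, x, hx, k1, k2⟩ := hpot O _ _ bar z o1 o2 o3 o5 o6 o7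
    ((norm_fst_le _).trans z2.le) o8
  obtain ⟨A', T', a1, a2, a3⟩ := hch x hx
  have hd := (hP.differentiableAt (isOpen_ball.mem_nhds (o4 t ht))).hasDerivAt
  have f1 := ((ContinuousLinearMap.fst ℂ ℂ ℂ).hasFDerivAt.comp_hasDerivAt t hd).deriv
  have f2 := ((ContinuousLinearMap.snd ℂ ℂ ℂ).hasFDerivAt.comp_hasDerivAt t hd).deriv
  refine ⟨n, t, x, A', T', γ x, o4 t ht, a1, a2, a3, (o5 t ht).2.2.2.1, k1, sub_ne_zero.2 fun g => k2 ?_⟩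
  exact f1.trans (g.trans (congrArg _ f2.symm))

end Pool.Agent.Lib.MP_7b5e47_an.Hn
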