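import Pool.Agent.Lib.MP_7b5e47_an.Hn.Defs

namespace Pool.Agent.Lib.MP_7b5e47_an.Hn

open Filter Topology Set Metric MeasureTheory

/-! Harnack estimates for non-vanishing bounded holomorphic functions, and transversality. -/

/-- A holomorphic branch of `log (2 / δ)` on the unit disc. -/
theorem PHarn_log {δ : ℂ → ℂ} (hd : DifferentiableOn ℂ δ (ball 0 1))
    (h0 : ∀ s ∈ ball (0 : ℂ) 1, δ s ≠ 0) :
    ∃ f : ℂ → ℂ, (∀ s ∈ ball (0 : ℂ) 1, HasDerivAt f (-deriv δ s / δ s) s) ∧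
      ∀ s ∈ ball (0 : ℂ) 1, (f s).re = Real.log (2 / ‖δ s‖) := by
  have h1 : DifferentiableOn ℂ (fun s => -deriv δ s / δ s) (ball 0 1) :=
    (hd.deriv isOpen_ball).neg.div hd h0
  obtain ⟨f, hf0, hf⟩ := h1.isExactOn_ball.with_val_at 0 (Complex.log (2 / δ 0))
  refine ⟨f, hf, fun s hs => ?_⟩
  have hz : (0 : ℂ) ∈ ball (0 : ℂ) 1 := mem_ball_self one_pos
  have h2 : ∀ x ∈ ball (0 : ℂ) 1, HasDerivAt (fun w => δ w * Complex.exp (f w)) 0 x := by
    intro x hx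
    have h3 := (hd.differentiableAt (isOpen_ball.mem_nhds hx)).hasDerivAt.fun_mul (hf x hx).cexp
    have h4 : deriv δ x * Complex.exp (f x) +
        δ x * (Complex.exp (f x) * (-deriv δ x / δ x)) = 0 := by
      have := h0 x hx
      field_simp
      ring
    rwa [h4] at h3
  have h5 : δ s * Complex.exp (f s) = δ 0 * Complex.exp (f 0) :=
    isOpen_ball.is_const_of_deriv_eq_zero (f := fun w => δ w * Complex.exp (f w))
      (convex_ball (0 : ℂ) 1).isPreconnected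
      (fun x hx => (h2 x hx).differentiableAt.differentiableWithinAt)
      (fun x hx => (h2 x hx).deriv) hs hz
  rw [hf0, Complex.exp_log (div_ne_zero two_ne_zero (h0 0 hz)), mul_div_cancel₀ _ (h0 0 hz)] at h5
  have h6 := congrArg norm h5
  rw [norm_mul, Complex.norm_exp, Complex.norm_ofNat] at h6
  have h7 : 0 < ‖δ s‖ := norm_pos_iff.2 (h0 s hs)
  rw [← h6, mul_div_cancel_left₀ _ h7.ne', Real.log_exp]

theorem PHarn_bc {f : ℂ → ℂ} (hf : DifferentiableOn ℂ f (ball 0 1))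
    (hp : ∀ s ∈ ball (0 : ℂ) 1, 0 < (f s).re) {t x : ℂ} (ht : ‖t‖ ≤ 3 / 4)
    (hx : ‖x - t‖ ≤ 1 / 8) : ‖f x - f t‖ ≤ 16 * (f t).re * ‖x - t‖ := by
  have hm : ∀ z ∈ ball (0 : ℂ) (1 / 4), t + z ∈ ball (0 : ℂ) 1 := fun z hz => by
    rw [mem_ball_zero_iff] at hz ⊢
    linarith [norm_add_le t z]
  have hM : 0 < (f t).re := hp t (by rw [mem_ball_zero_iff]; linarith)
  have h1 : DifferentiableOn ℂ (fun z => f t - f (t + z)) (ball 0 (1 / 4)) :=
    (hf.comp (f := fun z => t + z) (by fun_prop) hm).const_sub _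
  have h2 := Complex.borelCaratheodory_zero hM h1 (fun z hz => by
    have := hp _ (hm z hz)
    simp only [mem_ofPred_eq, Complex.sub_re]
    linarith) (by norm_num) (z := x - t) (by rw [mem_ball_zero_iff]; linarith) (by simp)
  simp only [add_sub_cancel] at h2
  rw [norm_sub_rev]
  refine h2.trans ?_
  rw [div_le_iff₀ (by linarith)]
  have h3 := mul_nonneg hM.le (norm_nonneg (x - t))
  nlinarith

theorem PHarn_chain {f : ℂ → ℂ} (hf : DifferentiableOn ℂ f (ball 0 1))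
    (hp : ∀ s ∈ ball (0 : ℂ) 1, 0 < (f s).re) {s t : ℂ} (hs : ‖s‖ ≤ 3 / 4) (ht : ‖t‖ ≤ 3 / 4) :
    (f s).re ≤ 3 ^ 12 * (f t).re := by
  have hin : ∀ k : ℕ, k ≤ 12 → ‖t + ((k / 12 : ℝ) : ℂ) * (s - t)‖ ≤ 3 / 4 := fun k hk => by
    have hk0 : (0 : ℝ) ≤ k / 12 := by positivity
    have hk1 : (k / 12 : ℝ) ≤ 1 := by
      rw [div_le_one (by norm_num)]
      exact_mod_cast hk
    have h1 : t + ((k / 12 : ℝ) : ℂ) * (s - t) =
        ((1 - k / 12 : ℝ) : ℂ) * t + ((k / 12 : ℝ) : ℂ) * s := by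
      push_cast
      ring
    rw [h1]
    refine (norm_add_le _ _).trans ?_
    rw [norm_mul, norm_mul, Complex.norm_real, Complex.norm_real, Real.norm_of_nonneg hk0,
      Real.norm_of_nonneg (by linarith)]
    nlinarith
  have hst : ‖s - t‖ ≤ 3 / 2 := by linarith [norm_sub_le s t]
  have key : ∀ k : ℕ, k ≤ 12 → (f (t + ((k / 12 : ℝ) : ℂ) * (s - t))).re ≤ 3 ^ k * (f t).re := by
    intro k
    induction k with
    | zero => simp
    | succ k ih =>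
      intro hk
      have h1 := ih (by omega)
      have h2 : ‖(t + (((k + 1 : ℕ) / 12 : ℝ) : ℂ) * (s - t)) -
          (t + ((k / 12 : ℝ) : ℂ) * (s - t))‖ ≤ 1 / 8 := by
        have h3 : (t + (((k + 1 : ℕ) / 12 : ℝ) : ℂ) * (s - t)) -
            (t + ((k / 12 : ℝ) : ℂ) * (s - t)) = ((1 / 12 : ℝ) : ℂ) * (s - t) := by
          push_cast
          ring
        rw [h3, norm_mul, Complex.norm_real, Real.norm_of_nonneg (by norm_num)]
        linarith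
      have h4 := PHarn_bc hf hp (hin k (by omega)) h2
      have h5 := hp (t + ((k / 12 : ℝ) : ℂ) * (s - t))
        (by rw [mem_ball_zero_iff]; linarith [hin k (by omega)])
      have h6 := (Complex.re_le_norm _).trans h4
      rw [Complex.sub_re] at h6
      rw [pow_succ]
      nlinarith
  simpa using key 12 le_rfl

/-- `δ / 2 = exp (-f)` with `f` holomorphic on the ball (`re f = log (2 / ‖δ‖)` is harmonic and
positive: `HarmonicOnNhd.exists_analyticOnNhd_ball_re_eq`). `Complex.borelCaratheodory_zero`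
applied to `f t - f (t + ·)` (real part at most `re f t`) on a ball of radius `1/4` about `t`
gives `re f (t') ≤ 3 re f t` for `‖t' - t‖ ≤ 1/8`, and a Cauchy estimate gives
`‖deriv f t‖ ≤ K re f t`; chain boundedly many steps along the segment (12 steps), and use
`‖deriv δ‖ = ‖deriv f‖ ‖δ‖` (from `‖exp (-f)‖ = ‖δ‖ / 2` near `t`, `δ exp f` has constant modulus,
so it is constant by the open mapping theorem). -/
theorem harnack : ∃ K : ℝ, 1 ≤ K ∧ ∀ δ : ℂ → ℂ, DifferentiableOn ℂ δ (ball 0 1) →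
    (∀ s ∈ ball (0 : ℂ) 1, δ s ≠ 0 ∧ ‖δ s‖ ≤ 1) → ∀ s t : ℂ, ‖s‖ ≤ 3 / 4 → ‖t‖ ≤ 3 / 4 →
      Real.log (2 / ‖δ s‖) ≤ K * Real.log (2 / ‖δ t‖) ∧
      ‖deriv δ t‖ ≤ K * Real.log (2 / ‖δ t‖) * ‖δ t‖ := by
  refine ⟨3 ^ 12, by norm_num, fun δ hd hδ s t hs ht => ?_⟩
  obtain ⟨f, hf, hre⟩ := PHarn_log hd fun s hs => (hδ s hs).1
  have hmem : ∀ x : ℂ, ‖x‖ ≤ 3 / 4 → x ∈ ball (0 : ℂ) 1 := fun x hx => by
    rw [mem_ball_zero_iff]
    linarith
  have hfd : DifferentiableOn ℂ f (ball 0 1) := fun x hx =>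
    (hf x hx).differentiableAt.differentiableWithinAt
  have hpos : ∀ x ∈ ball (0 : ℂ) 1, 0 < (f x).re := fun x hx => by
    rw [hre x hx]
    apply Real.log_pos
    rw [lt_div_iff₀ (norm_pos_iff.2 (hδ x hx).1)]
    linarith [(hδ x hx).2]
  rw [← hre s (hmem s hs), ← hre t (hmem t ht)]
  refine ⟨PHarn_chain hfd hpos hs ht, ?_⟩
  have h1 : ‖deriv f t‖ ≤ 16 * (f t).re := by
    refine norm_deriv_le_of_lip' (by linarith [hpos t (hmem t ht)]) ?_
    filter_upwards [closedBall_mem_nhds t (show (0 : ℝ) < 1 / 8 by norm_num)] with x hx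
    exact PHarn_bc hfd hpos ht (by rwa [mem_closedBall, dist_eq_norm] at hx)
  have h0 := (hδ t (hmem t ht)).1
  rw [(hf t (hmem t ht)).deriv, norm_div, norm_neg, div_le_iff₀ (norm_pos_iff.2 h0)] at h1
  refine h1.trans ?_
  have h2 := hpos t (hmem t ht)
  gcongr
  norm_num

/-- Near a point where a curve has finite order contact with a leaf, it is transversal to the
disjoint nearby leaves. `h ζ = (ζ - ζ₀)^m g ζ` with `m ≥ 1`, `g ζ₀ ≠ 0` (`h` is not identically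
zero near `ζ₀` since `h (ζ j) ≠ 0`); then `‖deriv h ζ‖ ≥ ‖h ζ‖ / (2 ‖ζ - ζ₀‖)` near `ζ₀`, whereas
`harnack` bounds the right side by `C log (2 / ‖h (ζ j)‖) ‖h (ζ j)‖`, and
`r log (C' / r^m) → 0` as `r → 0`. -/
theorem transv {h s : ℂ → ℂ} {ζ₀ : ℂ} (hh : AnalyticAt ℂ h ζ₀) (h0 : h ζ₀ = 0)
    (hs : AnalyticAt ℂ s ζ₀) (hs0 : ‖s ζ₀‖ ≤ 1 / 2) {δ : ℕ → ℂ → ℂ}
    (hd : ∀ j, DifferentiableOn ℂ (δ j) (ball 0 1))
    (hδ : ∀ j, ∀ t ∈ ball (0 : ℂ) 1, δ j t ≠ 0 ∧ ‖δ j t‖ ≤ 1) {ζ : ℕ → ℂ}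
    (hζ : Tendsto ζ atTop (𝓝 ζ₀)) (he : ∀ j, h (ζ j) = δ j (s (ζ j))) :
    ∀ᶠ j in atTop, deriv h (ζ j) ≠ deriv (δ j) (s (ζ j)) * deriv s (ζ j) := by
  obtain ⟨K, hK1, hK⟩ := harnack
  have hs34 : ∀ᶠ j in atTop, ‖s (ζ j)‖ ≤ 3 / 4 := by
    have h1 : Tendsto (fun j => ‖s (ζ j)‖) atTop (𝓝 ‖s ζ₀‖) :=
      (hs.continuousAt.tendsto.comp hζ).norm
    exact h1.eventually (eventually_le_nhds (by linarith))
  have hmem : ∀ x : ℂ, ‖x‖ ≤ 3 / 4 → x ∈ ball (0 : ℂ) 1 := fun x hx => by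
    rw [mem_ball_zero_iff]
    linarith
  have hne : ∀ᶠ j in atTop, h (ζ j) ≠ 0 := by
    filter_upwards [hs34] with j hj
    rw [he j]
    exact (hδ j _ (hmem _ hj)).1
  have hnz : ¬ ∀ᶠ z in 𝓝 ζ₀, h z = 0 := fun hz => by
    obtain ⟨j, hj1, hj2⟩ := ((hζ.eventually hz).and hne).exists
    exact hj2 hj1
  obtain ⟨n, g, hg, hg0, hgh⟩ := hh.exists_eventuallyEq_pow_smul_nonzero_iff.2 hnz
  obtain ⟨m, rfl⟩ : ∃ m, n = m + 1 := by
    refine Nat.exists_eq_succ_of_ne_zero fun hn => ?_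
    have h1 := hgh.self_of_nhds
    rw [hn, h0, pow_zero, one_smul] at h1
    exact hg0 h1.symm
  have hder : ∀ᶠ z in 𝓝 ζ₀,
      deriv h z = (z - ζ₀) ^ m * ((m + 1 : ℕ) * g z + (z - ζ₀) * deriv g z) := by
    filter_upwards [hgh.eventually_nhds, hg.eventually_analyticAt] with z hz hgz
    have h1 : HasDerivAt (fun w : ℂ => (w - ζ₀) ^ (m + 1) * g w)
        ((((m + 1 : ℕ) : ℂ) * (z - ζ₀) ^ m * 1) * g z + (z - ζ₀) ^ (m + 1) * deriv g z) z :=
      (((hasDerivAt_id z).sub_const ζ₀).fun_pow (m + 1)).fun_mul hgz.differentiableAt.hasDerivAt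
    have h2 : h =ᶠ[𝓝 z] fun w : ℂ => (w - ζ₀) ^ (m + 1) * g w := hz
    rw [h2.deriv_eq, h1.deriv]
    ring
  have hcont : ContinuousAt (fun z : ℂ => ‖((m + 1 : ℕ) : ℂ) * g z + (z - ζ₀) * deriv g z‖ -
      K * (‖z - ζ₀‖ * Real.log 2 - (m + 1 : ℕ) * (‖z - ζ₀‖ * Real.log ‖z - ζ₀‖) -
        ‖z - ζ₀‖ * Real.log ‖g z‖) * ‖g z‖ * ‖deriv s z‖) ζ₀ := by
    have c1 : ContinuousAt g ζ₀ := hg.continuousAt
    have c2 : ContinuousAt (deriv g) ζ₀ := hg.deriv.continuousAt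
    have c3 : ContinuousAt (deriv s) ζ₀ := hs.deriv.continuousAt
    have c4 : ContinuousAt (fun z : ℂ => ‖z - ζ₀‖) ζ₀ := by fun_prop
    have c5 : ContinuousAt (fun z : ℂ => ‖z - ζ₀‖ * Real.log ‖z - ζ₀‖) ζ₀ :=
      (Real.continuous_mul_log.comp (by fun_prop : Continuous fun z : ℂ => ‖z - ζ₀‖)).continuousAt
    have c6 : ContinuousAt (fun z : ℂ => Real.log ‖g z‖) ζ₀ := c1.norm.log (norm_ne_zero_iff.2 hg0)
    have c7 : ContinuousAt (fun z : ℂ => z - ζ₀) ζ₀ := by fun_prop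
    exact ((continuousAt_const.mul c1).add (c7.mul c2)).norm.sub
      (((continuousAt_const.mul (((c4.mul continuousAt_const).sub
        (continuousAt_const.mul c5)).sub (c4.mul c6))).mul c1.norm).mul c3.norm)
  have hposv : ∀ᶠ z in 𝓝 ζ₀, 0 < ‖((m + 1 : ℕ) : ℂ) * g z + (z - ζ₀) * deriv g z‖ -
      K * (‖z - ζ₀‖ * Real.log 2 - (m + 1 : ℕ) * (‖z - ζ₀‖ * Real.log ‖z - ζ₀‖) -
        ‖z - ζ₀‖ * Real.log ‖g z‖) * ‖g z‖ * ‖deriv s z‖ := by
    refine hcont.eventually (lt_mem_nhds ?_)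
    simp only [sub_self, norm_zero, zero_mul, mul_zero, add_zero, sub_zero]
    exact norm_pos_iff.2 (mul_ne_zero (Nat.cast_ne_zero.2 (Nat.succ_ne_zero m)) hg0)
  filter_upwards [hs34, hne, hζ.eventually hgh, hζ.eventually hder, hζ.eventually hposv]
    with j h34 hn hg' hd' hp heq
  have h1 := (hK (δ j) (hd j) (hδ j) _ _ h34 h34).2
  rw [← he j] at h1
  rw [smul_eq_mul] at hg'
  rw [hg'] at hn h1
  have hz : ζ j - ζ₀ ≠ 0 := fun h => hn (by rw [h]; simp)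
  have hgz : g (ζ j) ≠ 0 := fun h => hn (by rw [h]; simp)
  have hr : 0 < ‖ζ j - ζ₀‖ := norm_pos_iff.2 hz
  have hG : 0 < ‖g (ζ j)‖ := norm_pos_iff.2 hgz
  have h2 := congrArg norm heq
  rw [hd', norm_mul, norm_mul, norm_pow] at h2
  rw [norm_mul, norm_pow, Real.log_div two_ne_zero (by positivity),
    Real.log_mul (by positivity) hG.ne', Real.log_pow] at h1
  have h3 := mul_le_mul_of_nonneg_right h1 (norm_nonneg (deriv s (ζ j)))
  rw [← h2] at h3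
  have h4 := mul_pos (pow_pos hr m) hp
  generalize ‖((m + 1 : ℕ) : ℂ) * g (ζ j) + (ζ j - ζ₀) * deriv g (ζ j)‖ = A at h3 h4
  generalize ‖ζ j - ζ₀‖ = r at h3 h4
  have h5 : r ^ m * (A - K * (r * Real.log 2 - (m + 1 : ℕ) * (r * Real.log r) -
      r * Real.log ‖g (ζ j)‖) * ‖g (ζ j)‖ * ‖deriv s (ζ j)‖) =
      r ^ m * A - K * (Real.log 2 - ((m + 1 : ℕ) * Real.log r + Real.log ‖g (ζ j)‖)) *
        (r ^ (m + 1) * ‖g (ζ j)‖) * ‖deriv s (ζ j)‖ := by ring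
  linarith

end Pool.Agent.Lib.MP_7b5e47_an.Hn
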