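import Pool.Agent.Lib.MP_7b5e47_an.Hn.PMax
import Pool.Agent.Lib.MP_7b5e47_an.Hn.PHarn

namespace Pool.Agent.Lib.MP_7b5e47_an.Hn

open Filter Topology Set Metric MeasureTheory

/-! The logarithmic potential of a family of disjoint graphs. -/

/-- a family of disjoint-or-equal vertical graphs through the points `zc x`, `x ∈ R`, with a
power bound for the measure of tubes -/
structure Leaves (μ : Measure E) (R : Set E) (γ : E → ℂ → ℂ) (zc : E → E) (C β : ℝ) : Prop where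
  meas : MeasurableSet R
  ne : μ R ≠ 0
  gr : ∀ x ∈ R, Gr 0 1 (γ x)
  small : ∀ x ∈ R, ∀ s ∈ ball (0 : ℂ) 1, ‖γ x s‖ ≤ 1 / 100
  dis : ∀ x ∈ R, ∀ x' ∈ R, ∀ s ∈ ball (0 : ℂ) 1, γ x s = γ x' s → EqOn (γ x) (γ x') (ball 0 1)
  cont : Continuous zc
  base : ∀ x ∈ R, ‖(zc x).2‖ ≤ 1 / 2 ∧ γ x (zc x).2 = (zc x).1
  pos : 0 < β
  tube : ∀ x₁ ∈ R, ∀ ε, 0 < ε → ε ≤ 1 / 2 →
    μ.real {x | x ∈ R ∧ ‖(zc x).1 - γ x₁ (zc x).2‖ ≤ ε} ≤ C * ε ^ β

variable {μ : Measure E} [IsFiniteMeasure μ] {R : Set E} {γ : E → ℂ → ℂ} {zc : E → E} {C β : ℝ}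

theorem LPot_ball {s : ℂ} {r : ℝ} (hs : ‖s‖ ≤ r) (hr : r < 1) : s ∈ ball (0 : ℂ) 1 :=
  mem_ball_zero_iff.2 (hs.trans_lt hr)

omit [IsFiniteMeasure μ] in
theorem LPot_ne (h : Leaves μ R γ zc C β) {x x' : E} (hx : x ∈ R) (hx' : x' ∈ R)
    (hn : ¬EqOn (γ x) (γ x') (ball 0 1)) :
    ∀ s ∈ ball (0 : ℂ) 1, γ x s - γ x' s ≠ 0 ∧ ‖γ x s - γ x' s‖ ≤ 1 := fun s hs =>
  ⟨fun e => hn (h.dis x hx x' hx' s hs (sub_eq_zero.1 e)),
    (norm_sub_le _ _).trans (by linarith [h.small x hx s hs, h.small x' hx' s hs])⟩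

/-- `harnack` for `γ x - γ x'` -/
theorem Leaves.close (h : Leaves μ R γ zc C β) : ∃ K : ℝ, 1 ≤ K ∧ ∀ x ∈ R, ∀ x' ∈ R,
    ∀ s t : ℂ, ‖s‖ ≤ 3 / 4 → ‖t‖ ≤ 3 / 4 →
      ‖γ x s - γ x' s‖ ≤ 2 * (‖γ x t - γ x' t‖ / 2) ^ (1 / K) := by
  obtain ⟨K, hK, hH⟩ := harnack
  refine ⟨K, hK, fun x hx x' hx' s t hs ht => ?_⟩
  have hs' := LPot_ball hs (by norm_num)
  have ht' := LPot_ball ht (by norm_num)
  by_cases he : EqOn (γ x) (γ x') (ball 0 1)
  · rw [he hs', sub_self, norm_zero]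
    positivity
  have hn := LPot_ne h hx hx' he
  have h1 := (hH (fun s => γ x s - γ x' s) ((h.gr x hx).1.sub (h.gr x' hx').1) hn t s ht hs).1
  have ha : 0 < ‖γ x s - γ x' s‖ := norm_pos_iff.2 (hn s hs').1
  have hb : 0 < ‖γ x t - γ x' t‖ := norm_pos_iff.2 (hn t ht').1
  rw [← div_le_iff₀' two_pos, Real.le_rpow_iff_log_le (by positivity) (by positivity),
    one_div, ← div_eq_inv_mul, le_div_iff₀ (by linarith)]
  rw [← inv_div, Real.log_inv, ← inv_div ‖γ x s - γ x' s‖, Real.log_inv] at h1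
  linarith

/-- `‖γ x t - γ x' t‖ ≤ 2 ‖zc x - zc x'‖` at `t = (zc x).2`, then `close` -/
theorem Leaves.continuousOn (h : Leaves μ R γ zc C β) {s : ℂ} (hs : ‖s‖ ≤ 3 / 4) :
    ContinuousOn (fun x => γ x s) R := by
  obtain ⟨K, hK, hc⟩ := h.close
  have hK0 : 0 < 1 / K := by positivity
  intro x₀ hx₀
  rw [ContinuousWithinAt, tendsto_iff_norm_sub_tendsto_zero]
  have hg : Continuous fun x => 2 * ‖zc x - zc x₀‖ ^ (1 / K) :=
    continuous_const.mul ((h.cont.sub continuous_const).norm.rpow_const fun _ => Or.inr hK0.le)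
  have hg' := (hg.tendsto x₀).mono_left (nhdsWithin_le_nhds (s := R))
  rw [sub_self, norm_zero, Real.zero_rpow hK0.ne', mul_zero] at hg'
  refine squeeze_zero' (Eventually.of_forall fun _ => norm_nonneg _) ?_ hg'
  filter_upwards [self_mem_nhdsWithin] with x hx
  obtain ⟨h1, h2⟩ := h.base x hx
  obtain ⟨h3, h4⟩ := h.base x₀ hx₀
  refine (hc x hx x₀ hx₀ s (zc x).2 hs (by linarith)).trans ?_
  have h5 := (h.gr x₀ hx₀).2.2 _ (LPot_ball h3 (by norm_num)) _ (LPot_ball h1 (by norm_num))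
  have h6 : ‖(zc x).1 - (zc x₀).1‖ ≤ ‖zc x - zc x₀‖ := norm_fst_le (zc x - zc x₀)
  have h7 : ‖(zc x).2 - (zc x₀).2‖ ≤ ‖zc x - zc x₀‖ := norm_snd_le (zc x - zc x₀)
  rw [h4, norm_sub_rev (zc x₀).2] at h5
  have h8 := norm_sub_le_norm_sub_add_norm_sub (zc x).1 (zc x₀).1 (γ x₀ (zc x).2)
  gcongr
  rw [h2]
  linarith [norm_nonneg (zc x - zc x₀)]

theorem Leaves.null_leaf (h : Leaves μ R γ zc C β) (p : ℂ) : μ {x | x ∈ R ∧ γ x 0 = p} = 0 := by
  rcases Set.eq_empty_or_nonempty {x | x ∈ R ∧ γ x 0 = p} with he | ⟨x₁, hx₁, hp⟩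
  · rw [he, measure_empty]
  rw [← measureReal_eq_zero_iff]
  refine le_antisymm ?_ measureReal_nonneg
  have hg : Continuous fun ε : ℝ => C * ε ^ β :=
    continuous_const.mul (continuous_id.rpow_const fun _ => Or.inr h.pos.le)
  have hg' := (hg.tendsto 0).mono_left (nhdsWithin_le_nhds (s := Ioi 0))
  rw [Real.zero_rpow h.pos.ne', mul_zero] at hg'
  refine ge_of_tendsto hg' ?_
  filter_upwards [Ioc_mem_nhdsGT (show (0 : ℝ) < 1 / 2 by norm_num)] with ε hε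
  refine le_trans (measureReal_mono fun x hx => ?_) (h.tube x₁ hx₁ ε hε.1 hε.2)
  obtain ⟨h1, h2⟩ := h.base x hx.1
  refine ⟨hx.1, ?_⟩
  rw [← h.dis x hx.1 x₁ hx₁ 0 (mem_ball_self one_pos) (hx.2.trans hp.symm)
    (LPot_ball h1 (by norm_num)), h2, sub_self, norm_zero]
  exact hε.1.le

theorem LPot_tube (h : Leaves μ R γ zc C β) : ∃ C' α : ℝ, 0 ≤ C' ∧ 0 < α ∧ ∀ (u s : ℂ) (ε : ℝ),
    ‖s‖ ≤ 1 / 2 → 0 < ε → μ.real {x | x ∈ R ∧ ‖u - γ x s‖ ≤ ε} ≤ C' * ε ^ α := by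
  obtain ⟨K, hK, hc⟩ := h.close
  have hK0 : 0 < 1 / K := by positivity
  have hβ := h.pos
  have hu : 0 ≤ μ.real univ := measureReal_nonneg
  refine ⟨(|C| + μ.real univ) * 4 ^ β, 1 / K * β, by positivity, by positivity,
    fun u s ε hs hε => ?_⟩
  have hε' : 0 < ε ^ (1 / K) := Real.rpow_pos_of_pos hε _
  rw [Real.rpow_mul hε.le, mul_assoc, ← Real.mul_rpow (by norm_num) hε'.le]
  rcases Set.eq_empty_or_nonempty {x | x ∈ R ∧ ‖u - γ x s‖ ≤ ε} with he | ⟨x₁, hx₁, hp⟩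
  · rw [he, measureReal_empty]
    positivity
  rcases le_total (2 * ε ^ (1 / K)) (1 / 2) with h0 | h0
  · refine le_trans (measureReal_mono fun x hx => ?_)
      ((h.tube x₁ hx₁ _ (by positivity) h0).trans ?_)
    · obtain ⟨h1, h2⟩ := h.base x hx.1
      refine ⟨hx.1, ?_⟩
      rw [← h2]
      refine (hc x hx.1 x₁ hx₁ _ s (by linarith) (by linarith)).trans ?_
      have h3 := norm_sub_le_norm_sub_add_norm_sub (γ x s) u (γ x₁ s)
      rw [norm_sub_rev _ u] at h3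
      gcongr
      linarith [hx.2]
    · refine mul_le_mul (by linarith [le_abs_self C]) ?_ (by positivity) (by positivity)
      gcongr
      norm_num
  · refine (measureReal_mono (subset_univ _)).trans ?_
    have h1 : 1 ≤ (4 * ε ^ (1 / K)) ^ β := Real.one_le_rpow (by linarith) hβ.le
    nlinarith [abs_nonneg C]

theorem LPot_count (y : ℝ) (N : ℕ) :
    min y N ≤ ∑ j ∈ Finset.range N, if (j : ℝ) ≤ y then (1 : ℝ) else 0 := by
  induction N with
  | zero => simp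
  | succ N ih =>
    rw [Finset.sum_range_succ, Nat.cast_succ]
    split_ifs with h
    · rw [min_eq_right h] at ih
      linarith [min_le_right y ((N : ℝ) + 1)]
    · rw [min_eq_left (not_le.1 h).le] at ih
      linarith [min_le_left y ((N : ℝ) + 1)]

/-- If `{x ∈ R' | ‖u - γ x s‖ ≤ ε}` contains `x₁`, it lies in the tube of width `2 ε^(1/K)` about
`γ x₁` (`close`), so it has measure at most `C' ε^(β/K)`. Bound `-log r` by
`n₀ + ∑_{j ≥ n₀} 1_{r ≤ exp (-j)}` and sum the geometric series. -/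
theorem Leaves.pot_le (h : Leaves μ R γ zc C β) : ∃ H : ℝ, ∀ R' ⊆ R, MeasurableSet R' →
    μ.real R ≤ 2 * μ.real R' → ∀ (u s : ℂ) (τ : ℝ), ‖u‖ ≤ 1 / 2 → ‖s‖ ≤ 1 / 2 → 0 < τ →
      (∀ x ∈ R', τ ≤ ‖u - γ x s‖) →
      ∫ x in R', -Real.log ‖u - γ x s‖ ∂μ ≤ H * μ.real R' := by
  obtain ⟨C', α, hC', hα, ht⟩ := LPot_tube h
  have hR : 0 < μ.real R := by
    rw [measureReal_def]
    exact ENNReal.toReal_pos h.ne (measure_ne_top _ _)
  have hq : Real.exp (-α) < 1 := Real.exp_lt_one_iff.2 (by linarith)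
  have hsum := summable_geometric_of_lt_one (Real.exp_pos (-α)).le hq
  have hS : 0 ≤ ∑' j : ℕ, Real.exp (-α) ^ j := tsum_nonneg fun _ => by positivity
  refine ⟨2 * (C' * ∑' j : ℕ, Real.exp (-α) ^ j) / μ.real R,
    fun R' hR' hm h2 u s τ hu hs hτ hx => ?_⟩
  obtain ⟨N, hN⟩ := exists_nat_ge (-Real.log τ)
  set B : ℕ → Set E := fun j =>
    toMeasurable μ {x | x ∈ R ∧ ‖u - γ x s‖ ≤ Real.exp (-(j : ℝ))} with hB
  have hBm : ∀ j, MeasurableSet (B j) := fun j => measurableSet_toMeasurable _ _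
  have hi : ∀ j ∈ Finset.range N, Integrable ((B j).indicator (1 : E → ℝ)) (μ.restrict R') :=
    fun j _ => (integrable_const (1 : ℝ)).indicator (hBm j)
  calc ∫ x in R', -Real.log ‖u - γ x s‖ ∂μ
      ≤ ∫ x in R', ∑ j ∈ Finset.range N, (B j).indicator (1 : E → ℝ) x ∂μ := by
        refine integral_mono_of_nonneg (ae_restrict_of_forall_mem hm fun x hx' => ?_)
          (integrable_finsetSum _ hi) (ae_restrict_of_forall_mem hm fun x hx' => ?_)
        · refine neg_nonneg.2 (Real.log_nonpos (norm_nonneg _) ((norm_sub_le _ _).trans ?_))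
          linarith [h.small x (hR' hx') s (LPot_ball hs (by norm_num))]
        · have h0 := hτ.trans_le (hx x hx')
          have h1 : -Real.log ‖u - γ x s‖ ≤ N :=
            (neg_le_neg (Real.log_le_log hτ (hx x hx'))).trans hN
          have h3 := LPot_count (-Real.log ‖u - γ x s‖) N
          rw [min_eq_left h1] at h3
          refine h3.trans (Finset.sum_le_sum fun j _ => ?_)
          split_ifs with hj
          · have h4 : x ∈ {x | x ∈ R ∧ ‖u - γ x s‖ ≤ Real.exp (-(j : ℝ))} :=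
              ⟨hR' hx', (Real.log_le_iff_le_exp h0).1 (by linarith)⟩
            rw [indicator_of_mem (subset_toMeasurable μ _ h4), Pi.one_apply]
          · exact indicator_nonneg (fun _ _ => zero_le_one) x
    _ = ∑ j ∈ Finset.range N, μ.real (B j ∩ R') := by
        rw [integral_finsetSum _ hi]
        refine Finset.sum_congr rfl fun j _ => ?_
        rw [integral_indicator_one (hBm j), measureReal_restrict_apply (hBm j)]
    _ ≤ ∑ j ∈ Finset.range N, C' * Real.exp (-α) ^ j := by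
        refine Finset.sum_le_sum fun j _ => (measureReal_mono inter_subset_left).trans ?_
        rw [hB, measureReal_def, measure_toMeasurable, ← measureReal_def]
        refine (ht u s _ hs (Real.exp_pos _)).trans (le_of_eq ?_)
        rw [← Real.exp_mul, ← Real.exp_nat_mul]
        congr 2
        ring
    _ ≤ C' * ∑' j : ℕ, Real.exp (-α) ^ j := by
        rw [← Finset.mul_sum]
        exact mul_le_mul_of_nonneg_left (hsum.sum_le_tsum _ fun _ _ => by positivity) hC'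
    _ ≤ _ := by
        rw [div_mul_eq_mul_div, le_div_iff₀ hR]
        nlinarith [mul_nonneg hC' hS]

/-- If no intersection is transversal, only a null set of leaves is met. For `t₀ ∈ Q` on the leaf
`x₀`, all points of `Q` near `t₀` which lie on a leaf lie on the same leaf: otherwise `transv`
(with `h = u - γ x₀ ∘ s`, `δ j = γ (x j) - γ x₀`) gives a transversal intersection. So countably
many values `γ x 0` occur (Lindeloef, `TopologicalSpace.countable_cover_nhdsWithin`), and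
`null_leaf` applies. -/
theorem Leaves.hit_null (h : Leaves μ R γ zc C β) {Q : Set ℂ} {u s : ℂ → ℂ}
    (hQ : ∀ t ∈ Q, AnalyticAt ℂ u t ∧ AnalyticAt ℂ s t ∧ ‖s t‖ ≤ 1 / 2)
    (hn : ∀ t ∈ Q, ∀ x ∈ R, u t = γ x (s t) → deriv u t = deriv (γ x) (s t) * deriv s t) :
    μ {x | x ∈ R ∧ ∃ t ∈ Q, u t = γ x (s t)} = 0 := by
  have key : ∀ t₀ : ℂ, ∃ p : ℂ, t₀ ∈ {t | t ∈ Q ∧ ∃ x ∈ R, u t = γ x (s t)} →
      ∀ᶠ t in 𝓝 t₀, t ∈ Q → ∀ x ∈ R, u t = γ x (s t) → γ x 0 = p := by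
    intro t₀
    by_cases h0 : t₀ ∈ {t | t ∈ Q ∧ ∃ x ∈ R, u t = γ x (s t)}
    swap
    · exact ⟨0, fun h1 => absurd h1 h0⟩
    obtain ⟨ht₀, x₀, hx₀, e₀⟩ := h0
    refine ⟨γ x₀ 0, fun _ => ?_⟩
    by_contra hc
    rw [not_eventually] at hc
    obtain ⟨ζ, hζ, hz⟩ := exists_seq_forall_of_frequently hc
    push Not at hz
    choose hzQ x hx he hne using hz
    have hd : ∀ y ∈ R, ∀ t ∈ Q, AnalyticAt ℂ (γ y) (s t) := fun y hy t ht =>
      (h.gr y hy).1.analyticAt (isOpen_ball.mem_nhds (LPot_ball (hQ t ht).2.2 (by norm_num)))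
    have h1 := transv (h := fun t => u t - γ x₀ (s t)) (s := s) (ζ₀ := t₀)
      ((hQ t₀ ht₀).1.sub ((hd x₀ hx₀ t₀ ht₀).comp (hQ t₀ ht₀).2.1)) (sub_eq_zero.2 e₀)
      (hQ t₀ ht₀).2.1 (hQ t₀ ht₀).2.2 (δ := fun j t => γ (x j) t - γ x₀ t)
      (fun j => (h.gr _ (hx j)).1.sub (h.gr _ hx₀).1)
      (fun j => LPot_ne h (hx j) hx₀ fun e => hne j (e (mem_ball_self one_pos))) hζ
      fun j => by rw [he j]
    obtain ⟨j, hj⟩ := h1.exists
    have h2 := (hQ _ (hzQ j)).1.differentiableAt.hasDerivAt.sub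
      ((hd x₀ hx₀ _ (hzQ j)).differentiableAt.hasDerivAt.comp (ζ j)
        (hQ _ (hzQ j)).2.1.differentiableAt.hasDerivAt)
    have h3 := (hd _ (hx j) _ (hzQ j)).differentiableAt.hasDerivAt.sub
      (hd x₀ hx₀ _ (hzQ j)).differentiableAt.hasDerivAt
    refine hj (h2.deriv.trans ?_)
    rw [hn _ (hzQ j) _ (hx j) (he j), ← sub_mul, ← h3.deriv]
    rfl
  choose p hp using key
  obtain ⟨T, -, hT, hc⟩ := TopologicalSpace.countable_cover_nhdsWithin
    (f := fun t₀ => {t | t ∈ Q → ∀ x ∈ R, u t = γ x (s t) → γ x 0 = p t₀})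
    fun t₀ ht₀ => mem_nhdsWithin_of_mem_nhds (hp t₀ ht₀)
  refine measure_mono_null (t := ⋃ t₀ ∈ T, {x | x ∈ R ∧ γ x 0 = p t₀}) ?_
    ((measure_biUnion_null_iff hT).2 fun t₀ _ => h.null_leaf _)
  rintro x ⟨hx, t, ht, e⟩
  obtain ⟨t₀, h1, h2⟩ := mem_iUnion₂.1 (hc ⟨ht, x, hx, e⟩)
  exact mem_iUnion₂.2 ⟨t₀, h1, hx, h2 ht x hx e⟩

end Pool.Agent.Lib.MP_7b5e47_an.Hn
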