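import Pool.Agent.Lib.MP_7b5e47_an.Hn.WFund

namespace Pool.Agent.Lib.MP_7b5e47_an.Hn

open Filter Topology Set Metric MeasureTheory

/-! Mass estimates on one curve. -/

/-- a cutoff on `ℂ²` (`ContDiffBump` in each coordinate, or in `E`) -/
theorem exists_cut2 {r r' : ℝ} (h0 : 0 < r) (h1 : r < r') : ∃ θ : E → ℝ, Tst2 θ ∧
    (∀ q, 0 ≤ θ q ∧ θ q ≤ 1) ∧ (∀ q, ‖q‖ ≤ r → θ q = 1) ∧ tsupport θ ⊆ closedBall 0 r' := by
  let b : ContDiffBump (0 : E) := ⟨r, r', h0, h1⟩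
  exact ⟨b, ⟨b.contDiff, b.hasCompactSupport⟩, fun q => ⟨b.nonneg, b.le_one⟩,
    fun q hq => b.one_of_mem_closedBall (mem_closedBall_zero_iff.2 hq), b.tsupport_eq.le⟩

theorem MCut_closed {V Q : Set ℂ} (hQ : IsCompact Q) (hQV : Q ⊆ V) {Z : ℂ → E}
    (hZ : DifferentiableOn ℂ Z V) {T : Set E} (hT : IsClosed T) : IsClosed (Q ∩ Z ⁻¹' T) :=
  (hZ.continuousOn.mono hQV).preimage_isClosed_of_isClosed hQ.isClosed hT

theorem MCut_supp {θ : E → ℝ} {V Q : Set ℂ} (hQ : IsCompact Q) (hQV : Q ⊆ V) {Z : ℂ → E}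
    (hZ : DifferentiableOn ℂ Z V) (hs : ∀ t ∈ V, Z t ∈ tsupport θ → t ∈ Q) :
    tsupport (V.indicator fun t => θ (Z t)) ⊆ Q ∩ Z ⁻¹' tsupport θ := by
  refine closure_minimal (fun t ht => ?_) (MCut_closed hQ hQV hZ (isClosed_tsupport θ))
  have h1 : t ∈ V := mem_of_indicator_ne_zero ht
  have h2 : Z t ∈ tsupport θ := by
    refine subset_tsupport θ ?_
    rw [Function.mem_support, indicator_of_mem h1] at ht
    exact ht
  exact ⟨hs t h1 h2, h2⟩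

theorem MCut_ev {V : Set ℂ} (hV : IsOpen V) {t : ℂ} (ht : t ∈ V) (g : ℂ → ℝ) :
    V.indicator g =ᶠ[𝓝 t] g := by
  filter_upwards [hV.mem_nhds ht] with s hs using indicator_of_mem hs g

theorem MCut_int {V Q : Set ℂ} (hV : IsOpen V) (hQ : IsCompact Q) (hQV : Q ⊆ V) {Z : ℂ → E}
    (hZ : DifferentiableOn ℂ Z V) : IntegrableOn (fun t => ‖deriv Z t‖ ^ 2) Q :=
  (((hZ.deriv hV).continuousOn.mono hQV).norm.pow 2).integrableOn_compact hQ

/-- `V.indicator (θ ∘ Z)` is a test function with support in `Q` -/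
theorem tst_comp {θ : E → ℝ} (hθ : Tst2 θ) {V Q : Set ℂ} (hV : IsOpen V) (hQ : IsCompact Q)
    (hQV : Q ⊆ V) {Z : ℂ → E} (hZ : DifferentiableOn ℂ Z V)
    (hs : ∀ t ∈ V, Z t ∈ tsupport θ → t ∈ Q) :
    Tst (V.indicator fun t => θ (Z t)) ∧ tsupport (V.indicator fun t => θ (Z t)) ⊆ Q := by
  have h1 : tsupport (V.indicator fun t => θ (Z t)) ⊆ Q :=
    (MCut_supp hQ hQV hZ hs).trans inter_subset_left
  refine ⟨⟨contDiff_iff_contDiffAt.2 fun t => ?_,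
    hQ.of_isClosed_subset (isClosed_tsupport _) h1⟩, h1⟩
  by_cases ht : t ∈ V
  · refine ContDiffAt.congr_of_eventuallyEq ?_ (MCut_ev hV ht _)
    exact hθ.1.contDiffAt.comp t
      (((hZ.analyticAt (hV.mem_nhds ht)).restrictScalars (𝕜 := ℝ)).contDiffAt)
  · exact contDiffAt_const.congr_of_eventuallyEq
      (notMem_tsupport_iff_eventuallyEq.1 fun h => ht (hQV (h1 h)))

/-- Green's identity with the test function of `tst_comp`, and `lap_comp_le` (the Laplacian of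
`θ ∘ Z` vanishes where `Z t ∉ tsupport θ`) -/
theorem cut_curve {θ : E → ℝ} (hθ : Tst2 θ) : ∃ C : ℝ, 0 ≤ C ∧ ∀ (V Q : Set ℂ) (Z : ℂ → E)
    (u : ℂ → ℝ) (B : ℝ), IsOpen V → IsCompact Q → Q ⊆ V → DifferentiableOn ℂ Z V →
    (∀ t ∈ V, Z t ∈ tsupport θ → t ∈ Q) → ContDiffOn ℝ 2 u V → 0 ≤ B →
    (∀ t ∈ V, Z t ∈ tsupport θ → |u t| ≤ B) →
    ∫ t in V, θ (Z t) * lap u t ≤
      C * B * ∫ t in Q ∩ {t | Z t ∈ tsupport θ}, ‖deriv Z t‖ ^ 2 := by
  obtain ⟨C, hC, hC'⟩ := lap_comp_le hθ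
  refine ⟨C, hC, fun V Q Z u B hV hQ hQV hZ hs hu hB hb => ?_⟩
  obtain ⟨h1, h2⟩ := tst_comp hθ hV hQ hQV hZ hs
  have h3 := MCut_supp hQ hQV hZ hs
  have hS : MeasurableSet (Q ∩ {t | Z t ∈ tsupport θ}) :=
    (MCut_closed hQ hQV hZ (isClosed_tsupport θ)).measurableSet
  have e1 : ∫ t in V, θ (Z t) * lap u t = ∫ t, (V.indicator fun t => θ (Z t)) t * lap u t := by
    rw [← integral_indicator hV.measurableSet]
    congr 1
    funext t
    exact indicator_mul_left V (fun t => θ (Z t)) (lap u)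
  rw [e1, green_id h1 hV (h2.trans hQV) hu, ← integral_const_mul, ← integral_indicator hS]
  refine (le_abs_self _).trans ?_
  rw [← Real.norm_eq_abs]
  refine norm_integral_le_of_norm_le ?_ (Eventually.of_forall fun t => ?_)
  · rw [integrable_indicator_iff hS]
    exact Integrable.const_mul ((MCut_int hV hQ hQV hZ).mono_set inter_subset_left) _
  · by_cases ht : t ∈ Q ∩ {t | Z t ∈ tsupport θ}
    · have htV := hQV ht.1
      have e2 : lap (V.indicator fun t => θ (Z t)) t = lap (fun s => θ (Z s)) t :=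
        (InnerProductSpace.laplacian_congr_nhds (MCut_ev hV htV _)).self_of_nhds
      rw [indicator_of_mem ht, e2, Real.norm_eq_abs, abs_mul, mul_comm C B, mul_assoc]
      exact mul_le_mul (hb t htV ht.2) (hC' Z t (hZ.analyticAt (hV.mem_nhds htV)))
        (abs_nonneg _) hB
    · rw [indicator_of_notMem ht, image_eq_zero_of_notMem_tsupport
        (f := lap (V.indicator fun t => θ (Z t))) fun h => ht (h3 (tsupport_lap _ h))]
      simp

/-- On `‖h‖ ≤ 2 ε`, `ε^(-2) ≤ (25/2) lap l (h)` for `l = log (‖·‖^2 + ε^2) / 2` (`lap_log_eps`).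
Apply `cut_curve` with a cutoff `θ₁` equal to one on `closedBall 0 1` and supported in
`closedBall 0 (6/5)`, and `u = l ∘ h`, `h = (Z ·).1` (`lap_comp`), `|u| ≤ 1 - log ε`. -/
theorem log_area : ∃ C : ℝ, 0 ≤ C ∧ ∀ (V Q : Set ℂ) (Z : ℂ → E) (ε : ℝ), IsOpen V → IsCompact Q →
    Q ⊆ V → DifferentiableOn ℂ Z V → (∀ t ∈ V, ‖Z t‖ ≤ 6 / 5 → t ∈ Q) → 0 < ε → ε ≤ 1 / 2 →
    ∫ t in Q ∩ {t | ‖(Z t).1‖ ≤ 2 * ε ∧ ‖(Z t).2‖ ≤ 1}, ‖(deriv Z t).1‖ ^ 2 / ε ^ 2 ≤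
      C * (1 - Real.log ε) * ∫ t in Q, ‖deriv Z t‖ ^ 2 := by
  obtain ⟨θ, hθ, hθ0, hθ1, hθs⟩ := exists_cut2 (r := 1) (r' := 6 / 5) one_pos (by norm_num)
  obtain ⟨C, hC, hC'⟩ := cut_curve hθ
  refine ⟨25 / 2 * C, by positivity, fun V Q Z ε hV hQ hQV hZ hs hε hε' => ?_⟩
  have hn : ∀ t, Z t ∈ tsupport θ → ‖Z t‖ ≤ 6 / 5 := fun t ht =>
    mem_closedBall_zero_iff.1 (hθs ht)
  have hlog : Real.log ε ≤ 0 := Real.log_nonpos hε.le (by linarith)
  have hl : ContDiff ℝ 2 fun z : ℂ => Real.log (‖z‖ ^ 2 + ε ^ 2) / 2 := by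
    refine ContDiff.div_const (ContDiff.log ((contDiff_norm_sq ℝ).add contDiff_const)
      fun z => ?_) _
    positivity
  have han : ∀ t ∈ V, AnalyticAt ℂ (fun s => (Z s).1) t := fun t ht =>
    analyticAt_fst.comp (hZ.analyticAt (hV.mem_nhds ht))
  have h1 := hC' V Q Z (fun t => Real.log (‖(Z t).1‖ ^ 2 + ε ^ 2) / 2) (1 - Real.log ε) hV hQ hQV hZ
    (fun t ht h => hs t ht (hn t h))
    (fun t ht => (hl.contDiffAt.comp t
      (((han t ht).restrictScalars (𝕜 := ℝ)).contDiffAt)).contDiffWithinAt) (by linarith)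
    (fun t _ h => by
      have h2 : ‖(Z t).1‖ ≤ 6 / 5 := (norm_fst_le _).trans (hn t h)
      have h3 : Real.log (ε ^ 2) ≤ Real.log (‖(Z t).1‖ ^ 2 + ε ^ 2) :=
        Real.log_le_log (by positivity) (by linarith [sq_nonneg ‖(Z t).1‖])
      have h4 := Real.log_le_sub_one_of_pos (show 0 < ‖(Z t).1‖ ^ 2 + ε ^ 2 by positivity)
      have h5 : ‖(Z t).1‖ ^ 2 + ε ^ 2 ≤ 3 := by nlinarith [norm_nonneg (Z t).1]
      rw [Real.log_pow] at h3
      push_cast at h3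
      exact abs_le.2 ⟨by linarith, by linarith⟩)
  set g : ℂ → ℝ := fun t =>
    θ (Z t) * (‖(deriv Z t).1‖ ^ 2 * (2 * ε ^ 2 / (‖(Z t).1‖ ^ 2 + ε ^ 2) ^ 2)) with hg
  have e1 : ∫ t in V, θ (Z t) * lap (fun t => Real.log (‖(Z t).1‖ ^ 2 + ε ^ 2) / 2) t =
      ∫ t in Q, g t := by
    rw [← setIntegral_eq_of_subset_of_forall_sdiff_eq_zero hV.measurableSet hQV (f := g)
      fun t ht => by
        rw [hg]
        simp only
        rw [image_eq_zero_of_notMem_tsupport (f := θ) fun h => ht.2 (hs t ht.1 (hn t h)),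
          zero_mul]]
    refine setIntegral_congr_fun hV.measurableSet fun t ht => ?_
    have e2 := lap_comp (w := fun z : ℂ => Real.log (‖z‖ ^ 2 + ε ^ 2) / 2) (han t ht) hl.contDiffAt
    have e3 : deriv (fun s => (Z s).1) t = (deriv Z t).1 := by
      have := ((hasFDerivAt_fst (𝕜 := ℂ) (E := ℂ) (F := ℂ)).comp_hasDerivAt t
        (hZ.differentiableAt (hV.mem_nhds ht)).hasDerivAt).deriv
      exact this
    rw [lap_log_eps hε, e3] at e2
    simp only [hg]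
    rw [e2]
  have hZc : ContinuousOn Z Q := hZ.continuousOn.mono hQV
  have hZc' : ContinuousOn (deriv Z) Q := (hZ.deriv hV).continuousOn.mono hQV
  have hgi : IntegrableOn g Q := by
    refine ContinuousOn.integrableOn_compact hQ ?_
    refine (hθ.1.continuous.comp_continuousOn hZc).mul ((hZc'.fst.norm.pow 2).mul
      (continuousOn_const.div (((hZc.fst.norm.pow 2).add continuousOn_const).pow 2) fun t _ => ?_))
    positivity
  have hg0 : ∀ t, 0 ≤ g t := fun t => mul_nonneg (hθ0 _).1 (by positivity)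
  have hS : MeasurableSet (Q ∩ {t | ‖(Z t).1‖ ≤ 2 * ε ∧ ‖(Z t).2‖ ≤ 1}) :=
    (MCut_closed hQ hQV hZ (T := {q : E | ‖q.1‖ ≤ 2 * ε ∧ ‖q.2‖ ≤ 1})
      ((isClosed_le continuous_fst.norm continuous_const).inter
        (isClosed_le continuous_snd.norm continuous_const))).measurableSet
  have h2 : ∫ t in Q ∩ {t | ‖(Z t).1‖ ≤ 2 * ε ∧ ‖(Z t).2‖ ≤ 1}, ‖(deriv Z t).1‖ ^ 2 / ε ^ 2 ≤
      ∫ t in Q ∩ {t | ‖(Z t).1‖ ≤ 2 * ε ∧ ‖(Z t).2‖ ≤ 1}, 25 / 2 * g t := by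
    refine integral_mono_of_nonneg (Eventually.of_forall fun t => by positivity)
      (Integrable.const_mul (hgi.mono_set inter_subset_left) _)
      (ae_restrict_of_forall_mem hS fun t ht => ?_)
    have h3 : θ (Z t) = 1 := hθ1 _ (by
      rw [Prod.norm_def]
      exact max_le (by linarith [ht.2.1]) ht.2.2)
    have h4 : ‖(Z t).1‖ ^ 2 + ε ^ 2 ≤ 5 * ε ^ 2 := by nlinarith [norm_nonneg (Z t).1, ht.2.1]
    have h5 : 2 * ε ^ 2 / (5 * ε ^ 2) ^ 2 ≤ 2 * ε ^ 2 / (‖(Z t).1‖ ^ 2 + ε ^ 2) ^ 2 := by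
      gcongr
    simp only [hg]
    rw [h3, one_mul]
    calc ‖(deriv Z t).1‖ ^ 2 / ε ^ 2
        = 25 / 2 * (‖(deriv Z t).1‖ ^ 2 * (2 * ε ^ 2 / (5 * ε ^ 2) ^ 2)) := by
          field_simp
          norm_num
      _ ≤ _ := by gcongr
  have h3 : ∫ t in Q ∩ {t | ‖(Z t).1‖ ≤ 2 * ε ∧ ‖(Z t).2‖ ≤ 1}, g t ≤ ∫ t in Q, g t :=
    setIntegral_mono_set hgi (Eventually.of_forall hg0) inter_subset_left.eventuallyLE
  have h4 : ∫ t in Q ∩ {t | Z t ∈ tsupport θ}, ‖deriv Z t‖ ^ 2 ≤ ∫ t in Q, ‖deriv Z t‖ ^ 2 :=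
    setIntegral_mono_set (MCut_int hV hQ hQV hZ) (Eventually.of_forall fun t => by positivity)
      inter_subset_left.eventuallyLE
  rw [integral_const_mul] at h2
  rw [e1] at h1
  have h5 := mul_le_mul_of_nonneg_left h4 (mul_nonneg hC (by linarith : 0 ≤ 1 - Real.log ε))
  linarith

end Pool.Agent.Lib.MP_7b5e47_an.Hn
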