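import Pool.Agent.Lib.MP_7b5e47_an.Hn.MOm
import Pool.Agent.Lib.MP_7b5e47_an.Hn.MCut

namespace Pool.Agent.Lib.MP_7b5e47_an.Hn

open Filter Topology Set Metric MeasureTheory

open Polynomial

variable {L : List (ℂˣ × ℂ[X])} {ρ : ℂ → ℝ} {μ : Measure E}

/-- area of the slices in a ball (`slice_poly`, `area_poly_le`); the set is compact since the first
coordinate is a non-constant polynomial -/
theorem slice_area (hL : IsHenon L) (R : ℝ) : ∃ C : ℝ, 0 ≤ C ∧ ∀ (m : ℕ) (c : ℂ),
    IsCompact {t | ‖(comp L ^ m) (t, c)‖ ≤ R} ∧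
    ∫ t in {t | ‖(comp L ^ m) (t, c)‖ ≤ R}, ‖deriv (fun s => (comp L ^ m) (s, c)) t‖ ^ 2 ≤
      C * (deg L : ℝ) ^ m := by
  obtain ⟨C, hC, h⟩ := area_poly_le R
  obtain ⟨R₀, C₀, hF⟩ := flt_gen hL
  have hd : 1 < deg L := by exact_mod_cast hF.hd
  refine ⟨2 * C, by positivity, fun m c => ?_⟩
  obtain ⟨P, Q, he, hP, hQ, -⟩ := slice_poly hL m c
  simp only [he]
  have hP0 : 0 < P.degree := by
    rw [← natDegree_pos_iff_degree_pos, hP]
    positivity
  have s1 : {t | ‖(P.eval t, Q.eval t)‖ ≤ R} ⊆ {t | ‖P.eval t‖ ≤ R} := fun t ht =>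
    (norm_fst_le (P.eval t, Q.eval t)).trans ht
  have s2 : {t | ‖(P.eval t, Q.eval t)‖ ≤ R} ⊆ {t | ‖Q.eval t‖ ≤ R} := fun t ht =>
    (norm_snd_le (P.eval t, Q.eval t)).trans ht
  have hK : IsCompact {t | ‖(P.eval t, Q.eval t)‖ ≤ R} := by
    refine ((P.isProperMap_eval hP0).isCompact_preimage
      (isCompact_closedBall (0 : ℂ) R)).of_isClosed_subset
      (isClosed_le (P.continuous.prodMk Q.continuous).norm continuous_const) fun t ht => ?_
    exact mem_closedBall_zero_iff.2 (s1 ht)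
  refine ⟨hK, ?_⟩
  have hder : ∀ t, deriv (fun s => (P.eval s, Q.eval s)) t =
      (P.derivative.eval t, Q.derivative.eval t) := fun t =>
    ((P.hasDerivAt t).prodMk (Q.hasDerivAt t)).deriv
  simp only [hder]
  have i1 := (h P).1.mono_set s1
  have i2 := (h Q).1.mono_set s2
  have j1 := (setIntegral_mono_set (h P).1 (Eventually.of_forall fun t => by positivity)
    s1.eventuallyLE).trans (h P).2
  have j2 := (setIntegral_mono_set (h Q).1 (Eventually.of_forall fun t => by positivity)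
    s2.eventuallyLE).trans (h Q).2
  have k1 : (P.natDegree : ℝ) = (deg L : ℝ) ^ m := by exact_mod_cast hP
  have k2 : (Q.natDegree : ℝ) ≤ (deg L : ℝ) ^ m := by exact_mod_cast hQ
  have j3 := integral_mono_of_nonneg (μ := volume.restrict {t | ‖(P.eval t, Q.eval t)‖ ≤ R})
    (f := fun t => ‖(P.derivative.eval t, Q.derivative.eval t)‖ ^ 2)
    (Eventually.of_forall fun t => by positivity) (i1.add i2) (Eventually.of_forall fun t => by
      simp only [Prod.norm_def, Pi.add_apply]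
      rcases max_choice ‖P.derivative.eval t‖ ‖Q.derivative.eval t‖ with h1 | h1 <;> rw [h1]
      · exact le_add_of_nonneg_right (by positivity)
      · exact le_add_of_nonneg_left (by positivity))
  rw [integral_add' i1 i2] at j3
  rw [k1] at j1
  have j4 := mul_le_mul_of_nonneg_left k2 hC
  linarith

/-- The potential along a slice: for `P t = (F^N (t, c)).1`,
`lap (lpot ρ ∘ P) = 2 π ‖P'‖^2 ρ (P)`, and `|lpot ρ (F^k q).1| ≤ d^k Gp q + C` on bounded sets
(`lpot_bd`, `Flt.log_le`). -/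
theorem lpot_iter (hL : IsHenon L) (hρ : Bump ρ) (R : ℝ) : ∃ C : ℝ, 0 ≤ C ∧ ∀ (k : ℕ) (q : E),
    ‖q‖ ≤ R → |lpot ρ ((comp L ^ k) q).1| ≤ (deg L : ℝ) ^ k * green (comp L) (deg L) q + C := by
  obtain ⟨C₁, h1⟩ := lpot_bd hρ.1
  obtain ⟨R₀, C₀, hF⟩ := flt_gen hL
  obtain ⟨C₂, h2⟩ := hF.log_le R
  refine ⟨|C₁| + |C₂|, by positivity, fun k q hq => ?_⟩
  have h3 := h1 ((comp L ^ k) q).1
  rw [hρ.2.2.2, one_mul, abs_le] at h3
  have h4 := abs_le.1 (h2 k q hq).2
  simp only [ContinuousLinearMap.coe_fst'] at h4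
  have h5 := Gre_log ‖((comp L ^ k) q).1‖
  have h6 := le_abs_self C₁
  have h7 := le_abs_self C₂
  rw [abs_le]
  constructor <;> linarith [h3.1, h3.2, h4.1, h4.2]

/-- `θ q = θ₀ (r⁻¹ • (q - x))` with `θ₀` from `exists_cut2 1 2`; on each slice `cut_curve` with
`V = univ`, `Z t = r⁻¹ • (F^m (t, c) - x)`, `u = lpot ρ ∘ P`, bound `d^(N-m) B + C`;
`slice_area`, `integral_om_le`; then `Dom` with the bound `C (B + η) / r^2` for every `η > 0`. -/
theorem ball_est (hL : IsHenon L) (hρ : Bump ρ) [IsFiniteMeasure μ]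
    (hD : Dom ρ (comp L) (deg L) μ) (R : ℝ) : ∃ C : ℝ, ∀ (x : E) (r B : ℝ), ‖x‖ ≤ R → 0 < r →
      r ≤ 1 → (∀ q ∈ closedBall x (2 * r), green (comp L) (deg L) q ≤ B) →
      μ.real (closedBall x r) ≤ C * B / r ^ 2 := by
  obtain ⟨θ, hθ, hθ1, hθ2, hθ3⟩ := exists_cut2 one_pos one_lt_two
  obtain ⟨C₀, hC₀, h0⟩ := cut_curve hθ
  obtain ⟨C₁, hC₁, h1⟩ := slice_area hL (R + 2)
  obtain ⟨C₂, hC₂, h2⟩ := lpot_iter hL hρ (R + 2)
  obtain ⟨R₀, C', hF⟩ := flt_gen hL
  have hd : (1 : ℝ) < deg L := hF.hd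
  have hd0 : (0 : ℝ) < deg L := one_pos.trans hd
  refine ⟨C₀ * C₁, fun x r B hx hr hr1 hB => ?_⟩
  have hB0 : 0 ≤ B := (hF.green_nonneg x).trans (hB x (mem_closedBall_self (by positivity)))
  have hn : ∀ q : E, ‖((r : ℂ))⁻¹ • (q - x)‖ = ‖q - x‖ / r := fun q => by
    rw [norm_smul, norm_inv, Complex.norm_real, Real.norm_of_nonneg hr.le, inv_mul_eq_div]
  have hc : Continuous fun q : E => θ (((r : ℂ))⁻¹ • (q - x)) :=
    hθ.1.continuous.comp (by fun_prop)
  have a1 : μ.real (closedBall x r) ≤ ∫ q, θ (((r : ℂ))⁻¹ • (q - x)) ∂μ := by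
    rw [← integral_indicator_one measurableSet_closedBall]
    refine integral_mono_of_nonneg (Eventually.of_forall fun q => indicator_nonneg
      (fun _ _ => zero_le_one) q) (Integrable.of_bound hc.aestronglyMeasurable 1
        (Eventually.of_forall fun q => ?_)) (Eventually.of_forall fun q => ?_)
    · rw [Real.norm_of_nonneg (hθ1 _).1]
      exact (hθ1 _).2
    · by_cases hq : q ∈ closedBall x r
      · rw [indicator_of_mem hq]
        refine (hθ2 _ ?_).ge
        rw [hn, div_le_one hr]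
        exact mem_closedBall_iff_norm.1 hq
      · rw [indicator_of_notMem hq]
        exact (hθ1 _).1
  have a2 : ∀ η : ℝ, 0 < η → μ.real (closedBall x r) ≤ C₀ * C₁ * (B + η) / r ^ 2 := by
    intro η hη
    refine a1.trans (hD _ _ hc ?_)
    filter_upwards [(tendsto_pow_atTop_atTop_of_one_lt hd).eventually_ge_atTop (C₂ / η)]
      with n hn' m hm1 hm2
    have dm := dif_pow hF.df m
    refine integral_om_le hL hρ _ (hc.comp dm.continuous) fun c => ?_
    obtain ⟨k, hk, hk'⟩ : ∃ k, n ≤ k ∧ 3 * n = k + m := ⟨3 * n - m, by omega, by omega⟩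
    rw [hk']
    have dX : Differentiable ℂ fun s : ℂ => (comp L ^ m) (s, c) := dm.comp (by fun_prop)
    have dP : Differentiable ℂ fun s : ℂ => ((comp L ^ (k + m)) (s, c)).1 :=
      ((dif_pow hF.df (k + m)).comp (f := fun s : ℂ => (s, c)) (by fun_prop)).fst
    have dZ : Differentiable ℂ fun s : ℂ => ((r : ℂ))⁻¹ • ((comp L ^ m) (s, c) - x) :=
      (dX.sub_const x).fun_const_smul _
    have hs : ∀ q : E, ((r : ℂ))⁻¹ • (q - x) ∈ tsupport θ →
        q ∈ closedBall x (2 * r) ∧ ‖q‖ ≤ R + 2 := fun q hq => by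
      have h3 := mem_closedBall_zero_iff.1 (hθ3 hq)
      rw [hn, div_le_iff₀ hr] at h3
      have h4 := norm_add_le x (q - x)
      rw [add_sub_cancel] at h4
      exact ⟨mem_closedBall_iff_norm.2 h3, by linarith⟩
    have hη' : C₂ ≤ (deg L : ℝ) ^ k * η := by
      rw [← div_le_iff₀ hη]
      exact hn'.trans (pow_le_pow_right₀ hd.le hk)
    have h3 := h0 univ {t | ‖(comp L ^ m) (t, c)‖ ≤ R + 2}
      (fun s => ((r : ℂ))⁻¹ • ((comp L ^ m) (s, c) - x))
      (fun s => lpot ρ ((comp L ^ (k + m)) (s, c)).1) ((deg L : ℝ) ^ k * (B + η)) isOpen_univ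
      (h1 m c).1 (subset_univ _) dZ.differentiableOn (fun t _ ht => (hs _ ht).2)
      (((contDiff_lpot hρ.1).of_le (by norm_cast)).comp
        (dP.contDiff.restrict_scalars ℝ)).contDiffOn (by positivity) (fun t _ ht => by
        have h4 := h2 k _ (hs _ ht).2
        have h5 := mul_le_mul_of_nonneg_left (hB _ (hs _ ht).1) (pow_pos hd0 k).le
        rw [pow_add, Equiv.Perm.mul_apply]
        linarith)
    have h4 : ∀ t, lap (fun s => lpot ρ ((comp L ^ (k + m)) (s, c)).1) t =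
        ‖deriv (fun s => ((comp L ^ (k + m)) (s, c)).1) t‖ ^ 2 *
          (2 * Real.pi * ρ ((comp L ^ (k + m)) (t, c)).1) := fun t => by
      rw [lap_comp (dP.analyticAt t) ((contDiff_lpot hρ.1).of_le (by norm_cast)).contDiffAt,
        lap_lpot hρ.1]
    have h5 : ∀ t, ‖deriv (fun s => ((r : ℂ))⁻¹ • ((comp L ^ m) (s, c) - x)) t‖ ^ 2 =
        ‖deriv (fun s => (comp L ^ m) (s, c)) t‖ ^ 2 / r ^ 2 := fun t => by
      rw [(((dX t).hasDerivAt.sub_const x).fun_const_smul _).deriv, norm_smul, norm_inv,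
        Complex.norm_real, Real.norm_of_nonneg hr.le, inv_mul_eq_div, div_pow]
    simp only [h4, h5, Measure.restrict_univ] at h3
    rw [integral_div] at h3
    have cX : Continuous fun t => ‖deriv (fun s => (comp L ^ m) (s, c)) t‖ ^ 2 :=
      ((continuousOn_univ.1
        (dX.differentiableOn.deriv isOpen_univ).continuousOn).norm).pow 2
    have h6 := (setIntegral_mono_set (cX.continuousOn.integrableOn_compact (h1 m c).1)
      (Eventually.of_forall fun t => by positivity) (inter_subset_left (t := {t |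
        ((r : ℂ))⁻¹ • ((comp L ^ m) (t, c) - x) ∈ tsupport θ})).eventuallyLE).trans (h1 m c).2
    have h7 := h3.trans (mul_le_mul_of_nonneg_left
      (div_le_div_of_nonneg_right h6 (by positivity)) (by positivity))
    refine le_trans (integral_mono_of_nonneg ?_ ?_ ?_) (h7.trans (le_of_eq ?_))
    · exact Eventually.of_forall fun t => mul_nonneg (hθ1 _).1
        (mul_nonneg (by positivity) (hρ.2.1 _))
    · refine Continuous.integrable_of_hasCompactSupport ?_ ?_
      · refine (hc.comp dX.continuous).mul (Continuous.mul ?_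
          (continuous_const.mul (hρ.1.1.continuous.comp dP.continuous)))
        exact ((continuousOn_univ.1
          (dP.differentiableOn.deriv isOpen_univ).continuousOn).norm).pow 2
      · refine HasCompactSupport.intro (h1 m c).1 fun t ht => ?_
        rw [image_eq_zero_of_notMem_tsupport fun h8 => ht (hs _ h8).2, zero_mul]
    · refine Eventually.of_forall fun t => mul_le_mul_of_nonneg_left
        (mul_le_mul_of_nonneg_left ?_ (by positivity)) (hθ1 _).1
      exact le_mul_of_one_le_left (hρ.2.1 _) (by linarith [Real.two_le_pi])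
    · rw [pow_add]
      ring
  have a3 : Tendsto (fun η : ℝ => C₀ * C₁ * (B + η) / r ^ 2) (𝓝[>] 0)
      (𝓝 (C₀ * C₁ * (B + 0) / r ^ 2)) :=
    (Continuous.tendsto (by fun_prop) 0).mono_left nhdsWithin_le_nhds
  rw [add_zero] at a3
  exact ge_of_tendsto a3 (eventually_mem_nhdsWithin.mono a2)

end Pool.Agent.Lib.MP_7b5e47_an.Hn
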