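import Pool.Agent.Lib.MP_7b5e47_an.Hn.BAut

namespace Pool.Agent.Lib.MP_7b5e47_an.Hn

open Filter Topology Set Metric MeasureTheory

/-! Change of variables under an automorphism with constant Jacobian. -/

variable {F : Pm} {a : ℂ}

/-- the real determinant of a complex linear map of `ℂ²` is the squared norm of the complex one
(`LinearMap.det_restrictScalars`, `Algebra.norm_complex_apply`, `det2_map`) -/
theorem real_det (M : E →L[ℂ] E) : (M.restrictScalars ℝ).det = ‖M.det‖ ^ 2 := by
  have h := LinearMap.det_restrictScalars (R := ℝ) (S := ℂ) (f := (M : E →ₗ[ℂ] E))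
  rw [Algebra.norm_complex_apply, Complex.normSq_eq_norm_sq] at h
  exact h

theorem MCov_det (hA : Aut F a) (x : E) :
    |((fderiv ℂ (⇑F) x).restrictScalars ℝ).det| = ‖a‖ ^ 2 := by
  have h1 := hA.jac x (1, 0) (0, 1)
  rw [det2_map] at h1
  have h2 : (fderiv ℂ (⇑F) x).det = a := by simpa [det2] using h1
  rw [real_det, h2, abs_of_nonneg (sq_nonneg _)]

theorem MCov_haar : (volume : Measure E).IsAddHaarMeasure :=
  Measure.prod.instIsAddHaarMeasure _ _

/-- `lintegral_image_eq_lintegral_abs_det_fderiv_mul` on `univ` (the volume on `ℂ × ℂ` is an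
additive Haar measure: `Measure.prod.instIsAddHaarMeasure`) -/
theorem lintegral_aut (hA : Aut F a) (g : E → ENNReal) :
    ∫⁻ q, ENNReal.ofReal (‖a‖ ^ 2) * g (F q) = ∫⁻ q, g q := by
  have := MCov_haar
  have h := lintegral_image_eq_lintegral_abs_det_fderiv_mul (volume : Measure E)
    (f' := fun x => (fderiv ℂ (⇑F) x).restrictScalars ℝ) MeasurableSet.univ
    (fun x _ => ((hA.dF x).hasFDerivAt.restrictScalars ℝ).hasFDerivWithinAt) F.injective.injOn g
  simp only [MCov_det hA, image_univ, F.surjective.range_eq, Measure.restrict_univ] at h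
  exact h.symm

theorem integral_aut (hA : Aut F a) (g : E → ℝ) : ∫ q, ‖a‖ ^ 2 * g (F q) = ∫ q, g q := by
  have := MCov_haar
  have h := integral_image_eq_integral_abs_det_fderiv_smul (volume : Measure E)
    (f' := fun x => (fderiv ℂ (⇑F) x).restrictScalars ℝ) MeasurableSet.univ
    (fun x _ => ((hA.dF x).hasFDerivAt.restrictScalars ℝ).hasFDerivWithinAt) F.injective.injOn g
  simp only [MCov_det hA, image_univ, F.surjective.range_eq, Measure.restrict_univ,
    smul_eq_mul] at h
  exact h.symm

theorem aut_pow (hA : Aut F a) (n : ℕ) : Aut (F ^ n) (a ^ n) := by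
  exact BAut_npow hA n

theorem aut_sw : Aut sw (-1) := by
  refine ⟨differentiable_sw, by rw [sw_inv]; exact differentiable_sw, by simp, fun z u v => ?_⟩
  simp only [fderiv_sw, sw_apply, det2]
  ring

end Pool.Agent.Lib.MP_7b5e47_an.Hn
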