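import Pool.Agent.Lib.MP_7b5e47_an.Hn.MOm
import Pool.Agent.Lib.MP_901be3_an.Hd.Limit

namespace Pool.Agent.Lib.MP_7b5e47_an.Hn

open Filter Topology Set Metric MeasureTheory

open Polynomial

theorem MMu_int {K : Set E} (hK : IsCompact K) {μ : Measure E} [IsFiniteMeasure μ]
    (h0 : μ Kᶜ = 0) {θ : E → ℝ} (hθ : Continuous θ) : Integrable θ μ := by
  have h1 : IntegrableOn θ K μ := hθ.continuousOn.integrableOn_compact hK
  have h2 : μ.restrict K = μ := Measure.restrict_eq_self_of_ae_mem h0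
  rwa [IntegrableOn, h2] at h1

theorem MMu_lim {K : Set E} (hK : IsCompact K) (ν : ℕ → Measure E)
    (hp : ∀ n, IsProbabilityMeasure (ν n)) (h0 : ∀ n, ν n Kᶜ = 0) :
    ∃ μ : Measure E, IsProbabilityMeasure μ ∧ μ Kᶜ = 0 ∧ ∀ θ : E → ℝ, Continuous θ →
      Tendsto (fun n => ∫ q, θ q ∂ν n) (hyperfilter ℕ : Filter ℕ) (𝓝 (∫ q, θ q ∂μ)) := by
  let m : ℕ → FiniteMeasure E := fun j => ⟨ν j, inferInstance⟩
  have hm : ∀ j, (m j).mass ≤ 1 ∧ (m j) Kᶜ = 0 := fun j => by
    refine ⟨?_, ?_⟩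
    · rw [← ENNReal.coe_le_coe, FiniteMeasure.ennreal_mass]
      exact (hp j).measure_univ.le
    · rw [FiniteMeasure.null_iff_toMeasure_null]
      exact h0 j
  obtain ⟨μ, hμ, hl⟩ :=
    (isCompact_setOfPred_finiteMeasure_le_of_isCompact 1 hK).ultrafilter_le_nhds'
      ((hyperfilter ℕ).map m) (Ultrafilter.mem_map.2 (by
        rw [show m ⁻¹' {μ : FiniteMeasure E | μ.mass ≤ 1 ∧ μ Kᶜ = 0} = univ from
          eq_univ_of_forall hm]
        exact univ_mem))
  have ht : Tendsto m (hyperfilter ℕ : Filter ℕ) (𝓝 μ) := hl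
  have hK0 : (μ : Measure E) Kᶜ = 0 := (FiniteMeasure.null_iff_toMeasure_null _ _).1 hμ.2
  have key : ∀ θ : E → ℝ, Continuous θ →
      Tendsto (fun n => ∫ q, θ q ∂ν n) (hyperfilter ℕ : Filter ℕ) (𝓝 (∫ q, θ q ∂(μ : Measure E))) := by
    intro θ hθ
    obtain ⟨M, hM⟩ := hK.exists_bound_of_continuousOn hθ.continuousOn
    have hc : Continuous fun x => max (-|M|) (min |M| (θ x)) := by fun_prop
    have hb : ∀ x, ‖max (-|M|) (min |M| (θ x))‖ ≤ |M| := fun x => by
      rw [Real.norm_eq_abs, abs_le]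
      exact ⟨le_max_left _ _, max_le (by linarith [abs_nonneg M]) (min_le_left _ _)⟩
    have he : ∀ x ∈ K, max (-|M|) (min |M| (θ x)) = θ x := fun x hx => by
      have h1 := abs_le.1 ((hM x hx).trans (le_abs_self M))
      rw [min_eq_right h1.2, max_eq_right h1.1]
    have hi : ∀ ξ : Measure E, ξ Kᶜ = 0 →
        ∫ x, max (-|M|) (min |M| (θ x)) ∂ξ = ∫ x, θ x ∂ξ := fun ξ hξ =>
      integral_congr_ae ((show ∀ᵐ x ∂ξ, x ∈ K from hξ).mono he)
    have h1 := FiniteMeasure.tendsto_iff_forall_integral_tendsto.1 ht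
      (BoundedContinuousFunction.ofNormedAddCommGroup _ hc _ hb)
    simp only [BoundedContinuousFunction.coe_ofNormedAddCommGroup] at h1
    rw [hi _ hK0] at h1
    exact h1.congr fun n => hi _ (h0 n)
  refine ⟨μ, ⟨?_⟩, hK0, key⟩
  have h1 := key (fun _ => 1) continuous_const
  simp only [integral_const, probReal_univ, smul_eq_mul, mul_one] at h1
  have h2 := tendsto_nhds_unique h1 tendsto_const_nhds
  rw [← ofReal_measureReal, h2, ENNReal.ofReal_one]

/-- the limit of the averages along pieces of orbits -/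
theorem MMu_avg {K : Set E} (hK : IsCompact K) {F : Pm} (hF : ∀ m : ℕ, Continuous (⇑(F ^ m)))
    (ω : ℕ → Measure E) (hp : ∀ n, IsProbabilityMeasure (ω n))
    (h0 : ∀ n m, m ≤ n → ∀ᵐ q ∂ω n, (F ^ (n + m)) q ∈ K) :
    ∃ μ : Measure E, IsProbabilityMeasure μ ∧ μ Kᶜ = 0 ∧ ∀ θ : E → ℝ, Continuous θ →
      Tendsto (fun n : ℕ => ((n : ℝ) + 1)⁻¹ * ∑ m ∈ Finset.range (n + 1),
        ∫ q, θ ((F ^ (n + m)) q) ∂ω n) (hyperfilter ℕ : Filter ℕ) (𝓝 (∫ q, θ q ∂μ)) := by
  have hz : ∀ n, ∀ m ∈ Finset.range (n + 1), (ω n).map (⇑(F ^ (n + m))) Kᶜ = 0 := fun n m hm => by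
    rw [Measure.map_apply (hF _).measurable hK.measurableSet.compl]
    exact h0 n m (Nat.lt_succ_iff.1 (Finset.mem_range.1 hm))
  have hpm : ∀ n m, IsProbabilityMeasure ((ω n).map (⇑(F ^ (n + m)))) := fun n m =>
    Measure.isProbabilityMeasure_map (hF _).aemeasurable
  obtain ⟨μ, h1, h2, h3⟩ := MMu_lim hK (fun n => ((n : ENNReal) + 1)⁻¹ •
    ∑ m ∈ Finset.range (n + 1), (ω n).map (⇑(F ^ (n + m)))) (fun n => ⟨by
      rw [Measure.smul_apply, Measure.finsetSum_apply]
      simp only [measure_univ, Finset.sum_const, Finset.card_range, nsmul_eq_mul, mul_one,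
        smul_eq_mul, Nat.cast_add, Nat.cast_one]
      exact ENNReal.inv_mul_cancel (by simp) (by simp)⟩) (fun n => by
      rw [Measure.smul_apply, Measure.finsetSum_apply, Finset.sum_eq_zero (hz n), smul_zero])
  refine ⟨μ, h1, h2, fun θ hθ => (h3 θ hθ).congr fun n => ?_⟩
  rw [integral_smul_measure, integral_finsetSum_measure fun m hm => MMu_int hK (hz n m hm) hθ,
    smul_eq_mul, ENNReal.toReal_inv, ENNReal.toReal_add (by simp) (by simp), ENNReal.toReal_natCast,
    ENNReal.toReal_one]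
  congr 1
  exact Finset.sum_congr rfl fun m _ =>
    integral_map (hF _).aemeasurable hθ.aestronglyMeasurable

theorem MMu_conj (F : Pm) (k m : ℕ) (q : E) :
    ((sw * F⁻¹ * sw) ^ k) (sw ((F ^ (k + m)) q)) = sw ((F ^ m) q) := by
  have h1 : (sw * F⁻¹ * sw) ^ k = sw * F⁻¹ ^ k * sw := by
    have := conj_pow (i := k) (a := sw) (b := F⁻¹)
    rwa [sw_inv] at this
  have h2 : sw * F⁻¹ ^ k * sw * sw * F ^ (k + m) = sw * F ^ m := by
    rw [mul_assoc _ sw sw, sw_mul_sw, mul_one, inv_pow, pow_add, mul_assoc, inv_mul_cancel_left]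
  rw [h1, ← Equiv.Perm.mul_apply, ← Equiv.Perm.mul_apply, h2, Equiv.Perm.mul_apply]

/-- `μ n` is the average of the images of `om ρ F d (3 n)` by `F^m`, `n ≤ m ≤ 2 n`; these are
probability measures carried by the compact ball `closedBall 0 R` (`dens_supp`). Take a limit along
`hyperfilter ℕ` on the compact subtype (`MP_901be3_an.Hd.LimitAux.exists_lim`) and push it to `E`:
`∫ θ ∂μ = lim ∫ θ ∂μ n` for every continuous `θ`. Invariance: for bounded continuous `θ` the
integrals of `θ ∘ F` and `θ` against `μ n` differ by `O(1/n)`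
(`ext_of_forall_integral_eq_of_IsFiniteMeasure`). Support: `∫ Gp ∂μ n ≤ C d^(-n)`. The last claim
follows from `integral_om_rev` with `m ↦ 3 n - m`. -/
theorem exists_mu {L : List (ℂˣ × ℂ[X])} (hL : IsHenon L) {ρ : ℂ → ℝ} (hρ : Bump ρ) :
    ∃ μ : Measure E, IsProbabilityMeasure μ ∧ MeasurePreserving (⇑(comp L)) μ μ ∧
      μ {z | green (comp L) (deg L) z ≠ 0} = 0 ∧ μ {z | green (comp L)⁻¹ (deg L) z ≠ 0} = 0 ∧
      Dom ρ (comp L) (deg L) μ ∧ Dom ρ (comp (revL L)) (deg L) (μ.map sw) := by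
  obtain ⟨R, C, hRC⟩ := dens_supp hL hρ
  obtain ⟨R₀, C₀, hf⟩ := flt_gen hL
  obtain ⟨R₁, C₁, hf'⟩ := flt_gen hL.revL
  have hF : ∀ m : ℕ, Continuous (⇑(comp L ^ m)) := fun m => (dif_pow hf.df m).continuous
  have hd : (1 : ℝ) < deg L := hf.hd
  have hp := om_prob hL hρ
  have hae : ∀ N, ∀ᵐ q ∂om ρ (comp L) (deg L) N, dens ρ (comp L) (deg L) N q ≠ 0 := fun N => by
    unfold om
    rw [ae_withDensity_iff (dens_cont hL hρ N).1.measurable.ennreal_ofReal]
    refine Eventually.of_forall fun q hq h => hq ?_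
    rw [h, ENNReal.ofReal_zero]
  have hK := isCompact_closedBall (0 : E) R
  obtain ⟨μ, h1, h2, h3⟩ := MMu_avg hK hF (fun n => om ρ (comp L) (deg L) (3 * n))
    (fun n => hp _) fun n m hm => (hae _).mono fun q hq =>
      mem_closedBall_zero_iff.2 (hRC _ q hq (n + m) (by omega)).1
  have hdom : Dom ρ (comp L) (deg L) μ := fun θ B hθ hB => by
    refine le_of_tendsto (h3 θ hθ) ((hB.filter_mono Nat.hyperfilter_le_atTop).mono fun n hn => ?_)
    have h4 : (0 : ℝ) < n + 1 := by positivity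
    rw [inv_mul_le_iff₀ h4]
    refine (Finset.sum_le_card_nsmul _ _ B fun m hm => hn (n + m) (by omega) ?_).trans_eq ?_
    · have := Finset.mem_range.1 hm
      omega
    · simp
  have hzero : ∀ G : E → ℝ, Continuous G → (∀ z, 0 ≤ G z) →
      (∀ n m q, n ≤ m → m ≤ 2 * n → dens ρ (comp L) (deg L) (3 * n) q ≠ 0 →
        G ((comp L ^ m) q) * (deg L : ℝ) ^ n ≤ C) → μ {z | G z ≠ 0} = 0 := by
    intro G hG hG0 hb
    have h4 : ∫ q, G q ∂μ ≤ 0 := by
      refine le_of_forall_pos_le_add fun ε hε => ?_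
      rw [zero_add]
      refine hdom G ε hG ?_
      filter_upwards [((tendsto_pow_atTop_atTop_of_one_lt hd).const_div_atTop C).eventually
        (ge_mem_nhds hε)] with n hn m hm hm'
      have := hp (3 * n)
      refine (Real.le_norm_self _).trans ((norm_integral_le_of_norm_le_const (C := ε)
        ((hae (3 * n)).mono fun q hq => ?_)).trans (by simp))
      rw [Real.norm_of_nonneg (hG0 _)]
      exact ((le_div_iff₀ (by positivity)).2 (hb n m q hm hm' hq)).trans hn
    exact (integral_eq_zero_iff_of_nonneg hG0 (MMu_int hK h2 hG)).1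
      (le_antisymm h4 (integral_nonneg hG0))
  have hsw : Continuous (⇑sw) := differentiable_sw.continuous
  refine ⟨μ, h1, ⟨hf.df.continuous.measurable,
    ext_of_forall_integral_eq_of_IsFiniteMeasure fun φ => ?_⟩, ?_, ?_, hdom, ?_⟩
  · rw [integral_map hf.df.continuous.aemeasurable φ.continuous.aestronglyMeasurable,
      ← sub_eq_zero]
    refine tendsto_nhds_unique ((h3 _ (φ.continuous.comp hf.df.continuous)).sub
      (h3 _ φ.continuous)) (Tendsto.mono_left ?_ Nat.hyperfilter_le_atTop)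
    have hb : ∀ N k : ℕ, |∫ q, φ ((comp L ^ k) q) ∂om ρ (comp L) (deg L) N| ≤ ‖φ‖ := fun N k => by
      have := hp N
      exact le_trans (norm_integral_le_of_norm_le_const (C := ‖φ‖)
        (Eventually.of_forall fun q => φ.norm_coe_le_norm _)) (by simp)
    refine squeeze_zero_norm (a := fun n : ℕ => 1 / ((n : ℝ) + 1) * (2 * ‖φ‖)) (fun n => ?_) ?_
    · have h4 := Finset.sum_range_sub
        (fun m => ∫ q, φ ((comp L ^ (n + m)) q) ∂om ρ (comp L) (deg L) (3 * n)) (n + 1)
      have h5 : ∀ m, ∫ q, (φ ∘ comp L) ((comp L ^ (n + m)) q) ∂om ρ (comp L) (deg L) (3 * n) =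
          ∫ q, φ ((comp L ^ (n + (m + 1))) q) ∂om ρ (comp L) (deg L) (3 * n) := fun m => by
        rw [← add_assoc, pow_succ']
        rfl
      simp only [h5]
      rw [← mul_sub, ← Finset.sum_sub_distrib, h4, norm_mul, one_div,
        Real.norm_of_nonneg (by positivity)]
      refine mul_le_mul_of_nonneg_left ((abs_sub _ _).trans ?_) (by positivity)
      linarith [hb (3 * n) (n + (n + 1)), hb (3 * n) (n + 0)]
    · simpa using tendsto_one_div_add_atTop_nhds_zero_nat.mul_const (2 * ‖φ‖)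
  · refine hzero _ hf.green_continuous hf.green_nonneg fun n m q hm hm' hq => ?_
    refine le_trans ?_ (hRC _ q hq m (by omega)).2.1
    exact mul_le_mul_of_nonneg_left (pow_le_pow_right₀ hd.le (by omega)) (hf.green_nonneg _)
  · refine hzero _ hf.symm.green_continuous hf.symm.green_nonneg fun n m q hm hm' hq => ?_
    refine le_trans ?_ (hRC _ q hq m (by omega)).2.2
    exact mul_le_mul_of_nonneg_left (pow_le_pow_right₀ hd.le hm) (hf.symm.green_nonneg _)
  · intro θ B hθ hB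
    rw [integral_map hsw.aemeasurable hθ.aestronglyMeasurable]
    refine hdom (fun q => θ (sw q)) B (hθ.comp hsw) (hB.mono fun n hn m hm hm' => ?_)
    have h4 := integral_om_rev hL hρ (3 * n) (hθ.comp (dif_pow hf'.df (3 * n - m)).continuous)
    refine le_trans (le_of_eq ?_) (h4.trans_le (hn (3 * n - m) (by omega) (by omega)))
    refine integral_congr_ae (Eventually.of_forall fun q => ?_)
    have h5 := MMu_conj (comp L) (3 * n - m) m q
    rw [Nat.sub_add_cancel (by omega), ← comp_revL] at h5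
    simp only [Function.comp_apply, h5]

end Pool.Agent.Lib.MP_7b5e47_an.Hn
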