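import Pool.Agent.Lib.MP_7b5e47_an.Hn.WArea
import Pool.Agent.Lib.MP_7b5e47_an.Hn.HRev
import Pool.Agent.Lib.MP_7b5e47_an.Hn.MCov

namespace Pool.Agent.Lib.MP_7b5e47_an.Hn

open Filter Topology Set Metric MeasureTheory

/-! The approximating measures. -/

open Polynomial

/-- a probability density supported in the unit disc -/
def Bump (ρ : ℂ → ℝ) : Prop :=
  Tst ρ ∧ (∀ z, 0 ≤ ρ z) ∧ (∀ z, ρ z ≠ 0 → ‖z‖ ≤ 1) ∧ ∫ z, ρ z = 1

theorem exists_bump : ∃ ρ, Bump ρ := by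
  let f : ContDiffBump (0 : ℂ) := ⟨1 / 2, 1, by norm_num, by norm_num⟩
  refine ⟨f.normed volume, ⟨f.contDiff_normed, f.hasCompactSupport_normed⟩, f.nonneg_normed,
    fun z hz => ?_, f.integral_normed⟩
  have h : z ∈ Function.support (f.normed volume) := hz
  rw [f.support_normed_eq, mem_ball_zero_iff] at h
  exact h.le

noncomputable def dens (ρ : ℂ → ℝ) (F : Pm) (d : ℝ) (N : ℕ) (q : E) : ℝ :=
  ρ q.2 * (‖(fderiv ℂ (⇑(F ^ N)) q (1, 0)).1‖ ^ 2 * ρ ((F ^ N) q).1) / d ^ N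

/-- intersection of the average horizontal line with the preimage of the average vertical line -/
noncomputable def om (ρ : ℂ → ℝ) (F : Pm) (d : ℝ) (N : ℕ) : Measure E :=
  volume.withDensity fun q => ENNReal.ofReal (dens ρ F d N q)

variable {L : List (ℂˣ × ℂ[X])} {ρ : ℂ → ℝ}

theorem MOm_bd {f : Pm} {d : ℕ} {R C : ℝ} {A B : E →L[ℂ] ℂ} (h : Flt f d R C A B) (N : ℕ) {q : E}
    (h1 : ‖B q‖ ≤ 1) (h2 : ‖A ((f ^ N) q)‖ ≤ 1) : ‖q‖ ≤ R := by
  have hR := h.hR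
  by_contra h3
  rw [not_le, h.nrm, lt_max_iff] at h3
  have h4 : R < ‖A q‖ := h3.resolve_right (by linarith)
  cases N with
  | zero =>
    rw [pow_zero, Equiv.Perm.one_apply] at h2
    linarith
  | succ n =>
    have h5 := (Gre_up h h4.le (by linarith) (n + 1)).1
    have h6 : (1 : ℝ) ≤ 2 ^ n := one_le_pow₀ one_le_two
    rw [pow_succ] at h5
    nlinarith

theorem MOm_can (f : Pm) (n : ℕ) (z : E) : (f⁻¹ ^ n) ((f ^ n) z) = z := by
  rw [← Equiv.Perm.mul_apply, inv_pow, inv_mul_cancel, Equiv.Perm.one_apply]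

theorem MOm_cont (hρ : Bump ρ) {F : Pm} (hF : Differentiable ℂ (⇑F)) (d : ℝ) (N : ℕ) :
    Continuous (dens ρ F d N) := by
  have h1 := hρ.1.1.continuous
  have h2 := (dif_pow hF N).continuous
  have h3 := continuous_fderiv_of_diff (dif_pow hF N)
  unfold dens
  fun_prop

theorem MOm_nonneg (hρ : Bump ρ) (F : Pm) {d : ℝ} (hd : 0 ≤ d) (N : ℕ) (q : E) :
    0 ≤ dens ρ F d N q :=
  div_nonneg (mul_nonneg (hρ.2.1 _) (mul_nonneg (sq_nonneg _) (hρ.2.1 _))) (pow_nonneg hd _)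

theorem MOm_int (hρ : Bump ρ) {F : Pm} (hF : Differentiable ℂ (⇑F)) {d : ℝ} (hd : 0 ≤ d) (N : ℕ)
    (g : E → ℝ) : ∫ q, g q ∂om ρ F d N = ∫ q, dens ρ F d N q * g q := by
  rw [om, integral_withDensity_eq_integral_toReal_smul
    (MOm_cont hρ hF d N).measurable.ennreal_ofReal (Eventually.of_forall fun _ => by simp)]
  simp only [ENNReal.toReal_ofReal (MOm_nonneg hρ F hd N _), smul_eq_mul]

theorem MOm_deriv {G : E → E} (hG : Differentiable ℂ G) (t c : ℂ) :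
    deriv (fun s => (G (s, c)).1) t = (fderiv ℂ G (t, c) (1, 0)).1 := by
  have h1 : HasDerivAt (fun s : ℂ => (s, c)) (1, 0) t :=
    (hasDerivAt_id t).prodMk (hasDerivAt_const t c)
  have h2 := (hG (t, c)).hasFDerivAt.comp_hasDerivAt t h1
  exact ((ContinuousLinearMap.fst ℂ ℂ ℂ).hasFDerivAt.comp_hasDerivAt t h2).deriv

theorem MOm_slice {F : Pm} (hF : Differentiable ℂ (⇑F)) (d : ℝ) (N : ℕ) (g : E → ℝ) (c : ℂ) :
    ∫ t, dens ρ F d N (t, c) * g (t, c) = ρ c * ((∫ t, g (t, c) *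
      (‖deriv (fun s => ((F ^ N) (s, c)).1) t‖ ^ 2 * ρ ((F ^ N) (t, c)).1)) / d ^ N) := by
  rw [← integral_div, ← integral_const_mul]
  refine integral_congr_ae (Eventually.of_forall fun t => ?_)
  simp only [dens, MOm_deriv (dif_pow hF N)]
  ring

theorem MOm_jac {H : Pm} {b : ℂ} (h : Aut H b) (q : E) : (fderiv ℂ (⇑H) q (1, 0)).1 =
    b * (fderiv ℂ (⇑(sw * H⁻¹ * sw)) (sw (H q)) (1, 0)).1 := by
  have h0 : Differentiable ℂ (⇑(sw * H⁻¹)) := differentiable_sw.comp h.dG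
  rw [BAut_comp h0 differentiable_sw, BAut_comp differentiable_sw h.dG, fderiv_sw, fderiv_sw]
  have h1 : fderiv ℂ (⇑H) (H⁻¹ (H q)) (fderiv ℂ (⇑H⁻¹) (H q) (0, 1)) = (0, 1) := by
    rw [← BAut_comp h.dF h.dG, mul_inv_cancel]
    simp
  rw [show H⁻¹ (H q) = q from H.symm_apply_apply q] at h1
  have h2 := h.jac q (1, 0) (fderiv ℂ (⇑H⁻¹) (H q) (0, 1))
  rw [h1] at h2
  simpa [det2] using h2

/-- If `‖q.2‖ ≤ 1` and `‖(F^N q).1‖ ≤ 1` then `‖q‖ ≤ R` and `‖F^N q‖ ≤ R` (`Gre_up` for the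
filtration and for its symmetric), so `Gp (F^m q) = d^m / d^N Gp (F^N q)` and
`Gm (F^m q) = Gm q / d^m`; `proper`. -/
theorem dens_supp (hL : IsHenon L) (hρ : Bump ρ) : ∃ R C : ℝ, ∀ (N : ℕ) (q : E),
    dens ρ (comp L) (deg L) N q ≠ 0 → ∀ m ≤ N, ‖(comp L ^ m) q‖ ≤ R ∧
      green (comp L) (deg L) ((comp L ^ m) q) * (deg L : ℝ) ^ (N - m) ≤ C ∧
      green (comp L)⁻¹ (deg L) ((comp L ^ m) q) * (deg L : ℝ) ^ m ≤ C := by
  obtain ⟨R, C, h⟩ := flt_gen hL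
  obtain ⟨M₁, hM₁⟩ := (isCompact_closedBall (0 : E) R).exists_bound_of_continuousOn
    h.green_continuous.continuousOn
  obtain ⟨M₂, hM₂⟩ := (isCompact_closedBall (0 : E) R).exists_bound_of_continuousOn
    h.symm.green_continuous.continuousOn
  obtain ⟨R', hR'⟩ := h.halfG.proper (max M₁ M₂)
  refine ⟨R', max M₁ M₂, fun N q hq m hm => ?_⟩
  have h1 : ‖q.2‖ ≤ 1 := hρ.2.2.1 _ fun h0 => hq (by simp [dens, h0])
  have h2 : ‖((comp L ^ N) q).1‖ ≤ 1 := hρ.2.2.1 _ fun h0 => hq (by simp [dens, h0])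
  have h3 : ‖q‖ ≤ R := MOm_bd h N h1 h2
  have h4 : ‖(comp L ^ N) q‖ ≤ R := MOm_bd h.symm N h2 (by rw [MOm_can]; exact h1)
  have h5 : green (comp L) (deg L) ((comp L ^ m) q) * (deg L : ℝ) ^ (N - m) ≤ max M₁ M₂ := by
    rw [mul_comm, ← Gre_green_pow h, ← Equiv.Perm.mul_apply, ← pow_add, Nat.sub_add_cancel hm]
    exact ((le_abs_self _).trans (hM₁ _ (mem_closedBall_zero_iff.2 h4))).trans (le_max_left _ _)
  have h6 : green (comp L)⁻¹ (deg L) ((comp L ^ m) q) * (deg L : ℝ) ^ m ≤ max M₁ M₂ := by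
    rw [mul_comm, ← Gre_green_pow h.symm, MOm_can]
    exact ((le_abs_self _).trans (hM₂ _ (mem_closedBall_zero_iff.2 h3))).trans (le_max_right _ _)
  exact ⟨hR' _ ((le_mul_of_one_le_right (h.green_nonneg _) (one_le_pow₀ h.hd.le)).trans h5)
    ((le_mul_of_one_le_right (h.symm.green_nonneg _) (one_le_pow₀ h.hd.le)).trans h6), h5, h6⟩

theorem dens_cont (hL : IsHenon L) (hρ : Bump ρ) (N : ℕ) :
    Continuous (dens ρ (comp L) (deg L) N) ∧ HasCompactSupport (dens ρ (comp L) (deg L) N) ∧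
      ∀ q, 0 ≤ dens ρ (comp L) (deg L) N q := by
  obtain ⟨a, ha⟩ := aut_comp L
  obtain ⟨R, C, h⟩ := dens_supp hL hρ
  refine ⟨MOm_cont hρ ha.dF _ N, HasCompactSupport.intro (isCompact_closedBall (0 : E) R)
    fun q hq => ?_, MOm_nonneg hρ _ (Nat.cast_nonneg _) N⟩
  by_contra h0
  exact hq (mem_closedBall_zero_iff.2 (by simpa using (h N q h0 0 (Nat.zero_le _)).1))

theorem MOm_intg (hL : IsHenon L) (hρ : Bump ρ) (N : ℕ) {g : E → ℝ} (hg : Continuous g) :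
    Integrable (fun q => dens ρ (comp L) (deg L) N q * g q) ((volume : Measure ℂ).prod volume) := by
  obtain ⟨h1, h2, -⟩ := dens_cont hL hρ N
  exact (h1.mul hg).integrable_of_hasCompactSupport h2.mul_right

/-- `integral_withDensity_eq_integral_toReal_smul`, Fubini -/
theorem integral_om (hL : IsHenon L) (hρ : Bump ρ) (N : ℕ) {g : E → ℝ} (hg : Continuous g) :
    ∫ q, g q ∂om ρ (comp L) (deg L) N = ∫ c, ρ c * ((∫ t, g (t, c) *
      (‖deriv (fun s => ((comp L ^ N) (s, c)).1) t‖ ^ 2 * ρ ((comp L ^ N) (t, c)).1)) /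
        (deg L : ℝ) ^ N) := by
  obtain ⟨a, ha⟩ := aut_comp L
  rw [MOm_int hρ ha.dF (Nat.cast_nonneg _), Measure.volume_eq_prod,
    integral_prod_symm _ (MOm_intg hL hρ N hg)]
  simp only [MOm_slice ha.dF]

theorem integral_om_le (hL : IsHenon L) (hρ : Bump ρ) (N : ℕ) {g : E → ℝ} (hg : Continuous g)
    {B : ℝ} (hB : ∀ c : ℂ, ∫ t, g (t, c) * (‖deriv (fun s => ((comp L ^ N) (s, c)).1) t‖ ^ 2 *
      ρ ((comp L ^ N) (t, c)).1) ≤ B * (deg L : ℝ) ^ N) :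
    ∫ q, g q ∂om ρ (comp L) (deg L) N ≤ B := by
  obtain ⟨a, ha⟩ := aut_comp L
  obtain ⟨R, C, h⟩ := flt_gen hL
  have hd : (0 : ℝ) < (deg L : ℝ) ^ N := pow_pos (one_pos.trans h.hd) N
  have h1 := (MOm_intg hL hρ N hg).integral_prod_right
  simp only [MOm_slice ha.dF] at h1
  have h2 : Integrable ρ := hρ.1.1.continuous.integrable_of_hasCompactSupport hρ.1.2
  rw [integral_om hL hρ N hg]
  refine (integral_mono h1 (h2.mul_const B) fun c => ?_).trans_eq ?_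
  · exact mul_le_mul_of_nonneg_left ((div_le_iff₀ hd).2 (hB c)) (hρ.2.1 c)
  · rw [integral_mul_const, hρ.2.2.2, one_mul]

/-- `slice_poly` and `area_poly` -/
theorem om_prob (hL : IsHenon L) (hρ : Bump ρ) (N : ℕ) :
    IsProbabilityMeasure (om ρ (comp L) (deg L) N) := by
  obtain ⟨a, ha⟩ := aut_comp L
  obtain ⟨R, C, h⟩ := flt_gen hL
  have hd : (0 : ℝ) < (deg L : ℝ) ^ N := pow_pos (one_pos.trans h.hd) N
  obtain ⟨h1, h2, h3⟩ := dens_cont hL hρ N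
  have h4 := integral_om hL hρ N (g := fun _ => 1) continuous_const
  have h5 : ∀ c : ℂ, ∫ t, 1 * (‖deriv (fun s => ((comp L ^ N) (s, c)).1) t‖ ^ 2 *
      ρ ((comp L ^ N) (t, c)).1) = (deg L : ℝ) ^ N := fun c => by
    obtain ⟨P, Q, h6, h7, -⟩ := slice_poly hL N c
    simp only [h6, one_mul, Polynomial.deriv]
    rw [(area_poly hρ.1 P).2, hρ.2.2.2, h7, mul_one, Nat.cast_pow]
  simp only [h5, div_self hd.ne', mul_one, hρ.2.2.2] at h4
  rw [MOm_int hρ ha.dF (Nat.cast_nonneg _)] at h4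
  simp only [mul_one] at h4
  refine ⟨?_⟩
  rw [om, withDensity_apply _ MeasurableSet.univ, Measure.restrict_univ,
    ← ofReal_integral_eq_lintegral_ofReal (h1.integrable_of_hasCompactSupport h2)
      (Eventually.of_forall h3), h4, ENNReal.ofReal_one]

/-- Symmetry. With `G = sw * F⁻¹ * sw` and `q' = sw (F^N q)`: `G^N q' = sw q`, and the entry
`(D(G^N)(q') (1,0)).1` is `(D(F^N)(q) (1,0)).1 / a^N` (`Aut.njac` applied to `(1,0)` and
`D(F⁻¹^N) (0,1)`), so `dens ρ F d N q = ‖a^N‖^2 * dens ρ G d N q'`; `integral_aut` for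
`sw * F^N`. -/
theorem integral_om_rev (hL : IsHenon L) (hρ : Bump ρ) (N : ℕ) {g : E → ℝ} (hg : Continuous g) :
    ∫ q, g (sw ((comp L ^ N) q)) ∂om ρ (comp L) (deg L) N =
      ∫ q, g q ∂om ρ (comp (revL L)) (deg L) N := by
  obtain ⟨a, ha⟩ := aut_comp L
  obtain ⟨a', ha'⟩ := aut_comp (revL L)
  have hN := aut_pow ha N
  rw [MOm_int hρ ha.dF (Nat.cast_nonneg _), MOm_int hρ ha'.dF (Nat.cast_nonneg _),
    ← integral_aut (aut_sw.mul hN) fun q => dens ρ (comp (revL L)) (deg L) N q * g q]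
  refine integral_congr_ae (Eventually.of_forall fun q => ?_)
  have h1 : comp (revL L) ^ N = sw * (comp L ^ N)⁻¹ * sw := by
    have h2 := conj_pow (a := sw) (b := (comp L)⁻¹) (i := N)
    rw [sw_inv, inv_pow] at h2
    rw [comp_revL, h2]
  have h2 : (sw * (comp L ^ N)⁻¹ * sw) (sw ((comp L ^ N) q)) = sw q := by simp
  simp only [dens, Equiv.Perm.mul_apply sw (comp L ^ N), h1, h2, MOm_jac hN q, norm_mul, norm_neg,
    norm_one]
  simp only [sw_apply]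
  ring

/-- upper bounds pass from the approximating measures to `μ` -/
def Dom (ρ : ℂ → ℝ) (F : Pm) (d : ℝ) (μ : Measure E) : Prop :=
  ∀ (θ : E → ℝ) (B : ℝ), Continuous θ → (∀ᶠ n : ℕ in atTop, ∀ m, n ≤ m → m ≤ 2 * n →
    ∫ q, θ ((F ^ m) q) ∂om ρ F d (3 * n) ≤ B) → ∫ q, θ q ∂μ ≤ B

end Pool.Agent.Lib.MP_7b5e47_an.Hn
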