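import Pool.Agent.Lib.MP_7b5e47_an.Hn.PAnn

namespace Pool.Agent.Lib.MP_7b5e47_an.Hn

open Filter Topology Set Metric MeasureTheory

/-! The scales `rad i y` on a leaf. -/

/-- boundary of `K⁺` in the leaf -/
def Jx (Gp : E → ℝ) (ξ : ℂ → E) : Set ℂ := frontier {ζ | 0 < Gp (ξ ζ)}

/-- an entire curve in `K⁻` with uniform expansion at the boundary of `K⁺` -/
structure Leaf (d : ℝ) (Gp Gm : E → ℝ) (κ : ℝ) (ξ : ℂ → E) : Prop where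
  diff : Differentiable ℂ ξ
  gm : ∀ ζ, Gm (ξ ζ) = 0
  zero : ∃ ζ, Gp (ξ ζ) = 0
  unb : ∀ B : ℝ, ∃ ζ, B < Gp (ξ ζ)
  one_lt : 1 < κ
  exp : ∀ (i : ℤ), ∀ y ∈ Jx Gp ξ, ∀ r > 0, (∃ ζ : ℂ, ‖ζ - y‖ ≤ r ∧ 1 < d ^ i * Gp (ξ ζ)) →
    ∃ ζ : ℂ, ‖ζ - y‖ ≤ r / κ ∧ 1 ≤ d ^ (i + 1) * Gp (ξ ζ)

/-- the radius at which the level `d^(-i)` is reached -/
noncomputable def rad (d : ℝ) (Gp : E → ℝ) (ξ : ℂ → E) (i : ℤ) (y : ℂ) : ℝ :=
  sInf {r | ∃ ζ : ℂ, ‖ζ - y‖ ≤ r ∧ 1 ≤ d ^ i * Gp (ξ ζ)}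

variable {F : Pm} {a : ℂ} {d : ℝ} {Gp Gm : E → ℝ} {κ : ℝ} {ξ : ℂ → E}

theorem RRad_cont (hp : HalfG F d Gp Gm) (h : Leaf d Gp Gm κ ξ) :
    Continuous fun ζ => Gp (ξ ζ) := hp.cont.comp h.diff.continuous

theorem RRad_open (hp : HalfG F d Gp Gm) (h : Leaf d Gp Gm κ ξ) : IsOpen {ζ | 0 < Gp (ξ ζ)} :=
  isOpen_lt continuous_const (RRad_cont hp h)

theorem RRad_le (i : ℤ) (y : ℂ) {r : ℝ} (hr : ∃ ζ : ℂ, ‖ζ - y‖ ≤ r ∧ 1 ≤ d ^ i * Gp (ξ ζ)) :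
    rad d Gp ξ i y ≤ r :=
  csInf_le ⟨0, fun _ ⟨_, hs, _⟩ => (norm_nonneg _).trans hs⟩ hr

theorem Leaf.nonempty (hp : HalfG F d Gp Gm) (h : Leaf d Gp Gm κ ξ) : (Jx Gp ξ).Nonempty := by
  refine nonempty_frontier_iff.2 ⟨h.unb 0, fun e => ?_⟩
  obtain ⟨ζ, hζ⟩ := h.zero
  have h1 : ζ ∈ {ζ | 0 < Gp (ξ ζ)} := e ▸ mem_univ ζ
  exact absurd h1 (by change ¬ 0 < Gp (ξ ζ); rw [hζ]; exact lt_irrefl 0)

theorem Leaf.act (hp : HalfG F d Gp Gm) (h : Leaf d Gp Gm κ ξ) {y : ℂ} (hy : y ∈ Jx Gp ξ) :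
    Act Gp ξ y := by
  rw [Jx, (RRad_open hp h).frontier_eq] at hy
  exact ⟨le_antisymm (not_lt.1 hy.2) (hp.nonneg _),
    (mem_closure_iff_frequently.1 hy.1).mono fun t ht => ne_of_gt ht⟩

theorem Leaf.rad_spec (hp : HalfG F d Gp Gm) (h : Leaf d Gp Gm κ ξ) (i : ℤ) {y : ℂ}
    (hy : y ∈ Jx Gp ξ) : 0 < rad d Gp ξ i y ∧
      (∃ ζ : ℂ, ‖ζ - y‖ ≤ rad d Gp ξ i y ∧ 1 ≤ d ^ i * Gp (ξ ζ)) ∧
      ∀ ζ : ℂ, ‖ζ - y‖ ≤ rad d Gp ξ i y → d ^ i * Gp (ξ ζ) ≤ 1 := by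
  have hd : 0 < d ^ i := zpow_pos (zero_lt_one.trans hp.one_lt) i
  have hc : Continuous fun ζ => d ^ i * Gp (ξ ζ) := continuous_const.mul (RRad_cont hp h)
  have hT : IsClosed {ζ | 1 ≤ d ^ i * Gp (ξ ζ)} := isClosed_le continuous_const hc
  have hne : {ζ | 1 ≤ d ^ i * Gp (ξ ζ)}.Nonempty := by
    obtain ⟨ζ, hζ⟩ := h.unb (1 / d ^ i)
    rw [div_lt_iff₀' hd] at hζ
    exact ⟨ζ, hζ.le⟩
  obtain ⟨ζ₀, h1, h2⟩ := hT.exists_infDist_eq_dist hne y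
  have h3 : ∀ ζ, 1 ≤ d ^ i * Gp (ξ ζ) → ‖ζ₀ - y‖ ≤ ‖ζ - y‖ := fun ζ hζ => by
    rw [← dist_eq_norm, ← dist_eq_norm, dist_comm ζ₀, dist_comm ζ, ← h2]
    exact infDist_le_dist_of_mem hζ
  have h4 : rad d Gp ξ i y = ‖ζ₀ - y‖ :=
    IsLeast.csInf_eq ⟨⟨ζ₀, le_rfl, h1⟩, fun r ⟨ζ, e1, e2⟩ => (h3 ζ e2).trans e1⟩
  have h5 : 0 < ‖ζ₀ - y‖ := norm_pos_iff.2 (sub_ne_zero.2 fun e => by
    have h6 : 1 ≤ d ^ i * Gp (ξ ζ₀) := h1
    rw [e, (h.act hp hy).1, mul_zero] at h6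
    exact absurd h6 (by norm_num))
  rw [h4]
  refine ⟨h5, ⟨ζ₀, le_rfl, h1⟩, fun ζ hζ => ?_⟩
  have h6 : closure (ball y ‖ζ₀ - y‖) ⊆ {ζ | d ^ i * Gp (ξ ζ) ≤ 1} :=
    closure_minimal (fun t ht => (not_le.1 fun e =>
      (h3 t e).not_gt (mem_ball_iff_norm.1 ht)).le) (isClosed_le hc continuous_const)
  rw [closure_ball y h5.ne'] at h6
  exact h6 (mem_closedBall_iff_norm.2 hζ)

/-- for `r > rad i y` some point of `ball y r` has level `> 1`, by the strong maximum principle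
(`smp`, `SMV.of_nonneg`); then `exp` -/
theorem Leaf.rad_succ (hp : HalfG F d Gp Gm) (h : Leaf d Gp Gm κ ξ) (i : ℤ) {y : ℂ}
    (hy : y ∈ Jx Gp ξ) : κ * rad d Gp ξ (i + 1) y ≤ rad d Gp ξ i y := by
  obtain ⟨h1, ⟨ζ₀, h2, h3⟩, -⟩ := h.rad_spec hp i hy
  have hκ : 0 < κ := zero_lt_one.trans h.one_lt
  have hd : 0 < d ^ i := zpow_pos (zero_lt_one.trans hp.one_lt) i
  refine le_of_forall_gt_imp_ge_of_dense fun r hr => ?_
  rw [← le_div_iff₀' hκ]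
  refine RRad_le _ _ (h.exp i y hy r (h1.trans hr) ?_)
  by_contra hcon
  push Not at hcon
  have h4 := smp (φ := fun t => Gp (ξ t)) (U := ball y r) isOpen_ball (convex_ball y r).isPreconnected
    (fun t _ => SMV.of_nonneg (Eventually.of_forall fun _ => (RRad_cont hp h).continuousAt)
      (fun _ => hp.nonneg _) (hp.harm ξ t (h.diff.analyticAt t)))
    (mem_ball_iff_norm.2 (h2.trans_lt hr))
    (fun t ht => le_of_mul_le_mul_left ((hcon t (mem_ball_iff_norm.1 ht).le).trans h3) hd)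
    y (mem_ball_self (h1.trans hr))
  have h5 : Gp (ξ y) = Gp (ξ ζ₀) := h4
  rw [← h5, (h.act hp hy).1, mul_zero] at h3
  exact absurd h3 (by norm_num)

theorem RRad_pow (hp : HalfG F d Gp Gm) (h : Leaf d Gp Gm κ ξ) (i : ℤ) {y : ℂ}
    (hy : y ∈ Jx Gp ξ) (k : ℕ) : κ ^ k * rad d Gp ξ (i + k) y ≤ rad d Gp ξ i y := by
  induction k with
  | zero => simp
  | succ k ih =>
    refine le_trans ?_ ih
    rw [pow_succ, mul_assoc, Nat.cast_succ, ← add_assoc]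
    exact mul_le_mul_of_nonneg_left (h.rad_succ hp _ hy)
      (pow_nonneg (zero_lt_one.trans h.one_lt).le k)

theorem Leaf.rad_le (hp : HalfG F d Gp Gm) (h : Leaf d Gp Gm κ ξ) : ∃ C : ℝ, 0 ≤ C ∧
    ∀ (i : ℕ), ∀ y ∈ Jx Gp ξ, κ ^ i * rad d Gp ξ i y ≤ ‖y‖ + C := by
  obtain ⟨ζ, hζ⟩ := h.unb 1
  refine ⟨‖ζ‖, norm_nonneg _, fun i y hy => ?_⟩
  have h1 := RRad_pow hp h 0 hy i
  rw [zero_add] at h1
  refine h1.trans (RRad_le _ _ ⟨ζ, ?_, ?_⟩)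
  · rw [add_comm]
    exact norm_sub_le _ _
  · rw [zpow_zero, one_mul]
    exact hζ.le

/-- The normalized curves are uniformly bounded: for `T ≤ κ^k`, `T rad i y ≤ rad (i - k) y`, so
`Gp ≤ d^k` and `Gm = 0` on them; `proper`. -/
theorem Leaf.bound (hp : HalfG F d Gp Gm) (hm : HalfG F⁻¹ d Gm Gp) (h : Leaf d Gp Gm κ ξ)
    (T : ℝ) : ∃ B : ℝ, ∀ (i : ℤ), ∀ y ∈ Jx Gp ξ, ∀ ζ : ℂ, ‖ζ‖ ≤ T →
      ‖(F ^ i) (ξ (y + rad d Gp ξ i y * ζ))‖ ≤ B := by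
  obtain ⟨k, hk⟩ := pow_unbounded_of_one_lt T h.one_lt
  have hd : 0 < d := zero_lt_one.trans hp.one_lt
  obtain ⟨B, hB⟩ := hp.proper (d ^ k)
  refine ⟨B, fun i y hy ζ hζ => hB _ ?_ ?_⟩
  · have h1 := RRad_pow hp h (i - k) hy k
    rw [sub_add_cancel] at h1
    have h0 := (h.rad_spec hp i hy).1
    have h2 := (h.rad_spec hp (i - k) hy).2.2 (y + rad d Gp ξ i y * ζ) (by
      rw [add_sub_cancel_left, norm_mul, Complex.norm_real, Real.norm_of_nonneg h0.le, mul_comm]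
      exact (mul_le_mul_of_nonneg_right (hζ.trans hk.le) h0.le).trans h1)
    have h3 : d ^ i = d ^ k * d ^ (i - k) := by
      rw [← zpow_natCast, ← zpow_add₀ hd.ne', add_sub_cancel]
    rw [hp.zequi, h3, mul_assoc]
    exact mul_le_of_le_one_right (pow_nonneg hd.le k) h2
  · have h1 := hm.zequi (-i) (ξ (y + rad d Gp ξ i y * ζ))
    rw [inv_zpow', neg_neg, h.gm, mul_zero] at h1
    rw [h1]
    exact pow_nonneg hd.le k

theorem RRad_diff (hA : Aut F a) (h : Leaf d Gp Gm κ ξ) (i : ℤ) (y ρ : ℂ) :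
    Differentiable ℂ fun ζ : ℂ => (F ^ i) (ξ (y + ρ * ζ)) :=
  (hA.zdiff i).comp (h.diff.comp (by fun_prop))

theorem RRad_div {ρ : ℝ} (hρ : 0 < ρ) (w y : ℂ) :
    y + ρ * ((w - y) / ρ) = w ∧ ‖(w - y) / ρ‖ = ‖w - y‖ / ρ := by
  have h1 : (ρ : ℂ) ≠ 0 := Complex.ofReal_ne_zero.2 hρ.ne'
  rw [mul_div_cancel₀ _ h1, add_sub_cancel, norm_div, Complex.norm_real, Real.norm_of_nonneg hρ.le]
  exact ⟨rfl, rfl⟩

/-- the normalized curves are uniformly Lipschitz on the unit disc (Cauchy, `bound 2`), so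
`Gp < 1/d` on a disc of fixed radius (`HalfG.unif`) -/
theorem Leaf.rad_pred (hA : Aut F a) (hp : HalfG F d Gp Gm) (hm : HalfG F⁻¹ d Gm Gp)
    (h : Leaf d Gp Gm κ ξ) : ∃ L : ℝ, 1 ≤ L ∧ ∀ (i : ℤ), ∀ y ∈ Jx Gp ξ,
      rad d Gp ξ i y ≤ L * rad d Gp ξ (i + 1) y := by
  obtain ⟨B, hB⟩ := h.bound hp hm 2
  have hd : 0 < d := zero_lt_one.trans hp.one_lt
  obtain ⟨r, hr, hu⟩ := hp.unif B (g := 1 / (2 * d)) (by positivity)
  refine ⟨max 1 (B / r), le_max_left _ _, fun i y hy => ?_⟩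
  by_contra hcon
  rw [not_le] at hcon
  have h0 := (h.rad_spec hp i hy).1
  obtain ⟨h1, ⟨w, h2, h3⟩, -⟩ := h.rad_spec hp (i + 1) hy
  obtain ⟨e1, e2⟩ := RRad_div h0 w y
  have hb := hB i y hy
  have hb0 := hb 0 (by simp)
  have hB0 : 0 ≤ B := (norm_nonneg _).trans hb0
  have hs1 : ‖(w - y) / (rad d Gp ξ i y : ℂ)‖ ≤ 1 := by
    rw [e2, div_le_one h0]
    have := mul_le_mul_of_nonneg_right (le_max_left 1 (B / r)) h1.le
    linarith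
  have hs2 : B * ‖(w - y) / (rad d Gp ξ i y : ℂ)‖ ≤ r := by
    rw [e2, ← mul_div_assoc, div_le_iff₀ h0]
    have h4 := mul_le_mul_of_nonneg_right (le_max_right 1 (B / r)) h1.le
    have h5 : B / r * rad d Gp ξ (i + 1) y ≤ rad d Gp ξ i y := by linarith
    rw [div_mul_eq_mul_div, div_le_iff₀' hr] at h5
    exact (mul_le_mul_of_nonneg_left h2 hB0).trans h5
  have h6 := Complex.dist_le_div_mul_dist_of_mapsTo_ball (c := 0) (R₁ := 2) (R₂ := 2 * B)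
    (RRad_diff hA h i y (rad d Gp ξ i y)).differentiableOn
    (fun t ht => by
      rw [mem_closedBall, dist_eq_norm]
      linarith [norm_sub_le ((F ^ i) (ξ (y + rad d Gp ξ i y * t)))
        ((F ^ i) (ξ (y + rad d Gp ξ i y * (0 : ℂ)))), hb t (mem_ball_zero_iff.1 ht).le])
    (z := (w - y) / (rad d Gp ξ i y : ℂ)) (mem_ball_zero_iff.2 (by linarith))
  rw [dist_comm, dist_eq_norm, dist_zero_right, e1] at h6
  have h7 := hu _ _ hb0 (h6.trans (by linarith))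
  rw [hp.zequi, hp.zequi, mul_zero, add_zero, (h.act hp hy).1, mul_zero, zero_sub, abs_neg] at h7
  have h8 := (le_abs_self _).trans h7
  rw [zpow_add_one₀ hd.ne'] at h3
  rw [le_div_iff₀ (by positivity)] at h8
  linarith

/-- Properness (`proper_circle`): a connected set which meets the zero set and the positive set
meets `Jx` at a point `y`; it avoids a circle of radius `t rad j y` about `y`, so it lies inside. -/
theorem Leaf.proper (hA : Aut F a) (hp : HalfG F d Gp Gm) (hm : HalfG F⁻¹ d Gm Gp)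
    (h : Leaf d Gp Gm κ ξ) : ∃ r₀ > 0, ∀ (j : ℤ) (z : ℂ) (x : E), 0 < Gp (ξ z) →
      (∀ y ∈ Jx Gp ξ, rad d Gp ξ j y < ‖z - y‖) → ∀ W : Set ℂ, IsPreconnected W → z ∈ W →
      (∀ t ∈ W, ‖(F ^ j) (ξ t) - x‖ ≤ r₀) → ∀ t ∈ W, 0 < Gp (ξ t) := by
  obtain ⟨B, hB⟩ := h.bound hp hm 2
  obtain ⟨r, hr, hc⟩ := proper_circle hp B
  refine ⟨r / 3, by positivity, fun j z x hz hfar W hW hzW hx => ?_⟩
  refine hW.subset_of_closure_inter_subset (RRad_open hp h) ⟨z, hzW, hz⟩ fun y hy => ?_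
  by_contra hn
  have hyJ : y ∈ Jx Gp ξ := by
    rw [Jx, (RRad_open hp h).frontier_eq]
    exact ⟨hy.1, hn⟩
  obtain ⟨h0, ⟨w, h2, h3⟩, -⟩ := h.rad_spec hp j hyJ
  obtain ⟨t, ht1, ht2, ht⟩ := hc (fun ζ : ℂ => (F ^ j) (ξ (y + rad d Gp ξ j y * ζ)))
    (RRad_diff hA h j y _).differentiableOn
    (fun ζ hζ => hB j y hyJ ζ (mem_ball_zero_iff.1 hζ).le)
    (by rw [hp.zequi, mul_zero, add_zero, (h.act hp hyJ).1, mul_zero])
    ⟨(w - y) / (rad d Gp ξ j y : ℂ), by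
      rw [(RRad_div h0 w y).2, div_le_one h0]
      exact h2, by
      rw [(RRad_div h0 w y).1, hp.zequi]
      exact h3⟩
  obtain ⟨v, hv, e⟩ := hW.intermediate_value hy.2 hzW (f := fun v => ‖v - y‖) (by fun_prop)
    (show t * rad d Gp ξ j y ∈ Icc ‖y - y‖ ‖z - y‖ from ⟨by
      rw [sub_self, norm_zero]
      positivity, (mul_le_of_le_one_left h0.le ht2).trans (hfar y hyJ).le⟩)
  have h4 := ht ((v - y) / (rad d Gp ξ j y : ℂ)) (by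
    rw [(RRad_div h0 v y).2, show ‖v - y‖ = _ from e, mul_div_cancel_right₀ _ h0.ne'])
  rw [(RRad_div h0 v y).1, mul_zero, add_zero] at h4
  have h5 := norm_sub_le_norm_sub_add_norm_sub ((F ^ j) (ξ v)) x ((F ^ j) (ξ y))
  rw [norm_sub_rev x] at h5
  linarith [hx v hv, hx y hy.2]

end Pool.Agent.Lib.MP_7b5e47_an.Hn
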