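import Pool.Agent.Lib.MP_7b5e47_an.Hn.LIT
import Pool.Agent.Lib.MP_7b5e47_an.Hn.CNeut
import Pool.Agent.Lib.MP_7b5e47_an.Hn.RRad

namespace Pool.Agent.Lib.MP_7b5e47_an.Hn

open Filter Topology Set Metric MeasureTheory

/-! A point with a neutral direction: its strong stable curve meets the leaf in a Fatou disc. -/

variable {F : Pm} {a : ℂ} {d : ℝ} {Gp Gm : E → ℝ} {μ : Measure E} {κ : ℝ} {ξ : ℂ → E}

theorem NNeut_zero {Φ : ℕ → Pm} (h : ∀ k, Φ k 0 = 0) (n : ℕ) : cmp Φ n 0 = 0 := by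
  induction n with
  | zero => rfl
  | succ n ih => rw [cmp_succ_apply, ih, h]

theorem NNeut_shadow {Φ : ℕ → Pm} {θ : ℝ} (hθ : 1 ≤ θ)
    (h : ∀ (k : ℕ) (z w : E), ‖z‖ ≤ 1 → ‖w‖ ≤ 1 → ‖Φ k z - Φ k w‖ ≤ θ * ‖z - w‖) {z w : E}
    (hw : ∀ j, ‖cmp Φ j w‖ ≤ 1 / 2) (k : ℕ) (hk : θ ^ k * ‖z - w‖ ≤ 1 / 2) :
    ‖cmp Φ k z - cmp Φ k w‖ ≤ θ ^ k * ‖z - w‖ := by
  induction k with
  | zero => simp [cmp]
  | succ k ih =>
    have h1 : θ ^ k * ‖z - w‖ ≤ 1 / 2 := (mul_le_mul_of_nonneg_right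
      (pow_le_pow_right₀ hθ k.le_succ) (norm_nonneg _)).trans hk
    have h2 := ih h1
    rw [cmp_succ_apply, cmp_succ_apply, pow_succ', mul_assoc]
    refine (h k _ _ ?_ ((hw k).trans (by norm_num))).trans
      (mul_le_mul_of_nonneg_left h2 (by linarith))
    linarith [norm_le_norm_add_norm_sub' (cmp Φ k z) (cmp Φ k w), hw k]

theorem NNeut_op {N : ℝ} (hN : 1 ≤ N) {u s : E} (hu : ‖u‖ = 1) (hs : ‖s‖ = 1)
    (hd : 1 / N ≤ ‖det2 u s‖) (M : E →L[ℂ] E) : ‖M‖ ≤ 2 * N * (‖M u‖ + ‖M s‖) := by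
  refine M.opNorm_le_bound (by positivity) fun e => ?_
  have h1 := congrArg (fun v => ‖M v‖) (det2_cramer u s e)
  simp only [map_add, map_smul, norm_smul] at h1
  have h2 := norm_add_le (det2 e s • M u) (det2 u e • M s)
  rw [← h1, norm_smul, norm_smul] at h2
  have h3 := norm_det2_le e s
  have h4 := norm_det2_le u e
  rw [hs, mul_one] at h3
  rw [hu, mul_one] at h4
  have h5 : 1 / N * ‖M e‖ ≤ 2 * ‖e‖ * ‖M u‖ + 2 * ‖e‖ * ‖M s‖ :=
    (mul_le_mul_of_nonneg_right hd (norm_nonneg _)).trans (h2.trans (by gcongr))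
  rw [div_mul_eq_mul_div, one_mul, div_le_iff₀ (by linarith)] at h5
  exact h5.trans_eq (by ring)

theorem NNeut_ret {c N : ℝ} (hc : 0 < c) (hN : 1 ≤ N) {u s : E} {c₁ c₂ p : ℂ}
    (hu : ‖c₁ • u‖ = 1) (hs : ‖c₂ • s‖ = 1) (hd : 1 / N ≤ ‖det2 (c₁ • u) (c₂ • s)‖)
    (hp : c ≤ ‖p‖) (q : ℂ) : ‖u‖ ≤ 2 * N / c * ‖p • u + q • s‖ := by
  have e : c₁ * det2 (p • u + q • s) (c₂ • s) = p * det2 (c₁ • u) (c₂ • s) := by
    simp [det2]
    ring
  have h1 := congrArg norm e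
  have h2 := norm_det2_le (p • u + q • s) (c₂ • s)
  rw [hs, mul_one] at h2
  rw [norm_mul, norm_mul] at h1
  rw [norm_smul] at hu
  have h3 : c * (1 / N) ≤ ‖c₁‖ * (2 * ‖p • u + q • s‖) :=
    (mul_le_mul hp hd (by positivity) (norm_nonneg _)).trans
      (h1.symm.le.trans (mul_le_mul_of_nonneg_left h2 (norm_nonneg _)))
  have h4 := mul_le_mul_of_nonneg_right h3 (norm_nonneg u)
  rw [mul_right_comm ‖c₁‖, hu, one_mul, mul_one_div, div_mul_eq_mul_div,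
    div_le_iff₀ (by linarith)] at h4
  rw [div_mul_eq_mul_div, le_div_iff₀ hc]
  linarith

/-- The stable graph through a neutral point is active. Its tangent vector at `x` is
`v = c • u + r • s` with `r ≠ 0`. If `Gm` vanished on it near `x`, the curves `F^(-n) ∘ Y` would be
bounded near `0` (`proper`), so `‖D(F^(-n)) v‖` would be bounded (Cauchy). But
`‖D(F^(-n)) u‖ ≤ N exp (ε n)` and, by `Aut.zjac`,
`‖D(F^(-n)) s‖ ≥ exp ((-χs - ε) n) / (2 N^2)`. -/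
theorem neutral_act (hA : Aut F a) (hp : HalfG F d Gp Gm) (hm : HalfG F⁻¹ d Gm Gp)
    {χs ε N : ℝ} (hχ : χs = Real.log ‖a‖) (hε : χs + 2 * ε < 0) (hε0 : 0 ≤ ε) {x u s : E}
    (hx : x ∈ Kp F⁻¹) (hg : Good F 0 χs ε N x u s) {Y : ℂ → E} {ρ : ℝ} (hρ : 0 < ρ)
    (hY : DifferentiableOn ℂ Y (ball 0 ρ)) (h0 : Y 0 = x) (hK : ∀ t ∈ ball (0 : ℂ) ρ, Y t ∈ Kp F)
    (hv : det2 u (deriv Y 0) ≠ 0) : Act Gm Y 0 := by
  refine ⟨by rw [h0]; exact (hm.zero_iff x).2 hx, fun hz => ?_⟩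
  obtain ⟨η, hη, hz⟩ := Metric.eventually_nhds_iff_ball.1 hz
  obtain ⟨R, hR⟩ := hp.proper 0
  obtain ⟨σ, hσ, h1, h2⟩ : ∃ σ : ℝ, 0 < σ ∧ σ < ρ ∧ σ < η :=
    ⟨min ρ η / 2, by positivity, by linarith [min_le_left ρ η, lt_min hρ hη],
      by linarith [min_le_right ρ η, lt_min hρ hη]⟩
  have hd : 0 < ‖det2 u (deriv Y 0)‖ := norm_pos_iff.2 hv
  have ha : ‖a‖ = Real.exp χs := by rw [hχ, Real.exp_log (norm_pos_iff.2 hA.ne)]
  have hN := hg.one_le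
  have key : ∀ n : ℕ, Real.exp ((-χs - ε) * n) * ‖det2 u (deriv Y 0)‖ ≤ 2 * N * (R / σ) := by
    intro n
    have h3 : ‖deriv (fun t => (F ^ (-(n : ℤ))) (Y t)) 0‖ ≤ R / σ := by
      refine Complex.norm_deriv_le_of_forall_mem_sphere_norm_le hσ
        (((hA.zdiff _).comp_differentiableOn hY).diffContOnCl_ball (closedBall_subset_ball h1))
        fun t ht => hR _ ?_ ?_
      · exact ((hp.zero_iff _).2 ((mem_Kp_zpow _).2
          (hK t (sphere_subset_closedBall.trans (closedBall_subset_ball h1) ht)))).le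
      · exact ((hm.zero_iff _).2 ((mem_Km_zpow _).2 ((hm.zero_iff _).1 (not_not.1
          (hz t (sphere_subset_closedBall.trans (closedBall_subset_ball h2) ht)))))).le
    rw [hA.deriv_comp _ (hY.differentiableAt (ball_mem_nhds 0 hρ)), h0] at h3
    have h4 := norm_det2_le (fderiv ℂ (⇑(F ^ (-(n : ℤ)))) x u)
      (fderiv ℂ (⇑(F ^ (-(n : ℤ)))) x (deriv Y 0))
    have e : ‖a‖ ^ (-(n : ℤ)) = Real.exp (χs * ((-(n : ℤ) : ℤ) : ℝ)) := by
      rw [ha, Real.exp_mul, Real.rpow_intCast]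
    rw [hA.zjac, norm_mul, norm_zpow, e] at h4
    have h5 := hg.bu (-(n : ℤ))
    rw [zero_mul, zero_add] at h5
    push_cast at h4 h5
    rw [abs_neg, Nat.abs_cast] at h5
    have h6 : Real.exp (χs * -(n : ℝ)) * ‖det2 u (deriv Y 0)‖ ≤
        2 * (N * Real.exp (ε * n)) * (R / σ) := h4.trans (by gcongr)
    have e2 : Real.exp (χs * -(n : ℝ)) = Real.exp (ε * n) * Real.exp ((-χs - ε) * n) := by
      rw [← Real.exp_add]
      congr 1
      ring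
    rw [e2, mul_assoc] at h6
    refine le_of_mul_le_mul_left (h6.trans_eq ?_) (Real.exp_pos (ε * n))
    ring
  have h7 : Tendsto (fun n : ℕ => Real.exp ((-χs - ε) * n) * ‖det2 u (deriv Y 0)‖) atTop atTop :=
    (Real.tendsto_exp_atTop.comp (tendsto_natCast_atTop_atTop.const_mul_atTop
      (by linarith))).atTop_mul_const hd
  obtain ⟨n, hn⟩ := (h7.eventually_gt_atTop (2 * N * (R / σ))).exists
  exact (key n).not_gt hn

/-- Let `A = nch ..`, `Φ = fwc F A 0` from `exists_nchain` with `δ₁ = (κ - exp (6 ε)) / 4`, `γ` its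
stable graph (`γ 0 = 0`), `Y t = (A 0).pm (γ t, t)` on `ball 0 (1/2)`; staying points are within
`2 exp (-5 ε k)` of the orbit of `x`. `neutral_act` and `inter` (with `ξ` at a point of `Jx`) give
`w = F^m (ξ ζ) = Y t₀` transversally; `X t = F^m (ξ (ζ + t))`.
(1) `ζ ∉ Jx`: otherwise `rad_spec`, `rad_le` give points `ζ_k` within `C κ^(-k)` of `ζ` with
`Gp (F^(m+k) (ξ ζ_k)) ≥ 1`; by `Step.lip_up` (`A = exp (6 ε)`, `A + 2 δ < κ`) and `Chain.stay_le`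
their orbits stay in the charts up to time `k`, so `F^(m+k) (ξ ζ_k)` is within `2 exp (-5 ε k)` of
`F^k x ∈ K⁺`, contradicting `HalfG.unif`. So `Gp ∘ X = 0` near `0` and the `F^k ∘ X` are bounded.
(2) `Chain.vec` gives `c exp (6 ε k) ≤ ‖first chart coordinate of (F^k ∘ X)' 0‖`; that coordinate is
`det2 v_k S_k / (A k).det`, so `c r ‖det2 u_k s_k‖ ≤ 2 ‖v_k‖ ‖s_k‖` with
`u_k = D(F^k) x u`, `s_k = D(F^k) x s`. At a time `k` with `F^k x ∈ Reg`, `Good.at_return` gives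
`‖u_k‖ ‖s_k‖ ≤ N ‖det2 u_k s_k‖`. Finally `‖D(F^k) x‖ ≤ 4 N (‖u_k‖ + ‖s_k‖)` (`det2_cramer`) and
`‖s_k‖ ≤ N exp ((χs + ε) k)`. -/
theorem neutral_disc (h : Sys F a d Gp Gm μ) (ha : ‖a‖ < 1) (hL : Leaf d Gp Gm κ ξ) {X : Set E}
    {χs ε N : ℝ} (hε : 0 < ε) (h2 : 1000 * ε ≤ -χs) (h3 : 1000 * ε ≤ 1)
    (hχ : χs = Real.log ‖a‖) (hκ : Real.exp (6 * ε) < κ) {x : E} (hx : x ∈ Kp F)
    (hx' : x ∈ Kp F⁻¹) (hr : x ∈ Reg F X 0 χs ε N) :
    ∃ (Z : ℂ → E) (ρ B C : ℝ), 0 < ρ ∧ DifferentiableOn ℂ Z (ball 0 ρ) ∧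
      (∀ k : ℕ, ∀ t ∈ ball (0 : ℂ) ρ, ‖(F ^ k) (Z t)‖ ≤ B) ∧
      (∀ k : ℕ, ‖(F ^ k) (Z 0) - (F ^ k) x‖ ≤ 2 * Real.exp (-(5 * ε * k))) ∧
      ∀ᶠ k : ℕ in atTop, (F ^ k) x ∈ Reg F X 0 χs ε N → ‖fderiv ℂ (⇑(F ^ k)) x‖ ≤
        C * (‖deriv (fun t => (F ^ k) (Z t)) 0‖ + Real.exp ((χs + ε) * k)) := by
  obtain ⟨-, u, s, hg⟩ := hr
  obtain ⟨R, hR⟩ := id hx
  have hA := h.aut
  have hN := hg.one_le
  obtain ⟨b, δ, r, hδ, hr0, H⟩ := exists_nchain hA R hε h2 h3 hχ N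
    (δ₁ := (κ - Real.exp (6 * ε)) / 4) (by linarith)
  obtain ⟨hC, H⟩ := H x u s hR hg
  obtain ⟨A, hAe⟩ : ∃ A, A = nch F ε χs r x u s := ⟨_, rfl⟩
  rw [← hAe] at hC H
  obtain ⟨Φ, hΦ⟩ : ∃ Φ, Φ = fwc F A 0 := ⟨_, rfl⟩
  rw [← hΦ] at hC H
  have hdet : ∀ k : ℕ, (A k).det ≠ 0 := fun k => (H k).1
  have hdet0 : (A 0).det ≠ 0 := hdet 0
  have hc : ∀ k : ℕ, (A k).c = (F ^ k) x := fun k => by rw [hAe, nch, zpow_natCast]
  have hcmp : ∀ (k : ℕ) (z : E), (F ^ k) ((A 0).pm z) = (A k).pm (cmp Φ k z) := fun k z => by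
    rw [hΦ, cmp_fwc, zero_add]
    simp
  have hclose : ∀ (k : ℕ) (z : E), ‖cmp Φ k z‖ ≤ 1 →
      ‖(F ^ k) ((A 0).pm z) - (F ^ k) x‖ ≤ 2 * Real.exp (-(5 * ε * k)) := fun k z hz => by
    have h4 := Ch.norm_pm_sub (hdet k) (H k).2.1 (H k).2.2.1 (cmp Φ k z) 0
    rw [← hcmp, Ch.pm_apply (hdet k) 0, hc, sub_zero] at h4
    simp only [Prod.fst_zero, Prod.snd_zero, zero_smul, add_zero] at h4
    exact h4.trans (mul_le_of_le_one_right (by positivity) hz)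
  have hKp : ∀ z : E, Stay Φ z → (A 0).pm z ∈ Kp F := fun z hz => by
    refine ⟨R + 2, fun k => ?_⟩
    have h4 := hclose k z (hz k)
    have h5 : Real.exp (-(5 * ε * k)) ≤ 1 := Real.exp_le_one_iff.2 (neg_nonpos.2 (by positivity))
    linarith [norm_le_norm_add_norm_sub' ((F ^ k) ((A 0).pm z)) ((F ^ k) x), hR k]
  obtain ⟨γ, hγ⟩ := hC.exists_sg
  have hγ0 : γ 0 = 0 := (hγ.uniq 0 (by simp) fun j => by
    rw [NNeut_zero (fun k => (H k).2.2.2.1)]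
    simp).symm
  have hYd : ∀ t ∈ ball (0 : ℂ) 1, HasDerivAt (fun t => (A 0).pm (γ t, t))
      (deriv γ t • (A 0).U + (1 : ℂ) • (A 0).S) t := fun t ht => by
    have h4 := ((A 0).diff _).hasFDerivAt.comp_hasDerivAt t
      ((hγ.gr.1.differentiableAt (isOpen_ball.mem_nhds ht)).hasDerivAt.prodMk (hasDerivAt_id t))
    rw [Ch.fderiv_pm hdet0] at h4
    exact h4
  have hsub : ball (0 : ℂ) (1 / 2) ⊆ ball 0 1 := ball_subset_ball (by norm_num)
  have hY : DifferentiableOn ℂ (fun t => (A 0).pm (γ t, t)) (ball 0 (1 / 2)) := fun t ht =>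
    (hYd t (hsub ht)).differentiableAt.differentiableWithinAt
  have hact : Act Gm (fun t => (A 0).pm (γ t, t)) 0 := by
    refine neutral_act hA h.gp h.gm hχ (by linarith) hε.le hx' hg one_half_pos hY ?_
      (fun t ht => hKp _ (hγ.stay t (hsub ht))) fun e => hdet0 ?_
    · have h4 : (A 0).c = x := by simpa using hc 0
      simp [hγ0, Ch.pm_apply hdet0, h4]
    · rw [(hYd 0 (mem_ball_self one_pos)).deriv] at e
      obtain ⟨c, hU⟩ : ∃ c : ℂ, (A 0).U = c • u := ⟨_, by rw [hAe, nch]; simp; rfl⟩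
      have h4 := det2_smul c 1 u (deriv γ 0 • (A 0).U + (1 : ℂ) • (A 0).S)
      rw [e, ← hU, mul_zero] at h4
      rw [← h4, Ch.det]
      simp [det2]
      ring
  obtain ⟨y, hy⟩ := hL.nonempty h.gp
  obtain ⟨m, ζ, ζ', -, hζ', hZ0, htr⟩ := inter h ha one_pos one_half_pos
    hL.diff.differentiableOn hY (hL.act h.gp hy) hact
  obtain ⟨W, hW⟩ : ∃ W : ℂ → E, ∀ t, W t = (A 0).pm⁻¹ ((F ^ m) (ξ t)) := ⟨_, fun _ => rfl⟩
  have hWd : Differentiable ℂ W := by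
    rw [show W = _ from funext hW]
    exact (A 0).diff_inv.comp ((hA.ndiff m).comp hL.diff)
  have hWe : ∀ t, (F ^ m) (ξ t) = (A 0).pm (W t) := fun t => by simp [hW]
  have hWζ : W ζ = (γ ζ', ζ') := by rw [hW, hZ0]; simp
  have hst : Stay Φ (W ζ) := by rw [hWζ]; exact hγ.stay _ (hsub hζ')
  have hhalf : ∀ j, ‖cmp Φ j (W ζ)‖ ≤ 1 / 2 := by
    refine hC.stay_le hst (by norm_num) ?_
    rw [hWζ, Prod.norm_mk]
    exact max_le ((hγ.small _ (hsub hζ')).trans (by norm_num)) (mem_ball_zero_iff.1 hζ').le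
  have hΛ : 1 ≤ Real.exp (6 * ε) := hC.1.1.le
  have hδ0 : 0 < δ := hC.1.2.2.2.2.1
  have hJ : ζ ∉ Jx Gp ξ := by
    intro hJ
    obtain ⟨C, hC0, hCr⟩ := hL.rad_le h.gp
    obtain ⟨r₀, hr₀, hun⟩ := h.gp.unif R one_half_pos
    obtain ⟨L, hL0, hLb⟩ := (hWd ζ).isBigO_sub.exists_pos
    obtain ⟨η, hη, hLb⟩ := Metric.eventually_nhds_iff.1 hLb.bound
    have hκ1 := hL.one_lt
    have hκ0 : 0 < κ := by linarith
    obtain ⟨θ, hθ⟩ : ∃ θ, θ = Real.exp (6 * ε) + 2 * δ := ⟨_, rfl⟩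
    have hθ1 : 1 ≤ θ := by linarith
    have hθκ : θ < κ := by linarith
    have t1 : Tendsto (fun k : ℕ => 2 * Real.exp (-(5 * ε * k))) atTop (𝓝 (2 * 0)) :=
      (Real.tendsto_exp_neg_atTop_nhds_zero.comp
        (tendsto_natCast_atTop_atTop.const_mul_atTop (by positivity))).const_mul 2
    have t2 : Tendsto (fun k : ℕ => (θ / κ) ^ k * (L * (‖ζ‖ + C))) atTop
        (𝓝 (0 * (L * (‖ζ‖ + C)))) :=
      (tendsto_pow_atTop_nhds_zero_of_lt_one (by positivity)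
        ((div_lt_one hκ0).2 hθκ)).mul_const _
    have t3 : Tendsto (fun k : ℕ => (‖ζ‖ + C) / κ ^ k) atTop (𝓝 0) :=
      tendsto_const_nhds.div_atTop (tendsto_pow_atTop_atTop_of_one_lt hκ1)
    rw [mul_zero] at t1
    rw [zero_mul] at t2
    obtain ⟨k, ⟨k1, k2⟩, k3⟩ := (((t1.eventually (gt_mem_nhds hr₀)).and
      (t2.eventually (gt_mem_nhds one_half_pos))).and (t3.eventually (gt_mem_nhds hη))).exists
    obtain ⟨h4, ⟨t, ht, hG⟩, -⟩ := hL.rad_spec h.gp ((k + m : ℕ) : ℤ) hJ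
    have h5 : ‖t - ζ‖ ≤ (‖ζ‖ + C) / κ ^ k := by
      rw [le_div_iff₀' (by positivity)]
      exact (mul_le_mul (pow_le_pow_right₀ hκ1.le (Nat.le_add_right k m)) ht (norm_nonneg _)
        (by positivity)).trans (hCr (k + m) ζ hJ)
    have h6 : ‖W t - W ζ‖ ≤ L * ((‖ζ‖ + C) / κ ^ k) :=
      (hLb (by rw [dist_eq_norm]; exact h5.trans_lt k3)).trans (by gcongr)
    have h7 : θ ^ k * ‖W t - W ζ‖ ≤ 1 / 2 := by
      refine (mul_le_mul_of_nonneg_left h6 (by positivity)).trans (le_of_eq_of_le ?_ k2.le)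
      rw [div_pow]
      ring
    have h8 := NNeut_shadow hθ1 (fun j z w hz hw => by
      rw [hθ]
      refine (hC.2 j).lip_up hC.1 hΛ (fun v => ?_) hz hw
      rw [(H j).2.2.2.2, Prod.norm_mk, norm_mul, norm_mul, Complex.norm_real, Complex.norm_real,
        Real.norm_of_nonneg (Real.exp_pos _).le, Real.norm_of_nonneg (Real.exp_pos _).le]
      exact max_le (mul_le_mul_of_nonneg_left (norm_fst_le v) (Real.exp_pos _).le)
        (mul_le_mul (Real.exp_le_exp.2 (by linarith)) (norm_snd_le v) (norm_nonneg _)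
          (Real.exp_pos _).le)) hhalf k h7
    have h9 := hclose k (W t) (by
      linarith [norm_le_norm_add_norm_sub' (cmp Φ k (W t)) (cmp Φ k (W ζ)), hhalf k])
    have h10 := hun _ _ (hR k) (by rw [norm_sub_rev]; exact h9.trans k1.le)
    rw [h.gp.nequi, (h.gp.zero_iff x).2 hx, mul_zero, zero_sub, abs_neg, ← hWe,
      ← Equiv.Perm.mul_apply, ← pow_add, h.gp.nequi] at h10
    rw [zpow_natCast] at hG
    linarith [le_abs_self (d ^ (k + m) * Gp (ξ t))]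
  have hG0 : ξ ζ ∈ Kp F := by
    have h4 := hKp _ hst
    rwa [← hWe, ← zpow_natCast, mem_Kp_zpow] at h4
  obtain ⟨ρ, hρ, hρz⟩ : ∃ ρ > 0, ∀ t ∈ ball ζ ρ, Gp (ξ t) = 0 := by
    have hO : IsOpen {ζ | 0 < Gp (ξ ζ)} :=
      isOpen_lt continuous_const (h.gp.cont.comp hL.diff.continuous)
    rw [Jx, hO.frontier_eq, Set.mem_sdiff, not_and, not_not] at hJ
    have h4 : ζ ∉ closure {ζ | 0 < Gp (ξ ζ)} := fun h5 => by
      have h6 : 0 < Gp (ξ ζ) := hJ h5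
      exact h6.ne' ((h.gp.zero_iff _).2 hG0)
    obtain ⟨ρ, hρ, h5⟩ := Metric.isOpen_iff.1 isClosed_closure.isOpen_compl ζ h4
    exact ⟨ρ, hρ, fun t ht => le_antisymm (not_lt.1 fun h6 => h5 ht (subset_closure h6))
      (h.gp.nonneg _)⟩
  obtain ⟨B, hB⟩ := h.gp.proper 0
  have hv : (deriv W ζ).1 - deriv γ ζ' * (deriv W ζ).2 ≠ 0 := fun e => htr (by
    have h4 := ((A 0).diff _).hasFDerivAt.comp_hasDerivAt ζ (hWd ζ).hasDerivAt
    rw [Ch.fderiv_pm hdet0] at h4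
    rw [show (fun t => (F ^ m) (ξ t)) = ⇑(A 0).pm ∘ W from funext hWe, h4.deriv,
      (hYd ζ' (hsub hζ')).deriv, (A 0).det2_vec (deriv W ζ) (deriv γ ζ', 1), det2]
    exact mul_eq_zero_of_left (by linear_combination e) _)
  obtain ⟨c, hc0, k₀, hk₀⟩ := hC.vec (fun k => (H k).2.2.2.1) (fun k => (H k).2.2.2.2) hγ
    (hsub hζ') hv
  refine ⟨fun t => (F ^ m) (ξ (ζ + t)), ρ, B, 2 * N * (2 * N / (c * r) + N), hρ,
    ((hA.ndiff m).comp (hL.diff.comp (differentiable_id.const_add ζ))).differentiableOn,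
    fun k t ht => ?_, fun k => ?_, ?_⟩
  · rw [← Equiv.Perm.mul_apply, ← pow_add]
    refine hB _ ?_ ?_
    · rw [h.gp.nequi, hρz _ (by simpa using ht), mul_zero]
    · rw [← zpow_natCast]
      exact ((h.gm.zero_iff _).2 ((mem_Km_zpow _).2 ((h.gm.zero_iff _).1 (hL.gm _)))).le
  · simp only [add_zero]
    rw [hWe]
    exact hclose k _ (hst k)
  · filter_upwards [eventually_ge_atTop k₀] with k hk ⟨_, u', s', hg'⟩
    have h4 := hk₀ k hk
    rw [← hWζ, Finset.prod_const, Finset.card_range, Complex.norm_real,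
      Real.norm_of_nonneg (Real.exp_pos _).le, ← Real.exp_nat_mul] at h4
    rw [← zpow_natCast] at hg'
    obtain ⟨c₁, c₂, e₁, e₂⟩ := Good.at_return hA (by rw [zero_add, hχ]) hε.le (by linarith) hg hg'
    rw [zpow_natCast] at e₁ e₂
    have h5 : HasDerivAt (fun t => W (ζ + t)) (deriv W ζ) 0 := by
      have h6 : HasDerivAt W (deriv W ζ) (ζ + 0) := by
        rw [add_zero]
        exact (hWd ζ).hasDerivAt
      exact h6.comp_const_add ζ 0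
    have h6 := ((A k).diff _).hasFDerivAt.comp_hasDerivAt 0
      (((hC.diff k).1 _).hasFDerivAt.comp_hasDerivAt 0 h5)
    rw [Ch.fderiv_pm (hdet k), add_zero] at h6
    have e : (fun t => (F ^ k) ((F ^ m) (ξ (ζ + t)))) =
        ⇑(A k).pm ∘ ⇑(cmp Φ k) ∘ fun t => W (ζ + t) := funext fun t => by
      rw [hWe, hcmp]
      rfl
    have hU : (A k).U = ((r * Real.exp (-(6 * ε * k)) : ℝ) : ℂ) • fderiv ℂ (⇑(F ^ k)) x u := by
      rw [hAe, nch, zpow_natCast, Int.cast_natCast]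
    obtain ⟨σ, hS⟩ : ∃ σ : ℂ, (A k).S = σ • fderiv ℂ (⇑(F ^ k)) x s :=
      ⟨_, by rw [hAe, nch, zpow_natCast]⟩
    have h7 := hg.bs k
    rw [zpow_natCast, Int.cast_natCast, Nat.abs_cast, ← add_mul] at h7
    have h8 : c * r ≤ ‖(fderiv ℂ (⇑(cmp Φ k)) (W ζ) (deriv W ζ)).1 *
        ((r * Real.exp (-(6 * ε * k)) : ℝ) : ℂ)‖ := by
      rw [norm_mul, Complex.norm_real, Real.norm_of_nonneg (by positivity)]
      refine le_of_eq_of_le ?_ (mul_le_mul_of_nonneg_right h4 (by positivity))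
      rw [mul_mul_mul_comm, ← Real.exp_add, show (k : ℝ) * (6 * ε) + -(6 * ε * k) = 0 by ring,
        Real.exp_zero, mul_one]
    have h9 := NNeut_ret (mul_pos hc0 hr0) hN (e₁ ▸ hg'.nu) (e₂ ▸ hg'.ns) (e₁ ▸ e₂ ▸ hg'.det) h8
      ((fderiv ℂ (⇑(cmp Φ k)) (W ζ) (deriv W ζ)).2 * σ)
    rw [e, h6.deriv, hU, hS, smul_smul, smul_smul]
    refine (NNeut_op hN hg.nu hg.ns hg.det _).trans ?_
    rw [mul_assoc (2 * N)]
    refine mul_le_mul_of_nonneg_left ?_ (by positivity)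
    have h10 : 0 ≤ 2 * N / (c * r) := by positivity
    refine (add_le_add h9 h7).trans ?_
    rw [mul_add]
    exact add_le_add (mul_le_mul_of_nonneg_right (by linarith) (norm_nonneg _))
      (mul_le_mul_of_nonneg_right (by linarith) (Real.exp_pos _).le)

end Pool.Agent.Lib.MP_7b5e47_an.Hn
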