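import Pool.Agent.Lib.MP_7b5e47_an.Hn.LBasic
import Pool.Agent.Lib.MP_7b5e47_an.Hn.LPot2

namespace Pool.Agent.Lib.MP_7b5e47_an.Hn

open Filter Topology Set Metric MeasureTheory

variable {F : Pm} {a : ℂ} {d : ℝ} {Gp Gm : E → ℝ} {Λ b δ c₀ : ℝ} {A₀ : Ch} {x : E}
  {A : ℤ → Ch} {T : Set ℤ}

theorem NPos_big (q : ℝ) : ∃ M : ℝ, 1 < M ∧ Real.log q / Real.log M ≤ 1 / 5 := by
  have h0 := abs_nonneg (Real.log q)
  refine ⟨Real.exp (5 * |Real.log q| + 1), Real.one_lt_exp_iff.mpr (by linarith), ?_⟩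
  rw [Real.log_exp, div_le_iff₀ (by linarith)]
  linarith [le_abs_self (Real.log q)]

theorem NPos_core {N P : ℂ → ℝ} {h₁ h₂ : ℂ → ℂ} {ρ c₁ c₂ M₁ M₂ g : ℝ} {z z₁ : ℂ}
    (hN : Continuous N) (hc₁ : 0 < c₁) (hM₁ : 1 < M₁)
    (hl₁ : Real.log (2 / c₁) / Real.log M₁ ≤ 1 / 5) (hc₂ : 0 < c₂) (hM₂ : 1 < M₂)
    (hl₂ : Real.log (2 / c₂) / Real.log M₂ ≤ 1 / 5) (hg : 0 < g) (hP : Continuous P)
    (hP0 : ∀ t, 0 ≤ P t)
    (h1 : ∀ t, N t ≤ ρ → AnalyticAt ℂ h₁ t ∧ c₁ ≤ ‖h₁ t‖ ∧ AnalyticAt ℂ h₂ t ∧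
      (‖h₂ t‖ ≤ c₂ → g ≤ P t) ∧ (ρ ≤ N t → c₁ * M₁ ≤ ‖h₁ t‖ ∨ c₂ * M₂ ≤ ‖h₂ t‖))
    (hz : N z < ρ) (hz1 : ‖h₁ z‖ ≤ 2) (hz2 : ‖h₂ z‖ ≤ 2) (hz3 : P z ≤ g / 5) (hz₁ : ρ < N z₁)
    (hW : ∀ W : Set ℂ, IsPreconnected W → z ∈ W → (∀ t ∈ W, N t ≤ ρ) → ∀ t ∈ W, MV P t) :
    False := by
  obtain ⟨r₁, hr₁, hball⟩ := Metric.isOpen_iff.mp (isOpen_lt continuous_const hN) z₁ hz₁
  have hfar : ∀ t, N t ≤ ρ → r₁ ≤ ‖t - z₁‖ := fun t ht => by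
    by_contra h
    exact absurd (hball (mem_ball_iff_norm.mpr (not_le.mp h))) (not_lt.mpr ht)
  have hzR : ∃ M₃ : ℝ, 1 < M₃ ∧ Real.log (‖z - z₁‖ / r₁) / Real.log M₃ ≤ 1 / 5 ∧
      ‖z - z₁‖ < r₁ * M₃ := by
    obtain ⟨M, hM, hl⟩ := NPos_big (‖z - z₁‖ / r₁)
    have h2 : 1 ≤ ‖z - z₁‖ / r₁ := (one_le_div hr₁).mpr (hfar z hz.le)
    have h3 := Real.log_nonneg h2
    have h4 := Real.log_pos hM
    refine ⟨M, hM, hl, ?_⟩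
    rw [mul_comm, ← div_lt_iff₀ hr₁, ← Real.log_lt_log_iff (by linarith) (by linarith)]
    rw [div_le_iff₀ h4] at hl
    linarith
  obtain ⟨M₃, hM₃, hl₃, hzR⟩ := hzR
  set O : Set ℂ := ({t | N t < ρ} ∩ (fun t => ‖h₂ t‖) ⁻¹' Ioi c₂) ∩ ball z₁ (r₁ * M₃) with hO
  have hOo : IsOpen O := by
    refine IsOpen.inter (ContinuousOn.isOpen_inter_preimage (fun t ht => ?_)
      (isOpen_lt hN continuous_const) isOpen_Ioi) isOpen_ball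
    exact (h1 t (le_of_lt ht)).2.2.1.continuousAt.norm.continuousWithinAt
  have hOb : Bornology.IsBounded O := isBounded_ball.subset inter_subset_right
  have hzO : z ∈ O := by
    refine ⟨⟨hz, ?_⟩, mem_ball_iff_norm.mpr hzR⟩
    by_contra h
    have := (h1 z hz.le).2.2.2.1 (not_lt.mp h)
    linarith
  set W := connectedComponentIn O z with hWd
  have hWO : W ⊆ O := connectedComponentIn_subset O z
  have hzW : z ∈ W := mem_connectedComponentIn hzO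
  have hcl : ∀ t ∈ closure W, N t ≤ ρ := fun t ht =>
    closure_minimal (fun t ht => le_of_lt (hWO ht).1.1) (isClosed_le hN continuous_const) ht
  obtain ⟨a1, a2, a3⟩ := log_barrier (h := h₁) (W := W) hc₁ hM₁ fun t ht =>
    ⟨(h1 t (hcl t ht)).1, (h1 t (hcl t ht)).2.1⟩
  obtain ⟨b1, b2, b3⟩ := log_barrier (h := h₂) (W := W) hc₂ hM₂ fun t ht =>
    ⟨(h1 t (hcl t ht)).2.2.1, ContinuousWithinAt.closure_le ht continuousWithinAt_const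
      (h1 t (hcl t ht)).2.2.1.continuousAt.norm.continuousWithinAt
      fun y hy => le_of_lt (hWO hy).1.2⟩
  obtain ⟨d1, d2, d3⟩ := log_barrier (h := fun t => t - z₁) (W := W) hr₁ hM₃ fun t ht =>
    ⟨analyticAt_id.sub analyticAt_const, hfar t (hcl t ht)⟩
  have e2 := hW W isPreconnected_connectedComponentIn hzW fun t ht => hcl t (subset_closure ht)
  obtain ⟨ζ, hζ, hζO, hle⟩ := barrier (φ := fun t => -1 * (Real.log (‖h₁ t‖ / c₁) / Real.log M₁ +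
      Real.log (‖h₂ t‖ / c₂) / Real.log M₂ + Real.log (‖t - z₁‖ / r₁) / Real.log M₃ + g⁻¹ * P t))
    hOo hOb hzO (continuousOn_const.mul (((a1.add b1).add d1).add
      (continuousOn_const.mul hP.continuousOn)))
    fun t ht => (MV.const_mul (-1) ((((a2 t ht).add (b2 t ht)).add (d2 t ht)).add
      (MV.const_mul g⁻¹ (e2 t ht)))).smv
  have f1 := (a3 z (subset_closure hzW)).2.2 2 hz1
  have f2 := (b3 z (subset_closure hzW)).2.2 2 hz2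
  have f3 : g⁻¹ * P z ≤ 1 / 5 := by
    rw [inv_mul_le_iff₀ hg]
    linarith
  obtain ⟨g1, g2, -⟩ := a3 ζ hζ
  obtain ⟨g3, g4, -⟩ := b3 ζ hζ
  obtain ⟨g5, g6, -⟩ := d3 ζ hζ
  have g7 : 0 ≤ g⁻¹ * P ζ := mul_nonneg (inv_nonneg.mpr hg.le) (hP0 ζ)
  obtain ⟨-, -, -, k1, k2⟩ := h1 ζ (hcl ζ hζ)
  by_cases m1 : ρ ≤ N ζ
  · rcases k2 m1 with k | k
    · linarith [g2 k]
    · linarith [g4 k]
  by_cases m2 : ‖h₂ ζ‖ ≤ c₂
  · have : 1 ≤ g⁻¹ * P ζ := by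
      rw [le_inv_mul_iff₀ hg, mul_one]
      exact k1 m2
    linarith
  have m3 : r₁ * M₃ ≤ ‖ζ - z₁‖ := by
    by_contra h
    exact hζO ⟨⟨not_le.mp m1, not_le.mp m2⟩, mem_ball_iff_norm.mpr (not_le.mp h)⟩
  linarith [g6 m3]

theorem NPos_side {G : E → ℝ} {η₀ : ℂ → ℂ} {p : E} {ρ c : ℝ} (hη : Gr 0 1 η₀)
    (hp : ‖p‖ ≤ 1 / 100) (hpe : p.2 = η₀ p.1) (hρ : 0 < ρ) (hρ' : ρ ≤ 1 / 4) (hc : 0 < c)
    (hs : ∀ ε > 0, ∃ (η' : ℂ → ℂ) (g' : ℝ), 0 < g' ∧ DifferentiableOn ℂ η' (ball 0 1) ∧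
      ∀ u ∈ ball (0 : ℂ) 1, η' u ≠ η₀ u ∧ ‖η' u - η₀ u‖ ≤ ε ∧
        ∀ t : ℂ, ‖t‖ ≤ c → g' ≤ G (u, η' u + t * (η' u - η₀ u))) :
    ∃ (H : E → ℂ) (M g r : ℝ), 1 < M ∧ 0 < g ∧ 0 < r ∧ Real.log (2 / c) / Real.log M ≤ 1 / 5 ∧
      (∀ w, ‖w - p‖ ≤ ρ → AnalyticAt ℂ H w ∧ (‖H w‖ ≤ c → g ≤ G w) ∧
        (ρ ≤ ‖w.2 - p.2‖ → c * M ≤ ‖H w‖)) ∧ ∀ w, ‖w - p‖ < r → ‖H w‖ ≤ 2 := by
  obtain ⟨M, hM, hl⟩ := NPos_big (2 / c)
  have hcM : 0 < c * M := mul_pos hc (by linarith)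
  obtain ⟨η', g, hg, hd, hη'⟩ := hs (min (ρ / 2) (ρ / 4 / (c * M))) (by positivity)
  have hb : ∀ w : E, ‖w - p‖ ≤ ρ → w.1 ∈ ball (0 : ℂ) 1 := fun w hw => by
    have h1 := norm_fst_le w
    have h2 := norm_le_norm_sub_add w p
    rw [mem_ball_zero_iff]
    linarith
  have hp0 : ‖p - p‖ ≤ ρ := by simp [hρ.le]
  have han : ∀ w : E, ‖w - p‖ ≤ ρ →
      AnalyticAt ℂ (fun w : E => (w.2 - η' w.1) / (η' w.1 - η₀ w.1)) w := fun w hw => by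
    have h1 : AnalyticAt ℂ (fun w : E => η' w.1) w :=
      (hd.analyticAt (isOpen_ball.mem_nhds (hb w hw))).comp analyticAt_fst
    have h2 : AnalyticAt ℂ (fun w : E => η₀ w.1) w :=
      (hη.1.analyticAt (isOpen_ball.mem_nhds (hb w hw))).comp analyticAt_fst
    exact (analyticAt_snd.sub h1).div (h1.sub h2) (sub_ne_zero.mpr (hη' _ (hb w hw)).1)
  have hv : ‖(p.2 - η' p.1) / (η' p.1 - η₀ p.1)‖ < 2 := by
    rw [hpe, norm_div, norm_sub_rev,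
      div_self (norm_ne_zero_iff.mpr (sub_ne_zero.mpr (hη' _ (hb p hp0)).1))]
    norm_num
  obtain ⟨r, hr, hr'⟩ := Metric.eventually_nhds_iff_ball.mp
    ((han p hp0).continuousAt.norm.eventually_lt continuousAt_const hv)
  refine ⟨fun w => (w.2 - η' w.1) / (η' w.1 - η₀ w.1), M, g, r, hM, hg, hr, hl,
    fun w hw => ⟨han w hw, fun h => ?_, fun h => ?_⟩,
    fun w hw => (hr' w (mem_ball_iff_norm.mpr hw)).le⟩
  · obtain ⟨a1, -, a3⟩ := hη' _ (hb w hw)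
    have h1 := a3 _ h
    rwa [div_mul_cancel₀ _ (sub_ne_zero.mpr a1), add_sub_cancel] at h1
  · obtain ⟨a1, a2, -⟩ := hη' _ (hb w hw)
    have a4 := a2.trans (min_le_left _ _)
    have a5 := a2.trans (min_le_right _ _)
    have a6 := hη.2.2 _ (hb w hw) _ (hb p hp0)
    have a7 : ‖w.1 - p.1‖ ≤ ρ := (norm_fst_le (w - p)).trans hw
    have a8 : ‖w.2 - p.2‖ ≤ ‖w.2 - η' w.1‖ + ‖η' w.1 - η₀ w.1‖ + ‖η₀ w.1 - η₀ p.1‖ := by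
      rw [hpe, show w.2 - η₀ p.1 = (w.2 - η' w.1) + (η' w.1 - η₀ w.1) + (η₀ w.1 - η₀ p.1) by ring]
      exact norm_add₃_le
    rw [le_div_iff₀ hcM] at a5
    rw [norm_div, le_div_iff₀ (norm_pos_iff.mpr (sub_ne_zero.mpr a1))]
    linarith

theorem NPos_rvc (A : ℤ → Ch) : rvc (rvc A) = A := by
  funext k
  simp [rvc, Ch.rev]

/-- A curve in `K⁻` through a point close to a hyperbolic point `x` meets `K⁺` near `x`.
Let `z₀ = A₀⁻¹ x`, `γ₀, η₀` the stable and unstable graphs (both pass through `z₀`),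
`ρ = min (r₀ / 2) (1/4)`. `sbar` for `F` gives `c, η', g'` and for `F⁻¹` (`RChain.rev`) gives
`c₁, γ', g₁` (halve `c₁` so that `c₁ ≤ 1/2`), with `ε ≤ ρ / 2` so small that `log (2/c) / log (ρ / (4 ε c)) ≤ 1/5` and the same for `c₁`.
With `(u, s)(t) = A₀⁻¹ (Y t)` put `h₁ = (s - η' u) / (η' u - η₀ u)`,
`h₂ = (u - γ' s) / (γ' s - γ₀ s)`. Take `Y, z` with `Y z` so close to `x` that `‖h₁ z‖ ≤ 2`,
`c₁ < ‖h₂ z‖ ≤ 2`, `Gp (Y z) ≤ g₁ / 5`. `Y` is unbounded, so there is a closed disc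
`closedBall z₁ r₁` on which `‖(u, s) - z₀‖ > ρ`; take `R` large with
`log (‖z - z₁‖ / r₁) / log (R / r₁) ≤ 1/5`. Let
`O = {t | ‖(u, s)(t) - z₀‖ < ρ ∧ c₁ < ‖h₂ t‖ ∧ ‖t - z₁‖ < R}` (open: `h₂` is continuous on the open
set given by the first condition), `W` the component of `z`. On `closure W` (preconnected)
`Gp ∘ Y > 0`, so it is harmonic; `‖h₁‖ ≥ c` since `Gm ∘ Y = 0`. The sum of the three
`log_barrier`s and of `Gp ∘ Y / g₁` is at most `4/5` at `z` and at least 1 at each point of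
`closure W` outside `O` (if `‖s - z₀.2‖ = ρ` then `‖s - η' u‖ ≥ ρ - ρ/10 - ε ≥ ρ/4`; if
`‖h₂‖ = c₁` then `Gp ≥ g₁`). `barrier` applied to minus the sum gives a contradiction. -/
theorem no_pos (hA : Aut F a) (hp : HalfG F d Gp Gm) (hm : HalfG F⁻¹ d Gm Gp)
    (h : RChain F Λ b δ c₀ A₀ x A T) (hT : Rec T) (hx : x ∈ Kp F) (hx' : x ∈ Kp F⁻¹) {r₀ : ℝ}
    (hr : 0 < r₀) (happ : ∀ ε > 0, ∃ (Y : ℂ → E) (z : ℂ), Differentiable ℂ Y ∧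
      (∀ t, Gm (Y t) = 0) ∧ (∀ B : ℝ, ∃ t, B < ‖Y t‖) ∧ ‖Y z - x‖ < ε ∧
      ∀ W : Set ℂ, IsPreconnected W → z ∈ W → (∀ t ∈ W, ‖Y t - x‖ ≤ r₀) →
        ∀ t ∈ W, 0 < Gp (Y t)) : False := by
  have hA0 : A 0 = A₀ := h.vis 0 hT.1
  have hdet : A₀.det ≠ 0 := hA0 ▸ h.det 0
  obtain ⟨hU, hS⟩ : ‖A₀.U‖ ≤ 1 ∧ ‖A₀.S‖ ≤ 1 := hA0 ▸ h.up 0
  have hrev : ∀ w : E, A₀.rev.pm w = A₀.pm w.swap := fun w => by
    rw [Ch.rev_pm hdet]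
    rfl
  set p : E := A₀.pm⁻¹ x with hpd
  have hxp : A₀.pm p = x := by simp [hpd]
  have hai : ∀ q, A₀.pm (A₀.pm⁻¹ q) = q := fun q => by simp
  have hp1 : ‖p‖ ≤ 1 / 100 := by simpa [hA0, hpd] using h.orb 0
  have hp2 : ‖p.swap‖ ≤ 1 / 100 := (norm_sw p).trans_le hp1
  obtain ⟨γ₀, hγ⟩ := (h.chain 0).exists_sg
  obtain ⟨η₀, hη⟩ := (h.rev.chain 0).exists_sg
  have e1 : p.1 = γ₀ p.2 := by
    refine hγ.uniq p ((norm_snd_le p).trans_lt (by linarith)) ?_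
    simpa [hA0, hpd] using h.stay 0
  have e2 : p.2 = η₀ p.1 := by
    refine hη.uniq p.swap ((norm_fst_le p).trans_lt (by linarith)) ?_
    have h1 := h.rev.stay 0
    have h2 : (rvc A 0).pm⁻¹ x = p.swap := by
      rw [Equiv.Perm.inv_eq_iff_eq, rvc, neg_zero, hA0, hrev, Prod.swap_swap, hxp]
    rwa [zpow_zero, Equiv.Perm.one_apply, h2] at h1
  obtain ⟨c₁, hc₁, -, hs₁⟩ := sbar hA hp hm h hT hx hx' hη
  obtain ⟨c₂, hc₂, -, hs₂⟩ := sbar (η₀ := γ₀) hA.inv hm (by rwa [inv_inv]) h.rev hT.neg hx'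
    (by rwa [inv_inv]) (by rwa [inv_inv, NPos_rvc])
  set ρ : ℝ := min (r₀ / 2) (1 / 4) with hρd
  have hρ : 0 < ρ := by positivity
  have hρ1 : ρ ≤ r₀ / 2 := min_le_left _ _
  have hρ2 : ρ ≤ 1 / 4 := min_le_right _ _
  obtain ⟨H₁, M₁, g₁, r₁, hM₁, hg₁, hr₁, hl₁, hH₁, hH₁'⟩ :=
    NPos_side (G := fun w => Gm (A₀.pm w)) hη.gr hp1 e2 hρ hρ2 hc₁ hs₁
  obtain ⟨H₂, M₂, g₂, r₂, hM₂, hg₂, hr₂, hl₂, hH₂, hH₂'⟩ :=
    NPos_side (G := fun w => Gp (A₀.rev.pm w)) (p := p.swap) hγ.gr hp2 e1 hρ hρ2 hc₂ hs₂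
  have hev : ∀ᶠ q in 𝓝 x, ‖A₀.pm⁻¹ q - p‖ < min ρ (min r₁ r₂) ∧ Gp q < g₂ / 5 := by
    refine Eventually.and ?_ ?_
    · refine ((A₀.diff_inv.continuous.sub continuous_const).norm.continuousAt).eventually_lt
        continuousAt_const ?_
      show ‖p - p‖ < _
      rw [sub_self, norm_zero]
      positivity
    · refine hp.cont.continuousAt.eventually_lt continuousAt_const ?_
      rw [(hp.zero_iff x).mpr hx]
      positivity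
  obtain ⟨ε, hε, hev'⟩ := Metric.eventually_nhds_iff_ball.mp hev
  obtain ⟨Y, z, hY, hY0, hYu, hYz, hYW⟩ := happ ε hε
  obtain ⟨n1, n2⟩ := hev' _ (mem_ball_iff_norm.mpr hYz)
  simp only [lt_min_iff] at n1
  have hZ : Differentiable ℂ fun t => A₀.pm⁻¹ (Y t) := A₀.diff_inv.comp hY
  have hZ' : Differentiable ℂ fun t => (A₀.pm⁻¹ (Y t)).swap := hZ.snd.prodMk hZ.fst
  have hsw : ∀ w : E, ‖w.swap - p.swap‖ = ‖w - p‖ := fun w => norm_sw (w - p)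
  have hYx : ∀ t, ‖Y t - x‖ ≤ 2 * ‖A₀.pm⁻¹ (Y t) - p‖ := fun t => by
    have h1 := Ch.norm_pm_sub hdet hU hS (A₀.pm⁻¹ (Y t)) p
    rwa [hxp, mul_one, hai] at h1
  obtain ⟨z₁, hz₁⟩ := hYu (‖x‖ + 2 * ρ)
  refine NPos_core (N := fun t => ‖A₀.pm⁻¹ (Y t) - p‖) (P := fun t => Gp (Y t))
    (h₁ := fun t => H₁ (A₀.pm⁻¹ (Y t))) (h₂ := fun t => H₂ (A₀.pm⁻¹ (Y t)).swap) (ρ := ρ)
    (z := z) (z₁ := z₁) (hZ.continuous.sub continuous_const).norm hc₁ hM₁ hl₁ hc₂ hM₂ hl₂ hg₂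
    (hp.cont.comp hY.continuous) (fun t => hp.nonneg _) (fun t ht => ?_) n1.1 (hH₁' _ n1.2.1)
    (hH₂' _ (by rw [hsw]; exact n1.2.2)) n2.le ?_ fun W hW hzW hWρ t ht => ?_
  · obtain ⟨a1, a2, a3⟩ := hH₁ _ ht
    obtain ⟨b1, b2, b3⟩ := hH₂ (A₀.pm⁻¹ (Y t)).swap (by rw [hsw]; exact ht)
    refine ⟨a1.comp (f := fun t => A₀.pm⁻¹ (Y t)) (hZ.analyticAt t), ?_,
      b1.comp (f := fun t => (A₀.pm⁻¹ (Y t)).swap) (hZ'.analyticAt t), fun hh => ?_, fun hh => ?_⟩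
    · by_contra hh
      have a4 := a2 (not_le.mp hh).le
      rw [hai, hY0] at a4
      linarith
    · have b4 := b2 hh
      rwa [hrev, Prod.swap_swap, hai] at b4
    · rcases le_max_iff.mp (hh.trans_eq (Prod.norm_def _)) with k | k
      · exact Or.inr (b3 k)
      · exact Or.inl (a3 k)
  · have h1 := hYx z₁
    have h2 := norm_le_norm_sub_add (Y z₁) x
    linarith
  · refine MV.of_harmonic (hp.harm Y t (hY.analyticAt t) (hYW W hW hzW (fun t ht => ?_) t ht))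
    have h1 := hYx t
    have h2 := hWρ t ht
    linarith

end Pool.Agent.Lib.MP_7b5e47_an.Hn
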