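import Pool.Agent.Lib.MP_7b5e47_an.Hn.NNeut
import Pool.Agent.Lib.MP_7b5e47_an.Hn.NPos
import Pool.Agent.Lib.MP_7b5e47_an.Hn.ECob
import Pool.Agent.Lib.MP_7b5e47_an.Hn.ETube

namespace Pool.Agent.Lib.MP_7b5e47_an.Hn

open Filter Topology Set Metric MeasureTheory

/-! No invariant set of points approximated by large discs outside `K⁺`. -/

variable {F : Pm} {a : ℂ} {d : ℝ} {Gp Gm : E → ℝ} {μ : Measure E} {κ : ℝ} {ξ : ℂ → E}


theorem NOX_Kp {X : Set E} (hX : CInv F X) {x : E} (hx : x ∈ X) : x ∈ Kp F ∧ x ∈ Kp F⁻¹ := by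
  obtain ⟨R, hR⟩ := hX.1.isBounded.exists_norm_le
  refine ⟨⟨R, fun n => hR _ ?_⟩, ⟨R, fun n => hR _ ?_⟩⟩
  · simpa using hX.zpow n hx
  · simpa using hX.zpow (-(n : ℤ)) hx

theorem NOX_bdd {p : ℕ → Prop} {s : ℕ → ℝ} {M : ℝ} (h : ∀ᶠ k in atTop, p k → s k ≤ M) :
    ∃ M' : ℝ, ∀ k, p k → s k ≤ M' := by
  obtain ⟨k₀, hk₀⟩ := eventually_atTop.1 h
  have h0 : 0 ≤ ∑ j ∈ Finset.range k₀, |s j| := Finset.sum_nonneg fun j _ => abs_nonneg _
  refine ⟨|M| + ∑ j ∈ Finset.range k₀, |s j|, fun k hk => ?_⟩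
  rcases le_or_gt k₀ k with h1 | h1
  · linarith [hk₀ k h1 hk, le_abs_self M]
  · have := Finset.single_le_sum (f := fun j => |s j|) (fun j _ => abs_nonneg _)
      (Finset.mem_range.2 h1)
    linarith [le_abs_self (s k), abs_nonneg M]

theorem NOX_window {p : ℕ → Prop} (h : ∀ j : ℕ, ∀ᶠ n : ℕ in atTop, ∃ l : ℕ, n ≤ l ∧
    (l : ℝ) ≤ (1 + 1 / (j + 1)) * n ∧ p l) :
    ∀ η > 0, ∀ᶠ k : ℕ in atTop, ∃ j ≤ k, (k : ℝ) - η * k ≤ j ∧ p j := by
  intro η hη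
  obtain ⟨j, hj⟩ := exists_nat_one_div_lt (half_pos hη)
  set γ : ℝ := 1 / (j + 1) with hγ
  have hγ0 : 0 < γ := by positivity
  have ht : Tendsto (fun k : ℕ => ⌊(k : ℝ) / (1 + γ)⌋₊) atTop atTop :=
    tendsto_nat_floor_atTop.comp (tendsto_natCast_atTop_atTop.atTop_div_const (by positivity))
  have ht2 : ∀ᶠ k : ℕ in atTop, 2 / η ≤ (k : ℝ) :=
    tendsto_natCast_atTop_atTop.eventually_ge_atTop _
  filter_upwards [ht.eventually (h j), ht2] with k ⟨l, h1, h2, h3⟩ hk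
  have hk0 : (0 : ℝ) ≤ k := Nat.cast_nonneg k
  have e1 : (⌊(k : ℝ) / (1 + γ)⌋₊ : ℝ) ≤ k / (1 + γ) := Nat.floor_le (by positivity)
  have e2 : (k : ℝ) / (1 + γ) < ⌊(k : ℝ) / (1 + γ)⌋₊ + 1 := Nat.lt_floor_add_one _
  have e3 : (⌊(k : ℝ) / (1 + γ)⌋₊ : ℝ) ≤ l := by exact_mod_cast h1
  rw [le_div_iff₀ (by positivity)] at e1
  have e4 : (k : ℝ) * (1 - γ) ≤ k / (1 + γ) := by
    rw [le_div_iff₀ (by positivity)]
    nlinarith [mul_nonneg hk0 (mul_pos hγ0 hγ0).le]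
  rw [div_le_iff₀ hη] at hk
  refine ⟨l, ?_, ?_, h3⟩
  · have : (l : ℝ) ≤ k := by linarith
    exact_mod_cast this
  · nlinarith [mul_le_mul_of_nonneg_left hj.le hk0]

/-- Zero exponent. Choose `ε` small (`exp (6 ε) < κ`) and `N` with `A = Reg F X 0 χs ε N` of
positive measure (`oseledets`, `isCompact_reg`). `S n = X.indicator (log ‖D(F^n)‖)` is measurable
and subadditive. By `neutral_disc` and the Cauchy estimate, `S k x` is bounded above at the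
returns to `A`, for every `x ∈ A`. `cobound` gives `B ⊆ A`; take `x ∈ A` generic for `cobound` and
for `MP_901be3_an.Hd.returns` (all `γ = 1/(j+1)`). At large returns to `B` the derivative of
`F^k ∘ Z` at `0` is at least `exp (-M) / (2 C)`, so `tube_Kp` applies with `σ = 4 ε`, and
`2 exp (-5 ε m) < exp (-4 ε m)` for large `m`. -/
theorem neutral_int (h : Sys F a d Gp Gm μ) (ha : ‖a‖ < 1) (hL : Leaf d Gp Gm κ ξ) {X : Set E}
    (hX : CInv F X) {ν : Measure E} [IsProbabilityMeasure ν] (hν : Ergodic (⇑F) ν)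
    (hs : ν Xᶜ = 0) (hχ : ∀ᵐ x ∂ν,
      Tendsto (fun n : ℕ => Real.log ‖fderiv ℂ (⇑(F ^ n)) x‖ / n) atTop (𝓝 0) ∧
      Tendsto (fun n : ℕ => Real.log ‖fderiv ℂ (⇑(F⁻¹ ^ n)) x‖ / n) atTop
        (𝓝 (0 - Real.log ‖a‖))) : ∃ x ∈ X, x ∈ interior (Kp F) := by

  have hA := h.aut
  have hlog : Real.log ‖a‖ < 0 := Real.log_neg (norm_pos_iff.2 hA.ne) ha
  have hκ0 : 0 < Real.log κ := Real.log_pos hL.one_lt
  obtain ⟨ε, hε, h2, h3, hκ⟩ : ∃ ε : ℝ, 0 < ε ∧ 1000 * ε ≤ -Real.log ‖a‖ ∧ 1000 * ε ≤ 1 ∧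
      Real.exp (6 * ε) < κ := by
    have e1 := min_le_left (min (-Real.log ‖a‖) 1) (Real.log κ)
    have e2 := min_le_right (min (-Real.log ‖a‖) 1) (Real.log κ)
    have e3 := min_le_left (-Real.log ‖a‖) 1
    have e4 := min_le_right (-Real.log ‖a‖) 1
    have e5 : 0 < min (min (-Real.log ‖a‖) 1) (Real.log κ) :=
      lt_min (lt_min (by linarith) one_pos) hκ0
    refine ⟨min (min (-Real.log ‖a‖) 1) (Real.log κ) / 1000, by positivity, by linarith,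
      by linarith, ?_⟩
    rw [← Real.lt_log_iff_exp_lt (by linarith [hL.one_lt])]
    linarith
  have hos := oseledets hA hX hν.toMeasurePreserving hs hχ (by linarith) hε
  rw [sub_zero] at hos
  obtain ⟨N, hN⟩ := ECob_pos (ν := ν) (A := univ) (by simp)
    (B := fun N : ℕ => Reg F X 0 (Real.log ‖a‖) ε N) (hos.mono fun x hx _ => hx)
  set A := Reg F X 0 (Real.log ‖a‖) ε N with hAd
  have hAm : MeasurableSet A := (isCompact_reg hA hX.1 _ _ _ _).measurableSet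
  have hAX : A ⊆ X := fun x hx => hx.1
  have hit : ∀ (k : ℕ) (x : E), (⇑F)^[k] x = (F ^ k) x := fun k x => by
    rw [Equiv.Perm.iterate_eq_pow]
  have hXk : ∀ (k : ℕ) (x : E), x ∈ X → (F ^ k) x ∈ X := fun k x hx => by
    simpa using hX.zpow k hx
  have hXk' : ∀ (k : ℕ) (x : E), (F ^ k) x ∈ X → x ∈ X := fun k x hx => by
    simpa using hX.zpow (-(k : ℤ)) hx
  have hae : ∀ᵐ x ∂ν, x ∈ X := hs
  obtain ⟨B, hBA, hBm, hB0, hB⟩ := cobound hν
    (S := fun n => X.indicator fun x => Real.log ‖fderiv ℂ (⇑(F ^ n)) x‖) (EErg_meas hA hX)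
    (fun m n x => by
      rw [hit]
      by_cases hx : x ∈ X
      · simp only [indicator_of_mem hx, indicator_of_mem (hXk m x hx)]
        exact EErg_sub hA m n x
      · simp only [indicator_of_notMem hx, indicator_of_notMem fun h' => hx (hXk' m x h')]
        simp)
    (by
      filter_upwards [hχ, hae] with x h1 hx
      simp only [indicator_of_mem hx]
      exact h1.1)
    hAm hN
    (ae_of_all _ fun x hx => by
      obtain ⟨Z, ρ, R, C, hρ, hZ, hR, -, hC⟩ := neutral_disc h ha hL hε h2 h3 rfl hκ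
        (NOX_Kp hX hx.1).1 (NOX_Kp hX hx.1).2 hx
      refine NOX_bdd (M := |C| * (R / (ρ / 4) + 1)) (hC.mono fun k hk hkA => ?_)
      rw [hit] at hkA
      simp only [indicator_of_mem hx.1]
      refine (Real.log_le_self (norm_nonneg _)).trans ((hk hkA).trans ?_)
      have e1 := ETube_cauchy (f := fun t => (F ^ k) (Z t)) hρ
        ((hA.ndiff k).comp_differentiableOn hZ) (hR k) 0 (mem_ball_self (by positivity))
      have e2 : Real.exp ((Real.log ‖a‖ + ε) * k) ≤ 1 :=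
        Real.exp_le_one_iff.2 (mul_nonpos_of_nonpos_of_nonneg (by linarith) (Nat.cast_nonneg k))
      exact mul_le_mul (le_abs_self C) (add_le_add e1 e2) (by positivity) (abs_nonneg C))
  have hret : ∀ᵐ x ∂ν, ∀ j : ℕ, ∀ᶠ n : ℕ in atTop, ∃ l : ℕ, n ≤ l ∧
      (l : ℝ) ≤ (1 + 1 / (j + 1)) * n ∧ (⇑F)^[l] x ∈ B :=
    ae_all_iff.2 fun j => MP_901be3_an.Hd.returns hν hBm hB0 (by positivity)
  obtain ⟨x, hx, ⟨M, hM⟩, hxr⟩ :=
    Measure.exists_mem_of_measure_ne_zero_of_ae hN (ae_restrict_of_ae (hB.and hret))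
  obtain ⟨Z, ρ, R, C, hρ, hZ, hR, hclose, hC⟩ := neutral_disc h ha hL hε h2 h3 rfl hκ
    (NOX_Kp hX hx.1).1 (NOX_Kp hX hx.1).2 hx
  have hC' : 0 < |C| + 1 := by positivity
  set τ : ℝ := Real.exp (-M) / (2 * (|C| + 1)) with hτ
  have hτ0 : 0 < τ := by positivity
  have hsm : ∀ᶠ k : ℕ in atTop, Real.exp ((Real.log ‖a‖ + ε) * k) ≤ τ := by
    have := (EOsel_lim (c := Real.log ‖a‖ + ε) (by linarith) 1).eventually (ge_mem_nhds hτ0)
    simpa only [one_mul] using this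
  have hgood : ∀ᶠ k : ℕ in atTop, (⇑F)^[k] x ∈ B → τ ≤ ‖deriv (fun t => (F ^ k) (Z t)) 0‖ := by
    filter_upwards [hC, hsm] with k hk hk2 hkB
    have e1 := hM k hkB
    rw [hit] at hkB
    simp only [indicator_of_mem hx.1] at e1
    have e2 : Real.exp (-M) ≤ ‖fderiv ℂ (⇑(F ^ k)) x‖ :=
      (Real.le_log_iff_exp_le (EErg_pos hA k x)).1 e1
    have e3 := hk (hBA hkB)
    have e4 : C * (‖deriv (fun t => (F ^ k) (Z t)) 0‖ + Real.exp ((Real.log ‖a‖ + ε) * k)) ≤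
        (|C| + 1) * (‖deriv (fun t => (F ^ k) (Z t)) 0‖ + τ) :=
      mul_le_mul (by linarith [le_abs_self C]) (by linarith) (by positivity) hC'.le
    have e5 : Real.exp (-M) = (|C| + 1) * (2 * τ) := by
      rw [hτ]; field_simp
    have e6 : (|C| + 1) * (2 * τ) ≤ (|C| + 1) * (‖deriv (fun t => (F ^ k) (Z t)) 0‖ + τ) := by
      linarith
    have := le_of_mul_le_mul_left e6 hC'
    linarith
  obtain ⟨k₀, hk₀⟩ := eventually_atTop.1 hgood
  have htube := tube_Kp hA ha hρ hτ0 hZ hR (NOX_window fun j => by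
    filter_upwards [hxr j, eventually_ge_atTop k₀] with n ⟨l, h1, h2, h3⟩ hn
    exact ⟨l, h1, h2, hk₀ l (hn.trans h1) h3⟩) (σ := 4 * ε) (by positivity)
  have hsm2 : ∀ᶠ m : ℕ in atTop, 2 * Real.exp (-ε * m) < 1 :=
    (EOsel_lim (c := -ε) (by linarith) 2).eventually (gt_mem_nhds one_pos)
  obtain ⟨m, hm1, hm2⟩ := (htube.and hsm2).exists
  refine ⟨(F ^ m) x, hXk m x hx.1, interior_maximal hm1 isOpen_ball ?_⟩
  rw [mem_ball, dist_comm, dist_eq_norm]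
  refine (hclose m).trans_lt ?_
  have e : Real.exp (-(5 * ε * m)) = Real.exp (-ε * m) * Real.exp (-(4 * ε) * m) := by
    rw [← Real.exp_add]; congr 1; ring
  rw [e, ← mul_assoc]
  exact mul_lt_of_lt_one_left (Real.exp_pos _) hm2

/-- negative exponent: `tempered_bound` and `slow_orbit` with `χ + 3 ε ≤ 0` -/
theorem sink_int (hA : Aut F a) {x : E} (hx : x ∈ Kp F) {χ : ℝ} (h0 : χ < 0)
    (hχ : Tendsto (fun n : ℕ => Real.log ‖fderiv ℂ (⇑(F ^ n)) x‖ / n) atTop (𝓝 χ)) :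
    x ∈ interior (Kp F) := by

  obtain ⟨R, hR⟩ := hx
  have hε : 0 < -χ / 3 := by linarith
  obtain ⟨N, hN⟩ := tempered_bound hA hR hχ hε
  obtain ⟨c, hc, hs⟩ := slow_orbit hA R χ N hε
  refine interior_maximal (fun q hq => ?_) isOpen_ball (mem_ball_self hc)
  refine ⟨R + 1, fun k => ?_⟩
  have e := hs x hR hN k q fun j _ => by
    rw [show χ + 3 * (-χ / 3) = 0 by ring, zero_mul, Real.exp_zero, mul_one]
    exact (mem_ball_iff_norm.1 hq).le
  have := norm_le_norm_sub_add ((F ^ k) q) ((F ^ k) x)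
  linarith [hR k]

/-- `exists_ergodic`, `exists_exponent`; the cases `χ < 0` and `χ = 0` give an interior point of
`K⁺` in `X`, against `happ` with `W = {z}`; for `χ > 0` use `exists_box_pos` and `no_pos`
(`Y = F^j ∘ ξ`; it is unbounded since `Gp ∘ ξ` is). -/
theorem nox (h : Sys F a d Gp Gm μ) (ha : ‖a‖ < 1) (hL : Leaf d Gp Gm κ ξ) {X : Set E}
    (hX : CInv F X) (hne : X.Nonempty) {r₀ : ℝ} (hr : 0 < r₀)
    (happ : ∀ x ∈ X, ∀ ε > 0, ∃ (j : ℤ) (z : ℂ), ‖(F ^ j) (ξ z) - x‖ < ε ∧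
      ∀ W : Set ℂ, IsPreconnected W → z ∈ W → (∀ t ∈ W, ‖(F ^ j) (ξ t) - x‖ ≤ r₀) →
        ∀ t ∈ W, 0 < Gp (ξ t)) : False := by

  have hA := h.aut
  have hint : ∀ x ∈ X, x ∉ interior (Kp F) := by
    intro x hx hi
    obtain ⟨ε, hε, hb⟩ := Metric.mem_nhds_iff.1 (mem_interior_iff_mem_nhds.1 hi)
    obtain ⟨j, z, h1, h2⟩ := happ x hx (min ε r₀) (lt_min hε hr)
    have h3 := h2 {z} isPreconnected_singleton rfl
      (fun t ht => by rw [mem_singleton_iff.1 ht]; exact (h1.trans_le (min_le_right _ _)).le) z rfl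
    have h4 : (F ^ j) (ξ z) ∈ Kp F :=
      hb (mem_ball_iff_norm.2 (h1.trans_le (min_le_left _ _)))
    exact h3.ne' ((h.gp.zero_iff _).2 ((mem_Kp_zpow j).1 h4))
  obtain ⟨ν, hp, hν, hs⟩ := exists_ergodic hA hX hne
  obtain ⟨χ, hχ⟩ := exists_exponent hA hX hν hs
  have hae : ∀ᵐ x ∂ν, x ∈ X := hs
  rcases lt_trichotomy χ 0 with h0 | rfl | h0
  · obtain ⟨x, h1, hx⟩ := (hχ.and hae).exists
    exact hint x hx (sink_int hA (NOX_Kp hX hx).1 h0 h1.1)
  · obtain ⟨x, hx, hi⟩ := neutral_int h ha hL hX hν hs hχ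
    exact hint x hx hi
  · obtain ⟨Λ, b, δ, c₀, A₀, R, hRX, hB⟩ := exists_box_pos hA ha hX hν.toMeasurePreserving hs hχ h0
    obtain ⟨x, hx⟩ := nonempty_of_measure_ne_zero hB.ne
    obtain ⟨h1, h2, A, T, hch, hT⟩ := hB.ch x hx
    refine no_pos hA h.gp h.gm hch hT h1 h2 hr fun ε hε => ?_
    obtain ⟨j, z, h3, h4⟩ := happ x (hRX hx) ε hε
    have hd : 0 < d ^ j := zpow_pos (by linarith [h.gp.one_lt]) j
    refine ⟨fun t => (F ^ j) (ξ t), z, (hA.zdiff j).comp hL.diff, fun t => ?_, fun B => ?_, h3,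
      fun W hW hz hWr t ht => ?_⟩
    · exact (h.gm.zero_iff _).2 ((mem_Km_zpow j).2 ((h.gm.zero_iff _).1 (hL.gm t)))
    · obtain ⟨M, hM⟩ := (isCompact_closedBall (0 : E) B).bddAbove_image h.gp.cont.continuousOn
      obtain ⟨ζ, hζ⟩ := hL.unb (M / d ^ j)
      refine ⟨ζ, not_le.1 fun hle => ?_⟩
      have e := hM (mem_image_of_mem Gp (mem_closedBall_zero_iff.2 hle))
      rw [h.gp.zequi] at e
      rw [div_lt_iff₀ hd] at hζ
      linarith
    · rw [h.gp.zequi]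
      exact mul_pos hd (h4 W hW hz hWr t ht)

end Pool.Agent.Lib.MP_7b5e47_an.Hn
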