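import Pool.Agent.Lib.MP_7b5e47_an.Hn.PMax
import Pool.Agent.Lib.MP_7b5e47_an.Hn.PMontel
import Pool.Agent.Lib.MP_7b5e47_an.Hn.BAut

namespace Pool.Agent.Lib.MP_7b5e47_an.Hn

open Filter Topology Set Metric MeasureTheory

/-! Uniform annuli: gradient bounds from below, and properness of normalized curves. -/

variable {F : Pm} {d : ℝ} {Gp Gm : E → ℝ}

theorem PAnn_norm_grad (v : ℂ → ℝ) (ζ : ℂ) : ‖gradient v ζ‖ = ‖fderiv ℝ v ζ‖ :=
  (InnerProductSpace.toDual ℝ ℂ).symm.norm_map _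

theorem PAnn_small {c : ℝ} (hc : 0 < c) :
    ∀ᶠ n : ℕ in (hyperfilter ℕ : Filter ℕ), 1 / ((n : ℝ) + 1) < c :=
  ((tendsto_one_div_add_atTop_nhds_zero_nat (𝕜 := ℝ)).eventually (gt_mem_nhds hc)).filter_mono
    Nat.hyperfilter_le_atTop

theorem PAnn_limit (hp : HalfG F d Gp Gm) {Ψ : ℕ → ℂ → E} {R B : ℝ}
    (hd : ∀ n, DifferentiableOn ℂ (Ψ n) (ball 0 R))
    (hb : ∀ n, ∀ ζ ∈ ball (0 : ℂ) R, ‖Ψ n ζ‖ ≤ B) :
    ∃ Φ : ℂ → E, DifferentiableOn ℂ Φ (ball 0 R) ∧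
      (∀ R' < R, ∀ η > 0, ∀ᶠ n in (hyperfilter ℕ : Filter ℕ), ∀ ζ : ℂ, ‖ζ‖ ≤ R' →
        ‖Ψ n ζ - Φ ζ‖ ≤ η) ∧
      ∀ R' < R, ∀ η > 0, ∀ᶠ n in (hyperfilter ℕ : Filter ℕ), ∀ ζ : ℂ, ‖ζ‖ ≤ R' →
        |Gp (Ψ n ζ) - Gp (Φ ζ)| ≤ η := by
  obtain ⟨Φ, hΦ, hl⟩ := montel (hyperfilter ℕ) (f := Ψ) isOpen_ball (Eventually.of_forall hd)
    fun z hz => by
      obtain ⟨r, hr, hs⟩ := Metric.isOpen_iff.1 isOpen_ball z hz
      exact ⟨r, hr, B, Eventually.of_forall fun n w hw => hb n w (hs hw)⟩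
  have key : ∀ R' < R, ∀ η > 0, ∀ᶠ n in (hyperfilter ℕ : Filter ℕ), ∀ ζ : ℂ, ‖ζ‖ ≤ R' →
      ‖Ψ n ζ - Φ ζ‖ ≤ η := by
    intro R' hR η hη
    have hu := (tendstoLocallyUniformlyOn_iff_forall_isCompact isOpen_ball).1 hl
      (closedBall 0 R') (closedBall_subset_ball hR) (isCompact_closedBall _ _)
    filter_upwards [Metric.tendstoUniformlyOn_iff.1 hu η hη] with n hn ζ hζ
    have := hn ζ (mem_closedBall_zero_iff.2 hζ)
    rw [dist_comm, dist_eq_norm] at this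
    exact this.le
  refine ⟨Φ, hΦ, key, fun R' hR η hη => ?_⟩
  obtain ⟨r, hr, hu⟩ := hp.unif B hη
  filter_upwards [key R' hR r hr] with n hn ζ hζ
  exact hu _ _ (hb n ζ (mem_ball_zero_iff.2 (hζ.trans_lt hR))) (hn ζ hζ)

theorem PAnn_zero (hp : HalfG F d Gp Gm) {Ψ : ℕ → ℂ → E} {Φ : ℂ → E} {R : ℝ} (hR : 0 ≤ R)
    (h0 : ∀ n, Gp (Ψ n 0) = 0)
    (h : ∀ η > 0, ∀ᶠ n in (hyperfilter ℕ : Filter ℕ), ∀ ζ : ℂ, ‖ζ‖ ≤ R →
      |Gp (Ψ n ζ) - Gp (Φ ζ)| ≤ η) : Gp (Φ 0) = 0 := by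
  refine le_antisymm (le_of_forall_pos_le_add fun η hη => ?_) (hp.nonneg _)
  obtain ⟨n, hn⟩ := (h η hη).exists
  have := (abs_le.1 (hn 0 (by simpa using hR))).1
  rw [h0 n] at this
  linarith

theorem PAnn_grad (hp : HalfG F d Gp Gm) {Φ : ℂ → E} {R : ℝ}
    (hd : DifferentiableOn ℂ Φ (ball 0 R)) (h0 : Gp (Φ 0) = 0) {z : ℂ} (hz : z ∈ ball (0 : ℂ) R)
    (hpos : 0 < Gp (Φ z)) : ∀ᶠ ζ in 𝓝[≠] z, fderiv ℝ (fun t => Gp (Φ t)) ζ ≠ 0 := by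
  set v : ℂ → ℝ := fun t => Gp (Φ t) with hv
  have hh : ∀ ζ ∈ ball (0 : ℂ) R, 0 < v ζ → InnerProductSpace.HarmonicAt v ζ := fun ζ hζ h =>
    hp.harm Φ ζ (hd.analyticAt (isOpen_ball.mem_nhds hζ)) h
  rcases (HarmonicAt.analyticAt_complex_partial
    (hh z hz hpos)).eventually_eq_zero_or_eventually_ne_zero with h | h
  swap
  · filter_upwards [h] with ζ hζ h1
    exact hζ (by simp [h1])
  exfalso
  have hzA : ∀ᶠ t in 𝓝 z, v t = v z := by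
    obtain ⟨ρ, hρ, hρ'⟩ := Metric.eventually_nhds_iff_ball.1
      (h.and (HarmonicAt.analyticAt (hh z hz hpos)).eventually_analyticAt)
    filter_upwards [ball_mem_nhds z hρ] with t ht
    refine isOpen_ball.is_const_of_fderiv_eq_zero (𝕜 := ℝ) (convex_ball z ρ).isPreconnected
      (fun w hw => (hρ' w hw).2.differentiableAt.differentiableWithinAt) (fun w hw => ?_) ht
      (mem_ball_self hρ)
    have h1 := congrArg Complex.re (hρ' w hw).1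
    have h2 := congrArg Complex.im (hρ' w hw).1
    simp only [Complex.sub_re, Complex.ofReal_re, Complex.mul_re, Complex.I_re, zero_mul,
      Complex.I_im, Complex.ofReal_im, mul_zero, sub_self, sub_zero, Complex.zero_re,
      Complex.sub_im, Complex.mul_im, one_mul, zero_add, zero_sub, Complex.zero_im,
      neg_eq_zero] at h1 h2
    ext a
    rw [show a = a.re • (1 : ℂ) + a.im • Complex.I by simp, map_add, map_smul, map_smul, h1, h2]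
    simp
  have hsub : ball (0 : ℂ) R ⊆ {ζ | ∀ᶠ t in 𝓝 ζ, v t = v z} := by
    refine (convex_ball 0 R).isPreconnected.subset_of_closure_inter_subset
      isOpen_setOfPred_eventually_nhds ⟨z, hz, hzA⟩ ?_
    rintro ζ ⟨h1, h2⟩
    have hc : ContinuousAt v ζ :=
      hp.cont.continuousAt.comp (hd.continuousOn.continuousAt (isOpen_ball.mem_nhds h2))
    have h3 : v ζ = v z := tendsto_nhds_unique_of_frequently_eq hc.tendsto tendsto_const_nhds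
      ((mem_closure_iff_frequently.1 h1).mono fun t ht => ht.self_of_nhds)
    obtain ⟨r, hr, ha⟩ :=
      (HarmonicAt.analyticAt (hh ζ h2 (by rw [h3]; exact hpos))).exists_ball_analyticOnNhd
    obtain ⟨a, ha1, ha2⟩ := Metric.mem_closure_iff.1 h1 r hr
    have h4 := ha.eqOn_of_preconnected_of_eventuallyEq (analyticOnNhd_const (v := v z))
      (convex_ball ζ r).isPreconnected (mem_ball'.2 ha2) ha1
    filter_upwards [ball_mem_nhds ζ hr] with t ht using h4 ht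
  have h5 : v 0 = v z := (hsub (mem_ball_self (pos_of_mem_ball hz))).self_of_nhds
  have h6 : Gp (Φ 0) = Gp (Φ z) := h5
  linarith

/-- By contradiction and `montel` (ultrafilter on a sequence with `ε = 1/(n+1)`): a limit `Ψ`,
`z` with `v = Gp ∘ Ψ`, `v 0 = 0`, `v z ≥ g`. `v` is harmonic on the component `W` of `z` in
`{v > 0} ∩ ball 0 (T + 2)`; it is not constant near `z` (else the holomorphic function
`∂v/∂x - i ∂v/∂y`, `HarmonicAt.analyticAt_complex_partial`, vanishes on `W`, so `v` is constant on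
`W`, and `W` would be closed in the ball). So the gradient of `v` has an isolated zero at most at
`z`: there is an annulus `σ₁ ≤ ‖ζ - z‖ ≤ σ₂` with `v > 0` on `closedBall z (2 σ₂)` and gradient at
least `2 g'`. By `norm_gradient_le` applied to `v n - v` the same holds for the approximants on a
slightly smaller annulus about `z n`. -/
theorem annulus (hp : HalfG F d Gp Gm) (T B : ℝ) {g : ℝ} (hg : 0 < g) : ∃ ε > 0,
    ∀ (Ψ : ℂ → E) (z : ℂ), DifferentiableOn ℂ Ψ (ball 0 (T + 2)) →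
      (∀ ζ ∈ ball (0 : ℂ) (T + 2), ‖Ψ ζ‖ ≤ B) → Gp (Ψ 0) = 0 → ‖z‖ ≤ T → g ≤ Gp (Ψ z) →
      ∃ σ₁ σ₂ g' : ℝ, 0 < σ₁ ∧ σ₁ < σ₂ ∧ σ₂ ≤ 1 ∧ 0 ≤ g' ∧ ε ≤ g' * (σ₂ - σ₁) ∧
        ∀ ζ, σ₁ ≤ ‖ζ - z‖ → ‖ζ - z‖ ≤ σ₂ → g' ≤ ‖gradient (fun t => Gp (Ψ t)) ζ‖ := by
  by_contra hcon
  push Not at hcon
  choose Ψ z hd hb h0 hz hgz hbad using fun n : ℕ => hcon (1 / ((n : ℝ) + 1)) (by positivity)
  obtain ⟨Φ, hΦ, -, hG⟩ := PAnn_limit hp hd hb
  have hT : 0 ≤ T := (norm_nonneg _).trans (hz 0)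
  obtain ⟨z₀, hz₀, hzl⟩ := (isCompact_closedBall (0 : ℂ) T).ultrafilter_le_nhds'
    ((hyperfilter ℕ).map z) (mem_map.2 (univ_mem' fun n => mem_closedBall_zero_iff.2 (hz n)))
  have hzt : Tendsto z (hyperfilter ℕ) (𝓝 z₀) := hzl
  rw [mem_closedBall_zero_iff] at hz₀
  have hz₀' : z₀ ∈ ball (0 : ℂ) (T + 2) := mem_ball_zero_iff.2 (by linarith)
  set v : ℂ → ℝ := fun t => Gp (Φ t) with hv
  have hv0 : Gp (Φ 0) = 0 := PAnn_zero hp (by linarith : (0 : ℝ) ≤ T + 1) h0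
    (hG (T + 1) (by linarith))
  have hvc : ContinuousAt v z₀ :=
    hp.cont.continuousAt.comp (hΦ.continuousOn.continuousAt (isOpen_ball.mem_nhds hz₀'))
  have hvz : g / 2 ≤ v z₀ := by
    refine ge_of_tendsto (hvc.tendsto.comp hzt) ?_
    filter_upwards [hG (T + 1) (by linarith) (g / 2) (by positivity)] with n hn
    have := (abs_le.1 (hn (z n) (by linarith [hz n]))).2
    have h2 := hgz n
    simp only [Function.comp, hv]
    linarith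
  have e1 : ∀ᶠ ζ in 𝓝 z₀, g / 4 < v ζ := hvc.eventually (lt_mem_nhds (by linarith))
  have e2 := eventually_nhdsWithin_iff.1 (PAnn_grad hp hΦ hv0 hz₀' (by
    change 0 < v z₀
    linarith))
  obtain ⟨ρ, hρ, hρ'⟩ := Metric.eventually_nhds_iff_ball.1 (e1.and e2)
  set r : ℝ := min ρ 1 / 5 with hr
  have hr0 : 0 < r := by positivity
  have hr1 : 5 * r ≤ ρ := by rw [hr]; linarith [min_le_left ρ 1]
  have hr2 : 5 * r ≤ 1 := by rw [hr]; linarith [min_le_right ρ 1]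
  have hin : ∀ ζ : ℂ, ‖ζ - z₀‖ < 5 * r → ‖ζ‖ ≤ T + 1 ∧ ζ ∈ ball (0 : ℂ) (T + 2) ∧ ζ ∈ ball z₀ ρ := by
    intro ζ hζ
    have : ‖ζ‖ ≤ ‖ζ - z₀‖ + ‖z₀‖ := norm_le_norm_sub_add _ _
    exact ⟨by linarith, mem_ball_zero_iff.2 (by linarith), mem_ball_iff_norm.2 (by linarith)⟩
  have hvh : ∀ ζ : ℂ, ‖ζ - z₀‖ < 5 * r → InnerProductSpace.HarmonicAt v ζ := fun ζ hζ =>
    hp.harm Φ ζ (hΦ.analyticAt (isOpen_ball.mem_nhds (hin ζ hζ).2.1))
      (lt_trans (by positivity) (hρ' ζ (hin ζ hζ).2.2).1)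
  have hK : IsCompact (closedBall z₀ (4 * r) \ ball z₀ r) :=
    (isCompact_closedBall _ _).diff isOpen_ball
  have hKm : ∀ ζ ∈ closedBall z₀ (4 * r) \ ball z₀ r, ‖ζ - z₀‖ < 5 * r := fun ζ hζ => by
    have := mem_closedBall_iff_norm.1 hζ.1
    linarith
  obtain ⟨m, hm0, hm⟩ := hK.exists_forall_le' (f := fun ζ => ‖fderiv ℝ v ζ‖) (a := 0)
    (fun ζ hζ =>
      (HarmonicAt.analyticAt (hvh ζ (hKm ζ hζ))).fderiv.continuousAt.norm.continuousWithinAt)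
    (fun ζ hζ => norm_pos_iff.2 ((hρ' ζ (hin ζ (hKm ζ hζ)).2.2).2 fun h =>
      hζ.2 (by rw [mem_singleton_iff.1 h]; exact mem_ball_self hr0)))
  set η : ℝ := min (g / 4) (m * r / 40) with hη
  have hη0 : 0 < η := by positivity
  have e3 : ∀ᶠ n in (hyperfilter ℕ : Filter ℕ), z n ∈ ball z₀ r := hzt (ball_mem_nhds _ hr0)
  obtain ⟨n, ⟨hn1, hn2⟩, hn3⟩ := (((hG (T + 1) (by linarith) η hη0).and e3).and
    (PAnn_small (c := m / 2 * (3 * r - 2 * r)) (by nlinarith))).exists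
  obtain ⟨ζ, hζ1, hζ2, hζ3⟩ := hbad n (2 * r) (3 * r) (m / 2) (by linarith) (by linarith)
    (by linarith) (by linarith) hn3.le
  rw [mem_ball_iff_norm] at hn2
  have t1 : ‖ζ - z₀‖ ≤ ‖ζ - z n‖ + ‖z n - z₀‖ := norm_sub_le_norm_sub_add_norm_sub _ _ _
  have t2 : ‖ζ - z n‖ ≤ ‖ζ - z₀‖ + ‖z n - z₀‖ := by
    rw [norm_sub_rev (z n)]
    exact norm_sub_le_norm_sub_add_norm_sub _ _ _
  have hζK : ζ ∈ closedBall z₀ (4 * r) \ ball z₀ r :=
    ⟨mem_closedBall_iff_norm.2 (by linarith), fun h => by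
      rw [mem_ball_iff_norm] at h
      linarith⟩
  have hball : ∀ t ∈ ball ζ r, ‖t - z₀‖ < 5 * r := fun t ht => by
    rw [mem_ball_iff_norm] at ht
    have := norm_sub_le_norm_sub_add_norm_sub t ζ z₀
    linarith
  have hnh : ∀ t : ℂ, ‖t - z₀‖ < 5 * r →
      InnerProductSpace.HarmonicAt (fun t => Gp (Ψ n t)) t := fun t ht => by
    refine hp.harm (Ψ n) t ((hd n).analyticAt (isOpen_ball.mem_nhds (hin t ht).2.1)) ?_
    have h1 := (abs_le.1 (hn1 t (hin t ht).1)).1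
    have h2 : g / 4 < Gp (Φ t) := (hρ' t (hin t ht).2.2).1
    linarith [min_le_left (g / 4) (m * r / 40)]
  have hest := norm_gradient_le (v := (fun t => Gp (Ψ n t)) - v) (ζ := ζ) (B := η) hr0
    (fun t ht => (hnh t (hball t ht)).sub (hvh t (hball t ht)))
    (fun t ht => hn1 t (hin t (hball t ht)).1)
  have hζ5 := hKm ζ hζK
  rw [PAnn_norm_grad, fderiv_sub ((hnh ζ hζ5).1.differentiableAt two_ne_zero)
    ((hvh ζ hζ5).1.differentiableAt two_ne_zero)] at hest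
  rw [PAnn_norm_grad] at hζ3
  have h3 : 20 * η / r ≤ m / 2 := by
    rw [div_le_iff₀ hr0]
    linarith [min_le_right (g / 4) (m * r / 40)]
  have h4 := hm ζ hζK
  have h5 := norm_sub_norm_le (fderiv ℝ v ζ) (fderiv ℝ (fun t => Gp (Ψ n t)) ζ)
  rw [norm_sub_rev] at h5
  linarith

/-- By contradiction and `montel`: the limit `Ψ` is not constant, so `Ψ - Ψ 0` has finitely many
zeros in the closed unit disc and misses some circle of radius `t ∈ [1/2, 1]`. -/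
theorem proper_circle (hp : HalfG F d Gp Gm) (B : ℝ) : ∃ r₀ > 0,
    ∀ Ψ : ℂ → E, DifferentiableOn ℂ Ψ (ball 0 2) → (∀ ζ ∈ ball (0 : ℂ) 2, ‖Ψ ζ‖ ≤ B) →
      Gp (Ψ 0) = 0 → (∃ ζ : ℂ, ‖ζ‖ ≤ 1 ∧ 1 ≤ Gp (Ψ ζ)) →
      ∃ t : ℝ, 1 / 2 ≤ t ∧ t ≤ 1 ∧ ∀ ζ : ℂ, ‖ζ‖ = t → r₀ ≤ ‖Ψ ζ - Ψ 0‖ := by
  by_contra hcon
  push Not at hcon
  choose Ψ hd hb h0 hz hbad using fun n : ℕ => hcon (1 / ((n : ℝ) + 1)) (by positivity)
  obtain ⟨Φ, hΦ, hl, hG⟩ := PAnn_limit hp hd hb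
  have hv0 : Gp (Φ 0) = 0 := PAnn_zero hp zero_le_one h0 (hG 1 one_lt_two)
  have han : AnalyticOnNhd ℂ (fun ζ => Φ ζ - Φ 0) (ball 0 2) :=
    (hΦ.sub_const _).analyticOnNhd isOpen_ball
  have hzero : ∀ t ∈ Icc (1 / 2 : ℝ) 1, ∃ ζ : ℂ, Φ ζ - Φ 0 = 0 ∧ ‖ζ‖ = t := by
    intro t ht
    by_contra hno
    push Not at hno
    have hs : sphere (0 : ℂ) t ⊆ ball 0 2 := sphere_subset_ball (by linarith [ht.2])
    obtain ⟨m, hm0, hm⟩ := (isCompact_sphere (0 : ℂ) t).exists_forall_le'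
      (f := fun ζ => ‖Φ ζ - Φ 0‖) (a := 0) (han.continuousOn.mono hs).norm
      fun ζ hζ => norm_pos_iff.2 fun h => hno ζ h (mem_sphere_zero_iff_norm.1 hζ)
    obtain ⟨n, hn1, hn2⟩ := ((hl 1 one_lt_two (m / 4) (by positivity)).and
      (PAnn_small (c := m / 4) (by positivity))).exists
    obtain ⟨ζ, hζ1, hζ2⟩ := hbad n t ht.1 ht.2
    have h1 := hm ζ (mem_sphere_zero_iff_norm.2 hζ1)
    have h2 := hn1 ζ (by rw [hζ1]; exact ht.2)
    have h3 := hn1 0 (by simp)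
    have h4 := norm_sub_le_norm_sub_add_norm_sub (Φ ζ) (Ψ n ζ) (Φ 0)
    have h5 := norm_sub_le_norm_sub_add_norm_sub (Ψ n ζ) (Ψ n 0) (Φ 0)
    rw [norm_sub_rev] at h2
    linarith
  have hinf : {ζ : ℂ | Φ ζ - Φ 0 = 0 ∧ ‖ζ‖ ≤ 1}.Infinite := by
    refine Set.Infinite.of_image norm ((Icc_infinite (by norm_num : (1 / 2 : ℝ) < 1)).mono ?_)
    intro t ht
    obtain ⟨ζ, h1, h2⟩ := hzero t ht
    exact ⟨ζ, ⟨h1, by rw [h2]; exact ht.2⟩, h2⟩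
  obtain ⟨w, hw1, hw2⟩ := hinf.exists_accPt_of_subset_isCompact (isCompact_closedBall (0 : ℂ) 1)
    fun ζ hζ => mem_closedBall_zero_iff.2 hζ.2
  have hall := han.eqOn_zero_of_preconnected_of_frequently_eq_zero
    (convex_ball 0 2).isPreconnected (closedBall_subset_ball one_lt_two hw1)
    ((accPt_iff_frequently_nhdsNE.1 hw2).mono fun ζ hζ => hζ.1)
  obtain ⟨n, hn⟩ := (hG 1 one_lt_two (1 / 2) (by norm_num)).exists
  obtain ⟨ζ, hζ1, hζ2⟩ := hz n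
  have h1 := (abs_le.1 (hn ζ hζ1)).2
  have h2 : Φ ζ = Φ 0 := sub_eq_zero.1 (hall (mem_ball_zero_iff.2 (by linarith)))
  rw [h2, hv0] at h1
  linarith

end Pool.Agent.Lib.MP_7b5e47_an.Hn
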