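import Pool.Agent.Lib.MP_7b5e47_an.Hn.QSad

namespace Pool.Agent.Lib.MP_7b5e47_an.Hn

open Filter Topology Set Metric MeasureTheory

/-! Chains along transversal homoclinic orbits. -/

variable {F : Pm} {a : ℂ}

theorem QHom_lin {p : E} {φ : ℂ → E} {P : ℕ} {m : ℂ} (h : SLin F p φ P m) (j : ℕ) (ζ : ℂ) :
    (F ^ (P * j)) (φ ζ) = φ (m ^ j * ζ) := by
  induction j generalizing ζ with
  | zero => simp
  | succ j ih =>
    rw [Nat.mul_succ, pow_add, Equiv.Perm.mul_apply, h.lin, ih, pow_succ, mul_assoc]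

theorem QHom_der (hA : Aut F a) {p : E} {φ : ℂ → E} {P : ℕ} {m : ℂ} (h : SLin F p φ P m) (j : ℕ)
    (ζ : ℂ) : fderiv ℂ (⇑(F ^ (P * j))) (φ ζ) (deriv φ ζ) = m ^ j • deriv φ (m ^ j * ζ) := by
  have h1 := hA.deriv_comp ((P * j : ℕ) : ℤ) (h.par.1 ζ)
  rw [zpow_natCast] at h1
  rw [← h1]
  have h2 : (fun t => (F ^ (P * j)) (φ t)) = fun t => φ (m ^ j * t) :=
    funext fun t => QHom_lin h j t
  rw [h2]
  have h3 : HasDerivAt (fun t : ℂ => m ^ j * t) (m ^ j) ζ := by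
    simpa using (hasDerivAt_id ζ).const_mul (m ^ j)
  exact ((h.par.1 (m ^ j * ζ)).hasDerivAt.scomp ζ h3).deriv

theorem QHom_per (hA : Aut F a) {p u : E} {l : ℂ} {Q : ℕ} (hQp : (F ^ Q) p = p)
    (hu : fderiv ℂ (⇑(F ^ Q)) p u = l • u) (j : ℕ) :
    (F ^ (Q * j)) p = p ∧ fderiv ℂ (⇑(F ^ (Q * j))) p u = l ^ j • u := by
  induction j with
  | zero => simp
  | succ j ih =>
    refine ⟨by rw [Nat.mul_succ, pow_add, Equiv.Perm.mul_apply, hQp, ih.1], ?_⟩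
    rw [Nat.mul_succ, hA.fderiv_nadd, hQp, hu, map_smul, ih.2, smul_smul, pow_succ']

theorem QHom_eig (hA : Aut F a) {p : E} {φ : ℂ → E} {P : ℕ} {m : ℂ} (h : SLin F p φ P m) :
    (F⁻¹ ^ P) p = p ∧ fderiv ℂ (⇑(F⁻¹ ^ P)) p (deriv φ 0) = m⁻¹ • deriv φ 0 := by
  have h1 := QHom_lin h 1 0
  have h2 := QHom_der hA h 1 0
  simp only [mul_one, pow_one, mul_zero, h.zero] at h1 h2
  have h3 : F⁻¹ ^ P = F ^ (-(P : ℤ)) := by rw [zpow_neg, zpow_natCast, inv_pow]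
  have h4 := hA.fderiv_zadd (-(P : ℤ)) P p (deriv φ 0)
  rw [neg_add_cancel, zpow_zero, zpow_natCast, h1, h2, map_smul] at h4
  refine ⟨?_, ?_⟩
  · rw [inv_pow, Equiv.Perm.inv_eq_iff_eq, h1]
  · rw [h3]
    simp only [Equiv.Perm.coe_one, fderiv_id, ContinuousLinearMap.id_apply] at h4
    rw [eq_comm, inv_smul_eq_iff₀ h.ne]
    exact h4

theorem QHom_ball {p : E} {φ : ℂ → E} {P : ℕ} {m : ℂ} (h : SLin F p φ P m) (η : ℂ) :
    ∃ R : ℝ, 0 ≤ R ∧ ‖p‖ ≤ R ∧ ∀ j : ℕ, ‖φ (m ^ j * η)‖ ≤ R ∧ ‖deriv φ (m ^ j * η)‖ ≤ R ∧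
      ‖φ (m ^ j * η) - p‖ ≤ R * ‖m‖ ^ j := by
  have c1 : Continuous (deriv φ) :=
    (h.par.1.contDiff (n := 1)).continuous_deriv le_rfl
  obtain ⟨B, hB⟩ := (isCompact_closedBall (0 : ℂ) ‖η‖).exists_bound_of_continuousOn
    c1.continuousOn
  have hB0 : 0 ≤ B := (norm_nonneg _).trans (hB 0 (mem_closedBall_self (norm_nonneg _)))
  have h1 : ∀ j : ℕ, ‖m‖ ^ j ≤ 1 := fun j => pow_le_one₀ (norm_nonneg _) h.lt.le
  have h2 : ∀ j : ℕ, m ^ j * η ∈ closedBall (0 : ℂ) ‖η‖ := fun j => by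
    rw [mem_closedBall_zero_iff, norm_mul, norm_pow]
    exact mul_le_of_le_one_left (norm_nonneg _) (h1 j)
  have h3 : ∀ j : ℕ, ‖φ (m ^ j * η) - p‖ ≤ B * ‖η‖ * ‖m‖ ^ j := fun j => by
    have := (convex_closedBall (0 : ℂ) ‖η‖).norm_image_sub_le_of_norm_deriv_le
      (fun z _ => h.par.1 z) hB (mem_closedBall_self (norm_nonneg _)) (h2 j)
    rw [h.zero, sub_zero, norm_mul, norm_pow] at this
    linarith
  have h4 : 0 ≤ B * ‖η‖ := by positivity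
  have h5 := norm_nonneg p
  refine ⟨‖p‖ + B + B * ‖η‖, by positivity, by linarith, fun j => ⟨?_, ?_, ?_⟩⟩
  · have h6 := norm_le_insert' (φ (m ^ j * η)) p
    have h7 := mul_le_of_le_one_right h4 (h1 j)
    linarith [h3 j]
  · linarith [hB _ (h2 j)]
  · refine (h3 j).trans (mul_le_mul_of_nonneg_right (by linarith) (by positivity))

theorem QHom_interp (hA : Aut F a) {x v : E} {T : ℕ} (hT : 0 < T) {R K χ : ℝ}
    (hR : ∀ j, ‖(F ^ (T * j)) x‖ ≤ R)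
    (hK : ∀ j, ‖fderiv ℂ (⇑(F ^ (T * j))) x v‖ ≤ K * Real.exp (χ * (T * j : ℕ))) :
    ∃ K' : ℝ, 0 < K' ∧ ∀ k : ℕ, ‖fderiv ℂ (⇑(F ^ k)) x v‖ ≤ K' * Real.exp (χ * k) := by
  choose C hC1 hC using fun r : ℕ => exists_lip (hA.ndiff r) R
  have hK0 : 0 ≤ K := by
    have := hK 0
    simp only [mul_zero, Nat.cast_zero, Real.exp_zero, mul_one] at this
    exact (norm_nonneg _).trans this
  have h0 : ∀ r : ℕ, 0 ≤ C r * K * Real.exp (-(χ * r)) := fun r => by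
    have := hC1 r
    positivity
  refine ⟨1 + ∑ r ∈ Finset.range T, C r * K * Real.exp (-(χ * r)), by
    have := Finset.sum_nonneg (s := Finset.range T) fun r _ => h0 r
    linarith, fun k => ?_⟩
  obtain ⟨r, j, hr, rfl⟩ : ∃ r j, r < T ∧ k = r + T * j :=
    ⟨k % T, k / T, Nat.mod_lt _ hT, (Nat.mod_add_div k T).symm⟩
  have h1 := Finset.single_le_sum (f := fun r : ℕ => C r * K * Real.exp (-(χ * r)))
    (fun r _ => h0 r) (Finset.mem_range.2 hr)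
  have h2 := (hC r _ _ (hR j) (hR j)).2.1
  rw [hA.fderiv_nadd]
  refine ((ContinuousLinearMap.le_opNorm _ _).trans
    (mul_le_mul h2 (hK j) (norm_nonneg _) (by linarith [hC1 r]))).trans ?_
  have h3 : C r * (K * Real.exp (χ * (T * j : ℕ))) =
      C r * K * Real.exp (-(χ * r)) * Real.exp (χ * (r + T * j : ℕ)) := by
    rw [mul_assoc (C r * K), ← Real.exp_add, mul_assoc]
    congr 3
    push_cast
    ring
  rw [h3]
  exact mul_le_mul_of_nonneg_right (by linarith) (Real.exp_pos _).le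

theorem QHom_orb (hA : Aut F a) {p : E} {φ : ℂ → E} {P : ℕ} {m : ℂ} (h : SLin F p φ P m) (η : ℂ) :
    ∃ R : ℝ, ∀ k : ℕ, ‖(F ^ k) (φ η)‖ ≤ R := by
  obtain ⟨R, -, -, hR⟩ := QHom_ball h η
  choose C hC1 hC using fun r : ℕ => exists_lip (hA.ndiff r) R
  refine ⟨∑ r ∈ Finset.range P, C r, fun k => ?_⟩
  obtain ⟨r, j, hr, rfl⟩ : ∃ r j, r < P ∧ k = r + P * j :=
    ⟨k % P, k / P, Nat.mod_lt _ h.pos, (Nat.mod_add_div k P).symm⟩
  rw [pow_add, Equiv.Perm.mul_apply, QHom_lin h]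
  exact (hC r _ _ (hR j).1 (hR j).1).1.trans (Finset.single_le_sum (f := C)
    (fun r _ => by linarith [hC1 r]) (Finset.mem_range.2 hr))

theorem QHom_low (hA : Aut F a) {χ χ' K : ℝ} (hχ : χ + χ' = Real.log ‖a‖) {x v s : E}
    (hd : det2 v s ≠ 0) (k : ℤ) (hs : ‖fderiv ℂ (⇑(F ^ k)) x s‖ ≤ K * Real.exp (χ' * k)) :
    Real.exp (χ * k) ≤ 2 * K / ‖det2 v s‖ * ‖fderiv ℂ (⇑(F ^ k)) x v‖ := by
  have h1 := norm_det2_le (fderiv ℂ (⇑(F ^ k)) x v) (fderiv ℂ (⇑(F ^ k)) x s)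
  rw [hA.zjac, norm_mul, norm_zpow, ELin_zpow hA, ← hχ, add_mul, Real.exp_add] at h1
  have h2 := norm_pos_iff.2 hd
  have h3 := Real.exp_pos (χ' * k)
  have h4 := mul_le_mul_of_nonneg_left hs
    (by positivity : 0 ≤ 2 * ‖fderiv ℂ (⇑(F ^ k)) x v‖)
  rw [div_mul_eq_mul_div, le_div_iff₀ h2]
  refine le_of_mul_le_mul_right ?_ h3
  linarith

theorem QHom_both (hA : Aut F a) {χu χs K K' : ℝ} (hχ : χu + χs = Real.log ‖a‖) {x v s : E}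
    (hd : det2 v s ≠ 0) (hK : 0 < K) (hK' : 0 < K') : ∃ K'' : ℝ, 0 < K'' ∧ ∀ k : ℤ,
      ‖fderiv ℂ (⇑(F ^ k)) x v‖ ≤ K * Real.exp (χu * k) →
      ‖fderiv ℂ (⇑(F ^ k)) x s‖ ≤ K' * Real.exp (χs * k) →
      Real.exp (χu * k) ≤ K'' * ‖fderiv ℂ (⇑(F ^ k)) x v‖ ∧
      ‖fderiv ℂ (⇑(F ^ k)) x v‖ ≤ K'' * Real.exp (χu * k) ∧
      Real.exp (χs * k) ≤ K'' * ‖fderiv ℂ (⇑(F ^ k)) x s‖ ∧
      ‖fderiv ℂ (⇑(F ^ k)) x s‖ ≤ K'' * Real.exp (χs * k) := by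
  have hd' : det2 s v ≠ 0 := by rw [det2_swap]; exact neg_ne_zero.2 hd
  have h1 := norm_pos_iff.2 hd
  have h2 := norm_pos_iff.2 hd'
  have h3 : 0 < 2 * K' / ‖det2 v s‖ := by positivity
  have h4 : 0 < 2 * K / ‖det2 s v‖ := by positivity
  refine ⟨K + K' + 2 * K' / ‖det2 v s‖ + 2 * K / ‖det2 s v‖, by positivity, fun k hv hs =>
    ⟨(QHom_low hA hχ hd k hs).trans ?_, hv.trans ?_,
      (QHom_low hA (by rw [add_comm]; exact hχ) hd' k hv).trans ?_, hs.trans ?_⟩⟩ <;>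
  exact mul_le_mul_of_nonneg_right (by linarith) (by positivity)

theorem QHom_exp {l : ℂ} (hl : l ≠ 0) {Q : ℕ} (hQ : 0 < Q) (j : ℕ) :
    ‖l‖ ^ j = Real.exp (Real.log ‖l‖ / Q * (Q * j : ℕ)) := by
  have h1 : (Q : ℝ) ≠ 0 := by positivity
  have h2 : Real.log ‖l‖ / Q * (Q * j : ℕ) = j * Real.log ‖l‖ := by
    push_cast
    field_simp
  rw [h2, Real.exp_nat_mul, Real.exp_log (norm_pos_iff.2 hl)]

theorem QHom_bdd {g : ℤ → ℝ} {n : ℕ} {K₁ K₂ : ℝ} (h1 : ∀ k : ℕ, g (k + n) ≤ K₁)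
    (h2 : ∀ k : ℕ, g (-k) ≤ K₂) : ∃ K : ℝ, 0 < K ∧ ∀ k : ℤ, g k ≤ K := by
  have h0 : 0 ≤ ∑ r ∈ Finset.range n, |g r| := Finset.sum_nonneg fun _ _ => abs_nonneg _
  have a1 := abs_nonneg K₁
  have a2 := abs_nonneg K₂
  refine ⟨1 + |K₁| + |K₂| + ∑ r ∈ Finset.range n, |g r|, by positivity, fun k => ?_⟩
  rcases le_or_gt k 0 with h | h
  · have := h2 (-k).toNat
    rw [Int.toNat_of_nonneg (by omega), neg_neg] at this
    linarith [le_abs_self K₂]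
  rcases le_or_gt (n : ℤ) k with h' | h'
  · have := h1 (k - n).toNat
    rw [Int.toNat_of_nonneg (by omega), sub_add_cancel] at this
    linarith [le_abs_self K₁]
  · have := Finset.single_le_sum (f := fun r : ℕ => |g r|) (fun _ _ => abs_nonneg _)
      (Finset.mem_range.2 (by omega : k.toNat < n))
    simp only [Int.toNat_of_nonneg h.le] at this
    linarith [le_abs_self (g k)]

theorem QHom_bdd' {g : ℤ → ℝ} {n : ℕ} {K₁ K₂ χ : ℝ}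
    (h1 : ∀ k : ℕ, g (k + n) ≤ K₁ * Real.exp (χ * k))
    (h2 : ∀ k : ℕ, g (-k) ≤ K₂ * Real.exp (-χ * k)) :
    ∃ K : ℝ, 0 < K ∧ ∀ k : ℤ, g k ≤ K * Real.exp (χ * k) := by
  obtain ⟨K, hK, h⟩ := QHom_bdd (g := fun k => g k / Real.exp (χ * k)) (n := n)
    (K₁ := K₁ * Real.exp (-(χ * n))) (K₂ := K₂) (fun k => by
      rw [div_le_iff₀ (Real.exp_pos _), mul_assoc, ← Real.exp_add]
      refine (h1 k).trans (le_of_eq ?_)
      congr 2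
      push_cast
      ring) (fun k => by
      rw [div_le_iff₀ (Real.exp_pos _)]
      refine (h2 k).trans (le_of_eq ?_)
      congr 2
      push_cast
      ring)
  exact ⟨K, hK, fun k => (div_le_iff₀ (Real.exp_pos _)).1 (h k)⟩

theorem QHom_lim {K : Set (E × E × E)} (hK : IsCompact K) {t : ℕ → E × E × E}
    (ht : ∀ j, t j ∈ K) {p : E} {R θ : ℝ} (h0 : 0 ≤ θ) (h1 : θ < 1)
    (hp : ∀ j, ‖(t j).1 - p‖ ≤ R * θ ^ j) :
    ∃ y ∈ K, y.1 = p ∧ ∀ ε > 0, ∀ j₀, ∃ j ≥ j₀, ‖t j - y‖ ≤ ε := by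
  obtain ⟨y, hy, φ, hφ, hl⟩ := hK.tendsto_subseq ht
  have h2 : Tendsto (fun j => (t j).1) atTop (𝓝 p) := by
    rw [tendsto_iff_norm_sub_tendsto_zero]
    refine squeeze_zero (fun _ => norm_nonneg _) hp ?_
    simpa using (tendsto_pow_atTop_nhds_zero_of_lt_one h0 h1).const_mul R
  refine ⟨y, hy, tendsto_nhds_unique ((continuous_fst.tendsto y).comp hl)
    (h2.comp hφ.tendsto_atTop), fun ε hε j₀ => ?_⟩
  obtain ⟨j, h3, h4⟩ := ((Metric.tendsto_nhds.1 hl ε hε).and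
    (hφ.tendsto_atTop.eventually_ge_atTop j₀)).exists
  exact ⟨φ j, h4, by rw [← dist_eq_norm]; exact h3.le⟩

/-- Two-sided forward bounds along an orbit in the stable manifold. Let `Q` be the period in
`hu`. `D(F^(P j))(φ η) (φ' η) = m^j φ'(m^j η)` with `φ'(m^j η) → φ' 0 ≠ 0` and never zero
(`Aut.fderiv_ne`), which gives both bounds for `s = φ' η` (intermediate times: `exists_lip` for
`F` and `F⁻¹` on a ball containing the orbit). Upper bound for `v`: `prod_bound` with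
`M = D(F^(P Q))(p)`, eigenvectors `u₀` and `φ' 0`, eigenvalues `l^P` and `m^Q`, and
`B j = D(F^(P Q))(F^(P Q j) (φ η))`, `‖φ (m^(Q j) η) - p‖ ≤ C ‖m‖^j`. Lower bound for `v` from
`Aut.njac`, `norm_det2_le` and the upper bound for `s`. -/
theorem SLin.bounds (hA : Aut F a) {p : E} {φ : ℂ → E} {P : ℕ} {m : ℂ} (h : SLin F p φ P m)
    {Q : ℕ} (hQ : 0 < Q) (hQp : (F ^ Q) p = p) {u₀ : E} {l : ℂ} (hu0 : u₀ ≠ 0) (hl : 1 < ‖l‖)
    (hu : fderiv ℂ (⇑(F ^ Q)) p u₀ = l • u₀) (η : ℂ) {v : E} (hv : det2 v (deriv φ η) ≠ 0) :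
    Real.log ‖l‖ / Q + Real.log ‖m‖ / P = Real.log ‖a‖ ∧ ∃ K : ℝ, 0 < K ∧ ∀ k : ℕ,
      Real.exp (Real.log ‖l‖ / Q * k) ≤ K * ‖fderiv ℂ (⇑(F ^ k)) (φ η) v‖ ∧
      ‖fderiv ℂ (⇑(F ^ k)) (φ η) v‖ ≤ K * Real.exp (Real.log ‖l‖ / Q * k) ∧
      Real.exp (Real.log ‖m‖ / P * k) ≤ K * ‖fderiv ℂ (⇑(F ^ k)) (φ η) (deriv φ η)‖ ∧
      ‖fderiv ℂ (⇑(F ^ k)) (φ η) (deriv φ η)‖ ≤ K * Real.exp (Real.log ‖m‖ / P * k) := by
  have hP := h.pos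
  have hl0 : l ≠ 0 := by rintro rfl; norm_num at hl
  obtain ⟨e1, e2⟩ := QHom_per hA hQp hu P
  have e3 := QHom_der hA h Q 0
  rw [mul_zero, h.zero] at e3
  rw [mul_comm] at e1 e2
  have n1 : 1 < ‖l ^ P‖ := by rw [norm_pow]; exact one_lt_pow₀ hl hP.ne'
  have n2 : ‖m‖ ^ Q < 1 := pow_lt_one₀ (norm_nonneg _) h.lt hQ.ne'
  have hd : det2 u₀ (deriv φ 0) ≠ 0 := fun h0 => by
    obtain ⟨c, hc⟩ := exists_smul_of_det2 hu0 h0
    have e4 : fderiv ℂ (⇑(F ^ (P * Q))) p (deriv φ 0) = l ^ P • deriv φ 0 := by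
      rw [hc, map_smul, e2, smul_comm]
    rw [e3] at e4
    have e5 := smul_left_injective ℂ h.der e4
    rw [← e5, norm_pow] at n1
    linarith
  have hχ : Real.log ‖l‖ / Q + Real.log ‖m‖ / P = Real.log ‖a‖ := by
    have e4 := hA.njac (P * Q) p u₀ (deriv φ 0)
    rw [e2, e3, det2_smul] at e4
    have e5 := congrArg (fun z : ℂ => Real.log ‖z‖) (mul_right_cancel₀ hd e4)
    simp only [norm_mul, norm_pow] at e5
    rw [Real.log_mul (pow_pos (norm_pos_iff.2 hl0) _).ne' (pow_pos (norm_pos_iff.2 h.ne) _).ne',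
      Real.log_pow, Real.log_pow, Real.log_pow] at e5
    have q1 : (Q : ℝ) ≠ 0 := by positivity
    have q2 : (P : ℝ) ≠ 0 := by positivity
    push_cast at e5
    field_simp
    linarith
  refine ⟨hχ, ?_⟩
  obtain ⟨R, hR0, hRp, hR⟩ := QHom_ball h η
  obtain ⟨K₁, k1, hK₁⟩ := QHom_interp hA (x := φ η) (v := deriv φ η) hP (R := R) (K := R)
    (χ := Real.log ‖m‖ / P) (fun j => by rw [QHom_lin h]; exact (hR j).1) fun j => by
      rw [QHom_der hA h, norm_smul, norm_pow, ← QHom_exp h.ne hP, mul_comm]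
      exact mul_le_mul_of_nonneg_right (hR j).2.1 (by positivity)
  obtain ⟨C, hC1, hC⟩ := exists_lip (hA.ndiff (P * Q)) R
  obtain ⟨K, hK⟩ := prod_bound hd e2 e3 (by rw [norm_pow]; linarith) (pow_ne_zero _ hl0)
    (B := fun j => fderiv ℂ (⇑(F ^ (P * Q))) (φ (m ^ (Q * j) * η))) (C := C * R) (θ := ‖m‖ ^ Q)
    (by positivity) n2 (fun j => by
      refine (hC _ _ (hR _).1 hRp).2.2.2.1.trans ?_
      rw [mul_assoc, ← pow_mul]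
      exact mul_le_mul_of_nonneg_left (hR _).2.2 (by linarith))
    (v := fun j => fderiv ℂ (⇑(F ^ (P * Q * j))) (φ η) v) fun j => by
      rw [Nat.mul_succ, add_comm, hA.fderiv_nadd, mul_assoc P Q j, QHom_lin h]
  obtain ⟨K₂, k2, hK₂⟩ := QHom_interp hA (x := φ η) (v := v) (Nat.mul_pos hP hQ) (R := R) (K := K)
    (χ := Real.log ‖l‖ / Q) (fun j => by rw [mul_assoc, QHom_lin h]; exact (hR _).1) fun j => by
      refine (hK j).trans (le_of_eq ?_)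
      rw [norm_pow, ← pow_mul, QHom_exp hl0 hQ]
      congr 4
      ring
  obtain ⟨K', k3, hK'⟩ := QHom_both hA hχ (x := φ η) hv k2 k1
  refine ⟨K', k3, fun k => ?_⟩
  have := hK' k
  simp only [zpow_natCast, Int.cast_natCast] at this
  exact this (hK₂ k) (hK₁ k)

/-- two-sided bounds at all times make all times good, with one constant -/
theorem good_all (hA : Aut F a) {χu χs K : ℝ} (hχ : χu + χs = Real.log ‖a‖) {w v s : E}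
    (hd : det2 v s ≠ 0) (hK : 0 < K) (hb : ∀ k : ℤ,
      Real.exp (χu * k) ≤ K * ‖fderiv ℂ (⇑(F ^ k)) w v‖ ∧
      ‖fderiv ℂ (⇑(F ^ k)) w v‖ ≤ K * Real.exp (χu * k) ∧
      Real.exp (χs * k) ≤ K * ‖fderiv ℂ (⇑(F ^ k)) w s‖ ∧
      ‖fderiv ℂ (⇑(F ^ k)) w s‖ ≤ K * Real.exp (χs * k)) :
    ∃ N : ℝ, ∀ k : ℤ, ∃ c c' : ℂ, Good F χu χs 0 N ((F ^ k) w)
      (c • fderiv ℂ (⇑(F ^ k)) w v) (c' • fderiv ℂ (⇑(F ^ k)) w s) := by
  have h0 : ∀ (χ : ℝ) (u : E), (∀ k : ℤ, Real.exp (χ * k) ≤ K * ‖fderiv ℂ (⇑(F ^ k)) w u‖ ∧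
      ‖fderiv ℂ (⇑(F ^ k)) w u‖ ≤ K * Real.exp (χ * k)) → ∀ k : ℤ, ∃ c : ℂ,
      ‖c • fderiv ℂ (⇑(F ^ k)) w u‖ = 1 ∧ 1 ≤ K * Real.exp (χ * k) * ‖c‖ ∧ ∀ n : ℤ,
        ‖fderiv ℂ (⇑(F ^ n)) ((F ^ k) w) (c • fderiv ℂ (⇑(F ^ k)) w u)‖ ≤
          K ^ 2 * Real.exp (χ * n) := fun χ u hu k => by
    have h1 : 0 < ‖fderiv ℂ (⇑(F ^ k)) w u‖ :=
      (mul_pos_iff_of_pos_left hK).1 ((Real.exp_pos _).trans_le (hu k).1)
    have h2 : ‖((‖fderiv ℂ (⇑(F ^ k)) w u‖ : ℂ))⁻¹‖ = ‖fderiv ℂ (⇑(F ^ k)) w u‖⁻¹ := by simp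
    refine ⟨((‖fderiv ℂ (⇑(F ^ k)) w u‖ : ℂ))⁻¹, by
      rw [norm_smul, h2, inv_mul_cancel₀ h1.ne'], by
      rw [h2, ← div_eq_mul_inv, one_le_div h1]; exact (hu k).2, fun n => ?_⟩
    rw [map_smul, ← hA.fderiv_zadd, norm_smul, h2, inv_mul_le_iff₀ h1]
    refine (hu _).2.trans ?_
    have h3 := mul_le_mul_of_nonneg_left (hu k).1
      (by positivity : 0 ≤ K * Real.exp (χ * n))
    push_cast
    rw [mul_add, Real.exp_add]
    linarith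
  have hd0 := norm_pos_iff.2 hd
  have hN : K ^ 2 ≤ K ^ 2 + K ^ 2 / ‖det2 v s‖ := le_add_of_nonneg_right (by positivity)
  refine ⟨K ^ 2 + K ^ 2 / ‖det2 v s‖, fun k => ?_⟩
  obtain ⟨c, c1, c2, c3⟩ := h0 χu v (fun k => ⟨(hb k).1, (hb k).2.1⟩) k
  obtain ⟨c', d1, d2, d3⟩ := h0 χs s (fun k => (hb k).2.2) k
  refine ⟨c, c', c1, d1, ?_, fun n => ?_, fun n => ?_⟩
  · rw [det2_smul, hA.zjac, norm_mul, norm_mul, norm_mul, norm_zpow, ELin_zpow hA, ← hχ, add_mul,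
      Real.exp_add, div_le_iff₀ (by positivity)]
    have h1 := one_le_mul_of_one_le_of_one_le c2 d2
    have h2 : ‖c‖ * ‖c'‖ * (Real.exp (χu * k) * Real.exp (χs * k) * ‖det2 v s‖) *
        (K ^ 2 / ‖det2 v s‖) = K * Real.exp (χu * k) * ‖c‖ * (K * Real.exp (χs * k) * ‖c'‖) := by
      field_simp
    have h3 : 0 ≤ ‖c‖ * ‖c'‖ * (Real.exp (χu * k) * Real.exp (χs * k) * ‖det2 v s‖) * K ^ 2 := by
      positivity
    rw [mul_add, h2]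
    linarith
  · rw [zero_mul, add_zero]
    exact (c3 n).trans (mul_le_mul_of_nonneg_right hN (Real.exp_pos _).le)
  · rw [zero_mul, add_zero]
    exact (d3 n).trans (mul_le_mul_of_nonneg_right hN (Real.exp_pos _).le)

/-- `χu = -log ‖m'‖ / P'`, `χs = log ‖m‖ / P`, `w = ψ y`, `v = ψ' y`,
`s = D(F^(-n))(φ η) (φ' η)`. `bounds` for `F` at `φ η` (with `Q = P'`, `u₀ = ψ' 0`, `l = m'⁻¹`)
and for `F⁻¹` at `ψ y`; the shift by `n` only changes the constant; then `good_all`. Along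
`k = n + j P` and along `k = - j P'`, `F^k w → p`. The set of good triples with constant `N` is
closed (`isClosed_good`) and bounded; fix a limit `(p, u₀, s₀)` of the triples along `k = n + j P`.
Any other limit at `p` is `(p, c u₀, c' s₀)` with `‖c‖ = ‖c'‖ = 1` (`Good.uniq`), so after a change
of phase (`Good.phase`) infinitely many positive and infinitely many negative times have triples
within `ε'` of `(p, u₀, s₀)`. Make them sparse (`Rec.sparse` after translating by one of the times)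
and apply `exists_rchain` (`Good.mono` to pass from `0` to a small `ε`). -/
theorem homoclinic_chain (hA : Aut F a) {p : E} {φ ψ : ℂ → E} {P P' : ℕ} {m m' : ℂ}
    (hφ : SLin F p φ P m) (hψ : SLin F⁻¹ p ψ P' m') {y η : ℂ} {n : ℕ} (he : (F ^ n) (ψ y) = φ η)
    (hd : det2 (deriv (fun t => (F ^ n) (ψ t)) y) (deriv φ η) ≠ 0) :
    ∃ (Λ b δ c₀ : ℝ) (A₀ : Ch) (A : ℤ → Ch) (T : Set ℤ), RChain F Λ b δ c₀ A₀ (ψ y) A T ∧
      (∀ n, ∃ k ∈ T, n ≤ k) ∧ ∀ n, ∃ k ∈ T, k ≤ n := by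
  obtain ⟨f1, f2⟩ := QHom_eig hA hφ
  obtain ⟨g1, g2⟩ := QHom_eig hA.inv hψ
  rw [inv_inv] at g1 g2
  have i1 : ∀ {z : ℂ}, z ≠ 0 → ‖z‖ < 1 → 1 < ‖z⁻¹‖ := fun h1 h2 => by
    rw [norm_inv]
    exact (one_lt_inv₀ (norm_pos_iff.2 h1)).2 h2
  have i2 : ∀ k : ℕ, F⁻¹ ^ k = F ^ (-(k : ℤ)) := fun k => by rw [zpow_neg, zpow_natCast, inv_pow]
  have e1 := hA.deriv_comp n (hψ.par.1 y)
  rw [zpow_natCast] at e1
  rw [e1] at hd
  obtain ⟨s, hs⟩ : ∃ s, fderiv ℂ (⇑(F ^ n)) (ψ y) s = deriv φ η := by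
    have e2 := hA.fderiv_zadd n (-(n : ℤ)) (φ η) (deriv φ η)
    have e3 : (F ^ (-(n : ℤ))) (φ η) = ψ y := by
      rw [zpow_neg, zpow_natCast, Equiv.Perm.inv_eq_iff_eq, he]
    rw [add_neg_cancel, zpow_zero, zpow_natCast, e3] at e2
    simp only [Equiv.Perm.coe_one, fderiv_id, ContinuousLinearMap.id_apply] at e2
    exact ⟨_, e2.symm⟩
  have hd1 : det2 (deriv ψ y) s ≠ 0 := fun h0 => hd (by rw [← hs, hA.njac, h0, mul_zero])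
  have hd2 : det2 s (deriv ψ y) ≠ 0 := by rw [det2_swap]; exact neg_ne_zero.2 hd1
  obtain ⟨hχ, K₁, -, hK₁⟩ := hφ.bounds hA hψ.pos g1 hψ.der (i1 hψ.ne hψ.lt) g2 η hd
  obtain ⟨-, K₂, -, hK₂⟩ := hψ.bounds hA.inv hφ.pos f1 hφ.der (i1 hφ.ne hφ.lt) f2 y hd2
  obtain ⟨χu, hu⟩ : ∃ χ, χ = Real.log ‖m'⁻¹‖ / P' := ⟨_, rfl⟩
  obtain ⟨χs, hs'⟩ : ∃ χ, χ = Real.log ‖m‖ / P := ⟨_, rfl⟩
  have u1 : Real.log ‖m'‖ / P' = -χu := by rw [hu, norm_inv, Real.log_inv, neg_div, neg_neg]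
  have u2 : Real.log ‖m⁻¹‖ / P = -χs := by rw [hs', norm_inv, Real.log_inv, neg_div]
  have u3 : 0 < χu := by
    rw [hu]
    exact div_pos (Real.log_pos (i1 hψ.ne hψ.lt)) (Nat.cast_pos.2 hψ.pos)
  have u4 : 0 < -χs := by
    rw [← u2]
    exact div_pos (Real.log_pos (i1 hφ.ne hφ.lt)) (Nat.cast_pos.2 hφ.pos)
  rw [← hu, ← hs'] at hχ hK₁
  rw [u1, u2] at hK₂
  have j1 : ∀ (k : ℕ) (z : E), fderiv ℂ (⇑(F ^ ((k : ℤ) + n))) (ψ y) z =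
      fderiv ℂ (⇑(F ^ k)) (φ η) (fderiv ℂ (⇑(F ^ n)) (ψ y) z) := fun k z => by
    rw [hA.fderiv_zadd, zpow_natCast, zpow_natCast, he]
  have j2 : ∀ k : ℕ, (F ^ ((k : ℤ) + n)) (ψ y) = (F ^ k) (φ η) := fun k => by
    rw [zpow_add, Equiv.Perm.mul_apply, zpow_natCast, zpow_natCast, he]
  obtain ⟨K₃, k3, hK₃⟩ := QHom_bdd' (g := fun k : ℤ => ‖fderiv ℂ (⇑(F ^ k)) (ψ y) (deriv ψ y)‖)
    (n := n) (χ := χu) (fun k => by rw [j1]; exact (hK₁ k).2.1)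
    (fun k => by rw [← i2]; exact (hK₂ k).2.2.2)
  obtain ⟨K₄, k4, hK₄⟩ := QHom_bdd' (g := fun k : ℤ => ‖fderiv ℂ (⇑(F ^ k)) (ψ y) s‖)
    (n := n) (χ := χs) (fun k => by rw [j1, hs]; exact (hK₁ k).2.2.2)
    (fun k => by rw [← i2]; exact (hK₂ k).2.1)
  obtain ⟨K, hK0, hK⟩ := QHom_both hA hχ (x := ψ y) hd1 k3 k4
  obtain ⟨N, hN⟩ := good_all hA hχ hd1 hK0 fun k => hK k (hK₃ k) (hK₄ k)
  choose c c' hc using hN
  obtain ⟨R₁, hR₁⟩ := QHom_orb hA hφ η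
  obtain ⟨R₂, hR₂⟩ := QHom_orb hA.inv hψ y
  obtain ⟨R, -, hR⟩ := QHom_bdd (g := fun k : ℤ => ‖(F ^ k) (ψ y)‖) (n := n)
    (fun k => by rw [j2]; exact hR₁ k) (fun k => by rw [← i2]; exact hR₂ k)
  obtain ⟨G, hG⟩ : ∃ G : Set (E × E × E),
      G = {z | ‖z.1‖ ≤ R ∧ Good F χu χs 0 N z.1 z.2.1 z.2.2} := ⟨_, rfl⟩
  have k1 : IsCompact G := by
    refine ((isCompact_closedBall (0 : E) R).prod ((isCompact_closedBall (0 : E) 1).prod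
      (isCompact_closedBall (0 : E) 1))).of_isClosed_subset ?_ fun z hz => ?_
    · rw [hG]
      exact (isClosed_le continuous_fst.norm continuous_const).inter (isClosed_good hA χu χs 0 N)
    · rw [hG] at hz
      exact ⟨mem_closedBall_zero_iff.2 hz.1, mem_closedBall_zero_iff.2 hz.2.nu.le,
        mem_closedBall_zero_iff.2 hz.2.ns.le⟩
  obtain ⟨t, ht⟩ : ∃ t : ℤ → E × E × E, ∀ k, t k = ((F ^ k) (ψ y),
      c k • fderiv ℂ (⇑(F ^ k)) (ψ y) (deriv ψ y), c' k • fderiv ℂ (⇑(F ^ k)) (ψ y) s) :=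
    ⟨_, fun _ => rfl⟩
  have k2 : ∀ k, t k ∈ G := fun k => by rw [hG, ht]; exact ⟨hR k, hc k⟩
  obtain ⟨B₁, -, -, hB₁⟩ := QHom_ball hφ η
  obtain ⟨B₂, -, -, hB₂⟩ := QHom_ball hψ y
  obtain ⟨z, z1, z2, z3⟩ := QHom_lim k1 (t := fun j => t ((P * j : ℕ) + n)) (fun _ => k2 _)
    (norm_nonneg m) hφ.lt (p := p) (R := B₁) fun j => by
      simp only [ht]
      rw [j2, QHom_lin hφ]
      exact (hB₁ j).2.2
  obtain ⟨z', y1, y2, y3⟩ := QHom_lim k1 (t := fun j => t (-(P' * j : ℕ))) (fun _ => k2 _)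
    (norm_nonneg m') hψ.lt (p := p) (R := B₂) fun j => by
      simp only [ht]
      rw [← i2, QHom_lin hψ]
      exact (hB₂ j).2.2
  obtain ⟨z4, z5⟩ := hG.subset z1
  have y5 := (hG.subset y1).2
  rw [y2, ← z2] at y5
  obtain ⟨w1, w2⟩ := y5.uniq hA hχ (by linarith) z5
  obtain ⟨e, w3⟩ := exists_smul_of_det2 (by rw [← norm_pos_iff, y5.nu]; norm_num) w1
  obtain ⟨e', w4⟩ := exists_smul_of_det2 (by rw [← norm_pos_iff, y5.ns]; norm_num) w2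
  have w5 : ‖e‖ = 1 := by simpa [w3, norm_smul, y5.nu] using z5.nu
  have w6 : ‖e'‖ = 1 := by simpa [w4, norm_smul, y5.ns] using z5.ns
  obtain ⟨ε, hε, ε1, ε2, ε3⟩ : ∃ ε : ℝ, 0 < ε ∧ 1000 * ε ≤ χu ∧ 1000 * ε ≤ -χs ∧ 1000 * ε ≤ 1 :=
    ⟨min χu (min (-χs) 1) / 1000, by positivity, by linarith [min_le_left χu (min (-χs) 1)],
      by linarith [min_le_right χu (min (-χs) 1), min_le_left (-χs) 1],
      by linarith [min_le_right χu (min (-χs) 1), min_le_right (-χs) 1]⟩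
  obtain ⟨Λ, b, δ, c₀, r, ε', M, hε', hch⟩ := exists_rchain hA R hε ε1 ε2 ε3 hχ N
  obtain ⟨T₀, hT₀⟩ : ∃ T₀ : Set ℤ, T₀ = {k | ∃ c c' : ℂ, Good F χu χs ε N ((F ^ k) (ψ y))
      (c • fderiv ℂ (⇑(F ^ k)) (ψ y) (deriv ψ y)) (c' • fderiv ℂ (⇑(F ^ k)) (ψ y) s) ∧
      ‖(F ^ k) (ψ y) - z.1‖ ≤ ε' ∧ ‖c • fderiv ℂ (⇑(F ^ k)) (ψ y) (deriv ψ y) - z.2.1‖ ≤ ε' ∧
      ‖c' • fderiv ℂ (⇑(F ^ k)) (ψ y) s - z.2.2‖ ≤ ε'} := ⟨_, rfl⟩
  have m0 : ∀ k, Good F χu χs ε N (t k).1 (t k).2.1 (t k).2.2 := fun k =>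
    (hG.subset (k2 k)).2.mono le_rfl (by simpa using hε.le) (by simpa using hε.le)
  have m1 : ∀ (k : ℤ) (x : E × E × E), ‖t k - x‖ ≤ ε' → ‖(t k).1 - x.1‖ ≤ ε' ∧
      ‖(t k).2.1 - x.2.1‖ ≤ ε' ∧ ‖(t k).2.2 - x.2.2‖ ≤ ε' := fun k x hx =>
    ⟨(norm_fst_le (t k - x)).trans hx,
      (norm_fst_le (t k - x).2).trans ((norm_snd_le _).trans hx),
      (norm_snd_le (t k - x).2).trans ((norm_snd_le _).trans hx)⟩
  have m2 : ∀ n₀ : ℤ, ∃ k ∈ T₀, n₀ ≤ k := fun n₀ => by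
    obtain ⟨j, h1, h2⟩ := z3 ε' hε' n₀.toNat
    have h3 := m1 _ _ h2
    have h4 := m0 ((P * j : ℕ) + n)
    have h5 := Nat.le_mul_of_pos_left j hφ.pos
    rw [ht] at h3 h4
    exact ⟨_, hT₀.superset ⟨_, _, h4, h3⟩, by omega⟩
  have m3 : ∀ n₀ : ℤ, ∃ k ∈ T₀, k ≤ n₀ := fun n₀ => by
    obtain ⟨j, h1, h2⟩ := y3 ε' hε' (-n₀).toNat
    obtain ⟨h3, h6, h7⟩ := m1 _ _ h2
    have h4 := (m0 (-(P' * j : ℕ))).phase w5 w6
    have h5 := Nat.le_mul_of_pos_left j hψ.pos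
    rw [ht] at h3 h4 h6 h7
    refine ⟨-(P' * j : ℕ), hT₀.superset ⟨e * c (-(P' * j : ℕ)), e' * c' (-(P' * j : ℕ)),
      ?_, ?_, ?_, ?_⟩, by omega⟩
    · simpa only [smul_smul] using h4
    · rw [z2, ← y2]
      exact h3
    · rw [w3, mul_smul, ← smul_sub, norm_smul, w5, one_mul]
      exact h6
    · rw [w4, mul_smul, ← smul_sub, norm_smul, w6, one_mul]
      exact h7
  obtain ⟨k₀, hk₀, -⟩ := m2 0
  have m4 : Rec {k : ℤ | k + k₀ ∈ T₀} := by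
    refine ⟨by simpa using hk₀, fun n₀ => ?_, fun n₀ => ?_⟩
    · obtain ⟨k, h1, h2⟩ := m2 (n₀ + k₀)
      exact ⟨k - k₀, by simpa using h1, by omega⟩
    · obtain ⟨k, h1, h2⟩ := m3 (n₀ + k₀)
      exact ⟨k - k₀, by simpa using h1, by omega⟩
  obtain ⟨T, T1, T2, T3⟩ := m4.sparse M
  obtain ⟨A, hA'⟩ := hch z.1 z.2.1 z.2.2 z4 z5.nu z5.ns z5.det (ψ y) (deriv ψ y) s
    {k | k - k₀ ∈ T} hR ⟨k₀, by simpa using T2.1⟩ (fun k hk k' hk' hne => by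
      have := T3 _ hk _ hk' (by omega)
      push_cast at this
      rwa [sub_sub_sub_cancel_right] at this) fun k hk => by
      have := T1 hk
      rw [mem_ofPred_eq, sub_add_cancel] at this
      exact hT₀.subset this
  refine ⟨Λ, b, δ, c₀, _, A, _, hA', fun n₀ => ?_, fun n₀ => ?_⟩
  · obtain ⟨k, h1, h2⟩ := T2.2.1 (n₀ - k₀)
    exact ⟨k + k₀, by simpa using h1, by omega⟩
  · obtain ⟨k, h1, h2⟩ := T2.2.2 (n₀ - k₀)
    exact ⟨k + k₀, by simpa using h1, by omega⟩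

end Pool.Agent.Lib.MP_7b5e47_an.Hn
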