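import Pool.Agent.Lib.MP_7b5e47_an.Hn.LBasic
import Pool.Agent.Lib.MP_7b5e47_an.Hn.GLinU

namespace Pool.Agent.Lib.MP_7b5e47_an.Hn

open Filter Topology Set Metric MeasureTheory

/-! Periodic chains: periodic points, linearizers, saddles. A chain with `T = ∅` carries no
condition on visits. -/

variable {F : Pm} {a : ℂ} {d : ℝ} {Gp Gm : E → ℝ} {Λ b δ c₀ : ℝ} {A₀ : Ch} {x : E}
  {A : ℤ → Ch} {T : Set ℤ}

theorem QPer_inv {G : Pm} (hG : Differentiable ℂ (⇑G)) (hG' : Differentiable ℂ (⇑G⁻¹)) {p v : E}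
    {c : ℂ} (hp : G p = p) (hv : v ≠ 0) (h : fderiv ℂ (⇑G) p v = c • v) :
    c ≠ 0 ∧ fderiv ℂ (⇑G⁻¹) p v = c⁻¹ • v := by
  have h1 := BAut_comp hG' hG p v
  rw [inv_mul_cancel, Equiv.Perm.coe_one, fderiv_id, hp, h, map_smul,
    ContinuousLinearMap.id_apply] at h1
  have hc : c ≠ 0 := by
    rintro rfl
    exact hv (by simpa using h1)
  exact ⟨hc, (eq_inv_smul_iff₀ hc).2 h1.symm⟩

theorem QPer_bd {G : Pm} {N : ℕ} (hN : 0 < N) {p : E} (h : (G ^ N) p = p) : p ∈ Kp G := by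
  obtain ⟨R, hR⟩ := ((Set.finite_lt_nat N).image fun i => ‖(G ^ i) p‖).bddAbove
  refine ⟨R, fun n => hR ⟨n % N, Nat.mod_lt n hN, ?_⟩⟩
  conv_rhs => rw [← Nat.mod_add_div n N, pow_add, pow_mul, Equiv.Perm.mul_apply,
    Equiv.Perm.pow_apply_eq_self_of_apply_eq_self h]

theorem QPer_comm (n : ℤ) (k : ℕ) (q : E) : (F⁻¹ ^ k) ((F ^ n) q) = (F ^ n) ((F⁻¹ ^ k) q) := by
  rw [← Equiv.Perm.mul_apply, ← Equiv.Perm.mul_apply,
    (((Commute.refl F).inv_left.pow_left k).zpow_right n).eq]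

theorem IsSaddle.inv (hA : Aut F a) {p : E} (h : IsSaddle F p) : IsSaddle F⁻¹ p := by
  obtain ⟨N, hN, hp, l, m, u, s, hu, hs, hl, hm, h1, h2⟩ := h
  have hd : Differentiable ℂ (⇑(F ^ N)⁻¹) := by
    rw [← inv_pow]
    exact hA.inv.ndiff N
  obtain ⟨-, h3⟩ := QPer_inv (hA.ndiff N) hd hp hu h1
  obtain ⟨h4, h5⟩ := QPer_inv (hA.ndiff N) hd hp hs h2
  rw [← inv_pow] at h3 h5
  refine ⟨N, hN, ?_, m⁻¹, l⁻¹, s, u, hs, hu, ?_, ?_, h5, h3⟩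
  · rw [inv_pow, Equiv.Perm.inv_eq_iff_eq, hp]
  · rw [norm_inv]
    exact (one_lt_inv₀ (norm_pos_iff.2 h4)).2 hm
  · rw [norm_inv]
    exact inv_lt_one_of_one_lt₀ hl

theorem IsSaddle.zpow (hA : Aut F a) {p : E} (h : IsSaddle F p) (n : ℤ) :
    IsSaddle F ((F ^ n) p) := by
  obtain ⟨N, hN, hp, l, m, u, s, hu, hs, hl, hm, h1, h2⟩ := h
  have hc : F ^ N * F ^ n = F ^ n * F ^ N := (((Commute.refl F).pow_left N).zpow_right n).eq
  have key : ∀ (v : E) (c : ℂ), fderiv ℂ (⇑(F ^ N)) p v = c • v →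
      fderiv ℂ (⇑(F ^ N)) ((F ^ n) p) (fderiv ℂ (⇑(F ^ n)) p v) = c • fderiv ℂ (⇑(F ^ n)) p v := by
    intro v c hv
    rw [← BAut_comp (hA.ndiff N) (hA.zdiff n), hc, BAut_comp (hA.zdiff n) (hA.ndiff N), hp, hv,
      map_smul]
  refine ⟨N, hN, ?_, l, m, _, _, hA.fderiv_ne n p hu, hA.fderiv_ne n p hs, hl, hm, key u l h1,
    key s m h2⟩
  rw [← Equiv.Perm.mul_apply, hc, Equiv.Perm.mul_apply, hp]

theorem mem_Wu_zpow (hA : Aut F a) {p q : E} (hp : p ∈ Kp F⁻¹) (n : ℤ) (h : q ∈ Wu F p) :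
    (F ^ n) q ∈ Wu F ((F ^ n) p) := by
  obtain ⟨R, hR⟩ := hp
  obtain ⟨C, hC, hL⟩ := exists_lip (hA.zdiff n) (R + 1)
  have h0 : Tendsto (fun k : ℕ => dist ((F⁻¹ ^ k) q) ((F⁻¹ ^ k) p)) atTop (𝓝 0) := h
  have h1 := h0.const_mul C
  rw [mul_zero] at h1
  refine squeeze_zero' (Eventually.of_forall fun _ => dist_nonneg) ?_ h1
  filter_upwards [h0.eventually (ge_mem_nhds one_pos)] with k hk
  rw [QPer_comm, QPer_comm, dist_eq_norm, dist_eq_norm]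
  rw [dist_eq_norm] at hk
  refine (hL _ _ ?_ (by linarith [hR k])).2.2.1
  linarith [hR k, norm_sub_norm_le ((F⁻¹ ^ k) q) ((F⁻¹ ^ k) p)]

theorem IsSaddle.mem_K {p : E} (h : IsSaddle F p) : p ∈ Kp F ∧ p ∈ Kp F⁻¹ := by
  obtain ⟨N, hN, hp, -⟩ := h
  exact ⟨QPer_bd hN hp, QPer_bd hN (by rw [inv_pow, Equiv.Perm.inv_eq_iff_eq, hp])⟩

theorem Wu_subset {p : E} (hp : p ∈ Kp F⁻¹) : Wu F p ⊆ Kp F⁻¹ := by
  intro q hq
  obtain ⟨R, hR⟩ := hp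
  have h0 : Tendsto (fun k : ℕ => dist ((F⁻¹ ^ k) q) ((F⁻¹ ^ k) p)) atTop (𝓝 0) := hq
  obtain ⟨C, hC⟩ := h0.bddAbove_range
  refine ⟨R + C, fun k => ?_⟩
  have h1 := hC ⟨k, rfl⟩
  simp only [dist_eq_norm] at h1
  linarith [hR k, norm_sub_norm_le ((F⁻¹ ^ k) q) ((F⁻¹ ^ k) p)]

theorem IsUParam.zpow (hA : Aut F a) {p : E} (hp : p ∈ Kp F⁻¹) {ξ : ℂ → E}
    (h : IsUParam F p ξ) (n : ℤ) : IsUParam F ((F ^ n) p) (fun ζ => (F ^ n) (ξ ζ)) := by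
  refine ⟨(hA.zdiff n).comp h.1, (F ^ n).injective.comp h.2.1, Subset.antisymm ?_ fun q hq => ?_⟩
  · rintro _ ⟨ζ, rfl⟩
    exact mem_Wu_zpow hA hp n (h.2.2 ▸ mem_range_self ζ)
  · have h1 := mem_Wu_zpow hA ((mem_Km_zpow n).2 hp) (-n) hq
    rw [← Equiv.Perm.mul_apply (F ^ (-n)) (F ^ n), ← zpow_add, neg_add_cancel, zpow_zero,
      Equiv.Perm.one_apply, ← h.2.2] at h1
    obtain ⟨ζ, hζ⟩ := h1
    exact ⟨ζ, by simp [hζ]⟩

theorem IsUParam.affine {p : E} {ξ : ℂ → E} (h : IsUParam F p ξ) {c : ℂ} (hc : c ≠ 0) (e : ℂ) :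
    IsUParam F p (fun ζ => ξ (c * ζ + e)) := by
  refine ⟨h.1.comp (by fun_prop), fun x y hxy => mul_left_cancel₀ hc (add_right_cancel (h.2.1 hxy)),
    ?_⟩
  rw [← h.2.2]
  refine Subset.antisymm ?_ ?_
  · rintro _ ⟨ζ, rfl⟩
    exact mem_range_self _
  · rintro _ ⟨ζ, rfl⟩
    refine ⟨(ζ - e) / c, congrArg ξ ?_⟩
    field_simp
    ring

/-- Closing a segment between two visits: `A' k = A (k₀ + (k - k₀) % P)`; the point is given by
`Chain.exists_per` for `fwc F A' 0`. -/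
theorem RChain.periodize (h : RChain F Λ b δ c₀ A₀ x A T) {k₀ : ℤ} {P : ℕ} (hP : 0 < P)
    (h0 : k₀ ∈ T) (h1 : k₀ + P ∈ T) : ∃ (A' : ℤ → Ch) (q : E),
      RChain F Λ b δ c₀ A₀ q A' ∅ ∧ (∀ k, A' (k + P) = A' k) ∧ (F ^ P) q = q ∧
      ∀ k, k₀ ≤ k → k ≤ k₀ + P → A' k = A k := by
  have hP' : (0 : ℤ) < P := by exact_mod_cast hP
  obtain ⟨A', hA'⟩ : ∃ A' : ℤ → Ch, A' = fun k => A (k₀ + (k - k₀) % P) := ⟨_, rfl⟩
  have e0 : A (k₀ + P) = A k₀ := (h.vis _ h1).trans (h.vis _ h0).symm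
  have e1 : ∀ r : ℤ, 0 ≤ r → r ≤ P → A (k₀ + r % P) = A (k₀ + r) := fun r a1 a2 => by
    rcases a2.lt_or_eq with a | a
    · rw [Int.emod_eq_of_lt a1 a]
    · rw [a, Int.emod_self, add_zero, e0]
  have e2 : ∀ k, A' (k + 1) = A (k₀ + (k - k₀) % P + 1) := fun k => by
    have a1 := Int.emod_nonneg (k - k₀) hP'.ne'
    have a2 := Int.emod_lt_of_pos (k - k₀) hP'
    rw [add_assoc, ← e1 _ (by omega) (by omega), hA', Int.emod_add_emod]
    beta_reduce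
    rw [add_sub_right_comm]
  have e3 : ∀ k, A' (k + P) = A' k := fun k => by
    rw [hA']
    beta_reduce
    rw [add_sub_right_comm, Int.add_emod_right]
  have e4 : ∀ k, Step Λ b δ (loc F (A' k) (A' (k + 1))) := fun k => by
    rw [e2, hA']
    exact h.step _
  obtain ⟨z, z1, z2⟩ := Chain.exists_per (Φ := fwc F A' 0) ⟨h.small, fun n => e4 _⟩ hP fun n => by
    simp only [fwc]
    rw [← e3 (0 + n), ← e3 (0 + n + 1)]
    push_cast
    congr 2 <;> ring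
  have e5 : (F ^ P) ((A' 0).pm z) = (A' 0).pm z := by
    rw [cmp_fwc, e3, Equiv.Perm.mul_apply, Equiv.Perm.mul_apply, Equiv.Perm.inv_eq_iff_eq] at z1
    exact z1
  refine ⟨A', (A' 0).pm z, ⟨h.small, h.pos, fun k => hA' ▸ h.det _, e4, fun k hk => hk.elim,
    fun k => ?_, fun k => hA' ▸ h.up _, fun k τ hτ => hτ.elim⟩, e3, e5, fun k a1 a2 => ?_⟩
  · obtain ⟨n, hn⟩ := Int.eq_ofNat_of_zero_le (a := k + k.natAbs * P) (by
      have : (k.natAbs : ℤ) * 1 ≤ k.natAbs * P := by gcongr; omega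
      omega)
    have a1 := z2 n
    rw [cmp_fwc, Equiv.Perm.mul_apply, Equiv.Perm.mul_apply, zero_add, ← zpow_natCast, ← hn,
      Function.Periodic.nat_mul e3, zpow_add, mul_comm, zpow_mul, zpow_natCast, zpow_natCast,
      Equiv.Perm.mul_apply, Equiv.Perm.pow_apply_eq_self_of_apply_eq_self e5] at a1
    exact a1
  · rw [hA']
    beta_reduce
    rw [e1 _ (by omega) (by omega), add_sub_cancel]

/-- an entire linearizer of the stable manifold of a periodic point -/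
structure SLin (F : Pm) (p : E) (φ : ℂ → E) (P : ℕ) (m : ℂ) : Prop where
  par : IsUParam F⁻¹ p φ
  zero : φ 0 = p
  der : deriv φ 0 ≠ 0
  pos : 0 < P
  ne : m ≠ 0
  lt : ‖m‖ < 1
  lin : ∀ ζ, (F ^ P) (φ ζ) = φ (m * ζ)

/-- By `IsLin.uniq` (and `IsLin.shf`, `shf_fwc`, periodicity) `Ψ P = Ψ 0`, so `funcN` gives `lin`
with `m` the product of the multipliers. Range: the chart distance `‖Ψ n (L n ζ) - Ψ n 0‖` tends to
zero (`Chain.stay_two` once `‖L n ζ‖ ≤ ρ`) and `up`; conversely the finitely many charts have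
determinants bounded below, so a point of the stable manifold is, at a large time `n P`, close to
`q` in the chart and stays; `IsLin.surj`. -/
theorem RChain.slin (hA : Aut F a) {q : E} (h : RChain F Λ b δ c₀ A₀ q A ∅) {P : ℕ} (hP : 0 < P)
    (hper : ∀ k, A (k + P) = A k) (hq : (F ^ P) q = q) {ρ : ℝ} (hρ : 0 < ρ) {Ψ : ℕ → ℂ → E}
    {l : ℕ → ℂ} (hl : IsLin (the Λ) ρ (fwc F A 0) ((A 0).pm⁻¹ q) Ψ l) :
    ∃ m, SLin F q (fun ζ => (A 0).pm (Ψ 0 ζ)) P m := by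
  have hc := h.chain 0
  have hθ := h.small.the_lt
  have hθ0 := h.small.the_pos
  obtain ⟨Φ, hΦ⟩ : ∃ Φ, Φ = fwc F A 0 := ⟨_, rfl⟩
  obtain ⟨z, hz⟩ : ∃ z, z = (A 0).pm⁻¹ q := ⟨_, rfl⟩
  have hst := h.stay 0
  have horb := h.orbit 0
  rw [zpow_zero, Equiv.Perm.one_apply] at hst horb
  have hcm := cmp_fwc F A 0
  rw [← hΦ, ← hz] at hl hst horb
  rw [← hΦ] at hc hcm
  have hq0 : (A 0).pm z = q := by simp [hz]
  have k1 : ∀ j : ℕ, shf Φ (j * P) = Φ ∧ cmp Φ (j * P) z = z ∧ Ψ (j * P) = Ψ 0 := fun j => by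
    have a0 : ∀ k, A (k + (j * P : ℕ)) = A k := fun k => by
      push_cast
      exact Function.Periodic.nat_mul hper j k
    have a1 : shf Φ (j * P) = Φ := by
      rw [hΦ, shf_fwc]
      funext n
      simp only [fwc]
      rw [add_right_comm, add_right_comm _ _ (1 : ℤ), a0, a0]
    have a2 : cmp Φ (j * P) z = z := by
      rw [hcm, a0, Equiv.Perm.mul_apply, Equiv.Perm.mul_apply, hq0, mul_comm, pow_mul,
        Equiv.Perm.pow_apply_eq_self_of_apply_eq_self hq, hz]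
    have a3 := hl.shf (j * P)
    rw [a1, a2] at a3
    exact ⟨a1, a2, a3.uniq hc hρ hθ hl⟩
  have k2 : ∀ (n : ℕ) (w : E), (F ^ n) ((A 0).pm w) = (A (0 + n)).pm (cmp Φ n w) := fun n w => by
    simp [hcm]
  refine ⟨∏ j ∈ Finset.range P, l j, ⟨(A 0).diff.comp (hl.diff 0),
    (A 0).pm.injective.comp (hl.inj hρ hθ), Subset.antisymm ?_ fun w hw => ?_⟩, ?_, ?_, hP,
    Finset.prod_ne_zero_iff.2 fun j _ => hl.lam_ne hρ j,
    (GLinU_prod hl.lam P).trans_lt (pow_lt_one₀ hθ0.le hθ hP.ne'), fun ζ => ?_⟩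
  · rintro _ ⟨ζ, rfl⟩
    obtain ⟨n₀, hn₀⟩ := ((GLinU_lim hl.lam hθ ζ).eventually (ge_mem_nhds hρ)).exists
    have a1 := ((hc.shf n₀).stay_two ((hl.shf n₀).stay hθ.le hn₀) (hst.shf n₀)).2
    simp only [add_zero, ← hl.funcN, ← Equiv.Perm.mul_apply, ← cmp_add] at a1
    have a2 := ((tendsto_pow_atTop_nhds_zero_of_lt_one hθ0.le hθ).mul_const
      ‖cmp Φ n₀ (Ψ 0 ζ) - cmp Φ n₀ z‖).const_mul (2 * 1)
    rw [zero_mul, mul_zero] at a2
    refine (tendsto_add_atTop_iff_nat n₀).1 (squeeze_zero (fun _ => dist_nonneg) (fun n => ?_) a2)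
    rw [inv_inv, ← hq0, k2, k2, dist_eq_norm, add_comm n]
    refine (Ch.norm_pm_sub (h.det _) (h.up _).1 (h.up _).2 _ _).trans ?_
    gcongr
    exact a1 n
  · obtain ⟨k₁, -, hk₁⟩ := (Finset.Ico (0 : ℤ) P).exists_min_image (fun k => ‖(A k).det‖)
      ⟨0, by simpa using hP⟩
    have a0 : 0 < ‖(A k₁).det‖ := norm_pos_iff.2 (h.det _)
    have a1 : Tendsto (fun n : ℕ => dist ((F⁻¹⁻¹ ^ n) w) ((F⁻¹⁻¹ ^ n) q)) atTop (𝓝 0) := hw
    have a2 := (a1.const_mul (2 * 1)).div_const ‖(A k₁).det‖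
    rw [mul_zero, zero_div] at a2
    have a3 : Tendsto (fun n => ‖cmp Φ n ((A 0).pm⁻¹ w) - cmp Φ n z‖) atTop (𝓝 0) := by
      refine squeeze_zero (fun _ => norm_nonneg _) (fun n => ?_) a2
      obtain ⟨y, y1, y2⟩ := Function.Periodic.exists_mem_Ico₀ hper (by exact_mod_cast hP) (0 + n)
      have a4 := Ch.norm_inv_sub (h.det (0 + n)) (h.up _).1 (h.up _).2 ((F ^ n) w) ((F ^ n) q)
      have a5 := hk₁ y (Finset.mem_Ico.2 y1)
      rw [← y2] at a5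
      rw [le_div_iff₀' a0, inv_inv, dist_eq_norm]
      refine le_trans ?_ a4
      gcongr
      simp [hcm, hz]
    obtain ⟨n₀, hn₀⟩ := eventually_atTop.1 ((a3.eventually (gt_mem_nhds
      (show 0 < ρ / 3 by positivity))).and (a3.eventually (ge_mem_nhds one_half_pos)))
    have a4 : n₀ ≤ n₀ * P := Nat.le_mul_of_pos_right _ hP
    obtain ⟨b1, b2, b3⟩ := k1 n₀
    obtain ⟨H, -, hH⟩ := hl.surj hc hρ hθ.le
    have a5 := hH (cmp Φ (n₀ * P) ((A 0).pm⁻¹ w)) (fun j => by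
      have c1 := (hn₀ (n₀ * P + j) (by omega)).2
      have c2 := h.orb (0 + (n₀ * P + j : ℕ))
      rw [← horb] at c2
      have c3 := norm_sub_norm_le (cmp Φ (n₀ * P + j) ((A 0).pm⁻¹ w)) (cmp Φ (n₀ * P + j) z)
      rw [← Equiv.Perm.mul_apply, ← congrArg (cmp · j) b1, ← cmp_add]
      linarith) (by
      have c1 := (hn₀ _ a4).1
      rw [b2] at c1
      exact (norm_snd_le (_ - z)).trans_lt c1)
    have a6 : ∏ j ∈ Finset.range (n₀ * P), l j ≠ 0 :=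
      Finset.prod_ne_zero_iff.2 fun j _ => hl.lam_ne hρ j
    generalize H _ = ζ at a5
    rw [← b3, ← mul_div_cancel₀ ζ a6, ← hl.funcN] at a5
    exact ⟨_, (congrArg (A 0).pm ((cmp Φ _).injective a5)).trans (by simp)⟩
  · rw [hl.zero]
    exact hq0
  · have a1 : HasDerivAt (fun ζ => (A 0).pm (Ψ 0 ζ))
        (fderiv ℂ (⇑(A 0).pm) (Ψ 0 0) (deriv (Ψ 0) 0)) 0 :=
      ((A 0).diff _).hasFDerivAt.comp_hasDerivAt 0 (hl.diff 0 0).hasDerivAt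
    rw [a1.deriv, Ch.fderiv_pm (h.det 0)]
    intro h0
    have a2 := (A 0).norm_vec_ge (h.up 0).1 (h.up 0).2 (deriv (Ψ 0) 0)
    have a3 := norm_snd_le (deriv (Ψ 0) 0)
    rw [hl.deriv_snd hρ, norm_one] at a3
    rw [h0, norm_zero, mul_zero] at a2
    exact absurd a2 (not_le.2 (mul_pos (norm_pos_iff.2 (h.det 0)) (by linarith)))
  · have a1 := (k1 1).2.2
    rw [one_mul] at a1
    rw [k2, hper, hl.funcN, a1]

theorem QPer_eig {p : E} {φ : ℂ → E} {P : ℕ} {m : ℂ} (hd : Differentiable ℂ (⇑(F ^ P)))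
    (h : SLin F p φ P m) : fderiv ℂ (⇑(F ^ P)) p (deriv φ 0) = m • deriv φ 0 := by
  have h1 := (hd _).hasFDerivAt.comp_hasDerivAt 0 (h.par.1 0).hasDerivAt
  have h2 := h1.deriv
  rw [show ⇑(F ^ P) ∘ φ = fun ζ => φ (m * ζ) from funext h.lin, deriv_comp_mul_left, mul_zero,
    h.zero] at h2
  exact h2.symm

/-- `exists_lin` and `slin` for the chain and for the reversed chain; differentiate `lin` at 0 -/
theorem RChain.saddle (hA : Aut F a) {q : E} (h : RChain F Λ b δ c₀ A₀ q A ∅) {P : ℕ} (hP : 0 < P)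
    (hper : ∀ k, A (k + P) = A k) (hq : (F ^ P) q = q) : IsSaddle F q := by
  obtain ⟨ρ, hρ, hex⟩ := exists_lin h.small
  have key : ∀ {G : Pm} {a' : ℂ} {B₀ : Ch} {B : ℤ → Ch}, Aut G a' → RChain G Λ b δ c₀ B₀ q B ∅ →
      (∀ k, B (k + P) = B k) → (G ^ P) q = q →
      ∃ (m : ℂ) (v : E), v ≠ 0 ∧ ‖m‖ < 1 ∧ fderiv ℂ (⇑(G ^ P)) q v = m • v := by
    intro G a' B₀ B hG hB h1 h2
    have a1 := hB.stay 0
    have a2 := hB.orb 0
    rw [zpow_zero, Equiv.Perm.one_apply] at a1 a2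
    obtain ⟨Ψ, l, hl⟩ := hex _ (hB.chain 0) _ (a2.trans (by norm_num)) a1
    obtain ⟨m, hm⟩ := hB.slin hG hP h1 h2 hρ hl
    exact ⟨m, _, hm.der, hm.lt, QPer_eig (hG.ndiff P) hm⟩
  obtain ⟨m, s, hs, hm, h1⟩ := key hA h hper hq
  have hq' : (F⁻¹ ^ P) q = q := by rw [inv_pow, Equiv.Perm.inv_eq_iff_eq, hq]
  obtain ⟨m', u, hu, hm', h2⟩ := key hA.inv h.rev (fun k => by
    simp only [rvc]
    rw [← hper (-(k + P))]
    congr 2
    ring) hq'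
  obtain ⟨h3, h4⟩ := QPer_inv (hA.inv.ndiff P) (by
    rw [inv_pow, inv_inv]
    exact hA.ndiff P) hq' hu h2
  rw [inv_pow, inv_inv] at h4
  refine ⟨P, hP, hq, m'⁻¹, m, u, s, hu, hs, ?_, hm, h4, h1⟩
  rw [norm_inv]
  exact (one_lt_inv₀ (norm_pos_iff.2 h3)).2 hm'

end Pool.Agent.Lib.MP_7b5e47_an.Hn
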