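import Pool.Agent.Lib.MP_7b5e47_an.Hn.QPer
import Pool.Agent.Lib.MP_7b5e47_an.Hn.CHyp
import Pool.Agent.Lib.MP_7b5e47_an.Hn.ELin

namespace Pool.Agent.Lib.MP_7b5e47_an.Hn

open Filter Topology Set Metric MeasureTheory

/-! Linearizers of a saddle; all parametrizations of an unstable manifold are affinely related. -/

variable {F : Pm} {a : ℂ} {d : ℝ} {Gp Gm : E → ℝ}

theorem QSad_ia (f : Pm) (z : E) : f⁻¹ (f z) = z := f.symm_apply_apply z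

theorem QSad_ai (f : Pm) (z : E) : f (f⁻¹ z) = z := f.apply_symm_apply z

theorem QSad_fix {p : E} {N : ℕ} (hN : (F ^ N) p = p) (j : ℤ) : (F ^ ((N : ℤ) * j)) p = p := by
  rw [zpow_mul, zpow_natCast]
  exact Equiv.Perm.zpow_apply_eq_self_of_apply_eq_self hN j

theorem QSad_eig (hA : Aut F a) {p v : E} {N : ℕ} {l : ℂ} (hN : (F ^ N) p = p) (hl : l ≠ 0)
    (hv : fderiv ℂ (⇑(F ^ N)) p v = l • v) (j : ℤ) :
    fderiv ℂ (⇑(F ^ ((N : ℤ) * j))) p v = l ^ j • v := by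
  have key : ∀ i : ℤ, fderiv ℂ (⇑(F ^ ((N : ℤ) * (i + 1)))) p v =
      l • fderiv ℂ (⇑(F ^ ((N : ℤ) * i))) p v := fun i => by
    rw [mul_add, mul_one, hA.fderiv_zadd, zpow_natCast, hN, hv, map_smul]
  induction j using Int.induction_on with
  | zero => simp
  | succ i ih => rw [key, ih, smul_smul, zpow_add_one₀ hl, mul_comm]
  | pred i ih =>
    have h1 := key (-(i : ℤ) - 1)
    rw [sub_add_cancel, ih] at h1
    rw [zpow_sub_one₀ hl, mul_comm (l ^ _), ← smul_smul, h1, inv_smul_smul₀ hl]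

theorem QSad_bd (hA : Aut F a) {p v : E} {N : ℕ} {l : ℂ} (h0 : 0 < N) (hN : (F ^ N) p = p)
    (hl : l ≠ 0) (hv : fderiv ℂ (⇑(F ^ N)) p v = l • v) : ∃ C : ℝ, 0 ≤ C ∧ ∀ n : ℤ,
      ‖fderiv ℂ (⇑(F ^ n)) p v‖ ≤ C * Real.exp (Real.log ‖l‖ / N * n) := by
  set χ := Real.log ‖l‖ / N with hχ
  refine ⟨∑ r ∈ Finset.Ico (0 : ℤ) N, Real.exp (-(χ * r)) * ‖fderiv ℂ (⇑(F ^ r)) p v‖,
    by positivity, fun n => ?_⟩
  have hN0 : (0 : ℤ) < N := by exact_mod_cast h0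
  have hNr : (N : ℝ) ≠ 0 := by positivity
  have e : n = n % N + N * (n / N) := (Int.emod_add_mul_ediv n N).symm
  have hr : n % N ∈ Finset.Ico (0 : ℤ) N :=
    Finset.mem_Ico.2 ⟨Int.emod_nonneg _ hN0.ne', Int.emod_lt_of_pos _ hN0⟩
  generalize n % N = r at e hr
  generalize n / N = j at e
  subst e
  rw [hA.fderiv_zadd, QSad_fix hN, QSad_eig hA hN hl hv, map_smul, norm_smul, norm_zpow]
  have h1 : ‖l‖ ^ j = Real.exp (-(χ * r)) * Real.exp (χ * ((r + N * j : ℤ) : ℝ)) := by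
    rw [← Real.exp_add, ← Real.exp_log (zpow_pos (norm_pos_iff.2 hl) j), Real.log_zpow, hχ]
    congr 1
    push_cast
    field_simp
    ring
  rw [h1, mul_right_comm]
  exact mul_le_mul_of_nonneg_right (Finset.single_le_sum
    (f := fun r : ℤ => Real.exp (-(χ * r)) * ‖fderiv ℂ (⇑(F ^ r)) p v‖)
    (fun _ _ => by positivity) hr) (Real.exp_pos _).le

theorem QSad_unit {M : E →L[ℂ] E} {v : E} {l : ℂ} (hv : v ≠ 0) (h : M v = l • v) :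
    ∃ w : E, ‖w‖ = 1 ∧ M w = l • w := by
  refine ⟨((‖v‖⁻¹ : ℝ) : ℂ) • v, ?_, by rw [map_smul, h, smul_comm]⟩
  rw [norm_smul, Complex.norm_real, norm_inv, norm_norm, inv_mul_cancel₀ (norm_ne_zero_iff.2 hv)]

theorem QSad_per {Λ b δ c₀ : ℝ} {A₀ : Ch} {A : ℤ → Ch} {p : E} {T : Set ℤ} {P : ℕ} (hP : 0 < P)
    (h : RChain F Λ b δ c₀ A₀ p A T) (h0 : (0 : ℤ) ∈ T) (h1 : (P : ℤ) ∈ T) (hp : (F ^ P) p = p) :
    RChain F Λ b δ c₀ A₀ p (fun k => A (k % P)) ∅ := by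
  have hP0 : (0 : ℤ) < P := by exact_mod_cast hP
  refine ⟨h.small, h.pos, fun k => h.det _, fun k => ?_, fun _ hk => hk.elim, fun k => ?_,
    fun k => h.up _, fun _ _ hk => hk.elim⟩
  · have e : A ((k + 1) % P) = A (k % P + 1) := by
      have h2 := Int.emod_nonneg k hP0.ne'
      have h3 := Int.emod_lt_of_pos k hP0
      rw [← Int.emod_add_emod]
      rcases (show k % P + 1 ≤ P by omega).lt_or_eq with h4 | h4
      · rw [Int.emod_eq_of_lt (by omega) h4]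
      · rw [h4, Int.emod_self, h.vis _ h0, h.vis _ h1]
    rw [e]
    exact h.step _
  · have e : (F ^ k) p = (F ^ (k % P)) p := by
      conv_lhs => rw [← Int.emod_add_mul_ediv k P, zpow_add, Equiv.Perm.mul_apply, QSad_fix hp]
    rw [e]
    exact h.orb _

theorem QSad_lin {Λ b δ c₀ : ℝ} {A₀ : Ch} {A : ℤ → Ch} {q : E} {T : Set ℤ}
    (h : RChain F Λ b δ c₀ A₀ q A T) :
    ∃ ρ > 0, ∃ Ψ l, IsLin (the Λ) ρ (fwc F A 0) ((A 0).pm⁻¹ q) Ψ l := by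
  obtain ⟨ρ, hρ, H⟩ := exists_lin h.small
  refine ⟨ρ, hρ, H _ (h.chain 0) _ ?_ (by simpa using h.stay 0)⟩
  have := h.orb 0
  rw [zpow_zero, Equiv.Perm.one_apply] at this
  linarith

theorem QSad_det {A : ℤ → Ch} (hd : ∀ k, (A k).det ≠ 0) {P : ℕ} (hP : 0 < P)
    (hper : ∀ k, A (k + P) = A k) : ∃ D > 0, ∀ i : ℕ, D ≤ ‖(A i).det‖ := by
  obtain ⟨i₀, -, hi⟩ := (Finset.range P).exists_min_image (fun i : ℕ => ‖(A i).det‖)
    ⟨0, Finset.mem_range.2 hP⟩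
  refine ⟨_, norm_pos_iff.2 (hd i₀), fun i => ?_⟩
  have h1 : Function.Periodic A (P : ℤ) := hper
  have e : (i : ℤ) = ((i % P : ℕ) : ℤ) + ((i / P : ℕ) : ℤ) * P := by
    exact_mod_cast (Nat.mod_add_div' i P).symm
  rw [e, h1.nat_mul]
  exact hi _ (Finset.mem_range.2 (Nat.mod_lt _ hP))

theorem QSad_Gm (hm : HalfG F⁻¹ d Gm Gp) (n : ℕ) (z : E) : Gm z = d ^ n * Gm ((F ^ n) z) := by
  rw [← hm.nequi n, inv_pow, QSad_ia]

theorem QSad_close (hp : HalfG F d Gp Gm) (hm : HalfG F⁻¹ d Gm Gp) (hA : Aut F a) {q : E}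
    (hq : q ∈ Kp F) {Y : ℂ → E} (hY : Differentiable ℂ Y) (hW : ∀ ζ, Y ζ ∈ Wu F⁻¹ q) (ζ₀ : ℂ)
    {ε : ℝ} (hε : 0 < ε) :
    ∃ n₀ : ℕ, ∀ᶠ ζ in 𝓝 ζ₀, ∀ n ≥ n₀, ‖(F ^ n) (Y ζ) - (F ^ n) q‖ ≤ ε := by
  obtain ⟨C, hC⟩ := (isCompact_closedBall ζ₀ 1).exists_bound_of_continuousOn
    (hm.cont.comp hY.continuous).continuousOn
  obtain ⟨R, hR⟩ := hp.proper C
  have hb : ∀ n : ℕ, ∀ ζ ∈ closedBall ζ₀ 1, ‖(F ^ n) (Y ζ)‖ ≤ R := fun n ζ hζ => by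
    have h1 : Gp (Y ζ) = 0 := (hp.zero_iff _).2 (Wu_subset (F := F⁻¹) hq (hW ζ))
    have h2 : Gm (Y ζ) ≤ C := (le_abs_self _).trans (hC ζ hζ)
    refine hR _ ?_ ?_
    · rw [hp.nequi, h1, mul_zero]
      exact (hm.nonneg _).trans h2
    · rw [QSad_Gm hm n] at h2
      exact (le_mul_of_one_le_left (hm.nonneg _) (one_le_pow₀ hm.one_lt.le)).trans h2
  have hL : ∀ n : ℕ, ∀ ζ ∈ ball ζ₀ 1,
      dist ((F ^ n) (Y ζ)) ((F ^ n) (Y ζ₀)) ≤ (R + R) / 1 * dist ζ ζ₀ := fun n ζ hζ =>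
    Complex.dist_le_div_mul_dist_of_mapsTo_ball (f := fun ζ => (F ^ n) (Y ζ))
      ((hA.ndiff n).comp hY).differentiableOn (fun t ht => by
        rw [mem_closedBall, dist_eq_norm]
        exact (norm_sub_le _ _).trans (add_le_add (hb n t (ball_subset_closedBall ht))
          (hb n ζ₀ (mem_closedBall_self zero_le_one)))) hζ
  have h0 : Tendsto (fun n : ℕ => dist ((F ^ n) (Y ζ₀)) ((F ^ n) q)) atTop (𝓝 0) := hW ζ₀
  obtain ⟨n₀, hn⟩ := eventually_atTop.1 (h0.eventually (gt_mem_nhds (half_pos hε)))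
  have h1 : Tendsto (fun ζ => (R + R) / 1 * dist ζ ζ₀) (𝓝 ζ₀) (𝓝 ((R + R) / 1 * dist ζ₀ ζ₀)) :=
    Continuous.tendsto (by fun_prop) _
  rw [dist_self, mul_zero] at h1
  refine ⟨n₀, ?_⟩
  filter_upwards [ball_mem_nhds ζ₀ one_pos, h1.eventually (gt_mem_nhds (half_pos hε))]
    with ζ hζ hζ' n hn'
  rw [← dist_eq_norm]
  have := dist_triangle ((F ^ n) (Y ζ)) ((F ^ n) (Y ζ₀)) ((F ^ n) q)
  linarith [hL n ζ hζ, hn n hn']

theorem QSad_linN {p : E} {φ : ℂ → E} {P : ℕ} {m : ℂ} (h : SLin F p φ P m) (j : ℕ) (ζ : ℂ) :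
    (F ^ (P * j)) (φ ζ) = φ (m ^ j * ζ) := by
  induction j with
  | zero => simp
  | succ j ih => rw [mul_add, mul_one, add_comm, pow_add, Equiv.Perm.mul_apply, ih, h.lin,
      pow_succ', mul_assoc]

theorem QSad_Kp (hp : HalfG F d Gp Gm) {p : E} {P : ℕ} (hP : 0 < P) (h : (F ^ P) p = p) :
    p ∈ Kp F := by
  have h1 := hp.nequi P p
  rw [h] at h1
  have h2 : 1 < d ^ P := one_lt_pow₀ hp.one_lt hP.ne'
  refine (hp.zero_iff _).1 (le_antisymm ?_ (hp.nonneg p))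
  nlinarith [hp.nonneg p]

/-- With eigenvalues `l, m` of `D(F^N₀)(p)` put `χu = log ‖l‖ / N₀`, `χs = log ‖m‖ / N₀`
(`l m = a^N₀` by `Aut.njac`, the eigenvectors being independent). The normalized eigenvectors form
a good frame for every `ε ≥ 0`. Apply `exists_rchain` with `T` the multiples of `P = j N₀`,
`P ≥ M`, and replace the charts by `A (k % P)`. -/
theorem IsSaddle.chain (hA : Aut F a) {p : E} (h : IsSaddle F p) :
    ∃ (Λ b δ c₀ : ℝ) (A₀ : Ch) (A : ℤ → Ch) (P : ℕ), RChain F Λ b δ c₀ A₀ p A ∅ ∧ 0 < P ∧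
      (∀ k, A (k + P) = A k) ∧ (F ^ P) p = p := by
  obtain ⟨⟨R₁, hR₁⟩, ⟨R₂, hR₂⟩⟩ := h.mem_K
  obtain ⟨N₀, h0, hN, l, m, u', s', hu', hs', hl, hm, eu', es'⟩ := h
  obtain ⟨u, hu, eu⟩ := QSad_unit hu' eu'
  obtain ⟨s, hs, es⟩ := QSad_unit hs' es'
  have hdet : det2 u s ≠ 0 := fun e => by
    obtain ⟨c, rfl⟩ := exists_smul_of_det2 (norm_ne_zero_iff.1 (by rw [hu]; exact one_ne_zero)) e
    rw [map_smul, eu, smul_comm] at es
    have := congrArg norm es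
    rw [norm_smul l, norm_smul m, hs] at this
    linarith
  have hlm : l * m = a ^ N₀ := by
    have := hA.njac N₀ p u s
    rw [eu, es, det2_smul] at this
    exact mul_right_cancel₀ hdet this
  have hl0 : l ≠ 0 := norm_pos_iff.1 (by linarith)
  have hm0 : m ≠ 0 := right_ne_zero_of_mul (hlm ▸ pow_ne_zero _ hA.ne)
  obtain ⟨Cu, -, hCu⟩ := QSad_bd hA h0 hN hl0 eu
  obtain ⟨Cs, hC0, hCs⟩ := QSad_bd hA h0 hN hm0 es
  have hNr : (0 : ℝ) < N₀ := by exact_mod_cast h0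
  have hχ : Real.log ‖l‖ / N₀ + Real.log ‖m‖ / N₀ = Real.log ‖a‖ := by
    rw [← add_div, ← Real.log_mul (norm_ne_zero_iff.2 hl0) (norm_ne_zero_iff.2 hm0), ← norm_mul,
      hlm, norm_pow, Real.log_pow, mul_div_cancel_left₀ _ hNr.ne']
  have hu0 : 0 < Real.log ‖l‖ / N₀ := div_pos (Real.log_pos hl) hNr
  have hs0 : Real.log ‖m‖ / N₀ < 0 :=
    div_neg_of_neg_of_pos (Real.log_neg (norm_pos_iff.2 hm0) hm) hNr
  generalize Real.log ‖l‖ / N₀ = χu at *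
  generalize Real.log ‖m‖ / N₀ = χs at *
  have hε : 0 < min (min χu (-χs)) 1 / 1000 := by
    have := neg_pos.2 hs0
    positivity
  have e1 := min_le_left (min χu (-χs)) 1
  have e2 := min_le_right (min χu (-χs)) 1
  have e3 := min_le_left χu (-χs)
  have e4 := min_le_right χu (-χs)
  have hd0 := norm_pos_iff.2 hdet
  have hG : Good F χu χs (min (min χu (-χs)) 1 / 1000) (max (max Cu Cs) (1 / ‖det2 u s‖))
      p u s := by
    have hN0 : 0 ≤ max (max Cu Cs) (1 / ‖det2 u s‖) := le_max_of_le_right (by positivity)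
    refine ⟨hu, hs, ?_, fun n => (hCu n).trans ?_, fun n => (hCs n).trans ?_⟩
    · exact (one_div_le (lt_max_of_lt_right (by positivity)) hd0).2 (le_max_right _ _)
    · exact mul_le_mul ((le_max_left _ _).trans (le_max_left _ _))
        (Real.exp_le_exp.2 (le_add_of_nonneg_right (by positivity))) (Real.exp_pos _).le hN0
    · exact mul_le_mul ((le_max_right _ _).trans (le_max_left _ _))
        (Real.exp_le_exp.2 (le_add_of_nonneg_right (by positivity))) (Real.exp_pos _).le hN0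
  obtain ⟨Λ, b, δ, c₀, r, ε', M, hε', H⟩ := exists_rchain hA (max R₁ R₂) hε (by linarith)
    (by linarith) (by linarith) hχ (max (max Cu Cs) (1 / ‖det2 u s‖))
  have hR : ∀ k : ℤ, ‖(F ^ k) p‖ ≤ max R₁ R₂ := fun k => by
    obtain ⟨n, rfl | rfl⟩ := Int.eq_nat_or_neg k
    · rw [zpow_natCast]
      exact (hR₁ n).trans (le_max_left _ _)
    · rw [zpow_neg, zpow_natCast, ← inv_pow]
      exact (hR₂ n).trans (le_max_right _ _)
  have hP : 0 < N₀ * (⌈M⌉₊ + 1) := by positivity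
  have hMP : M ≤ ((N₀ * (⌈M⌉₊ + 1) : ℕ) : ℝ) :=
    (Nat.le_ceil M).trans (Nat.cast_le.2 (by nlinarith))
  have hfix : (F ^ (N₀ * (⌈M⌉₊ + 1))) p = p := by
    rw [pow_mul]
    exact Equiv.Perm.pow_apply_eq_self_of_apply_eq_self hN _
  have hdv : N₀ ∣ N₀ * (⌈M⌉₊ + 1) := dvd_mul_right _ _
  generalize N₀ * (⌈M⌉₊ + 1) = P at *
  obtain ⟨A, hch⟩ := H p u s (by simpa using hR 0) hu hs hG.det p u s {k | (P : ℤ) ∣ k} hR
    ⟨0, dvd_zero _⟩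
    (fun k hk k' hk' hne => by
      have h1 : (P : ℤ) ≤ |k - k'| :=
        Int.le_of_dvd (abs_pos.2 (sub_ne_zero.2 hne)) ((dvd_abs _ _).2 (dvd_sub hk hk'))
      exact hMP.trans (by exact_mod_cast h1))
    (fun k hk => by
      obtain ⟨j, rfl⟩ := (Int.natCast_dvd_natCast.2 hdv).trans hk
      refine ⟨(l ^ j)⁻¹, (m ^ j)⁻¹, ?_⟩
      rw [QSad_fix hN, QSad_eig hA hN hl0 eu, QSad_eig hA hN hm0 es,
        inv_smul_smul₀ (zpow_ne_zero _ hl0), inv_smul_smul₀ (zpow_ne_zero _ hm0), sub_self,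
        sub_self, sub_self, norm_zero]
      exact ⟨hG, hε'.le, hε'.le, hε'.le⟩)
  exact ⟨Λ, b, δ, c₀, _, _, P, QSad_per hP hch (dvd_zero _) (dvd_refl _) hfix, hP,
    fun k => by simp only [Int.add_emod_right], hfix⟩

/-- Factorization. On a disc the maps `F^n ∘ Y` are uniformly bounded (`Gp ∘ Y = 0`,
`Gm (F^n Y) = d^(-n) Gm Y`, `proper`), hence equicontinuous (Cauchy), so
`‖F^n (Y ζ) - F^n q‖ → 0` uniformly on compact sets. For `n = j P` large, `F^n ∘ Y` read in the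
chart `A 0` is close to the centre and stays on the whole disc; `IsLin.surj` gives
`F^n (Y ζ) = φ (H (..))` with `H` holomorphic, so `Y ζ = φ (m^(-j) H (..))` on the disc. Since `φ`
is injective, the function `h` defined by choice is differentiable at every point. -/
theorem RChain.factor (hA : Aut F a) (hp : HalfG F d Gp Gm) (hm : HalfG F⁻¹ d Gm Gp)
    {Λ b δ c₀ : ℝ} {A₀ : Ch} {A : ℤ → Ch} {q : E} (h : RChain F Λ b δ c₀ A₀ q A ∅) {P : ℕ}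
    (hP : 0 < P) (hper : ∀ k, A (k + P) = A k) (hq : (F ^ P) q = q) {ρ : ℝ} (hρ : 0 < ρ)
    {Ψ : ℕ → ℂ → E} {l : ℕ → ℂ} (hl : IsLin (the Λ) ρ (fwc F A 0) ((A 0).pm⁻¹ q) Ψ l)
    {Y : ℂ → E} (hY : Differentiable ℂ Y) (hW : ∀ ζ, Y ζ ∈ Wu F⁻¹ q) :
    ∃ h : ℂ → ℂ, Differentiable ℂ h ∧ ∀ ζ, Y ζ = (A 0).pm (Ψ 0 (h ζ)) := by
  obtain ⟨m, hs⟩ := h.slin hA hP hper hq hρ hl
  have hex : ∀ ζ, ∃ t, (A 0).pm (Ψ 0 t) = Y ζ := fun ζ => by
    have := hW ζ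
    rwa [← hs.par.2.2] at this
  choose g hg using hex
  refine ⟨g, fun ζ₀ => ?_, fun ζ => (hg ζ).symm⟩
  obtain ⟨D, hD, hD'⟩ := QSad_det h.det hP hper
  obtain ⟨H, hH, hH'⟩ := hl.surj (h.chain 0) hρ h.small.the_lt.le
  have hμ : 0 < min (ρ / 4) (1 / 2) := by positivity
  obtain ⟨j, hj⟩ := QSad_close hp hm hA (QSad_Kp hp hP hq) hY hW ζ₀
    (ε := D * min (ρ / 4) (1 / 2) / 2) (by positivity)
  have hfix : (F ^ (P * j)) q = q := by
    rw [pow_mul]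
    exact Equiv.Perm.pow_apply_eq_self_of_apply_eq_self hq _
  have key : ∀ᶠ ζ in 𝓝 ζ₀, Stay (fwc F A 0) ((A 0).pm⁻¹ ((F ^ (P * j)) (Y ζ))) ∧
      ‖((A 0).pm⁻¹ ((F ^ (P * j)) (Y ζ))).2 - ((A 0).pm⁻¹ q).2‖ < ρ / 3 := by
    filter_upwards [hj] with ζ hζ
    have h1 : ∀ i : ℕ, ‖(A i).pm⁻¹ ((F ^ i) ((F ^ (P * j)) (Y ζ))) - (A i).pm⁻¹ ((F ^ i) q)‖ ≤
        min (ρ / 4) (1 / 2) := fun i => by
      have h2 := hζ (i + P * j) (by nlinarith)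
      rw [pow_add, Equiv.Perm.mul_apply, Equiv.Perm.mul_apply, hfix] at h2
      have h3 := Ch.norm_inv_sub (h.det i) (h.up i).1 (h.up i).2
        ((F ^ i) ((F ^ (P * j)) (Y ζ))) ((F ^ i) q)
      refine le_of_mul_le_mul_left ?_ hD
      refine (mul_le_mul_of_nonneg_right (hD' i) (norm_nonneg _)).trans (h3.trans ?_)
      linarith
    refine ⟨fun i => ?_, ?_⟩
    · rw [cmp_fwc, zero_add, Equiv.Perm.mul_apply, Equiv.Perm.mul_apply,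
        QSad_ai]
      have h2 := h.orb i
      rw [zpow_natCast] at h2
      have h3 := norm_sub_norm_le ((A i).pm⁻¹ ((F ^ i) ((F ^ (P * j)) (Y ζ))))
        ((A i).pm⁻¹ ((F ^ i) q))
      linarith [h1 i, min_le_right (ρ / 4) (1 / 2)]
    · have h2 := h1 0
      simp only [pow_zero, Equiv.Perm.one_apply, Nat.cast_zero] at h2
      have h3 := norm_snd_le ((A 0).pm⁻¹ ((F ^ (P * j)) (Y ζ)) - (A 0).pm⁻¹ q)
      rw [Prod.snd_sub] at h3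
      linarith [min_le_left (ρ / 4) (1 / 2)]
  have hw : Differentiable ℂ fun ζ => ((A 0).pm⁻¹ ((F ^ (P * j)) (Y ζ))).2 :=
    ((A 0).diff_inv.comp ((hA.ndiff _).comp hY)).snd
  have hd : DifferentiableAt ℂ
      (fun ζ => (m ^ j)⁻¹ * H ((A 0).pm⁻¹ ((F ^ (P * j)) (Y ζ))).2) ζ₀ :=
    ((hH.differentiableAt (isOpen_ball.mem_nhds
      (mem_ball_iff_norm.2 key.self_of_nhds.2))).comp ζ₀ (hw ζ₀)).const_mul _
  refine hd.congr_of_eventuallyEq ?_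
  filter_upwards [key] with ζ hζ
  have h1 := hH' _ hζ.1 hζ.2
  have h2 := QSad_linN hs j (g ζ)
  simp only [hg] at h2
  have h3 : H ((A 0).pm⁻¹ ((F ^ (P * j)) (Y ζ))).2 = m ^ j * g ζ := hs.par.2.1 (by
    show (A 0).pm (Ψ 0 _) = (A 0).pm (Ψ 0 _)
    rw [h1, ← h2, QSad_ai])
  rw [h3, inv_mul_cancel_left₀ (pow_ne_zero _ hs.ne)]

theorem IsSaddle.slin (hA : Aut F a) {p : E} (h : IsSaddle F p) : ∃ φ P m, SLin F p φ P m := by
  obtain ⟨Λ, b, δ, c₀, A₀, A, P, hc, hP, hper, hq⟩ := h.chain hA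
  obtain ⟨ρ, hρ, Ψ, l, hl⟩ := QSad_lin hc
  obtain ⟨m, hs⟩ := hc.slin hA hP hper hq hρ hl
  exact ⟨_, P, m, hs⟩

/-- `IsSaddle.inv`, `chain`, `exists_lin`, `slin`, `factor` for `F⁻¹`: both `Y` and `ξ` are
`ψ ∘ h` with `h` entire and injective, so affine (`affine_of_inj`) -/
theorem affine_rel (hA : Aut F a) (hp : HalfG F d Gp Gm) (hm : HalfG F⁻¹ d Gm Gp) {p : E}
    (h : IsSaddle F p) {ξ Y : ℂ → E} (hξ : IsUParam F p ξ) (hY : Differentiable ℂ Y)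
    (hi : Function.Injective Y) (hW : ∀ ζ, Y ζ ∈ Wu F p) :
    ∃ c e : ℂ, c ≠ 0 ∧ ∀ ζ, Y ζ = ξ (c * ζ + e) := by
  obtain ⟨Λ, b, δ, c₀, A₀, A, P, hc, hP, hper, hq⟩ := (h.inv hA).chain hA.inv
  obtain ⟨ρ, hρ, Ψ, l, hl⟩ := QSad_lin hc
  obtain ⟨h₁, d₁, e₁⟩ := hc.factor hA.inv hm hp hP hper hq hρ hl hY hW
  obtain ⟨h₂, d₂, e₂⟩ := hc.factor hA.inv hm hp hP hper hq hρ hl hξ.1 fun ζ => by
    have : ξ ζ ∈ Wu F p := hξ.2.2 ▸ mem_range_self ζ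
    exact this
  obtain ⟨c₁, f₁, hc₁, g₁⟩ := affine_of_inj d₁ fun s t e => hi (by rw [e₁, e₁, e])
  obtain ⟨c₂, f₂, hc₂, g₂⟩ := affine_of_inj d₂ fun s t e => hξ.2.1 (by rw [e₂, e₂, e])
  refine ⟨c₁ / c₂, (f₁ - f₂) / c₂, div_ne_zero hc₁ hc₂, fun ζ => ?_⟩
  rw [e₁, e₂, g₁, g₂]
  congr 2
  field_simp
  ring

/-- `Gm ∘ φ` vanishes at 0; if it vanished near 0 it would vanish everywhere by `lin`, as does
`Gp ∘ φ`, so `φ` would be bounded, hence constant -/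
theorem SLin.act (hp : HalfG F d Gp Gm) (hm : HalfG F⁻¹ d Gm Gp) {p : E} {φ : ℂ → E} {P : ℕ}
    {m : ℂ} (h : SLin F p φ P m) : Act Gm φ 0 := by
  have hfix : (F ^ P) p = p := by simpa [h.zero] using h.lin 0
  refine ⟨?_, fun hz => ?_⟩
  · rw [h.zero]
    refine (hm.zero_iff _).2 (QSad_Kp hm h.pos ?_)
    rw [inv_pow, Equiv.Perm.inv_eq_iff_eq, hfix]
  obtain ⟨R, hR⟩ := hp.proper 0
  have hb : ∀ ζ, ‖φ ζ‖ ≤ R := fun ζ => by
    refine hR _ ((hp.zero_iff _).2 (Wu_subset (F := F⁻¹) (QSad_Kp hp h.pos hfix) ?_)).le ?_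
    · exact h.par.2.2 ▸ mem_range_self ζ
    have h1 : Tendsto (fun j : ℕ => m ^ j * ζ) atTop (𝓝 0) := by
      simpa using (tendsto_pow_atTop_nhds_zero_of_norm_lt_one h.lt).mul_const ζ
    obtain ⟨j, hj⟩ := (h1.eventually hz).exists
    rw [QSad_Gm hm (P * j), QSad_linN h, not_not.1 hj, mul_zero]
  exact zero_ne_one (h.par.2.1 (h.par.1.apply_eq_apply_of_bounded
    (isBounded_iff_forall_norm_le.2 ⟨R, by rintro _ ⟨ζ, rfl⟩; exact hb ζ⟩) 0 1))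

end Pool.Agent.Lib.MP_7b5e47_an.Hn
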