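import Pool.Agent.Lib.MP_7b5e47_an.Hn.NOX

namespace Pool.Agent.Lib.MP_7b5e47_an.Hn

open Filter Topology Set Metric MeasureTheory

variable {F : Pm} {a : ℂ} {d : ℝ} {Gp Gm : E → ℝ} {μ : Measure E} {κ : ℝ} {ξ : ℂ → E}

/-- Bounded depth. Let `Far j z` mean `∀ y ∈ Jx, rad j y < ‖z - y‖` (it passes from `j` to `j + 1`
by `rad_succ`), and `S k = {F^j (ξ z) | 0 < Gp (ξ z), d^(j+k) Gp (ξ z) ≤ 1, Far (j - k) z}`. The
`S k` decrease, are bounded (`proper`), and `F`, `F⁻¹` map `S (k+1)` into `S k`. If the statement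
fails, `D₀ = L^(2 k)` (`rad_pred`) gives `i, z` with `Far (i - 2 k) z`, so `F^(i-k) (ξ z) ∈ S k`.
Then `X = ⋂ k, closure (S k)` is nonempty, compact and invariant, and `Leaf.proper` gives the
hypothesis of `nox`. -/
theorem depth_bound (h : Sys F a d Gp Gm μ) (ha : ‖a‖ < 1) (hL : Leaf d Gp Gm κ ξ) :
    ∃ D₀ : ℝ, ∀ (i : ℤ) (z : ℂ), 1 / d ≤ d ^ i * Gp (ξ z) → d ^ i * Gp (ξ z) ≤ 1 →
      ∃ y ∈ Jx Gp ξ, ‖z - y‖ ≤ D₀ * rad d Gp ξ i y := by
  by_contra hcon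
  push Not at hcon
  have hp := h.gp
  have hd1 := hp.one_lt
  have hd0 : 0 < d := zero_lt_one.trans hd1
  let Far : ℤ → ℂ → Prop := fun j z => ∀ y ∈ Jx Gp ξ, rad d Gp ξ j y < ‖z - y‖
  have hFar : ∀ j z, Far j z → Far (j + 1) z := fun j z hf y hy => by
    have h1 := hL.rad_succ hp j hy
    have h2 := (hL.rad_spec hp (j + 1) hy).1
    have h3 := hL.one_lt
    have h4 := hf y hy
    nlinarith
  let S : ℕ → Set E := fun k => {q | ∃ (j : ℤ) (z : ℂ), q = (F ^ j) (ξ z) ∧ 0 < Gp (ξ z) ∧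
    d ^ (j + k) * Gp (ξ z) ≤ 1 ∧ Far (j - k) z}
  have hmono : ∀ {m n : ℤ} {z : ℂ}, m ≤ n → d ^ n * Gp (ξ z) ≤ 1 → d ^ m * Gp (ξ z) ≤ 1 :=
    fun hmn hn => (mul_le_mul_of_nonneg_right (zpow_le_zpow_right₀ hd1.le hmn)
      (hp.nonneg _)).trans hn
  have hS1 : ∀ k, S (k + 1) ⊆ S k := by
    rintro k _ ⟨j, z, rfl, h1, h2, h3⟩
    refine ⟨j, z, rfl, h1, hmono (by push_cast; omega) h2, ?_⟩
    have := hFar _ _ h3
    rwa [show j - ((k + 1 : ℕ) : ℤ) + 1 = j - k by push_cast; ring] at this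
  have hS2 : ∀ k, MapsTo F (S (k + 1)) (S k) := by
    rintro k _ ⟨j, z, rfl, h1, h2, h3⟩
    refine ⟨j + 1, z, by rw [add_comm, zpow_one_add, Equiv.Perm.mul_apply], h1,
      hmono (by push_cast; omega) h2, ?_⟩
    have := hFar _ _ (hFar _ _ h3)
    rwa [show j - ((k + 1 : ℕ) : ℤ) + 1 + 1 = j + 1 - k by push_cast; ring] at this
  have hS3 : ∀ k, MapsTo (⇑F⁻¹) (S (k + 1)) (S k) := by
    rintro k _ ⟨j, z, rfl, h1, h2, h3⟩
    refine ⟨-1 + j, z, by rw [zpow_add, zpow_neg_one, Equiv.Perm.mul_apply], h1,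
      hmono (by push_cast; omega) h2, ?_⟩
    rwa [show j - ((k + 1 : ℕ) : ℤ) = -1 + j - k by push_cast; ring] at h3
  obtain ⟨R, hR⟩ := hp.proper 1
  have hSb : S 0 ⊆ closedBall 0 R := by
    rintro _ ⟨j, z, rfl, h1, h2, -⟩
    refine mem_closedBall_zero_iff.2 (hR _ ?_ ?_)
    · rw [hp.zequi]
      simpa using h2
    · have := h.gm.zequi (-j) (ξ z)
      rw [inv_zpow', neg_neg, hL.gm, mul_zero] at this
      rw [this]
      exact zero_le_one
  obtain ⟨L, hL1, hLp⟩ := hL.rad_pred h.aut hp h.gm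
  have hLn : ∀ (n : ℕ) (i : ℤ), ∀ y ∈ Jx Gp ξ, rad d Gp ξ (i - n) y ≤ L ^ n * rad d Gp ξ i y := by
    intro n i y hy
    induction n with
    | zero => simp
    | succ n ih =>
      have h1 := hLp (i - (n + 1 : ℕ)) y hy
      rw [show i - ((n + 1 : ℕ) : ℤ) + 1 = i - n by push_cast; ring] at h1
      refine h1.trans ((mul_le_mul_of_nonneg_left ih (by linarith)).trans (le_of_eq (by ring)))
  have hne : ∀ k, (S k).Nonempty := fun k => by
    obtain ⟨i, z, h1, h2, h3⟩ := hcon (L ^ (2 * k))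
    refine ⟨_, i - k, z, rfl, ?_, by rwa [sub_add_cancel], fun y hy => ?_⟩
    · refine (hp.nonneg _).lt_of_ne fun h0 => ?_
      rw [← h0, mul_zero] at h1
      exact absurd h1 (not_le.2 (by positivity))
    · rw [show i - k - k = i - (2 * k : ℕ) by push_cast; ring]
      exact (hLn _ i y hy).trans_lt (h3 y hy)
  have hK : IsCompact (closure (S 0)) :=
    (isCompact_closedBall 0 R).of_isClosed_subset isClosed_closure
      (closure_minimal hSb isClosed_closedBall)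
  obtain ⟨r₀, hr₀, hpr⟩ := hL.proper h.aut hp h.gm
  refine nox h ha hL (X := ⋂ k, closure (S k)) ⟨hK.of_isClosed_subset
    (isClosed_iInter fun _ => isClosed_closure) (iInter_subset _ 0), fun x hx => ?_,
    fun x hx => ?_⟩ (IsCompact.nonempty_iInter_of_sequence_nonempty_isCompact_isClosed _
      (fun k => closure_mono (hS1 k)) (fun k => (hne k).closure) hK fun _ => isClosed_closure)
    hr₀ fun x hx ε hε => ?_
  · exact mem_iInter.2 fun k => map_mem_closure h.aut.dF.continuous (mem_iInter.1 hx (k + 1)) (hS2 k)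
  · exact mem_iInter.2 fun k => map_mem_closure h.aut.dG.continuous (mem_iInter.1 hx (k + 1)) (hS3 k)
  · obtain ⟨_, ⟨j, z, rfl, h1, -, h3⟩, h4⟩ := Metric.mem_closure_iff.1 (mem_iInter.1 hx 0) ε hε
    refine ⟨j, z, by rwa [dist_comm, dist_eq_norm] at h4, hpr j z x h1 ?_⟩
    simpa using h3

end Pool.Agent.Lib.MP_7b5e47_an.Hn
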