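import Mathlib

namespace Pool.Agent.Lib.MP_7b5e47_an.Hn

open Filter Topology Set Polynomial

/-- the Henon map `H_{a,P}(x,y) = (a y + P(x), x)` as a bijection of `ℂ²` -/
noncomputable def hen (a : ℂˣ) (P : ℂ[X]) : Equiv.Perm (ℂ × ℂ) where
  toFun z := ((a : ℂ) * z.2 + P.eval z.1, z.1)
  invFun z := (z.2, ((a⁻¹ : ℂˣ) : ℂ) * (z.1 - P.eval z.2))
  left_inv z := by simp
  right_inv z := by simp

/-- the composition `H_{a_1,P_1} ∘ ⋯ ∘ H_{a_k,P_k}` -/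
noncomputable def comp (L : List (ℂˣ × ℂ[X])) : Equiv.Perm (ℂ × ℂ) :=
  (L.map fun h => hen h.1 h.2).prod

/-- the degree `d = deg P_1 ⋯ deg P_k` -/
noncomputable def deg (L : List (ℂˣ × ℂ[X])) : ℕ := (L.map fun h => h.2.natDegree).prod

/-- at least one factor, all of degree at least 2 -/
def IsHenon (L : List (ℂˣ × ℂ[X])) : Prop := L ≠ [] ∧ ∀ h ∈ L, 2 ≤ h.2.natDegree

/-- points with bounded forward orbit: `K⁺ = Kp F`, `K⁻ = Kp F⁻¹` -/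
def Kp (F : Equiv.Perm (ℂ × ℂ)) : Set (ℂ × ℂ) := {z | ∃ R : ℝ, ∀ n : ℕ, ‖(F ^ n) z‖ ≤ R}

/-- `J = ∂K⁺ ∩ ∂K⁻` -/
def Jul (F : Equiv.Perm (ℂ × ℂ)) : Set (ℂ × ℂ) := frontier (Kp F) ∩ frontier (Kp F⁻¹)

/-- `G⁺(z) = lim d^{-n} log max(1, |F^n z|)` -/
noncomputable def green (F : Equiv.Perm (ℂ × ℂ)) (d : ℕ) (z : ℂ × ℂ) : ℝ :=
  limUnder atTop fun n : ℕ => Real.log (max 1 ‖(F ^ n) z‖) / (d : ℝ) ^ n

/-- saddle periodic point: `D(F^N)(p)` has an eigenvalue outside and one inside the unit circle -/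
def IsSaddle (F : Equiv.Perm (ℂ × ℂ)) (p : ℂ × ℂ) : Prop :=
  ∃ N : ℕ, 0 < N ∧ (F ^ N) p = p ∧ ∃ (l m : ℂ) (u s : ℂ × ℂ), u ≠ 0 ∧ s ≠ 0 ∧ 1 < ‖l‖ ∧ ‖m‖ < 1 ∧
    fderiv ℂ (⇑(F ^ N)) p u = l • u ∧ fderiv ℂ (⇑(F ^ N)) p s = m • s

/-- the global unstable manifold of `p` -/
def Wu (F : Equiv.Perm (ℂ × ℂ)) (p : ℂ × ℂ) : Set (ℂ × ℂ) :=
  {q | Tendsto (fun n : ℕ => dist ((F⁻¹ ^ n) q) ((F⁻¹ ^ n) p)) atTop (𝓝 0)}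

/-- an injective entire parametrization of the unstable manifold of `p` -/
def IsUParam (F : Equiv.Perm (ℂ × ℂ)) (p : ℂ × ℂ) (ξ : ℂ → ℂ × ℂ) : Prop :=
  Differentiable ℂ ξ ∧ Function.Injective ξ ∧ range ξ = Wu F p

/-- the Bedford-Smillie normalization: `ψ 0 = p` and the maximum of `G⁺ ∘ ψ` on the closed unit
disc is 1 -/
def IsNormalized (F : Equiv.Perm (ℂ × ℂ)) (d : ℕ) (p : ℂ × ℂ) (ψ : ℂ → ℂ × ℂ) : Prop :=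
  IsUParam F p ψ ∧ ψ 0 = p ∧ IsGreatest ((fun ζ => green F d (ψ ζ)) '' Metric.closedBall 0 1) 1

/-- quasi-expansion (Bedford-Smillie): the multipliers `λ_p` of `F ∘ ψ_p = ψ_{F p}(λ_p ·)` between
normalized parametrizations at saddle points are at least `κ > 1` in modulus -/
def QuasiExpanding (F : Equiv.Perm (ℂ × ℂ)) (d : ℕ) : Prop :=
  ∃ κ : ℝ, 1 < κ ∧ ∀ (p : ℂ × ℂ) (ψ ψ' : ℂ → ℂ × ℂ) (l : ℂ), IsSaddle F p →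
    IsNormalized F d p ψ → IsNormalized F d (F p) ψ' → (∀ ζ, F (ψ ζ) = ψ' (l * ζ)) → κ ≤ ‖l‖

/-- `γ` runs outside `ξ⁻¹ K⁺` down a gradient line of `G⁺ ∘ ξ` (at any speed `c ≥ 0`), and
`G⁺ ∘ ξ` tends to 0 along it -/
def IsRay (F : Equiv.Perm (ℂ × ℂ)) (d : ℕ) (ξ : ℂ → ℂ × ℂ) (γ : ℝ → ℂ) : Prop :=
  (∀ t : ℝ, 0 < t → ξ (γ t) ∉ Kp F ∧ ∃ c : ℝ, 0 ≤ c ∧
    HasDerivAt γ (-(c • gradient (fun ζ => green F d (ξ ζ)) (γ t))) t) ∧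
  Tendsto (fun t => green F d (ξ (γ t))) atTop (𝓝 0)

/-- every external ray of a dissipative quasi-expanding generalized Henon map lands in `J` -/
def Target : Prop :=
  ∀ L : List (ℂˣ × ℂ[X]), IsHenon L → (∀ z, ‖(fderiv ℂ (⇑(comp L)) z).det‖ < 1) →
    QuasiExpanding (comp L) (deg L) →
    ∀ (p : ℂ × ℂ) (ξ : ℂ → ℂ × ℂ) (γ : ℝ → ℂ), IsSaddle (comp L) p → IsUParam (comp L) p ξ →
      IsRay (comp L) (deg L) ξ γ → ∃ z ∈ Jul (comp L), Tendsto (fun t => ξ (γ t)) atTop (𝓝 z)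

end Pool.Agent.Lib.MP_7b5e47_an.Hn
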