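import Pool.Agent.Lib.MP_7b5e47_an.Hn.VRecip
import Pool.Agent.Lib.MP_7b5e47_an.Hn.HRev
import Pool.Agent.Lib.MP_7b5e47_an.Hn.MCov

namespace Pool.Agent.Lib.MP_7b5e47_an.Hn

open Filter Topology Set Metric MeasureTheory

/-! Admissible sequences of curves. -/

open Polynomial

/-- curves in a cone whose normalized growth converges uniformly to `u` -/
structure Adm (U : Set ℂ) (Z : ℕ → ℂ → E) (D : ℕ → ℝ) (u : ℂ → ℝ) (C₀ : ℝ) : Prop where
  isOpen : IsOpen U
  diff : ∀ m, DifferentiableOn ℂ (Z m) U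
  top : Tendsto D atTop atTop
  nonneg : 0 ≤ C₀
  cone : ∀ m, ∀ t ∈ U, ‖(Z m t).2‖ ≤ C₀ * (1 + ‖(Z m t).1‖)
  lim : TendstoUniformlyOn (fun m t => Real.log (max 1 ‖(Z m t).1‖) / D m) u atTop U
  cont : ContinuousOn u U

variable {U : Set ℂ} {Z : ℕ → ℂ → E} {D : ℕ → ℝ} {u : ℂ → ℝ} {C₀ : ℝ} {χ : ℂ → ℝ}

/-- `hen_cone` -/
theorem Adm.hen (h : Adm U Z D u C₀) (a : ℂˣ) {P : ℂ[X]} (hP : 2 ≤ P.natDegree) :
    ∃ C₁, Adm U (fun m t => hen a P (Z m t)) (fun m => P.natDegree * D m) u C₁ := by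
  obtain ⟨C₁, h1, h2⟩ := hen_cone a hP C₀
  have hn : (2 : ℝ) ≤ P.natDegree := by exact_mod_cast hP
  have hn0 : (0 : ℝ) < P.natDegree := by linarith
  refine ⟨C₁, h.isOpen, fun m => (aut_hen a P).dF.comp_differentiableOn (h.diff m),
    h.top.const_mul_atTop hn0, h1, fun m t ht => (h2 _ (h.cone m t ht)).2.1, ?_, h.cont⟩
  rw [Metric.tendstoUniformlyOn_iff]
  intro ε hε
  have e1 := (Metric.tendstoUniformlyOn_iff.1 h.lim) (ε / 2) (by positivity)
  filter_upwards [e1, h.top.eventually_gt_atTop 0, h.top.eventually_gt_atTop (C₁ / ε)] with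
    m hm hD hD' t ht
  have a1 := hm t ht
  have a2 := (h2 _ (h.cone m t ht)).1
  rw [Real.dist_eq] at a1 ⊢
  have a3 : |Real.log (max 1 ‖(Z m t).1‖) / D m -
      Real.log (max 1 ‖(Hn.hen a P (Z m t)).1‖) / (P.natDegree * D m)| ≤ ε / 2 := by
    have e : Real.log (max 1 ‖(Z m t).1‖) / D m -
        Real.log (max 1 ‖(Hn.hen a P (Z m t)).1‖) / (P.natDegree * D m) =
        -(Real.log (max 1 ‖(Hn.hen a P (Z m t)).1‖) -
          P.natDegree * Real.log (max 1 ‖(Z m t).1‖)) / (P.natDegree * D m) := by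
      field_simp
      ring
    rw [e, abs_div, abs_neg, abs_of_pos (mul_pos hn0 hD), div_le_iff₀ (mul_pos hn0 hD)]
    rw [div_lt_iff₀ hε] at hD'
    nlinarith [mul_pos hD hε]
  calc _ ≤ |u t - Real.log (max 1 ‖(Z m t).1‖) / D m| + |Real.log (max 1 ‖(Z m t).1‖) / D m -
      Real.log (max 1 ‖(Hn.hen a P (Z m t)).1‖) / (P.natDegree * D m)| := abs_sub_le _ _ _
    _ < ε := by linarith

theorem vadm_int {f ψ : ℂ → ℝ} (hψ : Continuous ψ) (hc : HasCompactSupport ψ)
    (hf : ContinuousOn f (tsupport ψ)) : Integrable fun t => ψ t * f t := by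
  refine IntegrableOn.integrable_of_forall_notMem_eq_zero (s := tsupport ψ)
    ((hψ.continuousOn.mul hf).integrableOn_compact hc) fun t ht => ?_
  rw [image_eq_zero_of_notMem_tsupport ht, zero_mul]

theorem vadm_lim {f : ℕ → ℂ → ℝ} {g ψ : ℂ → ℝ} (hψ : Continuous ψ) (hc : HasCompactSupport ψ)
    (hf : ∀ m, ContinuousOn (f m) (tsupport ψ)) (hg : ContinuousOn g (tsupport ψ))
    (hu : TendstoUniformlyOn f g atTop (tsupport ψ)) :
    Tendsto (fun m => ∫ t, ψ t * f m t) atTop (𝓝 (∫ t, ψ t * g t)) := by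
  rw [Metric.tendsto_atTop']
  intro ε hε
  have hI : 0 ≤ ∫ t, |ψ t| := integral_nonneg fun t => abs_nonneg _
  set I := ∫ t, |ψ t| with hIdef
  have e1 := (Metric.tendstoUniformlyOn_iff.1 hu) (ε / (I + 1)) (by positivity)
  obtain ⟨N, hN⟩ := eventually_atTop.1 e1
  refine ⟨N, fun m hm => ?_⟩
  rw [Real.dist_eq, ← integral_sub (vadm_int hψ hc (hf m)) (vadm_int hψ hc hg)]
  have hb : ‖∫ t, (ψ t * f m t - ψ t * g t)‖ ≤ ∫ t, ε / (I + 1) * |ψ t| := by
    refine norm_integral_le_of_norm_le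
      ((hψ.integrable_of_hasCompactSupport hc).abs.const_mul _) (Eventually.of_forall fun t => ?_)
    by_cases ht : t ∈ tsupport ψ
    · have := hN m hm.le t ht
      rw [Real.dist_eq, abs_sub_comm] at this
      rw [← mul_sub, Real.norm_eq_abs, abs_mul, mul_comm]
      exact mul_le_mul_of_nonneg_right this.le (abs_nonneg _)
    · simp [image_eq_zero_of_notMem_tsupport ht]
  rw [integral_const_mul, Real.norm_eq_abs] at hb
  refine hb.trans_lt ?_
  rw [← hIdef, div_mul_eq_mul_div, div_lt_iff₀ (by positivity)]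
  nlinarith

theorem vadm_deriv_fst {W : ℂ → E} {t : ℂ} (hW : DifferentiableAt ℂ W t) :
    deriv (fun s => (W s).1) t = (deriv W t).1 :=
  ((ContinuousLinearMap.fst ℂ ℂ ℂ).hasFDerivAt.comp_hasDerivAt t hW.hasDerivAt).deriv

theorem vadm_deriv_snd {W : ℂ → E} {t : ℂ} (hW : DifferentiableAt ℂ W t) :
    deriv (fun s => (W s).2) t = (deriv W t).2 :=
  ((ContinuousLinearMap.snd ℂ ℂ ℂ).hasFDerivAt.comp_hasDerivAt t hW.hasDerivAt).deriv

theorem vadm_cont {W : ℂ → E} (hU : IsOpen U) (hW : DifferentiableOn ℂ W U) {φ : E → ℝ}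
    (hφ : Continuous φ) : ContinuousOn (fun t => ‖(deriv W t).1‖ ^ 2 * φ (W t)) U :=
  (((hW.deriv hU).continuousOn.fst.norm).pow 2).mul (hφ.comp_continuousOn hW.continuousOn)

theorem Adm.weak_tst (h : Adm U Z D u C₀) (hχ : Tst χ) (hs : tsupport χ ⊆ U)
    {ρ : ℂ → ℝ} (hρ : Tst ρ) :
    Tendsto (fun m => (∫ t, χ t * (‖(deriv (Z m) t).1‖ ^ 2 * ρ (Z m t).1)) / D m) atTop
      (𝓝 ((∫ t, u t * lap χ t) / (2 * Real.pi) * ∫ y, ρ y)) := by
  obtain ⟨C, hC⟩ := lpot_bd hρ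
  have hs' : tsupport (lap χ) ⊆ U := (tsupport_lap χ).trans hs
  have hpi : (0 : ℝ) < 2 * Real.pi := by positivity
  have key := vadm_lim (f := fun m t => lpot ρ (Z m t).1 / D m) (g := fun t => (∫ y, ρ y) * u t)
    hχ.lap.1.continuous hχ.lap.2
    (fun m => (((contDiff_lpot hρ).continuous.comp_continuousOn
      (h.diff m).continuousOn.fst).div_const _).mono hs')
    ((h.cont.const_mul _).mono hs') (by
      refine TendstoUniformlyOn.mono ?_ hs'
      rw [Metric.tendstoUniformlyOn_iff]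
      intro ε hε
      set A := |∫ y, ρ y| with hA
      have hA0 : 0 ≤ A := abs_nonneg _
      have e1 := (Metric.tendstoUniformlyOn_iff.1 h.lim) (ε / 2 / (A + 1)) (by positivity)
      filter_upwards [e1, h.top.eventually_gt_atTop 0,
        h.top.eventually_gt_atTop (2 * C / ε)] with m hm hD hD' t ht
      have a1 := hm t ht
      have a2 := hC (Z m t).1
      rw [Real.dist_eq] at a1 ⊢
      have e : (∫ y, ρ y) * u t - lpot ρ (Z m t).1 / D m =
          (∫ y, ρ y) * (u t - Real.log (max 1 ‖(Z m t).1‖) / D m) -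
            (lpot ρ (Z m t).1 - (∫ y, ρ y) * Real.log (max 1 ‖(Z m t).1‖)) / D m := by
        field_simp
        ring
      rw [e]
      refine (abs_sub _ _).trans_lt ?_
      rw [abs_mul, abs_div, abs_of_pos hD, ← hA]
      have b1 : A * |u t - Real.log (max 1 ‖(Z m t).1‖) / D m| ≤ ε / 2 := by
        calc _ ≤ A * (ε / 2 / (A + 1)) := mul_le_mul_of_nonneg_left a1.le hA0
          _ ≤ ε / 2 := by
            rw [mul_div_assoc', div_le_iff₀ (by positivity)]
            nlinarith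
      have b2 : |lpot ρ (Z m t).1 - (∫ y, ρ y) * Real.log (max 1 ‖(Z m t).1‖)| / D m < ε / 2 := by
        rw [div_lt_iff₀ hD]
        rw [div_lt_iff₀ hε] at hD'
        nlinarith
      linarith)
  have key2 := key.div_const (2 * Real.pi)
  have e1 : (∫ t, lap χ t * ((∫ y, ρ y) * u t)) / (2 * Real.pi) =
      (∫ t, u t * lap χ t) / (2 * Real.pi) * ∫ y, ρ y := by
    have : (fun t => lap χ t * ((∫ y, ρ y) * u t)) = fun t => (∫ y, ρ y) * (u t * lap χ t) := by
      funext t; ring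
    rw [this, integral_const_mul]; ring
  rw [e1] at key2
  refine key2.congr fun m => ?_
  have i1 := ident hχ hρ h.isOpen hs (X := fun t => (Z m t).1) (h.diff m).fst
  have i2 : (∫ t, χ t * (‖deriv (fun t => (Z m t).1) t‖ ^ 2 * ρ (Z m t).1)) =
      ∫ t, χ t * (‖(deriv (Z m) t).1‖ ^ 2 * ρ (Z m t).1) := by
    refine integral_congr_ae (Eventually.of_forall fun t => ?_)
    by_cases ht : t ∈ tsupport χ
    · simp only
      rw [vadm_deriv_fst ((h.diff m).differentiableAt (h.isOpen.mem_nhds (hs ht)))]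
    · simp [image_eq_zero_of_notMem_tsupport ht]
  rw [i2] at i1
  have i3 : (fun t => lap χ t * (lpot ρ (Z m t).1 / D m)) =
      fun t => (D m)⁻¹ * (lpot ρ (Z m t).1 * lap χ t) := by
    funext t; ring
  rw [i3, integral_const_mul, ← i1]
  field_simp

/-- For test functions `ρ`: `ident` and `lpot_bd`. A continuous `ρ` with compact support is a
uniform limit of test functions supported in a fixed ball (`Continuous.exists_contDiff_dist_le_of_
forall_mem_ball_dist_le`, or convolution with bumps, times a cutoff); the error is at most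
`η ρ₀` with a fixed test function `ρ₀ ≥ 0`, equal to one on that ball. -/
theorem Adm.weak (h : Adm U Z D u C₀) (hχ : Tst χ) (h0 : ∀ t, 0 ≤ χ t) (hs : tsupport χ ⊆ U)
    {ρ : ℂ → ℝ} (hc : Continuous ρ) (hρ : HasCompactSupport ρ) :
    Tendsto (fun m => (∫ t, χ t * (‖(deriv (Z m) t).1‖ ^ 2 * ρ (Z m t).1)) / D m) atTop
      (𝓝 ((∫ t, u t * lap χ t) / (2 * Real.pi) * ∫ y, ρ y)) := by
  obtain ⟨ψ, hψ, -, hψ0, hψ1⟩ := exists_cutoff (K := tsupport ρ) hρ isOpen_univ (subset_univ _)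
  have hψ1' : ∀ y ∈ tsupport ρ, ψ y = 1 := fun y hy => hψ1.self_of_nhdsSet y hy
  set c := (∫ t, u t * lap χ t) / (2 * Real.pi) with hcdef
  have l0 := h.weak_tst hχ hs hψ
  rw [← hcdef] at l0
  set B := |c * ∫ y, ψ y| + 1 + |c| * ∫ y, ψ y with hB
  have hψI : 0 ≤ ∫ y, ψ y := integral_nonneg fun y => (hψ0 y).1
  have hB0 : 0 < B := by positivity
  rw [Metric.tendsto_atTop']
  intro ε hε
  set η := ε / 2 / B with hη
  have hη0 : 0 < η := by positivity
  obtain ⟨g, g1, g2, g3⟩ := hc.exists_contDiff_approx ⊤ (ε := fun _ => η) continuous_const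
    fun _ => hη0
  have hg : Tst g := ⟨g1, hρ.mono g3⟩
  have hb : ∀ y, |ρ y - g y| ≤ η * ψ y := by
    intro y
    by_cases hy : y ∈ tsupport ρ
    · rw [hψ1' y hy, mul_one, abs_sub_comm, ← Real.dist_eq]
      exact (g2 y).le
    · have r0 : ρ y = 0 := image_eq_zero_of_notMem_tsupport hy
      have g0 : g y = 0 := by
        by_contra hne
        exact (g3 hne) r0
      rw [r0, g0, sub_zero, abs_zero]
      exact mul_nonneg hη0.le (hψ0 y).1
  have l1 := h.weak_tst hχ hs hg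
  rw [← hcdef] at l1
  have e0 := (Metric.tendsto_nhds.1 l0) 1 one_pos
  have e1 := (Metric.tendsto_nhds.1 l1) (ε / 2) (by positivity)
  obtain ⟨N, hN⟩ := eventually_atTop.1 (e0.and (e1.and (h.top.eventually_gt_atTop 0)))
  refine ⟨N, fun m hm => ?_⟩
  obtain ⟨a0, a1, hD⟩ := hN m hm.le
  rw [Real.dist_eq] at a0 a1 ⊢
  have hint : ∀ φ : ℂ → ℝ, Continuous φ →
      Integrable fun t => χ t * (‖(deriv (Z m) t).1‖ ^ 2 * φ (Z m t).1) := fun φ hφ =>
    vadm_int hχ.1.continuous hχ.2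
      ((vadm_cont h.isOpen (h.diff m) (φ := fun q => φ q.1) (hφ.comp continuous_fst)).mono hs)
  have b1 : |(∫ t, χ t * (‖(deriv (Z m) t).1‖ ^ 2 * ρ (Z m t).1)) -
      ∫ t, χ t * (‖(deriv (Z m) t).1‖ ^ 2 * g (Z m t).1)| ≤
      η * ∫ t, χ t * (‖(deriv (Z m) t).1‖ ^ 2 * ψ (Z m t).1) := by
    rw [← integral_sub (hint ρ hc) (hint g g1.continuous), ← integral_const_mul,
      ← Real.norm_eq_abs]
    refine norm_integral_le_of_norm_le ((hint ψ hψ.1.continuous).const_mul _)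
      (Eventually.of_forall fun t => ?_)
    have e : χ t * (‖(deriv (Z m) t).1‖ ^ 2 * ρ (Z m t).1) -
        χ t * (‖(deriv (Z m) t).1‖ ^ 2 * g (Z m t).1) =
        (χ t * ‖(deriv (Z m) t).1‖ ^ 2) * (ρ (Z m t).1 - g (Z m t).1) := by ring
    have p : 0 ≤ χ t * ‖(deriv (Z m) t).1‖ ^ 2 := mul_nonneg (h0 t) (by positivity)
    rw [e, Real.norm_eq_abs, abs_mul, abs_of_nonneg p]
    calc _ ≤ (χ t * ‖(deriv (Z m) t).1‖ ^ 2) * (η * ψ (Z m t).1) :=
          mul_le_mul_of_nonneg_left (hb _) p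
      _ = _ := by ring
  have b2 : |(∫ y, ρ y) - ∫ y, g y| ≤ η * ∫ y, ψ y := by
    rw [← integral_sub (hc.integrable_of_hasCompactSupport hρ)
      (g1.continuous.integrable_of_hasCompactSupport hg.2), ← integral_const_mul,
      ← Real.norm_eq_abs]
    exact norm_integral_le_of_norm_le
      ((hψ.1.continuous.integrable_of_hasCompactSupport hψ.2).const_mul _)
      (Eventually.of_forall fun t => hb t)
  set X := ∫ t, χ t * (‖(deriv (Z m) t).1‖ ^ 2 * ρ (Z m t).1)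
  set Y := ∫ t, χ t * (‖(deriv (Z m) t).1‖ ^ 2 * g (Z m t).1)
  set W := ∫ t, χ t * (‖(deriv (Z m) t).1‖ ^ 2 * ψ (Z m t).1)
  have b3 : |X / D m - Y / D m| ≤ η * (|c * ∫ y, ψ y| + 1) := by
    rw [← sub_div, abs_div, abs_of_pos hD]
    calc _ ≤ η * W / D m := div_le_div_of_nonneg_right b1 hD.le
      _ = η * (W / D m) := by ring
      _ ≤ _ := by
        refine mul_le_mul_of_nonneg_left ?_ hη0.le
        have := (abs_lt.1 a0).2
        linarith [le_abs_self (c * ∫ y, ψ y)]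
  have b4 : |c * (∫ y, g y) - c * ∫ y, ρ y| ≤ η * (|c| * ∫ y, ψ y) := by
    rw [← mul_sub, abs_mul, abs_sub_comm]
    calc _ ≤ |c| * (η * ∫ y, ψ y) := mul_le_mul_of_nonneg_left b2 (abs_nonneg _)
      _ = _ := by ring
  have b5 : η * B = ε / 2 := by rw [hη]; field_simp
  have b6 : η * (|c * ∫ y, ψ y| + 1) + η * (|c| * ∫ y, ψ y) = ε / 2 := by rw [← b5, hB]; ring
  rw [abs_lt] at a1 ⊢
  rw [abs_le] at b3 b4
  constructor <;> linarith [a1.1, a1.2, b3.1, b3.2, b4.1, b4.2]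

theorem vadm_scale (a : ℂˣ) (c : ℂ) (g : ℂ → ℝ) :
    ∫ x, g x = ∫ w, ‖(a : ℂ)‖ ^ 2 * g (a * w + c) := by
  have hd : ∀ x ∈ (univ : Set ℂ), HasFDerivWithinAt (fun w : ℂ => (a : ℂ) * w + c)
      (ContinuousLinearMap.mul ℝ ℂ (a : ℂ)) univ x := fun x _ =>
    ((ContinuousLinearMap.mul ℝ ℂ (a : ℂ)).hasFDerivAt.add_const c).hasFDerivWithinAt
  have hi : InjOn (fun w : ℂ => (a : ℂ) * w + c) univ := fun x _ y _ hxy => by
    have : (a : ℂ) * x = a * y := add_right_cancel hxy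
    exact mul_left_cancel₀ a.ne_zero this
  have hs : (fun w : ℂ => (a : ℂ) * w + c) '' univ = univ := by
    refine eq_univ_of_forall fun x => ⟨(a : ℂ)⁻¹ * (x - c), mem_univ _, ?_⟩
    have := a.ne_zero
    field_simp
    ring
  have := integral_image_eq_integral_abs_det_fderiv_smul volume MeasurableSet.univ hd hi g
  rw [hs, Measure.restrict_univ] at this
  rw [this]
  have hdet : (ContinuousLinearMap.mul ℝ ℂ (a : ℂ)).det = ‖(a : ℂ)‖ ^ 2 := by
    rw [← Complex.normSq_eq_norm_sq, ← Algebra.norm_complex_apply, Algebra.norm_apply]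
    rfl
  simp only [hdet, smul_eq_mul, abs_of_nonneg (sq_nonneg ‖(a : ℂ)‖)]

theorem vadm_slice {θ : E → ℝ} (hs : HasCompactSupport θ) (a : ℂˣ) (c y : ℂ) :
    HasCompactSupport fun w : ℂ => θ (a * w + c, y) := by
  have he : IsClosedEmbedding fun w : ℂ => (((a : ℂ) * w + c, y) : E) := by
    have h1 : IsClosedEmbedding fun w : ℂ => (a : ℂ) * w + c :=
      ((Homeomorph.mulLeft₀ (a : ℂ) a.ne_zero).trans (Homeomorph.addRight c)).isClosedEmbedding
    have h2 : IsClosedEmbedding fun x : ℂ => ((x, y) : E) :=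
      Function.LeftInverse.isClosedEmbedding (f := Prod.fst) (fun _ => rfl) continuous_fst
        (continuous_id.prodMk continuous_const)
    exact h2.comp h1
  exact hs.comp_isClosedEmbedding he

/-- substitute `x = a y + P X` in `hlog` (`integral_add_right_eq_self`, `Measure.integral_comp_
mul_left` or `integral_comp_smul` over `ℂ`) -/
theorem hlog_hen (a : ℂˣ) (P : ℂ[X]) {θ : E → ℝ} (hc : Continuous θ) (hs : HasCompactSupport θ)
    (z : E) : hlog θ (hen a P z) = vlog (fun q => ‖(a : ℂ)‖ ^ 2 * θ (hen a P q)) z +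
      Real.log ‖(a : ℂ)‖ * ∫ x, θ (x, z.1) := by
  set c : ℂ := (a : ℂ) * z.2 + P.eval z.1 with hcdef
  have hg : Continuous fun w : ℂ => θ (a * w + c, z.1) := hc.comp (by fun_prop)
  have hgs := vadm_slice hs a c z.1
  have e1 : hlog θ (hen a P z) =
      ∫ w, ‖(a : ℂ)‖ ^ 2 * (Real.log ‖(a : ℂ) * w‖ * θ (a * w + c, z.1)) := by
    have := vadm_scale a c fun x => Real.log ‖x - c‖ * θ (x, z.1)
    simp only [add_sub_cancel_right] at this
    exact this
  have e2 : vlog (fun q => ‖(a : ℂ)‖ ^ 2 * θ (hen a P q)) z =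
      ∫ w, Real.log ‖w‖ * (‖(a : ℂ)‖ ^ 2 * θ (a * w + c, z.1)) := by
    unfold vlog
    rw [← integral_add_right_eq_self _ z.2]
    refine integral_congr_ae (Eventually.of_forall fun w => ?_)
    have : (a : ℂ) * (w + z.2) + P.eval z.1 = a * w + c := by rw [hcdef]; ring
    simp only [add_sub_cancel_right]
    change _ * (_ * θ ((a : ℂ) * (w + z.2) + P.eval z.1, z.1)) = _
    rw [this]
  have e3 : ∫ x, θ (x, z.1) = ∫ w, ‖(a : ℂ)‖ ^ 2 * θ (a * w + c, z.1) :=
    vadm_scale a c fun x => θ (x, z.1)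
  have i1 : Integrable fun w : ℂ => Real.log ‖w‖ * (‖(a : ℂ)‖ ^ 2 * θ (a * w + c, z.1)) :=
    locInt_log.integrable_smul_right_of_hasCompactSupport (continuous_const.mul hg)
      hgs.mul_left
  have i2 : Integrable fun w : ℂ => ‖(a : ℂ)‖ ^ 2 * θ (a * w + c, z.1) :=
    (hg.integrable_of_hasCompactSupport hgs).const_mul _
  rw [e1, e2, e3, ← integral_const_mul, ← integral_add i1 (i2.const_mul _)]
  refine integral_congr_ae ?_
  filter_upwards [compl_mem_ae_iff.2 (measure_singleton (0 : ℂ))] with w hw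
  have hw' : w ≠ 0 := hw
  rw [norm_mul, Real.log_mul (norm_ne_zero_iff.2 a.ne_zero) (norm_ne_zero_iff.2 hw')]
  ring

theorem vadm_supp {F : Pm} {b : ℂ} (hA : Aut F b) {θ : E → ℝ} (hs : HasCompactSupport θ) :
    HasCompactSupport fun q => θ (F q) :=
  hs.comp_homeomorph ⟨F, hA.dF.continuous, hA.dG.continuous⟩

theorem vadm_tst (a : ℂˣ) (P : ℂ[X]) {θ : E → ℝ} (hθ : Tst2 θ) :
    Tst2 fun q => ‖(a : ℂ)‖ ^ 2 * θ (hen a P q) :=
  ⟨contDiff_const.mul (hθ.1.comp (contDiff_hen a P)), (vadm_supp (aut_hen a P) hθ.2).mul_left⟩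

theorem vadm_marg {θ : E → ℝ} (hc : Continuous θ) (hs : HasCompactSupport θ) :
    (Continuous fun y => ∫ x, θ (x, y)) ∧ (HasCompactSupport fun y => ∫ x, θ (x, y)) ∧
      ∫ y, ∫ x, θ (x, y) = ∫ q, θ q := by
  refine ⟨?_, ?_, ?_⟩
  · have h1 := continuous_parametric_integral_of_continuous (μ := volume)
      (f := fun y x : ℂ => θ (x, y)) (hc.comp continuous_swap) (hs.isCompact.image continuous_fst)
    refine h1.congr fun y => ?_
    refine setIntegral_eq_integral_of_forall_compl_eq_zero fun x hx => ?_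
    exact image_eq_zero_of_notMem_tsupport fun hh => hx ⟨_, hh, rfl⟩
  · refine HasCompactSupport.intro (hs.isCompact.image continuous_snd) fun y hy => ?_
    have : (fun x => θ (x, y)) = fun _ => 0 := funext fun x =>
      image_eq_zero_of_notMem_tsupport fun hh => hy ⟨_, hh, rfl⟩
    rw [this, integral_zero]
  · exact (integral_prod_symm θ (hc.integrable_of_hasCompactSupport hs)).symm

/-- `recip` for the curves `hen a P ∘ Z m` (growth relations from `hen_cone`; `log (1 + ‖·‖)` is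
`O(D m)` on the support), `hlog_hen`, and `weak` for `ρ y = ∫ x, θ (x, y)`, whose integral is 0 -/
theorem Adm.step (h : Adm U Z D u C₀) (hχ : Tst χ) (h0 : ∀ t, 0 ≤ χ t) (hs : tsupport χ ⊆ U)
    (a : ℂˣ) {P : ℂ[X]} (hP : 2 ≤ P.natDegree) {θ : E → ℝ} (hθ : Tst2 θ) (hi : ∫ q, θ q = 0) :
    Tendsto (fun m => (VV χ (fun t => Hn.hen a P (Z m t)) θ -
      VV χ (Z m) fun q => ‖(a : ℂ)‖ ^ 2 * θ (Hn.hen a P q)) / D m) atTop (𝓝 0) := by
  obtain ⟨C₁, h1, h2⟩ := hen_cone a hP C₀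
  obtain ⟨C, hC⟩ := recip hχ hθ hi C₁ P.natDegree
  obtain ⟨r1, r2, r3⟩ := vadm_marg hθ.1.continuous hθ.2
  have hw := h.weak hχ h0 hs r1 r2
  rw [r3, hi, mul_zero] at hw
  obtain ⟨M, hM⟩ := hχ.2.isCompact.exists_bound_of_continuousOn (h.cont.mono hs)
  have hdW : ∀ m, DifferentiableOn ℂ (fun t => Hn.hen a P (Z m t)) U := fun m =>
    (aut_hen a P).dF.comp_differentiableOn (h.diff m)
  set K : ℝ := 1 + Real.log (2 * (2 + C₁)) + C₁ + P.natDegree * (|M| + 1) with hK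
  have hl0 : 0 ≤ Real.log (2 * (2 + C₁)) := Real.log_nonneg (by linarith)
  have hK1 : 1 ≤ K := by
    have : (0 : ℝ) ≤ P.natDegree * (|M| + 1) := by positivity
    linarith
  have t1 : Tendsto (fun m => (VV χ (fun t => Hn.hen a P (Z m t)) θ -
      HH χ (fun t => Hn.hen a P (Z m t)) θ) / D m) atTop (𝓝 0) := by
    have t0 : Tendsto (fun m => |C| * √K * (√(D m))⁻¹) atTop (𝓝 0) := by
      have := (tendsto_inv_atTop_zero.comp (Real.tendsto_sqrt_atTop.comp h.top)).const_mul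
        (|C| * √K)
      simpa using this
    refine squeeze_zero_norm' ?_ t0
    filter_upwards [(Metric.tendstoUniformlyOn_iff.1 h.lim) 1 one_pos,
      h.top.eventually_ge_atTop 1] with m hm hD
    have hD0 : 0 < D m := by linarith
    have key := hC U _ (K * D m) h.isOpen hs (hdW m) (by nlinarith) fun t ht => by
      obtain ⟨a1, a2, -, a4⟩ := h2 _ (h.cone m t (hs ht))
      refine ⟨?_, a2, a4⟩
      set W := Hn.hen a P (Z m t)
      have b1 := hm t (hs ht)
      rw [Real.dist_eq, abs_lt] at b1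
      have b2 : Real.log (max 1 ‖(Z m t).1‖) ≤ (|M| + 1) * D m := by
        rw [← div_le_iff₀ hD0]
        have := hM t ht
        rw [Real.norm_eq_abs] at this
        linarith [b1.1, le_abs_self (u t), le_abs_self M]
      have b3 : 1 + ‖W‖ ≤ 2 * (2 + C₁) * max 1 ‖W.1‖ := by
        have c1 : ‖W‖ ≤ (1 + C₁) * (1 + ‖W.1‖) := by
          rw [Prod.norm_def]
          refine max_le ?_ ?_ <;> nlinarith [norm_nonneg W.1]
        nlinarith [le_max_left 1 ‖W.1‖, le_max_right 1 ‖W.1‖, norm_nonneg W.1]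
      have b4 : Real.log (1 + ‖W‖) ≤ Real.log (2 * (2 + C₁)) + Real.log (max 1 ‖W.1‖) := by
        rw [← Real.log_mul (by positivity) (by positivity)]
        exact Real.log_le_log (by positivity) b3
      have b5 := (abs_le.1 a1).2
      have b6 : (P.natDegree : ℝ) * Real.log (max 1 ‖(Z m t).1‖) ≤
          P.natDegree * ((|M| + 1) * D m) := mul_le_mul_of_nonneg_left b2 (by positivity)
      have b7 : K * D m = D m + (Real.log (2 * (2 + C₁)) + C₁) * D m +
          P.natDegree * ((|M| + 1) * D m) := by rw [hK]; ring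
      have b8 : Real.log (2 * (2 + C₁)) + C₁ ≤ (Real.log (2 * (2 + C₁)) + C₁) * D m :=
        le_mul_of_one_le_right (by linarith) hD
      linarith
    rw [Real.norm_eq_abs, abs_div, abs_of_pos hD0, div_le_iff₀ hD0]
    refine key.trans ?_
    have hs0 : 0 < √(D m) := Real.sqrt_pos.2 hD0
    rw [Real.sqrt_mul (by linarith)]
    calc C * (√K * √(D m)) ≤ |C| * (√K * √(D m)) :=
          mul_le_mul_of_nonneg_right (le_abs_self C) (by positivity)
      _ = |C| * √K * (√(D m))⁻¹ * (√(D m) * √(D m)) := by field_simp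
      _ = _ := by rw [Real.mul_self_sqrt hD0.le]
  have t2 := t1.add (hw.const_mul (Real.log ‖(a : ℂ)‖))
  rw [mul_zero, add_zero] at t2
  refine t2.congr fun m => ?_
  have hθ' := vadm_tst a P hθ
  have i1 := vadm_int hχ.1.continuous hχ.2 ((vadm_cont h.isOpen (h.diff m)
    (continuous_vlog hθ'.1.continuous hθ'.2)).mono hs)
  have i2 := vadm_int hχ.1.continuous hχ.2 ((vadm_cont h.isOpen (h.diff m)
    (φ := fun q => ∫ x, θ (x, q.1)) (r1.comp continuous_fst)).mono hs)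
  have e : HH χ (fun t => Hn.hen a P (Z m t)) θ =
      (VV χ (Z m) fun q => ‖(a : ℂ)‖ ^ 2 * θ (Hn.hen a P q)) + Real.log ‖(a : ℂ)‖ *
        ∫ t, χ t * (‖(deriv (Z m) t).1‖ ^ 2 * ∫ x, θ (x, (Z m t).1)) := by
    unfold HH VV
    rw [← integral_const_mul, ← integral_add i1 (i2.const_mul _)]
    refine integral_congr_ae (Eventually.of_forall fun t => ?_)
    by_cases ht : t ∈ tsupport χ
    · have n1 := h.isOpen.mem_nhds (hs ht)
      have d1 : (deriv (fun t => Hn.hen a P (Z m t)) t).2 = (deriv (Z m) t).1 := by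
        rw [← vadm_deriv_snd ((hdW m).differentiableAt n1),
          ← vadm_deriv_fst ((h.diff m).differentiableAt n1)]
        rfl
      simp only
      rw [d1, hlog_hen a P hθ.1.continuous hθ.2]
      ring
    · simp [image_eq_zero_of_notMem_tsupport ht]
  rw [e]
  ring

/-- the property transported along compositions -/
def Trans (F : Pm) (J e : ℝ) : Prop := 0 < e ∧
  (∀ θ : E → ℝ, Tst2 θ → Tst2 fun q => J * θ (F q)) ∧
  (∀ θ : E → ℝ, ∫ q, J * θ (F q) = ∫ q, θ q) ∧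
  ∀ (U : Set ℂ) (Z : ℕ → ℂ → E) (D : ℕ → ℝ) (u : ℂ → ℝ) (C₀ : ℝ), Adm U Z D u C₀ →
    (∃ C₁, Adm U (fun m t => F (Z m t)) (fun m => e * D m) u C₁) ∧
    ∀ (χ : ℂ → ℝ) (θ : E → ℝ), Tst χ → (∀ t, 0 ≤ χ t) → tsupport χ ⊆ U → Tst2 θ →
      ∫ q, θ q = 0 → Tendsto (fun m => (VV χ (fun t => F (Z m t)) θ -
        VV χ (Z m) fun q => J * θ (F q)) / D m) atTop (𝓝 0)

theorem Trans.one : Trans 1 1 1 := by
  refine ⟨one_pos, fun θ hθ => by simpa using hθ, fun θ => by simp,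
    fun U Z D u C₀ h => ⟨⟨C₀, by simpa using h⟩, fun χ θ _ _ _ _ _ => ?_⟩⟩
  simp

theorem Trans.mul {F G : Pm} {J e J' e' : ℝ} (h : Trans F J e) (h' : Trans G J' e') :
    Trans (F * G) (J * J') (e * e') := by
  obtain ⟨a0, a1, a2, a3⟩ := h
  obtain ⟨b0, b1, b2, b3⟩ := h'
  have ee : ∀ θ : E → ℝ, (fun q => J * J' * θ ((F * G) q)) =
      fun q => J' * (fun p => J * θ (F p)) (G q) := fun θ => funext fun q => by
    simp only [Equiv.Perm.coe_mul, Function.comp_apply]; ring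
  refine ⟨mul_pos a0 b0, fun θ hθ => ?_, fun θ => ?_, fun U Z D u C₀ h => ?_⟩
  · rw [ee]; exact b1 _ (a1 θ hθ)
  · rw [ee]; exact (b2 fun p => J * θ (F p)).trans (a2 θ)
  obtain ⟨⟨C₁, c1⟩, c2⟩ := b3 U Z D u C₀ h
  obtain ⟨⟨C₂, c3⟩, c4⟩ := a3 U _ _ u C₁ c1
  refine ⟨⟨C₂, ?_⟩, fun χ θ hχ h0 hs hθ hi => ?_⟩
  · simpa only [Equiv.Perm.coe_mul, Function.comp_apply, mul_assoc] using c3
  have l1 := (c4 χ θ hχ h0 hs hθ hi).const_mul e'
  have l2 := c2 χ _ hχ h0 hs (a1 θ hθ) (by rw [a2, hi])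
  have l3 := l1.add l2
  rw [mul_zero, add_zero] at l3
  rw [ee]
  refine l3.congr' ?_
  filter_upwards [h.top.eventually_gt_atTop 0] with m hm
  simp only [Equiv.Perm.coe_mul, Function.comp_apply]
  field_simp
  ring

theorem trans_hen (a : ℂˣ) {P : ℂ[X]} (hP : 2 ≤ P.natDegree) :
    Trans (hen a P) (‖(a : ℂ)‖ ^ 2) P.natDegree := by
  have hn : (2 : ℝ) ≤ P.natDegree := by exact_mod_cast hP
  refine ⟨by linarith, fun θ hθ => vadm_tst a P hθ, fun θ => ?_, fun U Z D u C₀ h =>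
    ⟨h.hen a hP, fun χ θ hχ h0 hs hθ hi => h.step hχ h0 hs a hP hθ hi⟩⟩
  have := integral_aut (aut_hen a P) θ
  rwa [norm_neg] at this

theorem trans_comp (L : List (ℂˣ × ℂ[X])) (hL : ∀ h ∈ L, 2 ≤ h.2.natDegree) :
    ∃ J : ℝ, 0 < J ∧ Trans (comp L) J (deg L) := by
  induction L with
  | nil => exact ⟨1, one_pos, by simpa [comp, deg] using Trans.one⟩
  | cons h L ih =>
    obtain ⟨J, hJ, hT⟩ := ih fun g hg => hL g (List.mem_cons_of_mem _ hg)
    refine ⟨‖(h.1 : ℂ)‖ ^ 2 * J, mul_pos (pow_pos (norm_pos_iff.2 h.1.ne_zero) 2) hJ, ?_⟩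
    rw [comp_cons, deg_cons, Nat.cast_mul]
    exact (trans_hen h.1 (hL h List.mem_cons_self)).mul hT

/-- induction on the list (`Adm.hen`, `Adm.step`, `integral_aut`, `aut_hen`, `contDiff_hen`), then
on `j` -/
theorem trans_pow {L : List (ℂˣ × ℂ[X])} (hL : IsHenon L) : ∃ J : ℝ, 0 < J ∧ ∀ j : ℕ,
    Trans (comp L ^ j) (J ^ j) ((deg L : ℝ) ^ j) := by
  obtain ⟨J, hJ, hT⟩ := trans_comp L hL.2
  refine ⟨J, hJ, fun j => ?_⟩
  induction j with
  | zero => simpa using Trans.one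
  | succ j ih =>
    rw [pow_succ, pow_succ, pow_succ]
    exact ih.mul hT

end Pool.Agent.Lib.MP_7b5e47_an.Hn
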