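import Pool.Agent.Lib.MP_7b5e47_an.Hn.VAdm

namespace Pool.Agent.Lib.MP_7b5e47_an.Hn

open Filter Topology Set Metric MeasureTheory

variable {U : Set ℂ} {Z : ℕ → ℂ → E} {D : ℕ → ℝ} {u : ℂ → ℝ} {C₀ : ℝ} {χ : ℂ → ℝ}

theorem VBound_int : Integrable fun y : ℂ => max (-Real.log ‖y‖) 0 := by
  have h := (locInt_log.integrableOn_isCompact (isCompact_closedBall (0 : ℂ) 1)).neg_part
  refine IntegrableOn.integrable_of_forall_notMem_eq_zero (s := closedBall 0 1) h fun y hy => ?_
  rw [mem_closedBall_zero_iff, not_le] at hy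
  exact max_eq_right (neg_nonpos.2 (Real.log_nonneg hy.le))

theorem VBound_scale {B : ℝ} (hB : 0 ≤ B) (w : ℂ) :
    max (-Real.log ‖w‖) 0 ≤ Real.log (1 + B) + max (-Real.log ‖(1 + B) • w‖) 0 := by
  have h1 : 0 ≤ Real.log (1 + B) := Real.log_nonneg (by linarith)
  refine max_le ?_ (add_nonneg h1 (le_max_right _ _))
  rcases eq_or_ne w 0 with rfl | hw
  · simpa using h1
  · rw [norm_smul, Real.norm_of_nonneg (by linarith),
      Real.log_mul (by linarith) (norm_ne_zero_iff.2 hw)]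
    have := le_max_left (-(Real.log (1 + B) + Real.log ‖w‖)) 0
    linarith

theorem VBound_near {M : ℝ} {Y : ℂ} (hY : ‖Y‖ ≤ M) (y : ℂ) :
    |Real.log ‖y - Y‖ - Real.log (max 1 ‖y‖)| ≤
      Real.log (1 + M) + max (-Real.log ‖y - Y‖) 0 := by
  have hM : 0 ≤ M := (norm_nonneg _).trans hY
  have key : ∀ a b : ℝ, a ≤ b + M → Real.log (max 1 a) ≤ Real.log (1 + M) + Real.log (max 1 b) := by
    intro a b hab
    have h1 := le_max_left 1 b
    have h2 := le_max_right 1 b
    rw [← Real.log_mul (by linarith) (by linarith)]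
    refine Real.log_le_log (lt_max_of_lt_left one_pos) (max_le ?_ ?_) <;> nlinarith
  have h1 := key ‖y - Y‖ ‖y‖ ((norm_sub_le _ _).trans (by linarith))
  have h2 := key ‖y‖ ‖y - Y‖ (by
    have := norm_add_le (y - Y) Y
    rw [sub_add_cancel] at this
    linarith)
  have h3 : Real.log (max 1 ‖y - Y‖) = Real.log ‖y - Y‖ + max (-Real.log ‖y - Y‖) 0 := by
    rcases le_total 1 ‖y - Y‖ with h | h
    · rw [max_eq_right h, max_eq_right (neg_nonpos.2 (Real.log_nonneg h)), add_zero]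
    · rw [max_eq_left h, max_eq_left (neg_nonneg.2 (Real.log_nonpos (norm_nonneg _) h)),
        Real.log_one, add_neg_cancel]
  have h4 := le_max_right (-Real.log ‖y - Y‖) 0
  rw [abs_le]
  constructor <;> linarith

theorem VBound_far {Y y : ℂ} (h : 2 * ‖Y‖ + 2 ≤ ‖y‖) :
    |Real.log ‖y - Y‖ - Real.log (max 1 ‖y‖)| ≤ 1 := by
  have h0 := norm_nonneg Y
  have h1 := norm_sub_le y Y
  have h2 := norm_add_le (y - Y) Y
  rw [sub_add_cancel] at h2
  have h3 : Real.log 2 ≤ 1 := by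
    have := Real.log_two_lt_d9
    linarith
  have h4 : Real.log ‖y - Y‖ ≤ Real.log 2 + Real.log ‖y‖ := by
    rw [← Real.log_mul two_ne_zero (by linarith)]
    exact Real.log_le_log (by linarith) (by linarith)
  have h5 : Real.log ‖y‖ ≤ Real.log 2 + Real.log ‖y - Y‖ := by
    rw [← Real.log_mul two_ne_zero (by linarith)]
    exact Real.log_le_log (by linarith) (by linarith)
  rw [max_eq_right (by linarith), abs_le]
  constructor <;> linarith

theorem VBound_slice {F : E → ℝ} (hs : HasCompactSupport F) (x : ℂ) :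
    HasCompactSupport fun y => F (x, y) :=
  HasCompactSupport.intro (hs.isCompact.image continuous_snd) fun y hy =>
    image_eq_zero_of_notMem_tsupport fun h => hy ⟨(x, y), h, rfl⟩

theorem VBound_fib {F : E → ℝ} (hc : Continuous F) (hs : HasCompactSupport F) :
    (Continuous fun x => ∫ y, F (x, y)) ∧ (HasCompactSupport fun x => ∫ y, F (x, y)) ∧
      ∫ x, ∫ y, F (x, y) = ∫ q, F q := by
  refine ⟨?_, ?_, ?_⟩
  · rw [← continuousOn_univ]
    exact continuousOn_integral_of_compact_support (f := fun x y => F (x, y))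
      (hs.isCompact.image continuous_snd) hc.continuousOn fun x y _ hy =>
        image_eq_zero_of_notMem_tsupport fun h => hy ⟨(x, y), h, rfl⟩
  · refine HasCompactSupport.intro (hs.isCompact.image continuous_fst) fun x hx => ?_
    have : ∀ y, F (x, y) = 0 := fun y =>
      image_eq_zero_of_notMem_tsupport fun h => hx ⟨(x, y), h, rfl⟩
    simp only [this, integral_zero]
  · exact (integral_prod F (hc.integrable_of_hasCompactSupport hs)).symm

theorem VBound_curve (h : Adm U Z D u C₀) (hχ : Tst χ) (hs : tsupport χ ⊆ U) (m : ℕ)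
    {G : E → ℝ} (hG : Continuous G) :
    Integrable fun t => χ t * (‖(deriv (Z m) t).1‖ ^ 2 * G (Z m t)) := by
  have h1 : ContinuousOn (deriv (Z m)) U := ((h.diff m).deriv h.isOpen).continuousOn
  have h2 : ContinuousOn (fun t => χ t * (‖(deriv (Z m) t).1‖ ^ 2 * G (Z m t))) U :=
    hχ.1.continuous.continuousOn.mul ((h1.fst.norm.pow 2).mul
      (hG.comp_continuousOn (h.diff m).continuousOn))
  refine ((h2.mono hs).integrableOn_compact hχ.2.isCompact).integrable_of_forall_notMem_eq_zero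
    fun t ht => ?_
  rw [image_eq_zero_of_notMem_tsupport ht, zero_mul]

/-- Pointwise comparison. For `‖X‖ ≥ R₁` and `θ (X, y) ≠ 0`, `‖y‖ ≥ 2 ‖Y‖ + 2`, so
`|log ‖y - Y‖ - log max 1 ‖y‖| ≤ log 2`. For `‖X‖ ≤ R₁`, `Y` is bounded and the difference is at
most `C₁ + log⁻ ‖y - Y‖`; split the integral of `log⁻ ‖y - Y‖ |θ|` at `‖y - Y‖ = τ = 1 / (1 + B)`:
`∫_{‖y‖ < τ} log (1 / ‖y‖) ≤ C τ`. -/
theorem vlog_cmp (hC : 0 ≤ C₀) (R₁ : ℝ) : ∃ K : ℝ, 0 ≤ K ∧ ∀ (θ : E → ℝ) (B : ℝ), Continuous θ →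
    HasCompactSupport θ → (∀ q, |θ q| ≤ B) →
    (∀ q : E, θ q ≠ 0 → R₁ ≤ ‖q.1‖ → 2 * C₀ * (1 + ‖q.1‖) + 2 ≤ ‖q.2‖) →
    ∀ z : E, ‖z.2‖ ≤ C₀ * (1 + ‖z.1‖) →
      |vlog θ z - ∫ y, Real.log (max 1 ‖y‖) * θ (z.1, y)| ≤
        K * (1 + Real.log (1 + B)) * (∫ y, |θ (z.1, y)|) + if ‖z.1‖ ≤ R₁ then K else 0 := by
  have hg := VBound_int
  set g : ℂ → ℝ := fun y => max (-Real.log ‖y‖) 0 with hgd
  have hg0 : 0 ≤ ∫ y, g y := integral_nonneg fun y => le_max_right _ _
  set M := C₀ * (1 + |R₁|) with hM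
  have hM0 : 0 ≤ Real.log (1 + M) := Real.log_nonneg (le_add_of_nonneg_right (by positivity))
  refine ⟨1 + Real.log (1 + M) + ∫ y, g y, by positivity, fun θ B hc hs hB hfar z hz => ?_⟩
  set K := 1 + Real.log (1 + M) + ∫ y, g y with hK
  have hB0 : 0 ≤ B := (abs_nonneg _).trans (hB 0)
  have hL : 0 ≤ Real.log (1 + B) := Real.log_nonneg (by linarith)
  have fc : Continuous fun y => θ (z.1, y) := hc.comp (Continuous.prodMk_right z.1)
  have fs := VBound_slice hs z.1
  have fi : Integrable fun y => |θ (z.1, y)| := (fc.integrable_of_hasCompactSupport fs).abs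
  have f0 : 0 ≤ ∫ y, |θ (z.1, y)| := integral_nonneg fun y => abs_nonneg _
  have i1 : Integrable fun y => Real.log ‖y - z.2‖ * θ (z.1, y) := by
    have h1 := (locInt_log.integrable_smul_right_of_hasCompactSupport
      (fc.comp (continuous_add_const z.2))
      (fs.comp_homeomorph (Homeomorph.addRight z.2))).comp_sub_right z.2
    simpa using h1
  have i2 : Integrable fun y : ℂ => Real.log (max 1 ‖y‖) * θ (z.1, y) :=
    (((continuous_const.max continuous_norm).log fun y =>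
      (lt_max_of_lt_left one_pos).ne').mul fc).integrable_of_hasCompactSupport fs.mul_left
  rw [vlog, ← integral_sub i1 i2]
  simp only [← sub_mul]
  by_cases hx : ‖z.1‖ ≤ R₁
  · rw [if_pos hx]
    have hY : ‖z.2‖ ≤ M := hz.trans (mul_le_mul_of_nonneg_left
      (by linarith [le_abs_self R₁]) hC)
    have i3 : Integrable fun y => g ((1 + B) • (y - z.2)) :=
      (hg.comp_smul (R := 1 + B) (by linarith)).comp_sub_right z.2
    have e3 : ∫ y, g ((1 + B) • (y - z.2)) = ((1 + B) ^ 2)⁻¹ * ∫ y, g y := by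
      rw [integral_sub_right_eq_self (fun y => g ((1 + B) • y)) z.2,
        Measure.integral_comp_smul_of_nonneg volume g (1 + B) (hR := by linarith),
        Complex.finrank_real_complex, smul_eq_mul]
    have h1 := norm_integral_le_of_norm_le (μ := volume)
      (f := fun y => (Real.log ‖y - z.2‖ - Real.log (max 1 ‖y‖)) * θ (z.1, y))
      ((fi.const_mul (Real.log (1 + M) + Real.log (1 + B))).add (i3.const_mul B))
      (Eventually.of_forall fun y => by
        rw [Real.norm_eq_abs, abs_mul]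
        have h2 := (VBound_near hY y).trans (add_le_add le_rfl (VBound_scale hB0 (y - z.2)))
        have h3 := mul_le_mul_of_nonneg_right h2 (abs_nonneg (θ (z.1, y)))
        have h4 := mul_le_mul_of_nonneg_left (hB (z.1, y))
          (le_max_right (-Real.log ‖(1 + B) • (y - z.2)‖) 0)
        simp only [Pi.add_apply, hgd]
        linarith)
    simp only [Pi.add_apply] at h1
    rw [integral_add (fi.const_mul _) (i3.const_mul B), integral_const_mul, integral_const_mul,
      e3, Real.norm_eq_abs] at h1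
    have h5 : B * ((1 + B) ^ 2)⁻¹ ≤ 1 := by
      rw [← div_eq_mul_inv, div_le_one (by positivity)]
      nlinarith
    have h6 := mul_le_mul_of_nonneg_right h5 hg0
    have h7 : Real.log (1 + M) + Real.log (1 + B) ≤ K * (1 + Real.log (1 + B)) := by
      rw [hK]
      nlinarith [mul_nonneg hM0 hL, mul_nonneg hg0 hL]
    have h8 := mul_le_mul_of_nonneg_right h7 f0
    linarith
  · rw [if_neg hx, add_zero]
    have h1 := norm_integral_le_of_norm_le (μ := volume)
      (f := fun y => (Real.log ‖y - z.2‖ - Real.log (max 1 ‖y‖)) * θ (z.1, y)) fi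
      (Eventually.of_forall fun y => by
        rw [Real.norm_eq_abs, abs_mul]
        rcases eq_or_ne (θ (z.1, y)) 0 with h2 | h2
        · simp [h2]
        · have h3 : 2 * C₀ * (1 + ‖z.1‖) + 2 ≤ ‖y‖ := hfar (z.1, y) h2 (not_le.1 hx).le
          exact mul_le_of_le_one_left (abs_nonneg _) (VBound_far (by linarith)))
    rw [Real.norm_eq_abs] at h1
    refine h1.trans (le_mul_of_one_le_left f0 ?_)
    exact one_le_mul_of_one_le_of_one_le (by rw [hK]; linarith) (by linarith)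

/-- `vlog_cmp` and `Adm.weak` for the three continuous functions with compact support
`x ↦ ∫ log max 1 ‖y‖ θ (x, y)`, `x ↦ ∫ |θ (x, y)|` and a fixed bump equal to one on
`closedBall 0 R₁`; Fubini (`integral_prod`). -/
theorem Adm.bound (h : Adm U Z D u C₀) (hχ : Tst χ) (h0 : ∀ t, 0 ≤ χ t) (hs : tsupport χ ⊆ U)
    (R₁ : ℝ) : ∃ K : ℝ, ∀ (θ : E → ℝ) (B : ℝ), Continuous θ → HasCompactSupport θ →
      (∀ q, |θ q| ≤ B) →
      (∀ q : E, θ q ≠ 0 → R₁ ≤ ‖q.1‖ → 2 * C₀ * (1 + ‖q.1‖) + 2 ≤ ‖q.2‖) →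
      ∀ᶠ m in atTop, |VV χ (Z m) θ / D m - (∫ t, u t * lap χ t) / (2 * Real.pi) *
          ∫ q : E, Real.log (max 1 ‖q.2‖) * θ q| ≤
        K * ((1 + Real.log (1 + B)) * (∫ q, |θ q|) + 1) := by
  obtain ⟨K, hK, hcmp⟩ := vlog_cmp h.nonneg R₁
  obtain ⟨ψ, hψ, -, hψ0, hψ1⟩ :=
    exists_cutoff (isCompact_closedBall (0 : ℂ) R₁) isOpen_univ (subset_univ _)
  set c := (∫ t, u t * lap χ t) / (2 * Real.pi) with hc
  refine ⟨K * |c| + (1 + K + K * (|c * ∫ y, ψ y| + 1)), fun θ B hθ hθs hB hfar => ?_⟩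
  have hB0 : 0 ≤ B := (abs_nonneg _).trans (hB 0)
  have hL : 0 < 1 + Real.log (1 + B) :=
    add_pos_of_pos_of_nonneg one_pos (Real.log_nonneg (by linarith))
  obtain ⟨c1, s1, e1⟩ := VBound_fib (F := fun q : E => Real.log (max 1 ‖q.2‖) * θ q)
    (((continuous_const.max continuous_snd.norm).log fun y =>
      (lt_max_of_lt_left one_pos).ne').mul hθ) hθs.mul_left
  obtain ⟨c2, s2, e2⟩ := VBound_fib (F := fun q : E => |θ q|) hθ.abs hθs.abs
  have w1 := h.weak hχ h0 hs c1 s1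
  have w2 := h.weak hχ h0 hs c2 s2
  have w3 := h.weak hχ h0 hs hψ.1.continuous hψ.2
  rw [e1, ← hc] at w1
  rw [e2, ← hc] at w2
  rw [← hc] at w3
  filter_upwards [Metric.tendsto_nhds.1 w1 1 one_pos, Metric.tendsto_nhds.1 w2 _ (inv_pos.2 hL),
    Metric.tendsto_nhds.1 w3 1 one_pos, h.top.eventually_gt_atTop 0] with m a1 a2 a3 hD
  rw [Real.dist_eq] at a1 a2 a3
  have i0 := VBound_curve h hχ hs m (continuous_vlog hθ hθs)
  have i1 := VBound_curve h hχ hs m (c1.comp continuous_fst)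
  have i2 := VBound_curve h hχ hs m (c2.comp continuous_fst)
  have i3 := VBound_curve h hχ hs m (hψ.1.continuous.comp continuous_fst)
  simp only [Function.comp_apply] at i1 i2 i3
  have b1 := norm_integral_le_of_norm_le (μ := volume)
    (f := fun t => χ t * (‖(deriv (Z m) t).1‖ ^ 2 * vlog θ (Z m t)) -
      χ t * (‖(deriv (Z m) t).1‖ ^ 2 * ∫ y, Real.log (max 1 ‖y‖) * θ ((Z m t).1, y)))
    ((i2.const_mul (K * (1 + Real.log (1 + B)))).add (i3.const_mul K))
    (Eventually.of_forall fun t => by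
      simp only [Pi.add_apply]
      by_cases ht : t ∈ tsupport χ
      · have h1 := hcmp θ B hθ hθs hB hfar (Z m t) (h.cone m t (hs ht))
        have h2 : (if ‖(Z m t).1‖ ≤ R₁ then K else 0) ≤ K * ψ (Z m t).1 := by
          split_ifs with h3
          · rw [hψ1.self_of_nhdsSet _ (mem_closedBall_zero_iff.2 h3), mul_one]
          · exact mul_nonneg hK (hψ0 _).1
        have h3 : 0 ≤ χ t * ‖(deriv (Z m) t).1‖ ^ 2 := mul_nonneg (h0 t) (sq_nonneg _)
        have h4 := mul_le_mul_of_nonneg_left (h1.trans (add_le_add le_rfl h2)) h3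
        rw [← mul_assoc, ← mul_assoc, ← mul_sub, Real.norm_eq_abs, abs_mul, abs_of_nonneg h3]
        linarith
      · simp [image_eq_zero_of_notMem_tsupport ht])
  simp only [Pi.add_apply] at b1
  rw [integral_sub i0 i1, integral_add (i2.const_mul _) (i3.const_mul _), integral_const_mul,
    integral_const_mul, Real.norm_eq_abs] at b1
  have b2 := div_le_div_of_nonneg_right b1 hD.le
  rw [← abs_of_pos hD, ← abs_div, abs_of_pos hD, sub_div, add_div, mul_div_assoc,
    mul_div_assoc] at b2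
  have hI : 0 ≤ ∫ q, |θ q| := integral_nonneg fun q => abs_nonneg _
  rw [VV]
  generalize (∫ t, χ t * (‖(deriv (Z m) t).1‖ ^ 2 * vlog θ (Z m t))) / D m = V at b2 ⊢
  generalize (∫ t, χ t * (‖(deriv (Z m) t).1‖ ^ 2 *
    ∫ y, Real.log (max 1 ‖y‖) * θ ((Z m t).1, y))) / D m = W₁ at a1 b2
  generalize (∫ t, χ t * (‖(deriv (Z m) t).1‖ ^ 2 * ∫ y, |θ ((Z m t).1, y)|)) / D m = W₂
    at a2 b2
  generalize (∫ t, χ t * (‖(deriv (Z m) t).1‖ ^ 2 * ψ (Z m t).1)) / D m = W₃ at a3 b2
  generalize ∫ q : E, Real.log (max 1 ‖q.2‖) * θ q = I₁ at a1 ⊢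
  generalize ∫ q, |θ q| = I₂ at a2 hI ⊢
  generalize c * ∫ y, ψ y = I₃ at a3 ⊢
  generalize 1 + Real.log (1 + B) = L at a2 b2 hL ⊢
  have d1 : W₂ ≤ |c| * I₂ + L⁻¹ := by
    have := mul_le_mul_of_nonneg_right (le_abs_self c) hI
    linarith [(abs_lt.1 a2).2]
  have d2 : K * L * W₂ ≤ K * |c| * (L * I₂) + K := by
    refine (mul_le_mul_of_nonneg_left d1 (mul_nonneg hK hL.le)).trans_eq ?_
    field_simp
  have d3 : K * W₃ ≤ K * (|I₃| + 1) :=
    mul_le_mul_of_nonneg_left (by linarith [(abs_lt.1 a3).2, le_abs_self I₃]) hK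
  have d4 := abs_sub_le V W₁ (c * I₁)
  have d5 : 0 ≤ K * |c| := mul_nonneg hK (abs_nonneg _)
  have d6 : 0 ≤ (1 + K + K * (|I₃| + 1)) * (L * I₂) := by positivity
  nlinarith

end Pool.Agent.Lib.MP_7b5e47_an.Hn
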