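import Pool.Agent.Lib.MP_7b5e47_an.Hn.VBound

namespace Pool.Agent.Lib.MP_7b5e47_an.Hn

open Filter Topology Set Metric MeasureTheory

/-! Iterates of an active disc come close to every vertically active point. -/

open Polynomial

variable {L : List (ℂˣ × ℂ[X])}

theorem VEq_nv {R : ℝ} (hR : 1 ≤ R) {z : E}
    (h : z ∈ NV R (ContinuousLinearMap.fst ℂ ℂ ℂ) (ContinuousLinearMap.snd ℂ ℂ ℂ)) :
    ‖z.2‖ ≤ R * (1 + ‖z.1‖) := by
  have h1 : ¬ (R ≤ ‖z.2‖ ∧ ‖z.1‖ ≤ ‖z.2‖) := h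
  have h2 := norm_nonneg z.1
  have h3 : ‖z.1‖ ≤ R * ‖z.1‖ := le_mul_of_one_le_left h2 hR
  rcases not_and_or.1 h1 with h4 | h4
  · nlinarith [not_le.1 h4]
  · nlinarith [not_le.1 h4]

theorem VEq_rev (L : List (ℂˣ × ℂ[X])) (j : ℕ) (q : E) :
    (comp (revL L) ^ j) (sw ((comp L ^ j) q)) = sw q := by
  induction j with
  | zero => simp
  | succ j ih =>
    rw [pow_succ (comp (revL L)), pow_succ' (comp L), Equiv.Perm.mul_apply, Equiv.Perm.mul_apply]
    have h1 : comp (revL L) (sw (comp L ((comp L ^ j) q))) = sw ((comp L ^ j) q) := by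
      rw [comp_revL, Equiv.Perm.mul_apply, Equiv.Perm.mul_apply]
      have h2 : ∀ z : E, sw (sw z) = z := fun z => rfl
      rw [h2]
      exact congrArg sw ((comp L).symm_apply_apply _)
    rw [h1, ih]

/-- take `m₀` from `nv_enter`; `C₀ = R`, `Flt.log_le` -/
theorem adm_iter (hL : IsHenon L) {X : ℂ → E} {ζ : ℂ} {ρ : ℝ} (hρ : 0 < ρ)
    (hX : DifferentiableOn ℂ X (ball ζ ρ)) : ∃ (m₀ : ℕ) (C₀ : ℝ), Adm (ball ζ (ρ / 2))
      (fun m t => (comp L ^ (m + m₀)) (X t)) (fun m => (deg L : ℝ) ^ (m + m₀))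
      (fun t => green (comp L) (deg L) (X t)) C₀ := by
  obtain ⟨R, C, h⟩ := flt_gen hL
  have hsub : closedBall ζ (ρ / 2) ⊆ ball ζ ρ := closedBall_subset_ball (half_lt_self hρ)
  have hsub' : ball ζ (ρ / 2) ⊆ ball ζ ρ := ball_subset_closedBall.trans hsub
  obtain ⟨M, hM⟩ := (isCompact_closedBall ζ (ρ / 2)).exists_bound_of_continuousOn
    (hX.continuousOn.mono hsub)
  obtain ⟨k, hk⟩ := h.nv_enter M
  obtain ⟨C', hC⟩ := h.log_le M
  have hd : (0 : ℝ) < deg L := one_pos.trans h.hd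
  have htop : Tendsto (fun m : ℕ => (deg L : ℝ) ^ (m + k)) atTop atTop :=
    (tendsto_pow_atTop_atTop_of_one_lt h.hd).comp (tendsto_add_atTop_nat k)
  refine ⟨k, R, isOpen_ball, fun m => (dif_pow h.df _).comp_differentiableOn (hX.mono hsub'), htop,
    zero_le_one.trans h.hR, fun m t ht => ?_, ?_,
    h.green_continuous.comp_continuousOn (hX.continuousOn.mono hsub')⟩
  · have h1 := Gre_pow h (hk _ (hM t (ball_subset_closedBall ht))) m
    rw [← Equiv.Perm.mul_apply, ← pow_add] at h1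
    exact VEq_nv h.hR h1
  · refine Metric.tendstoUniformlyOn_iff.2 fun ε hε => ?_
    filter_upwards [(htop.const_div_atTop C').eventually (gt_mem_nhds hε)] with n h1 t ht
    have h3 := (hC (n + k) _ (hM t (ball_subset_closedBall ht))).2
    refine lt_of_le_of_lt ?_ h1
    rw [dist_comm, Real.dist_eq, div_sub' (pow_pos hd _).ne', abs_div, abs_of_pos (pow_pos hd _)]
    exact div_le_div_of_nonneg_right h3 (pow_pos hd _).le

/-- backward images of a bounded set: `comp_cone` for `revL L` after `nv_enter` -/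
theorem supp_cone (hL : IsHenon L) (r C₀ : ℝ) : ∃ R₁ : ℝ, ∀ (j : ℕ) (q : E),
    ‖(comp L ^ j) q‖ ≤ r → R₁ ≤ ‖q.1‖ → 2 * C₀ * (1 + ‖q.1‖) + 2 ≤ ‖q.2‖ := by
  obtain ⟨R, C, h⟩ := flt_gen hL.revL
  obtain ⟨k, hk⟩ := h.nv_enter r
  obtain ⟨C₁, hC₁, hc⟩ := comp_cone hL.revL R
  have hb : ∀ j : ℕ, ∃ M : ℝ, ∀ z : E, ‖z‖ ≤ r → ‖(comp (revL L) ^ j) z‖ ≤ M := fun j => by
    obtain ⟨M, hM⟩ := (isCompact_closedBall (0 : E) r).exists_bound_of_continuousOn
      (dif_pow h.df j).continuous.continuousOn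
    exact ⟨M, fun z hz => hM z (mem_closedBall_zero_iff.2 hz)⟩
  choose M hM using hb
  obtain ⟨M₀, hM₀⟩ := (Finset.range (k + 1)).finite_toSet.image M |>.bddAbove
  refine ⟨max (M₀ + 1) (2 * C₁ * (3 + 2 * |C₀|) + 1), fun j q hq hR => ?_⟩
  have hn : ‖sw ((comp L ^ j) q)‖ ≤ r := by
    refine le_trans (le_of_eq ?_) hq
    exact max_comm _ _
  have he := VEq_rev L j q
  rcases le_or_gt j k with hj | hj
  · have h1 := (hM j _ hn).trans (hM₀ ⟨j, by simpa using Nat.lt_succ_of_le hj, rfl⟩)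
    rw [he] at h1
    have h2 : ‖q.1‖ ≤ ‖sw q‖ := le_max_right _ _
    linarith [le_max_left (M₀ + 1) (2 * C₁ * (3 + 2 * |C₀|) + 1)]
  · obtain ⟨i, rfl⟩ : ∃ i, j = i + k + 1 := ⟨j - k - 1, by omega⟩
    have h1 := Gre_pow h (hk _ hn) i
    rw [← Equiv.Perm.mul_apply, ← pow_add] at h1
    have h2 := hc _ (VEq_nv h.hR h1)
    rw [← Equiv.Perm.mul_apply, ← pow_succ', he] at h2
    change ‖q.1‖ ^ 2 ≤ C₁ * (1 + ‖q.2‖) at h2
    have h3 : 2 * C₁ * (3 + 2 * |C₀|) + 1 ≤ ‖q.1‖ := (le_max_right _ _).trans hR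
    have h4 := abs_nonneg C₀
    have h5 : 0 ≤ C₁ * (3 + 2 * |C₀|) := by positivity
    by_contra h6
    have h7 : C₀ * (1 + ‖q.1‖) ≤ |C₀| * (1 + ‖q.1‖) :=
      mul_le_mul_of_nonneg_right (le_abs_self _) (by positivity)
    have h8 : 1 + ‖q.2‖ ≤ (3 + 2 * |C₀|) * (2 * ‖q.1‖) := by nlinarith [not_le.1 h6]
    have h9 := mul_le_mul_of_nonneg_left h8 hC₁
    nlinarith

theorem VEq_grow {d g : ℝ} (hd : 1 < d) (hg : 0 < g) (a b : ℝ) :
    ∃ j : ℕ, a + b * j < g * d ^ j := by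
  have h1 := ((tendsto_pow_const_div_const_pow_of_one_lt 0 hd).const_mul a).add
    ((tendsto_pow_const_div_const_pow_of_one_lt 1 hd).const_mul b)
  rw [mul_zero, mul_zero, add_zero] at h1
  obtain ⟨j, hj⟩ := (h1.eventually (gt_mem_nhds hg)).exists
  refine ⟨j, ?_⟩
  rw [pow_zero, pow_one, ← mul_div_assoc, ← mul_div_assoc, ← add_div, mul_one,
    div_lt_iff₀ (pow_pos (one_pos.trans hd) j)] at hj
  exact hj

theorem VEq_theta {G : E → ℝ} (hG : Continuous G) (hG0 : ∀ q, 0 ≤ G q) {q₀ : E} (h0 : G q₀ = 0)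
    (h1 : ∃ᶠ y in 𝓝 q₀.2, G (q₀.1, y) ≠ 0) {ε : ℝ} (hε : 0 < ε) : ∃ θ : E → ℝ, Tst2 θ ∧
      ∫ q, θ q = 0 ∧ 0 < ∫ q, G q * θ q ∧ ∀ z, ε ≤ ‖z - q₀‖ → vlog θ z = 0 := by
  obtain ⟨χ, hχ, -, hχs, hc⟩ := rad_test (u := fun y => G (q₀.1, y)) hε
    (hG.comp (Continuous.prodMk_right _)).continuousOn (fun y => hG0 _) h0 h1
  have hl := hχ.lap
  have hg : Continuous fun x => ∫ y, G (x, y) * lap χ y := by
    have h2 := continuous_parametric_integral_of_continuous (μ := volume)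
      (f := fun x y => G (x, y) * lap χ y)
      (hG.mul (hl.1.continuous.comp continuous_snd)) hl.2.isCompact
    refine h2.congr fun x => setIntegral_eq_integral_of_forall_compl_eq_zero fun y hy => ?_
    rw [image_eq_zero_of_notMem_tsupport hy, mul_zero]
  have hU : IsOpen ({x | 0 < ∫ y, G (x, y) * lap χ y} ∩ ball q₀.1 ε) :=
    (isOpen_lt continuous_const hg).inter isOpen_ball
  obtain ⟨ψ, hψ, hψs, hψ0, hψ1⟩ := exists_cutoff (isCompact_singleton (x := q₀.1)) hU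
    (singleton_subset_iff.2 ⟨hc, mem_ball_self hε⟩)
  have hψ2 : ψ q₀.1 = 1 := hψ1.self_of_nhdsSet _ rfl
  have hθ : Tst2 fun q : E => ψ q.1 * lap χ q.2 := by
    refine ⟨(hψ.1.comp contDiff_fst).mul (hl.1.comp contDiff_snd),
      HasCompactSupport.intro (hψ.2.isCompact.prod hl.2.isCompact) fun q hq => ?_⟩
    rcases not_and_or.1 hq with h2 | h2
    · rw [image_eq_zero_of_notMem_tsupport h2, zero_mul]
    · rw [image_eq_zero_of_notMem_tsupport h2, mul_zero]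
  refine ⟨_, hθ, ?_, ?_, fun z hz => ?_⟩
  · rw [Measure.volume_eq_prod, integral_prod_mul, integral_lap hχ, mul_zero]
  · have h2 : Integrable (fun q : E => G q * (ψ q.1 * lap χ q.2)) (volume.prod volume) :=
      (hG.mul hθ.1.continuous).integrable_of_hasCompactSupport hθ.2.mul_left
    rw [Measure.volume_eq_prod, integral_prod _ h2]
    have h3 : ∀ x, ∫ y, G (x, y) * (ψ x * lap χ y) = ψ x * ∫ y, G (x, y) * lap χ y := fun x => by
      rw [← integral_const_mul]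
      exact integral_congr_ae (ae_of_all _ fun y => by ring)
    simp only [h3]
    refine (hψ.1.continuous.mul hg).integral_pos_of_hasCompactSupport_nonneg_nonzero
      hψ.2.mul_right (fun x => ?_) (x := q₀.1) ?_
    · by_cases hx : ψ x = 0
      · simp [hx]
      · exact mul_nonneg (hψ0 x).1 (le_of_lt (hψs (subset_tsupport _ hx)).1)
    · rw [hψ2, one_mul]
      exact hc.ne'
  · have h2 : vlog (fun q : E => ψ q.1 * lap χ q.2) z = ψ z.1 * (2 * Real.pi * χ z.2) := by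
      rw [← fund hχ, ← integral_const_mul]
      exact integral_congr_ae (ae_of_all _ fun y => by ring)
    rw [h2]
    by_contra h3
    have h4 := (hψs (subset_tsupport _ (left_ne_zero_of_mul h3))).2
    have h5 := hχs (subset_tsupport _ (right_ne_zero_of_mul (right_ne_zero_of_mul h3)))
    rw [mem_ball, dist_eq_norm] at h4 h5
    exact not_lt.2 hz (max_lt h4 h5)

/-- Suppose the curves `F^n ∘ X` avoid `ball q₀ ε` for `n ≥ n₀`. `rad_test` gives `χ` for
`Gp ∘ X` on `ball ζ (ρ/2)` (so `c = ∫ u Δχ / 2π > 0`) and `χ₂` for `Gm (q₀.1, ·)` on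
`ball q₀.2 ε`; by continuity `∫ Gm (x, y) Δχ₂ y > 0` for `x` near `q₀.1`; take a test function
`ρ₁ ≥ 0` supported there with positive integral and `θ q = ρ₁ q.1 * lap χ₂ q.2`. Then `∫ θ = 0`
(`integral_lap`), `∫ Gm θ > 0`, and `vlog θ z = 2 π ρ₁ z.1 χ₂ z.2` (`fund`) vanishes off
`ball q₀ ε`. With `θ_j = J^j θ ∘ F^j` (`trans_pow`), `VV χ (Z m) θ_j / D m → 0`, so `Adm.bound` and
`supp_cone` give `|c ∫ log max 1 ‖q.2‖ θ_j q| ≤ K' (j + 1)`; the integral equals
`∫ log max 1 ‖(F⁻¹^j q).2‖ θ q`, which is `d^j ∫ Gm θ + O(1)` (`Flt.log_le` for `Flt.symm`). -/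
theorem reach_act (hL : IsHenon L) {q₀ : E} (h0 : green (comp L)⁻¹ (deg L) q₀ = 0)
    (h1 : ∃ᶠ y in 𝓝 q₀.2, green (comp L)⁻¹ (deg L) (q₀.1, y) ≠ 0) {X : ℂ → E} {ζ : ℂ} {ρ : ℝ}
    (hρ : 0 < ρ) (hX : DifferentiableOn ℂ X (ball ζ ρ)) (ha : Act (green (comp L) (deg L)) X ζ)
    {ε : ℝ} (hε : 0 < ε) :
    ∃ᶠ n : ℕ in atTop, ∃ t ∈ ball ζ ρ, ‖(comp L ^ n) (X t) - q₀‖ < ε := by
  intro hcon
  obtain ⟨n₀, hn₀⟩ := eventually_atTop.1 hcon
  obtain ⟨R, C, h⟩ := flt_gen hL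
  have hsub' : ball ζ (ρ / 2) ⊆ ball ζ ρ := ball_subset_ball (half_le_self hρ.le)
  obtain ⟨m₀, C₀, hA⟩ := adm_iter hL hρ hX
  obtain ⟨χ, hχ, hχ0, hχs, hc⟩ := rad_test (half_pos hρ) hA.cont (fun y => h.green_nonneg _)
    ha.1 ha.2
  obtain ⟨θ, hθ, hθ0, hθG, hθv⟩ := VEq_theta h.symm.green_continuous h.symm.green_nonneg h0 h1 hε
  obtain ⟨r, hr⟩ := hθ.2.isCompact.isBounded.subset_closedBall 0
  have hr' : ∀ q, θ q ≠ 0 → ‖q‖ ≤ r := fun q hq =>
    mem_closedBall_zero_iff.1 (hr (subset_tsupport _ hq))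
  obtain ⟨B, hB⟩ := hθ.1.continuous.bounded_above_of_compact_support hθ.2
  have hB0 : 0 ≤ B := (norm_nonneg _).trans (hB 0)
  obtain ⟨R₁, hR₁⟩ := supp_cone hL r C₀
  obtain ⟨K, hK⟩ := hA.bound hχ hχ0 hχs R₁
  obtain ⟨J, hJ, hT⟩ := trans_pow hL
  obtain ⟨C', hC'⟩ := h.symm.log_le r
  obtain ⟨c, hcd⟩ : ∃ c, c = (∫ t, green (comp L) (deg L) (X t) * lap χ t) / (2 * Real.pi) :=
    ⟨_, rfl⟩
  have hc0 : 0 < c := hcd ▸ div_pos hc (by positivity)
  rw [← hcd] at hK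
  obtain ⟨A, hAd⟩ : ∃ A, A = ∫ q, |θ q| := ⟨_, rfl⟩
  have hA0 : 0 ≤ A := hAd ▸ integral_nonneg fun q => abs_nonneg _
  obtain ⟨G, hGd⟩ : ∃ G, G = ∫ q, green (comp L)⁻¹ (deg L) q * θ q := ⟨_, rfl⟩
  rw [← hGd] at hθG
  have hint : ∀ g : E → ℝ, Continuous g → Integrable fun q => g q * θ q := fun g hg =>
    (hg.mul hθ.1.continuous).integrable_of_hasCompactSupport hθ.2.mul_left
  have key : ∀ j : ℕ, c * ((deg L : ℝ) ^ j * G - C' * A) ≤
      |K| * ((1 + (Real.log (1 + B) + j * Real.log (max 1 J))) * A + 1) := fun j => by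
    obtain ⟨-, t1, t2, t3⟩ := hT j
    have hJj : 0 < J ^ j := pow_pos hJ j
    have s1 := (t3 _ _ _ _ _ hA).2 χ θ hχ hχ0 hχs hθ hθ0
    have s2 : Tendsto (fun m => VV χ (fun t => (comp L ^ (m + m₀)) (X t))
        (fun q => J ^ j * θ ((comp L ^ j) q)) / (deg L : ℝ) ^ (m + m₀)) atTop (𝓝 0) := by
      have s3 := s1.neg
      rw [neg_zero] at s3
      refine s3.congr' ?_
      filter_upwards [eventually_ge_atTop n₀] with m hm
      have s4 : VV χ (fun t => (comp L ^ j) ((comp L ^ (m + m₀)) (X t))) θ = 0 := by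
        refine integral_eq_zero_of_ae (ae_of_all _ fun t => ?_)
        by_cases ht : χ t = 0
        · simp [ht]
        · have s5 := hn₀ (j + (m + m₀)) (by omega)
          have s6 : vlog θ ((comp L ^ j) ((comp L ^ (m + m₀)) (X t))) = 0 := by
            refine hθv _ (not_lt.1 fun s7 => s5 ⟨t, hsub' (hχs (subset_tsupport _ ht)), ?_⟩)
            rwa [pow_add, Equiv.Perm.mul_apply]
          simp [s6]
      rw [s4, zero_sub, neg_div, neg_neg]
    have s3 := hK (fun q => J ^ j * θ ((comp L ^ j) q)) (J ^ j * B) (t1 θ hθ).1.continuous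
      (t1 θ hθ).2 (fun q => by
        rw [abs_mul, abs_of_pos hJj]
        exact mul_le_mul_of_nonneg_left (hB _) hJj.le)
      (fun q hq => hR₁ j q (hr' _ (right_ne_zero_of_mul hq)))
    have s4 := le_of_tendsto (s2.sub_const _).abs s3
    have s5 : ∫ q, |J ^ j * θ ((comp L ^ j) q)| = A := by
      rw [hAd, ← t2 fun q => |θ q|]
      exact integral_congr_ae (ae_of_all _ fun q => by
        simp only [abs_mul, abs_of_pos hJj])
    have s6 : ∫ q : E, Real.log (max 1 ‖q.2‖) * (J ^ j * θ ((comp L ^ j) q)) =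
        ∫ q : E, Real.log (max 1 ‖(((comp L)⁻¹ ^ j) q).2‖) * θ q := by
      rw [← t2 fun q => Real.log (max 1 ‖(((comp L)⁻¹ ^ j) q).2‖) * θ q]
      refine integral_congr_ae (ae_of_all _ fun q => ?_)
      have s7 : ((comp L)⁻¹ ^ j) ((comp L ^ j) q) = q := by
        rw [inv_pow]
        exact (comp L ^ j).symm_apply_apply q
      simp only [s7]
      ring
    rw [s5, s6, zero_sub, abs_neg] at s4
    have hcl : Continuous fun q : E => Real.log (max 1 ‖(((comp L)⁻¹ ^ j) q).2‖) :=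
      (continuous_const.max (dif_pow h.di j).continuous.snd.norm).log fun z => by positivity
    have s7 : (deg L : ℝ) ^ j * G - C' * A ≤
        ∫ q : E, Real.log (max 1 ‖(((comp L)⁻¹ ^ j) q).2‖) * θ q := by
      have i1 := (hint _ h.symm.green_continuous).const_mul ((deg L : ℝ) ^ j)
      have i2 := (hθ.1.continuous.integrable_of_hasCompactSupport (μ := volume)
        hθ.2).abs.const_mul C'
      rw [hGd, hAd, ← integral_const_mul, ← integral_const_mul, ← integral_sub i1 i2]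
      refine integral_mono (i1.sub i2) (hint _ hcl) fun q => ?_
      by_cases hq : θ q = 0
      · simp [hq]
      · have s8 := (hC' j q (hr' q hq)).2
        change |Real.log (max 1 ‖(((comp L)⁻¹ ^ j) q).2‖) - _| ≤ C' at s8
        have s9 := mul_le_mul_of_nonneg_right s8 (abs_nonneg (θ q))
        rw [← abs_mul] at s9
        have s10 := (abs_le.1 s9).1
        dsimp only
        linarith
    have s8 : Real.log (1 + J ^ j * B) ≤ Real.log (1 + B) + j * Real.log (max 1 J) := by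
      have u1 : 1 ≤ max 1 J ^ j := one_le_pow₀ (le_max_left _ _)
      have u2 : J ^ j ≤ max 1 J ^ j := pow_le_pow_left₀ hJ.le (le_max_right _ _) j
      rw [← Real.log_pow, ← Real.log_mul (by positivity) (by positivity)]
      refine Real.log_le_log (by positivity) ?_
      nlinarith [mul_le_mul_of_nonneg_right u2 hB0]
    have s9 : 0 ≤ Real.log (1 + J ^ j * B) :=
      Real.log_nonneg (le_add_of_nonneg_right (by positivity))
    calc c * ((deg L : ℝ) ^ j * G - C' * A) ≤ _ := mul_le_mul_of_nonneg_left s7 hc0.le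
      _ ≤ _ := le_abs_self _
      _ ≤ _ := s4
      _ ≤ |K| * ((1 + Real.log (1 + J ^ j * B)) * A + 1) :=
        mul_le_mul_of_nonneg_right (le_abs_self K) (by positivity)
      _ ≤ _ := by gcongr
  obtain ⟨j, hj⟩ := VEq_grow h.hd (mul_pos hc0 hθG)
    (|K| * ((1 + Real.log (1 + B)) * A + 1) + c * (C' * A)) (|K| * Real.log (max 1 J) * A)
  nlinarith [key j]

end Pool.Agent.Lib.MP_7b5e47_an.Hn
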