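import Pool.Agent.Lib.MP_7b5e47_an.Hn.WFund

namespace Pool.Agent.Lib.MP_7b5e47_an.Hn

open Filter Topology Set Metric MeasureTheory

open scoped ContDiff

/-! The double logarithmic potential. -/

/-- vertical potential -/
noncomputable def vlog (θ : E → ℝ) (q : E) : ℝ := ∫ y, Real.log ‖y - q.2‖ * θ (q.1, y)

/-- horizontal potential -/
noncomputable def hlog (θ : E → ℝ) (q : E) : ℝ := ∫ x, Real.log ‖x - q.1‖ * θ (x, q.2)

noncomputable def VV (χ : ℂ → ℝ) (Z : ℂ → E) (θ : E → ℝ) : ℝ :=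
  ∫ t, χ t * (‖(deriv Z t).1‖ ^ 2 * vlog θ (Z t))

noncomputable def HH (χ : ℂ → ℝ) (Z : ℂ → E) (θ : E → ℝ) : ℝ :=
  ∫ t, χ t * (‖(deriv Z t).2‖ ^ 2 * hlog θ (Z t))

theorem VPhi_conv (g : ℂ → ℝ) (x : ℂ) : ∫ y, Real.log ‖y - x‖ * g y =
    convolution (fun y : ℂ => Real.log ‖y‖) g (ContinuousLinearMap.mul ℝ ℝ) volume x := by
  rw [convolution_def, ← integral_sub_left_eq_self _ _ x]
  simp

theorem VPhi_smooth {g : E → ℂ → ℝ} {v : E → ℂ} {ρ : ℝ} (hg : ContDiff ℝ ∞ fun p : E × ℂ => g p.1 p.2)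
    (h0 : ∀ p x, ρ ≤ ‖x‖ → g p x = 0) (hv : ContDiff ℝ ∞ v) :
    ContDiff ℝ ∞ fun p => ∫ y, Real.log ‖y - v p‖ * g p y := by
  simp only [VPhi_conv]
  exact contDiffOn_univ.1 (contDiffOn_convolution_right_with_param_comp _ hv.contDiffOn
    isOpen_univ (isCompact_closedBall 0 ρ)
    (fun p x _ hx => h0 p x (not_le.1 (mt mem_closedBall_zero_iff.2 hx)).le) locInt_log
    hg.contDiffOn)

theorem VPhi_swap {θ : E → ℝ} (hs : HasCompactSupport θ) :
    HasCompactSupport fun q : E => θ (q.2, q.1) :=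
  hs.comp_homeomorph (Homeomorph.prodComm ℂ ℂ)

/-- translate the variable of integration; dominated convergence with `locInt_log` -/
theorem continuous_vlog {θ : E → ℝ} (hc : Continuous θ) (hs : HasCompactSupport θ) :
    Continuous (vlog θ) := by
  obtain ⟨ρ, -, h⟩ := hs.exists_pos_le_norm
  unfold vlog
  simp only [VPhi_conv]
  exact continuousOn_univ.1 (continuousOn_convolution_right_with_param_comp _
    continuous_snd.continuousOn (g := fun (p : E) y => θ (p.1, y)) (isCompact_closedBall 0 ρ)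
    (fun p x _ hx => h _ ((not_le.1 (mt mem_closedBall_zero_iff.2 hx)).le.trans
      (norm_snd_le (p.1, x)))) locInt_log
    (hc.comp (continuous_fst.fst.prodMk continuous_snd)).continuousOn)

theorem continuous_hlog {θ : E → ℝ} (hc : Continuous θ) (hs : HasCompactSupport θ) :
    Continuous (hlog θ) :=
  (continuous_vlog (hc.comp continuous_swap) (VPhi_swap hs)).comp continuous_swap

/-- the double potential -/
noncomputable def VPhi_J (θ : E → ℝ) (q : E) : ℝ :=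
  ∫ p : E, Real.log ‖p.1 - q.1‖ * Real.log ‖p.2 - q.2‖ * θ p

theorem VPhi_sw (θ : E → ℝ) (x y : ℂ) :
    VPhi_J (fun q => θ (q.2, q.1)) (y, x) = VPhi_J θ (x, y) := by
  rw [VPhi_J, VPhi_J, Measure.volume_eq_prod, ← integral_prod_swap]
  simp only [Prod.fst_swap, Prod.snd_swap, mul_comm (Real.log ‖_ - y‖)]

theorem VPhi_int {θ : E → ℝ} (hc : Continuous θ) (hs : HasCompactSupport θ) (q : E) :
    Integrable fun p : E => Real.log ‖p.1 - q.1‖ * Real.log ‖p.2 - q.2‖ * θ p := by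
  obtain ⟨ρ, -, h⟩ := hs.exists_pos_le_norm
  obtain ⟨M, hM⟩ := hc.bounded_above_of_compact_support hs
  have h1 : ∀ X : ℂ, Integrable ((closedBall 0 ρ).indicator fun x : ℂ => Real.log ‖x - X‖) := by
    intro X
    refine ((((integrable_indicator_iff measurableSet_closedBall).2 (locInt_log.integrableOn_isCompact
      (isCompact_closedBall (-X) ρ))).comp_sub_right X).congr (Eventually.of_forall fun x => ?_))
    simp [indicator, dist_eq_norm]
  refine (((h1 q.1).mul_prod (h1 q.2)).mul_bdd hc.aestronglyMeasurable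
    (Eventually.of_forall hM)).congr (Eventually.of_forall fun p => ?_)
  rcases le_total ρ ‖p‖ with e | e
  · simp [h p e]
  · simp [(norm_fst_le p).trans e, (norm_snd_le p).trans e]

theorem VPhi_eq {θ : E → ℝ} (hc : Continuous θ) (hs : HasCompactSupport θ) :
    VPhi_J θ = hlog (vlog θ) := by
  ext q
  rw [VPhi_J, Measure.volume_eq_prod, integral_prod _ (VPhi_int hc hs q)]
  simp only [hlog, vlog, mul_assoc, integral_const_mul]

theorem VPhi_log {a b : ℂ} {m : ℝ} (hm : 0 < m) (ha : m ≤ ‖a‖) (hb : m ≤ ‖b‖) :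
    |Real.log ‖a‖ - Real.log ‖b‖| ≤ ‖a - b‖ / m := by
  have key : ∀ a b : ℂ, m ≤ ‖a‖ → m ≤ ‖b‖ → Real.log ‖a‖ - Real.log ‖b‖ ≤ ‖a - b‖ / m := by
    intro a b ha hb
    have h1 := hm.trans_le hb
    rw [← Real.log_div (hm.trans_le ha).ne' h1.ne']
    refine (Real.log_le_sub_one_of_pos (div_pos (hm.trans_le ha) h1)).trans ?_
    rw [div_sub_one h1.ne']
    exact div_le_div₀ (norm_nonneg _) (norm_sub_norm_le a b) hm hb
  rw [abs_sub_le_iff]
  exact ⟨key a b ha hb, norm_sub_rev a b ▸ key b a hb ha⟩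

theorem VPhi_pt {ρ : ℝ} {x y X X' Y : ℂ} (hx : ‖x‖ ≤ ρ) (hy : ‖y‖ ≤ ρ) (hX : 4 * ρ + 3 ≤ ‖X‖)
    (hY : 4 * ρ + 3 ≤ ‖Y‖) (hX' : ‖X' - X‖ ≤ ρ) :
    |Real.log ‖x - X'‖ * Real.log ‖y - Y‖ - Real.log ‖x - X‖ * Real.log ‖y - Y‖ -
      (Real.log ‖X'‖ - Real.log ‖X‖) * Real.log ‖Y‖| ≤
      8 * ρ * (Real.log ‖Y‖ / ‖X‖ ^ 2 + 1 / (‖X‖ * ‖Y‖)) * ‖X' - X‖ := by
  have h0 := (norm_nonneg x).trans hx
  have a0 : 0 < ‖X‖ := by linarith
  have b0 : 0 < ‖Y‖ := by linarith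
  have a1 : ‖X‖ / 2 ≤ ‖X'‖ := by linarith [norm_le_norm_add_norm_sub X' X]
  have a2 : ‖X‖ / 2 ≤ ‖x - X‖ := by linarith [norm_le_norm_add_norm_sub x X]
  have a3 : ‖X‖ / 2 ≤ ‖x - X'‖ := by
    linarith [norm_le_norm_add_norm_sub x X', norm_le_norm_add_norm_sub X' X]
  have b1 : ‖Y‖ / 2 ≤ ‖Y - y‖ := by linarith [norm_le_norm_sub_add Y y]
  have b2 : 1 ≤ Real.log ‖Y‖ := (Real.le_log_iff_exp_le b0).2 (by linarith [Real.exp_one_lt_three])
  have c1 := VPhi_log (a := (x - X') * X) (b := (x - X) * X') (m := ‖X‖ / 2 * (‖X‖ / 2))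
    (by positivity) (by rw [norm_mul]; gcongr; linarith) (by rw [norm_mul]; gcongr)
  rw [norm_mul, norm_mul, Real.log_mul (by linarith) a0.ne', Real.log_mul (by linarith)
    (by linarith), show (x - X') * X - (x - X) * X' = -(x * (X' - X)) by ring, norm_neg,
    norm_mul] at c1
  have c2 := VPhi_log (half_pos a0) a1 (half_le_self a0.le)
  have c3 := VPhi_log (half_pos b0) b1 (half_le_self b0.le)
  rw [sub_sub_cancel_left, norm_neg, norm_sub_rev] at c3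
  have c4 : |Real.log ‖y - Y‖| ≤ 2 * Real.log ‖Y‖ := by
    have : ‖y‖ / (‖Y‖ / 2) ≤ 1 := (div_le_one (half_pos b0)).2 (by linarith)
    obtain ⟨d1, d2⟩ := abs_le.1 c3
    rw [abs_le]
    constructor <;> linarith
  calc _ = |(Real.log ‖x - X'‖ + Real.log ‖X‖ - (Real.log ‖x - X‖ + Real.log ‖X'‖)) *
        Real.log ‖y - Y‖ + (Real.log ‖X'‖ - Real.log ‖X‖) * (Real.log ‖y - Y‖ - Real.log ‖Y‖)| := by
        congr 1
        ring
    _ ≤ ρ * ‖X' - X‖ / (‖X‖ / 2 * (‖X‖ / 2)) * (2 * Real.log ‖Y‖) +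
        ‖X' - X‖ / (‖X‖ / 2) * (2 * ρ / (‖Y‖ / 2)) := by
        refine (abs_add_le _ _).trans ?_
        rw [abs_mul, abs_mul]
        gcongr
        · exact c1.trans (by gcongr)
        · exact c3.trans (by gcongr; linarith)
    _ = _ := by
        field_simp
        ring

theorem VPhi_half {θ : E → ℝ} (hθ : Tst2 θ) (h0 : ∫ q, θ q = 0) : ContDiff ℝ ∞ (VPhi_J θ) ∧
    (∀ X Y : ℂ, lap (fun x => VPhi_J θ (x, Y)) X = 2 * Real.pi * vlog θ (X, Y)) ∧
    ∃ R C : ℝ, 3 ≤ R ∧ 0 ≤ C ∧ ∀ X Y : ℂ, R ≤ ‖X‖ → R ≤ ‖Y‖ →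
      ‖fderiv ℝ (fun x => VPhi_J θ (x, Y)) X‖ ≤
        C * (Real.log ‖Y‖ / ‖X‖ ^ 2 + 1 / (‖X‖ * ‖Y‖)) := by
  obtain ⟨ρ, hρ, h⟩ := hθ.2.exists_pos_le_norm
  have hc := hθ.1.continuous
  have h1 : ContDiff ℝ ∞ (vlog θ) := VPhi_smooth (g := fun p y => θ (p.1, y))
    (hθ.1.comp (contDiff_fst.fst.prodMk contDiff_snd))
    (fun p x hx => h _ (hx.trans (norm_snd_le (p.1, x)))) contDiff_snd
  have h2 : ∀ x y : ℂ, ρ ≤ ‖x‖ → vlog θ (x, y) = 0 := fun x y hx => by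
    simp [vlog, fun y => h (x, y) (hx.trans (norm_fst_le (x, y)))]
  refine ⟨?_, fun X Y => ?_, 4 * ρ + 3, 8 * ρ * ∫ p, ‖θ p‖, by linarith, by positivity,
    fun X Y hX hY => ?_⟩
  · rw [VPhi_eq hc hθ.2]
    exact VPhi_smooth (g := fun p x => vlog θ (x, p.2))
      (h1.comp (contDiff_snd.prodMk contDiff_fst.snd)) (fun p x => h2 x p.2) contDiff_fst
  · rw [VPhi_eq hc hθ.2]
    exact lap_lpot (ρ := fun x => vlog θ (x, Y)) ⟨h1.comp (contDiff_id.prodMk contDiff_const),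
      HasCompactSupport.intro (isCompact_closedBall 0 ρ) fun x hx =>
        h2 x Y (not_le.1 (mt mem_closedBall_zero_iff.2 hx)).le⟩ X
  · have h3 := Real.log_nonneg (show 1 ≤ ‖Y‖ by linarith)
    have h4 := hc.integrable_of_hasCompactSupport (μ := volume) hθ.2
    refine norm_fderiv_le_of_lip' ℝ (by positivity) ?_
    filter_upwards [closedBall_mem_nhds X hρ] with X' hX'
    have h5 := VPhi_int hc hθ.2 (X', Y)
    have h6 := VPhi_int hc hθ.2 (X, Y)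
    have h7 := integral_const_mul ((Real.log ‖X'‖ - Real.log ‖X‖) * Real.log ‖Y‖) θ (μ := volume)
    rw [h0, mul_zero] at h7
    rw [VPhi_J, VPhi_J, ← integral_sub h5 h6, ← sub_zero (∫ _, _), ← h7,
      ← integral_sub (h5.sub' h6) (h4.const_mul _)]
    refine (norm_integral_le_of_norm_le (h4.norm.const_mul
      (8 * ρ * (Real.log ‖Y‖ / ‖X‖ ^ 2 + 1 / (‖X‖ * ‖Y‖)) * ‖X' - X‖))
      (Eventually.of_forall fun p => ?_)).trans_eq (by rw [integral_const_mul]; ring)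
    rcases le_total ρ ‖p‖ with e | e
    · simp [h p e]
    · rw [← sub_mul, ← sub_mul, norm_mul]
      exact mul_le_mul_of_nonneg_right (VPhi_pt ((norm_fst_le p).trans e) ((norm_snd_le p).trans e)
        hX hY (mem_closedBall_iff_norm.1 hX')) (norm_nonneg _)

/-- `Φ q = ∫ θ (x, y) log ‖x - q.1‖ log ‖y - q.2‖`, a convolution on `E` of `θ` with a locally
integrable kernel, so smooth. For fixed `Y` it is `lpot (fun x => vlog θ (x, Y))`, a potential of a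
test function (`vlog θ (·, Y)` is smooth with compact support: again a convolution), so `lap_lpot`
applies. Far away, differentiate under the integral sign (`hasFDerivAt_integral_of_dominated_of_
fderiv_le`): the derivative in direction `(v, 0)` is `∫ θ (x, y) re (v / (X - x)) log ‖y - Y‖`;
subtract `re (v / X) log ‖Y‖ ∫ θ = 0`. The second bound is the first one for `θ ∘ sw`. -/
theorem exists_phi {θ : E → ℝ} (hθ : Tst2 θ) (h0 : ∫ q, θ q = 0) : ∃ Φ : E → ℝ,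
    ContDiff ℝ 2 Φ ∧ (∀ q : E, lap (fun x => Φ (x, q.2)) q.1 = 2 * Real.pi * vlog θ q) ∧
    (∀ q : E, lap (fun y => Φ (q.1, y)) q.2 = 2 * Real.pi * hlog θ q) ∧
    ∃ R C : ℝ, 3 ≤ R ∧ 0 ≤ C ∧ ∀ q : E, R ≤ ‖q.1‖ → R ≤ ‖q.2‖ → ∀ v : ℂ,
      |fderiv ℝ Φ q (v, 0)| ≤ C * ‖v‖ * (Real.log ‖q.2‖ / ‖q.1‖ ^ 2 + 1 / (‖q.1‖ * ‖q.2‖)) ∧
      |fderiv ℝ Φ q (0, v)| ≤ C * ‖v‖ * (Real.log ‖q.1‖ / ‖q.2‖ ^ 2 + 1 / (‖q.1‖ * ‖q.2‖)) := by
  obtain ⟨a1, a2, R, C, a3, a4, a5⟩ := VPhi_half hθ h0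
  obtain ⟨-, b2, R', C', b3, b4, b5⟩ := VPhi_half (θ := fun q => θ (q.2, q.1))
    ⟨hθ.1.comp (contDiff_snd.prodMk contDiff_fst), VPhi_swap hθ.2⟩
    ((integral_prod_swap θ).trans h0)
  simp only [VPhi_sw] at b2 b5
  refine ⟨VPhi_J θ, a1.of_le (by norm_cast), fun q => a2 q.1 q.2, fun q => b2 q.2 q.1, max R R',
    C + C', le_max_of_le_left a3, add_nonneg a4 b4, fun q h1 h2 v => ?_⟩
  rw [max_le_iff] at h1 h2
  have h3 := (a1.differentiable (by simp) q).hasFDerivAt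
  have h4 := Real.log_nonneg (show 1 ≤ ‖q.1‖ by linarith [h1.1])
  have h5 := Real.log_nonneg (show 1 ≤ ‖q.2‖ by linarith [h2.1])
  constructor
  · have h6 := (fderiv ℝ (fun x => VPhi_J θ (x, q.2)) q.1).le_of_opNorm_le (a5 _ _ h1.1 h2.1) v
    have h7 : HasFDerivAt (fun x => VPhi_J θ (x, q.2)) _ q.1 :=
      HasFDerivAt.comp q.1 (f := fun x => (x, q.2)) h3 (hasFDerivAt_prodMk_left q.1 q.2)
    rw [h7.fderiv] at h6
    refine le_trans h6 ?_
    rw [mul_right_comm]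
    gcongr
    linarith
  · have h6 := (fderiv ℝ (fun y => VPhi_J θ (q.1, y)) q.2).le_of_opNorm_le (b5 _ _ h2.2 h1.2) v
    have h7 : HasFDerivAt (fun y => VPhi_J θ (q.1, y)) _ q.2 :=
      HasFDerivAt.comp q.2 (f := fun y => (q.1, y)) h3 (hasFDerivAt_prodMk_right q.1 q.2)
    rw [h7.fderiv, mul_comm ‖q.2‖] at h6
    refine le_trans h6 ?_
    rw [mul_right_comm]
    gcongr
    linarith

end Pool.Agent.Lib.MP_7b5e47_an.Hn
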