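import Pool.Agent.Lib.MP_7b5e47_an.Hn.WFund

namespace Pool.Agent.Lib.MP_7b5e47_an.Hn

open Filter Topology Set Metric MeasureTheory

/-! Area formulas for polynomials, weighted area bounds, a radial test function. -/

theorem WArea_int_log {g : ℂ → ℝ} (hg : Tst g) (a : ℂ) :
    Integrable (fun t => Real.log ‖t - a‖ * g t) := by
  have h1 : Integrable (fun y => Real.log ‖y‖ • g (y + a)) :=
    locInt_log.integrable_smul_right_of_hasCompactSupport
      (hg.1.continuous.comp (continuous_add_const a))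
      (hg.2.comp_homeomorph (Homeomorph.addRight a))
  have h2 := h1.comp_sub_right a
  simpa using h2

theorem WArea_log_prod {χ : ℂ → ℝ} (hχ : Tst χ) {c : ℂ} (hc : c ≠ 0) (s : Multiset ℂ) :
    Integrable (fun t => Real.log ‖c * (s.map (t - ·)).prod‖ * lap χ t) ∧
    ∫ t, Real.log ‖c * (s.map (t - ·)).prod‖ * lap χ t = 2 * Real.pi * (s.map χ).sum := by
  have hl : Integrable (lap χ) := hχ.lap.1.continuous.integrable_of_hasCompactSupport hχ.lap.2
  induction s using Multiset.induction_on with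
  | empty =>
    simp only [Multiset.map_zero, Multiset.prod_zero, mul_one, Multiset.sum_zero, mul_zero]
    exact ⟨hl.const_mul _, by rw [integral_const_mul, integral_lap hχ, mul_zero]⟩
  | cons a s ih =>
    have hae : (fun t => Real.log ‖c * ((a ::ₘ s).map (t - ·)).prod‖ * lap χ t) =ᵐ[volume]
        fun t => Real.log ‖t - a‖ * lap χ t +
          Real.log ‖c * (s.map (t - ·)).prod‖ * lap χ t := by
      have hfin : ({t : ℂ | t ∈ a ::ₘ s}).Finite := (a ::ₘ s).finite_toSet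
      filter_upwards [hfin.countable.ae_notMem volume] with t ht
      simp only [Multiset.mem_cons, not_or] at ht
      have h1 : t - a ≠ 0 := sub_ne_zero.2 ht.1
      have h2 : c * (s.map (t - ·)).prod ≠ 0 := by
        refine mul_ne_zero hc (Multiset.prod_ne_zero ?_)
        intro h
        obtain ⟨b, hb, hb0⟩ := Multiset.mem_map.1 h
        exact ht.2 (by rw [sub_eq_zero.1 hb0]; exact hb)
      rw [Multiset.map_cons, Multiset.prod_cons, mul_left_comm, norm_mul,
        Real.log_mul (norm_ne_zero_iff.2 h1) (norm_ne_zero_iff.2 h2), add_mul]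
    have hi := WArea_int_log hχ.lap a
    refine ⟨(hi.add ih.1).congr hae.symm, ?_⟩
    rw [integral_congr_ae hae, integral_add hi ih.1, ih.2, fund hχ a, Multiset.map_cons,
      Multiset.sum_cons, mul_add]

theorem WArea_log_poly {χ : ℂ → ℝ} (hχ : Tst χ) {Q : Polynomial ℂ} (hQ : Q ≠ 0)
    (h1 : ∀ a, Q.eval a = 0 → χ a = 1) :
    ∫ t, Real.log ‖Q.eval t‖ * lap χ t = 2 * Real.pi * Q.natDegree := by
  have h := (WArea_log_prod hχ (Polynomial.leadingCoeff_ne_zero.2 hQ) Q.roots).2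
  simp only [← (IsAlgClosed.splits Q).eval_eq_prod_roots] at h
  rw [h, Multiset.map_congr rfl (g := fun _ => (1 : ℝ))
    (fun a ha => h1 a ((Polynomial.mem_roots hQ).1 ha))]
  simp [IsAlgClosed.card_roots_eq_natDegree]

/-- For `natDegree P = n ≥ 1` apply `ident` with `χ (t / R)`, `χ = 1` near `0`: the left side is
constant for large `R`; the right side is `∫ lpot ρ (P (R t)) Δχ t`, where on the support of `Δχ`
(an annulus) `lpot ρ (P (R t)) = (∫ ρ) (n log ‖t‖ + const R) + o(1)` (`lpot_far`); use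
`integral_lap` and `fund`. -/
theorem area_poly {ρ : ℂ → ℝ} (hρ : Tst ρ) (P : Polynomial ℂ) :
    Integrable (fun t => ‖P.derivative.eval t‖ ^ 2 * ρ (P.eval t)) ∧
    ∫ t, ‖P.derivative.eval t‖ ^ 2 * ρ (P.eval t) = P.natDegree * ∫ y, ρ y := by
  rcases Nat.eq_zero_or_pos P.natDegree with h0 | hpos
  · have hd : P.derivative = 0 := Polynomial.derivative_of_natDegree_zero h0
    simp [hd, h0]
  have hdeg : 0 < P.degree := Polynomial.natDegree_pos_iff_degree_pos.1 hpos
  have hK : IsCompact ((fun t => P.eval t) ⁻¹' tsupport ρ) :=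
    (P.isProperMap_eval hdeg).isCompact_preimage hρ.2
  have hPc : Continuous fun t => P.eval t := P.continuous
  have hint : Integrable (fun t => ‖P.derivative.eval t‖ ^ 2 * ρ (P.eval t)) := by
    refine Continuous.integrable_of_hasCompactSupport
      ((P.derivative.continuous.norm.pow 2).mul (hρ.1.continuous.comp hPc)) ?_
    refine HasCompactSupport.intro hK fun t ht => ?_
    rw [image_eq_zero_of_notMem_tsupport ht, mul_zero]
  refine ⟨hint, ?_⟩
  obtain ⟨χ, hχ, -, -, h1⟩ := exists_cutoff hK isOpen_univ (subset_univ _)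
  have h1' : ∀ t, P.eval t ∈ tsupport ρ → ∀ᶠ s in 𝓝 t, χ s = 1 := fun t ht =>
    h1.filter_mono (nhds_le_nhdsSet (x := t) ht)
  have hid := ident hχ hρ isOpen_univ (subset_univ _) (X := fun t => P.eval t)
    P.differentiable.differentiableOn
  have hL : ∫ t, χ t * (‖deriv (fun t => P.eval t) t‖ ^ 2 * ρ (P.eval t)) =
      ∫ t, ‖P.derivative.eval t‖ ^ 2 * ρ (P.eval t) := by
    refine integral_congr_ae (Eventually.of_forall fun t => ?_)
    simp only [Polynomial.deriv]
    by_cases ht : P.eval t ∈ tsupport ρ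
    · rw [(h1' t ht).self_of_nhds, one_mul]
    · rw [image_eq_zero_of_notMem_tsupport ht, mul_zero, mul_zero]
  have hF : Integrable (Function.uncurry fun t y : ℂ =>
      Real.log ‖y - P.eval t‖ * ρ y * lap χ t) (volume.prod volume) := by
    refine Continuous.integrable_of_hasCompactSupport ?_ ?_
    · refine continuous_iff_continuousAt.2 fun p => ?_
      by_cases hp : p.2 - P.eval p.1 = 0
      · by_cases hy : p.2 ∈ tsupport ρ
        · have h2 : lap χ =ᶠ[𝓝 p.1] 0 := by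
            have h3 : χ =ᶠ[𝓝 p.1] fun _ => (1 : ℝ) := h1' p.1 (by rwa [← sub_eq_zero.1 hp])
            have h4 := InnerProductSpace.laplacian_congr_nhds h3
            rwa [InnerProductSpace.laplacian_const] at h4
          refine (continuousAt_const (y := (0 : ℝ))).congr ?_
          filter_upwards [continuous_fst.continuousAt.eventually h2] with q hq
          simp only [Pi.zero_apply] at hq
          simp [Function.uncurry, hq]
        · have h2 : ρ =ᶠ[𝓝 p.2] 0 := notMem_tsupport_iff_eventuallyEq.1 hy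
          refine (continuousAt_const (y := (0 : ℝ))).congr ?_
          filter_upwards [continuous_snd.continuousAt.eventually h2] with q hq
          simp only [Pi.zero_apply] at hq
          simp [Function.uncurry, hq]
      · refine ContinuousAt.mul (ContinuousAt.mul ?_ ?_) ?_
        · exact ((continuous_snd.sub (hPc.comp continuous_fst)).norm.continuousAt).log
            (norm_ne_zero_iff.2 hp)
        · exact (hρ.1.continuous.comp continuous_snd).continuousAt
        · exact (hχ.lap.1.continuous.comp continuous_fst).continuousAt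
    · refine HasCompactSupport.intro (hχ.lap.2.prod hρ.2) fun p hp => ?_
      rcases not_and_or.1 hp with h | h
      · simp [Function.uncurry, image_eq_zero_of_notMem_tsupport h]
      · simp [Function.uncurry, image_eq_zero_of_notMem_tsupport h]
  have hR : ∫ t, lpot ρ (P.eval t) * lap χ t = 2 * Real.pi * (P.natDegree * ∫ y, ρ y) := by
    have e1 : ∀ t, lpot ρ (P.eval t) * lap χ t =
        ∫ y, Real.log ‖y - P.eval t‖ * ρ y * lap χ t := fun t => by
      rw [integral_mul_const, lpot]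
    simp only [e1]
    rw [integral_integral_swap hF, ← mul_assoc, ← integral_const_mul]
    refine integral_congr_ae (Eventually.of_forall fun y => ?_)
    by_cases hy : y ∈ tsupport ρ
    · have hnd : (P - Polynomial.C y).natDegree = P.natDegree := Polynomial.natDegree_sub_C
      have hQ : P - Polynomial.C y ≠ 0 := by
        intro h
        rw [h, Polynomial.natDegree_zero] at hnd
        omega
      have h2 := WArea_log_poly hχ hQ (fun a ha => by
        rw [Polynomial.eval_sub, Polynomial.eval_C, sub_eq_zero] at ha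
        exact (h1' a (by rwa [ha])).self_of_nhds)
      rw [hnd] at h2
      simp only [Polynomial.eval_sub, Polynomial.eval_C] at h2
      have e2 : ∀ t, Real.log ‖y - P.eval t‖ * ρ y * lap χ t =
          Real.log ‖P.eval t - y‖ * lap χ t * ρ y := fun t => by
        rw [norm_sub_rev]; ring
      simp only [e2]
      rw [integral_mul_const, h2]
    · simp [image_eq_zero_of_notMem_tsupport hy]
  rw [hL, hR] at hid
  exact mul_left_cancel₀ (by positivity) hid

theorem area_poly_le (r : ℝ) : ∃ C : ℝ, 0 ≤ C ∧ ∀ P : Polynomial ℂ,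
    IntegrableOn (fun t => ‖P.derivative.eval t‖ ^ 2) {t | ‖P.eval t‖ ≤ r} ∧
    ∫ t in {t | ‖P.eval t‖ ≤ r}, ‖P.derivative.eval t‖ ^ 2 ≤ C * P.natDegree := by
  obtain ⟨ρ, hρ, -, h01, h1⟩ := exists_cutoff (isCompact_closedBall (0 : ℂ) r) isOpen_univ
    (subset_univ _)
  refine ⟨∫ y, ρ y, integral_nonneg fun y => (h01 y).1, fun P => ?_⟩
  obtain ⟨hi, he⟩ := area_poly hρ P
  have hm : MeasurableSet {t : ℂ | ‖P.eval t‖ ≤ r} :=
    (isClosed_le P.continuous.norm continuous_const).measurableSet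
  have heq : EqOn (fun t => ‖P.derivative.eval t‖ ^ 2 * ρ (P.eval t))
      (fun t => ‖P.derivative.eval t‖ ^ 2) {t : ℂ | ‖P.eval t‖ ≤ r} := fun t ht => by
    have : ρ (P.eval t) = 1 := h1.self_of_nhdsSet _ (mem_closedBall_zero_iff.2 ht)
    simp only [this, mul_one]
  refine ⟨(hi.integrableOn).congr_fun heq hm, ?_⟩
  rw [← setIntegral_congr_fun hm heq, mul_comm, ← he]
  exact setIntegral_le_integral hi
    (Eventually.of_forall fun t => mul_nonneg (sq_nonneg _) (h01 _).1)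

theorem WArea_cont_mul {χ f : ℂ → ℝ} {U : Set ℂ} (hχ : Continuous χ) (hU : IsOpen U)
    (hs : tsupport χ ⊆ U) (hf : ContinuousOn f U) : Continuous fun t => χ t * f t := by
  refine continuous_iff_continuousAt.2 fun t => ?_
  by_cases ht : t ∈ tsupport χ
  · exact hχ.continuousAt.mul (hf.continuousAt (hU.mem_nhds (hs ht)))
  · refine (continuousAt_const (y := (0 : ℝ))).congr ?_
    filter_upwards [notMem_tsupport_iff_eventuallyEq.1 ht] with q hq
    simp only [Pi.zero_apply] at hq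
    simp [hq]

theorem WArea_int_mul {χ f : ℂ → ℝ} {U : Set ℂ} (hχ : Tst χ) (hU : IsOpen U)
    (hs : tsupport χ ⊆ U) (hf : ContinuousOn f U) : Integrable fun t => χ t * f t :=
  (WArea_cont_mul hχ.1.continuous hU hs hf).integrable_of_hasCompactSupport hχ.2.mul_right

/-- the radial profile of the weight -/
noncomputable def WArea_b (ε : ℝ) (s : ℝ) : ℝ := (1 + s) ^ (-ε) + (ε + ε ^ 2) * Real.log (1 + s)

theorem WArea_b_smooth (ε : ℝ) {s : ℝ} (hs : 0 ≤ s) : ContDiffAt ℝ 2 (WArea_b ε) s := by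
  have h : (1 + s) ≠ 0 := by positivity
  unfold WArea_b
  refine ContDiffAt.add (ContDiffAt.rpow_const_of_ne (by fun_prop) h)
    (contDiffAt_const.mul (ContDiffAt.log (by fun_prop) h))

theorem WArea_b_deriv (ε : ℝ) {s : ℝ} (hs : -1 < s) :
    HasDerivAt (WArea_b ε) (-ε * (1 + s) ^ (-ε - 1) + (ε + ε ^ 2) * (1 + s)⁻¹) s := by
  have h : (1 + s) ≠ 0 := (by linarith : 0 < 1 + s).ne'
  have h1 : HasDerivAt (fun s : ℝ => 1 + s) 1 s := (hasDerivAt_id s).const_add 1
  have h2 := (h1.rpow_const (p := -ε) (Or.inl h)).add ((h1.log h).const_mul (ε + ε ^ 2))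
  refine h2.congr_deriv ?_
  simp

theorem WArea_b_lap (ε : ℝ) {s : ℝ} (hs : 0 ≤ s) :
    deriv (WArea_b ε) s + s * deriv (deriv (WArea_b ε)) s =
      (ε * (1 + s) ^ (-ε) * (ε * s - 1) + (ε + ε ^ 2)) / (1 + s) ^ 2 := by
  have hp : 0 < 1 + s := by positivity
  have he : deriv (WArea_b ε) =ᶠ[𝓝 s]
      fun s => -ε * (1 + s) ^ (-ε - 1) + (ε + ε ^ 2) * (1 + s)⁻¹ := by
    filter_upwards [lt_mem_nhds (show -1 < s by linarith)] with x hx
    exact (WArea_b_deriv ε hx).deriv
  have h1 : HasDerivAt (fun s : ℝ => 1 + s) 1 s := (hasDerivAt_id s).const_add 1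
  have h2 := ((h1.rpow_const (p := -ε - 1) (Or.inl hp.ne')).const_mul (-ε)).add
    ((h1.inv hp.ne').const_mul (ε + ε ^ 2))
  have h3 : deriv (deriv (WArea_b ε)) s = _ := he.deriv_eq.trans h2.deriv
  rw [h3, he.self_of_nhds]
  simp only [Real.rpow_sub_one hp.ne']
  field_simp
  ring

/-- With `W w = (1 + ‖w‖^2)^(-ε) + C₁ log (1 + ‖w‖^2)`, `lap_radial` gives
`lap W w = 4 ε (1 + s)^(-ε-2) (ε s - 1) + 4 C₁ (1 + s)^(-2) ≥ c (1 + s)^(-1-ε)` (`s = ‖w‖^2`,
WLOG `ε ≤ 1`, `C₁ = ε + ε^2`, `c = 4 ε^2`); `green_id` and `lap_comp`. -/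
theorem wab {χ : ℂ → ℝ} (hχ : Tst χ) (h0 : ∀ t, 0 ≤ χ t) {ε : ℝ} (hε : 0 < ε) : ∃ C : ℝ,
    ∀ (U : Set ℂ) (X : ℂ → ℂ) (D : ℝ), IsOpen U → tsupport χ ⊆ U → DifferentiableOn ℂ X U →
      1 ≤ D → (∀ t ∈ tsupport χ, Real.log (1 + ‖X t‖) ≤ D) →
      ∫ t, χ t * (‖deriv X t‖ ^ 2 / (1 + ‖X t‖ ^ 2) ^ (1 + ε)) ≤ C * D := by
  refine ⟨(4 * ε ^ 2)⁻¹ * ((1 + 2 * (ε + ε ^ 2)) * ∫ t, |lap χ t|),
    fun U X D hU hs hX hD hb => ?_⟩
  have hA : ∀ t ∈ U, AnalyticAt ℂ X t := fun t ht => hX.analyticAt (hU.mem_nhds ht)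
  have hW : ∀ w : ℂ, ContDiffAt ℝ 2 (fun z : ℂ => WArea_b ε (‖z‖ ^ 2)) w := fun w =>
    (WArea_b_smooth ε (sq_nonneg ‖w‖)).comp w (contDiff_norm_sq ℝ).contDiffAt
  have hu : ContDiffOn ℝ 2 (fun t => WArea_b ε (‖X t‖ ^ 2)) U := fun t ht =>
    ((hW (X t)).comp t ((hA t ht).contDiffAt.restrict_scalars ℝ)).contDiffWithinAt
  have hg := green_id hχ hU hs hu
  have hlap : ∀ t ∈ U, lap (fun t => WArea_b ε (‖X t‖ ^ 2)) t = ‖deriv X t‖ ^ 2 *
      (4 * ((ε * (1 + ‖X t‖ ^ 2) ^ (-ε) * (ε * ‖X t‖ ^ 2 - 1) + (ε + ε ^ 2)) /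
        (1 + ‖X t‖ ^ 2) ^ 2)) := fun t ht => by
    rw [lap_comp (w := fun z : ℂ => WArea_b ε (‖z‖ ^ 2)) (hA t ht) (hW _),
      lap_radial (WArea_b_smooth ε (sq_nonneg _)), WArea_b_lap ε (sq_nonneg _)]
  have hXc : ContinuousOn X U := hX.continuousOn
  have hdc : ContinuousOn (deriv X) U := (hX.deriv hU).continuousOn
  have hn : ContinuousOn (fun t => 1 + ‖X t‖ ^ 2) U := continuousOn_const.add (hXc.norm.pow 2)
  have hp : ∀ t, 0 < 1 + ‖X t‖ ^ 2 := fun t => by positivity
  have hi1 : Integrable fun t => χ t * lap (fun t => WArea_b ε (‖X t‖ ^ 2)) t := by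
    refine WArea_int_mul hχ hU hs (ContinuousOn.congr ?_ hlap)
    refine (hdc.norm.pow 2).mul (continuousOn_const.mul (ContinuousOn.div ?_ (hn.pow 2)
      fun t _ => (pow_pos (hp t) 2).ne'))
    refine ContinuousOn.add (ContinuousOn.mul (continuousOn_const.mul ?_)
      ((continuousOn_const.mul (hXc.norm.pow 2)).sub continuousOn_const)) continuousOn_const
    exact hn.rpow_const fun t _ => Or.inl (hp t).ne'
  have h4 : 0 < 4 * ε ^ 2 := by positivity
  have step1 : ∫ t, 4 * ε ^ 2 * (χ t * (‖deriv X t‖ ^ 2 / (1 + ‖X t‖ ^ 2) ^ (1 + ε))) ≤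
      ∫ t, χ t * lap (fun t => WArea_b ε (‖X t‖ ^ 2)) t := by
    refine integral_mono_of_nonneg (Eventually.of_forall fun t => ?_) hi1
      (Eventually.of_forall fun t => ?_)
    · have := h0 t
      have := Real.rpow_pos_of_pos (hp t) (1 + ε)
      simp only [Pi.zero_apply]
      positivity
    · by_cases ht : t ∈ tsupport χ
      · simp only
        rw [hlap t (hs ht), mul_left_comm]
        refine mul_le_mul_of_nonneg_left ?_ (h0 t)
        rw [div_eq_mul_inv (‖deriv X t‖ ^ 2), mul_left_comm]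
        refine mul_le_mul_of_nonneg_left ?_ (sq_nonneg _)
        set s := ‖X t‖ ^ 2 with hs'
        have hs0 : 0 ≤ s := sq_nonneg _
        have hq : (1 + s) ^ (-ε) ≤ 1 :=
          Real.rpow_le_one_of_one_le_of_nonpos (by linarith) (by linarith)
        have e1 : ((1 + s) ^ (1 + ε))⁻¹ = (1 + s) ^ (-ε) * (1 + s) / (1 + s) ^ 2 := by
          have hps : 0 < 1 + s := by linarith
          rw [Real.rpow_add hps, Real.rpow_one, Real.rpow_neg hps.le]
          field_simp
        rw [e1, mul_assoc, ← mul_div_assoc]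
        refine mul_le_mul_of_nonneg_left (div_le_div_of_nonneg_right ?_ (sq_nonneg _))
          (by norm_num)
        have h5 : 0 ≤ (ε + ε ^ 2) * (1 - (1 + s) ^ (-ε)) :=
          mul_nonneg (by positivity) (by linarith)
        nlinarith
      · simp [image_eq_zero_of_notMem_tsupport ht]
  have hl : Integrable (lap χ) := hχ.lap.1.continuous.integrable_of_hasCompactSupport hχ.lap.2
  have step2 : ∫ t, WArea_b ε (‖X t‖ ^ 2) * lap χ t ≤
      ∫ t, (1 + 2 * (ε + ε ^ 2)) * D * |lap χ t| := by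
    refine (Real.le_norm_self _).trans (norm_integral_le_of_norm_le (hl.abs.const_mul _)
      (Eventually.of_forall fun t => ?_))
    by_cases ht : t ∈ tsupport χ
    · rw [Real.norm_eq_abs, abs_mul]
      refine mul_le_mul_of_nonneg_right ?_ (abs_nonneg _)
      have hq : (1 + ‖X t‖ ^ 2) ^ (-ε) ≤ 1 :=
        Real.rpow_le_one_of_one_le_of_nonpos (by nlinarith [sq_nonneg ‖X t‖]) (by linarith)
      have hq0 := Real.rpow_pos_of_pos (hp t) (-ε)
      have hl0 : 0 ≤ Real.log (1 + ‖X t‖ ^ 2) := Real.log_nonneg (by nlinarith [sq_nonneg ‖X t‖])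
      have hl1 : Real.log (1 + ‖X t‖ ^ 2) ≤ 2 * D := by
        have h6 : Real.log (1 + ‖X t‖ ^ 2) ≤ Real.log ((1 + ‖X t‖) ^ 2) :=
          Real.log_le_log (hp t) (by nlinarith [norm_nonneg (X t)])
        rw [Real.log_pow] at h6
        have := hb t ht
        push_cast at h6
        linarith
      have hc : 0 ≤ ε + ε ^ 2 := by positivity
      unfold WArea_b
      rw [abs_of_nonneg (by positivity)]
      nlinarith [mul_le_mul_of_nonneg_left hl1 hc]
    · have : lap χ t = 0 := image_eq_zero_of_notMem_tsupport fun h => ht (tsupport_lap χ h)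
      simp [this]
  rw [integral_const_mul, hg] at step1
  rw [integral_const_mul] at step2
  rw [mul_assoc, ← div_eq_inv_mul, le_div_iff₀ h4]
  nlinarith

theorem WArea_int_zero {j : ℝ → ℝ} {p q : ℝ} (h : ∀ x ∈ uIcc p q, j x = 0) :
    ∫ x in p..q, j x = 0 := by
  rw [intervalIntegral.integral_congr (g := fun _ => (0 : ℝ)) h, intervalIntegral.integral_zero]

/-- the radial profile of the test function -/
theorem WArea_profile {j : ℝ → ℝ} {a b l : ℝ} (ha : 0 < a) (hl : 1 ≤ l)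
    (hj : ContDiff ℝ ((⊤ : ℕ∞) : WithTop ℕ∞) j) (h0 : ∀ x, 0 ≤ j x)
    (hz : ∀ x, x ∉ Ioo a b → j x = 0) :
    ∃ β : ℝ → ℝ, ContDiff ℝ ((⊤ : ℕ∞) : WithTop ℕ∞) β ∧ (∀ s, 0 ≤ s → 0 ≤ β s) ∧
      (∀ s, 0 ≤ s → b ≤ s → β s = 0) ∧
      ∀ s, deriv β s + s * deriv (deriv β) s = j s - l * j (l * s) := by
  have hl0 : 0 < l := by linarith
  have hjc := hj.continuous
  set T : ℝ → ℝ := fun s => ∫ x in (0 : ℝ)..s, j x with hT
  have hTd : ∀ s, HasDerivAt T (j s) s := fun s => (hjc.integral_hasStrictDerivAt 0 s).hasDerivAt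
  have hTs : ContDiff ℝ ((⊤ : ℕ∞) : WithTop ℕ∞) T := by
    refine contDiff_infty_iff_deriv.2 ⟨fun s => (hTd s).differentiableAt, ?_⟩
    rwa [show deriv T = j from funext fun s => (hTd s).deriv]
  set J : ℝ → ℝ := fun s => T (l * s) - T s with hJ
  have hJe : ∀ s, J s = ∫ x in s..(l * s), j x := fun s =>
    intervalIntegral.integral_interval_sub_left (hjc.intervalIntegrable _ _)
      (hjc.intervalIntegrable _ _)
  have hJs : ContDiff ℝ ((⊤ : ℕ∞) : WithTop ℕ∞) J :=
    (hTs.comp (contDiff_const.mul contDiff_id)).sub hTs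
  have hJd : ∀ s, HasDerivAt J (j (l * s) * l - j s) s := fun s => by
    have h1 : HasDerivAt (fun s : ℝ => l * s) l s := by
      simpa using (hasDerivAt_id s).const_mul l
    exact ((hTd (l * s)).comp s h1).sub (hTd s)
  have hJ0 : ∀ s, 0 ≤ s → 0 ≤ J s := fun s hs => by
    rw [hJe]
    exact intervalIntegral.integral_nonneg (by nlinarith) fun x _ => h0 x
  have hJb : ∀ s, 0 ≤ s → b ≤ s → J s = 0 := fun s hs hb => by
    rw [hJe]
    refine WArea_int_zero fun x hx => hz x fun h => ?_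
    rw [uIcc_of_le (by nlinarith)] at hx
    linarith [hx.1, h.2]
  have hJa : ∀ s, s < a / l → J s = 0 := fun s hs => by
    rw [hJe]
    rw [lt_div_iff₀ hl0] at hs
    refine WArea_int_zero fun x hx => hz x fun h => ?_
    have h1 : x ≤ max s (l * s) := hx.2
    have h2 : s < a := by
      by_contra h3
      nlinarith
    have h3 : max s (l * s) < a := max_lt h2 (by linarith)
    linarith [h.1]
  set K : ℝ → ℝ := fun s => J s / s with hK
  have hKs : ContDiff ℝ ((⊤ : ℕ∞) : WithTop ℕ∞) K := by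
    refine contDiff_iff_contDiffAt.2 fun s => ?_
    by_cases hs : s = 0
    · refine (contDiffAt_const (c := (0 : ℝ))).congr_of_eventuallyEq ?_
      filter_upwards [gt_mem_nhds (show s < a / l by rw [hs]; positivity)] with x hx
      simp [hK, hJa x hx]
    · exact hJs.contDiffAt.div contDiffAt_id hs
  have hKc := hKs.continuous
  have hsK : (fun s => s * K s) = J := funext fun s => by
    by_cases hs : s = 0
    · rw [hs, zero_mul, hJa 0 (by positivity)]
    · simp only [hK]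
      field_simp
  have hβ : ∀ s, HasDerivAt (fun s => -∫ x in (max b 0)..s, K x) (-K s) s := fun s =>
    (hKc.integral_hasStrictDerivAt _ s).hasDerivAt.neg
  have hβ' : deriv (fun s => -∫ x in (max b 0)..s, K x) = fun s => -K s :=
    funext fun s => (hβ s).deriv
  have hβb : ∀ s, max b 0 ≤ s → -∫ x in (max b 0)..s, K x = 0 := fun s hs => by
    rw [WArea_int_zero, neg_zero]
    intro x hx
    rw [uIcc_of_le hs] at hx
    simp [hK, hJb x ((le_max_right _ _).trans hx.1) ((le_max_left _ _).trans hx.1)]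
  refine ⟨fun s => -∫ x in (max b 0)..s, K x, ?_, fun s hs => ?_,
    fun s hs hb => hβb s (max_le hb hs), fun s => ?_⟩
  · refine contDiff_infty_iff_deriv.2 ⟨fun s => (hβ s).differentiableAt, ?_⟩
    rw [hβ']
    exact hKs.neg
  · rcases le_total s (max b 0) with h | h
    · simp only
      rw [← intervalIntegral.integral_symm]
      exact intervalIntegral.integral_nonneg h fun x hx =>
        div_nonneg (hJ0 x (hs.trans hx.1)) (hs.trans hx.1)
    · exact (hβb s h).ge
  · rw [hβ']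
    have h1 : HasDerivAt K (deriv K s) s :=
      (hKs.differentiable (by simp) s).hasDerivAt
    have h2 : HasDerivAt (fun s => s * K s) (1 * K s + s * deriv K s) s :=
      (hasDerivAt_id s).mul h1
    rw [hsK] at h2
    have h3 := h2.unique (hJd s)
    have h4 : deriv (fun s => -K s) s = -deriv K s := h1.neg.deriv
    rw [h4]
    linarith

/-- Translate `y₀` to `0`. Take `y₁ ≠ 0` in the ball with `u y₁ > 0`, a smooth bump `j ≥ 0` on `ℝ`
supported in a small interval around `‖y₁‖^2` inside `(0, r^2)` and positive at `‖y₁‖^2`, and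
`j₁ s = λ j (λ s)`, `λ ≥ 1`. `J s = ∫_0^s (j₁ - j) ≥ 0` has compact support in `(0, r^2)`;
`β s = ∫_s^{r^2} J σ / σ` is smooth, nonnegative, zero near `r^2` and beyond, `s β' s = -J s`;
`χ y = β (‖y‖^2)` has `lap χ y = 4 (j - j₁) (‖y‖^2)` (`lap_radial`). `∫ u y j (‖y‖^2) > 0`, while
`∫ u y j₁ (‖y‖^2) = ∫ u (y / √λ) j (‖y‖^2) → 0` as `λ → ∞`. -/
theorem rad_test {u : ℂ → ℝ} {y₀ : ℂ} {r : ℝ} (hr : 0 < r) (hc : ContinuousOn u (ball y₀ r))
    (h0 : ∀ y, 0 ≤ u y) (hz : u y₀ = 0) (hf : ∃ᶠ y in 𝓝 y₀, u y ≠ 0) :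
    ∃ χ : ℂ → ℝ, Tst χ ∧ (∀ y, 0 ≤ χ y) ∧ tsupport χ ⊆ ball y₀ r ∧ 0 < ∫ y, u y * lap χ y := by
  obtain ⟨y₁, hu1, hy1⟩ := (hf.and_eventually (ball_mem_nhds y₀ hr)).exists
  have hne : y₁ - y₀ ≠ 0 := fun h => hu1 (by rw [sub_eq_zero.1 h, hz])
  have hs1 : 0 < ‖y₁ - y₀‖ ^ 2 := pow_pos (norm_pos_iff.2 hne) 2
  have hs2 : ‖y₁ - y₀‖ ^ 2 < r ^ 2 :=
    pow_lt_pow_left₀ (mem_ball_iff_norm.1 hy1) (norm_nonneg _) two_ne_zero
  set a := ‖y₁ - y₀‖ ^ 2 / 2 with ha
  set b := (‖y₁ - y₀‖ ^ 2 + r ^ 2) / 2 with hb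
  have ha0 : 0 < a := by positivity
  have hb0 : 0 < b := by positivity
  obtain ⟨j, hjs, -, hj, hj01, hj1⟩ := exists_contDiff_tsupport_subset (n := ⊤)
    (Ioo_mem_nhds (show a < ‖y₁ - y₀‖ ^ 2 by linarith) (show ‖y₁ - y₀‖ ^ 2 < b by linarith))
  have hj0 : ∀ x, 0 ≤ j x := fun x => (hj01 ⟨x, rfl⟩).1
  have hjz : ∀ x, x ∉ Ioo a b → j x = 0 := fun x hx =>
    image_eq_zero_of_notMem_tsupport fun h => hx (hjs h)
  have hN : ContDiff ℝ ((⊤ : ℕ∞) : WithTop ℕ∞) fun y : ℂ => ‖y - y₀‖ ^ 2 :=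
    (contDiff_id.sub contDiff_const).norm_sq ℝ
  have hB : closedBall y₀ (Real.sqrt b) ⊆ ball y₀ r :=
    closedBall_subset_ball ((Real.sqrt_lt' hr).2 (by linarith))
  have hout : ∀ y, y ∉ closedBall y₀ (Real.sqrt b) → b ≤ ‖y - y₀‖ ^ 2 := fun y hy => by
    rw [mem_closedBall_iff_norm, not_le] at hy
    exact (Real.sqrt_le_left (norm_nonneg _)).1 hy.le
  have key : ∀ g : ℝ → ℝ, ContDiff ℝ ((⊤ : ℕ∞) : WithTop ℕ∞) g →
      (∀ s, 0 ≤ s → b ≤ s → g s = 0) →
      Tst (fun y => g (‖y - y₀‖ ^ 2)) ∧ tsupport (fun y => g (‖y - y₀‖ ^ 2)) ⊆ ball y₀ r := by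
    intro g hg hgz
    refine ⟨⟨hg.comp hN, HasCompactSupport.intro (isCompact_closedBall y₀ (Real.sqrt b))
      fun y hy => hgz _ (sq_nonneg _) (hout y hy)⟩, Subset.trans ?_ hB⟩
    refine closure_minimal (fun y hy => ?_) isClosed_closedBall
    by_contra h
    exact hy (hgz _ (sq_nonneg _) (hout y h))
  obtain ⟨hJ, hJs⟩ := key j hj fun s _ hs => hjz s fun h => absurd h.2 (not_lt.2 hs)
  have hI : 0 < ∫ y, j (‖y - y₀‖ ^ 2) * u y := by
    refine (WArea_cont_mul hJ.1.continuous isOpen_ball hJs hc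
      ).integral_pos_of_hasCompactSupport_nonneg_nonzero (x := y₁) hJ.2.mul_right
      (fun y => mul_nonneg (hj0 _) (h0 y)) ?_
    simpa [hj1] using hu1
  have hM : 0 ≤ ∫ y, j (‖y - y₀‖ ^ 2) := integral_nonneg fun y => hj0 _
  set I := ∫ y, j (‖y - y₀‖ ^ 2) * u y with hI'
  set M := ∫ y, j (‖y - y₀‖ ^ 2) with hM'
  have hη : 0 < I / (M + 1) := by positivity
  have hca : ContinuousAt u y₀ := hc.continuousAt (ball_mem_nhds y₀ hr)
  obtain ⟨δ, hδ, hδu⟩ := Metric.eventually_nhds_iff.1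
    (hca.eventually (gt_mem_nhds (show u y₀ < I / (M + 1) by rwa [hz])))
  have hl : 1 ≤ 1 + b / δ ^ 2 := by
    have : 0 ≤ b / δ ^ 2 := by positivity
    linarith
  obtain ⟨β, hβ, hβ0, hβb, hβl⟩ := WArea_profile ha0 hl hj hj0 hjz
  set l := 1 + b / δ ^ 2 with hl'
  obtain ⟨hχ, hχs⟩ := key β hβ hβb
  refine ⟨_, hχ, fun y => hβ0 _ (sq_nonneg _), hχs, ?_⟩
  have hβ2 : ∀ s, ContDiffAt ℝ 2 β s := fun s =>
    (contDiff_infty.1 hβ 2).contDiffAt
  have hlap : ∀ y, lap (fun y => β (‖y - y₀‖ ^ 2)) y =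
      4 * (j (‖y - y₀‖ ^ 2) - l * j (l * ‖y - y₀‖ ^ 2)) := fun y => by
    rw [lap_comp (w := fun z : ℂ => β (‖z‖ ^ 2)) (X := fun y => y - y₀) (by fun_prop)
      ((hβ2 _).comp _ (contDiff_norm_sq ℝ).contDiffAt), lap_radial (hβ2 _), hβl]
    simp
  have i1 : Integrable fun y => lap (fun y => β (‖y - y₀‖ ^ 2)) y * u y :=
    WArea_int_mul hχ.lap isOpen_ball ((tsupport_lap _).trans hχs) hc
  have i2 : Integrable (lap fun y => β (‖y - y₀‖ ^ 2)) :=
    hχ.lap.1.continuous.integrable_of_hasCompactSupport hχ.lap.2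
  have i3 : Integrable fun y => j (‖y - y₀‖ ^ 2) * u y := WArea_int_mul hJ isOpen_ball hJs hc
  have i4 : Integrable fun y => j (‖y - y₀‖ ^ 2) :=
    hJ.1.continuous.integrable_of_hasCompactSupport hJ.2
  have hle : ∫ y, (4 * (j (‖y - y₀‖ ^ 2) * u y) - 4 * (I / (M + 1)) * j (‖y - y₀‖ ^ 2)) ≤
      ∫ y, (lap (fun y => β (‖y - y₀‖ ^ 2)) y * u y -
        I / (M + 1) * lap (fun y => β (‖y - y₀‖ ^ 2)) y) := by
    refine integral_mono ((i3.const_mul _).sub (i4.const_mul _)) (i1.sub (i2.const_mul _))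
      fun y => ?_
    simp only [hlap]
    have h5 : l * j (l * ‖y - y₀‖ ^ 2) * (u y - I / (M + 1)) ≤ 0 := by
      by_cases hy : dist y y₀ < δ
      · exact mul_nonpos_of_nonneg_of_nonpos (mul_nonneg (by linarith) (hj0 _))
          (by linarith [hδu hy])
      · rw [hjz (l * _), mul_zero, zero_mul]
        intro h
        rw [dist_eq_norm, not_lt] at hy
        have h6 : δ ^ 2 ≤ ‖y - y₀‖ ^ 2 := pow_le_pow_left₀ hδ.le hy 2
        have h7 : l * δ ^ 2 = δ ^ 2 + b := by
          rw [hl']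
          field_simp
        nlinarith [h.2, sq_nonneg δ]
    nlinarith
  rw [integral_sub (i3.const_mul _) (i4.const_mul _), integral_sub i1 (i2.const_mul _),
    integral_const_mul, integral_const_mul, integral_const_mul, integral_lap hχ] at hle
  have h8 : I / (M + 1) * M < I := by
    rw [div_mul_eq_mul_div, div_lt_iff₀ (by positivity)]
    nlinarith
  simp only [mul_comm (u _)]
  linarith

end Pool.Agent.Lib.MP_7b5e47_an.Hn
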