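import Pool.Agent.Lib.MP_7b5e47_an.Hn.VPhi
import Pool.Agent.Lib.MP_7b5e47_an.Hn.WArea

namespace Pool.Agent.Lib.MP_7b5e47_an.Hn

open Filter Topology Set Metric MeasureTheory

/-! Green reciprocity on a curve. -/

theorem VRecip_int {χ : ℂ → ℝ} (hχ : Tst χ) {U : Set ℂ} (hU : IsOpen U) (hs : tsupport χ ⊆ U)
    {g : ℂ → ℝ} (hg : ContinuousOn g U) : Integrable fun t => χ t * g t := by
  have hc : Continuous fun t => χ t * g t := by
    rw [continuous_iff_continuousAt]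
    intro t
    by_cases ht : t ∈ U
    · exact hχ.1.continuous.continuousAt.mul (hg.continuousAt (hU.mem_nhds ht))
    · have h1 : t ∉ tsupport χ := fun h => ht (hs h)
      have h2 : χ =ᶠ[𝓝 t] 0 := notMem_tsupport_iff_eventuallyEq.1 h1
      have h3 : (fun t => χ t * g t) =ᶠ[𝓝 t] fun _ => 0 := by
        filter_upwards [h2] with s hs
        simp [hs]
      exact continuousAt_const.congr h3.symm
  exact hc.integrable_of_hasCompactSupport hχ.2.mul_right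

theorem VRecip_supp (χ : ℂ → ℝ) (e : ℂ) : tsupport (fun t => fderiv ℝ χ t e) ⊆ tsupport χ := by
  refine Subset.trans ?_ (tsupport_fderiv_subset ℝ (f := χ))
  refine closure_mono fun t ht => ?_
  intro h
  exact ht (by simp [h])

theorem VRecip_lapx {Φ : E → ℝ} (hΦ : ContDiff ℝ 2 Φ) (q : E) (v : ℂ) :
    ‖v‖ ^ 2 * lap (fun x => Φ (x, q.2)) q.1 = fderiv ℝ (fderiv ℝ Φ) q (v, 0) (v, 0) +
      fderiv ℝ (fderiv ℝ Φ) q (v * Complex.I, 0) (v * Complex.I, 0) := by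
  have h1 : AnalyticAt ℂ (fun s : ℂ => q.1 + v * s) 0 := by fun_prop
  have h2 : AnalyticAt ℂ (fun s : ℂ => ((q.1 + v * s, q.2) : E)) 0 := by fun_prop
  have d1 : HasDerivAt (fun s : ℂ => q.1 + v * s) v 0 := by
    simpa using ((hasDerivAt_id (0 : ℂ)).const_mul v).const_add q.1
  have d2 : HasDerivAt (fun s : ℂ => ((q.1 + v * s, q.2) : E)) (v, 0) 0 :=
    d1.prodMk (hasDerivAt_const _ _)
  have hw : ContDiff ℝ 2 (fun x => Φ (x, q.2)) := hΦ.comp (by fun_prop)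
  have e1 := lap_comp (w := fun x => Φ (x, q.2)) h1 hw.contDiffAt
  have e2 := lap_comp_eq (θ := Φ) h2 hΦ.contDiffAt
  rw [d1.deriv] at e1
  rw [d2.deriv] at e2
  simp only [mul_zero, add_zero] at e1 e2
  rw [← e1, e2]
  simp [mul_comm]

theorem VRecip_lapy {Φ : E → ℝ} (hΦ : ContDiff ℝ 2 Φ) (q : E) (v : ℂ) :
    ‖v‖ ^ 2 * lap (fun y => Φ (q.1, y)) q.2 = fderiv ℝ (fderiv ℝ Φ) q (0, v) (0, v) +
      fderiv ℝ (fderiv ℝ Φ) q (0, v * Complex.I) (0, v * Complex.I) := by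
  have h1 : AnalyticAt ℂ (fun s : ℂ => q.2 + v * s) 0 := by fun_prop
  have h2 : AnalyticAt ℂ (fun s : ℂ => ((q.1, q.2 + v * s) : E)) 0 := by fun_prop
  have d1 : HasDerivAt (fun s : ℂ => q.2 + v * s) v 0 := by
    simpa using ((hasDerivAt_id (0 : ℂ)).const_mul v).const_add q.2
  have d2 : HasDerivAt (fun s : ℂ => ((q.1, q.2 + v * s) : E)) (0, v) 0 :=
    (hasDerivAt_const _ _).prodMk d1
  have hw : ContDiff ℝ 2 (fun y => Φ (q.1, y)) := hΦ.comp (by fun_prop)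
  have e1 := lap_comp (w := fun y => Φ (q.1, y)) h1 hw.contDiffAt
  have e2 := lap_comp_eq (θ := Φ) h2 hΦ.contDiffAt
  rw [d1.deriv] at e1
  rw [d2.deriv] at e2
  simp only [mul_zero, add_zero] at e1 e2
  rw [← e1, e2]
  simp [mul_comm]

/-- the auxiliary function -/
noncomputable def VRecip_W (Φ : E → ℝ) (Z : ℂ → E) (e t : ℂ) : ℝ :=
  fderiv ℝ Φ (Z t) ((deriv Z t).1 * e, 0) - fderiv ℝ Φ (Z t) (0, (deriv Z t).2 * e)

theorem VRecip_smooth {U : Set ℂ} (hU : IsOpen U) {Z : ℂ → E} (hZ : DifferentiableOn ℂ Z U)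
    {Φ : E → ℝ} (hΦ : ContDiff ℝ 2 Φ) (e : ℂ) :
    ContDiffOn ℝ 1 (fun t => fderiv ℝ Φ (Z t) ((deriv Z t).1 * e, 0)) U ∧
    ContDiffOn ℝ 1 (fun t => fderiv ℝ Φ (Z t) (0, (deriv Z t).2 * e)) U := by
  have ha := hZ.analyticOnNhd hU
  have h1 : ContDiffOn ℝ 1 Z U := (ha.contDiffOn_of_completeSpace).restrict_scalars ℝ
  have h2 : ContDiffOn ℝ 1 (deriv Z) U :=
    (ha.deriv.contDiffOn_of_completeSpace).restrict_scalars ℝ
  have h3 : ContDiff ℝ 1 (fderiv ℝ Φ) := hΦ.fderiv_right (by norm_num)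
  have h4 : ContDiffOn ℝ 1 (fun t => fderiv ℝ Φ (Z t)) U := h3.comp_contDiffOn h1
  exact ⟨h4.clm_apply ((h2.fst.mul contDiffOn_const).prodMk contDiffOn_const),
    h4.clm_apply (contDiffOn_const.prodMk (h2.snd.mul contDiffOn_const))⟩

theorem VRecip_dW {Z : ℂ → E} {t : ℂ} (hZ : AnalyticAt ℂ Z t) {Φ : E → ℝ}
    (hΦ : ContDiff ℝ 2 Φ) (e : ℂ) : fderiv ℝ (VRecip_W Φ Z e) t e =
      fderiv ℝ (fderiv ℝ Φ) (Z t) ((deriv Z t).1 * e, 0) ((deriv Z t).1 * e, 0) -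
      fderiv ℝ (fderiv ℝ Φ) (Z t) (0, (deriv Z t).2 * e) (0, (deriv Z t).2 * e) +
      (fderiv ℝ Φ (Z t) (e * e * (deriv (deriv Z) t).1, 0) -
        fderiv ℝ Φ (Z t) (0, e * e * (deriv (deriv Z) t).2)) := by
  have d1 := hZ.differentiableAt.hasDerivAt.hasFDerivAt.restrictScalars ℝ
  have d2 := hZ.deriv.differentiableAt.hasDerivAt.hasFDerivAt.restrictScalars ℝ
  have h3 : ContDiff ℝ 1 (fderiv ℝ Φ) := hΦ.fderiv_right (by norm_num)
  have d3 := ((h3.differentiable (by norm_num)) (Z t)).hasFDerivAt.comp t d1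
  have u1 := d3.clm_apply ((d2.fst.mul_const e).prodMk (hasFDerivAt_const (0 : ℂ) t))
  have u2 := d3.clm_apply ((hasFDerivAt_const (0 : ℂ) t).prodMk (d2.snd.mul_const e))
  have u3 : HasFDerivAt (VRecip_W Φ Z e) _ t := u1.sub u2
  rw [u3.fderiv]
  have hsym : IsSymmSndFDerivAt ℝ Φ (Z t) := hΦ.contDiffAt.isSymmSndFDerivAt (by simp)
  have hv : e • deriv Z t = ((deriv Z t).1 * e, 0) + (0, (deriv Z t).2 * e) := by
    ext <;> simp [mul_comm]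
  have hs := hsym ((deriv Z t).1 * e, 0) (0, (deriv Z t).2 * e)
  simp only [sub_apply, add_apply,
    ContinuousLinearMap.comp_apply, ContinuousLinearMap.flip_apply, Function.comp_apply,
    ContinuousLinearMap.coe_restrictScalars', ContinuousLinearMap.toSpanSingleton_apply,
    ContinuousLinearMap.prod_apply, zero_apply,
    smul_apply, ContinuousLinearMap.coe_fst', ContinuousLinearMap.coe_snd',
    hv, map_add]
  simp only [Prod.smul_fst, Prod.smul_snd, smul_eq_mul, mul_assoc]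
  linarith

theorem VRecip_cont {U : Set ℂ} (hU : IsOpen U) {W : ℂ → ℝ} (hW : ContDiffOn ℝ 1 W U) (e : ℂ) :
    ContinuousOn (fun t => fderiv ℝ W t e) U :=
  (hW.continuousOn_fderiv_of_isOpen hU le_rfl).clm_apply continuousOn_const

/-- For `e ∈ {1, I}` let `W e t = DΦ (Z t) (X' t * e, 0) - DΦ (Z t) (0, Y' t * e)`. Then
`∑_e D(W e) t e = ‖X'‖^2 Δ_x Φ - ‖Y'‖^2 Δ_y Φ`: the terms with `X'' e^2` cancel, the mixed second
derivatives cancel by symmetry (`ContDiffAt.isSymmSndFDerivAt`), and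
`D²Φ ((v,0),(v,0)) + D²Φ ((i v,0),(i v,0)) = ‖v‖^2 Δ_x Φ` (`lap_comp` for `s ↦ x + v s`, or
bilinearity). Then `parts_local`. -/
theorem recip_id {χ : ℂ → ℝ} (hχ : Tst χ) {U : Set ℂ} (hU : IsOpen U) (hs : tsupport χ ⊆ U)
    {Z : ℂ → E} (hZ : DifferentiableOn ℂ Z U) {Φ : E → ℝ} (hΦ : ContDiff ℝ 2 Φ) :
    ∫ t, χ t * (‖(deriv Z t).1‖ ^ 2 * lap (fun x => Φ (x, (Z t).2)) (Z t).1 -
        ‖(deriv Z t).2‖ ^ 2 * lap (fun y => Φ ((Z t).1, y)) (Z t).2) =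
      -(∫ t, fderiv ℝ χ t 1 *
          (fderiv ℝ Φ (Z t) ((deriv Z t).1, 0) - fderiv ℝ Φ (Z t) (0, (deriv Z t).2))) -
        ∫ t, fderiv ℝ χ t Complex.I * (fderiv ℝ Φ (Z t) ((deriv Z t).1 * Complex.I, 0) -
          fderiv ℝ Φ (Z t) (0, (deriv Z t).2 * Complex.I)) := by
  have hW : ∀ e, ContDiffOn ℝ 1 (VRecip_W Φ Z e) U := fun e =>
    (VRecip_smooth hU hZ hΦ e).1.sub (VRecip_smooth hU hZ hΦ e).2
  have p1 := parts_local hχ hU hs (hW 1) 1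
  have p2 := parts_local hχ hU hs (hW Complex.I) Complex.I
  have i1 := VRecip_int hχ hU hs (VRecip_cont hU (hW 1) 1)
  have i2 := VRecip_int hχ hU hs (VRecip_cont hU (hW Complex.I) Complex.I)
  simp only [VRecip_W, mul_one] at p1 p2
  rw [sub_eq_add_neg, ← p1, ← p2, ← integral_add i1 i2]
  refine integral_congr_ae (Eventually.of_forall fun t => ?_)
  by_cases ht : t ∈ U
  · have ha := hZ.analyticOnNhd hU t ht
    have hn : ∀ a : ℂ, fderiv ℝ Φ (Z t) (-a, 0) = -fderiv ℝ Φ (Z t) (a, 0) := fun a => by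
      rw [← map_neg]; simp
    have hn' : ∀ a : ℂ, fderiv ℝ Φ (Z t) (0, -a) = -fderiv ℝ Φ (Z t) (0, a) := fun a => by
      rw [← map_neg]; simp
    simp only []
    rw [VRecip_dW ha hΦ, VRecip_dW ha hΦ, VRecip_lapx hΦ, VRecip_lapy hΦ]
    simp only [mul_one, one_mul, Complex.I_mul_I, neg_mul, hn, hn']
    ring
  · have h1 : χ t = 0 := image_eq_zero_of_notMem_tsupport fun h => ht (hs h)
    simp [h1]

theorem VRecip_term {χ : ℂ → ℝ} (hχ : Tst χ) {ε : ℝ} (hε : 0 < ε) {K : ℝ} (hK : 0 ≤ K) :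
    ∃ C : ℝ, ∀ (U : Set ℂ) (X : ℂ → ℂ) (D : ℝ) (g : ℂ → ℝ), IsOpen U → tsupport χ ⊆ U →
      DifferentiableOn ℂ X U → 1 ≤ D → (∀ t ∈ tsupport χ, Real.log (1 + ‖X t‖) ≤ D) →
      (∀ t ∈ tsupport χ, g t ^ 2 ≤ K * (‖deriv X t‖ ^ 2 / (1 + ‖X t‖ ^ 2) ^ (1 + ε))) →
      |∫ t, χ t * g t| ≤ C * √D := by
  have h2 : Tst fun t => χ t * χ t := ⟨hχ.1.mul hχ.1, hχ.2.mul_right⟩
  have hsub : tsupport (fun t => χ t * χ t) ⊆ tsupport χ := tsupport_mul_subset_left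
  obtain ⟨C, hC⟩ := wab h2 (fun t => mul_self_nonneg _) hε
  have hm : MeasurableSet (tsupport χ) := (isClosed_tsupport χ).measurableSet
  have hfin : volume (tsupport χ) ≠ ⊤ := hχ.2.isCompact.measure_lt_top.ne
  refine ⟨volume.real (tsupport χ) / 2 + K * C / 2, fun U X D g hU hs hX hD hl hg => ?_⟩
  have hb := hC U X D hU (hsub.trans hs) hX hD fun t ht => hl t (hsub ht)
  have hr : 0 < √D := Real.sqrt_pos.2 (by linarith)
  have hrr : √D * √D = D := Real.mul_self_sqrt (by linarith)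
  have ha := hX.analyticOnNhd hU
  have hc : ContinuousOn (fun t => ‖deriv X t‖ ^ 2 / (1 + ‖X t‖ ^ 2) ^ (1 + ε)) U := by
    refine (ha.deriv.continuousOn.norm.pow 2).div
      ((continuousOn_const.add (ha.continuousOn.norm.pow 2)).rpow_const
        fun t _ => Or.inl (show 1 + ‖X t‖ ^ 2 ≠ 0 by positivity)) fun t _ => ?_
    positivity
  have i1 := VRecip_int h2 hU (hsub.trans hs) hc
  have i2 : Integrable ((tsupport χ).indicator fun _ : ℂ => √D / 2) :=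
    (integrable_indicator_iff hm).2 (integrableOn_const hfin)
  have key : ‖∫ t, χ t * g t‖ ≤ ∫ t, ((tsupport χ).indicator (fun _ : ℂ => √D / 2) t +
      K / (2 * √D) * (χ t * χ t * (‖deriv X t‖ ^ 2 / (1 + ‖X t‖ ^ 2) ^ (1 + ε)))) := by
    refine norm_integral_le_of_norm_le (i2.add (i1.const_mul _)) (Eventually.of_forall fun t => ?_)
    by_cases ht : t ∈ tsupport χ
    · rw [indicator_of_mem ht, Real.norm_eq_abs]
      have h3 := hg t ht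
      generalize ‖deriv X t‖ ^ 2 / (1 + ‖X t‖ ^ 2) ^ (1 + ε) = w at h3
      have h4 : |χ t * g t| ^ 2 ≤ K * (χ t * χ t * w) := by
        rw [sq_abs]
        nlinarith [mul_le_mul_of_nonneg_left h3 (mul_self_nonneg (χ t))]
      have h5 : K / (2 * √D) * (χ t * χ t * w) = K * (χ t * χ t * w) / (2 * √D) := by ring
      rw [h5, ← sub_le_iff_le_add', le_div_iff₀ (by positivity)]
      nlinarith [sq_nonneg (|χ t * g t| - √D)]
    · have h1 : χ t = 0 := image_eq_zero_of_notMem_tsupport ht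
      simp [h1, indicator_of_notMem ht]
  rw [integral_add i2 (i1.const_mul _), integral_indicator hm, integral_const_mul,
    setIntegral_const, Real.norm_eq_abs, smul_eq_mul] at key
  have h6 : K / (2 * √D) * (C * D) = K * C / 2 * √D := by
    field_simp
    rw [Real.sq_sqrt (by linarith)]
    ring
  have h7 := mul_le_mul_of_nonneg_left hb (show 0 ≤ K / (2 * √D) by positivity)
  nlinarith

theorem VRecip_real {C₁ : ℝ} (hC : 1 ≤ C₁) {m : ℕ} (hm : 1 ≤ m) : ∃ K : ℝ, 0 ≤ K ∧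
    ∀ a b : ℝ, 3 ≤ a → 3 ≤ b → b ≤ C₁ * (1 + a) ^ m → a ≤ C₁ * (1 + b) ^ m →
      (Real.log b / a ^ 2 + 1 / (a * b)) ^ 2 * (1 + a ^ 2) ^ (1 + (2 * m : ℝ)⁻¹) ≤ K := by
  have hl := Real.log_nonneg hC
  refine ⟨8 * (Real.log C₁ + 4 * m) ^ 2 + 16 * C₁, by positivity, fun a b ha hb h1 h2 => ?_⟩
  have ha0 : 0 < a := by linarith
  have hb0 : 0 < b := by linarith
  have hm0 : (2 * m : ℕ) ≠ 0 := by omega
  rw [Real.rpow_add (by positivity), Real.rpow_one]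
  have hs : ((1 + a ^ 2) ^ (2 * m : ℝ)⁻¹) ^ (2 * m) = 1 + a ^ 2 := by
    have := Real.rpow_inv_natCast_pow (x := 1 + a ^ 2) (by positivity) hm0
    simpa using this
  have hs0 : 0 ≤ (1 + a ^ 2) ^ (2 * m : ℝ)⁻¹ := by positivity
  generalize (1 + a ^ 2) ^ (2 * m : ℝ)⁻¹ = s at hs hs0
  have s1 : s ≤ 2 * a := by
    refine le_of_pow_le_pow_left₀ hm0 (by positivity) ?_
    rw [hs]
    calc 1 + a ^ 2 ≤ (2 * a) ^ 2 := by nlinarith
      _ ≤ (2 * a) ^ (2 * m) := pow_le_pow_right₀ (by linarith) (by omega)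
  have s2 : s ≤ 4 * C₁ * b := by
    refine le_of_pow_le_pow_left₀ hm0 (by positivity) ?_
    rw [hs]
    have e1 : (1 + b) ^ m ≤ (2 * b) ^ m := pow_le_pow_left₀ (by linarith) (by linarith) m
    have e2 : 2 * a ≤ (2 * C₁) * (2 * b) ^ m := by nlinarith
    have e3 : 2 * C₁ ≤ (2 * C₁) ^ m := by
      calc 2 * C₁ = (2 * C₁) ^ 1 := (pow_one _).symm
        _ ≤ _ := pow_le_pow_right₀ (by linarith) hm
    have e4 : 2 * a ≤ (4 * C₁ * b) ^ m := by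
      calc 2 * a ≤ (2 * C₁) * (2 * b) ^ m := e2
        _ ≤ (2 * C₁) ^ m * (2 * b) ^ m := mul_le_mul_of_nonneg_right e3 (by positivity)
        _ = _ := by rw [← mul_pow]; ring_nf
    calc 1 + a ^ 2 ≤ (2 * a) ^ 2 := by nlinarith
      _ ≤ ((4 * C₁ * b) ^ m) ^ 2 := pow_le_pow_left₀ (by linarith) e4 2
      _ = _ := by rw [← pow_mul, mul_comm m 2]
  have hr : √a * √a = a := Real.mul_self_sqrt ha0.le
  have hr1 : 1 ≤ √a := Real.one_le_sqrt.2 (by linarith)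
  have l1 : Real.log (1 + a) ≤ 4 * √a := by
    calc Real.log (1 + a) ≤ Real.log ((2 * √a) ^ 2) :=
          Real.log_le_log (by linarith) (by nlinarith)
      _ = 2 * Real.log (2 * √a) := by rw [Real.log_pow]; norm_num
      _ ≤ 4 * √a := by linarith [Real.log_le_sub_one_of_pos (show 0 < 2 * √a by linarith)]
  have l2 : Real.log b ≤ (Real.log C₁ + 4 * m) * √a := by
    have e1 := Real.log_le_log hb0 h1
    rw [Real.log_mul (by linarith) (by positivity), Real.log_pow] at e1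
    have e2 : (m : ℝ) * Real.log (1 + a) ≤ m * (4 * √a) :=
      mul_le_mul_of_nonneg_left l1 (by positivity)
    nlinarith
  have l0 : 0 ≤ Real.log b := Real.log_nonneg (by linarith)
  have l3 : Real.log b ^ 2 ≤ (Real.log C₁ + 4 * m) ^ 2 * a := by
    calc Real.log b ^ 2 ≤ ((Real.log C₁ + 4 * m) * √a) ^ 2 := pow_le_pow_left₀ l0 l2 2
      _ = _ := by rw [mul_pow, Real.sq_sqrt ha0.le]
  generalize (Real.log C₁ + 4 * m) ^ 2 = L at l3
  generalize Real.log b = l at l3 l0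
  have hL : 0 ≤ L := by nlinarith [sq_nonneg l]
  have t1 : (l / a ^ 2 + 1 / (a * b)) ^ 2 ≤ 2 * (l ^ 2 / a ^ 4) + 2 * (1 / (a ^ 2 * b ^ 2)) := by
    have e1 : l ^ 2 / a ^ 4 = (l / a ^ 2) ^ 2 := by field_simp
    have e2 : 1 / (a ^ 2 * b ^ 2) = (1 / (a * b)) ^ 2 := by field_simp
    rw [e1, e2]
    nlinarith [sq_nonneg (l / a ^ 2 - 1 / (a * b))]
  have t2 : (1 + a ^ 2) * s ≤ 2 * a ^ 2 * s :=
    mul_le_mul_of_nonneg_right (by nlinarith) hs0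
  have t3 : l ^ 2 / a ^ 4 * (2 * a ^ 2 * s) ≤ 4 * L := by
    have e1 : l ^ 2 / a ^ 4 * (2 * a ^ 2 * s) = 2 * (l ^ 2 * s) / a ^ 2 := by field_simp
    rw [e1, div_le_iff₀ (by positivity)]
    have e2 : l ^ 2 * s ≤ L * a * (2 * a) := mul_le_mul l3 s1 hs0 (by positivity)
    nlinarith
  have t4 : 1 / (a ^ 2 * b ^ 2) * (2 * a ^ 2 * s) ≤ 8 * C₁ := by
    have e1 : 1 / (a ^ 2 * b ^ 2) * (2 * a ^ 2 * s) = 2 * s / b ^ 2 := by field_simp
    rw [e1, div_le_iff₀ (by positivity)]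
    have e2 : C₁ * b ≤ C₁ * b ^ 2 := mul_le_mul_of_nonneg_left (by nlinarith) (by linarith)
    nlinarith
  calc _ ≤ (2 * (l ^ 2 / a ^ 4) + 2 * (1 / (a ^ 2 * b ^ 2))) * (2 * a ^ 2 * s) :=
        mul_le_mul t1 t2 (by positivity) (by positivity)
    _ ≤ _ := by nlinarith

/-- decay of the gradient on the region cut out by the two growth relations -/
theorem VRecip_decay {Φ : E → ℝ} (hΦ : ContDiff ℝ 2 Φ) {R C : ℝ} (hR : 3 ≤ R)
    (hb : ∀ q : E, R ≤ ‖q.1‖ → R ≤ ‖q.2‖ → ∀ v : ℂ,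
      |fderiv ℝ Φ q (v, 0)| ≤ C * ‖v‖ * (Real.log ‖q.2‖ / ‖q.1‖ ^ 2 + 1 / (‖q.1‖ * ‖q.2‖)) ∧
      |fderiv ℝ Φ q (0, v)| ≤ C * ‖v‖ * (Real.log ‖q.1‖ / ‖q.2‖ ^ 2 + 1 / (‖q.1‖ * ‖q.2‖)))
    {C₁ : ℝ} (hC₁ : 1 ≤ C₁) {m : ℕ} (hm : 1 ≤ m) : ∃ K : ℝ, 0 ≤ K ∧ ∀ q : E,
      ‖q.2‖ ≤ C₁ * (1 + ‖q.1‖) ^ m → ‖q.1‖ ≤ C₁ * (1 + ‖q.2‖) ^ m → ∀ v : ℂ,
      fderiv ℝ Φ q (v, 0) ^ 2 ≤ K * (‖v‖ ^ 2 / (1 + ‖q.1‖ ^ 2) ^ (1 + (2 * m : ℝ)⁻¹)) ∧
      fderiv ℝ Φ q (0, v) ^ 2 ≤ K * (‖v‖ ^ 2 / (1 + ‖q.2‖ ^ 2) ^ (1 + (2 * m : ℝ)⁻¹)) := by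
  obtain ⟨K, hK, hK'⟩ := VRecip_real hC₁ hm
  set M : ℝ := C₁ * (1 + R) ^ m with hM
  have hRM : R ≤ M := by
    have e1 : 1 + R ≤ (1 + R) ^ m := by
      calc 1 + R = (1 + R) ^ 1 := (pow_one _).symm
        _ ≤ _ := pow_le_pow_right₀ (by linarith) hm
    nlinarith
  have h3 : Continuous (fderiv ℝ Φ) := hΦ.continuous_fderiv (by norm_num)
  obtain ⟨B, hB⟩ := (isCompact_closedBall (0 : E) M).exists_bound_of_continuousOn h3.continuousOn
  set ε : ℝ := (2 * m : ℝ)⁻¹ with hε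
  have hε0 : 0 ≤ ε := by positivity
  have hP : 0 ≤ B ^ 2 * (1 + M ^ 2) ^ (1 + ε) := by positivity
  have hQ : 0 ≤ C ^ 2 * K := by positivity
  refine ⟨C ^ 2 * K + B ^ 2 * (1 + M ^ 2) ^ (1 + ε), by positivity, fun q h1 h2 v => ?_⟩
  have big : ∀ (x a w : ℝ), |x| ≤ C * ‖v‖ * w → w ^ 2 * (1 + a ^ 2) ^ (1 + ε) ≤ K →
      x ^ 2 ≤ (C ^ 2 * K + B ^ 2 * (1 + M ^ 2) ^ (1 + ε)) * (‖v‖ ^ 2 / (1 + a ^ 2) ^ (1 + ε)) := by
    intro x a w e1 e2
    have e0 : 0 < (1 + a ^ 2) ^ (1 + ε) := by positivity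
    rw [← mul_div_assoc, le_div_iff₀ e0, ← sq_abs]
    have e3 : |x| ^ 2 ≤ (C * ‖v‖ * w) ^ 2 := pow_le_pow_left₀ (abs_nonneg _) e1 2
    have e4 := mul_le_mul_of_nonneg_right e3 e0.le
    have e5 := mul_le_mul_of_nonneg_left e2 (show 0 ≤ C ^ 2 * ‖v‖ ^ 2 by positivity)
    have e6 := mul_nonneg hP (sq_nonneg ‖v‖)
    nlinarith
  have small : ∀ (x a : ℝ), 0 ≤ a → a ≤ M → |x| ≤ B * ‖v‖ →
      x ^ 2 ≤ (C ^ 2 * K + B ^ 2 * (1 + M ^ 2) ^ (1 + ε)) * (‖v‖ ^ 2 / (1 + a ^ 2) ^ (1 + ε)) := by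
    intro x a a0 e1 e2
    have e0 : 0 < (1 + a ^ 2) ^ (1 + ε) := by positivity
    rw [← mul_div_assoc, le_div_iff₀ e0, ← sq_abs]
    have e3 : |x| ^ 2 ≤ (B * ‖v‖) ^ 2 := pow_le_pow_left₀ (abs_nonneg _) e2 2
    have e4 : (1 + a ^ 2) ^ (1 + ε) ≤ (1 + M ^ 2) ^ (1 + ε) :=
      Real.rpow_le_rpow (by positivity) (by nlinarith) (by positivity)
    have e5 := mul_le_mul e3 e4 e0.le (by positivity)
    have e6 := mul_nonneg hQ (sq_nonneg ‖v‖)
    nlinarith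
  by_cases hq : R ≤ ‖q.1‖ ∧ R ≤ ‖q.2‖
  · obtain ⟨b1, b2⟩ := hb q hq.1 hq.2 v
    refine ⟨big _ _ _ b1 (hK' _ _ (hR.trans hq.1) (hR.trans hq.2) h1 h2), big _ _ _ b2 ?_⟩
    rw [mul_comm ‖q.1‖]
    exact hK' _ _ (hR.trans hq.2) (hR.trans hq.1) h2 h1
  · have hmono : ∀ a : ℝ, 0 ≤ a → a ≤ R → C₁ * (1 + a) ^ m ≤ M := fun a a0 ha =>
      mul_le_mul_of_nonneg_left (pow_le_pow_left₀ (by linarith) (by linarith) m) (by linarith)
    have hq' : ‖q.1‖ ≤ M ∧ ‖q.2‖ ≤ M := by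
      rcases not_and_or.1 hq with h | h
      · exact ⟨by linarith, h1.trans (hmono _ (norm_nonneg _) (by linarith))⟩
      · exact ⟨h2.trans (hmono _ (norm_nonneg _) (by linarith)), by linarith⟩
    have hqB := hB q (by rw [mem_closedBall_zero_iff, Prod.norm_def]; exact max_le hq'.1 hq'.2)
    have hop : ∀ u : E, ‖u‖ = ‖v‖ → |fderiv ℝ Φ q u| ≤ B * ‖v‖ := fun u hu => by
      rw [← hu, ← Real.norm_eq_abs]
      exact ((fderiv ℝ Φ q).le_opNorm u).trans (mul_le_mul_of_nonneg_right hqB (norm_nonneg _))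
    exact ⟨small _ _ (norm_nonneg _) hq'.1 (hop _ (by simp [Prod.norm_def])),
      small _ _ (norm_nonneg _) hq'.2 (hop _ (by simp [Prod.norm_def]))⟩

/-- With `Φ` from `exists_phi` and `ε = 1 / (2 k + 2)`: for points with both growth relations,
`|DΦ (v, 0)| ≤ C ‖v‖ (1 + ‖X‖^2)^(-(1+ε)/2)` and `|DΦ (0, v)| ≤ C ‖v‖ (1 + ‖Y‖^2)^(-(1+ε)/2)`
(either both coordinates are at least `R`, or both are bounded and `DΦ` is bounded on a compact
set). Use `|a b| ≤ √D / 2 + (a b)^2 / (2 √D)` on the support and `wab` with the test functions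
`(fderiv χ t e)^2` (`Tst.fderiv`). -/
theorem recip {χ : ℂ → ℝ} (hχ : Tst χ) {θ : E → ℝ} (hθ : Tst2 θ) (h0 : ∫ q, θ q = 0) (C₀ : ℝ)
    (k : ℕ) : ∃ C : ℝ, ∀ (U : Set ℂ) (Z : ℂ → E) (D : ℝ), IsOpen U → tsupport χ ⊆ U →
      DifferentiableOn ℂ Z U → 1 ≤ D → (∀ t ∈ tsupport χ, Real.log (1 + ‖Z t‖) ≤ D ∧
        ‖(Z t).2‖ ≤ C₀ * (1 + ‖(Z t).1‖) ∧ ‖(Z t).1‖ ≤ C₀ * (1 + ‖(Z t).2‖) ^ k) →
      |VV χ Z θ - HH χ Z θ| ≤ C * √D := by
  obtain ⟨Φ, hΦ, hx, hy, R, C, hR, -, hb⟩ := exists_phi hθ h0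
  obtain ⟨K, hK, hK'⟩ := VRecip_decay hΦ hR hb (le_max_right C₀ 1) (m := k + 1) (by omega)
  have hε : 0 < (2 * ((k + 1 : ℕ) : ℝ))⁻¹ := by positivity
  choose A hA using fun e : ℂ => VRecip_term (hχ.fderiv e) hε hK
  refine ⟨2 * A 1 + 2 * A Complex.I, fun U Z D hU hs hZ hD hg => ?_⟩
  have ha := hZ.analyticOnNhd hU
  have key : ∀ e : ℂ, ‖e‖ = 1 → |∫ t, fderiv ℝ χ t e * (fderiv ℝ Φ (Z t) ((deriv Z t).1 * e, 0) -
      fderiv ℝ Φ (Z t) (0, (deriv Z t).2 * e))| ≤ 2 * A e * √D := by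
    intro e he
    have hs' := VRecip_supp χ e
    have gr : ∀ t ∈ tsupport χ, ‖(Z t).2‖ ≤ max C₀ 1 * (1 + ‖(Z t).1‖) ^ (k + 1) ∧
        ‖(Z t).1‖ ≤ max C₀ 1 * (1 + ‖(Z t).2‖) ^ (k + 1) := by
      intro t ht
      obtain ⟨-, g1, g2⟩ := hg t ht
      have n1 := norm_nonneg (Z t).1
      have n2 := norm_nonneg (Z t).2
      refine ⟨g1.trans (mul_le_mul (le_max_left _ _) ?_ (by positivity) (by positivity)),
        g2.trans (mul_le_mul (le_max_left _ _) ?_ (by positivity) (by positivity))⟩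
      · calc 1 + ‖(Z t).1‖ = (1 + ‖(Z t).1‖) ^ 1 := (pow_one _).symm
          _ ≤ _ := pow_le_pow_right₀ (by linarith) (by omega)
      · exact pow_le_pow_right₀ (by linarith) (by omega)
    have dd : ∀ t ∈ U, deriv (fun t => (Z t).1) t = (deriv Z t).1 ∧
        deriv (fun t => (Z t).2) t = (deriv Z t).2 := fun t ht =>
      ⟨((ContinuousLinearMap.fst ℂ ℂ ℂ).hasFDerivAt.comp_hasDerivAt t
          (ha t ht).differentiableAt.hasDerivAt).deriv,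
        ((ContinuousLinearMap.snd ℂ ℂ ℂ).hasFDerivAt.comp_hasDerivAt t
          (ha t ht).differentiableAt.hasDerivAt).deriv⟩
    have b1 := hA e U (fun t => (Z t).1) D (fun t => fderiv ℝ Φ (Z t) ((deriv Z t).1 * e, 0)) hU
      (hs'.trans hs) hZ.fst hD (fun t ht => (Real.log_le_log (by positivity)
        (by linarith [norm_fst_le (Z t)])).trans (hg t (hs' ht)).1) fun t ht => by
      have := (hK' (Z t) (gr t (hs' ht)).1 (gr t (hs' ht)).2 ((deriv Z t).1 * e)).1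
      rw [(dd t (hs (hs' ht))).1]
      rwa [norm_mul, he, mul_one] at this
    have b2 := hA e U (fun t => (Z t).2) D (fun t => fderiv ℝ Φ (Z t) (0, (deriv Z t).2 * e)) hU
      (hs'.trans hs) hZ.snd hD (fun t ht => (Real.log_le_log (by positivity)
        (by linarith [norm_snd_le (Z t)])).trans (hg t (hs' ht)).1) fun t ht => by
      have := (hK' (Z t) (gr t (hs' ht)).1 (gr t (hs' ht)).2 ((deriv Z t).2 * e)).2
      rw [(dd t (hs (hs' ht))).2]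
      rwa [norm_mul, he, mul_one] at this
    have i1 := VRecip_int (hχ.fderiv e) hU (hs'.trans hs) (VRecip_smooth hU hZ hΦ e).1.continuousOn
    have i2 := VRecip_int (hχ.fderiv e) hU (hs'.trans hs) (VRecip_smooth hU hZ hΦ e).2.continuousOn
    simp only [mul_sub]
    rw [integral_sub i1 i2]
    have := abs_sub _ _ |>.trans (add_le_add b1 b2)
    linarith
  have k1 := key 1 (by simp)
  have k2 := key Complex.I (by simp)
  have hid := recip_id hχ hU hs hZ hΦ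
  simp only [mul_one] at k1
  have j1 := VRecip_int hχ hU hs (g := fun t => ‖(deriv Z t).1‖ ^ 2 * vlog θ (Z t))
    ((ha.deriv.continuousOn.fst.norm.pow 2).mul
      ((continuous_vlog hθ.1.continuous hθ.2).comp_continuousOn ha.continuousOn))
  have j2 := VRecip_int hχ hU hs (g := fun t => ‖(deriv Z t).2‖ ^ 2 * hlog θ (Z t))
    ((ha.deriv.continuousOn.snd.norm.pow 2).mul
      ((continuous_hlog hθ.1.continuous hθ.2).comp_continuousOn ha.continuousOn))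
  have hl : ∫ t, χ t * (‖(deriv Z t).1‖ ^ 2 * lap (fun x => Φ (x, (Z t).2)) (Z t).1 -
      ‖(deriv Z t).2‖ ^ 2 * lap (fun y => Φ ((Z t).1, y)) (Z t).2) =
      2 * Real.pi * (VV χ Z θ - HH χ Z θ) := by
    rw [VV, HH, ← integral_sub j1 j2, ← integral_const_mul]
    refine integral_congr_ae (Eventually.of_forall fun t => ?_)
    simp only [hx, hy]
    ring
  rw [hl] at hid
  have hb2 : |2 * Real.pi * (VV χ Z θ - HH χ Z θ)| ≤ (2 * A 1 + 2 * A Complex.I) * √D := by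
    rw [hid]
    have := (abs_sub _ _).trans (add_le_add ((abs_neg _).trans_le k1) k2)
    linarith
  rw [abs_mul, abs_of_pos (by positivity : 0 < 2 * Real.pi)] at hb2
  nlinarith [Real.pi_gt_three, abs_nonneg (VV χ Z θ - HH χ Z θ)]

end Pool.Agent.Lib.MP_7b5e47_an.Hn
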