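import Pool.Agent.Lib.MP_7b5e47_an.Hn.WGreen

namespace Pool.Agent.Lib.MP_7b5e47_an.Hn

open Filter Topology Set Metric MeasureTheory

open scoped ContDiff

/-! The fundamental solution and logarithmic potentials. -/

variable {χ ρ : ℂ → ℝ}

theorem locInt_log : LocallyIntegrable (fun y : ℂ => Real.log ‖y‖) := by
  refine locallyIntegrable_iff.2 fun K hK => ?_
  obtain ⟨R, -, hR⟩ := hK.isBounded.exists_pos_norm_lt
  refine IntegrableOn.mono_set ?_ fun y hy => mem_ball_zero_iff.2 (hR y hy)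
  refine (integrableOn_fun_norm_addHaar volume (f := Real.log)).2 ?_
  simp only [Complex.finrank_real_complex, Nat.add_one_sub_one, pow_one, smul_eq_mul]
  exact (Real.continuous_mul_log.integrableOn_Icc).mono_set Ioo_subset_Icc_self

theorem WFund_int (h : Tst χ) (Y : ℂ) : Integrable fun y => Real.log ‖y - Y‖ * χ y := by
  have h1 : Continuous fun y => χ (y + Y) := h.1.continuous.comp (continuous_add_const Y)
  have h2 : HasCompactSupport fun y => χ (y + Y) := h.2.comp_homeomorph (Homeomorph.addRight Y)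
  have h3 := (locInt_log.integrable_smul_right_of_hasCompactSupport h1 h2).comp_sub_right Y
  simpa only [smul_eq_mul, sub_add_cancel] using h3

theorem WFund_ker : Integrable (fun y : ℂ => 2 / (‖y‖ ^ 2 + 1) ^ 2) ∧
    ∫ y : ℂ, 2 / (‖y‖ ^ 2 + 1) ^ 2 = 2 * Real.pi := by
  have hd : ∀ x ∈ Ici (0 : ℝ), HasDerivAt (fun x : ℝ => -(x ^ 2 + 1)⁻¹)
      (x * (2 / (x ^ 2 + 1) ^ 2)) x := fun x _ => by
    have h1 : x ^ 2 + 1 ≠ 0 := by positivity
    have h2 := (((hasDerivAt_pow 2 x).add_const 1).inv h1).neg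
    refine h2.congr_deriv ?_
    simp only [Nat.cast_ofNat, Nat.add_one_sub_one, pow_one]
    field_simp
  have hp : ∀ x ∈ Ioi (0 : ℝ), 0 ≤ x * (2 / (x ^ 2 + 1) ^ 2) := fun x hx => by
    have : (0 : ℝ) < x := hx
    positivity
  have hl : Tendsto (fun x : ℝ => -(x ^ 2 + 1)⁻¹) atTop (𝓝 (-0)) :=
    (tendsto_inv_atTop_zero.comp
      (tendsto_atTop_add_const_right _ 1 (tendsto_pow_atTop two_ne_zero))).neg
  constructor
  · refine (integrable_fun_norm_addHaar volume (f := fun x : ℝ => 2 / (x ^ 2 + 1) ^ 2)).2 ?_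
    simp only [Complex.finrank_real_complex, Nat.add_one_sub_one, pow_one, smul_eq_mul]
    exact integrableOn_Ioi_deriv_of_nonneg' hd hp hl
  · rw [integral_fun_norm_addHaar volume (fun x : ℝ => 2 / (x ^ 2 + 1) ^ 2)]
    simp only [Complex.finrank_real_complex, Nat.add_one_sub_one, pow_one, smul_eq_mul]
    rw [integral_Ioi_of_hasDerivAt_of_nonneg' hd hp hl, Measure.real, Complex.volume_ball]
    simp

theorem WFund_eps (h : Tst χ) (Y : ℂ) {ε : ℝ} (hε : 0 < ε) :
    ∫ y, Real.log (‖y - Y‖ ^ 2 + ε ^ 2) / 2 * lap χ y =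
      ∫ y : ℂ, χ (ε • y + Y) * (2 / (‖y‖ ^ 2 + 1) ^ 2) := by
  have hw : ContDiff ℝ 2 fun z : ℂ => Real.log (‖z‖ ^ 2 + ε ^ 2) / 2 :=
    (((contDiff_norm_sq ℝ).add contDiff_const).log fun z => by positivity).div_const 2
  have hu : ContDiff ℝ 2 fun z : ℂ => Real.log (‖z - Y‖ ^ 2 + ε ^ 2) / 2 :=
    hw.comp (contDiff_id.sub contDiff_const)
  rw [← green_id h isOpen_univ (subset_univ _) hu.contDiffOn]
  have h1 : ∀ t, lap (fun z : ℂ => Real.log (‖z - Y‖ ^ 2 + ε ^ 2) / 2) t =
      2 * ε ^ 2 / (‖t - Y‖ ^ 2 + ε ^ 2) ^ 2 := fun t => by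
    have h2 := lap_comp (w := fun z : ℂ => Real.log (‖z‖ ^ 2 + ε ^ 2) / 2) (X := fun s => s - Y)
      (t := t) (analyticAt_id.sub analyticAt_const) hw.contDiffAt
    rw [h2, lap_log_eps hε, deriv_sub_const, deriv_id'', norm_one, one_pow, one_mul]
  simp only [h1]
  rw [← integral_add_right_eq_self _ Y]
  have h3 := Measure.integral_comp_smul (volume : Measure ℂ)
    (fun t => χ (t + Y) * (2 * ε ^ 2 / (‖t + Y - Y‖ ^ 2 + ε ^ 2) ^ 2)) ε
  rw [Complex.finrank_real_complex, abs_of_pos (by positivity), smul_eq_mul,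
    eq_inv_mul_iff_mul_eq₀ (by positivity), ← integral_const_mul] at h3
  rw [← h3]
  refine integral_congr_ae (Eventually.of_forall fun y => ?_)
  simp only [add_sub_cancel_right, norm_smul, Real.norm_eq_abs, mul_pow, sq_abs]
  field_simp

/-- `∫ log ‖y - Y‖ Δχ = 2 π χ Y`. Translate `Y` to `0`. With `l ε = log (‖·‖^2 + ε^2) / 2`,
`green_id` and `lap_log_eps` give `∫ l ε Δχ = ∫ χ y * 2 ε^2 / (‖y‖^2 + ε^2)^2 = ∫ χ (ε y) * 2 /
(‖y‖^2 + 1)^2` (scaling), and `∫ 2 / (‖y‖^2 + 1)^2 = 2 π` (polar coordinates,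
`Complex.integral_comp_polarCoord_symm` or `integral_fun_norm_addHaar`); dominated convergence on
both sides along `ε = 1/(n+1)`. -/
theorem fund (h : Tst χ) (Y : ℂ) : ∫ y, Real.log ‖y - Y‖ * lap χ y = 2 * Real.pi * χ Y := by
  have hε : ∀ n : ℕ, (0 : ℝ) < 1 / (n + 1) := fun n => by positivity
  have hε1 : ∀ n : ℕ, (1 : ℝ) / (n + 1) ≤ 1 := fun n => by
    rw [div_le_one (by positivity)]
    linarith [Nat.cast_nonneg (α := ℝ) n]
  have h0 : Tendsto (fun n : ℕ => (1 : ℝ) / (n + 1)) atTop (𝓝 0) :=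
    tendsto_one_div_add_atTop_nhds_zero_nat
  have hL := h.lap
  have hc : Continuous fun y : ℂ => Real.log (‖y - Y‖ ^ 2 + 1) / 2 :=
    (Continuous.log (by fun_prop) fun y => by positivity).div_const 2
  have h1 : Tendsto (fun n : ℕ => ∫ y, Real.log (‖y - Y‖ ^ 2 + (1 / (n + 1)) ^ 2) / 2 * lap χ y)
      atTop (𝓝 (∫ y, Real.log ‖y - Y‖ * lap χ y)) := by
    refine tendsto_integral_of_dominated_convergence
      (fun y => ‖Real.log ‖y - Y‖ * lap χ y‖ + ‖Real.log (‖y - Y‖ ^ 2 + 1) / 2 * lap χ y‖)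
      (fun n => ?_) ((WFund_int hL Y).norm.add
        ((hc.mul hL.1.continuous).integrable_of_hasCompactSupport hL.2.mul_left).norm)
      (fun n => ?_) ?_
    · have h2 := hε n
      exact (((Continuous.log (by fun_prop) fun y => by positivity).div_const 2).mul
        hL.1.continuous).aestronglyMeasurable
    · filter_upwards [compl_mem_ae_iff.2 (measure_singleton Y)] with y hy
      have h2 : 0 < ‖y - Y‖ := norm_pos_iff.2 (sub_ne_zero.2 hy)
      have h3 := hε n
      have h4 := hε1 n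
      rw [norm_mul, norm_mul, norm_mul, ← add_mul]
      refine mul_le_mul_of_nonneg_right ?_ (norm_nonneg _)
      have h5 : Real.log (‖y - Y‖ ^ 2) ≤ Real.log (‖y - Y‖ ^ 2 + (1 / (n + 1)) ^ 2) :=
        Real.log_le_log (by positivity) (le_add_of_nonneg_right (sq_nonneg _))
      have h6 : Real.log (‖y - Y‖ ^ 2 + (1 / (n + 1)) ^ 2) ≤ Real.log (‖y - Y‖ ^ 2 + 1) :=
        Real.log_le_log (by positivity) (by nlinarith)
      rw [Real.log_pow] at h5
      simp only [Real.norm_eq_abs]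
      rw [abs_le]
      have h7 := neg_abs_le (Real.log ‖y - Y‖)
      have h8 := le_abs_self (Real.log (‖y - Y‖ ^ 2 + 1) / 2)
      have h9 := abs_nonneg (Real.log ‖y - Y‖)
      have h10 := abs_nonneg (Real.log (‖y - Y‖ ^ 2 + 1) / 2)
      push_cast at h5
      constructor <;> linarith
    · filter_upwards [compl_mem_ae_iff.2 (measure_singleton Y)] with y hy
      have h2 : 0 < ‖y - Y‖ := norm_pos_iff.2 (sub_ne_zero.2 hy)
      have h3 := ((((h0.pow 2).const_add (‖y - Y‖ ^ 2)).log (by positivity)).div_const 2).mul_const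
        (lap χ y)
      rw [zero_pow two_ne_zero, add_zero, Real.log_pow, Nat.cast_ofNat,
        mul_div_cancel_left₀ _ two_ne_zero] at h3
      exact h3
  obtain ⟨C, hC⟩ := h.1.continuous.bounded_above_of_compact_support h.2
  have h2 : Tendsto (fun n : ℕ => ∫ y : ℂ, χ ((1 / (n + 1) : ℝ) • y + Y) * (2 / (‖y‖ ^ 2 + 1) ^ 2))
      atTop (𝓝 (∫ y : ℂ, χ Y * (2 / (‖y‖ ^ 2 + 1) ^ 2))) := by
    refine tendsto_integral_of_dominated_convergence (fun y => C * (2 / (‖y‖ ^ 2 + 1) ^ 2))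
      (fun n => ?_) (WFund_ker.1.const_mul C) (fun n => Eventually.of_forall fun y => ?_)
      (Eventually.of_forall fun y => ?_)
    · exact (h.1.continuous.comp (by fun_prop)).aestronglyMeasurable.mul
        WFund_ker.1.aestronglyMeasurable
    · rw [norm_mul, Real.norm_of_nonneg (r := 2 / _) (by positivity)]
      exact mul_le_mul_of_nonneg_right (hC _) (by positivity)
    · have h3 := (h0.smul_const y).add_const Y
      rw [zero_smul, zero_add] at h3
      exact ((h.1.continuous.tendsto Y).comp h3).mul_const _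
  rw [integral_const_mul, WFund_ker.2, mul_comm] at h2
  exact tendsto_nhds_unique h1 (h2.congr fun n => (WFund_eps h Y (hε n)).symm)

/-- logarithmic potential -/
noncomputable def lpot (ρ : ℂ → ℝ) (z : ℂ) : ℝ := ∫ y, Real.log ‖y - z‖ * ρ y

theorem WFund_conv (ρ : ℂ → ℝ) : lpot ρ =
    convolution (fun y : ℂ => Real.log ‖y‖) ρ (ContinuousLinearMap.mul ℝ ℝ) volume := by
  funext z
  rw [convolution_mul_swap, lpot]
  simp only [norm_sub_rev z]

/-- a convolution: `HasCompactSupport.contDiff_convolution_right` -/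
theorem contDiff_lpot (h : Tst ρ) : ContDiff ℝ ∞ (lpot ρ) := by
  rw [WFund_conv]
  exact h.2.contDiff_convolution_right _ locInt_log h.1

theorem WFund_fderiv (h : Tst ρ) (v : ℂ) :
    (fun z => fderiv ℝ (lpot ρ) z v) = lpot fun t => fderiv ℝ ρ t v := by
  funext z
  have h1 : ContDiff ℝ 1 ρ := h.1.of_le (by exact_mod_cast le_top)
  rw [WFund_conv, WFund_conv, (h.2.hasFDerivAt_convolution_right _ locInt_log h1 z).fderiv,
    convolution_precompR_apply _ locInt_log (h.2.fderiv ℝ) (h1.continuous_fderiv one_ne_zero)]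

/-- derivatives fall on `ρ` (`HasCompactSupport.hasFDerivAt_convolution_right`), then `fund` -/
theorem lap_lpot (h : Tst ρ) (z : ℂ) : lap (lpot ρ) z = 2 * Real.pi * ρ z := by
  have h2 : ∀ {f : ℂ → ℝ}, ContDiff ℝ ∞ f → ∀ t, ContDiffAt ℝ 2 f t := fun hf t =>
    (contDiff_infty.1 hf 2).contDiffAt
  rw [lap_eq _ (h2 (contDiff_lpot h) z), WFund_fderiv h, WFund_fderiv h,
    congrFun (WFund_fderiv (h.fderiv 1) 1) z,
    congrFun (WFund_fderiv (h.fderiv Complex.I) Complex.I) z, lpot, lpot,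
    ← integral_add (WFund_int ((h.fderiv 1).fderiv 1) z)
      (WFund_int ((h.fderiv Complex.I).fderiv Complex.I) z), ← fund h z]
  refine integral_congr_ae (Eventually.of_forall fun y => ?_)
  simp only [lap_eq _ (h2 h.1 y), mul_add]

theorem WFund_log {a b : ℝ} {R : ℝ} (hb : 0 < b) (hR : 2 * R ≤ b) (h : |a - b| ≤ R) :
    |Real.log a - Real.log b| ≤ 2 * R / b := by
  obtain ⟨h1, h2⟩ := abs_le.1 h
  have ha : 0 < a := by linarith
  have hR0 : 0 ≤ R := (abs_nonneg _).trans h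
  have h3 := Real.log_le_sub_one_of_pos (div_pos ha hb)
  have h4 := Real.log_le_sub_one_of_pos (div_pos hb ha)
  rw [Real.log_div ha.ne' hb.ne'] at h3
  rw [Real.log_div hb.ne' ha.ne'] at h4
  have h5 : a / b - 1 ≤ 2 * R / b := by
    rw [div_sub_one hb.ne']
    exact div_le_div_of_nonneg_right (by linarith) hb.le
  have h6 : b / a - 1 ≤ 2 * R / b := by
    rw [div_sub_one ha.ne', div_le_div_iff₀ ha hb]
    nlinarith
  rw [abs_le]
  constructor <;> linarith

theorem lpot_far (h : Tst ρ) :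
    Tendsto (fun z => lpot ρ z - (∫ y, ρ y) * Real.log ‖z‖) (Bornology.cobounded ℂ) (𝓝 0) := by
  obtain ⟨R, -, hR⟩ := h.2.isCompact.isBounded.exists_pos_norm_le
  have hi : Integrable ρ := h.1.continuous.integrable_of_hasCompactSupport h.2
  have h1 : Tendsto (fun z : ℂ => 2 * R / ‖z‖ * ∫ y, ‖ρ y‖) (Bornology.cobounded ℂ)
      (𝓝 (0 * ∫ y, ‖ρ y‖)) :=
    (tendsto_const_nhds.div_atTop tendsto_norm_cobounded_atTop).mul_const _
  rw [zero_mul] at h1
  refine squeeze_zero_norm' ?_ h1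
  filter_upwards [tendsto_norm_cobounded_atTop.eventually_ge_atTop (2 * R),
    tendsto_norm_cobounded_atTop.eventually_gt_atTop 0] with z h2 h3
  rw [lpot, ← integral_mul_const, ← integral_sub (WFund_int h z) (hi.mul_const _),
    ← integral_const_mul]
  refine norm_integral_le_of_norm_le (hi.norm.const_mul _) (Eventually.of_forall fun y => ?_)
  by_cases hy : y ∈ tsupport ρ
  · rw [mul_comm (ρ y), ← sub_mul, norm_mul]
    refine mul_le_mul_of_nonneg_right (WFund_log h3 h2 ?_) (norm_nonneg _)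
    rw [norm_sub_rev]
    refine (abs_norm_sub_norm_le _ _).trans ?_
    simpa using hR y hy
  · simp [image_eq_zero_of_notMem_tsupport hy]

theorem lpot_bd (h : Tst ρ) :
    ∃ C : ℝ, ∀ z, |lpot ρ z - (∫ y, ρ y) * Real.log (max 1 ‖z‖)| ≤ C := by
  have h1 := (lpot_far h).eventually (closedBall_mem_nhds 0 one_pos)
  have h2 := h1.and (tendsto_norm_cobounded_atTop.eventually_ge_atTop 1)
  obtain ⟨R, -, hR⟩ := (hasBasis_cobounded_compl_closedBall (0 : ℂ)).eventually_iff.1 h2
  have hc : Continuous fun z => lpot ρ z - (∫ y, ρ y) * Real.log (max 1 ‖z‖) :=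
    (contDiff_lpot h).continuous.sub (continuous_const.mul (Continuous.log (by fun_prop)
      fun z => (lt_max_of_lt_left one_pos).ne'))
  obtain ⟨C, hC⟩ := (isCompact_closedBall (0 : ℂ) R).exists_bound_of_continuousOn hc.continuousOn
  refine ⟨max 1 C, fun z => ?_⟩
  by_cases hz : z ∈ closedBall (0 : ℂ) R
  · exact le_max_of_le_right (hC z hz)
  · obtain ⟨h3, h4⟩ := hR hz
    rw [max_eq_right h4]
    exact le_max_of_le_left (by simpa using h3)

/-- `green_id`, `lap_comp`, `lap_lpot` -/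
theorem ident (h : Tst χ) (hρ : Tst ρ) {U : Set ℂ} (hU : IsOpen U) (hs : tsupport χ ⊆ U)
    {X : ℂ → ℂ} (hX : DifferentiableOn ℂ X U) :
    2 * Real.pi * ∫ t, χ t * (‖deriv X t‖ ^ 2 * ρ (X t)) = ∫ t, lpot ρ (X t) * lap χ t := by
  have h1 : ContDiff ℝ 2 (lpot ρ) := contDiff_infty.1 (contDiff_lpot hρ) 2
  have h2 : ContDiffOn ℝ 2 X U := (hX.contDiffOn hU).restrict_scalars ℝ
  rw [← green_id h hU hs (u := fun t => lpot ρ (X t)) (h1.comp_contDiffOn h2), ← integral_const_mul]
  refine integral_congr_ae (Eventually.of_forall fun t => ?_)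
  by_cases ht : t ∈ U
  · simp only [lap_comp (hX.analyticAt (hU.mem_nhds ht)) h1.contDiffAt, lap_lpot hρ]
    ring
  · simp [image_eq_zero_of_notMem_tsupport fun h3 => ht (hs h3)]

end Pool.Agent.Lib.MP_7b5e47_an.Hn
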