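import Pool.Agent.Lib.MP_7b5e47_an.Hn.Defs

namespace Pool.Agent.Lib.MP_7b5e47_an.Hn

open Filter Topology Set Metric MeasureTheory

open scoped ContDiff

/-! Calculus in the plane: Green's identity and chain rules for the Laplacian. -/

/-- the Laplacian of a real function on `ℂ` -/
noncomputable abbrev lap (f : ℂ → ℝ) : ℂ → ℝ := Laplacian.laplacian f

/-- test functions on `ℂ` -/
def Tst (χ : ℂ → ℝ) : Prop := ContDiff ℝ ∞ χ ∧ HasCompactSupport χ

/-- test functions on `ℂ²` -/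
def Tst2 (θ : E → ℝ) : Prop := ContDiff ℝ ∞ θ ∧ HasCompactSupport θ

variable {χ : ℂ → ℝ} {U : Set ℂ}

theorem WGreen_two (f : ℂ → ℝ) (t : ℂ) : lap f t =
    fderiv ℝ (fderiv ℝ f) t 1 1 + fderiv ℝ (fderiv ℝ f) t Complex.I Complex.I := by
  simp [lap, InnerProductSpace.laplacian_eq_iteratedFDeriv_complexPlane, iteratedFDeriv_two_apply]

theorem WGreen_le : (2 : WithTop ℕ∞) ≤ ∞ := WithTop.coe_le_coe.2 (le_top (a := (2 : ℕ∞)))

theorem WGreen_int {φ g : ℂ → ℝ} (h1 : Continuous φ) (h2 : HasCompactSupport φ) (hU : IsOpen U)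
    (hs : tsupport φ ⊆ U) (hg : ContinuousOn g U) : Integrable fun t => φ t * g t :=
  ((h1.continuousOn.mul hg).continuous_of_tsupport_subset hU
    ((tsupport_mul_subset_left (f := φ) (g := g)).trans hs)).integrable_of_hasCompactSupport
    h2.mul_right

theorem lap_eq (f : ℂ → ℝ) {t : ℂ} (hf : ContDiffAt ℝ 2 f t) : lap f t =
    fderiv ℝ (fun s => fderiv ℝ f s 1) t 1 +
      fderiv ℝ (fun s => fderiv ℝ f s Complex.I) t Complex.I := by
  have h1 : DifferentiableAt ℝ (fderiv ℝ f) t :=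
    (hf.fderiv_right (m := 1) (by norm_num)).differentiableAt one_ne_zero
  rw [WGreen_two, fderiv_clm_apply h1 (differentiableAt_const _),
    fderiv_clm_apply h1 (differentiableAt_const _)]
  simp

theorem Tst.lap (h : Tst χ) : Tst (lap χ) := by
  have h1 : ContDiff ℝ ∞ (_root_.fderiv ℝ (_root_.fderiv ℝ χ)) :=
    (h.1.fderiv_right (m := ∞) le_rfl).fderiv_right (m := ∞) le_rfl
  rw [funext (WGreen_two χ)]
  exact ⟨((h1.clm_apply contDiff_const).clm_apply contDiff_const).add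
    ((h1.clm_apply contDiff_const).clm_apply contDiff_const),
    ((h.2.fderiv ℝ).fderiv ℝ).comp_left
      (g := fun D : ℂ →L[ℝ] ℂ →L[ℝ] ℝ => D 1 1 + D Complex.I Complex.I) (by simp)⟩

theorem tsupport_lap (χ : ℂ → ℝ) : tsupport (lap χ) ⊆ tsupport χ := by
  have h1 : tsupport (fderiv ℝ (fderiv ℝ χ)) ⊆ tsupport χ :=
    (tsupport_fderiv_subset ℝ).trans (tsupport_fderiv_subset ℝ)
  have h2 : Function.support (lap χ) ⊆ Function.support (fderiv ℝ (fderiv ℝ χ)) := fun t ht e => by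
    apply ht
    rw [WGreen_two, e]
    simp
  exact (closure_mono h2).trans h1

theorem Tst.fderiv (h : Tst χ) (v : ℂ) : Tst fun t => fderiv ℝ χ t v := by
  exact ⟨(h.1.fderiv_right (m := ∞) le_rfl).clm_apply contDiff_const, h.2.fderiv_apply ℝ v⟩

/-- a smooth cutoff equal to one near a compact set (`exists_contDiff_tsupport_subset` or
`exists_contMDiff_support_eq...`, `exists_smooth_one_nhds_of_subset_interior`) -/
theorem exists_cutoff {K : Set ℂ} (hK : IsCompact K) (hU : IsOpen U) (hKU : K ⊆ U) :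
    ∃ ψ : ℂ → ℝ, Tst ψ ∧ tsupport ψ ⊆ U ∧ (∀ t, 0 ≤ ψ t ∧ ψ t ≤ 1) ∧ ∀ᶠ t in 𝓝ˢ K, ψ t = 1 := by
  obtain ⟨L, hL, h1, h2⟩ := exists_compact_between hK hU hKU
  obtain ⟨f, h3, h4, h5⟩ := exists_contMDiffMap_one_nhds_of_subset_interior (n := ⊤)
    (modelWithCornersSelf ℝ ℂ) hK.isClosed h1
  have h6 : tsupport f ⊆ L :=
    closure_minimal (fun x hx => by_contra fun h => hx (h4 x h)) hL.isClosed
  exact ⟨f, ⟨f.contMDiff.contDiff, hL.of_isClosed_subset (isClosed_tsupport _) h6⟩, h6.trans h2,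
    h5, h3⟩

/-- integration by parts: replace `W` by `ψ W` with `ψ` from `exists_cutoff`, then
`integral_mul_fderiv_eq_neg_fderiv_mul_of_integrable` -/
theorem parts_local (h : Tst χ) (hU : IsOpen U) (hs : tsupport χ ⊆ U) {W : ℂ → ℝ}
    (hW : ContDiffOn ℝ 1 W U) (v : ℂ) :
    ∫ t, χ t * fderiv ℝ W t v = -∫ t, fderiv ℝ χ t v * W t := by
  have h1 := h.fderiv v
  refine integral_mul_fderiv_eq_neg_fderiv_mul_of_integrable
    (WGreen_int h1.1.continuous h1.2 hU ((tsupport_fderiv_apply_subset ℝ v).trans hs)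
      hW.continuousOn)
    (WGreen_int h.1.continuous h.2 hU hs
      ((hW.continuousOn_fderiv_of_isOpen hU le_rfl).clm_apply continuousOn_const))
    (WGreen_int h.1.continuous h.2 hU hs hW.continuousOn)
    (fun x _ => h.1.differentiable (by simp) x) fun x hx => ?_
  exact (hW.contDiffAt (hU.mem_nhds (hs hx))).differentiableAt one_ne_zero

theorem green_id (h : Tst χ) (hU : IsOpen U) (hs : tsupport χ ⊆ U) {u : ℂ → ℝ}
    (hu : ContDiffOn ℝ 2 u U) : ∫ t, χ t * lap u t = ∫ t, u t * lap χ t := by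
  have hd : ∀ v : ℂ, ContDiffOn ℝ 1 (fun s => fderiv ℝ u s v) U := fun v =>
    (hu.fderiv_of_isOpen hU (by norm_num)).clm_apply contDiffOn_const
  have key : ∀ v : ℂ, ∫ t, χ t * fderiv ℝ (fun s => fderiv ℝ u s v) t v =
      ∫ t, fderiv ℝ (fun s => fderiv ℝ χ s v) t v * u t := fun v => by
    rw [parts_local h hU hs (hd v), parts_local (h.fderiv v) hU
      ((tsupport_fderiv_apply_subset ℝ v).trans hs) (hu.of_le (by norm_num)), neg_neg]
  have i1 : ∀ v : ℂ, Integrable fun t => χ t * fderiv ℝ (fun s => fderiv ℝ u s v) t v := fun v =>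
    WGreen_int h.1.continuous h.2 hU hs
      (((hd v).continuousOn_fderiv_of_isOpen hU le_rfl).clm_apply continuousOn_const)
  have i2 : ∀ v : ℂ, Integrable fun t => fderiv ℝ (fun s => fderiv ℝ χ s v) t v * u t := fun v =>
    WGreen_int ((h.fderiv v).fderiv v).1.continuous ((h.fderiv v).fderiv v).2 hU
      (((tsupport_fderiv_apply_subset ℝ v).trans (tsupport_fderiv_apply_subset ℝ v)).trans hs)
      hu.continuousOn
  have e1 : ∀ t, χ t * lap u t = χ t * fderiv ℝ (fun s => fderiv ℝ u s 1) t 1 +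
      χ t * fderiv ℝ (fun s => fderiv ℝ u s Complex.I) t Complex.I := fun t => by
    by_cases ht : t ∈ U
    · rw [lap_eq u (hu.contDiffAt (hU.mem_nhds ht)), mul_add]
    · simp [image_eq_zero_of_notMem_tsupport fun h1 => ht (hs h1)]
  have e2 : ∀ t, u t * lap χ t = fderiv ℝ (fun s => fderiv ℝ χ s 1) t 1 * u t +
      fderiv ℝ (fun s => fderiv ℝ χ s Complex.I) t Complex.I * u t := fun t => by
    rw [lap_eq χ (h.1.of_le WGreen_le).contDiffAt, mul_comm, add_mul]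
  simp only [e1, e2]
  rw [integral_add (i1 _) (i1 _), integral_add (i2 _) (i2 _), key, key]

theorem integral_lap (h : Tst χ) : ∫ t, lap χ t = 0 := by
  have h1 := green_id h isOpen_univ (subset_univ _) (u := fun _ => 1) contDiffOn_const
  simpa using h1.symm

/-- `lap (θ ∘ X) = D²θ (X', X') + D²θ (i X', i X')`, the terms `Dθ (X'') + Dθ (-X'')` cancel -/
theorem lap_comp_eq {V : Type*} [NormedAddCommGroup V] [NormedSpace ℂ V] [CompleteSpace V]
    {θ : V → ℝ} {X : ℂ → V} {t : ℂ} (hX : AnalyticAt ℂ X t) (hθ : ContDiffAt ℝ 2 θ (X t)) :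
    lap (fun s => θ (X s)) t = fderiv ℝ (fderiv ℝ θ) (X t) (deriv X t) (deriv X t) +
      fderiv ℝ (fderiv ℝ θ) (X t) (Complex.I • deriv X t) (Complex.I • deriv X t) := by
  have hD : ∀ {Z : ℂ → V} {s : ℂ}, AnalyticAt ℂ Z s → HasFDerivAt Z
      ((ContinuousLinearMap.toSpanSingleton ℂ (deriv Z s)).restrictScalars ℝ) s := fun hZ =>
    hZ.differentiableAt.hasDerivAt.hasFDerivAt.restrictScalars ℝ
  have h1 : DifferentiableAt ℝ (fderiv ℝ θ) (X t) :=
    (hθ.fderiv_right (m := 1) (by norm_num)).differentiableAt one_ne_zero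
  have key : ∀ v : ℂ, fderiv ℝ (fun s => fderiv ℝ (fun s => θ (X s)) s v) t v =
      fderiv ℝ (fderiv ℝ θ) (X t) (v • deriv X t) (v • deriv X t) +
        fderiv ℝ θ (X t) ((v * v) • deriv (deriv X) t) := fun v => by
    have h2 : (fun s => fderiv ℝ (fun s => θ (X s)) s v) =ᶠ[𝓝 t]
        fun s => fderiv ℝ θ (X s) (v • deriv X s) := by
      filter_upwards [hX.eventually_analyticAt,
        hX.continuousAt.eventually (hθ.eventually (by simp))] with s h2 h3
      exact congrArg (fun D : ℂ →L[ℝ] ℝ => D v)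
        ((h3.differentiableAt two_ne_zero).hasFDerivAt.comp s (hD h2)).fderiv
    have h3 := (h1.hasFDerivAt.comp t (hD hX)).clm_apply ((hD hX.deriv).const_smul v)
    rw [h2.fderiv_eq]
    refine (congrArg (fun D : ℂ →L[ℝ] ℝ => D v) h3.fderiv).trans ?_
    simp [add_comm, smul_smul]
  rw [lap_eq (fun s => θ (X s)) (hθ.comp t (hX.restrictScalars (𝕜 := ℝ)).contDiffAt), key, key]
  simp only [one_smul, mul_one, Complex.I_mul_I, neg_smul, map_neg]
  ring

theorem lap_comp {w : ℂ → ℝ} {X : ℂ → ℂ} {t : ℂ} (hX : AnalyticAt ℂ X t)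
    (hw : ContDiffAt ℝ 2 w (X t)) :
    lap (fun s => w (X s)) t = ‖deriv X t‖ ^ 2 * lap w (X t) := by
  rw [lap_comp_eq hX hw, WGreen_two]
  generalize deriv X t = a
  generalize fderiv ℝ (fderiv ℝ w) (X t) = D
  have h1 : a = a.re • (1 : ℂ) + a.im • Complex.I := by simp
  have h2 : Complex.I • a = (-a.im) • (1 : ℂ) + a.re • Complex.I := by
    apply Complex.ext <;> simp
  rw [h2, Complex.sq_norm, Complex.normSq_apply]
  nth_rw 1 2 [h1]
  simp only [map_add, map_smul, add_apply, smul_apply,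
    smul_eq_mul]
  ring

theorem lap_comp_le {θ : E → ℝ} (hθ : Tst2 θ) : ∃ C : ℝ, 0 ≤ C ∧ ∀ (X : ℂ → E) (t : ℂ),
    AnalyticAt ℂ X t → |lap (fun s => θ (X s)) t| ≤ C * ‖deriv X t‖ ^ 2 := by
  obtain ⟨C, hC⟩ := (((hθ.1.fderiv_right (m := ∞) le_rfl).fderiv_right (m := ∞)
    le_rfl).continuous).bounded_above_of_compact_support ((hθ.2.fderiv ℝ).fderiv ℝ)
  have h0 : 0 ≤ C := (norm_nonneg _).trans (hC 0)
  refine ⟨2 * C, by positivity, fun X t hX => ?_⟩
  have h1 : ∀ v : E, |fderiv ℝ (fderiv ℝ θ) (X t) v v| ≤ C * ‖v‖ ^ 2 := fun v => by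
    refine ((fderiv ℝ (fderiv ℝ θ) (X t)).le_opNorm₂ v v).trans ?_
    rw [mul_assoc, ← sq]
    exact mul_le_mul_of_nonneg_right (hC _) (sq_nonneg _)
  rw [lap_comp_eq hX (hθ.1.of_le WGreen_le).contDiffAt]
  have h2 := h1 (Complex.I • deriv X t)
  rw [norm_smul, Complex.norm_I, one_mul] at h2
  exact (abs_add_le _ _).trans (by linarith [h1 (deriv X t)])

/-- radial functions -/
theorem lap_radial {β : ℝ → ℝ} {w : ℂ} (hβ : ContDiffAt ℝ 2 β (‖w‖ ^ 2)) :
    lap (fun z => β (‖z‖ ^ 2)) w =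
      4 * (deriv β (‖w‖ ^ 2) + ‖w‖ ^ 2 * deriv (deriv β) (‖w‖ ^ 2)) := by
  have hn : ∀ s : ℂ, HasFDerivAt (fun z : ℂ => ‖z‖ ^ 2) (2 • innerSL ℝ s) s := fun s =>
    (hasStrictFDerivAt_norm_sq s).hasFDerivAt
  have h1 : DifferentiableAt ℝ (deriv β) (‖w‖ ^ 2) :=
    (hβ.derivWithin (m := 1) (by norm_num)).differentiableAt one_ne_zero
  have key : ∀ v : ℂ, fderiv ℝ (fun s => fderiv ℝ (fun z : ℂ => β (‖z‖ ^ 2)) s v) w v =
      4 * deriv (deriv β) (‖w‖ ^ 2) * inner ℝ w v ^ 2 + 2 * deriv β (‖w‖ ^ 2) * inner ℝ v v :=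
    fun v => by
    have h2 : (fun s => fderiv ℝ (fun z : ℂ => β (‖z‖ ^ 2)) s v) =ᶠ[𝓝 w]
        fun s => deriv β (‖s‖ ^ 2) * (2 * innerSL ℝ v s) := by
      filter_upwards [(hn w).continuousAt.eventually (hβ.eventually (by simp))] with s h2
      refine (congrArg (fun D : ℂ →L[ℝ] ℝ => D v)
        ((h2.differentiableAt two_ne_zero).hasDerivAt.comp_hasFDerivAt s (hn s)).fderiv).trans ?_
      simp [-Complex.inner, real_inner_comm]
    have h3 := (h1.hasDerivAt.comp_hasFDerivAt w (hn w)).mul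
      ((innerSL ℝ v).hasFDerivAt.const_mul 2)
    rw [h2.fderiv_eq]
    refine (congrArg (fun D : ℂ →L[ℝ] ℝ => D v) h3.fderiv).trans ?_
    simp [-Complex.inner, real_inner_comm]
    ring
  rw [lap_eq (fun z : ℂ => β (‖z‖ ^ 2)) (hβ.comp w (contDiff_norm_sq ℝ).contDiffAt), key, key]
  generalize deriv (deriv β) (‖w‖ ^ 2) = A
  generalize deriv β (‖w‖ ^ 2) = B
  rw [Complex.sq_norm,
    Complex.normSq_apply]
  simp
  ring

theorem lap_log_eps {ε : ℝ} (hε : 0 < ε) (w : ℂ) :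
    lap (fun z => Real.log (‖z‖ ^ 2 + ε ^ 2) / 2) w = 2 * ε ^ 2 / (‖w‖ ^ 2 + ε ^ 2) ^ 2 := by
  have h0 : 0 < ‖w‖ ^ 2 + ε ^ 2 := by positivity
  have h1 : ∀ r : ℝ, 0 < r + ε ^ 2 →
      deriv (fun r => Real.log (r + ε ^ 2) / 2) r = (r + ε ^ 2)⁻¹ / 2 := fun r hr => by
    simpa using ((((hasDerivAt_id r).add_const (ε ^ 2)).log hr.ne').div_const 2).deriv
  have h2 : deriv (fun r => Real.log (r + ε ^ 2) / 2) =ᶠ[𝓝 (‖w‖ ^ 2)]
      fun r => (r + ε ^ 2)⁻¹ / 2 :=
    (ContinuousAt.eventually_lt (f := fun _ => (0 : ℝ)) (g := fun r : ℝ => r + ε ^ 2)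
      continuousAt_const (by fun_prop) h0).mono h1
  have h3 := ((((hasDerivAt_id (‖w‖ ^ 2)).add_const (ε ^ 2)).fun_inv h0.ne').div_const 2).deriv
  simp only [id] at h3
  rw [lap_radial (β := fun r => Real.log (r + ε ^ 2) / 2)
    (((contDiffAt_id.add contDiffAt_const).log h0.ne').div_const 2), h1 _ h0, h2.deriv_eq, h3]
  field_simp
  ring

end Pool.Agent.Lib.MP_7b5e47_an.Hn
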